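import Mathlib

noncomputable section

namespace MPb07157

/-- Adapted coordinates: a linearly independent family of linear forms on `ℝ^n` is part of an
invertible linear change of coordinates. -/
theorem exists_adapted {n : ℕ} {ι : Type} (a : ι → Fin n → ℝ) (B : Finset ι)
    (hB : LinearIndepOn ℝ a (B : Set ι)) :
    ∃ (P : Matrix (Fin n) (Fin n) ℝ) (e : B → Fin n), IsUnit P.det ∧ Function.Injective e ∧
      ∀ j : B, P (e j) = a j := by
  classical
  have hs : LinearIndepOn ℝ id (a '' (B : Set ι)) := hB.id_image
  let b := Module.Basis.extend hs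
  haveI : Fintype (hs.extend (Set.subset_univ _)) := FiniteDimensional.fintypeBasisIndex b
  have hcard : Fintype.card (hs.extend (Set.subset_univ (a '' (B : Set ι)))) = n := by
    have := Module.finrank_eq_card_basis b
    simpa using this.symm
  let eqv : (hs.extend (Set.subset_univ (a '' (B : Set ι)))) ≃ Fin n :=
    Fintype.equivFinOfCardEq hcard
  let b' := b.reindex eqv
  have hsub : a '' (B : Set ι) ⊆ hs.extend (Set.subset_univ _) := hs.subset_extend _
  refine ⟨fun i => b' i, fun j => eqv ⟨a j, hsub ⟨j, j.2, rfl⟩⟩, ?_, ?_, ?_⟩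
  · have h1 : LinearIndependent ℝ (fun i => b' i) := b'.linearIndependent
    have h2 := (Matrix.linearIndependent_rows_iff_isUnit (A := (fun i => b' i : Matrix (Fin n) (Fin n) ℝ))).1 h1
    exact (Matrix.isUnit_iff_isUnit_det _).1 h2
  · intro j k hjk
    have h1 := eqv.injective hjk
    have h2 : a j = a k := by simpa using h1
    exact Subtype.ext (hB.injOn j.2 k.2 h2)
  · intro j
    simp [b', b]

end MPb07157
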