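import Pool.Agent.Lib.MP_b07157_ag.Defs

/-!
# An analytic criterion for roots of the Bernstein–Sato polynomial

If the integral of `G^s φ` over a region where `G > 0` diverges as `s` decreases to `s₀ ≥ -1`,
then `s₀` is a root of the Bernstein–Sato polynomial.
-/

noncomputable section

namespace MPb07157

open MvPolynomial MeasureTheory Filter Topology

/-- Evaluation of an element of `ℂ[s][x]` at a complex `s` and a real point `x`. -/
def ev {n : ℕ} (s : ℂ) (x : Fin n → ℝ) : MvPolynomial (Fin n) (Polynomial ℂ) →+* ℂ :=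
  eval₂Hom (Polynomial.evalRingHom s) (fun i => (x i : ℂ))

lemma ev_C {n : ℕ} (s : ℂ) (x : Fin n → ℝ) (p : Polynomial ℂ) : ev s x (C p) = p.eval s := by
  simp [ev]

lemma ev_X {n : ℕ} (s : ℂ) (x : Fin n → ℝ) (i : Fin n) : ev s x (X i) = (x i : ℂ) := by
  simp [ev]

lemma ev_liftS {n : ℕ} (s : ℂ) (x : Fin n → ℝ) (f : MvPolynomial (Fin n) ℂ) :
    ev s x (liftS f) = eval (fun i => (x i : ℂ)) f := by
  unfold liftS ev
  rw [coe_eval₂Hom, eval₂_map, eval]
  simp only [coe_eval₂Hom]
  congr 1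
  ext a
  · simp

lemma eval_ofReal {n : ℕ} (x : Fin n → ℝ) (G : MvPolynomial (Fin n) ℝ) :
    eval (fun i => (x i : ℂ)) (map (algebraMap ℝ ℂ) G) = ((eval x G : ℝ) : ℂ) := by
  rw [eval_map]
  induction G using MvPolynomial.induction_on with
  | C a => simp
  | add p q hp hq => simp [hp, hq]
  | mul_X p i hp => simp [hp]

lemma continuous_ev {n : ℕ} (s : ℂ) (g : MvPolynomial (Fin n) (Polynomial ℂ)) :
    Continuous (fun x : Fin n → ℝ => ev s x g) := by
  induction g using MvPolynomial.induction_on with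
  | C a => simp only [ev_C]; exact continuous_const
  | add p q hp hq => simp only [map_add]; exact hp.add hq
  | mul_X p i hp => 
    simp only [map_mul, ev_X]
    exact hp.mul (by fun_prop)

lemma continuous_evalR {n : ℕ} (G : MvPolynomial (Fin n) ℝ) :
    Continuous (fun x : Fin n → ℝ => eval x G) := MvPolynomial.continuous_eval G

lemma hasLineDerivAt_ev {n : ℕ} (s : ℂ) (g : MvPolynomial (Fin n) (Polynomial ℂ)) (i : Fin n)
    (x : Fin n → ℝ) :
    HasLineDerivAt ℝ (fun x : Fin n → ℝ => ev s x g) (ev s x (pderiv i g)) x (Pi.single i 1) := by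
  induction g using MvPolynomial.induction_on with
  | C a => 
    simp only [ev_C, pderiv_C, map_zero]
    exact hasDerivAt_const _ _
  | add p q hp hq => 
    simp only [map_add]
    exact HasDerivAt.add hp hq
  | mul_X p j hp => 
    have hX : HasLineDerivAt ℝ (fun x : Fin n → ℝ => (x j : ℂ))
        ((Pi.single i (1 : ℝ) : Fin n → ℝ) j : ℂ) x (Pi.single i 1) := by
      unfold HasLineDerivAt
      have h1 : HasDerivAt (fun t : ℝ => (x + t • (Pi.single i (1 : ℝ) : Fin n → ℝ)) j)
          ((Pi.single i (1 : ℝ) : Fin n → ℝ) j) 0 := by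
        simp only [Pi.add_apply, Pi.smul_apply, smul_eq_mul]
        simpa using ((hasDerivAt_id (0 : ℝ)).mul_const
          ((Pi.single i (1 : ℝ) : Fin n → ℝ) j)).const_add (x j)
      exact h1.ofReal_comp
    have h := HasDerivAt.mul hp hX
    simp only [map_mul, ev_X, Derivation.leibniz, map_add, smul_eq_mul]
    unfold HasLineDerivAt
    convert! h using 1
    rw [pderiv_X]
    by_cases hij : i = j
    · subst hij; simp; ring
    · have e1 : j ≠ i := Ne.symm hij
      simp [Pi.single_eq_of_ne e1]; ring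

lemma hasLineDerivAt_evalR {n : ℕ} (G : MvPolynomial (Fin n) ℝ) (i : Fin n)
    (x : Fin n → ℝ) :
    HasLineDerivAt ℝ (fun x : Fin n → ℝ => eval x G) (eval x (pderiv i G)) x (Pi.single i 1) := by
  induction G using MvPolynomial.induction_on with
  | C a => 
    simp only [eval_C, pderiv_C, map_zero]
    exact hasDerivAt_const _ _
  | add p q hp hq => 
    simp only [map_add]
    exact HasDerivAt.add hp hq
  | mul_X p j hp => 
    have hX : HasLineDerivAt ℝ (fun x : Fin n → ℝ => x j)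
        ((Pi.single i (1 : ℝ) : Fin n → ℝ) j) x (Pi.single i 1) := by
      unfold HasLineDerivAt
      simp only [Pi.add_apply, Pi.smul_apply, smul_eq_mul]
      simpa using ((hasDerivAt_id (0 : ℝ)).mul_const
          ((Pi.single i (1 : ℝ) : Fin n → ℝ) j)).const_add (x j)
    have h := HasDerivAt.mul hp hX
    simp only [map_mul, eval_X, Derivation.leibniz, map_add, smul_eq_mul]
    unfold HasLineDerivAt
    convert! h using 1
    rw [pderiv_X]
    by_cases hij : i = j
    · subst hij; simp; ring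
    · have e1 : j ≠ i := Ne.symm hij
      simp [Pi.single_eq_of_ne e1]; ring


/-! ### Test families -/

/-- Polynomials in `s` with coefficients smooth functions supported in `K`. -/
inductive TF {n : ℕ} (K : Set (Fin n → ℝ)) : (ℂ → (Fin n → ℝ) → ℂ) → Prop
  | mono (j : ℕ) (η : (Fin n → ℝ) → ℂ) (hη : ContDiff ℝ (⊤ : ℕ∞) η) (hK : tsupport η ⊆ K) :
      TF K (fun s x => s ^ j * η x)
  | add {φ ψ : ℂ → (Fin n → ℝ) → ℂ} : TF K φ → TF K ψ → TF K (fun s x => φ s x + ψ s x)

lemma TF.const_mul {n : ℕ} {K : Set (Fin n → ℝ)} {φ : ℂ → (Fin n → ℝ) → ℂ} (h : TF K φ) (a : ℂ) :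
    TF K (fun s x => a * φ s x) := by
  induction h with
  | mono j η hη hK =>
    have := TF.mono j (fun x => a * η x) (contDiff_const.mul hη)
      ((tsupport_mul_subset_right (f := fun _ => a) (g := η)).trans hK)
    convert this using 3
    ring
  | add _ _ h1 h2 =>
    convert h1.add h2 using 3
    ring

lemma TF.s_mul {n : ℕ} {K : Set (Fin n → ℝ)} {φ : ℂ → (Fin n → ℝ) → ℂ} (h : TF K φ) (m : ℕ) :
    TF K (fun s x => s ^ m * φ s x) := by
  induction h with
  | mono j η hη hK =>
    have := TF.mono (j + m) η hη hK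
    convert this using 3
    ring
  | add _ _ h1 h2 =>
    convert h1.add h2 using 3
    ring

lemma contDiff_coord {n : ℕ} (i : Fin n) : ContDiff ℝ (⊤ : ℕ∞) (fun x : Fin n → ℝ => (x i : ℂ)) :=
  Complex.ofRealCLM.contDiff.comp (contDiff_apply ℝ ℝ i)

lemma TF.coord_mul {n : ℕ} {K : Set (Fin n → ℝ)} {φ : ℂ → (Fin n → ℝ) → ℂ} (h : TF K φ)
    (i : Fin n) : TF K (fun s x => (x i : ℂ) * φ s x) := by
  induction h with
  | mono j η hη hK =>
    have := TF.mono j (fun x => (x i : ℂ) * η x) ((contDiff_coord i).mul hη)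
      ((tsupport_mul_subset_right (f := fun x : Fin n → ℝ => (x i : ℂ)) (g := η)).trans hK)
    convert this using 3
    ring
  | add _ _ h1 h2 =>
    convert h1.add h2 using 3
    ring

lemma TF.ev_mul {n : ℕ} {K : Set (Fin n → ℝ)} {φ : ℂ → (Fin n → ℝ) → ℂ} (h : TF K φ)
    (c : MvPolynomial (Fin n) (Polynomial ℂ)) : TF K (fun s x => ev s x c * φ s x) := by
  induction c using MvPolynomial.induction_on generalizing φ with
  | C a =>
    simp only [ev_C]
    induction a using Polynomial.induction_on' with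
    | add p q hp hq =>
      convert hp.add hq using 3
      simp; ring
    | monomial m a =>
      convert (h.s_mul m).const_mul a using 3
      simp; ring
  | add p q hp hq =>
    convert (hp h).add (hq h) using 3
    simp; ring
  | mul_X p i hp =>
    convert hp (h.coord_mul i) using 3
    simp [ev_X]; ring

lemma TF.continuous {n : ℕ} {K : Set (Fin n → ℝ)} {φ : ℂ → (Fin n → ℝ) → ℂ} (h : TF K φ)
    (s : ℂ) : Continuous (φ s) := by
  induction h with
  | mono j η hη hK => exact continuous_const.mul hη.continuous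
  | add _ _ h1 h2 => exact h1.add h2

lemma TF.eq_zero {n : ℕ} {K : Set (Fin n → ℝ)} {φ : ℂ → (Fin n → ℝ) → ℂ} (h : TF K φ)
    (s : ℂ) (x : Fin n → ℝ) (hx : x ∉ K) : φ s x = 0 := by
  induction h with
  | mono j η hη hK => 
    show s ^ j * η x = 0
    rw [image_eq_zero_of_notMem_tsupport (fun h => hx (hK h)), mul_zero]
  | @add a b _ _ h1 h2 => 
    show a s x + b s x = 0
    rw [h1, h2, add_zero]

lemma TF.hasLineDerivAt {n : ℕ} {K : Set (Fin n → ℝ)} {φ : ℂ → (Fin n → ℝ) → ℂ} (h : TF K φ)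
    (v : Fin n → ℝ) : ∃ φ', TF K φ' ∧ ∀ s x, HasLineDerivAt ℝ (φ s) (φ' s x) x v := by
  induction h with
  | mono j η hη hK =>
    refine ⟨fun s x => s ^ j * fderiv ℝ η x v, ?_, ?_⟩
    · refine TF.mono j _ ?_ ?_
      · exact (hη.fderiv_right (m := (⊤ : ℕ∞)) (by simp)).clm_apply contDiff_const
      · exact (tsupport_fderiv_apply_subset ℝ v).trans hK
    · intro s x
      have hd : DifferentiableAt ℝ η x := (hη.differentiable (by simp)).differentiableAt
      exact (hd.hasFDerivAt.hasLineDerivAt v).const_mul (s ^ j)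
  | add _ _ h1 h2 =>
    obtain ⟨a, ha, ha'⟩ := h1
    obtain ⟨b, hb, hb'⟩ := h2
    exact ⟨_, ha.add hb, fun s x => (ha' s x).add (hb' s x)⟩

/-! ### Integration by parts -/

lemma continuous_indicator_rpow {n : ℕ} {Ω : Set (Fin n → ℝ)} {G : MvPolynomial (Fin n) ℝ}
    (hfr : ∀ x ∈ frontier Ω, eval x G = 0) {τ : ℝ} (hτ : 0 < τ) :
    Continuous (Ω.indicator (fun x => (eval x G) ^ τ)) := by
  refine continuous_indicator (fun a ha => ?_) ?_
  · rw [hfr a ha, Real.zero_rpow hτ.ne']
  · exact ((continuous_evalR G).rpow_const (fun x => Or.inr hτ.le)).continuousOn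

lemma hasLineDerivAt_indicator {n : ℕ} {Ω : Set (Fin n → ℝ)} (hΩ : IsOpen Ω)
    {G : MvPolynomial (Fin n) ℝ}
    (hfr : ∀ x ∈ frontier Ω, eval x G = 0) {τ : ℝ} (hτ : 1 < τ) (i : Fin n) (x : Fin n → ℝ) :
    HasLineDerivAt ℝ (Ω.indicator (fun x => (eval x G) ^ τ))
      (Ω.indicator (fun x => τ * (eval x G) ^ (τ - 1) * eval x (pderiv i G)) x) x
      (Pi.single i 1) := by
  set v : Fin n → ℝ := Pi.single i 1 with hv
  have hline : Continuous (fun t : ℝ => x + t • v) := by fun_prop
  have hG : HasDerivAt (fun t : ℝ => (eval (x + t • v) G) ^ τ)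
      (eval x (pderiv i G) * τ * (eval x G) ^ (τ - 1)) 0 := by
    have h := hasLineDerivAt_evalR G i x
    have h2 := HasDerivAt.rpow_const (p := τ) h (Or.inr hτ.le)
    simpa using h2
  by_cases hx : x ∈ Ω
  · rw [Set.indicator_of_mem hx]
    have hev : (fun t : ℝ => (Ω.indicator (fun x => (eval x G) ^ τ)) (x + t • v)) =ᶠ[𝓝 0]
        (fun t : ℝ => (eval (x + t • v) G) ^ τ) := by
      have : ∀ᶠ t in 𝓝 (0 : ℝ), x + t • v ∈ Ω := 
        hline.continuousAt.eventually (by simpa using hΩ.mem_nhds hx)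
      filter_upwards [this] with t ht
      rw [Set.indicator_of_mem ht]
    unfold HasLineDerivAt
    convert! hG.congr_of_eventuallyEq hev using 1
    ring
  · rw [Set.indicator_of_notMem hx]
    by_cases hc : x ∈ closure Ω
    · have hxf : x ∈ frontier Ω := ⟨hc, by rwa [hΩ.interior_eq]⟩
      have h0 := hfr x hxf
      rw [h0, Real.zero_rpow (by linarith), mul_zero] at hG
      unfold HasLineDerivAt
      rw [hasDerivAt_iff_isLittleO_nhds_zero] at hG ⊢
      refine Asymptotics.IsBigO.trans_isLittleO ?_ hG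
      refine Asymptotics.IsBigO.of_bound 1 (Eventually.of_forall fun t => ?_)
      simp only [zero_add, zero_smul, add_zero, smul_zero, sub_zero, one_mul, h0,
        Set.indicator_of_notMem hx, Real.zero_rpow (by linarith : τ ≠ 0)]
      by_cases ht : x + t • v ∈ Ω
      · rw [Set.indicator_of_mem ht]
      · rw [Set.indicator_of_notMem ht, norm_zero]; exact norm_nonneg _
    · have hev : (fun t : ℝ => (Ω.indicator (fun x => (eval x G) ^ τ)) (x + t • v)) =ᶠ[𝓝 0]
        (fun t : ℝ => (0 : ℝ)) := by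
        have : ∀ᶠ t in 𝓝 (0 : ℝ), x + t • v ∈ (closure Ω)ᶜ := 
          hline.continuousAt.preimage_mem_nhds (by
            rw [zero_smul, add_zero]
            exact isClosed_closure.isOpen_compl.mem_nhds hc)
        filter_upwards [this] with t ht
        rw [Set.indicator_of_notMem (fun h => ht (subset_closure h))]
      exact (hasDerivAt_const (0 : ℝ) (0 : ℝ)).congr_of_eventuallyEq hev

lemma TF.integrable {n : ℕ} {K : Set (Fin n → ℝ)} (hK : IsCompact K)
    {φ : ℂ → (Fin n → ℝ) → ℂ} (h : TF K φ) (s : ℂ) {F : (Fin n → ℝ) → ℂ} (hF : Continuous F) :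
    Integrable (fun x => F x * φ s x) := by
  refine Continuous.integrable_of_hasCompactSupport (hF.mul (h.continuous s)) ?_
  refine HasCompactSupport.intro hK (fun x hx => ?_)
  rw [h.eq_zero s x hx, mul_zero]

/-- Integration by parts. -/
lemma ibp {n : ℕ} {Ω : Set (Fin n → ℝ)} (hΩ : IsOpen Ω) {G : MvPolynomial (Fin n) ℝ}
    (hfr : ∀ x ∈ frontier Ω, eval x G = 0) {τ : ℝ} (hτ : 1 < τ) (i : Fin n)
    {K : Set (Fin n → ℝ)} (hK : IsCompact K) {φ φ' : ℂ → (Fin n → ℝ) → ℂ} (h : TF K φ)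
    (h' : TF K φ') (s : ℂ)
    (hd : ∀ x, HasLineDerivAt ℝ (φ s) (φ' s x) x (Pi.single i 1))
    (g : MvPolynomial (Fin n) (Polynomial ℂ)) :
    ∫ x in Ω, (((eval x G) ^ τ : ℝ) * ev s x (pderiv i g)
      + ((τ * (eval x G) ^ (τ - 1) * eval x (pderiv i G) : ℝ) : ℂ) * ev s x g) * φ s x
    = - ∫ x in Ω, (((eval x G) ^ τ : ℝ) : ℂ) * ev s x g * φ' s x := by
  set u : (Fin n → ℝ) → ℝ := Ω.indicator (fun x => (eval x G) ^ τ) with hu
  set u' : (Fin n → ℝ) → ℝ := 
    Ω.indicator (fun x => τ * (eval x G) ^ (τ - 1) * eval x (pderiv i G)) with hu'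
  have hcu : Continuous u := continuous_indicator_rpow hfr (by linarith)
  have hcu' : Continuous u' := by
    refine continuous_indicator (fun a ha => ?_) ?_
    · rw [hfr a ha, Real.zero_rpow (by linarith)]; ring
    · have : Continuous (fun x => (eval x G) ^ (τ - 1)) :=
        (continuous_evalR G).rpow_const (fun x => Or.inr (by linarith))
      exact ((continuous_const.mul this).mul (continuous_evalR _)).continuousOn
  have hcg := continuous_ev s g
  have hcg' := continuous_ev s (pderiv i g)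
  have hcu2 : Continuous (fun x => (u x : ℂ)) := Complex.continuous_ofReal.comp hcu
  have hcu2' : Continuous (fun x => (u' x : ℂ)) := Complex.continuous_ofReal.comp hcu'
  have key := integral_bilinear_hasLineDerivAt_right_eq_neg_left_of_integrable
    (μ := (volume : Measure (Fin n → ℝ)))
    (f := fun x => (u x : ℂ) * ev s x g)
    (f' := fun x => (u' x : ℂ) * ev s x g + (u x : ℂ) * ev s x (pderiv i g))
    (g := φ s) (g' := φ' s) (v := Pi.single i 1) (B := ContinuousLinearMap.mul ℝ ℂ)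
    (by
      simp only [ContinuousLinearMap.mul_apply']
      exact h.integrable hK s ((hcu2'.mul hcg).add (hcu2.mul hcg')))
    (by
      simp only [ContinuousLinearMap.mul_apply']
      exact h'.integrable hK s (hcu2.mul hcg))
    (by
      simp only [ContinuousLinearMap.mul_apply']
      exact h.integrable hK s (hcu2.mul hcg))
    (by
      intro x _
      have h1 : HasLineDerivAt ℝ (fun x => (u x : ℂ)) (u' x : ℂ) x (Pi.single i 1) :=
        (hasLineDerivAt_indicator hΩ hfr hτ i x).ofReal_comp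
      have h2 := hasLineDerivAt_ev s g i x
      have h3 := HasDerivAt.mul h1 h2
      unfold HasLineDerivAt
      convert! h3 using 1
      simp)
    (fun x _ => hd x)
  simp only [ContinuousLinearMap.mul_apply'] at key
  rw [← integral_indicator hΩ.measurableSet, ← integral_indicator hΩ.measurableSet]
  rw [eq_neg_iff_add_eq_zero, ← eq_neg_iff_add_eq_zero, ← neg_eq_iff_eq_neg] at key
  convert key.symm using 1
  · refine integral_congr_ae (Eventually.of_forall fun x => ?_)
    by_cases hx : x ∈ Ω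
    · simp only [hu, hu', Set.indicator_of_mem hx]; push_cast; ring
    · simp only [hu, hu', Set.indicator_of_notMem hx]; simp
  · congr 1
    refine integral_congr_ae (Eventually.of_forall fun x => ?_)
    by_cases hx : x ∈ Ω
    · simp only [hu, Set.indicator_of_mem hx]
    · simp only [hu, Set.indicator_of_notMem hx]; simp

/-- The functional equation: elements `g f^{s+1-k}` of `D_n[s] f^{s+1}` pair with test families like
`f^{s+1}`. -/
lemma key {n : ℕ} (f : MvPolynomial (Fin n) ℂ)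
    (G : MvPolynomial (Fin n) ℝ) (σ : ℝ) (hσ : σ = 1 ∨ σ = -1)
    (hf : f = C (σ : ℂ) * map (algebraMap ℝ ℂ) G)
    {Ω : Set (Fin n → ℝ)} (hΩ : IsOpen Ω)
    (hpos : ∀ x ∈ Ω, 0 < eval x G) (hfr : ∀ x ∈ frontier Ω, eval x G = 0)
    {K : Set (Fin n → ℝ)} (hK : IsCompact K)
    {k : ℕ} {g : MvPolynomial (Fin n) (Polynomial ℂ)} (h : InDn f k g) :
    ∀ φ : ℂ → (Fin n → ℝ) → ℂ, TF K φ → ∃ ψ, TF K ψ ∧ ∀ᶠ s : ℝ in atTop,
      ∫ x in Ω, (((eval x G) ^ (s + 1 - k) : ℝ) : ℂ) * ev s x g * φ s x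
        = ∫ x in Ω, (((eval x G) ^ (s + 1) : ℝ) : ℂ) * ψ s x := by
  have hσ2 : (σ : ℂ) * σ = 1 := by rcases hσ with h | h <;> rw [h] <;> norm_num
  have hevf : ∀ (s : ℂ) (x : Fin n → ℝ), ev s x (liftS f) = σ * ((eval x G : ℝ) : ℂ) := by
    intro s x
    rw [ev_liftS, hf, map_mul, eval_ofReal, eval_C]
  have hevf' : ∀ (s : ℂ) (x : Fin n → ℝ) (i : Fin n), ev s x (liftS (pderiv i f)) 
      = σ * ((eval x (pderiv i G) : ℝ) : ℂ) := by
    intro s x i
    rw [ev_liftS, hf]
    have : pderiv i (C (σ : ℂ) * map (algebraMap ℝ ℂ) G) 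
        = C (σ : ℂ) * map (algebraMap ℝ ℂ) (pderiv i G) := by
      rw [pderiv_C_mul, pderiv_map]
    rw [this, map_mul, eval_ofReal, eval_C]
  induction h with
  | base =>
    intro φ hφ
    refine ⟨φ, hφ, Eventually.of_forall fun s => ?_⟩
    simp
  | @add k g h hg hh ihg ihh =>
    intro φ hφ
    obtain ⟨ψ1, h1, e1⟩ := ihg φ hφ
    obtain ⟨ψ2, h2, e2⟩ := ihh φ hφ
    refine ⟨_, h1.add h2, ?_⟩
    filter_upwards [e1, e2, eventually_ge_atTop (k : ℝ), eventually_ge_atTop (0 : ℝ)] 
      with s e1 e2 hs hs0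
    have hc1 : Continuous (fun x : Fin n → ℝ => (((eval x G) ^ (s + 1 - k) : ℝ) : ℂ)) :=
      Complex.continuous_ofReal.comp
        ((continuous_evalR G).rpow_const (fun x => Or.inr (by linarith)))
    have hc2 : Continuous (fun x : Fin n → ℝ => (((eval x G) ^ (s + 1) : ℝ) : ℂ)) :=
      Complex.continuous_ofReal.comp
        ((continuous_evalR G).rpow_const (fun x => Or.inr (by linarith)))
    simp only [map_add, mul_add, add_mul]
    rw [integral_add, integral_add, e1, e2]
    · exact (h1.integrable hK s hc2).integrableOn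
    · exact (h2.integrable hK s hc2).integrableOn
    · exact (hφ.integrable hK s (hc1.mul (continuous_ev s g))).integrableOn
    · exact (hφ.integrable hK s (hc1.mul (continuous_ev s h))).integrableOn
  | @mul k g c hg ih =>
    intro φ hφ
    obtain ⟨ψ, h1, e1⟩ := ih _ (hφ.ev_mul c)
    refine ⟨ψ, h1, ?_⟩
    filter_upwards [e1] with s e1
    rw [← e1]
    congr 1
    ext x
    rw [map_mul]; ring
  | @deriv k g i hg ih =>
    intro φ hφ
    obtain ⟨φ', hφ', hd⟩ := hφ.hasLineDerivAt (Pi.single i 1)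
    obtain ⟨ψ, h1, e1⟩ := ih _ (hφ'.const_mul (-σ : ℂ))
    refine ⟨ψ, h1, ?_⟩
    filter_upwards [e1, eventually_gt_atTop (k : ℝ)] with s e1 hs
    rw [← e1]
    have hI := ibp hΩ hfr (τ := s + 1 - k) (by linarith) i hK hφ hφ' s (hd s) g
    have e3 : ∫ x in Ω, (((eval x G) ^ (s + 1 - k) : ℝ) : ℂ) * ev s x g * (-σ * φ' s x)
        = σ * (- ∫ x in Ω, (((eval x G) ^ (s + 1 - k) : ℝ) : ℂ) * ev s x g * φ' s x) := by
      rw [← integral_neg, ← integral_const_mul]
      congr 1
      ext x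
      ring
    rw [e3, ← hI, ← integral_const_mul]
    refine setIntegral_congr_fun hΩ.measurableSet (fun x hx => ?_)
    have hp := hpos x hx
    have e4 : (eval x G) ^ (s + 1 - k) = eval x G * (eval x G) ^ (s + 1 - k - 1) := by
      rw [← Real.rpow_one_add' hp.le (by linarith)]; ring_nf
    have e5 : s + 1 - ((k + 1 : ℕ) : ℝ) = s + 1 - k - 1 := by push_cast; ring
    simp only [map_add, map_mul, hevf, hevf', ev_C]
    rw [e5, e4]
    simp only [Polynomial.eval_sub, Polynomial.eval_add, Polynomial.eval_X, Polynomial.eval_one,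
      Polynomial.eval_natCast]
    push_cast
    ring
  | @raise k g hg ih =>
    intro φ hφ
    obtain ⟨ψ, h1, e1⟩ := ih _ (hφ.const_mul (σ : ℂ))
    refine ⟨ψ, h1, ?_⟩
    filter_upwards [e1, eventually_gt_atTop (k : ℝ)] with s e1 hs
    rw [← e1]
    refine setIntegral_congr_fun hΩ.measurableSet (fun x hx => ?_)
    have hp := hpos x hx
    have e4 : (eval x G) ^ (s + 1 - k) = eval x G * (eval x G) ^ (s + 1 - k - 1) := by
      rw [← Real.rpow_one_add' hp.le (by linarith)]; ring_nf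
    have e5 : s + 1 - ((k + 1 : ℕ) : ℝ) = s + 1 - k - 1 := by push_cast; ring
    simp only [map_mul, hevf]
    rw [e5, e4]
    push_cast
    ring
  | @lower k g hg ih =>
    intro φ hφ
    obtain ⟨ψ, h1, e1⟩ := ih _ (hφ.const_mul (σ : ℂ))
    refine ⟨ψ, h1, ?_⟩
    filter_upwards [e1, eventually_gt_atTop (k : ℝ)] with s e1 hs
    rw [← e1]
    refine setIntegral_congr_fun hΩ.measurableSet (fun x hx => ?_)
    have hp := hpos x hx
    have e4 : (eval x G) ^ (s + 1 - k) = eval x G * (eval x G) ^ (s + 1 - k - 1) := by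
      rw [← Real.rpow_one_add' hp.le (by linarith)]; ring_nf
    have e5 : s + 1 - ((k + 1 : ℕ) : ℝ) = s + 1 - k - 1 := by push_cast; ring
    simp only [map_mul, hevf]
    rw [e5, e4]
    push_cast
    linear_combination (-((eval x G : ℝ) : ℂ) * (((eval x G) ^ (s + 1 - k - 1) : ℝ) : ℂ)
      * ev s x g * φ s x) * hσ2

/-! ### Holomorphy -/

lemma norm_cexp_mul_log {s : ℂ} {y : ℝ} (hy : 0 < y) :
    ‖Complex.exp (s * (Real.log y : ℝ))‖ = y ^ s.re := by
  rw [Complex.norm_exp, Real.rpow_def_of_pos hy]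
  congr 1
  simp [mul_comm]

lemma cexp_mul_log {s : ℝ} {y : ℝ} (hy : 0 < y) :
    Complex.exp ((s : ℂ) * (Real.log y : ℝ)) = ((y ^ s : ℝ) : ℂ) := by
  rw [Real.rpow_def_of_pos hy]
  push_cast
  rw [mul_comm]

/-- The domain of integration `D`: `0 < G ≤ 1` on `D`, and `G^s` is integrable for
`s₀ < s < 0`. Then `∫ G^s η` is holomorphic for `Re s > s₀`. -/
lemma differentiableOn_integral {n : ℕ} {G : MvPolynomial (Fin n) ℝ} {D : Set (Fin n → ℝ)}
    (hD : MeasurableSet D) (hG : ∀ x ∈ D, 0 < eval x G ∧ eval x G ≤ 1) {s₀ : ℝ} (hs₀ : s₀ < 0)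
    (hint : ∀ s : ℝ, s₀ < s → s < 0 → IntegrableOn (fun x => (eval x G) ^ s) D volume)
    {η : (Fin n → ℝ) → ℂ} (hη : Continuous η) (hb : ∃ M, ∀ x, ‖η x‖ ≤ M) :
    DifferentiableOn ℂ (fun s : ℂ => ∫ x in D, Complex.exp (s * (Real.log (eval x G) : ℝ)) * η x)
      {s | s₀ < s.re} := by
  intro s₁ hs₁
  simp only [Set.mem_ofPred_eq] at hs₁
  obtain ⟨M, hM⟩ := hb
  have hM0 : 0 ≤ M := (norm_nonneg _).trans (hM 0)
  obtain ⟨α, hα1, hα2⟩ := exists_between (lt_min hs₁ hs₀)
  obtain ⟨β, hβ1, hβ2⟩ := exists_between hα1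
  have hα3 := hα2.trans_le (min_le_left _ _)
  have hα4 := hα2.trans_le (min_le_right _ _)
  have hmeas : ∀ s : ℂ, Measurable (fun x : Fin n → ℝ => 
      Complex.exp (s * (Real.log (eval x G) : ℝ)) * η x) := by
    intro s
    have h1 : Measurable (fun x : Fin n → ℝ => Real.log (eval x G)) :=
      Real.measurable_log.comp (continuous_evalR G).measurable
    have h2 : Measurable (fun x : Fin n → ℝ => ((Real.log (eval x G) : ℝ) : ℂ)) :=
      Complex.measurable_ofReal.comp h1
    exact (Complex.measurable_exp.comp (h2.const_mul s)).mul hη.measurable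
  have hlog : Measurable (fun x : Fin n → ℝ => ((Real.log (eval x G) : ℝ) : ℂ)) :=
    Complex.measurable_ofReal.comp (Real.measurable_log.comp (continuous_evalR G).measurable)
  have hintβ := hint β hβ1 (hβ2.trans hα4)
  have hres := hasDerivAt_integral_of_dominated_loc_of_deriv_le (𝕜 := ℂ)
    (μ := volume.restrict D) (x₀ := s₁) (s := {s : ℂ | α < s.re})
    (F := fun s x => Complex.exp (s * (Real.log (eval x G) : ℝ)) * η x)
    (F' := fun s x => Complex.exp (s * (Real.log (eval x G) : ℝ)) * 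
      ((Real.log (eval x G) : ℝ) : ℂ) * η x)
    (bound := fun x => (1 / (α - β) * M) * (eval x G) ^ β)
    ((isOpen_lt continuous_const Complex.continuous_re).mem_nhds hα3)
    (Eventually.of_forall fun s => (hmeas s).aestronglyMeasurable)
    (by
      refine Integrable.mono' (g := fun x => M * (eval x G) ^ β) (hintβ.const_mul M) 
        (hmeas s₁).aestronglyMeasurable ?_
      rw [ae_restrict_iff' hD]
      refine Eventually.of_forall fun x hx => ?_
      obtain ⟨h0, h1⟩ := hG x hx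
      rw [norm_mul, norm_cexp_mul_log h0, mul_comm]
      refine mul_le_mul (hM x) ?_ (Real.rpow_nonneg h0.le _) hM0
      exact Real.rpow_le_rpow_of_exponent_ge h0 h1 (by linarith))
    (by
      refine Measurable.aestronglyMeasurable ?_
      exact ((Complex.measurable_exp.comp (hlog.const_mul s₁)).mul hlog).mul hη.measurable)
    (by
      rw [ae_restrict_iff' hD]
      refine Eventually.of_forall fun x hx s hs => ?_
      simp only [Set.mem_ofPred_eq] at hs
      obtain ⟨h0, h1⟩ := hG x hx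
      rw [norm_mul, norm_mul, norm_cexp_mul_log h0, Complex.norm_real, Real.norm_eq_abs]
      have e1 : (eval x G) ^ s.re ≤ (eval x G) ^ α :=
        Real.rpow_le_rpow_of_exponent_ge h0 h1 hs.le
      have e2 : (eval x G) ^ α = (eval x G) ^ (α - β) * (eval x G) ^ β := by
        rw [← Real.rpow_add h0]; ring_nf
      have e3 := (Real.abs_log_mul_self_rpow_lt (eval x G) (α - β) h0 h1 (by linarith)).le
      rw [abs_mul, abs_of_pos (Real.rpow_pos_of_pos h0 _)] at e3
      have hβ0 : 0 ≤ (eval x G) ^ β := Real.rpow_nonneg h0.le _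
      calc (eval x G) ^ s.re * |Real.log (eval x G)| * ‖η x‖
          ≤ ((eval x G) ^ (α - β) * (eval x G) ^ β) * |Real.log (eval x G)| * M := by
            refine mul_le_mul ?_ (hM x) (norm_nonneg _) (by positivity)
            refine mul_le_mul_of_nonneg_right ?_ (abs_nonneg _)
            rw [← e2]; exact e1
        _ = (|Real.log (eval x G)| * (eval x G) ^ (α - β)) * ((eval x G) ^ β * M) := by ring
        _ ≤ (1 / (α - β)) * ((eval x G) ^ β * M) := 
            mul_le_mul_of_nonneg_right e3 (by positivity)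
        _ = _ := by ring)
    (hintβ.const_mul _)
    (by
      refine Eventually.of_forall fun x s _ => ?_
      have h1 : HasDerivAt (fun s : ℂ => s * ((Real.log (eval x G) : ℝ) : ℂ))
          ((Real.log (eval x G) : ℝ) : ℂ) s := by
        simpa using (hasDerivAt_id s).mul_const ((Real.log (eval x G) : ℝ) : ℂ)
      exact (h1.cexp).mul_const (η x))
  exact hres.2.differentiableAt.differentiableWithinAt

lemma TF.bounded {n : ℕ} {K : Set (Fin n → ℝ)} (hK : IsCompact K)
    {φ : ℂ → (Fin n → ℝ) → ℂ} (h : TF K φ) : ∃ M, ∀ s : ℂ, ‖s‖ ≤ 1 → ∀ x, ‖φ s x‖ ≤ M := by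
  induction h with
  | mono j η hη hηK =>
    have hc : HasCompactSupport η := hK.of_isClosed_subset (isClosed_tsupport _) hηK
    obtain ⟨M, hM⟩ := hη.continuous.bounded_above_of_compact_support hc
    refine ⟨M, fun s hs x => ?_⟩
    rw [norm_mul, norm_pow]
    calc ‖s‖ ^ j * ‖η x‖ ≤ 1 * ‖η x‖ :=
          mul_le_mul_of_nonneg_right (pow_le_one₀ (norm_nonneg _) hs) (norm_nonneg _)
      _ ≤ M := by rw [one_mul]; exact hM x
  | add _ _ h1 h2 =>
    obtain ⟨M1, h1⟩ := h1
    obtain ⟨M2, h2⟩ := h2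
    exact ⟨M1 + M2, fun s hs x => (norm_add_le _ _).trans (add_le_add (h1 s hs x) (h2 s hs x))⟩

/-- Integrability of `G^s η` over `D`, `Re s > s₀`. -/
lemma integrableOn_cexp {n : ℕ} {G : MvPolynomial (Fin n) ℝ} {D : Set (Fin n → ℝ)}
    (hD : MeasurableSet D) (hG : ∀ x ∈ D, 0 < eval x G ∧ eval x G ≤ 1) {s₀ : ℝ} (hs₀ : s₀ < 0)
    (hint : ∀ s : ℝ, s₀ < s → s < 0 → IntegrableOn (fun x => (eval x G) ^ s) D volume)
    {η : (Fin n → ℝ) → ℂ} (hη : Continuous η) (hb : ∃ M, ∀ x, ‖η x‖ ≤ M) {s : ℂ} 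
    (hs : s₀ < s.re) :
    IntegrableOn (fun x => Complex.exp (s * (Real.log (eval x G) : ℝ)) * η x) D volume := by
  obtain ⟨M, hM⟩ := hb
  have hM0 : 0 ≤ M := (norm_nonneg _).trans (hM 0)
  obtain ⟨β, hβ1, hβ2⟩ := exists_between (lt_min hs hs₀)
  have hβ3 := hβ2.trans_le (min_le_left _ _)
  have hβ4 := hβ2.trans_le (min_le_right _ _)
  have h1 : Measurable (fun x : Fin n → ℝ => Real.log (eval x G)) :=
    Real.measurable_log.comp (continuous_evalR G).measurable
  have h2 : Measurable (fun x : Fin n → ℝ => ((Real.log (eval x G) : ℝ) : ℂ)) :=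
    Complex.measurable_ofReal.comp h1
  have h3 := (Complex.measurable_exp.comp (h2.const_mul s)).mul hη.measurable
  refine Integrable.mono' (g := fun x => M * (eval x G) ^ β) ((hint β hβ1 hβ4).const_mul M) 
    h3.aestronglyMeasurable ?_
  rw [ae_restrict_iff' hD]
  refine Eventually.of_forall fun x hx => ?_
  obtain ⟨h0, h1⟩ := hG x hx
  rw [norm_mul, norm_cexp_mul_log h0, mul_comm]
  refine mul_le_mul (hM x) ?_ (Real.rpow_nonneg h0.le _) hM0
  exact Real.rpow_le_rpow_of_exponent_ge h0 h1 (by linarith)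

lemma TF.differentiableOn {n : ℕ} {G : MvPolynomial (Fin n) ℝ} {D : Set (Fin n → ℝ)}
    (hD : MeasurableSet D) (hG : ∀ x ∈ D, 0 < eval x G ∧ eval x G ≤ 1) {s₀ : ℝ} (hs₀ : s₀ < 0)
    (hint : ∀ s : ℝ, s₀ < s → s < 0 → IntegrableOn (fun x => (eval x G) ^ s) D volume)
    {K : Set (Fin n → ℝ)} (hK : IsCompact K) {φ : ℂ → (Fin n → ℝ) → ℂ} (h : TF K φ)
    (a : ℝ) (ha : 0 ≤ a) :
    DifferentiableOn ℂ (fun s : ℂ => ∫ x in D, Complex.exp ((s + a) * (Real.log (eval x G) : ℝ)) 
      * φ s x) {s | s₀ < s.re} := by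
  induction h with
  | mono j η hη hηK =>
    have hc : HasCompactSupport η := hK.of_isClosed_subset (isClosed_tsupport _) hηK
    have h1 := differentiableOn_integral hD hG hs₀ hint hη.continuous
      (hη.continuous.bounded_above_of_compact_support hc)
    have h2 : DifferentiableOn ℂ (fun s : ℂ => s + (a : ℂ)) {s | s₀ < s.re} := by fun_prop
    have h3 := h1.comp h2 (fun s hs => by
      simp only [Set.mem_ofPred_eq, Complex.add_re, Complex.ofReal_re] at hs ⊢
      linarith)
    have h4 : DifferentiableOn ℂ (fun s : ℂ => s ^ j) {s | s₀ < s.re} := by fun_prop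
    refine (h4.mul h3).congr (fun s hs => ?_)
    simp only [Pi.mul_apply, Function.comp_apply]
    rw [← integral_const_mul]
    congr 1
    ext x
    ring
  | @add φ1 φ2 t1 t2 h1 h2 =>
    refine (h1.add h2).congr (fun s hs => ?_)
    simp only [Pi.add_apply]
    simp only [Set.mem_ofPred_eq] at hs
    have hb : ∀ {φ : ℂ → (Fin n → ℝ) → ℂ}, TF K φ → ∃ M, ∀ x, ‖φ s x‖ ≤ M := by
      intro φ t
      refine (t.continuous s).bounded_above_of_compact_support ?_
      exact HasCompactSupport.intro hK (fun x hx => t.eq_zero s x hx)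
    have hs' : s₀ < (s + a).re := by
      simp only [Complex.add_re, Complex.ofReal_re]; linarith
    rw [← integral_add (integrableOn_cexp hD hG hs₀ hint (t1.continuous s) (hb t1) hs')
      (integrableOn_cexp hD hG hs₀ hint (t2.continuous s) (hb t2) hs')]
    congr 1
    ext x
    ring

/-- **Analytic criterion.** If `∫_Ω G^s φ` converges for `s₀ < s < 0` and diverges at
`s = s₀ ≥ -1`, then `s₀` is a root of the Bernstein–Sato polynomial of `f = ± G`. -/
theorem isBernsteinSatoRoot_of_divergent {n : ℕ} (f : MvPolynomial (Fin n) ℂ)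
    (G : MvPolynomial (Fin n) ℝ) (σ : ℝ) (hσ : σ = 1 ∨ σ = -1)
    (hf : f = C (σ : ℂ) * map (algebraMap ℝ ℂ) G)
    (Ω U : Set (Fin n → ℝ)) (hΩ : IsOpen Ω) (hU : IsOpen U)
    (hpos : ∀ x ∈ Ω, 0 < eval x G) (hfr : ∀ x ∈ frontier Ω, eval x G = 0)
    (hle : ∀ x ∈ U, eval x G ≤ 1)
    (s₀ : ℚ) (hs₀ : -1 ≤ s₀) (hs₀' : s₀ < 0)
    (hint : ∀ s : ℝ, (s₀ : ℝ) < s → s < 0 → IntegrableOn (fun x => (eval x G) ^ s) (Ω ∩ U) volume)
    (φ : (Fin n → ℝ) → ℝ) (hφ : ContDiff ℝ (⊤ : ℕ∞) φ) (hφc : HasCompactSupport φ)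
    (hφU : tsupport φ ⊆ U) (hφ0 : ∀ x, 0 ≤ φ x)
    (hdiv : ∫⁻ x in Ω, ENNReal.ofReal ((eval x G) ^ (s₀ : ℝ) * φ x) = ⊤) :
    IsBernsteinSatoRoot f s₀ := by
  intro b hb
  have hsr : (-1 : ℝ) ≤ (s₀ : ℝ) := by exact_mod_cast hs₀
  have hsr' : (s₀ : ℝ) < 0 := by exact_mod_cast hs₀'
  set D := Ω ∩ U with hDdef
  have hDm : MeasurableSet D := hΩ.measurableSet.inter hU.measurableSet
  have hG : ∀ x ∈ D, 0 < eval x G ∧ eval x G ≤ 1 := fun x hx => ⟨hpos x hx.1, hle x hx.2⟩
  set K := tsupport φ with hKdef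
  have hK : IsCompact K := hφc
  -- the complex valued test function
  set η : (Fin n → ℝ) → ℂ := fun x => (φ x : ℂ) with hη
  have hηd : ContDiff ℝ (⊤ : ℕ∞) η := Complex.ofRealCLM.contDiff.comp hφ
  have hηK : tsupport η ⊆ K := by
    refine closure_mono (fun x hx => ?_)
    rw [Function.mem_support] at hx ⊢
    intro h0
    exact hx (by simp [hη, h0])
  have hT : TF K (fun s x => s ^ 0 * η x) := TF.mono 0 η hηd hηK
  obtain ⟨ψ, hψ, hev⟩ := key f G σ hσ hf hΩ hpos hfr hK hb _ hT
  -- restriction to `D`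
  have hres : ∀ (t : TF K ψ) (F : (Fin n → ℝ) → ℂ) (s : ℂ), 
      ∫ x in Ω, F x * ψ s x = ∫ x in D, F x * ψ s x := by
    intro t F s
    refine setIntegral_eq_of_subset_of_forall_sdiff_eq_zero (f := fun x => F x * ψ s x)
      (μ := volume) (s := D) (t := Ω) hΩ.measurableSet 
      Set.inter_subset_left (fun x hx => ?_)
    rw [t.eq_zero s x (fun h => hx.2 ⟨hx.1, hφU h⟩), mul_zero]
  have hresη : ∀ (F : (Fin n → ℝ) → ℂ), ∫ x in Ω, F x * η x = ∫ x in D, F x * η x := by
    intro F
    refine setIntegral_eq_of_subset_of_forall_sdiff_eq_zero (f := fun x => F x * η x)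
      (μ := volume) (s := D) (t := Ω) hΩ.measurableSet 
      Set.inter_subset_left (fun x hx => ?_)
    have : φ x = 0 := image_eq_zero_of_notMem_tsupport (fun h => hx.2 ⟨hx.1, hφU h⟩)
    simp [hη, this]
  -- the two holomorphic functions
  set A : ℂ → ℂ := fun s => b.eval s *
    ∫ x in D, Complex.exp (s * (Real.log (eval x G) : ℝ)) * η x with hA
  set B : ℂ → ℂ := fun s => 
    ∫ x in D, Complex.exp ((s + (1 : ℝ)) * (Real.log (eval x G) : ℝ)) * ψ s x with hB
  set H : Set ℂ := {s | (s₀ : ℝ) < s.re} with hH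
  have hHo : IsOpen H := isOpen_lt continuous_const Complex.continuous_re
  have hHc : IsPreconnected H := (convex_halfSpace_re_gt (s₀ : ℝ)).isPreconnected
  have hbη : ∃ M, ∀ x, ‖η x‖ ≤ M := 
    hηd.continuous.bounded_above_of_compact_support 
      (hK.of_isClosed_subset (isClosed_tsupport _) hηK)
  have hAd : DifferentiableOn ℂ A H :=
    (Polynomial.differentiable b).differentiableOn.mul
      (differentiableOn_integral hDm hG hsr' hint hηd.continuous hbη)
  have hBd : DifferentiableOn ℂ B H := hψ.differentiableOn hDm hG hsr' hint hK 1 zero_le_one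
  have hAB : ∀ᶠ s : ℝ in atTop, A (s : ℂ) = B (s : ℂ) := by
    filter_upwards [hev] with s hs
    simp only [hA, hB]
    rw [hres hψ] at hs
    have e1 : ∫ x in Ω, (((eval x G) ^ (s + 1 - (1 : ℕ)) : ℝ) : ℂ) * ev s x (C b) * 
        ((s : ℂ) ^ 0 * η x) = b.eval (s : ℂ) * ∫ x in D, 
        Complex.exp ((s : ℂ) * (Real.log (eval x G) : ℝ)) * η x := by
      rw [← integral_const_mul]
      have : ∀ x, (((eval x G) ^ (s + 1 - (1 : ℕ)) : ℝ) : ℂ) * ev s x (C b) * 
        ((s : ℂ) ^ 0 * η x) = ((((eval x G) ^ s : ℝ) : ℂ) * b.eval (s : ℂ)) * η x := by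
        intro x
        rw [ev_C]; simp
      simp only [this]
      rw [hresη]
      refine setIntegral_congr_fun hDm (fun x hx => ?_)
      rw [cexp_mul_log (hG x hx).1]; ring
    have e2 : ∫ x in D, (((eval x G) ^ (s + 1) : ℝ) : ℂ) * ψ s x = ∫ x in D, 
        Complex.exp (((s : ℂ) + (1 : ℝ)) * (Real.log (eval x G) : ℝ)) * ψ s x := by
      refine setIntegral_congr_fun hDm (fun x hx => ?_)
      have := cexp_mul_log (s := s + 1) (hG x hx).1
      rw [← this]; push_cast; rfl
    rw [← e1, ← e2]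
    exact hs
  have hEq : Set.EqOn A B H := by
    obtain ⟨S, hS⟩ := eventually_atTop.1 hAB
    set z : ℝ := max S 0 + 1 with hz
    have hz0 : (s₀ : ℝ) < z := by
      have := le_max_right S 0
      linarith
    refine (hAd.analyticOnNhd hHo).eqOn_of_preconnected_of_frequently_eq 
      (hBd.analyticOnNhd hHo) hHc (z₀ := (z : ℂ)) (by simpa [hH] using hz0) ?_
    have hmap : Tendsto (fun t : ℝ => (t : ℂ)) (𝓝[>] z) (𝓝[≠] (z : ℂ)) := by
      refine tendsto_nhdsWithin_iff.2 ⟨?_, ?_⟩
      · exact (Complex.continuous_ofReal.tendsto z).mono_left nhdsWithin_le_nhds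
      · filter_upwards [self_mem_nhdsWithin] with t ht
        simp only [Set.mem_compl_iff, Set.mem_singleton_iff, Complex.ofReal_inj]
        exact (ne_of_gt ht)
    refine hmap.frequently (Eventually.frequently ?_)
    filter_upwards [self_mem_nhdsWithin] with t ht
    refine hS t ?_
    have h1 := le_max_left S 0
    have h2 : z < t := ht
    linarith
  -- conclusion
  by_contra hne
  obtain ⟨M, hM⟩ := hψ.bounded hK
  have hM0 : 0 ≤ M := (norm_nonneg _).trans (hM 0 (by simp) 0)
  have hbc : ContinuousAt (fun s : ℝ => ‖b.eval (s : ℂ)‖) (s₀ : ℝ) :=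
    ((Polynomial.continuous b).comp Complex.continuous_ofReal).norm.continuousAt
  set c : ℝ := ‖b.eval ((s₀ : ℝ) : ℂ)‖ / 2 with hc
  have hc0 : 0 < c := by
    have : 0 < ‖b.eval ((s₀ : ℝ) : ℂ)‖ := norm_pos_iff.2 (by
      rw [Complex.ofReal_ratCast]; exact hne)
    positivity
  have hcev : ∀ᶠ s : ℝ in 𝓝 (s₀ : ℝ), c < ‖b.eval (s : ℂ)‖ := 
    hbc.eventually (lt_mem_nhds (by
      show c < ‖b.eval ((s₀ : ℝ) : ℂ)‖
      linarith))
  -- the volume of `D ∩ K` is finite
  have hKfin : volume (D ∩ K) < ⊤ := 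
    (measure_mono Set.inter_subset_right).trans_lt hK.measure_lt_top
  set V : ℝ := (volume (D ∩ K)).toReal with hV
  -- bound
  have hbound : ∀ s : ℝ, (s₀ : ℝ) < s → s < 0 → c < ‖b.eval (s : ℂ)‖ → 
      ∫⁻ x in Ω, ENNReal.ofReal ((eval x G) ^ s * φ x) ≤ ENNReal.ofReal (M * V / c) := by
    intro s hs hs' hcs
    have hAB' := hEq (show (s : ℂ) ∈ H by simpa [hH] using hs)
    have hB1 : ‖B (s : ℂ)‖ ≤ M * V := by
      have hBK : B (s : ℂ) = ∫ x in D ∩ K, 
          Complex.exp (((s : ℂ) + (1 : ℝ)) * (Real.log (eval x G) : ℝ)) * ψ s x := by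
        refine setIntegral_eq_of_subset_of_forall_sdiff_eq_zero hDm 
          Set.inter_subset_left (fun x hx => ?_)
        rw [hψ.eq_zero s x (fun h => hx.2 ⟨hx.1, h⟩), mul_zero]
      rw [hBK]
      refine norm_setIntegral_le_of_norm_le_const hKfin (fun x hx => ?_)
      obtain ⟨h0, h1⟩ := hG x hx.1
      rw [norm_mul, norm_cexp_mul_log h0]
      have e1 : (eval x G) ^ ((s : ℂ) + (1 : ℝ)).re ≤ 1 := by
        refine Real.rpow_le_one h0.le h1 ?_
        simp only [Complex.add_re, Complex.ofReal_re]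
        linarith
      have e2 : ‖ψ s x‖ ≤ M := hM _ (by
        rw [Complex.norm_real, Real.norm_eq_abs, abs_le]
        constructor <;> linarith) x
      calc (eval x G) ^ ((s : ℂ) + (1 : ℝ)).re * ‖ψ s x‖ ≤ 1 * M := 
            mul_le_mul e1 e2 (norm_nonneg _) zero_le_one
        _ = M := one_mul M
    -- the left side
    have hI : Integrable (fun x => (eval x G) ^ s * φ x) (volume.restrict D) := by
      have h1 := integrableOn_cexp hDm hG hsr' hint hηd.continuous hbη (s := (s : ℂ)) 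
        (by simpa using hs)
      have h2 := h1.re
      refine h2.congr ?_
      rw [EventuallyEq, ae_restrict_iff' hDm]
      refine Eventually.of_forall fun x hx => ?_
      rw [cexp_mul_log (hG x hx).1]
      simp [hη, ← Complex.ofReal_mul]
    have e1 : ∫⁻ x in Ω, ENNReal.ofReal ((eval x G) ^ s * φ x) = 
        ∫⁻ x in D, ENNReal.ofReal ((eval x G) ^ s * φ x) := by
      rw [← lintegral_indicator hΩ.measurableSet, ← lintegral_indicator hDm]
      congr 1
      ext x
      by_cases hxΩ : x ∈ Ω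
      · by_cases hxU : x ∈ U
        · rw [Set.indicator_of_mem hxΩ, Set.indicator_of_mem (show x ∈ D from ⟨hxΩ, hxU⟩)]
        · rw [Set.indicator_of_mem hxΩ, Set.indicator_of_notMem (fun h => hxU h.2)]
          have : φ x = 0 := image_eq_zero_of_notMem_tsupport (fun h => hxU (hφU h))
          simp [this]
      · rw [Set.indicator_of_notMem hxΩ, Set.indicator_of_notMem (fun h => hxΩ h.1)]
    rw [e1, ← ofReal_integral_eq_lintegral_ofReal hI (by
      rw [EventuallyLE, ae_restrict_iff' hDm]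
      refine Eventually.of_forall fun x hx => ?_
      exact mul_nonneg (Real.rpow_nonneg (hG x hx).1.le _) (hφ0 x))]
    refine ENNReal.ofReal_le_ofReal ?_
    rw [le_div_iff₀ hc0]
    have e2 : ∫ x in D, Complex.exp ((s : ℂ) * (Real.log (eval x G) : ℝ)) * η x = 
        ((∫ x in D, (eval x G) ^ s * φ x : ℝ) : ℂ) := by
      rw [← integral_complex_ofReal]
      refine setIntegral_congr_fun hDm (fun x hx => ?_)
      simp only [hη]
      rw [cexp_mul_log (hG x hx).1]
      push_cast; rfl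
    have e3 : 0 ≤ ∫ x in D, (eval x G) ^ s * φ x := 
      setIntegral_nonneg hDm (fun x hx => mul_nonneg (Real.rpow_nonneg (hG x hx).1.le _) (hφ0 x))
    have e4 : ‖A (s : ℂ)‖ = ‖b.eval (s : ℂ)‖ * ∫ x in D, (eval x G) ^ s * φ x := by
      simp only [hA]
      rw [e2, norm_mul, Complex.norm_real, Real.norm_of_nonneg e3]
    calc (∫ x in D, (eval x G) ^ s * φ x) * c ≤ 
          (∫ x in D, (eval x G) ^ s * φ x) * ‖b.eval (s : ℂ)‖ := 
            mul_le_mul_of_nonneg_left hcs.le e3
      _ = ‖A (s : ℂ)‖ := by rw [e4, mul_comm]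
      _ = ‖B (s : ℂ)‖ := by rw [hAB']
      _ ≤ M * V := hB1
  -- Fatou
  set t : ℕ → ℝ := fun m => (s₀ : ℝ) + (-(s₀ : ℝ)) / (m + 2) with ht
  have htlim : Tendsto t atTop (𝓝 (s₀ : ℝ)) := by
    have h1 : Tendsto (fun m : ℕ => (-(s₀ : ℝ)) / ((m : ℝ) + 2)) atTop (𝓝 0) := by
      refine Tendsto.const_div_atTop ?_ _
      exact tendsto_atTop_add_const_right _ _ tendsto_natCast_atTop_atTop
    simpa using h1.const_add (s₀ : ℝ)
  have ht1 : ∀ m, (s₀ : ℝ) < t m := by
    intro m
    have : 0 < (-(s₀ : ℝ)) / ((m : ℝ) + 2) := div_pos (by linarith) (by positivity)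
    simp only [ht]; linarith
  have ht2 : ∀ m, t m < 0 := by
    intro m
    have : (-(s₀ : ℝ)) / ((m : ℝ) + 2) < -(s₀ : ℝ) := by
      rw [div_lt_iff₀ (by positivity)]
      have : (0 : ℝ) ≤ m := Nat.cast_nonneg m
      nlinarith
    simp only [ht]; linarith
  have hcev' : ∀ᶠ m in atTop, c < ‖b.eval ((t m : ℝ) : ℂ)‖ := htlim.eventually hcev
  have hfatou : ∫⁻ x in Ω, ENNReal.ofReal ((eval x G) ^ (s₀ : ℝ) * φ x) ≤ 
      liminf (fun m => ∫⁻ x in Ω, ENNReal.ofReal ((eval x G) ^ (t m) * φ x)) atTop := by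
    have hmeas : ∀ m, Measurable (fun x : Fin n → ℝ => 
        ENNReal.ofReal ((eval x G) ^ (t m) * φ x)) := by
      intro m
      exact (((continuous_evalR G).measurable.pow_const _).mul 
        hφ.continuous.measurable).ennreal_ofReal
    refine le_trans (le_of_eq ?_) (lintegral_liminf_le hmeas)
    refine setLIntegral_congr_fun hΩ.measurableSet (fun x hx => ?_)
    have h1 : Tendsto (fun m => ENNReal.ofReal ((eval x G) ^ (t m) * φ x)) atTop
        (𝓝 (ENNReal.ofReal ((eval x G) ^ (s₀ : ℝ) * φ x))) := by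
      refine (ENNReal.continuous_ofReal.tendsto _).comp ?_
      refine Tendsto.mul_const _ ?_
      exact ((Real.continuous_const_rpow (hpos x hx).ne').tendsto _).comp htlim
    exact h1.liminf_eq.symm
  have hfin : liminf (fun m => ∫⁻ x in Ω, ENNReal.ofReal ((eval x G) ^ (t m) * φ x)) atTop ≤
      ENNReal.ofReal (M * V / c) := by
    refine liminf_le_of_frequently_le' ?_
    refine Eventually.frequently ?_
    filter_upwards [hcev'] with m hm
    exact hbound (t m) (ht1 m) (ht2 m) hm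
  rw [hdiv] at hfatou
  exact absurd (hfatou.trans hfin) (by simp)

end MPb07157
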