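import Pool.Agent.Lib.MP_b07157_ag.K0

noncomputable section

namespace MPb07157

open MvPolynomial

/-! ### Orders along arcs -/

theorem aeval_congr_X_pow {n : ℕ} (N : ℕ) (f : MvPolynomial (Fin n) ℂ)
    (α β : Fin n → PowerSeries ℂ) (h : ∀ i, (PowerSeries.X : PowerSeries ℂ) ^ N ∣ α i - β i) :
    (PowerSeries.X : PowerSeries ℂ) ^ N ∣ aeval α f - aeval β f := by
  induction f using MvPolynomial.induction_on with
  | C a => simp
  | add p q hp hq =>
    have : aeval α (p + q) - aeval β (p + q)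
        = (aeval α p - aeval β p) + (aeval α q - aeval β q) := by
      simp only [map_add]; ring
    rw [this]
    exact dvd_add hp hq
  | mul_X p i hp =>
    have : aeval α (p * X i) - aeval β (p * X i)
        = (aeval α p - aeval β p) * α i + aeval β p * (α i - β i) := by
      simp only [map_mul, aeval_X]; ring
    rw [this]
    exact dvd_add (hp.mul_right _) ((h i).mul_left _)

theorem order_congr {N m : ℕ} (hm : m < N) {φ ψ : PowerSeries ℂ}
    (h : (PowerSeries.X : PowerSeries ℂ) ^ N ∣ φ - ψ) : φ.order = m ↔ ψ.order = m := by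
  rw [PowerSeries.X_pow_dvd_iff] at h
  have h2 : ∀ k < N, PowerSeries.coeff k φ = PowerSeries.coeff k ψ := by
    intro k hk
    have := h k hk
    rwa [map_sub, sub_eq_zero] at this
  rw [PowerSeries.order_eq_nat, PowerSeries.order_eq_nat, h2 m hm]
  refine and_congr_right fun _ => forall_congr' fun k => ?_
  refine imp_congr_right fun hk => ?_
  rw [h2 k (hk.trans hm)]

/-- The coefficients of `f(γ(t))` are polynomials in the coefficients of `γ`. -/
theorem exists_coeff_poly {n N : ℕ} (f : MvPolynomial (Fin n) ℂ) (k : ℕ) :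
    ∃ P : MvPolynomial (Fin n × Fin N) ℂ, ∀ γ : Fin n × Fin N → ℂ,
      PowerSeries.coeff k (aeval (arc γ) f : PowerSeries ℂ) = eval γ P := by
  let Γ : Fin n → PowerSeries (MvPolynomial (Fin n × Fin N) ℂ) :=
    fun i => ∑ j : Fin N, PowerSeries.C (X (i, j)) * PowerSeries.X ^ (j : ℕ)
  refine ⟨PowerSeries.coeff k (eval₂ ((PowerSeries.C).comp C) Γ f), fun γ => ?_⟩
  rw [← PowerSeries.coeff_map, hom_eval₂]
  congr 1
  rw [aeval_def]
  congr 1
  · ext r
    simp
  · funext i
    simp [Γ, arc, map_sum]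

theorem isConstr_arcs {n : ℕ} (f : MvPolynomial (Fin n) ℂ) (N m : ℕ) :
    IsConstr (arcs f N m) := by
  have h : arcs f N m = {γ : Fin n × Fin N → ℂ |
      PowerSeries.coeff m (aeval (arc γ) f : PowerSeries ℂ) ≠ 0 ∧
      ∀ k ∈ Finset.range m, PowerSeries.coeff k (aeval (arc γ) f : PowerSeries ℂ) = 0} := by
    ext γ
    simp only [arcs, Set.mem_ofPred_eq, PowerSeries.order_eq_nat, Finset.mem_range]
  rw [h]
  refine isConstr_setOf_and ?_ (isConstr_forall_mem _ _ fun k _ => ?_)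
  · obtain ⟨P, hP⟩ := exists_coeff_poly (N := N) f m
    simp only [hP]
    exact isConstr_ne_zero P
  · obtain ⟨P, hP⟩ := exists_coeff_poly (N := N) f k
    simp only [hP]
    exact isConstr_eq_zero P

/-! ### Splitting arcs -/

/-- The first `A` coefficients. -/
def leftPart {n A B : ℕ} (γ : Fin n × Fin (A + B) → ℂ) : Fin n × Fin A → ℂ :=
  fun p => γ (p.1, Fin.castAdd B p.2)

/-- The last `B` coefficients. -/
def rightPart {n A B : ℕ} (γ : Fin n × Fin (A + B) → ℂ) : Fin n × Fin B → ℂ :=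
  fun p => γ (p.1, Fin.natAdd A p.2)

theorem cls_split {n A B : ℕ} {S : Set (Fin n × Fin A → ℂ)} {T : Set (Fin n × Fin B → ℂ)}
    (hS : IsConstr S) (hT : IsConstr T) :
    cls {γ : Fin n × Fin (A + B) → ℂ | leftPart γ ∈ S ∧ rightPart γ ∈ T} = cls S * cls T := by
  rw [← cls_prodSum hS hT, ← cls_equiv ((Equiv.prodSumDistrib (Fin n) (Fin A) (Fin B)).symm.trans
    (Equiv.prodCongr (Equiv.refl _) finSumFinEquiv)) (isConstr_prodSum hS hT)]
  congr 1

theorem arc_split {n A B : ℕ} (γ : Fin n × Fin (A + B) → ℂ) (i : Fin n) :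
    arc γ i = arc (leftPart γ) i + PowerSeries.X ^ A * arc (rightPart γ) i := by
  unfold arc leftPart rightPart
  rw [Fin.sum_univ_add, Finset.mul_sum]
  congr 1
  refine Finset.sum_congr rfl fun j _ => ?_
  simp only [Fin.val_natAdd, pow_add]
  ring

theorem isConstr_split {n A B : ℕ} {S : Set (Fin n × Fin A → ℂ)} {T : Set (Fin n × Fin B → ℂ)}
    (hS : IsConstr S) (hT : IsConstr T) :
    IsConstr {γ : Fin n × Fin (A + B) → ℂ | leftPart γ ∈ S ∧ rightPart γ ∈ T} :=
  (hS.reindex (fun p : Fin n × Fin A => ((p.1, Fin.castAdd B p.2) : Fin n × Fin (A + B)))).inter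
    (hT.reindex (fun p : Fin n × Fin B => ((p.1, Fin.natAdd A p.2) : Fin n × Fin (A + B))))

/-! ### The motivic measure of `{ord f = m}` -/

/-- The motivic measure of the set of arcs with `ord f = m`, computed at level `N`. -/
def mu {n : ℕ} (f : MvPolynomial (Fin n) ℂ) (N m : ℕ) : Mot :=
  ↑((LU ^ (n * N))⁻¹) * clsM (arcs f N m)

theorem Zcoeff_eq_mu {n : ℕ} (f : MvPolynomial (Fin n) ℂ) (m : ℕ) :
    Zcoeff f m = mu f (m + 1) m := rfl

theorem clsM_mul_eq {σ τ ρ : Type} [Fintype σ] [Fintype τ] [Fintype ρ] {S : Set (σ → ℂ)}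
    {T : Set (τ → ℂ)} {U : Set (ρ → ℂ)}
    (h : cls U = cls S * cls T) : clsM U = clsM S * clsM T := by
  unfold clsM; rw [h, map_mul]

theorem LU_val : ((LU : Motˣ) : Mot) = algebraMap K0 Mot L := rfl

theorem clsM_univ {σ : Type} [Fintype σ] :
    clsM (Set.univ : Set (σ → ℂ)) = ((LU ^ Fintype.card σ : Motˣ) : Mot) := by
  unfold clsM
  rw [cls_univ_eq, map_pow, Units.val_pow_eq_pow_val, LU_val]

theorem arcs_succ {n : ℕ} (f : MvPolynomial (Fin n) ℂ) {N m : ℕ} (hm : m < N) :
    arcs f (N + 1) m = {γ : Fin n × Fin (N + 1) → ℂ | leftPart γ ∈ arcs f N m ∧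
      rightPart γ ∈ (Set.univ : Set (Fin n × Fin 1 → ℂ))} := by
  ext γ
  simp only [arcs, Set.mem_ofPred_eq, Set.mem_univ, and_true]
  refine order_congr hm (aeval_congr_X_pow N f _ _ fun i => ?_)
  rw [arc_split]
  simp

theorem mu_succ {n : ℕ} (f : MvPolynomial (Fin n) ℂ) {N m : ℕ} (hm : m < N) :
    mu f (N + 1) m = mu f N m := by
  unfold mu
  rw [arcs_succ f hm, clsM_mul_eq (cls_split (isConstr_arcs f N m) IsConstr.univ), clsM_univ]
  simp only [Fintype.card_prod, Fintype.card_fin, mul_one, mul_add, pow_add, mul_inv,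
    Units.val_mul]
  rw [mul_comm (clsM _), mul_assoc, ← mul_assoc (((LU ^ n)⁻¹ : Motˣ) : Mot), Units.inv_mul,
    one_mul]

theorem mu_eq {n : ℕ} (f : MvPolynomial (Fin n) ℂ) {N m : ℕ} (hm : m < N) :
    mu f N m = Zcoeff f m := by
  rw [Zcoeff_eq_mu]
  obtain ⟨k, rfl⟩ := Nat.exists_eq_add_of_lt hm
  rw [show m + k + 1 = (m + 1) + k by ring]
  induction k with
  | zero => rfl
  | succ k ih => rw [← add_assoc, mu_succ f (by omega), ih (by omega)]

end MPb07157
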