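import Pool.Agent.Lib.MP_b07157_ag.LinAlg

noncomputable section

namespace MPb07157

open MvPolynomial

variable {n : ℕ} {ι : Type}

/-- Complexification of real linear forms. -/
abbrev cx (a : ι → Fin n → ℝ) : ι → Fin n → ℂ := fun j i => ((a j i : ℝ) : ℂ)

/-! ### The ring of functions regular at `s₀` -/

theorem C_mem_regularAt (s₀ : ℚ) (x : Mot) : PowerSeries.C x ∈ regularAt s₀ :=
  (regularAt s₀).algebraMap_mem x

theorem X_mem_regularAt (s₀ : ℚ) : (PowerSeries.X : PowerSeries Mot) ∈ regularAt s₀ :=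
  Algebra.subset_adjoin (Or.inl rfl)

theorem inv_mem_regularAt (s₀ : ℚ) (a : ℤ) (b : ℕ) (hb : 0 < b) (hab : (a : ℚ) / b ≠ -s₀)
    (g : PowerSeries Mot)
    (hg : g * (1 - PowerSeries.C (↑(LU ^ (-a)) : Mot) * PowerSeries.X ^ b) = 1) :
    g ∈ regularAt s₀ :=
  Algebra.subset_adjoin (Or.inr ⟨a, b, hb, hab, hg⟩)

theorem exists_inv (u : Mot) (b : ℕ) (hb : 0 < b) :
    ∃ g : PowerSeries Mot, g * (1 - PowerSeries.C u * PowerSeries.X ^ b) = 1 := by
  have h : IsUnit (1 - PowerSeries.C u * PowerSeries.X ^ b : PowerSeries Mot) := by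
    rw [PowerSeries.isUnit_iff_constantCoeff]
    simp [hb.ne']
  obtain ⟨v, hv⟩ := h
  exact ⟨↑v⁻¹, by rw [← hv, Units.inv_mul]⟩

/-! ### The idempotent of a decomposition -/

theorem exists_idempotent [DecidableEq ι] (a : ι → Fin n → ℝ) (G H : Finset ι)
    (h : Disjoint (Submodule.span ℝ (a '' (G : Set ι))) (Submodule.span ℝ (a '' (H : Set ι)))) :
    ∃ P : Matrix (Fin n) (Fin n) ℂ, P * P = P ∧
      (∀ j ∈ G, ∀ k, ∑ i, cx a j i * P i k = cx a j k) ∧
      (∀ j ∈ H, ∀ k, ∑ i, cx a j i * P i k = 0) := by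
  obtain ⟨W, hW, hc⟩ := h.symm.exists_isCompl
  -- `W ⊇ span H`, `IsCompl W (span G)`
  let U := Submodule.span ℝ (a '' (G : Set ι))
  let π : (Fin n → ℝ) →ₗ[ℝ] (Fin n → ℝ) := U.projection W hc.symm
  have hπ : π ∘ₗ π = π := Submodule.isIdempotentElem_projection hc.symm
  let M : Matrix (Fin n) (Fin n) ℝ := LinearMap.toMatrix' π
  have hM : M * M = M := by
    rw [← LinearMap.toMatrix'_comp, hπ]
  have hMv : ∀ v, M.mulVec v = π v := fun v => by
    rw [← Matrix.toLin'_apply, Matrix.toLin'_toMatrix']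
  refine ⟨(M.transpose).map (algebraMap ℝ ℂ), ?_, ?_, ?_⟩
  · rw [← Matrix.map_mul, ← Matrix.transpose_mul, hM]
  · intro j hj k
    have h1 : π (a j) = a j :=
      Submodule.projection_apply_left hc.symm ⟨a j, Submodule.subset_span ⟨j, hj, rfl⟩⟩
    have h2 := congrFun (hMv (a j)) k
    rw [h1] at h2
    simp only [Matrix.mulVec, dotProduct] at h2
    have h3 := congrArg (fun x : ℝ => (x : ℂ)) h2
    simp only [Complex.ofReal_sum, Complex.ofReal_mul] at h3
    rw [show cx a j k = ((a j k : ℝ) : ℂ) from rfl, ← h3]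
    refine Finset.sum_congr rfl fun i _ => ?_
    simp [mul_comm]
  · intro j hj k
    have h1 : π (a j) = 0 :=
      Submodule.projection_apply_of_mem_right hc.symm (hW (Submodule.subset_span ⟨j, hj, rfl⟩))
    have h2 := congrFun (hMv (a j)) k
    rw [h1] at h2
    simp only [Matrix.mulVec, dotProduct, Pi.zero_apply] at h2
    have h3 := congrArg (fun x : ℝ => (x : ℂ)) h2
    simp only [Complex.ofReal_sum, Complex.ofReal_mul, Complex.ofReal_zero] at h3
    rw [← h3]
    refine Finset.sum_congr rfl fun i _ => ?_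
    simp [mul_comm]

theorem aeval_arrC_matrix (a : ι → Fin n → ℂ) (m : ι → ℕ) (G : Finset ι)
    (P : Matrix (Fin n) (Fin n) ℂ) (hP : ∀ j ∈ G, ∀ k, ∑ i, a j i * P i k = a j k)
    (α : Fin n → PowerSeries ℂ) :
    (aeval (fun i => ∑ k, PowerSeries.C (P i k) * α k) (arrC a 0 m G) : PowerSeries ℂ) =
      aeval α (arrC a 0 m G) := by
  rw [aeval_arrC, aeval_arrC]
  refine Finset.prod_congr rfl fun j hj => ?_
  congr 2
  simp only [Finset.mul_sum, ← mul_assoc, ← map_mul]
  rw [Finset.sum_comm]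
  refine Finset.sum_congr rfl fun k _ => ?_
  rw [← Finset.sum_mul, ← map_sum, hP j hj k]

theorem Zmot_split [DecidableEq ι] (a : ι → Fin n → ℝ) (m : ι → ℕ) (F G : Finset ι) (hG : G ⊆ F)
    (h : Disjoint (Submodule.span ℝ (a '' (G : Set ι)))
      (Submodule.span ℝ (a '' ((F \ G : Finset ι) : Set ι)))) :
    Zmot (arrC (cx a) 0 m F) = Zmot (arrC (cx a) 0 m G) * Zmot (arrC (cx a) 0 m (F \ G)) := by
  obtain ⟨P, hP, hPG, hPH⟩ := exists_idempotent a G (F \ G) h
  have h1 : arrC (cx a) 0 m F = arrC (cx a) 0 m G * arrC (cx a) 0 m (F \ G) := by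
    unfold arrC
    rw [mul_comm, Finset.prod_sdiff hG]
  rw [h1]
  refine Zmot_mul hP (aeval_arrC_matrix (cx a) m G P hPG)
    (aeval_arrC_matrix (cx a) m (F \ G) (1 - P) fun j hj k => ?_)
  simp only [Matrix.sub_apply, mul_sub, Finset.sum_sub_distrib, hPH j hj k, sub_zero]
  simp [Matrix.one_apply]

variable [Fintype ι]

/-- The multiplicity of a set of hyperplanes. -/
def mult (m : ι → ℕ) (F : Finset ι) : ℕ := ∑ j ∈ F, m j

omit [Fintype ι] in
theorem strat_empty_or (a : ι → Fin n → ℝ) (c : ι → ℂ) (F G : Finset ι) :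
    clsM (strat (cx a) c F G) = 0 ∨ ∃ q, q ∈ strat (cx a) c F G := by
  rcases (strat (cx a) c F G).eq_empty_or_nonempty with h | h
  · left
    rw [h, clsM, cls_empty, map_zero]
  · exact Or.inr h

/-- The poles of the zeta functions of the central arrangements of an affine arrangement. -/
theorem Zmot_central_mem [DecidableEq ι] (a : ι → Fin n → ℝ) (c : ι → ℝ) (m : ι → ℕ)
    (ha : ∀ j, a j ≠ 0) (hm : ∀ j, 0 < m j) (s₀ : ℚ)
    (hs : ∀ p : Fin n → ℝ, IsDense a (through a c p) →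
      ((rk a (through a c p) : ℕ) : ℚ) / ((mult m (through a c p) : ℕ) : ℚ) ≠ -s₀) :
    ∀ k : ℕ, ∀ p : Fin n → ℝ, (through a c p).card = k →
      Zmot (arrC (cx a) 0 m (through a c p)) ∈ regularAt s₀ := by
  intro k
  induction k using Nat.strong_induction_on with
  | _ k IH =>
  intro p hk
  generalize hF : through a c p = F at hk
  rcases F.eq_empty_or_nonempty with rfl | hne
  · have : arrC (cx a) 0 m ∅ = 1 := by simp [arrC]
    rw [this, Zmot_one]
    exact one_mem _
  by_cases hd : IsDense a F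
  · -- dense case
    have hIH : ∀ G ∈ F.powerset.erase F,
        PowerSeries.C (↑((LU ^ n)⁻¹) * clsM (strat (cx a) 0 F G)) *
          (PowerSeries.X ^ (∑ j ∈ G, m j) * Zmot (arrC (cx a) 0 m G)) ∈ regularAt s₀ := by
      intro G hG
      obtain ⟨hGF, hG'⟩ := Finset.mem_erase.1 hG
      have hG' := Finset.mem_powerset.1 hG'
      rcases strat_empty_or a 0 F G with h0 | ⟨q, hq⟩
      · rw [h0, mul_zero, map_zero, zero_mul]
        exact zero_mem _
      · obtain ⟨p', hp'⟩ := exists_through_of_central a c p q G (hF ▸ hG') (hF ▸ hq)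
        have h1 := IH G.card (by
          rw [← hk]
          exact Finset.card_lt_card (Finset.ssubset_iff_subset_ne.2 ⟨hG', hGF⟩)) p'
          (by rw [hp'])
        rw [hp'] at h1
        exact mul_mem (C_mem_regularAt s₀ _) (mul_mem (pow_mem (X_mem_regularAt s₀) _) h1)
    have hrest := sum_mem hIH
    set rest := ∑ G ∈ F.powerset.erase F,
        PowerSeries.C (↑((LU ^ n)⁻¹) * clsM (strat (cx a) 0 F G)) *
          (PowerSeries.X ^ (∑ j ∈ G, m j) * Zmot (arrC (cx a) 0 m G)) with hrest_def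
    have hmain := Zmot_arrC (cx a) 0 m hm F
    rw [← Finset.add_sum_erase F.powerset _ (Finset.mem_powerset_self F), ← hrest_def] at hmain
    have hcls : ↑((LU ^ n)⁻¹) * clsM (strat (cx a) 0 F F) =
        ((LU ^ (-((rk a F : ℕ) : ℤ)) : Motˣ) : Mot) := by
      have h1 : clsM (strat (cx a) 0 F F) = ((LU ^ (n - rk a F) : Motˣ) : Mot) := by
        unfold clsM
        rw [cls_subspace a F, map_pow, Units.val_pow_eq_pow_val, LU_val]
      rw [h1, ← Units.val_mul]
      congr 1
      have h2 := rk_le a F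
      have h3 : (LU : Motˣ) ^ n = LU ^ (n - rk a F) * LU ^ (rk a F) := by
        rw [← pow_add]; congr 1; omega
      rw [h3, mul_inv, zpow_neg, zpow_natCast, mul_comm, ← mul_assoc, mul_inv_cancel, one_mul]
    rw [hcls] at hmain
    have hmF : 0 < ∑ j ∈ F, m j := Finset.sum_pos (fun j _ => hm j) hne
    obtain ⟨g, hg⟩ := exists_inv ((LU ^ (-((rk a F : ℕ) : ℤ)) : Motˣ) : Mot) (∑ j ∈ F, m j) hmF
    have hgm : g ∈ regularAt s₀ := by
      refine inv_mem_regularAt s₀ ((rk a F : ℕ) : ℤ) (∑ j ∈ F, m j) hmF ?_ g hg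
      have := hs p (by rw [hF]; exact hd)
      rw [hF] at this
      simpa [mult] using this
    have hfin : Zmot (arrC (cx a) 0 m F) = g * rest := by
      have h1 : (1 - PowerSeries.C ((LU ^ (-((rk a F : ℕ) : ℤ)) : Motˣ) : Mot) *
          PowerSeries.X ^ (∑ j ∈ F, m j)) * Zmot (arrC (cx a) 0 m F) = rest := by
        rw [sub_mul, one_mul, sub_eq_iff_eq_add', mul_assoc]
        exact hmain
      calc Zmot (arrC (cx a) 0 m F)
          = (g * (1 - PowerSeries.C ((LU ^ (-((rk a F : ℕ) : ℤ)) : Motˣ) : Mot) *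
              PowerSeries.X ^ (∑ j ∈ F, m j))) * Zmot (arrC (cx a) 0 m F) := by
            rw [hg, one_mul]
        _ = g * rest := by rw [mul_assoc, h1]
    rw [hfin]
    exact mul_mem hgm hrest
  · -- decomposable case
    have hd' : ∃ G ⊆ F, G.Nonempty ∧ (F \ G).Nonempty ∧
        Disjoint (Submodule.span ℝ (a '' (G : Set ι)))
          (Submodule.span ℝ (a '' ((F \ G : Finset ι) : Set ι))) := by
      by_contra hcon
      apply hd
      refine ⟨hne, fun G hG h1 h2 h3 => hcon ⟨G, hG, h1, h2, h3⟩⟩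
    obtain ⟨G, hG, hG1, hG2, hdis⟩ := hd'
    rw [Zmot_split a m F G hG hdis]
    have hcl : ∀ (A B : Finset ι), Disjoint (Submodule.span ℝ (a '' (A : Set ι)))
        (Submodule.span ℝ (a '' (B : Set ι))) → ∀ j ∈ B,
        a j ∉ Submodule.span ℝ (a '' (A : Set ι)) := by
      intro A B hAB j hj h
      have := Submodule.disjoint_def.1 hAB (a j) h (Submodule.subset_span ⟨j, hj, rfl⟩)
      exact ha j this
    have hsub : ∀ A ⊆ F, (F \ A).Nonempty → (∀ j ∈ F \ A, a j ∉
        Submodule.span ℝ (a '' (A : Set ι))) → Zmot (arrC (cx a) 0 m A) ∈ regularAt s₀ := by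
      intro A hA hA2 hA3
      obtain ⟨p', hp'⟩ := exists_through_of_closed a c p A (by rw [hF]; exact hA)
        (by rw [hF]; exact hA3)
      have h1 := IH A.card (by
        rw [← hk]
        refine Finset.card_lt_card (Finset.ssubset_iff_subset_ne.2 ⟨hA, ?_⟩)
        rintro rfl
        simp at hA2) p' (by rw [hp'])
      rwa [hp'] at h1
    refine mul_mem (hsub G hG hG2 (hcl _ _ hdis)) (hsub (F \ G) Finset.sdiff_subset ?_ ?_)
    · rw [Finset.sdiff_sdiff_eq_self hG]; exact hG1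
    · rw [Finset.sdiff_sdiff_eq_self hG]
      exact hcl _ _ hdis.symm

theorem arrPoly_eq_arrC (a : ι → Fin n → ℝ) (c : ι → ℝ) (m : ι → ℕ) :
    arrPoly a c m = arrC (cx a) (fun j => ((c j : ℝ) : ℂ)) m Finset.univ := rfl

/-- **Poles of the motivic zeta function of a real arrangement.** -/
theorem exists_dense_of_isPole [DecidableEq ι] (a : ι → Fin n → ℝ) (c : ι → ℝ) (m : ι → ℕ)
    (ha : ∀ j, a j ≠ 0) (hm : ∀ j, 0 < m j) (s₀ : ℚ) (hs₀ : IsPole (Zmot (arrPoly a c m)) s₀) :
    ∃ p : Fin n → ℝ, IsDense a (through a c p) ∧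
      s₀ = -(((rk a (through a c p) : ℕ) : ℚ) / ((mult m (through a c p) : ℕ) : ℚ)) := by
  by_contra hcon
  push Not at hcon
  apply hs₀
  have hs : ∀ p : Fin n → ℝ, IsDense a (through a c p) →
      ((rk a (through a c p) : ℕ) : ℚ) / ((mult m (through a c p) : ℕ) : ℚ) ≠ -s₀ := by
    intro p hp h
    apply hcon p hp
    rw [h, neg_neg]
  rw [arrPoly_eq_arrC, Zmot_arrC (cx a) _ m hm]
  refine sum_mem fun G _ => ?_
  rcases strat_empty_or a (fun j => ((c j : ℝ) : ℂ)) Finset.univ G with h0 | ⟨q, hq⟩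
  · rw [h0, mul_zero, map_zero, zero_mul]
    exact zero_mem _
  · obtain ⟨p', hp'⟩ := exists_through_of_complex a c q G hq
    have h1 := Zmot_central_mem a c m ha hm s₀ hs G.card p' (by rw [hp'])
    rw [hp'] at h1
    exact mul_mem (C_mem_regularAt s₀ _) (mul_mem (pow_mem (X_mem_regularAt s₀) _) h1)

end MPb07157
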