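import Mathlib

/-!
# Definitions for the strong monodromy conjecture (MP_b07157_ag)

* `MPb07157.K0`, `MPb07157.cls` : the Grothendieck ring of complex varieties, presented by classes of
  constructible subsets of affine spaces;
* `MPb07157.Mot` : its localization at `L = [A^1]`;
* `MPb07157.Zmot` : the (global) motivic zeta function in its arc-space form;
* `MPb07157.IsPole` : poles of a power series in `Mot[[T]]`;
* `MPb07157.InDn`, `MPb07157.IsBernsteinSatoRoot` : the module `D_n[s] f^{s+1}`, roots of the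
  Bernstein–Sato polynomial.
-/

noncomputable section

namespace MPb07157

open MvPolynomial

/-! ### The Grothendieck ring -/

/-- Constructible subsets of `ℂ^σ`: the Boolean algebra of sets generated by the zero sets of
polynomials. -/
inductive IsConstr {σ : Type} : Set (σ → ℂ) → Prop
  | zeros (p : MvPolynomial σ ℂ) : IsConstr {x | eval x p = 0}
  | compl {S : Set (σ → ℂ)} : IsConstr S → IsConstr Sᶜ
  | inter {S T : Set (σ → ℂ)} : IsConstr S → IsConstr T → IsConstr (S ∩ T)

/-- The polynomial map `ℂ^σ → ℂ^τ` with components `φ`. -/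
def polyMap {σ τ : Type} (φ : τ → MvPolynomial σ ℂ) (x : σ → ℂ) : τ → ℂ := fun j => eval x (φ j)

/-- Generators of the Grothendieck ring: constructible subsets of the affine spaces `ℂ^N`. -/
abbrev Gen : Type := Σ N : ℕ, {S : Set (Fin N → ℂ) // IsConstr S}

/-- The product of `S ⊆ ℂ^N` and `T ⊆ ℂ^M` as a subset of `ℂ^(N+M)`. -/
def prodSet {N M : ℕ} (S : Set (Fin N → ℂ)) (T : Set (Fin M → ℂ)) : Set (Fin (N + M) → ℂ) :=
  {x | (fun i => x (Fin.castAdd M i)) ∈ S ∧ (fun i => x (Fin.natAdd N i)) ∈ T}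

/-- The relations defining the Grothendieck ring of complex varieties:
additivity for disjoint unions, invariance under polynomial maps that restrict to a bijection
(over `ℂ`, such a map is a piecewise isomorphism), multiplicativity, and `[pt] = 1`. -/
inductive K0Rel : MvPolynomial Gen ℤ → Prop
  | disj {N : ℕ} (S T : Set (Fin N → ℂ)) (hS : IsConstr S) (hT : IsConstr T)
      (hST : IsConstr (S ∪ T)) (h : Disjoint S T) :
      K0Rel (X ⟨N, S ∪ T, hST⟩ - X ⟨N, S, hS⟩ - X ⟨N, T, hT⟩)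
  | bij {N M : ℕ} (S : Set (Fin N → ℂ)) (T : Set (Fin M → ℂ)) (hS : IsConstr S) (hT : IsConstr T)
      (φ : Fin M → MvPolynomial (Fin N) ℂ) (h : Set.BijOn (polyMap φ) S T) :
      K0Rel (X ⟨N, S, hS⟩ - X ⟨M, T, hT⟩)
  | prod {N M : ℕ} (S : Set (Fin N → ℂ)) (T : Set (Fin M → ℂ)) (hS : IsConstr S)
      (hT : IsConstr T) (hST : IsConstr (prodSet S T)) :
      K0Rel (X ⟨N + M, prodSet S T, hST⟩ - X ⟨N, S, hS⟩ * X ⟨M, T, hT⟩)
  | point (hS : IsConstr (Set.univ : Set (Fin 0 → ℂ))) :
      K0Rel (X ⟨0, Set.univ, hS⟩ - 1)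

/-- The ideal generated by the relations. -/
def K0Ideal : Ideal (MvPolynomial Gen ℤ) := Ideal.span {p | K0Rel p}

/-- The Grothendieck ring `K_0(Var_ℂ)`: generators modulo relations. -/
def K0 : Type := MvPolynomial Gen ℤ ⧸ K0Ideal

instance K0.instCommRing : CommRing K0 := Ideal.Quotient.commRing K0Ideal

/-- The quotient map onto the Grothendieck ring. -/
def toK0 : MvPolynomial Gen ℤ →+* K0 := Ideal.Quotient.mk K0Ideal

open Classical in
/-- The class in `K_0(Var_ℂ)` of a constructible subset of `ℂ^N` (and `0` for other sets). -/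
def clsFin {N : ℕ} (S : Set (Fin N → ℂ)) : K0 :=
  if hS : IsConstr S then toK0 (X ⟨N, S, hS⟩) else 0

/-- The class in `K_0(Var_ℂ)` of a constructible subset of `ℂ^σ`, `σ` a finite type: number the
coordinates. -/
def cls {σ : Type} [Fintype σ] (S : Set (σ → ℂ)) : K0 :=
  clsFin {x : Fin (Fintype.card σ) → ℂ | (fun i => x (Fintype.equivFin σ i)) ∈ S}

/-- The class `L` of the affine line. -/
def L : K0 := clsFin (Set.univ : Set (Fin 1 → ℂ))

/-- The ring `𝓜 = K_0(Var_ℂ)[L⁻¹]`. -/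
def Mot : Type := Localization.Away L

instance Mot.instCommRing : CommRing Mot :=
  @OreLocalization.instCommRing K0 _ (Submonoid.powers L) _

instance Mot.instAlgebra : Algebra K0 Mot :=
  (inferInstance : Algebra K0 (Localization.Away L))

instance Mot.instIsLocalization : IsLocalization.Away L Mot :=
  (Localization.isLocalization : IsLocalization (Submonoid.powers L) (Localization.Away L))

attribute [irreducible] Mot.instCommRing

/-- `L` as a unit of `𝓜`. -/
def LU : Motˣ := (IsLocalization.Away.algebraMap_isUnit (S := Mot) L).unit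

/-- The class in `𝓜` of a constructible set. -/
def clsM {σ : Type} [Fintype σ] (S : Set (σ → ℂ)) : Mot := algebraMap K0 Mot (cls S)

/-! ### Motivic zeta functions -/

/-- The arc with coordinates `γ_i(t) = ∑_{j < N} γ_{i,j} t^j`. -/
def arc {n N : ℕ} (γ : Fin n × Fin N → ℂ) : Fin n → PowerSeries ℂ :=
  fun i => ∑ j : Fin N, PowerSeries.C (γ (i, j)) * PowerSeries.X ^ (j : ℕ)

/-- Truncated arcs `γ(t) = γ_0 + γ_1 t + ⋯ + γ_{N-1} t^{N-1}` in `ℂ^n` with
`ord_t f(γ(t)) = m`. -/
def arcs {n : ℕ} (f : MvPolynomial (Fin n) ℂ) (N m : ℕ) : Set (Fin n × Fin N → ℂ) :=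
  {γ | (aeval (arc γ) f : PowerSeries ℂ).order = m}

/-- The coefficient `L^{-n(m+1)} [X_m]` of the motivic zeta function, where `X_m` is the set of
`m`-jets `γ` of arcs with `ord_t f(γ(t)) = m`. -/
def Zcoeff {n : ℕ} (f : MvPolynomial (Fin n) ℂ) (m : ℕ) : Mot :=
  ↑((LU ^ (n * (m + 1)))⁻¹) * clsM (arcs f (m + 1) m)

/-- The motivic zeta function `Z_f^mot = ∑_m L^{-n(m+1)} [X_m] T^m` (Denef–Loeser), `T = L^{-s}`. -/
def Zmot {n : ℕ} (f : MvPolynomial (Fin n) ℂ) : PowerSeries Mot := PowerSeries.mk (Zcoeff f)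

/-- The subring `𝓜[T][(1 - L^{-a} T^b)⁻¹ : a ∈ ℤ, b > 0, a/b ≠ -s₀]` of `𝓜[[T]]`. -/
def regularAt (s₀ : ℚ) : Subalgebra Mot (PowerSeries Mot) :=
  Algebra.adjoin Mot ({PowerSeries.X} ∪
    {g | ∃ (a : ℤ) (b : ℕ), 0 < b ∧ (a : ℚ) / b ≠ -s₀ ∧
      g * (1 - PowerSeries.C (↑(LU ^ (-a)) : Mot) * PowerSeries.X ^ b) = 1})

/-- `s₀` is a pole of `Z`. -/
def IsPole (Z : PowerSeries Mot) (s₀ : ℚ) : Prop := Z ∉ regularAt s₀

/-! ### Bernstein–Sato polynomials -/

/-- `f`, seen as a polynomial in `x` with coefficients in `ℂ[s]`. -/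
def liftS {n : ℕ} (f : MvPolynomial (Fin n) ℂ) : MvPolynomial (Fin n) (Polynomial ℂ) :=
  map Polynomial.C f

/-- `InDn f k g` says that `g · f^{s+1-k}` belongs to the module `D_n[s] · f^{s+1}`, for
`g ∈ ℂ[s][x_1, …, x_n]`: the smallest family closed under the operations of `D_n[s]`
(addition, multiplication by elements of `ℂ[s][x]`, and
`∂_i (g f^{s+1-k}) = (f ∂_i g + (s+1-k) (∂_i f) g) f^{s+1-(k+1)}`)
and under the identification `g f^{s+1-k} = (f g) f^{s+1-(k+1)}`, and which contains `f^{s+1}`. -/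
inductive InDn {n : ℕ} (f : MvPolynomial (Fin n) ℂ) : ℕ → MvPolynomial (Fin n) (Polynomial ℂ) → Prop
  | base : InDn f 0 1
  | add {k g h} : InDn f k g → InDn f k h → InDn f k (g + h)
  | mul {k g} (c : MvPolynomial (Fin n) (Polynomial ℂ)) : InDn f k g → InDn f k (c * g)
  | deriv {k g} (i : Fin n) : InDn f k g →
      InDn f (k + 1) (liftS f * pderiv i g +
        C (Polynomial.X + 1 - (k : Polynomial ℂ)) * liftS (pderiv i f) * g)
  | raise {k g} : InDn f k g → InDn f (k + 1) (liftS f * g)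
  | lower {k g} : InDn f (k + 1) (liftS f * g) → InDn f k g

/-- `b(s) f^s ∈ D_n[s] f^{s+1}`: the polynomial `b` lies in the Bernstein–Sato ideal of `f`. -/
def IsBernsteinSato {n : ℕ} (f : MvPolynomial (Fin n) ℂ) (b : Polynomial ℂ) : Prop :=
  InDn f 1 (C b)

/-- `s₀` is a root of the Bernstein–Sato polynomial `b_f`, the monic generator of the (nonzero)
ideal of all `b` with `b(s) f^s ∈ D_n[s] f^{s+1}`: every such `b` vanishes at `s₀`. -/
def IsBernsteinSatoRoot {n : ℕ} (f : MvPolynomial (Fin n) ℂ) (s₀ : ℚ) : Prop :=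
  ∀ b : Polynomial ℂ, IsBernsteinSato f b → b.eval (s₀ : ℂ) = 0

/-! ### Real hyperplane arrangements -/

/-- The affine form `a·x + c`, as a complex polynomial. -/
def affForm {n : ℕ} (a : Fin n → ℝ) (c : ℝ) : MvPolynomial (Fin n) ℂ :=
  ∑ i, C (a i : ℂ) * X i + C (c : ℂ)

/-- The defining polynomial `∏_j (a_j·x + c_j)^{m_j}` of an arrangement with multiplicities. -/
def arrPoly {n : ℕ} {ι : Type} [Fintype ι] (a : ι → Fin n → ℝ) (c : ι → ℝ) (m : ι → ℕ) :
    MvPolynomial (Fin n) ℂ :=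
  ∏ j, affForm (a j) (c j) ^ m j

open Classical in
/-- The hyperplanes through the real point `p`. -/
def through {n : ℕ} {ι : Type} [Fintype ι] (a : ι → Fin n → ℝ) (c : ι → ℝ) (p : Fin n → ℝ) :
    Finset ι :=
  Finset.univ.filter (fun j => a j ⬝ᵥ p + c j = 0)

/-- The rank of a set of hyperplanes: the codimension of their intersection, if not empty. -/
def rk {n : ℕ} {ι : Type} (a : ι → Fin n → ℝ) (F : Finset ι) : ℕ :=
  Module.finrank ℝ (Submodule.span ℝ (a '' (F : Set ι)))

/-- The hyperplanes in `F` form an indecomposable (dense) arrangement. -/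
def IsDense {n : ℕ} {ι : Type} [DecidableEq ι] (a : ι → Fin n → ℝ) (F : Finset ι) : Prop :=
  F.Nonempty ∧ ∀ G ⊆ F, G.Nonempty → (F \ G).Nonempty →
    ¬ Disjoint (Submodule.span ℝ (a '' (G : Set ι))) (Submodule.span ℝ (a '' ((F \ G : Finset ι) : Set ι)))

end MPb07157
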