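import Mathlib
import Pool.Agent.Lib.MP_b07157_ag.Defs

/-!
# The chamber lemma for dense real arrangements (MP_b07157_ag)
-/

noncomputable section

namespace MPb07157

namespace ChamberAux

variable {n : ℕ} {ι : Type}

/-- every linear functional on `T → ℝ` is a dot product -/
theorem functional_eq_dot {κ : Type} [Fintype κ] [DecidableEq κ] (g : (κ → ℝ) →ₗ[ℝ] ℝ) :
    ∃ z : κ → ℝ, ∀ x, g x = z ⬝ᵥ x := by
  refine ⟨(dotProductEquiv ℝ κ).symm g, fun x => ?_⟩
  have := (dotProductEquiv ℝ κ).apply_symm_apply g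
  calc g x = (dotProductEquiv ℝ κ ((dotProductEquiv ℝ κ).symm g)) x := by rw [this]
    _ = _ := rfl

/-- double annihilator -/
theorem mem_of_forall_dot (W : Submodule ℝ (Fin n → ℝ)) (v : Fin n → ℝ)
    (h : ∀ z : Fin n → ℝ, (∀ w ∈ W, w ⬝ᵥ z = 0) → v ⬝ᵥ z = 0) : v ∈ W := by
  by_contra hv
  obtain ⟨g, hgv, hg⟩ := Submodule.exists_le_ker_of_notMem hv
  obtain ⟨z, hz⟩ := functional_eq_dot g
  apply hgv
  rw [hz, dotProduct_comm]
  apply h
  intro w hw
  rw [dotProduct_comm, ← hz]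
  exact hg hw

/-- solvability of linear systems -/
theorem exists_solution (a : ι → Fin n → ℝ) (W : Submodule ℝ (Fin n → ℝ)) (T : Finset ι)
    (τ : ι → ℝ)
    (h : ∀ e : ι → ℝ, (∑ t ∈ T, e t • a t) ∈ W → ∑ t ∈ T, e t * τ t = 0) :
    ∃ z : Fin n → ℝ, (∀ w ∈ W, w ⬝ᵥ z = 0) ∧ ∀ t ∈ T, a t ⬝ᵥ z = τ t := by
  classical
  let Wp : Submodule ℝ (Fin n → ℝ) :=
    { carrier := {z | ∀ w ∈ W, w ⬝ᵥ z = 0}
      add_mem' := by
        intro x y hx hy w hw
        rw [dotProduct_add, hx w hw, hy w hw, add_zero]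
      zero_mem' := by
        intro w _
        exact dotProduct_zero w
      smul_mem' := by
        intro c x hx w hw
        rw [dotProduct_smul, hx w hw, smul_zero] }
  let Φ : (Fin n → ℝ) →ₗ[ℝ] (T → ℝ) :=
    { toFun := fun z t => a t ⬝ᵥ z
      map_add' := by
        intro x y; ext t; simp [dotProduct_add]
      map_smul' := by
        intro c x; ext t; simp [dotProduct_smul] }
  by_contra hcon
  have hτ : (fun t : T => τ t) ∉ Wp.map Φ := by
    rintro ⟨z, hz, hz'⟩
    apply hcon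
    refine ⟨z, hz, fun t ht => ?_⟩
    exact congrFun hz' ⟨t, ht⟩
  obtain ⟨g, hg1, hg2⟩ := Submodule.exists_le_ker_of_notMem hτ
  obtain ⟨c, hc⟩ := functional_eq_dot g
  let e : ι → ℝ := fun t => if ht : t ∈ T then c ⟨t, ht⟩ else 0
  have esum : ∀ f : ι → ℝ, c ⬝ᵥ (fun t : T => f t) = ∑ t ∈ T, e t * f t := by
    intro f
    rw [← Finset.sum_coe_sort (s := T)]
    unfold dotProduct
    refine Finset.sum_congr rfl fun t _ => ?_
    simp [e]
  apply hg1
  rw [hc, esum]
  apply h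
  apply mem_of_forall_dot
  intro z hz
  have h1 : g (Φ z) = 0 := hg2 ⟨z, hz, rfl⟩
  rw [hc] at h1
  have h2 : c ⬝ᵥ (Φ z) = ∑ t ∈ T, e t * (a t ⬝ᵥ z) := esum fun t => a t ⬝ᵥ z
  rw [h2] at h1
  rw [sum_dotProduct]
  rw [← h1]
  refine Finset.sum_congr rfl fun t _ => ?_
  rw [smul_dotProduct, smul_eq_mul]

/-- small perturbations keep finitely many strict inequalities -/
theorem exists_small (S : Finset ι) (f g : ι → ℝ) (hf : ∀ j ∈ S, 0 < f j) :
    ∃ ε : ℝ, 0 < ε ∧ ∀ δ : ℝ, |δ| ≤ ε → ∀ j ∈ S, 0 < f j + δ * g j := by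
  classical
  induction S using Finset.induction_on with
  | empty => exact ⟨1, one_pos, by simp⟩
  | insert a S ha ih =>
    obtain ⟨ε, hε, h⟩ := ih fun j hj => hf j (Finset.mem_insert_of_mem hj)
    have hfa := hf a (Finset.mem_insert_self a S)
    refine ⟨min ε (f a / (2 * (|g a| + 1))), ?_, ?_⟩
    · positivity
    · intro δ hδ j hj
      rcases Finset.mem_insert.1 hj with rfl | hj
      · have h1 : |δ| ≤ f j / (2 * (|g j| + 1)) := hδ.trans (min_le_right _ _)
        have h2 : |δ * g j| ≤ f j / 2 := by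
          rw [abs_mul]
          have h3 : |δ| * |g j| ≤ f j / (2 * (|g j| + 1)) * |g j| :=
            mul_le_mul_of_nonneg_right h1 (abs_nonneg _)
          refine h3.trans ?_
          rw [div_mul_eq_mul_div, div_le_div_iff₀ (by positivity) (by norm_num)]
          nlinarith [abs_nonneg (g j)]
        have h4 := neg_abs_le (δ * g j)
        linarith
      · exact h δ (hδ.trans (min_le_left _ _)) j hj

/-- perturbing `y` -/
theorem exists_perturb (a : ι → Fin n → ℝ) (S : Finset ι) (e : ι → ℝ) (y : Fin n → ℝ)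
    (h : ∀ j ∈ S, 0 < e j * (a j ⬝ᵥ y)) (v : Fin n → ℝ) (hv : v ≠ 0) :
    ∃ y' : Fin n → ℝ, (∀ j ∈ S, 0 < e j * (a j ⬝ᵥ y')) ∧ v ⬝ᵥ y' ≠ 0 := by
  by_cases hvy : v ⬝ᵥ y = 0
  · obtain ⟨ε, hε, h'⟩ := exists_small S (fun j => e j * (a j ⬝ᵥ y)) (fun j => e j * (a j ⬝ᵥ v)) h
    refine ⟨y + ε • v, fun j hj => ?_, ?_⟩
    · have := h' ε (by rw [abs_of_pos hε]) j hj
      rw [dotProduct_add, dotProduct_smul, smul_eq_mul]
      linarith
    · rw [dotProduct_add, dotProduct_smul, smul_eq_mul, hvy, zero_add]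
      refine mul_ne_zero hε.ne' ?_
      intro h0
      exact hv (dotProduct_self_eq_zero.1 h0)
  · exact ⟨y, h, hvy⟩

variable [DecidableEq ι]

/-- a minimal set whose span meets `W` -/
theorem exists_minimal (a : ι → Fin n → ℝ) (W : Submodule ℝ (Fin n → ℝ)) (R : Finset ι)
    (h : ¬ Disjoint W (Submodule.span ℝ (a '' (R : Set ι)))) :
    ∃ T ⊆ R, ¬ Disjoint W (Submodule.span ℝ (a '' (T : Set ι))) ∧
      ∀ t ∈ T, Disjoint W (Submodule.span ℝ (a '' ((T.erase t : Finset ι) : Set ι))) := by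
  classical
  obtain ⟨T, hT, hmin⟩ := Finset.exists_min_image
    (R.powerset.filter fun T : Finset ι => ¬ Disjoint W (Submodule.span ℝ (a '' (T : Set ι))))
    Finset.card
    ⟨R, by rw [Finset.mem_filter, Finset.mem_powerset]; exact ⟨subset_rfl, h⟩⟩
  rw [Finset.mem_filter, Finset.mem_powerset] at hT
  refine ⟨T, hT.1, hT.2, fun t ht => ?_⟩
  by_contra hcon
  have h1 := hmin (T.erase t) (by
    rw [Finset.mem_filter, Finset.mem_powerset]
    exact ⟨(Finset.erase_subset t T).trans hT.1, hcon⟩)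
  have h2 := Finset.card_erase_lt_of_mem ht
  omega

/-- relations over a minimal set are unique -/
theorem unique_relation (a : ι → Fin n → ℝ) (W : Submodule ℝ (Fin n → ℝ)) (T : Finset ι)
    (hmin : ∀ t ∈ T, Disjoint W (Submodule.span ℝ (a '' ((T.erase t : Finset ι) : Set ι))))
    (e : ι → ℝ) (he : ∑ t ∈ T, e t • a t ∈ W) (he0 : ∑ t ∈ T, e t • a t ≠ 0) :
    (∀ t ∈ T, e t ≠ 0) ∧
      ∀ e' : ι → ℝ, ∑ t ∈ T, e' t • a t ∈ W → ∃ μ : ℝ, ∀ t ∈ T, e' t = μ * e t := by
  -- a relation with a vanishing coefficient is zero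
  have key : ∀ (e' : ι → ℝ), ∑ t ∈ T, e' t • a t ∈ W → ∀ t ∈ T, e' t = 0 →
      ∑ t ∈ T, e' t • a t = 0 := by
    intro e' he' t ht h0
    have h1 : ∑ t ∈ T, e' t • a t ∈ Submodule.span ℝ (a '' ((T.erase t : Finset ι) : Set ι)) := by
      rw [Submodule.mem_span_image_finset_iff_exists_fun']
      refine ⟨e', ?_⟩
      rw [← Finset.add_sum_erase T _ ht, h0, zero_smul, zero_add]
    exact Submodule.disjoint_def.1 (hmin t ht) _ he' h1
  have hne : ∀ t ∈ T, e t ≠ 0 := by
    intro t ht h0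
    exact he0 (key e he t ht h0)
  refine ⟨hne, fun e' he' => ?_⟩
  rcases T.eq_empty_or_nonempty with rfl | ⟨t0, ht0⟩
  · exact ⟨0, by simp⟩
  refine ⟨e' t0 / e t0, ?_⟩
  set μ := e' t0 / e t0 with hμ
  -- the difference
  have hd : ∑ t ∈ T, (e' t - μ * e t) • a t = ∑ t ∈ T, e' t • a t - μ • ∑ t ∈ T, e t • a t := by
    rw [Finset.smul_sum, ← Finset.sum_sub_distrib]
    refine Finset.sum_congr rfl fun t _ => ?_
    rw [sub_smul, mul_smul]
  have hdW : ∑ t ∈ T, (e' t - μ * e t) • a t ∈ W := by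
    rw [hd]
    exact W.sub_mem he' (W.smul_mem _ he)
  have hd0 : ∑ t ∈ T, (e' t - μ * e t) • a t = 0 := by
    refine key (fun t => e' t - μ * e t) hdW t0 ht0 ?_
    rw [hμ]
    have := hne t0 ht0
    field_simp
    ring
  intro t1 ht1
  by_contra hcon
  have hc : e' t1 - μ * e t1 ≠ 0 := sub_ne_zero.2 hcon
  -- subtract a multiple of the relation from `e` to kill the coefficient `t1`
  set ν := e t1 / (e' t1 - μ * e t1) with hν
  have h1 : ∑ t ∈ T, (e t - ν * (e' t - μ * e t)) • a t = ∑ t ∈ T, e t • a t := by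
    have : ∑ t ∈ T, (e t - ν * (e' t - μ * e t)) • a t =
        ∑ t ∈ T, e t • a t - ν • ∑ t ∈ T, (e' t - μ * e t) • a t := by
      rw [Finset.smul_sum, ← Finset.sum_sub_distrib]
      refine Finset.sum_congr rfl fun t _ => ?_
      rw [sub_smul, mul_smul]
    rw [this, hd0, smul_zero, sub_zero]
  have h2 := key (fun t => e t - ν * (e' t - μ * e t)) (by rw [h1]; exact he) t1 ht1 (by
    rw [hν, div_mul_cancel₀ _ hc, sub_self])
  rw [h1] at h2
  exact he0 h2

/-- the enlarging step: if `a i₀` has a signed expansion over `S` and the span of `S` meets the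
span of `R`, then there is one over a larger set. -/
theorem enlarge (a : ι → Fin n → ℝ) (v₀ : Fin n → ℝ) (S R : Finset ι) (hSR : Disjoint S R)
    (hS : ∃ (y : Fin n → ℝ) (e : ι → ℝ), (∀ j ∈ S, 0 < e j * (a j ⬝ᵥ y)) ∧
      v₀ = ∑ j ∈ S, e j • a j)
    (hW : ¬ Disjoint (Submodule.span ℝ (a '' (S : Set ι))) (Submodule.span ℝ (a '' (R : Set ι)))) :
    ∃ T ⊆ R, T.Nonempty ∧ ∃ (y : Fin n → ℝ) (e : ι → ℝ),
      (∀ j ∈ S ∪ T, 0 < e j * (a j ⬝ᵥ y)) ∧ v₀ = ∑ j ∈ S ∪ T, e j • a j := by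
  classical
  set W := Submodule.span ℝ (a '' (S : Set ι)) with hWdef
  obtain ⟨T, hTR, hT, hmin⟩ := exists_minimal a W R hW
  rw [Submodule.disjoint_def] at hT
  push Not at hT
  obtain ⟨v, hvW, hvT, hv0⟩ := hT
  rw [Submodule.mem_span_image_finset_iff_exists_fun'] at hvT
  obtain ⟨e, he⟩ := hvT
  obtain ⟨hne, huniq⟩ := unique_relation a W T hmin e (by rw [he]; exact hvW) (by rw [he]; exact hv0)
  have hTne : T.Nonempty := by
    rw [Finset.nonempty_iff_ne_empty]
    rintro rfl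
    apply hv0
    rw [← he]; simp
  have hTc : (0 : ℝ) < T.card := by exact_mod_cast hTne.card_pos
  obtain ⟨y₀, c, hy₀, hv₀⟩ := hS
  obtain ⟨y, hy, hvy⟩ := exists_perturb a S c y₀ hy₀ v hv0
  obtain ⟨z, hzW, hzT⟩ := exists_solution a W T (fun t => v ⬝ᵥ y / (T.card * e t) - a t ⬝ᵥ y) (by
    intro e' he'
    obtain ⟨μ, hμ⟩ := huniq e' he'
    have h1 : ∑ t ∈ T, e' t * (v ⬝ᵥ y / (T.card * e t) - a t ⬝ᵥ y) =
        μ * (∑ t ∈ T, (v ⬝ᵥ y / T.card) - ∑ t ∈ T, e t * (a t ⬝ᵥ y)) := by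
      rw [← Finset.sum_sub_distrib, Finset.mul_sum]
      refine Finset.sum_congr rfl fun t ht => ?_
      rw [hμ t ht]
      have := hne t ht
      field_simp
    rw [h1, Finset.sum_const, nsmul_eq_mul]
    have h2 : ∑ t ∈ T, e t * (a t ⬝ᵥ y) = v ⬝ᵥ y := by
      rw [← he, sum_dotProduct]
      refine Finset.sum_congr rfl fun t _ => ?_
      rw [smul_dotProduct, smul_eq_mul]
    rw [h2]
    field_simp
    ring)
  rw [hWdef, Submodule.mem_span_image_finset_iff_exists_fun'] at hvW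
  obtain ⟨d, hd⟩ := hvW
  -- the new vector
  have hyS : ∀ j ∈ S, a j ⬝ᵥ (y + z) = a j ⬝ᵥ y := by
    intro j hj
    rw [dotProduct_add, hzW (a j) (Submodule.subset_span ⟨j, hj, rfl⟩), add_zero]
  have hyT : ∀ t ∈ T, a t ⬝ᵥ (y + z) = v ⬝ᵥ y / (T.card * e t) := by
    intro t ht
    rw [dotProduct_add, hzT t ht]
    ring
  obtain ⟨η, hη, hη'⟩ := exists_small S (fun j => c j * (a j ⬝ᵥ y))
    (fun j => -((v ⬝ᵥ y) * d j) * (a j ⬝ᵥ y)) hy
  have hη1 := hη' η (by rw [abs_of_pos hη])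
  have hST : Disjoint S T := Disjoint.mono_right hTR hSR
  refine ⟨T, hTR, hTne, y + z,
    fun j => if j ∈ S then c j - η * (v ⬝ᵥ y) * d j else η * (v ⬝ᵥ y) * e j, ?_, ?_⟩
  · intro j hj
    by_cases hjS : j ∈ S
    · simp only [hjS, if_true]
      rw [hyS j hjS]
      have := hη1 j hjS
      linarith
    · have hjT : j ∈ T := (Finset.mem_union.1 hj).resolve_left hjS
      simp only [hjS, if_false]
      rw [hyT j hjT]
      have h1 := hne j hjT
      have h2 : η * (v ⬝ᵥ y) * e j * (v ⬝ᵥ y / (T.card * e j)) = η * (v ⬝ᵥ y) ^ 2 / T.card := by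
        field_simp
      rw [h2]
      have h3 : 0 < (v ⬝ᵥ y) ^ 2 := by positivity
      positivity
  · rw [Finset.sum_union hST]
    have h1 : ∑ j ∈ S, (if j ∈ S then c j - η * (v ⬝ᵥ y) * d j else η * (v ⬝ᵥ y) * e j) • a j =
        v₀ - (η * (v ⬝ᵥ y)) • v := by
      rw [hv₀, ← hd, Finset.smul_sum, ← Finset.sum_sub_distrib]
      refine Finset.sum_congr rfl fun j hj => ?_
      simp only [hj, if_true]
      rw [sub_smul, smul_smul]
    have h2 : ∑ j ∈ T, (if j ∈ S then c j - η * (v ⬝ᵥ y) * d j else η * (v ⬝ᵥ y) * e j) • a j =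
        (η * (v ⬝ᵥ y)) • v := by
      rw [← he, Finset.smul_sum]
      refine Finset.sum_congr rfl fun j hj => ?_
      have hjS : j ∉ S := fun h => Finset.disjoint_left.1 hST h hj
      simp only [hjS, if_false]
      rw [smul_smul]
    rw [h1, h2]
    abel

end ChamberAux

open ChamberAux in
theorem exists_chamber {n : ℕ} {ι : Type} [DecidableEq ι] (a : ι → Fin n → ℝ) (F : Finset ι)
    (hF : IsDense a F) (ha : ∀ j ∈ F, a j ≠ 0) (i₀ : ι) (hi₀ : i₀ ∈ F) :
    ∃ (y : Fin n → ℝ) (c : ι → ℝ), (∀ j ∈ F, a j ⬝ᵥ y ≠ 0) ∧ (∀ j ∈ F.erase i₀, 0 < c j) ∧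
      ((F.erase i₀).Nonempty → a i₀ = ∑ j ∈ F.erase i₀, (c j * (a j ⬝ᵥ y)) • a j) := by
  classical
  rcases (F.erase i₀).eq_empty_or_nonempty with hE | hE
  · -- a single form
    refine ⟨a i₀, fun _ => 1, ?_, ?_, ?_⟩
    · intro j hj
      have hji : j = i₀ := by
        by_contra hne
        have : j ∈ F.erase i₀ := Finset.mem_erase.2 ⟨hne, hj⟩
        rw [hE] at this
        simp at this
      rw [hji]
      intro h0
      exact ha i₀ hi₀ (dotProduct_self_eq_zero.1 h0)
    · intro j _; exact one_pos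
    · intro h
      rw [hE] at h
      simp at h
  -- good sets
  let Good : Finset ι → Prop := fun S => ∃ (y : Fin n → ℝ) (e : ι → ℝ),
    (∀ j ∈ S, 0 < e j * (a j ⬝ᵥ y)) ∧ a i₀ = ∑ j ∈ S, e j • a j
  -- a first good set
  have h0 : ∃ S ⊆ F.erase i₀, Good S := by
    have hd := hF.2 {i₀} (by simpa using hi₀) (by simp) (by
      rw [← Finset.erase_eq]; exact hE)
    rw [← Finset.erase_eq] at hd
    obtain ⟨T, hTR, hT, hmin⟩ := exists_minimal a _ _ hd
    rw [Submodule.disjoint_def] at hT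
    push Not at hT
    obtain ⟨v, hvW, hvT, hv0⟩ := hT
    rw [Submodule.mem_span_image_finset_iff_exists_fun'] at hvT
    obtain ⟨e, he⟩ := hvT
    obtain ⟨hne, huniq⟩ := unique_relation a _ T hmin e (by rw [he]; exact hvW)
      (by rw [he]; exact hv0)
    simp only [Finset.coe_singleton, Set.image_singleton] at hvW
    obtain ⟨μ, hμ⟩ := Submodule.mem_span_singleton.1 hvW
    have hμ0 : μ ≠ 0 := by
      rintro rfl
      rw [zero_smul] at hμ
      exact hv0 hμ.symm
    obtain ⟨y, -, hy⟩ := exists_solution a ⊥ T (fun t => e t / μ) (by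
      intro e' he'
      obtain ⟨ν, hν⟩ := huniq e' (by
        rw [Submodule.mem_bot] at he'
        rw [he']
        exact Submodule.zero_mem _)
      have h1 : ∑ t ∈ T, e' t • a t = ν • v := by
        rw [← he, Finset.smul_sum]
        refine Finset.sum_congr rfl fun t ht => ?_
        rw [hν t ht, mul_smul]
      rw [Submodule.mem_bot, h1, smul_eq_zero] at he'
      have hν0 : ν = 0 := he'.resolve_right hv0
      refine Finset.sum_eq_zero fun t ht => ?_
      rw [hν t ht, hν0]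
      ring)
    refine ⟨T, hTR, y, fun t => e t / μ, ?_, ?_⟩
    · intro j hj
      simp only []
      rw [hy j hj]
      have : e j / μ ≠ 0 := div_ne_zero (hne j hj) hμ0
      exact mul_self_pos.2 this
    · have h1 : a i₀ = μ⁻¹ • v := by
        rw [← hμ, smul_smul, inv_mul_cancel₀ hμ0, one_smul]
      rw [h1, ← he, Finset.smul_sum]
      refine Finset.sum_congr rfl fun t _ => ?_
      rw [smul_smul]
      congr 1
      field_simp
  obtain ⟨S₀, hS₀, hS₀g⟩ := h0
  obtain ⟨S, hS, hmax⟩ := Finset.exists_max_image ((F.erase i₀).powerset.filter Good) Finset.card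
    ⟨S₀, by rw [Finset.mem_filter, Finset.mem_powerset]; exact ⟨hS₀, hS₀g⟩⟩
  rw [Finset.mem_filter, Finset.mem_powerset] at hS
  obtain ⟨hSF, hSg⟩ := hS
  have hSall : S = F.erase i₀ := by
    by_contra hne
    have hR : (F.erase i₀ \ S).Nonempty := by
      rw [Finset.sdiff_nonempty]
      intro h
      exact hne (Finset.Subset.antisymm hSF h)
    have hsd : F \ insert i₀ S = F.erase i₀ \ S := by
      ext j
      simp only [Finset.mem_sdiff, Finset.mem_insert, Finset.mem_erase]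
      tauto
    have hins : insert i₀ S ⊆ F := by
      intro j hj
      rcases Finset.mem_insert.1 hj with rfl | hj
      · exact hi₀
      · exact Finset.mem_of_mem_erase (hSF hj)
    have hd := hF.2 (insert i₀ S) hins (by simp) (by rw [hsd]; exact hR)
    rw [hsd] at hd
    have hspan : Submodule.span ℝ (a '' ((insert i₀ S : Finset ι) : Set ι)) =
        Submodule.span ℝ (a '' (S : Set ι)) := by
      rw [Finset.coe_insert, Set.image_insert_eq]
      apply Submodule.span_insert_eq_span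
      rw [Submodule.mem_span_image_finset_iff_exists_fun']
      obtain ⟨y, e, -, h2⟩ := hSg
      exact ⟨e, h2.symm⟩
    rw [hspan] at hd
    obtain ⟨T, hTR, hTne, hg⟩ := enlarge a (a i₀) S (F.erase i₀ \ S)
      (Finset.disjoint_sdiff) hSg hd
    have h1 := hmax (S ∪ T) (by
      rw [Finset.mem_filter, Finset.mem_powerset]
      exact ⟨Finset.union_subset hSF (hTR.trans Finset.sdiff_subset), hg⟩)
    have hdisj : Disjoint S T := Disjoint.mono_right hTR Finset.disjoint_sdiff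
    rw [Finset.card_union_of_disjoint hdisj] at h1
    have := hTne.card_pos
    omega
  subst hSall
  obtain ⟨y, e, he, hsum⟩ := hSg
  have hyne : ∀ j ∈ F.erase i₀, a j ⬝ᵥ y ≠ 0 := by
    intro j hj h0
    have := he j hj
    rw [h0, mul_zero] at this
    exact lt_irrefl _ this
  refine ⟨y, fun j => e j / (a j ⬝ᵥ y), ?_, ?_, ?_⟩
  · intro j hj
    by_cases hji : j = i₀
    · subst hji
      have h1 : a j ⬝ᵥ y = ∑ k ∈ F.erase j, e k * (a k ⬝ᵥ y) := by
        conv_lhs => rw [hsum]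
        rw [sum_dotProduct]
        refine Finset.sum_congr rfl fun t _ => ?_
        rw [smul_dotProduct, smul_eq_mul]
      rw [h1]
      exact (Finset.sum_pos he hE).ne'
    · exact hyne j (Finset.mem_erase.2 ⟨hji, hj⟩)
  · intro j hj
    have h1 := he j hj
    have h2 := hyne j hj
    have h3 : e j / (a j ⬝ᵥ y) = e j * (a j ⬝ᵥ y) / (a j ⬝ᵥ y) ^ 2 := by
      field_simp
    simp only []
    rw [h3]
    positivity
  · intro _
    conv_lhs => rw [hsum]
    refine Finset.sum_congr rfl fun j hj => ?_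
    have h2 := hyne j hj
    simp only []
    congr 1
    field_simp

end MPb07157
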