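import Mathlib
import Pool.Agent.Lib.MP_b07157_ag.Defs

/-!
# Combinatorics of arrangements of small rank: a good hyperplane
-/

set_option linter.unusedSectionVars false

namespace MPb07157

namespace Comb

section Basic

variable {n : ℕ} {ι : Type} [DecidableEq ι] (a : ι → Fin n → ℝ)

lemma rk_mono {S T : Finset ι} (h : S ⊆ T) : rk a S ≤ rk a T := by
  unfold rk
  exact Submodule.finrank_mono (Submodule.span_mono (Set.image_mono (by exact_mod_cast h)))

lemma rk_le_card (S : Finset ι) : rk a S ≤ S.card := by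
  unfold rk
  have h := finrank_span_finset_le_card (R := ℝ) (S.image a)
  rw [Finset.coe_image] at h
  exact h.trans Finset.card_image_le

lemma rk_submod (S T : Finset ι) : rk a (S ∪ T) + rk a (S ∩ T) ≤ rk a S + rk a T := by
  unfold rk
  have h := Submodule.finrank_sup_add_finrank_inf_eq (Submodule.span ℝ (a '' (S : Set ι)))
    (Submodule.span ℝ (a '' (T : Set ι)))
  rw [← Submodule.span_union, ← Set.image_union, ← Finset.coe_union] at h
  have h2 : Module.finrank ℝ (Submodule.span ℝ (a '' ((S ∩ T : Finset ι) : Set ι))) ≤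
      Module.finrank ℝ ↥(Submodule.span ℝ (a '' (S : Set ι)) ⊓
        Submodule.span ℝ (a '' (T : Set ι))) := by
    apply Submodule.finrank_mono
    apply le_inf
    · exact Submodule.span_mono (Set.image_mono (by simp))
    · exact Submodule.span_mono (Set.image_mono (by simp))
  omega

lemma span_eq_of_rk {S T : Finset ι} (h : S ⊆ T) (hr : rk a T ≤ rk a S) :
    Submodule.span ℝ (a '' (S : Set ι)) = Submodule.span ℝ (a '' (T : Set ι)) := by
  apply Submodule.eq_of_le_of_finrank_le
  · exact Submodule.span_mono (Set.image_mono (by exact_mod_cast h))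
  · exact hr

lemma card_le_one_of_rk {F T : Finset ι} (hT : T ⊆ F) (ha : ∀ j ∈ F, a j ≠ 0)
    (hp : ∀ j ∈ F, ∀ k ∈ F, j ≠ k → ¬ ∃ t : ℝ, a k = t • a j) (hr : rk a T ≤ 1) :
    T.card ≤ 1 := by
  rw [Finset.card_le_one]
  intro j hj k hk
  by_contra hjk
  refine hp j (hT hj) k (hT hk) hjk ?_
  have h1 : Submodule.span ℝ (a '' (({j} : Finset ι) : Set ι)) =
      Submodule.span ℝ (a '' (T : Set ι)) := by
    apply span_eq_of_rk a (by simpa using hj)
    refine hr.trans ?_
    unfold rk
    rw [Finset.coe_singleton, Set.image_singleton, finrank_span_singleton (ha j (hT hj))]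
  have h2 : a k ∈ Submodule.span ℝ (a '' (T : Set ι)) :=
    Submodule.subset_span ⟨k, by exact_mod_cast hk, rfl⟩
  rw [← h1, Finset.coe_singleton, Set.image_singleton, Submodule.mem_span_singleton] at h2
  obtain ⟨t, ht⟩ := h2
  exact ⟨t, ht.symm⟩

lemma rk_pos {S : Finset ι} {j : ι} (hj : j ∈ S) (ha : a j ≠ 0) : 1 ≤ rk a S := by
  have : rk a {j} = 1 := by
    unfold rk
    rw [Finset.coe_singleton, Set.image_singleton, finrank_span_singleton ha]
  rw [← this]
  exact rk_mono a (by simpa using hj)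

/-- a flat of the arrangement `F` -/
def Flat (F S : Finset ι) : Prop :=
  S ⊆ F ∧ ∀ j ∈ F, a j ∈ Submodule.span ℝ (a '' (S : Set ι)) → j ∈ S

lemma exists_flat {F S : Finset ι} (hS : S ⊆ F) : ∃ T, Flat a F T ∧ S ⊆ T ∧
    Submodule.span ℝ (a '' (T : Set ι)) = Submodule.span ℝ (a '' (S : Set ι)) := by
  classical
  let T := F.filter (fun j => a j ∈ Submodule.span ℝ (a '' (S : Set ι)))
  have hST : S ⊆ T := by
    intro j hj
    rw [Finset.mem_filter]
    exact ⟨hS hj, Submodule.subset_span ⟨j, by exact_mod_cast hj, rfl⟩⟩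
  have hspan : Submodule.span ℝ (a '' (T : Set ι)) = Submodule.span ℝ (a '' (S : Set ι)) := by
    apply le_antisymm
    · rw [Submodule.span_le]
      rintro _ ⟨j, hj, rfl⟩
      have := Finset.mem_coe.1 hj
      rw [Finset.mem_filter] at this
      exact this.2
    · exact Submodule.span_mono (Set.image_mono (by exact_mod_cast hST))
  refine ⟨T, ⟨Finset.filter_subset _ _, fun j hj hj2 => ?_⟩, hST, hspan⟩
  rw [hspan] at hj2
  exact Finset.mem_filter.2 ⟨hj, hj2⟩

/-- a flat of rank `r` contained up to rank in another flat -/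
lemma Flat.subset_of_rk {F S T : Finset ι} (hS : Flat a F S) (hT : Flat a F T)
    (h : rk a S ≤ rk a (S ∩ T)) : S ⊆ T := by
  intro j hj
  apply hT.2 j (hS.1 hj)
  have h1 := span_eq_of_rk a (Finset.inter_subset_left (s₁ := S) (s₂ := T)) h
  have h2 : a j ∈ Submodule.span ℝ (a '' (S : Set ι)) :=
    Submodule.subset_span ⟨j, by exact_mod_cast hj, rfl⟩
  rw [← h1] at h2
  exact Submodule.span_mono (Set.image_mono (by simp)) h2

/-- a bad flat -/
def Bad (F S : Finset ι) : Prop :=
  Flat a F S ∧ F.card * rk a S < S.card * rk a F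

end Basic

section Main

variable {n : ℕ} {ι : Type} [DecidableEq ι] {a : ι → Fin n → ℝ} {F : Finset ι}

lemma Bad.rk_lt {S : Finset ι} (hS : Bad a F S) : rk a S < rk a F := by
  by_contra h
  push Not at h
  have h1 := Finset.card_le_card hS.1.1
  have h2 := hS.2
  have h3 := Nat.mul_le_mul h1 h
  omega

lemma Bad.two_le_rk {S : Finset ι} (hS : Bad a F S) (ha : ∀ j ∈ F, a j ≠ 0)
    (hp : ∀ j ∈ F, ∀ k ∈ F, j ≠ k → ¬ ∃ t : ℝ, a k = t • a j) : 2 ≤ rk a S := by
  by_contra h
  push Not at h
  have h1 := card_le_one_of_rk a hS.1.1 ha hp (by omega)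
  have h2 := hS.2
  have h3 := rk_le_card a F
  have h4 := rk_le_card a S
  have h5 : rk a S = S.card := by
    rcases Nat.lt_or_ge 0 S.card with h0 | h0
    · obtain ⟨j, hj⟩ := Finset.card_pos.1 h0
      have := rk_pos a hj (ha j (hS.1.1 hj))
      omega
    · omega
  rw [h5, mul_comm] at h2
  have h6 := Nat.mul_le_mul_left S.card h3
  omega

end Main

end Comb

open Comb

theorem exists_good_of_rk_le_four {n : ℕ} {ι : Type} [DecidableEq ι] (a : ι → Fin n → ℝ)
    (F : Finset ι) (hF : IsDense a F) (ha : ∀ j ∈ F, a j ≠ 0)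
    (hp : ∀ j ∈ F, ∀ k ∈ F, j ≠ k → ¬ ∃ t : ℝ, a k = t • a j) (hr : rk a F ≤ 4) :
    ∃ i₀ ∈ F, ∀ S ⊆ F, a i₀ ∉ Submodule.span ℝ (a '' (S : Set ι)) →
      S.card * rk a F ≤ F.card * rk a S := by
  suffices hkey : ∃ i₀ ∈ F, ∀ S, Bad a F S → i₀ ∈ S by
    obtain ⟨i₀, hi₀, h⟩ := hkey
    refine ⟨i₀, hi₀, fun S hS hS2 => ?_⟩
    by_contra hcon
    push Not at hcon
    obtain ⟨T, hT, hST, hspan⟩ := exists_flat a hS
    have hrk : rk a T = rk a S := by unfold rk; rw [hspan]
    have hbad : Bad a F T := by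
      refine ⟨hT, ?_⟩
      rw [hrk]
      exact hcon.trans_le (Nat.mul_le_mul_right _ (Finset.card_le_card hST))
    apply hS2
    rw [← hspan]
    exact Submodule.subset_span ⟨i₀, by exact_mod_cast h T hbad, rfl⟩
  have hcard := rk_le_card a F
  -- two bad flats of rank two are equal
  have huniq2 : ∀ S T, Bad a F S → Bad a F T → rk a S = 2 → rk a T = 2 → S ⊆ T := by
    intro S T hS hT hS2 hT2
    by_contra hcon
    have hlt : rk a (S ∩ T) ≤ 1 := by
      by_contra h
      exact hcon (hS.1.subset_of_rk a hT.1 (by omega))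
    have hc1 : (S ∩ T).card ≤ 1 :=
      card_le_one_of_rk a (Finset.inter_subset_left.trans hS.1.1) ha hp hlt
    have hc2 := Finset.card_union_add_card_inter S T
    have hU : S ∪ T ⊆ F := Finset.union_subset hS.1.1 hT.1.1
    have hc3 := Finset.card_le_card hU
    have hb1 := hS.2
    have hb2 := hT.2
    have hr3 := hS.rk_lt
    have hsub := rk_submod a S T
    rw [hS2] at hb1 hr3 hsub
    rw [hT2] at hb2 hsub
    have : rk a F = 3 ∨ rk a F = 4 := by omega
    rcases this with h3 | h3
    · rw [h3] at hb1 hb2 hcard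
      omega
    · rw [h3] at hb1 hb2 hcard
      -- the union is everything and the intersection is nonempty
      have hUF : S ∪ T = F := Finset.eq_of_subset_of_card_le hU (by omega)
      have hne : (S ∩ T).card ≠ 0 := by omega
      obtain ⟨j, hj⟩ := Finset.card_pos.1 (Nat.pos_of_ne_zero hne)
      have := rk_pos a hj (ha j (hS.1.1 (Finset.inter_subset_left hj)))
      rw [hUF, h3] at hsub
      omega
  by_cases hex : ∃ L, Bad a F L ∧ rk a L = 2
  · obtain ⟨L, hL, hL2⟩ := hex
    have hb1 := hL.2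
    have hLpos : 0 < L.card := by
      by_contra h
      have : L.card = 0 := by omega
      rw [this] at hb1
      omega
    obtain ⟨i₀, hi₀⟩ := Finset.card_pos.1 hLpos
    refine ⟨i₀, hL.1.1 hi₀, fun V hV => ?_⟩
    have hV2 := hV.two_le_rk ha hp
    have hV3 := hV.rk_lt
    have : rk a V = 2 ∨ (rk a V = 3 ∧ rk a F = 4) := by omega
    rcases this with h | ⟨h, h4⟩
    · exact huniq2 L V hL hV hL2 h hi₀
    · by_contra hcon
      have hlt : rk a (L ∩ V) ≤ 1 := by
        by_contra h'
        exact hcon (hL.1.subset_of_rk a hV.1 (by omega) hi₀)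
      have hc1 : (L ∩ V).card ≤ 1 :=
        card_le_one_of_rk a (Finset.inter_subset_left.trans hL.1.1) ha hp hlt
      have hc2 := Finset.card_union_add_card_inter L V
      have hc3 := Finset.card_le_card (Finset.union_subset hL.1.1 hV.1.1)
      have hb2 := hV.2
      rw [h4, hL2] at hb1
      rw [h4, h] at hb2
      rw [h4] at hcard
      omega
  · push Not at hex
    by_cases hex3 : ∃ V, Bad a F V
    · obtain ⟨V, hV⟩ := hex3
      have hV2 := hV.two_le_rk ha hp
      have hV3 := hV.rk_lt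
      have hV4 := hex V hV
      have hr4 : rk a F = 4 := by omega
      have hrV : rk a V = 3 := by omega
      have hb1 := hV.2
      rw [hr4, hrV] at hb1
      have hVpos : 0 < V.card := by omega
      obtain ⟨i₀, hi₀⟩ := Finset.card_pos.1 hVpos
      refine ⟨i₀, hV.1.1 hi₀, fun W hW => ?_⟩
      have hW2 := hW.two_le_rk ha hp
      have hW3 := hW.rk_lt
      have hW4 := hex W hW
      have hrW : rk a W = 3 := by omega
      have hb2 := hW.2
      rw [hr4, hrW] at hb2
      by_contra hcon
      have hlt : rk a (V ∩ W) ≤ 2 := by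
        by_contra h'
        exact hcon (hV.1.subset_of_rk a hW.1 (by omega) hi₀)
      have hc2 := Finset.card_union_add_card_inter V W
      have hc3 := Finset.card_le_card (Finset.union_subset hV.1.1 hW.1.1)
      have hsubF : V ∩ W ⊆ F := Finset.inter_subset_left.trans hV.1.1
      rcases Nat.lt_or_ge 1 (rk a (V ∩ W)) with h1 | h1
      · obtain ⟨T, hT, hST, hspan⟩ := exists_flat a hsubF
        have hrk : rk a T = rk a (V ∩ W) := by unfold rk; rw [hspan]
        refine hex T ⟨hT, ?_⟩ (by omega)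
        have hc4 := Finset.card_le_card hST
        rw [hr4, hrk]
        have : rk a (V ∩ W) = 2 := by omega
        rw [this]
        omega
      · have hc1 : (V ∩ W).card ≤ 1 := card_le_one_of_rk a hsubF ha hp h1
        rw [hr4] at hcard
        omega
    · push Not at hex3
      obtain ⟨i₀, hi₀⟩ := hF.1
      exact ⟨i₀, hi₀, fun S hS => absurd hS (hex3 S)⟩

theorem exists_good_of_rk_le_two {n : ℕ} {ι : Type} [DecidableEq ι] (a : ι → Fin n → ℝ)
    (F : Finset ι) (hF : F.Nonempty) (ha : ∀ j ∈ F, a j ≠ 0)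
    (hp : ∀ j ∈ F, ∀ k ∈ F, j ≠ k → ¬ ∃ t : ℝ, a k = t • a j) (m : ι → ℕ) (hr : rk a F ≤ 2) :
    ∃ i₀ ∈ F, ∀ S ⊆ F, a i₀ ∉ Submodule.span ℝ (a '' (S : Set ι)) →
      (∑ j ∈ S, m j) * rk a F ≤ (∑ j ∈ F, m j) * rk a S := by
  obtain ⟨i₀, hi₀, hmax⟩ := Finset.exists_max_image F m hF
  refine ⟨i₀, hi₀, fun S hS hS2 => ?_⟩
  have hlt : rk a S < rk a F := by
    by_contra hcon
    push Not at hcon
    apply hS2
    rw [span_eq_of_rk a hS hcon]
    exact Submodule.subset_span ⟨i₀, by exact_mod_cast hi₀, rfl⟩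
  have hc : S.card ≤ 1 := card_le_one_of_rk a hS ha hp (by omega)
  rcases S.eq_empty_or_nonempty with h | ⟨j, hj⟩
  · rw [h]; simp
  have h : S = {j} := (Finset.card_le_one_iff_subsingleton_coe.1 hc |> fun hs => by
    ext x
    rw [Finset.mem_singleton]
    exact ⟨fun hx => congrArg Subtype.val (hs.elim ⟨x, hx⟩ ⟨j, hj⟩), fun hx => hx ▸ hj⟩)
  rw [h, Finset.sum_singleton]
  have hjF : j ∈ F := hS hj
  have hne : j ≠ i₀ := by
    rintro rfl
    exact hS2 (Submodule.subset_span ⟨j, by exact_mod_cast hj, rfl⟩)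
  have h1 : rk a {j} = 1 := by
    unfold rk
    rw [Finset.coe_singleton, Set.image_singleton, finrank_span_singleton (ha j hjF)]
  rw [h1, mul_one]
  have h2 : m j + m i₀ ≤ ∑ j ∈ F, m j := by
    rw [← Finset.sum_pair hne]
    exact Finset.sum_le_sum_of_subset (by
      intro x hx
      rw [Finset.mem_insert, Finset.mem_singleton] at hx
      rcases hx with rfl | rfl <;> assumption)
  have h3 := hmax j hjF
  calc m j * rk a F ≤ m j * 2 := Nat.mul_le_mul_left _ hr
    _ ≤ ∑ j ∈ F, m j := by omega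


end MPb07157
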