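import Mathlib
import Pool.Agent.Lib.MP_b07157_ag.Defs
import Pool.Agent.Lib.MP_b07157_ag.Adapted

noncomputable section

namespace MPb07157

open MeasureTheory

/-- There is a linear map which halves all the forms `v_j`, `j ∈ F`, whose determinant is
`2^{-rk}`, and which does not increase the absolute values of the coordinates `P x`. -/
theorem exists_contraction {n : ℕ} {ι : Type} (v : ι → Fin n → ℝ) (F : Finset ι) :
    ∃ (P T : Matrix (Fin n) (Fin n) ℝ), IsUnit P.det ∧ T.det = (1 / 2 : ℝ) ^ (rk v F) ∧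
      (∀ j ∈ F, ∀ x, v j ⬝ᵥ (T.mulVec x) = (v j ⬝ᵥ x) / 2) ∧
      (∀ x i, |(P.mulVec (T.mulVec x)) i| ≤ |(P.mulVec x) i|) := by
  classical
  obtain ⟨b, hbF, -, hsp, hb⟩ := exists_linearIndepOn_extension (K := ℝ) (v := v)
    (linearIndepOn_empty ℝ v) (Set.empty_subset (F : Set ι))
  have hbfin : b.Finite := F.finite_toSet.subset hbF
  set B : Finset ι := hbfin.toFinset with hBdef
  have hBb : (B : Set ι) = b := by simp [hBdef]
  rw [← hBb] at hsp hb hbF
  obtain ⟨P, e, hP, he, hPe⟩ := exists_adapted v B hb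
  set D : Matrix (Fin n) (Fin n) ℝ :=
    Matrix.diagonal (fun i => if i ∈ Finset.univ.image e then (1 / 2 : ℝ) else 1) with hD
  have hrk : rk v F = B.card := by
    have h1 : Submodule.span ℝ (v '' (F : Set ι)) = Submodule.span ℝ (v '' (B : Set ι)) := by
      apply le_antisymm
      · exact Submodule.span_le.2 hsp
      · exact Submodule.span_mono (Set.image_mono hbF)
    have h2 : (v '' (B : Set ι)) = Set.range (fun j : B => v j) := by
      ext x; simp
    unfold rk
    rw [h1, h2, finrank_span_eq_card (R := ℝ) (b := fun j : B => v j) hb]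
    simp
  have hPinv : P * P⁻¹ = 1 := Matrix.mul_nonsing_inv P hP
  have hPT : ∀ x, P.mulVec ((P⁻¹ * D * P).mulVec x) = D.mulVec (P.mulVec x) := by
    intro x
    rw [Matrix.mulVec_mulVec, Matrix.mulVec_mulVec, ← Matrix.mul_assoc, ← Matrix.mul_assoc, hPinv,
      Matrix.one_mul]
  refine ⟨P, P⁻¹ * D * P, hP, ?_, ?_, ?_⟩
  · rw [Matrix.det_mul, Matrix.det_mul, hrk]
    have h3 : P⁻¹.det * P.det = 1 := by
      rw [← Matrix.det_mul, Matrix.nonsing_inv_mul P hP, Matrix.det_one]
    have h4 : D.det = (1 / 2 : ℝ) ^ B.card := by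
      rw [hD, Matrix.det_diagonal, Finset.prod_ite, Finset.prod_const, Finset.prod_const_one,
        mul_one]
      congr 1
      rw [Finset.filter_mem_eq_inter, Finset.univ_inter, Finset.card_image_of_injective _ he]
      simp
    calc P⁻¹.det * D.det * P.det = (P⁻¹.det * P.det) * D.det := by ring
      _ = (1 / 2 : ℝ) ^ B.card := by rw [h3, one_mul, h4]
  · intro j hj x
    have key : ∀ w ∈ Submodule.span ℝ (v '' (B : Set ι)),
        w ⬝ᵥ ((P⁻¹ * D * P).mulVec x) = (w ⬝ᵥ x) / 2 := by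
      intro w hw
      induction hw using Submodule.span_induction with
      | mem w hw =>
        obtain ⟨k, hk, rfl⟩ := hw
        have hk' : k ∈ B := by simpa using hk
        have h5 : ∀ z, v k ⬝ᵥ z = (P.mulVec z) (e ⟨k, hk'⟩) := by
          intro z
          rw [← hPe ⟨k, hk'⟩]
          rfl
        rw [h5, hPT, h5 x, hD, Matrix.mulVec_diagonal]
        simp
        ring
      | zero => simp
      | add a c _ _ ha hc => rw [add_dotProduct, add_dotProduct, ha, hc]; ring
      | smul t a _ ha => rw [smul_dotProduct, smul_dotProduct, ha]; simp; ring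
    exact key _ (hsp ⟨j, hj, rfl⟩)
  · intro x i
    rw [hPT, hD, Matrix.mulVec_diagonal, abs_mul]
    split_ifs
    · rw [abs_of_pos (by norm_num : (0 : ℝ) < 1 / 2)]
      nlinarith [abs_nonneg ((P.mulVec x) i)]
    · simp

/-- The chamber integral diverges at `-r/m`. -/
theorem lintegral_chamber_eq_top {n : ℕ} {ι : Type} [DecidableEq ι] (v : ι → Fin n → ℝ)
    (F : Finset ι) (hF : F.Nonempty) (hv : ∀ j ∈ F, v j ≠ 0) (m : ι → ℕ) (hm : ∀ j ∈ F, 0 < m j)
    (y : Fin n → ℝ) (hy : ∀ j ∈ F, 0 < v j ⬝ᵥ y) (R : ℝ) (hR : 0 < R) :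
    ∫⁻ x in {x : Fin n → ℝ | (∀ j ∈ F, 0 < v j ⬝ᵥ x) ∧ ∀ i, |x i| < R},
      ENNReal.ofReal ((∏ j ∈ F, (v j ⬝ᵥ x) ^ (m j)) ^
        (-((rk v F : ℝ) / ((∑ j ∈ F, m j : ℕ) : ℝ)))) = ⊤ := by
  classical
  obtain ⟨P, T, hP, hT, hvT, hPT⟩ := exists_contraction v F
  set r : ℕ := rk v F with hr
  set M : ℕ := ∑ j ∈ F, m j with hM
  have hMpos : 0 < M := by
    obtain ⟨j, hj⟩ := hF
    exact lt_of_lt_of_le (hm j hj) (Finset.single_le_sum (f := m) (fun _ _ => Nat.zero_le _) hj)
  have hrpos : 0 < r := by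
    obtain ⟨j, hj⟩ := hF
    rw [hr]
    unfold rk
    have : Nontrivial (Submodule.span ℝ (v '' (F : Set ι))) := by
      refine ⟨⟨⟨v j, Submodule.subset_span ⟨j, hj, rfl⟩⟩, 0, ?_⟩⟩
      intro h
      exact hv j hj (by simpa using congrArg Subtype.val h)
    exact Module.finrank_pos
  set f : (Fin n → ℝ) → ENNReal := fun x => ENNReal.ofReal ((∏ j ∈ F, (v j ⬝ᵥ x) ^ (m j)) ^
        (-((r : ℝ) / (M : ℝ)))) with hf
  -- a bound for the inverse of `P`
  have hPinv : P⁻¹ * P = 1 := Matrix.nonsing_inv_mul P hP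
  set K : ℝ := 1 + ∑ i, ∑ k, |P⁻¹ i k| with hK
  have hKpos : 0 < K := by
    have : 0 ≤ ∑ i, ∑ k, |P⁻¹ i k| :=
      Finset.sum_nonneg fun i _ => Finset.sum_nonneg fun k _ => abs_nonneg _
    linarith
  set ρ : ℝ := R / K with hρ
  have hρpos : 0 < ρ := div_pos hR hKpos
  have hbound : ∀ x : Fin n → ℝ, (∀ i, |(P.mulVec x) i| < ρ) → ∀ i, |x i| < R := by
    intro x hx i
    have h1 : x = P⁻¹.mulVec (P.mulVec x) := by
      rw [Matrix.mulVec_mulVec, hPinv, Matrix.one_mulVec]
    have h2 : |x i| ≤ ∑ k, |P⁻¹ i k| * ρ := by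
      conv_lhs => rw [h1]
      unfold Matrix.mulVec
      refine (Finset.abs_sum_le_sum_abs _ _).trans ?_
      refine Finset.sum_le_sum fun k _ => ?_
      rw [abs_mul]
      exact mul_le_mul_of_nonneg_left (hx k).le (abs_nonneg _)
    rw [← Finset.sum_mul] at h2
    have h3 : ∑ k, |P⁻¹ i k| ≤ ∑ i, ∑ k, |P⁻¹ i k| :=
      Finset.single_le_sum (f := fun i => ∑ k, |P⁻¹ i k|)
        (fun i _ => Finset.sum_nonneg fun k _ => abs_nonneg _) (Finset.mem_univ i)
    have h4 : (∑ k, |P⁻¹ i k|) < K := by rw [hK]; linarith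
    calc |x i| ≤ (∑ k, |P⁻¹ i k|) * ρ := h2
      _ < K * ρ := mul_lt_mul_of_pos_right h4 hρpos
      _ = R := by rw [hρ]; field_simp
  -- the invariant region
  set S : Set (Fin n → ℝ) := {x | (∀ j ∈ F, 0 < v j ⬝ᵥ x) ∧ ∀ i, |(P.mulVec x) i| < ρ} with hS
  have hcontdot : ∀ w : Fin n → ℝ, Continuous fun x : Fin n → ℝ => w ⬝ᵥ x := by
    intro w
    unfold dotProduct
    fun_prop
  have hSopen : IsOpen S := by
    have h1 : S = (⋂ j ∈ F, {x | 0 < v j ⬝ᵥ x}) ∩ (⋂ i, {x | |(P.mulVec x) i| < ρ}) := by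
      ext x; simp [hS]
    rw [h1]
    refine IsOpen.inter ?_ ?_
    · exact isOpen_biInter_finset fun j _ => isOpen_lt continuous_const (hcontdot _)
    · refine isOpen_iInter_of_finite fun i => isOpen_lt ?_ continuous_const
      exact (hcontdot (P i)).abs
  have hSmeas : MeasurableSet S := hSopen.measurableSet
  have hSne : S.Nonempty := by
    set A : ℝ := 1 + ∑ i, |(P.mulVec y) i| with hA
    have hApos : 0 < A := by
      have : 0 ≤ ∑ i, |(P.mulVec y) i| := Finset.sum_nonneg fun i _ => abs_nonneg _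
      linarith
    refine ⟨(ρ / A) • y, ?_, ?_⟩
    · intro j hj
      rw [dotProduct_smul, smul_eq_mul]
      exact mul_pos (div_pos hρpos hApos) (hy j hj)
    · intro i
      rw [Matrix.mulVec_smul, Pi.smul_apply, smul_eq_mul, abs_mul,
        abs_of_pos (div_pos hρpos hApos)]
      have h5 : |(P.mulVec y) i| < A := by
        have := Finset.single_le_sum (f := fun i => |(P.mulVec y) i|)
          (fun i _ => abs_nonneg _) (Finset.mem_univ i)
        rw [hA]; linarith
      calc ρ / A * |(P.mulVec y) i| < ρ / A * A :=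
            mul_lt_mul_of_pos_left h5 (div_pos hρpos hApos)
        _ = ρ := by field_simp
  have hSpos : volume S ≠ 0 := (hSopen.measure_pos volume hSne).ne'
  have hSfin : volume S ≠ ⊤ := by
    have hsub : S ⊆ Metric.ball (0 : Fin n → ℝ) (R + 1) := by
      intro x hx
      rw [mem_ball_zero_iff]
      refine lt_of_le_of_lt ?_ (lt_add_one R)
      refine (pi_norm_le_iff_of_nonneg hR.le).2 fun i => ?_
      exact (hbound x hx.2 i).le
    exact ((measure_mono hsub).trans_lt measure_ball_lt_top).ne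
  have hsub : S ⊆ {x : Fin n → ℝ | (∀ j ∈ F, 0 < v j ⬝ᵥ x) ∧ ∀ i, |x i| < R} :=
    fun x hx => ⟨hx.1, hbound x hx.2⟩
  -- the contraction
  set L : (Fin n → ℝ) →ₗ[ℝ] (Fin n → ℝ) := Matrix.toLin' T with hL
  have hLapp : ∀ x, L x = T.mulVec x := fun x => Matrix.toLin'_apply T x
  have hLdet : LinearMap.det L = (1 / 2 : ℝ) ^ r := by rw [hL, LinearMap.det_toLin', hT]
  have hLdet0 : LinearMap.det L ≠ 0 := by rw [hLdet]; positivity
  have hLinj : Function.Injective L := by
    exact (LinearMap.equivOfDetNeZero L hLdet0).injective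
  have hLS : L '' S ⊆ S := by
    rintro _ ⟨x, hx, rfl⟩
    refine ⟨fun j hj => ?_, fun i => ?_⟩
    · rw [hLapp, hvT j hj]; linarith [hx.1 j hj]
    · rw [hLapp]; exact lt_of_le_of_lt (hPT x i) (hx.2 i)
  set Lc : (Fin n → ℝ) →L[ℝ] (Fin n → ℝ) := LinearMap.toContinuousLinearMap L with hLc
  have hLcdet : Lc.det = (1 / 2 : ℝ) ^ r := by
    rw [← hLdet]; rfl
  have hfT : ∀ x ∈ S, ENNReal.ofReal |Lc.det| * f (L x) = f x := by
    intro x hx
    have hprod : (∏ j ∈ F, (v j ⬝ᵥ (L x)) ^ (m j)) =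
        (1 / 2 : ℝ) ^ M * ∏ j ∈ F, (v j ⬝ᵥ x) ^ (m j) := by
      rw [hM, ← Finset.prod_pow_eq_pow_sum, ← Finset.prod_mul_distrib]
      refine Finset.prod_congr rfl fun j hj => ?_
      rw [hLapp, hvT j hj, ← mul_pow]
      congr 1
      ring
    have hppos : 0 < ∏ j ∈ F, (v j ⬝ᵥ x) ^ (m j) :=
      Finset.prod_pos fun j hj => pow_pos (hx.1 j hj) _
    rw [hf]
    simp only
    rw [hprod, Real.mul_rpow (by positivity) hppos.le, hLcdet, abs_of_pos (by positivity),
      ← ENNReal.ofReal_mul (by positivity)]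
    congr 1
    rw [← Real.rpow_natCast (1 / 2 : ℝ) M, ← Real.rpow_natCast (1 / 2 : ℝ) r,
      ← Real.rpow_mul (by norm_num), ← mul_assoc, ← Real.rpow_add (by norm_num)]
    have hMr : (M : ℝ) ≠ 0 := by positivity
    have : (r : ℝ) + (M : ℝ) * -((r : ℝ) / (M : ℝ)) = 0 := by field_simp; ring
    rw [this, Real.rpow_zero, one_mul]
  have hIeq : ∫⁻ x in L '' S, f x = ∫⁻ x in S, f x := by
    have h1 := lintegral_image_eq_lintegral_abs_det_fderiv_mul (E := Fin n → ℝ) volume
      (s := S) (f := L) (f' := fun _ => Lc) hSmeas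
      (fun x _ => (Lc.hasFDerivAt (x := x)).hasFDerivWithinAt) hLinj.injOn f
    rw [h1]
    exact setLIntegral_congr_fun hSmeas hfT
  have hLSmeas : MeasurableSet (L '' S) := by
    have hopen : IsOpen (L '' S) := by
      have h6 : L '' S = (LinearMap.equivOfDetNeZero L hLdet0).toContinuousLinearEquiv '' S := rfl
      rw [h6]
      exact (LinearMap.equivOfDetNeZero L hLdet0).toContinuousLinearEquiv.toHomeomorph.isOpenMap
        S hSopen
    exact hopen.measurableSet
  -- the difference has positive measure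
  have hdiff : volume (S \ L '' S) ≠ 0 := by
    intro h0
    have h1 : volume (L '' S) = volume S := by
      have h2 := measure_sdiff_add_inter (μ := volume) S hLSmeas
      rw [h0, zero_add, Set.inter_eq_self_of_subset_right hLS] at h2
      exact h2
    rw [Measure.addHaar_image_linearMap, hLdet] at h1
    have h3 : ENNReal.ofReal |(1 / 2 : ℝ) ^ r| < 1 := by
      rw [abs_of_pos (by positivity)]
      rw [ENNReal.ofReal_lt_one]
      exact pow_lt_one₀ (by norm_num) (by norm_num) hrpos.ne'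
    have h4 : ENNReal.ofReal |(1 / 2 : ℝ) ^ r| * volume S < 1 * volume S :=
      (ENNReal.mul_lt_mul_iff_left hSpos hSfin).2 h3
    rw [one_mul, h1] at h4
    exact lt_irrefl _ h4
  by_contra hne
  have hIfin : ∫⁻ x in S, f x ≠ ⊤ := by
    intro h
    apply hne
    exact top_le_iff.1 (h ▸ lintegral_mono_set hsub)
  have hsplit : (∫⁻ x in S, f x) + (∫⁻ x in S \ L '' S, f x) = ∫⁻ x in S, f x := by
    have h1 := lintegral_inter_add_sdiff (μ := volume) f S hLSmeas
    rw [Set.inter_eq_self_of_subset_right hLS, hIeq] at h1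
    exact h1
  have hzero : ∫⁻ x in S \ L '' S, f x = 0 := by
    have h2 : (∫⁻ x in S, f x) + (∫⁻ x in S \ L '' S, f x) = (∫⁻ x in S, f x) + 0 := by
      rw [hsplit, add_zero]
    exact (ENNReal.add_right_inj hIfin).1 h2
  have hfmeas : Measurable f := by
    rw [hf]
    refine ENNReal.measurable_ofReal.comp ?_
    refine Measurable.pow_const ?_ _
    exact (continuous_finsetProd F fun j _ => (hcontdot (v j)).pow (m j)).measurable
  have hpos : 0 < ∫⁻ x in S \ L '' S, f x := by
    rw [setLIntegral_pos_iff hfmeas]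
    have h3 : Function.support f ∩ (S \ L '' S) = S \ L '' S := by
      refine Set.inter_eq_self_of_subset_right fun x hx => ?_
      have hppos : 0 < ∏ j ∈ F, (v j ⬝ᵥ x) ^ (m j) :=
        Finset.prod_pos fun j hj => pow_pos (hx.1.1 j hj) _
      rw [Function.mem_support, hf]
      simp only
      exact (ENNReal.ofReal_pos.2 (Real.rpow_pos_of_pos hppos _)).ne'
    rw [h3]
    exact pos_iff_ne_zero.2 hdiff
  exact hpos.ne' hzero

end MPb07157
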