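import Mathlib

/-!
# Smooth bumps and steps on the real line
-/

noncomputable section

namespace MPb07157

open MeasureTheory Filter Topology

/-- NWT-11a. Smooth bumps. -/
theorem exists_bump (c η : ℝ) (hη : 0 < η) : ∃ χ : ℝ → ℝ, (∀ i : ℕ, ContDiff ℝ i χ) ∧
    (∀ t, 0 ≤ χ t) ∧ 0 < χ c ∧ ∀ i t, η < |t - c| → iteratedDeriv i χ t = 0 := by
  let f : ContDiffBump c := ⟨η / 4, η / 2, by positivity, by linarith⟩
  refine ⟨f, fun i => f.contDiff, fun t => f.nonneg, ?_, ?_⟩
  · exact f.pos_of_mem_ball (Metric.mem_ball_self f.rOut_pos)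
  · intro i t ht
    have hloc : (f : ℝ → ℝ) =ᶠ[𝓝 t] fun _ => (0 : ℝ) := by
      have ho : IsOpen {x : ℝ | η < |x - c|} := isOpen_lt continuous_const (by fun_prop)
      filter_upwards [ho.mem_nhds ht] with x hx
      refine f.zero_of_le_dist ?_
      rw [Real.dist_eq]
      change η / 2 ≤ |x - c|
      have : η < |x - c| := hx
      linarith
    rw [hloc.iteratedDeriv_eq i]
    simp

/-- NWT-11b. Smooth steps. -/
theorem exists_step (c η : ℝ) (hη : 0 < η) : ∃ ψ : ℝ → ℝ, (∀ i : ℕ, ContDiff ℝ i ψ) ∧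
    (∀ t, 0 ≤ ψ t) ∧ (∀ t, 0 ≤ deriv ψ t) ∧ 0 < deriv ψ c ∧ (∀ t, c + η < t → 0 < ψ t) ∧
    (∀ i t, t < c - η → iteratedDeriv i ψ t = 0) ∧
    ∀ i t, 1 ≤ i → η < |t - c| → iteratedDeriv i ψ t = 0 := by
  obtain ⟨χ, h1, h2, h3, h4⟩ := exists_bump c (η / 2) (by positivity)
  have hcont : Continuous χ := (h1 0).continuous
  have hz : ∀ t, η / 2 < |t - c| → χ t = 0 := by
    intro t ht
    simpa using h4 0 t ht
  set ψ : ℝ → ℝ := fun t => ∫ x in (c - η)..t, χ x with hψ
  have hder : ∀ t, HasDerivAt ψ (χ t) t := fun t =>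
    intervalIntegral.integral_hasDerivAt_right (hcont.intervalIntegrable _ _)
      hcont.stronglyMeasurable.stronglyMeasurableAtFilter hcont.continuousAt
  have hd : deriv ψ = χ := funext fun t => (hder t).deriv
  have hdiff : Differentiable ℝ ψ := fun t => (hder t).differentiableAt
  have hzero : ∀ t, t ≤ c - η / 2 → ψ t = 0 := by
    intro t ht
    have : ∀ x ∈ Set.uIcc (c - η) t, χ x = 0 := by
      intro x hx
      rw [Set.mem_uIcc] at hx
      have hxle : x ≤ c - η / 2 := by
        rcases hx with hx | hx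
        · linarith [hx.2]
        · linarith [hx.2]
      rcases hxle.lt_or_eq with h | h
      · refine hz x ?_
        rw [lt_abs]
        right
        linarith
      · -- boundary point by continuity
        by_contra hne
        have hpos : 0 < χ x := lt_of_le_of_ne (h2 x) (Ne.symm hne)
        have hev : ∀ᶠ y in 𝓝 x, 0 < χ y := hcont.continuousAt.eventually (lt_mem_nhds hpos)
        have hev2 : ∀ᶠ y in 𝓝[<] x, 0 < χ y := hev.filter_mono nhdsWithin_le_nhds
        have hev3 : ∀ᶠ y in 𝓝[<] x, y < x := self_mem_nhdsWithin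
        obtain ⟨y, hy1, hy2⟩ := (hev2.and hev3).exists
        rw [hz y (by rw [lt_abs]; right; linarith)] at hy1
        exact lt_irrefl _ hy1
    change ∫ x in (c - η)..t, χ x = 0
    rw [intervalIntegral.integral_congr (g := fun _ => (0 : ℝ)) this]
    simp
  have hnn : ∀ t, 0 ≤ ψ t := by
    intro t
    rcases le_total t (c - η / 2) with h | h
    · rw [hzero t h]
    · exact intervalIntegral.integral_nonneg (by linarith) fun x _ => h2 x
  have hCD : ∀ i : ℕ, ContDiff ℝ i ψ := by
    intro i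
    have : ContDiff ℝ ((i : ℕ∞) + 1 : ℕ∞) ψ := by
      have hh : ContDiff ℝ ((i : WithTop ℕ∞) + 1) ψ := by
        rw [contDiff_succ_iff_deriv]
        refine ⟨hdiff, ?_, ?_⟩
        · intro h
          exact absurd h (by simp)
        · rw [hd]
          exact h1 i
      exact hh
    exact this.of_le (by exact_mod_cast le_self_add)
  refine ⟨ψ, hCD, hnn, ?_, ?_, ?_, ?_, ?_⟩
  · intro t
    rw [hd]
    exact h2 t
  · rw [hd]
    exact h3
  · intro t ht
    refine intervalIntegral.integral_pos (by linarith) hcont.continuousOn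
      (fun x _ => h2 x) ⟨c, ⟨by linarith, by linarith⟩, h3⟩
  · intro i t ht
    have hloc : ψ =ᶠ[𝓝 t] fun _ => (0 : ℝ) := by
      filter_upwards [gt_mem_nhds ht] with x hx
      exact hzero x (by linarith)
    rw [hloc.iteratedDeriv_eq i]
    simp
  · intro i t hi ht
    obtain ⟨j, rfl⟩ : ∃ j, i = j + 1 := ⟨i - 1, by omega⟩
    rw [iteratedDeriv_succ', hd]
    exact h4 j t (by linarith)

end MPb07157
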