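import Mathlib
import Pool.Agent.Lib.MP_b07157_ag.NewtInt11

section

/-!
# Integration functionals on polynomials: definitions
-/

noncomputable section

namespace MPb07157

open MvPolynomial Finset MeasureTheory

/-- The product of the iterated derivatives of the `ψ v` at the values of the linear forms `u v`. -/
def Fint {A : Type} [Fintype A] {m : ℕ} (ψ : A → ℝ → ℝ) (u : A → Fin m → ℝ) (k : A →₀ ℕ)
    (y : Fin m → ℝ) : ℝ :=
  ∏ v, iteratedDeriv (k v) (ψ v) (∑ j, u v j * y j)

/-- The integral of `Fint` over the cube `[0, T]^m`. -/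
def Iint {A : Type} [Fintype A] {m : ℕ} (T : ℝ) (ψ : A → ℝ → ℝ) (u : A → Fin m → ℝ)
    (k : A →₀ ℕ) : ℝ :=
  ∫ y in Set.Icc (0 : Fin m → ℝ) (fun _ => T), Fint ψ u k y

/-- The linear functional on polynomials with values `Iint k` on monomials. -/
def Lam {A : Type} [Fintype A] {m : ℕ} (T : ℝ) (ψ : A → ℝ → ℝ) (u : A → Fin m → ℝ)
    (g : MvPolynomial A ℝ) : ℝ :=
  ∑ k ∈ g.support, coeff k g * Iint T ψ u k


end MPb07157
end
end

section

/-!
# Integration functionals on polynomials: integration by parts (NWT-10)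
-/

noncomputable section

set_option linter.unusedSectionVars false

namespace MPb07157

open MvPolynomial Finset MeasureTheory

namespace NWT10

/-- The linear map on polynomials with prescribed values on monomials. -/
def LI {A : Type} (I : (A →₀ ℕ) → ℝ) : MvPolynomial A ℝ →ₗ[ℝ] ℝ :=
  (basisMonomials A ℝ).constr ℝ I

theorem LI_monomial {A : Type} (I : (A →₀ ℕ) → ℝ) (k : A →₀ ℕ) (a : ℝ) :
    LI I (monomial k a) = a * I k := by
  have h : LI I (monomial k (1 : ℝ)) = I k := by
    have := (basisMonomials A ℝ).constr_basis ℝ I k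
    rwa [coe_basisMonomials] at this
  have h2 : (monomial k a : MvPolynomial A ℝ) = a • monomial k (1 : ℝ) := by
    rw [smul_monomial, smul_eq_mul, mul_one]
  rw [h2, map_smul, h, smul_eq_mul]

theorem LI_apply {A : Type} (I : (A →₀ ℕ) → ℝ) (g : MvPolynomial A ℝ) :
    LI I g = ∑ k ∈ g.support, coeff k g * I k := by
  conv_lhs => rw [g.as_sum]
  rw [map_sum]
  exact Finset.sum_congr rfl fun k _ => LI_monomial I k _

theorem Lam_eq_LI {A : Type} [Fintype A] {m : ℕ} (T : ℝ) (ψ : A → ℝ → ℝ)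
    (u : A → Fin m → ℝ) (g : MvPolynomial A ℝ) : Lam T ψ u g = LI (Iint T ψ u) g := by
  rw [LI_apply]; rfl

/-- Multiplication by a linear form. -/
theorem LI_mul_lin {A : Type} [Fintype A] (I : (A →₀ ℕ) → ℝ) (c : A → ℝ)
    (g : MvPolynomial A ℝ) :
    LI I (g * ∑ v, C (c v) * X v) =
      LI (fun k => ∑ v, c v * I (k + Finsupp.single v 1)) g := by
  induction g using MvPolynomial.induction_on' with
  | monomial k a =>
    rw [LI_monomial, Finset.mul_sum, map_sum, Finset.mul_sum]
    refine Finset.sum_congr rfl fun v _ => ?_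
    have : (monomial k a : MvPolynomial A ℝ) * (C (c v) * X v) =
        monomial (k + Finsupp.single v 1) (a * c v) := by
      rw [C_mul_X_eq_monomial, monomial_mul]
    rw [this, LI_monomial]
    ring
  | add p q hp hq =>
    rw [add_mul, map_add, map_add, hp, hq]

section Calc

variable {A : Type} [Fintype A] {m : ℕ} (ψ : A → ℝ → ℝ) (hψ : ∀ v, ∀ i : ℕ, ContDiff ℝ i (ψ v))
  (u : A → Fin m → ℝ)

include hψ

theorem hasDerivAt_it (v : A) (n : ℕ) (t : ℝ) :
    HasDerivAt (iteratedDeriv n (ψ v)) (iteratedDeriv (n + 1) (ψ v) t) t := by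
  have h1 : Differentiable ℝ (iteratedDeriv n (ψ v)) :=
    (hψ v (n + 1)).differentiable_iteratedDeriv n (by exact_mod_cast Nat.lt_succ_self n)
  rw [iteratedDeriv_succ]
  exact (h1 t).hasDerivAt

theorem cont_it (v : A) (n : ℕ) : Continuous (iteratedDeriv n (ψ v)) :=
  (hψ v n).continuous_iteratedDeriv n le_rfl

theorem cont_Fint (k : A →₀ ℕ) : Continuous (Fint ψ u k) := by
  unfold Fint
  refine continuous_finsetProd _ fun v _ => ?_
  exact (cont_it ψ hψ v (k v)).comp (continuous_finsetSum _ fun j _ =>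
    continuous_const.mul (continuous_apply j))

/-- The linear form `y ↦ ∑ j, u v j * y j`. -/
theorem hasFDerivAt_lin (v : A) (y : Fin m → ℝ) :
    HasFDerivAt (fun y : Fin m → ℝ => ∑ j, u v j * y j)
      (∑ j, u v j • (ContinuousLinearMap.proj j : (Fin m → ℝ) →L[ℝ] ℝ)) y := by
  have := HasFDerivAt.fun_sum (u := Finset.univ) (A := fun (j : Fin m) (y : Fin m → ℝ) =>
    u v j * y j) (A' := fun j => u v j • (ContinuousLinearMap.proj j : (Fin m → ℝ) →L[ℝ] ℝ))
    (x := y) (fun j _ => ((hasFDerivAt_apply j y).const_mul (u v j)))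
  exact this

theorem exists_fderiv (k : A →₀ ℕ) (y : Fin m → ℝ) :
    ∃ F' : (Fin m → ℝ) →L[ℝ] ℝ, HasFDerivAt (Fint ψ u k) F' y ∧
      ∀ i, F' (Pi.single i 1) = ∑ v, u v i * Fint ψ u (k + Finsupp.single v 1) y := by
  classical
  have h := HasFDerivAt.finsetProd (u := (Finset.univ : Finset A))
    (g := fun v (y : Fin m → ℝ) => iteratedDeriv (k v) (ψ v) (∑ j, u v j * y j))
    (g' := fun v => iteratedDeriv (k v + 1) (ψ v) (∑ j, u v j * y j) •
      (∑ j, u v j • (ContinuousLinearMap.proj j : (Fin m → ℝ) →L[ℝ] ℝ))) (x := y)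
    (fun v _ => (hasDerivAt_it ψ hψ v (k v) _).comp_hasFDerivAt y (hasFDerivAt_lin ψ hψ u v y))
  refine ⟨_, h, fun i => ?_⟩
  simp only [_root_.sum_apply, smul_apply,
    ContinuousLinearMap.proj_apply, smul_eq_mul]
  refine Finset.sum_congr rfl fun v _ => ?_
  have h1 : ∑ j, u v j * (Pi.single i (1 : ℝ) : Fin m → ℝ) j = u v i := by
    rw [Finset.sum_eq_single i]
    · simp
    · intro j _ hj
      simp [hj]
    · simp
  have h2 : Fint ψ u (k + Finsupp.single v 1) y =
      (∏ w ∈ Finset.univ.erase v, iteratedDeriv (k w) (ψ w) (∑ j, u w j * y j)) *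
        iteratedDeriv (k v + 1) (ψ v) (∑ j, u v j * y j) := by
    unfold Fint
    rw [← Finset.prod_erase_mul _ _ (Finset.mem_univ v)]
    congr 1
    · refine Finset.prod_congr rfl fun w hw => ?_
      have hw' : w ≠ v := (Finset.mem_erase.1 hw).1
      simp [hw'.symm]
    · simp
  rw [h1, h2]
  ring

end Calc

/-- Integration by parts. -/
theorem parts {A : Type} [Fintype A] {m : ℕ} (T : ℝ) (hT : 0 < T) (ψ : A → ℝ → ℝ)
    (hψ : ∀ v, ∀ i : ℕ, ContDiff ℝ i (ψ v)) (u : A → Fin (m + 1) → ℝ)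
    (hedge : ∀ y : Fin (m + 1) → ℝ, (∀ j, 0 ≤ y j) → (∀ j, y j ≤ T) → (∃ j, y j = T) →
      ∀ k, Fint ψ u k y = 0) (i : Fin (m + 1)) (k : A →₀ ℕ) :
    ∑ v, u v i * Iint T ψ u (k + Finsupp.single v 1) =
      - Iint T ψ (fun v => u v ∘ i.succAbove) k := by
  classical
  choose F' hF' hF'e using exists_fderiv ψ hψ u k
  have hle : (0 : Fin (m + 1) → ℝ) ≤ (fun _ => T) := fun _ => hT.le
  have hcont : ∀ k, Continuous (Fint ψ u k) := cont_Fint ψ hψ u
  have hdiv := integral_divergence_of_hasFDerivAt_off_countable'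
    (0 : Fin (m + 1) → ℝ) (fun _ => T) hle
    (fun j y => if j = i then Fint ψ u k y else 0)
    (fun j y => if j = i then F' y else 0) ∅ Set.countable_empty
    (by
      intro j
      by_cases hj : j = i
      · simp only [hj, if_true]; exact (hcont k).continuousOn
      · simp only [hj, if_false]; exact continuousOn_const)
    (by
      intro y _ j
      by_cases hj : j = i
      · simp only [hj, if_true]; exact hF' y
      · simp only [hj, if_false]; exact hasFDerivAt_const _ _)
    (by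
      have : (fun y => ∑ j, (if j = i then F' y else 0) (Pi.single j (1 : ℝ))) =
          fun y => ∑ v, u v i * Fint ψ u (k + Finsupp.single v 1) y := by
        funext y
        rw [Finset.sum_eq_single i]
        · simp [hF'e]
        · intro j _ hj; simp [hj]
        · simp
      rw [this]
      exact (continuous_finsetSum _ fun v _ => continuous_const.mul
        (hcont _)).continuousOn.integrableOn_Icc)
  have hL : (fun y => ∑ j, (if j = i then F' y else 0) (Pi.single j (1 : ℝ))) =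
      fun y => ∑ v, u v i * Fint ψ u (k + Finsupp.single v 1) y := by
    funext y
    rw [Finset.sum_eq_single i]
    · simp [hF'e]
    · intro j _ hj; simp [hj]
    · simp
  rw [hL] at hdiv
  have hint : ∀ v ∈ (Finset.univ : Finset A), Integrable (fun y => u v i *
      Fint ψ u (k + Finsupp.single v 1) y)
      (volume.restrict (Set.Icc (0 : Fin (m + 1) → ℝ) (fun _ => T))) := fun v _ =>
    (continuous_const.mul (hcont _)).continuousOn.integrableOn_Icc
  rw [integral_finsetSum _ hint] at hdiv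
  simp only [integral_const_mul] at hdiv
  unfold Iint
  rw [hdiv, Finset.sum_eq_single i]
  · simp only [if_true]
    have h1 : (∫ x in Set.Icc ((0 : Fin (m + 1) → ℝ) ∘ i.succAbove)
        ((fun _ => T) ∘ i.succAbove), Fint ψ u k (i.insertNth T x)) = 0 := by
      rw [setIntegral_congr_fun (g := fun _ => (0 : ℝ)) measurableSet_Icc]
      · simp
      · intro x hx
        refine hedge _ ?_ ?_ ⟨i, by simp⟩ k
        · intro j
          rcases Fin.eq_self_or_eq_succAbove i j with rfl | ⟨l, rfl⟩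
          · simp [hT.le]
          · simpa using hx.1 l
        · intro j
          rcases Fin.eq_self_or_eq_succAbove i j with rfl | ⟨l, rfl⟩
          · simp
          · simpa using hx.2 l
    rw [h1, zero_sub]
    congr 1
    have h2 : ∀ x : Fin m → ℝ, Fint ψ u k (i.insertNth ((0 : Fin (m + 1) → ℝ) i) x) =
        Fint ψ (fun v => u v ∘ i.succAbove) k x := by
      intro x
      unfold Fint
      refine Finset.prod_congr rfl fun v _ => ?_
      congr 1
      rw [Fin.sum_univ_succAbove _ i]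
      simp
    simp only [h2]
    rfl
  · intro j _ hj
    simp [hj]
  · simp

end NWT10

open NWT10

/-- NWT-10. The functional kills the products of `g` with the linear forms `∑_v u v j X_v`,
`j ∈ P`, if the integrands of the monomials of `g` vanish on the face `y_P = 0`. -/
theorem Lam_vanish {A : Type} [Fintype A] {m : ℕ} (T : ℝ) (hT : 0 < T) (ψ : A → ℝ → ℝ)
    (hψ : ∀ v, ∀ i : ℕ, ContDiff ℝ i (ψ v)) (u : A → Fin m → ℝ)
    (hedge : ∀ y : Fin m → ℝ, (∀ j, 0 ≤ y j) → (∀ j, y j ≤ T) → (∃ j, y j = T) →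
      ∀ k, Fint ψ u k y = 0)
    (P : Finset (Fin m)) (g : MvPolynomial A ℝ)
    (hP : ∀ y : Fin m → ℝ, (∀ j, 0 ≤ y j) → (∀ j, y j ≤ T) → (∀ j ∈ P, y j = 0) →
      ∀ k ∈ g.support, Fint ψ u k y = 0) :
    Lam T ψ u (g * ∏ j ∈ P, ∑ v, C (u v j) * X v) = 0 := by
  classical
  induction m with
  | zero =>
    have hPe : P = ∅ := by
      ext j; exact j.elim0
    subst hPe
    rw [Finset.prod_empty, mul_one]
    unfold Lam
    refine Finset.sum_eq_zero fun k hk => ?_
    have : Iint T ψ u k = 0 := by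
      unfold Iint
      rw [setIntegral_congr_fun (g := fun _ => (0 : ℝ)) measurableSet_Icc]
      · simp
      · intro y hy
        exact hP y (fun j => j.elim0) (fun j => j.elim0) (fun j => j.elim0) k hk
    rw [this, mul_zero]
  | succ m ih =>
    rcases P.eq_empty_or_nonempty with hPe | ⟨i, hi⟩
    · subst hPe
      rw [Finset.prod_empty, mul_one]
      unfold Lam
      refine Finset.sum_eq_zero fun k hk => ?_
      have : Iint T ψ u k = 0 := by
        unfold Iint
        rw [setIntegral_congr_fun (g := fun _ => (0 : ℝ)) measurableSet_Icc]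
        · simp
        · intro y hy
          exact hP y hy.1 hy.2 (by simp) k hk
      rw [this, mul_zero]
    · set Q : Finset (Fin m) := Finset.univ.filter fun l => i.succAbove l ∈ P with hQ
      have hPQ : P.erase i = Q.image i.succAbove := by
        ext j
        simp only [Finset.mem_erase, Finset.mem_image, hQ, Finset.mem_filter, Finset.mem_univ,
          true_and]
        constructor
        · rintro ⟨h1, h2⟩
          rcases Fin.eq_self_or_eq_succAbove i j with rfl | ⟨l, rfl⟩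
          · exact absurd rfl h1
          · exact ⟨l, h2, rfl⟩
        · rintro ⟨l, h1, rfl⟩
          exact ⟨Fin.succAbove_ne i l, h1⟩
      have hprod : ∏ j ∈ P, ∑ v, (C (u v j) * X v : MvPolynomial A ℝ) =
          (∏ l ∈ Q, ∑ v, C ((u v ∘ i.succAbove) l) * X v) * ∑ v, C (u v i) * X v := by
        rw [← Finset.prod_erase_mul _ _ hi, hPQ, Finset.prod_image]
        · rfl
        · intro a _ b _ hab
          exact Fin.succAbove_right_injective hab
      have hins : ∀ (z : Fin m → ℝ) (k : A →₀ ℕ),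
          Fint ψ u k (i.insertNth (0 : ℝ) z) = Fint ψ (fun v => u v ∘ i.succAbove) k z := by
        intro z k
        unfold Fint
        refine Finset.prod_congr rfl fun v _ => ?_
        congr 1
        rw [Fin.sum_univ_succAbove _ i]
        simp
      have hI : (fun k => ∑ v, u v i * Iint T ψ u (k + Finsupp.single v 1)) =
          fun k => (-1 : ℝ) * Iint T ψ (fun v => u v ∘ i.succAbove) k := by
        funext k
        rw [parts T hT ψ hψ u hedge i k, neg_one_mul]
      have key := ih (fun v => u v ∘ i.succAbove)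
        (by
          intro z hz0 hzT hzE k
          rw [← hins]
          refine hedge _ ?_ ?_ ?_ k
          · intro j
            rcases Fin.eq_self_or_eq_succAbove i j with rfl | ⟨l, rfl⟩
            · simp
            · simpa using hz0 l
          · intro j
            rcases Fin.eq_self_or_eq_succAbove i j with rfl | ⟨l, rfl⟩
            · simp [hT.le]
            · simpa using hzT l
          · obtain ⟨l, hl⟩ := hzE
            exact ⟨i.succAbove l, by simpa using hl⟩)
        Q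
        (by
          intro z hz0 hzT hzQ k hk
          rw [← hins]
          refine hP _ ?_ ?_ ?_ k hk
          · intro j
            rcases Fin.eq_self_or_eq_succAbove i j with rfl | ⟨l, rfl⟩
            · simp
            · simpa using hz0 l
          · intro j
            rcases Fin.eq_self_or_eq_succAbove i j with rfl | ⟨l, rfl⟩
            · simp [hT.le]
            · simpa using hzT l
          · intro j hj
            rcases Fin.eq_self_or_eq_succAbove i j with rfl | ⟨l, rfl⟩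
            · simp
            · have := hzQ l (by simp [hQ, hj])
              simpa using this)
      rw [hprod, ← mul_assoc, Lam_eq_LI, LI_mul_lin, hI]
      rw [Lam_eq_LI, LI_apply] at key
      rw [LI_apply]
      have : ∀ p : MvPolynomial A ℝ, ∑ k ∈ p.support,
          coeff k p * (-1 * Iint T ψ (fun v => u v ∘ i.succAbove) k) =
          - ∑ k ∈ p.support, coeff k p * Iint T ψ (fun v => u v ∘ i.succAbove) k := by
        intro p
        rw [← Finset.sum_neg_distrib]
        exact Finset.sum_congr rfl fun k _ => by ring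
      rw [this, key, neg_zero]

end MPb07157
end
end

section

/-!
# Integration functionals on polynomials: existence of the functional
-/

noncomputable section

namespace MPb07157

open MvPolynomial Finset MeasureTheory

/-- `Lam` computed with a larger set of exponents. -/
theorem Lam_eq_sum {A : Type} [Fintype A] {m : ℕ} (T : ℝ) (ψ : A → ℝ → ℝ) (u : A → Fin m → ℝ)
    (g : MvPolynomial A ℝ) (s : Finset (A →₀ ℕ)) (hs : g.support ⊆ s) :
    Lam T ψ u g = ∑ k ∈ s, coeff k g * Iint T ψ u k := by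
  unfold Lam
  refine Finset.sum_subset hs ?_
  intro k _ hk
  rw [notMem_support_iff.mp hk, zero_mul]

theorem Lam_add' {A : Type} [Fintype A] {m : ℕ} (T : ℝ) (ψ : A → ℝ → ℝ) (u : A → Fin m → ℝ)
    (g h : MvPolynomial A ℝ) : Lam T ψ u (g + h) = Lam T ψ u g + Lam T ψ u h := by
  classical
  rw [Lam_eq_sum T ψ u g (g.support ∪ h.support) subset_union_left,
    Lam_eq_sum T ψ u h (g.support ∪ h.support) subset_union_right,
    Lam_eq_sum T ψ u (g + h) (g.support ∪ h.support) support_add, ← Finset.sum_add_distrib]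
  refine Finset.sum_congr rfl fun k _ => ?_
  rw [coeff_add, add_mul]

theorem Lam_smul' {A : Type} [Fintype A] {m : ℕ} (T : ℝ) (ψ : A → ℝ → ℝ) (u : A → Fin m → ℝ)
    (q : ℚ) (g : MvPolynomial A ℚ) :
    Lam T ψ u (map (algebraMap ℚ ℝ) (q • g)) = q • Lam T ψ u (map (algebraMap ℚ ℝ) g) := by
  classical
  have hs : (map (algebraMap ℚ ℝ) (q • g)).support ⊆ (map (algebraMap ℚ ℝ) g).support := by
    intro k hk
    rw [mem_support_iff] at hk ⊢
    intro h0
    apply hk
    rw [coeff_map] at h0 ⊢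
    rw [coeff_smul, smul_eq_mul, map_mul, h0, mul_zero]
  rw [Lam_eq_sum T ψ u _ _ hs, Lam, Finset.smul_sum]
  refine Finset.sum_congr rfl fun k _ => ?_
  rw [coeff_map, coeff_map, coeff_smul, smul_eq_mul, map_mul, mul_assoc, Rat.smul_def]
  rfl

/-- The functional as a `ℚ`-linear map. -/
def LamQ {A : Type} [Fintype A] {m : ℕ} (T : ℝ) (ψ : A → ℝ → ℝ) (u : A → Fin m → ℝ) :
    MvPolynomial A ℚ →ₗ[ℚ] ℝ where
  toFun g := Lam T ψ u (map (algebraMap ℚ ℝ) g)
  map_add' g h := by rw [map_add, Lam_add']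
  map_smul' q g := by rw [Lam_smul']; rfl

theorem continuous_Fint {A : Type} [Fintype A] {m : ℕ} (ψ : A → ℝ → ℝ)
    (hψ : ∀ v, ∀ i : ℕ, ContDiff ℝ i (ψ v)) (u : A → Fin m → ℝ) (k : A →₀ ℕ) :
    Continuous (Fint ψ u k) := by
  unfold Fint
  refine continuous_finsetProd _ fun v _ => ?_
  refine ((hψ v (k v)).continuous_iteratedDeriv (k v) le_rfl).comp ?_
  fun_prop

/-- The functional exists, index type `Fin m`. -/
theorem exists_functional_fin {A : Type} [Fintype A] [DecidableEq A] {m : ℕ}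
    (u : A → Fin m → ℕ) (ρ σ : Finset A) (hσρ : σ ⊆ ρ) (hσ : ∀ j, ∃ v ∈ σ, 0 < u v j)
    (y₀ : Fin m → ℝ) (hy₀ : ∀ j, 0 < y₀ j) (c : A → ℝ) (hc : ∀ v, c v ≤ 1) (η : ℝ) (hη : 0 < η)
    (hη1 : η ≤ 1) (hρ : ∀ v ∈ ρ, ∑ j, (u v j : ℝ) * y₀ j = c v)
    (hout : ∀ v, v ∉ ρ → c v + η < ∑ j, (u v j : ℝ) * y₀ j) :
    ∃ Λ : MvPolynomial A ℚ →ₗ[ℚ] ℝ, Λ (∏ v ∈ ρ \ σ, X v) ≠ 0 ∧
      ∀ (U : Finset A) (P : Finset (Fin m)),
        (∀ y : Fin m → ℝ, (∀ j, 0 ≤ y j) → (∀ j ∈ P, y j = 0) →
          (∀ v ∈ U ∪ σ, |∑ j, (u v j : ℝ) * y j - c v| ≤ η) →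
          ¬ ∀ v, c v - η ≤ ∑ j, (u v j : ℝ) * y j) →
        ∀ g, Λ (g * ((∏ v ∈ U, X v) * ∏ j ∈ P, ∑ v, C (u v j : ℚ) * X v)) = 0 := by
  classical
  have hb : ∀ v, ∃ χ : ℝ → ℝ, (∀ i : ℕ, ContDiff ℝ i χ) ∧
    (∀ t, 0 ≤ χ t) ∧ 0 < χ (c v) ∧ ∀ i t, η < |t - c v| → iteratedDeriv i χ t = 0 :=
    fun v => exists_bump (c v) η hη
  have hs : ∀ v, ∃ ψ : ℝ → ℝ, (∀ i : ℕ, ContDiff ℝ i ψ) ∧
    (∀ t, 0 ≤ ψ t) ∧ (∀ t, 0 ≤ deriv ψ t) ∧ 0 < deriv ψ (c v) ∧ (∀ t, c v + η < t → 0 < ψ t) ∧
    (∀ i t, t < c v - η → iteratedDeriv i ψ t = 0) ∧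
    ∀ i t, 1 ≤ i → η < |t - c v| → iteratedDeriv i ψ t = 0 :=
    fun v => exists_step (c v) η hη
  choose B hB1 hB2 hB3 hB4 using hb
  choose S hS1 hS2 hS3 hS4 hS5 hS6 hS7 using hs
  set ψ : A → ℝ → ℝ := fun v => if v ∈ σ then B v else S v with hψdef
  have hψB : ∀ v, v ∈ σ → ψ v = B v := fun v hv => by simp [hψdef, hv]
  have hψS : ∀ v, v ∉ σ → ψ v = S v := fun v hv => by simp [hψdef, hv]
  have hψ : ∀ v, ∀ i : ℕ, ContDiff ℝ i (ψ v) := by
    intro v i
    by_cases hv : v ∈ σ
    · rw [hψB v hv]; exact hB1 v i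
    · rw [hψS v hv]; exact hS1 v i
  set w : A → Fin m → ℝ := fun v j => (u v j : ℝ) with hw
  have hge : ∀ (y : Fin m → ℝ), (∀ j, 0 ≤ y j) → ∀ v j, 0 < u v j → y j ≤ ∑ i, w v i * y i := by
    intro y hy v j hj
    calc y j = 1 * y j := (one_mul _).symm
      _ ≤ w v j * y j := by
        refine mul_le_mul_of_nonneg_right ?_ (hy j)
        simp only [hw]
        exact_mod_cast hj
      _ ≤ ∑ i, w v i * y i :=
        Finset.single_le_sum (f := fun i => w v i * y i)
          (fun i _ => mul_nonneg (by simp [hw]) (hy i)) (Finset.mem_univ j)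
  have hedge : ∀ y : Fin m → ℝ, (∀ j, 0 ≤ y j) → (∀ j, y j ≤ 3) → (∃ j, y j = 3) →
      ∀ k, Fint ψ w k y = 0 := by
    rintro y hy _ ⟨j, hj⟩ k
    obtain ⟨v, hv, huv⟩ := hσ j
    refine Finset.prod_eq_zero (Finset.mem_univ v) ?_
    rw [hψB v hv]
    refine hB4 v _ _ ?_
    have h1 := hge y hy v j huv
    rw [hj] at h1
    have h2 := hc v
    rw [lt_abs]
    left
    linarith
  refine ⟨LamQ 3 ψ w, ?_, ?_⟩
  · -- nonvanishing
    set k₀ : A →₀ ℕ := ∑ v ∈ ρ \ σ, Finsupp.single v 1 with hk₀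
    have hmap : map (algebraMap ℚ ℝ) (∏ v ∈ ρ \ σ, X v : MvPolynomial A ℚ) =
        monomial k₀ (1 : ℝ) := by
      rw [map_prod, hk₀, monomial_sum_one]
      refine Finset.prod_congr rfl fun v _ => ?_
      rw [map_X]
      rfl
    have hval : LamQ 3 ψ w (∏ v ∈ ρ \ σ, X v) = Iint 3 ψ w k₀ := by
      change Lam 3 ψ w (map (algebraMap ℚ ℝ) (∏ v ∈ ρ \ σ, X v)) = _
      rw [hmap, Lam_eq_sum 3 ψ w _ {k₀} support_monomial_subset, Finset.sum_singleton,
        coeff_monomial, if_pos rfl, one_mul]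
    rw [hval]
    have hk₀v : ∀ v, k₀ v = if v ∈ ρ \ σ then 1 else 0 := by
      intro v
      rw [hk₀, Finsupp.finsetSum_apply]
      simp [Finsupp.single_apply]
    have hcont := continuous_Fint ψ hψ w k₀
    have hnn : ∀ y, 0 ≤ Fint ψ w k₀ y := by
      intro y
      refine Finset.prod_nonneg fun v _ => ?_
      rw [hk₀v]
      by_cases hv : v ∈ ρ \ σ
      · rw [if_pos hv, iteratedDeriv_one, hψS v (Finset.mem_sdiff.mp hv).2]
        exact hS3 v _
      · rw [if_neg hv, iteratedDeriv_zero]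
        by_cases hv2 : v ∈ σ
        · rw [hψB v hv2]; exact hB2 v _
        · rw [hψS v hv2]; exact hS2 v _
    have hpos : 0 < Fint ψ w k₀ y₀ := by
      refine Finset.prod_pos fun v _ => ?_
      rw [hk₀v]
      by_cases hv : v ∈ ρ \ σ
      · rw [if_pos hv, iteratedDeriv_one, hψS v (Finset.mem_sdiff.mp hv).2,
          hρ v (Finset.mem_sdiff.mp hv).1]
        exact hS4 v
      · rw [if_neg hv, iteratedDeriv_zero]
        by_cases hv2 : v ∈ σ
        · rw [hψB v hv2, hρ v (hσρ hv2)]; exact hB3 v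
        · rw [hψS v hv2]
          refine hS5 v _ (hout v ?_)
          intro h
          exact hv (Finset.mem_sdiff.mpr ⟨h, hv2⟩)
    have hy₀3 : ∀ j, y₀ j < 3 := by
      intro j
      obtain ⟨v, hv, huv⟩ := hσ j
      have h1 := hge y₀ (fun j => (hy₀ j).le) v j huv
      rw [hρ v (hσρ hv)] at h1
      have h2 := hc v
      linarith
    unfold Iint
    apply ne_of_gt
    rw [setIntegral_pos_iff_support_of_nonneg_ae (Filter.Eventually.of_forall hnn)
      (hcont.continuousOn.integrableOn_compact isCompact_Icc)]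
    set O : Set (Fin m → ℝ) := {y | 0 < Fint ψ w k₀ y} ∩ Set.univ.pi (fun _ => Set.Ioo (0 : ℝ) 3)
      with hO
    have hOo : IsOpen O :=
      (isOpen_lt continuous_const hcont).inter (isOpen_set_pi Set.finite_univ fun _ _ => isOpen_Ioo)
    have hOn : O.Nonempty := ⟨y₀, hpos, fun j _ => ⟨hy₀ j, hy₀3 j⟩⟩
    refine lt_of_lt_of_le (hOo.measure_pos volume hOn) (measure_mono ?_)
    rintro y ⟨hy1, hy2⟩
    refine ⟨ne_of_gt hy1, ?_⟩
    rw [Set.mem_Icc]
    exact ⟨fun j => (hy2 j (Set.mem_univ j)).1.le, fun j => (hy2 j (Set.mem_univ j)).2.le⟩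
  · -- vanishing
    intro U P hUP g
    change Lam 3 ψ w (map (algebraMap ℚ ℝ) _) = 0
    have hmap : map (algebraMap ℚ ℝ)
        (g * ((∏ v ∈ U, X v) * ∏ j ∈ P, ∑ v, C (u v j : ℚ) * X v)) =
        (map (algebraMap ℚ ℝ) g * ∏ v ∈ U, X v) * ∏ j ∈ P, ∑ v, C (w v j) * X v := by
      simp only [map_mul, map_prod, map_sum, map_X, hw, map_natCast, mul_assoc]
    rw [hmap]
    refine Lam_vanish 3 (by norm_num) ψ hψ w hedge P _ ?_
    intro y hy _ hyP k hk
    -- exponents in the support are positive on `U`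
    have hkU : ∀ v ∈ U, 1 ≤ k v := by
      intro v hv
      have h1 : (X v : MvPolynomial A ℝ) ∣ (map (algebraMap ℚ ℝ) g * ∏ v ∈ U, X v) :=
        Dvd.dvd.mul_left (Finset.dvd_prod_of_mem _ hv) _
      rw [X_dvd_iff_modMonomial_eq_zero] at h1
      by_contra hlt
      have h2 : k v = 0 := by omega
      have h3 : coeff k ((map (algebraMap ℚ ℝ) g * ∏ v ∈ U, X v).modMonomial
          (Finsupp.single v 1)) = coeff k (map (algebraMap ℚ ℝ) g * ∏ v ∈ U, X v) := by
        refine coeff_modMonomial_of_not_le _ ?_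
        intro hle
        have := hle v
        rw [Finsupp.single_eq_same, h2] at this
        omega
      rw [h1, coeff_zero] at h3
      exact (mem_support_iff.mp hk) h3.symm
    by_contra hne
    have hfac : ∀ v, iteratedDeriv (k v) (ψ v) (∑ j, w v j * y j) ≠ 0 := by
      intro v h0
      exact hne (Finset.prod_eq_zero (Finset.mem_univ v) h0)
    have hbσ : ∀ v ∈ σ, |∑ j, w v j * y j - c v| ≤ η := by
      intro v hv
      by_contra hlt
      refine hfac v ?_
      rw [hψB v hv]
      exact hB4 v _ _ (not_le.mp hlt)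
    refine hUP y hy hyP ?_ ?_
    · intro v hv
      by_cases hvσ : v ∈ σ
      · exact hbσ v hvσ
      · have hvU : v ∈ U := (Finset.mem_union.mp hv).resolve_right hvσ
        by_contra hlt
        refine hfac v ?_
        rw [hψS v hvσ]
        exact hS7 v _ _ (hkU v hvU) (not_le.mp hlt)
    · intro v
      by_cases hvσ : v ∈ σ
      · have := abs_le.mp (hbσ v hvσ)
        linarith [this.1]
      · by_contra hlt
        refine hfac v ?_
        rw [hψS v hvσ]
        exact hS6 v _ _ (not_le.mp hlt)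

/-- NWT-12. Existence of the functional. -/
theorem exists_functional {A ι : Type} [Fintype A] [DecidableEq A] [Fintype ι] [DecidableEq ι]
    (u : A → ι → ℕ) (ρ σ : Finset A) (hσρ : σ ⊆ ρ) (hσ : ∀ j, ∃ v ∈ σ, 0 < u v j)
    (y₀ : ι → ℝ) (hy₀ : ∀ j, 0 < y₀ j) (c : A → ℝ) (hc : ∀ v, c v ≤ 1) (η : ℝ) (hη : 0 < η)
    (hη1 : η ≤ 1) (hρ : ∀ v ∈ ρ, ∑ j, (u v j : ℝ) * y₀ j = c v)
    (hout : ∀ v, v ∉ ρ → c v + η < ∑ j, (u v j : ℝ) * y₀ j) :
    ∃ Λ : MvPolynomial A ℚ →ₗ[ℚ] ℝ, Λ (∏ v ∈ ρ \ σ, X v) ≠ 0 ∧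
      ∀ (U : Finset A) (P : Finset ι),
        (∀ y : ι → ℝ, (∀ j, 0 ≤ y j) → (∀ j ∈ P, y j = 0) →
          (∀ v ∈ U ∪ σ, |∑ j, (u v j : ℝ) * y j - c v| ≤ η) →
          ¬ ∀ v, c v - η ≤ ∑ j, (u v j : ℝ) * y j) →
        ∀ g, Λ (g * ((∏ v ∈ U, X v) * ∏ j ∈ P, ∑ v, C (u v j : ℚ) * X v)) = 0 := by
  classical
  let e : ι ≃ Fin (Fintype.card ι) := Fintype.equivFin ι
  have hsum : ∀ (v : A) (y : Fin (Fintype.card ι) → ℝ),
      ∑ j, (u v (e.symm j) : ℝ) * y j = ∑ i, (u v i : ℝ) * y (e i) := by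
    intro v y
    rw [← Equiv.sum_comp e]
    simp
  obtain ⟨Λ, h1, h2⟩ := exists_functional_fin (fun v j => u v (e.symm j)) ρ σ hσρ
    (fun j => hσ (e.symm j)) (fun j => y₀ (e.symm j)) (fun j => hy₀ (e.symm j)) c hc η hη hη1
    (by
      intro v hv
      rw [hsum v]
      simpa using hρ v hv)
    (by
      intro v hv
      rw [hsum v]
      simpa using hout v hv)
  refine ⟨Λ, h1, ?_⟩
  intro U P hUP g
  have h3 := h2 U (P.map e.toEmbedding) ?_ g
  · rw [Finset.prod_map] at h3
    simpa using h3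
  · intro y hy hyP hyU hall
    refine hUP (fun i => y (e i)) (fun i => hy (e i)) ?_ ?_ ?_
    · intro j hj
      exact hyP (e j) (by simpa using hj)
    · intro v hv
      have := hyU v hv
      rwa [hsum v] at this
    · intro v
      have := hall v
      rwa [hsum v] at this

end MPb07157
end
end
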