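import Pool.Agent.Lib.MP_b07157_ag.NewtMul
import Pool.Agent.Lib.MP_b07157_ag.NewtInt12

/-!
# Roots of Bernstein–Sato polynomials from simplices in faces of Newton polyhedra
-/

noncomputable section

namespace MPb07157

open MvPolynomial Finset

variable {n : ℕ} {f : MvPolynomial (Fin n) ℂ}

/-- Homogeneous components of multiples of a homogeneous polynomial. -/
theorem homComp_mul {σ : Type} (r q : ℕ) (g Q : MvPolynomial σ ℚ) (hQ : Q.IsHomogeneous q)
    (Λ : MvPolynomial σ ℚ →ₗ[ℚ] ℝ) (h : ∀ g', Λ (g' * Q) = 0) :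
    Λ (homogeneousComponent r (g * Q)) = 0 := by
  classical
  rw [← sum_homogeneousComponent g, Finset.sum_mul, map_sum, map_sum]
  refine Finset.sum_eq_zero fun i _ => ?_
  have h1 : (homogeneousComponent i g * Q) ∈ homogeneousSubmodule σ ℚ (i + q) :=
    (homogeneousComponent_isHomogeneous i g).mul hQ
  rw [homogeneousComponent_of_mem h1]
  split_ifs
  · exact h _
  · exact map_zero _

theorem homComp_high {σ : Type} (r q : ℕ) (hq : r < q) (g Q : MvPolynomial σ ℚ)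
    (hQ : Q.IsHomogeneous q) : homogeneousComponent r (g * Q) = 0 := by
  classical
  rw [← sum_homogeneousComponent g, Finset.sum_mul, map_sum]
  refine Finset.sum_eq_zero fun i _ => ?_
  have h1 : (homogeneousComponent i g * Q) ∈ homogeneousSubmodule σ ℚ (i + q) :=
    (homogeneousComponent_isHomogeneous i g).mul hQ
  rw [homogeneousComponent_of_mem h1, if_neg (by omega)]

theorem homComp_low {σ : Type} (r : ℕ) (g Q : MvPolynomial σ ℚ)
    (hQ : Q.IsHomogeneous r) : homogeneousComponent r (g * Q) = C (coeff 0 g) * Q := by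
  classical
  conv_lhs => rw [← sum_homogeneousComponent g]
  rw [Finset.sum_mul, map_sum, Finset.sum_eq_single 0]
  · have h1 : (homogeneousComponent 0 g * Q) ∈ homogeneousSubmodule σ ℚ (0 + r) :=
      (homogeneousComponent_isHomogeneous 0 g).mul hQ
    rw [homogeneousComponent_of_mem h1, if_pos (by omega), homogeneousComponent_zero]
  · intro i _ hi
    have h1 : (homogeneousComponent i g * Q) ∈ homogeneousSubmodule σ ℚ (i + r) :=
      (homogeneousComponent_isHomogeneous i g).mul hQ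
    rw [homogeneousComponent_of_mem h1, if_neg (by omega)]
  · intro h
    simp at h

/-- Weights separating small displacements outside `ρ`. -/
theorem exists_generic_weights {A : Type} [Fintype A] (ρ : Finset A) (K : ℕ) :
    ∃ α : A → ℕ, (∀ v ∈ ρ, α v = 0) ∧ (∀ v, v ∉ ρ → 1 ≤ α v) ∧
      ∀ δ : A → ℤ, (∀ v, |δ v| ≤ K) → ∑ v, (α v : ℤ) * δ v = 0 → ∀ v, v ∉ ρ → δ v = 0 := by
  classical
  let e := Fintype.equivFin A
  refine ⟨fun v => if v ∈ ρ then 0 else (2 * K + 1) ^ (e v : ℕ), fun v hv => if_pos hv,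
    fun v hv => ?_, fun δ hδ hsum => ?_⟩
  · beta_reduce
    rw [if_neg hv]
    exact Nat.one_le_pow _ _ (by omega)
  · by_contra hcon
    push Not at hcon
    obtain ⟨v₁, hv₁, hv₁'⟩ := hcon
    obtain ⟨v, hv, hmax⟩ := (univ.filter fun v => v ∉ ρ ∧ δ v ≠ 0).exists_max_image
      (fun v => (e v : ℕ)) ⟨v₁, by simp [hv₁, hv₁']⟩
    simp only [Finset.mem_filter, Finset.mem_univ, true_and] at hv hmax
    -- the other terms are small
    have hgeom : ∀ m : ℕ, (K : ℤ) * ∑ i ∈ range m, (2 * (K : ℤ) + 1) ^ i * 2 =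
        (2 * (K : ℤ) + 1) ^ m - 1 := by
      intro m
      induction m with
      | zero => simp
      | succ m ih => rw [Finset.sum_range_succ, mul_add, ih]; ring
    have h1 : |∑ u ∈ univ.erase v, ((if u ∈ ρ then 0 else (2 * K + 1) ^ (e u : ℕ) : ℕ) : ℤ) * δ u| ≤
        K * ∑ i ∈ range (e v : ℕ), (2 * (K : ℤ) + 1) ^ i := by
      refine (Finset.abs_sum_le_sum_abs _ _).trans ?_
      have h2 : ∀ u ∈ univ.erase v, |((if u ∈ ρ then 0 else (2 * K + 1) ^ (e u : ℕ) : ℕ) : ℤ) * δ u| ≤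
          if (e u : ℕ) < e v then (K : ℤ) * (2 * (K : ℤ) + 1) ^ (e u : ℕ) else 0 := by
        intro u hu
        by_cases huρ : u ∈ ρ
        · rw [if_pos huρ]
          simp only [Nat.cast_zero, zero_mul, abs_zero]
          split_ifs <;> positivity
        · by_cases hδu : δ u = 0
          · rw [hδu, mul_zero, abs_zero]
            split_ifs <;> positivity
          · have h3 := hmax u ⟨huρ, hδu⟩
            have h4 : (e u : ℕ) ≠ e v := by
              intro h5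
              exact (Finset.ne_of_mem_erase hu) (e.injective (Fin.ext h5))
            rw [if_neg huρ, if_pos (by omega), abs_mul]
            push_cast
            rw [abs_of_nonneg (a := (2 * (K : ℤ) + 1) ^ (e u : ℕ)) (by positivity), mul_comm]
            exact mul_le_mul_of_nonneg_right (hδ u) (by positivity)
      refine (Finset.sum_le_sum h2).trans ?_
      rw [Finset.mul_sum, ← Finset.sum_filter]
      have h5 : ∑ u ∈ (univ.erase v).filter (fun u => (e u : ℕ) < e v),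
          (K : ℤ) * (2 * (K : ℤ) + 1) ^ (e u : ℕ) =
          ∑ i ∈ ((univ.erase v).filter (fun u => (e u : ℕ) < e v)).image (fun u => (e u : ℕ)),
            (K : ℤ) * (2 * (K : ℤ) + 1) ^ i := by
        rw [Finset.sum_image]
        intro a _ b _ hab
        exact e.injective (Fin.ext hab)
      rw [h5]
      refine Finset.sum_le_sum_of_subset_of_nonneg ?_ fun _ _ _ => by positivity
      intro i hi
      obtain ⟨u, hu, rfl⟩ := Finset.mem_image.1 hi
      exact Finset.mem_range.2 (Finset.mem_filter.1 hu).2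
    beta_reduce at hsum
    rw [← Finset.add_sum_erase _ _ (Finset.mem_univ v), if_neg hv.1] at hsum
    have h6 := hgeom (e v : ℕ)
    rw [← Finset.sum_mul] at h6
    have h7 : (1 : ℤ) ≤ |δ v| := Int.one_le_abs hv.2
    have h8 : |((((2 * K + 1) ^ (e v : ℕ) : ℕ) : ℤ) * δ v)| =
        |∑ u ∈ univ.erase v, ((if u ∈ ρ then 0 else (2 * K + 1) ^ (e u : ℕ) : ℕ) : ℤ) * δ u| := by
      rw [← abs_neg]
      congr 1
      linarith
    have h9 : (2 * (K : ℤ) + 1) ^ (e v : ℕ) ≤ |((((2 * K + 1) ^ (e v : ℕ) : ℕ) : ℤ) * δ v)| := by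
      rw [abs_mul]
      push_cast
      rw [abs_of_nonneg (a := (2 * (K : ℤ) + 1) ^ (e v : ℕ)) (by positivity)]
      exact le_mul_of_one_le_right (by positivity) h7
    have h10 : (0 : ℤ) < (2 * (K : ℤ) + 1) ^ (e v : ℕ) := by positivity
    have h11 : (0 : ℤ) ≤ K * ∑ i ∈ range (e v : ℕ), (2 * (K : ℤ) + 1) ^ i := by positivity
    linarith

section

variable {κs : Sf f → ℚ}

/-- The integral exponents whose displacement is negative. -/
def negSet (γ : Sf f → ℚ) (δ : Sf f → ℤ) : Finset (Sf f) := by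
  classical exact univ.filter fun v => ∃ g : ℤ, γ v = g ∧ δ v < g

theorem mem_negSet {γ : Sf f → ℚ} {δ : Sf f → ℤ} {v : Sf f} :
    v ∈ negSet γ δ ↔ ∃ g : ℤ, γ v = g ∧ δ v < g := by
  unfold negSet
  simp

theorem negSet_dvd_PM {γ : Sf f → ℚ} {E : ℕ} (hE : ∀ v, ∀ g : ℤ, γ v = g → g ≤ E)
    (δ : Sf f → ℤ) :
    (∏ v ∈ negSet γ δ, (X v : MvPolynomial (Sf f) ℚ)) ∣ PM (fun v => -γ v) E δ := by
  classical
  have h0 : (∏ v ∈ negSet γ δ, (X v : MvPolynomial (Sf f) ℚ)) =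
      ∏ v, if v ∈ negSet γ δ then X v else 1 := by
    rw [Finset.prod_ite_mem, Finset.univ_inter]
  rw [h0]
  unfold PM
  refine Finset.prod_dvd_prod_of_dvd _ _ fun v _ => ?_
  split_ifs with hv
  · obtain ⟨g, hg, hδ⟩ := mem_negSet.1 hv
    have h1 : g ∈ Ioc (δ v) (E : ℤ) := Finset.mem_Ioc.2 ⟨hδ, hE v g hg⟩
    have h2 := Finset.dvd_prod_of_mem
      (fun e : ℤ => (C (-γ v) + X v + C (e : ℚ) : MvPolynomial (Sf f) ℚ)) h1
    have h3 : (C (-γ v) + X v + C (g : ℚ) : MvPolynomial (Sf f) ℚ) = X v := by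
      rw [hg, C_neg]; ring
    beta_reduce at h2
    rw [h3] at h2
    exact h2
  · exact one_dvd _

theorem LF_dvd_RM {γ : Sf f → ℚ} {w : Fin n → ℕ}
    (hγ : ∀ j, 0 < w j → ∑ v, γ v * ((v.1 j : ℕ) : ℚ) = 1) (β m : Fin n →₀ ℕ)
    (P : Finset {j // 0 < w j}) (hP : ∀ j ∈ P, m j.1 < β j.1) :
    (∏ j ∈ P, ∑ v : Sf f, (C ((v.1 j.1 : ℕ) : ℚ) * X v : MvPolynomial (Sf f) ℚ)) ∣
      RM (fun v => -γ v) β m := by
  classical
  unfold RM
  have h1 : ∀ j ∈ P, (∑ v : Sf f, (C ((v.1 j.1 : ℕ) : ℚ) * X v : MvPolynomial (Sf f) ℚ)) ∣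
      ∏ e ∈ range (β j.1), ((∑ v : Sf f, C ((v.1 j.1 : ℕ) : ℚ) * (C (-γ v) + X v)) -
        C ((m j.1 : ℕ) : ℚ) + 1 + C (e : ℚ)) := by
    intro j hj
    have h2 := Finset.dvd_prod_of_mem (fun e : ℕ => ((∑ v : Sf f, C ((v.1 j.1 : ℕ) : ℚ) *
      (C (-γ v) + X v)) - C ((m j.1 : ℕ) : ℚ) + 1 + C (e : ℚ) : MvPolynomial (Sf f) ℚ))
      (Finset.mem_range.2 (hP j hj))
    have h3 : ((∑ v : Sf f, C ((v.1 j.1 : ℕ) : ℚ) * (C (-γ v) + X v)) - C ((m j.1 : ℕ) : ℚ) + 1 +
        C ((m j.1 : ℕ) : ℚ) : MvPolynomial (Sf f) ℚ) =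
        ∑ v : Sf f, C ((v.1 j.1 : ℕ) : ℚ) * X v := by
      have h4 : (∑ v : Sf f, C ((v.1 j.1 : ℕ) : ℚ) * (C (-γ v) + X v) : MvPolynomial (Sf f) ℚ) =
          -C (∑ v : Sf f, γ v * ((v.1 j.1 : ℕ) : ℚ)) + ∑ v : Sf f, C ((v.1 j.1 : ℕ) : ℚ) * X v := by
        rw [map_sum, ← Finset.sum_neg_distrib, ← Finset.sum_add_distrib]
        refine Finset.sum_congr rfl fun v _ => ?_
        rw [C_neg, C_mul]
        ring
      rw [h4, hγ j.1 j.2, C_1]
      ring
    beta_reduce at h2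
    rw [h3] at h2
    exact h2
  refine (Finset.prod_dvd_prod_of_dvd _ _ h1).trans ?_
  have h2 : ∏ j ∈ P, (∏ e ∈ range (β j.1), ((∑ v : Sf f, C ((v.1 j.1 : ℕ) : ℚ) *
      (C (-γ v) + X v)) - C ((m j.1 : ℕ) : ℚ) + 1 + C (e : ℚ)) : MvPolynomial (Sf f) ℚ) =
      ∏ j ∈ P.map (Function.Embedding.subtype _), ∏ e ∈ range (β j),
        ((∑ v : Sf f, C ((v.1 j : ℕ) : ℚ) *
      (C (-γ v) + X v)) - C ((m j : ℕ) : ℚ) + 1 + C (e : ℚ)) := by
    rw [Finset.prod_map]
    rfl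
  rw [h2]
  exact Finset.prod_dvd_prod_of_subset _ _ _ (Finset.subset_univ _)

theorem PM_zero_eq {γ : Sf f → ℚ} {E : ℕ} (hE : ∀ v, ∀ g : ℤ, γ v = g → g ≤ E)
    (R : Finset (Sf f)) (hR : ∀ v, v ∈ R ↔ ∃ k : ℕ, γ v = k + 1) :
    ∃ h : MvPolynomial (Sf f) ℚ, PM (fun v => -γ v) E 0 = h * ∏ v ∈ R, X v ∧ coeff 0 h ≠ 0 := by
  classical
  refine ⟨∏ v, ∏ e ∈ (Ioc (0 : ℤ) (E : ℤ)).filter (fun e : ℤ => (e : ℚ) ≠ γ v),
    (C (-γ v) + X v + C ((e : ℤ) : ℚ)), ?_, ?_⟩
  · have h0 : (∏ v ∈ R, (X v : MvPolynomial (Sf f) ℚ)) = ∏ v, if v ∈ R then X v else 1 := by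
      rw [Finset.prod_ite_mem, Finset.univ_inter]
    rw [h0, ← Finset.prod_mul_distrib]
    unfold PM
    refine Finset.prod_congr rfl fun v _ => ?_
    rw [Pi.zero_apply, ← Finset.prod_filter_mul_prod_filter_not (Ioc (0 : ℤ) (E : ℤ))
      (fun e : ℤ => (e : ℚ) ≠ γ v)]
    refine congrArg₂ (· * ·) rfl ?_
    by_cases hv : v ∈ R
    · rw [if_pos hv]
      obtain ⟨k, hk⟩ := (hR v).1 hv
      have h1 : (Ioc (0 : ℤ) (E : ℤ)).filter (fun e : ℤ => ¬ (e : ℚ) ≠ γ v) =
          {((k : ℤ) + 1)} := by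
        ext e
        simp only [Finset.mem_filter, Finset.mem_Ioc, Finset.mem_singleton, not_not]
        constructor
        · rintro ⟨-, h2⟩
          rw [hk] at h2
          exact_mod_cast h2
        · rintro rfl
          refine ⟨⟨by omega, hE v _ (by rw [hk]; push_cast; rfl)⟩, ?_⟩
          rw [hk]
          push_cast
          rfl
      rw [h1, Finset.prod_singleton]
      beta_reduce
      have h2 : (((k : ℤ) + 1 : ℤ) : ℚ) = γ v := by rw [hk]; push_cast; rfl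
      rw [h2, C_neg]
      ring
    · rw [if_neg hv]
      refine Finset.prod_eq_one fun e he => ?_
      exfalso
      simp only [Finset.mem_filter, Finset.mem_Ioc, not_not] at he
      apply hv
      rw [hR]
      refine ⟨(e - 1).toNat, ?_⟩
      rw [← he.2]
      have h2 : ((e - 1).toNat : ℤ) = e - 1 := Int.toNat_of_nonneg (by omega)
      have h3 : (((e - 1).toNat : ℤ) : ℚ) = ((e - 1 : ℤ) : ℚ) := by rw [h2]
      push_cast at h3
      rw [h3]
      ring
  · have h1 : ∀ P : MvPolynomial (Sf f) ℚ, coeff 0 P = constantCoeff P := fun P => rfl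
    rw [h1, map_prod, Finset.prod_ne_zero_iff]
    intro v _
    rw [map_prod, Finset.prod_ne_zero_iff]
    intro e he
    simp only [map_add, constantCoeff_C, constantCoeff_X, add_zero]
    have := (Finset.mem_filter.1 he).2
    intro h2
    apply this
    linarith

end

/-- **Root theorem.** A linearly independent set `ρ` of exponents in a face of the Newton
polyhedron, with `∑ γ_v v_j = 1` for all `j` in the support of the weight, gives a root of the
Bernstein–Sato polynomial of a very general polynomial if the `v` with `γ_v` not a positive integer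
do not all lie in a coordinate hyperplane `x_j = 0`, `w_j > 0`. -/
theorem root_simplex (hf : f ≠ 0) (halg : AlgebraicIndependent ℚ (cf f)) {w : Fin n → ℕ} {N : ℕ}
    (hN : 0 < N) (hmin : ∀ v ∈ f.support, N ≤ wt w v) (ρ : Finset (Sf f))
    (hρ : ∀ v ∈ ρ, wt w v.1 = N)
    (lin : ∀ g : Sf f → ℚ, (∀ v, v ∉ ρ → g v = 0) →
      (∀ j, ∑ v, g v * ((v.1 j : ℕ) : ℚ) = 0) → g = 0)
    (γ : Sf f → ℚ) (hγ0 : ∀ v, v ∉ ρ → γ v = 0)
    (hγ : ∀ j, 0 < w j → ∑ v, γ v * ((v.1 j : ℕ) : ℚ) = 1)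
    (hint : ∀ j, 0 < w j → ∃ v ∈ ρ, (∀ k : ℕ, γ v ≠ k + 1) ∧ 0 < v.1 j)
    (b : Polynomial ℂ) (hb : IsBernsteinSato f b) :
    b.eval ((-(∑ v, γ v) : ℚ) : ℂ) = 0 := by
  classical
  set σ : Finset (Sf f) := ρ.filter fun v => ∀ k : ℕ, γ v ≠ k + 1 with hσ
  have hσρ : σ ⊆ ρ := Finset.filter_subset _ _
  have hmemR : ∀ v, v ∈ ρ \ σ ↔ ∃ k : ℕ, γ v = k + 1 := by
    intro v
    rw [Finset.mem_sdiff, hσ, Finset.mem_filter]
    constructor
    · rintro ⟨h1, h2⟩
      by_contra h3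
      push Not at h3
      exact h2 ⟨h1, h3⟩
    · rintro ⟨k, hk⟩
      refine ⟨?_, fun h => h.2 k hk⟩
      by_contra h
      rw [hγ0 v h] at hk
      have : (0 : ℚ) ≤ k := by positivity
      linarith
  rw [← Finset.sum_neg_distrib]
  refine rootM hf halg (fun v => -γ v) (ρ \ σ).card (fun K => ?_) b hb
  -- constants
  obtain ⟨α, hαρ, hα1, hαgen⟩ := exists_generic_weights ρ K
  set M : ℕ := ∑ v, α v with hM
  set c₀ : ℕ := Fintype.card (Sf f) with hc₀
  obtain ⟨η, hη⟩ : ∃ η : ℝ, η = 1 / (4 * ((M : ℝ) + 1) * ((K : ℝ) + 1) * ((c₀ : ℝ) + 1)) := ⟨_, rfl⟩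
  have hM0 : (0 : ℝ) ≤ M := by positivity
  have hK0 : (0 : ℝ) ≤ K := by positivity
  have hc0 : (0 : ℝ) ≤ c₀ := by positivity
  have hden : (0 : ℝ) < 4 * ((M : ℝ) + 1) * ((K : ℝ) + 1) * ((c₀ : ℝ) + 1) := by positivity
  have hη0 : 0 < η := by rw [hη]; positivity
  have hηM : η * ((M : ℝ) * K) ≤ 1 / 4 := by
    rw [hη, div_mul_eq_mul_div, one_mul, div_le_iff₀ hden]
    have : (0 : ℝ) ≤ M * K * c₀ := by positivity
    have : (0 : ℝ) ≤ M * c₀ := by positivity
    have : (0 : ℝ) ≤ K * c₀ := by positivity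
    nlinarith
  have hηK : η * ((K : ℝ) * c₀) ≤ 1 / 4 := by
    rw [hη, div_mul_eq_mul_div, one_mul, div_le_iff₀ hden]
    have : (0 : ℝ) ≤ M * K * c₀ := by positivity
    have : (0 : ℝ) ≤ M * c₀ := by positivity
    have : (0 : ℝ) ≤ M * K := by positivity
    nlinarith
  have hη1 : η ≤ 1 / 4 := by
    rw [hη, div_le_iff₀ hden]
    have : (0 : ℝ) ≤ M * K * c₀ := by positivity
    have : (0 : ℝ) ≤ M * c₀ := by positivity
    have : (0 : ℝ) ≤ M * K := by positivity
    have : (0 : ℝ) ≤ K * c₀ := by positivity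
    nlinarith
  have hζ : η ^ 2 ≤ η := by nlinarith
  have hNR : (0 : ℝ) < N := by exact_mod_cast hN
  -- the functional
  have hwsum : ∀ v : Sf f, ∑ j : {j // 0 < w j}, ((v.1 j.1 : ℕ) : ℝ) * ((w j.1 : ℝ) / N) =
      (wt w v.1 : ℝ) / N := by
    intro v
    have h1 : (wt w v.1 : ℝ) = ∑ j : {j // 0 < w j}, ((w j.1 : ℝ) * ((v.1 j.1 : ℕ) : ℝ)) := by
      unfold wt
      push_cast
      rw [← Finset.sum_filter_add_sum_filter_not univ (fun j => 0 < w j),
        Finset.sum_eq_zero (s := univ.filter fun j => ¬ 0 < w j), add_zero]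
      · rw [← Finset.sum_subtype_eq_sum_filter]
        exact Finset.sum_congr (by ext; simp) fun _ _ => rfl
      · intro j hj
        have : w j = 0 := by
          have := (Finset.mem_filter.1 hj).2
          omega
        rw [this]
        simp
    rw [h1, Finset.sum_div]
    exact Finset.sum_congr rfl fun j _ => by ring
  obtain ⟨Λ, hΛ0, hΛ⟩ := exists_functional (fun (v : Sf f) (j : {j // 0 < w j}) => v.1 j.1) ρ σ hσρ
    (fun j => by
      obtain ⟨v, hv, h1, h2⟩ := hint j.1 j.2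
      exact ⟨v, Finset.mem_filter.2 ⟨hv, h1⟩, h2⟩)
    (fun j => (w j.1 : ℝ) / N) (fun j => div_pos (by exact_mod_cast j.2) hNR)
    (fun v => 1 - η * α v) (fun v => by
      have : 0 ≤ η * α v := by positivity
      linarith) (η ^ 2) (by positivity) (by nlinarith)
    (fun v hv => by rw [hwsum, hρ v hv, hαρ v hv, div_self hNR.ne']; simp)
    (fun v hv => by
      rw [hwsum]
      have h1 : (1 : ℝ) ≤ α v := by exact_mod_cast hα1 v hv
      have h2 : (1 : ℝ) ≤ (wt w v.1 : ℝ) / N := by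
        rw [le_div_iff₀ hNR, one_mul]
        exact_mod_cast hmin v.1 v.2
      nlinarith)
  -- the lower bound
  have low : ∀ (δ : Sf f → ℤ) (y : {j // 0 < w j} → ℝ), (∀ v, |δ v| ≤ K) →
      (∀ v ∈ negSet γ δ ∪ σ, |∑ j : {j // 0 < w j}, ((v.1 j.1 : ℕ) : ℝ) * y j - (1 - η * α v)| ≤ η ^ 2) →
      (∀ v : Sf f, 1 - η * α v - η ^ 2 ≤ ∑ j : {j // 0 < w j}, ((v.1 j.1 : ℕ) : ℝ) * y j) →
      ((∑ v, δ v : ℤ) : ℝ) - η * ((∑ v, (α v : ℤ) * δ v : ℤ) : ℝ) - η ^ 2 * (K * c₀) ≤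
        ∑ j : {j // 0 < w j}, ((∑ v, δ v * ((v.1 j.1 : ℕ) : ℤ) : ℤ) : ℝ) * y j := by
    intro δ y hδK h1 h2
    have e1 : ∑ j : {j // 0 < w j}, ((∑ v, δ v * ((v.1 j.1 : ℕ) : ℤ) : ℤ) : ℝ) * y j =
        ∑ v, (δ v : ℝ) * ∑ j : {j // 0 < w j}, ((v.1 j.1 : ℕ) : ℝ) * y j := by
      push_cast
      simp only [Finset.sum_mul, Finset.mul_sum]
      rw [Finset.sum_comm]
      exact Finset.sum_congr rfl fun v _ => Finset.sum_congr rfl fun j _ => by ring
    have e2 : ((∑ v, δ v : ℤ) : ℝ) - η * ((∑ v, (α v : ℤ) * δ v : ℤ) : ℝ) - η ^ 2 * (K * c₀) =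
        ∑ v, ((δ v : ℝ) * (1 - η * α v) - η ^ 2 * K) := by
      rw [Finset.sum_sub_distrib, Finset.sum_const, Finset.card_univ]
      push_cast
      rw [Finset.mul_sum, ← Finset.sum_sub_distrib]
      rw [nsmul_eq_mul]
      congr 1
      · exact Finset.sum_congr rfl fun v _ => by ring
      · ring
    rw [e1, e2]
    refine Finset.sum_le_sum fun v _ => ?_
    set t := ∑ j : {j // 0 < w j}, ((v.1 j.1 : ℕ) : ℝ) * y j with ht
    have hδv : |(δ v : ℝ)| ≤ K := by exact_mod_cast hδK v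
    have hη2 : 0 ≤ η ^ 2 := by positivity
    by_cases hv : v ∈ negSet γ δ ∪ σ
    · have h3 := h1 v hv
      have h4 : |(δ v : ℝ) * (t - (1 - η * α v))| ≤ K * η ^ 2 := by
        rw [abs_mul]
        exact mul_le_mul hδv h3 (abs_nonneg _) hK0
      have h5 := (abs_le.1 h4).1
      nlinarith
    · rw [Finset.mem_union, not_or] at hv
      have h3 : 0 ≤ δ v := by
        by_cases hvρ : v ∈ ρ
        · have h4 : v ∈ ρ \ σ := Finset.mem_sdiff.2 ⟨hvρ, hv.2⟩
          obtain ⟨k, hk⟩ := (hmemR v).1 h4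
          by_contra h5
          apply hv.1
          rw [mem_negSet]
          exact ⟨(k : ℤ) + 1, by rw [hk]; push_cast; rfl, by omega⟩
        · by_contra h5
          apply hv.1
          rw [mem_negSet]
          exact ⟨0, by rw [hγ0 v hvρ]; simp, by omega⟩
      have h4 : (0 : ℝ) ≤ δ v := by exact_mod_cast h3
      have h5 := h2 v
      have h6 := (abs_le.1 hδv).2
      have h7 : (δ v : ℝ) * (1 - η * α v - η ^ 2) ≤ δ v * t := mul_le_mul_of_nonneg_left h5 h4
      nlinarith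
  have hαδ : ∀ δ : Sf f → ℤ, (∀ v, |δ v| ≤ K) →
      |((∑ v, (α v : ℤ) * δ v : ℤ) : ℝ)| ≤ M * K := by
    intro δ hδK
    rw [← Int.cast_abs]
    have h1 : |∑ v, (α v : ℤ) * δ v| ≤ M * K := by
      refine (Finset.abs_sum_le_sum_abs _ _).trans ?_
      rw [hM]
      push_cast
      rw [Finset.sum_mul]
      refine Finset.sum_le_sum fun v _ => ?_
      rw [abs_mul, Nat.abs_cast]
      exact mul_le_mul_of_nonneg_left (hδK v) (by positivity)
    exact_mod_cast h1
  set E : ℕ := K + ∑ v, ⌈|γ v|⌉₊ with hE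
  have hEγ : ∀ v, ∀ g : ℤ, γ v = g → g ≤ E := by
    intro v g hg
    have h1 : (g : ℚ) ≤ ⌈|γ v|⌉₊ := by
      rw [← hg]
      exact (le_abs_self _).trans (Nat.le_ceil _)
    have h2 : g ≤ (⌈|γ v|⌉₊ : ℤ) := by exact_mod_cast h1
    have h3 : ⌈|γ v|⌉₊ ≤ ∑ v, ⌈|γ v|⌉₊ :=
      Finset.single_le_sum (f := fun v => ⌈|γ v|⌉₊) (fun _ _ => Nat.zero_le _) (Finset.mem_univ v)
    omega
  have hXhom : ∀ U : Finset (Sf f), (∏ v ∈ U, (X v : MvPolynomial (Sf f) ℚ)).IsHomogeneous U.card := by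
    intro U
    have := IsHomogeneous.prod U (fun v => (X v : MvPolynomial (Sf f) ℚ)) (fun _ => 1)
      fun v _ => isHomogeneous_X _ v
    simpa using this
  have hLhom : ∀ P : Finset {j // 0 < w j}, (∏ j ∈ P, ∑ v : Sf f,
      (C ((v.1 j.1 : ℕ) : ℚ) * X v : MvPolynomial (Sf f) ℚ)).IsHomogeneous P.card := by
    intro P
    have := IsHomogeneous.prod P (fun j => ∑ v : Sf f,
      (C ((v.1 j.1 : ℕ) : ℚ) * X v : MvPolynomial (Sf f) ℚ)) (fun _ => 1)
      fun j _ => IsHomogeneous.sum _ _ _ fun v _ => isHomogeneous_C_mul_X _ v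
    simpa using this
  refine ⟨E, α, Λ ∘ₗ (homogeneousComponent (ρ \ σ).card), by omega, ?_, ?_, ?_, ?_⟩
  · intro g
    rw [LinearMap.comp_apply, mul_comm, homComp_high _ ((ρ \ σ).card + 1) (by omega) _ _ ?_, map_zero]
    have := (IsHomogeneous.sum (univ : Finset (Sf f)) (fun v => (X v : MvPolynomial (Sf f) ℚ)) 1
      fun v _ => isHomogeneous_X _ v).pow ((ρ \ σ).card + 1)
    simpa using this
  · obtain ⟨h, hh, hh0⟩ := PM_zero_eq hEγ (ρ \ σ) hmemR
    rw [LinearMap.comp_apply, hh, homComp_low _ _ _ (hXhom _), ← smul_eq_C_mul, map_smul]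
    exact smul_ne_zero hh0 hΛ0
  · intro δ hδ0 hδK hδs hδj
    by_cases hpos : 0 < ∑ v, (α v : ℤ) * δ v
    · exact Or.inl hpos
    right
    intro g
    obtain ⟨h, hh⟩ := negSet_dvd_PM hEγ δ
    have hkill := hΛ (negSet γ δ) ∅ ?_
    · rw [LinearMap.comp_apply, hh, mul_left_comm, mul_comm]
      refine homComp_mul _ _ _ _ (hXhom _) Λ fun g' => ?_
      have := hkill g'
      simpa using this
    · intro y _ _ h1 h2
      have h3 := low δ y hδK h1 h2
      rw [hδs, Int.cast_zero] at h3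
      have h4 : ∑ j : {j // 0 < w j}, ((∑ v, δ v * ((v.1 j.1 : ℕ) : ℤ) : ℤ) : ℝ) * y j = 0 := by
        refine Finset.sum_eq_zero fun j _ => ?_
        rw [hδj, Int.cast_zero, zero_mul]
      rw [h4] at h3
      have h5 : (∑ v, (α v : ℤ) * δ v) ≠ 0 := by
        intro h6
        have h7 := hαgen δ hδK h6
        apply hδ0
        have h8 := lin (fun v => (δ v : ℚ)) (fun v hv => by
          rw [h7 v hv, Int.cast_zero]) (fun j => by
          have := hδj j
          have h9 : ((∑ v, δ v * ((v.1 j : ℕ) : ℤ) : ℤ) : ℚ) = 0 := by rw [this, Int.cast_zero]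
          push_cast at h9
          exact h9)
        funext v
        have := congrFun h8 v
        simpa using this
      have h6 : ((∑ v, (α v : ℤ) * δ v : ℤ) : ℝ) ≤ -1 := by
        have : ∑ v, (α v : ℤ) * δ v ≤ -1 := by omega
        exact_mod_cast this
      have h7 : η ^ 2 * (K * c₀) ≤ η * (1 / 4) := by
        have : η ^ 2 * (K * c₀) = η * (η * (K * c₀)) := by ring
        rw [this]
        exact mul_le_mul_of_nonneg_left hηK hη0.le
      nlinarith
  · intro δ hδK hδs β m hx g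
    obtain ⟨h, hh⟩ := negSet_dvd_PM hEγ δ
    set P : Finset {j // 0 < w j} := univ.filter fun j => m j.1 < β j.1 with hP
    obtain ⟨h', hh'⟩ := LF_dvd_RM hγ β m P (fun j hj => (Finset.mem_filter.1 hj).2)
    have hkill := hΛ (negSet γ δ) P ?_
    · rw [LinearMap.comp_apply, hh, hh']
      have e : ∀ a b c d e : MvPolynomial (Sf f) ℚ, a * (b * c * (d * e)) = (a * c * e) * (d * b) :=
        fun a b c d e => by ring
      rw [e]
      refine homComp_mul _ _ _ _ ((hXhom _).mul (hLhom _)) Λ fun g' => hkill g'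
    · intro y hy0 hyP h1 h2
      have h3 := low δ y hδK h1 h2
      rw [hδs, Int.cast_one] at h3
      have h4 : ∑ j : {j // 0 < w j}, ((∑ v, δ v * ((v.1 j.1 : ℕ) : ℤ) : ℤ) : ℝ) * y j ≤ 0 := by
        refine Finset.sum_nonpos fun j _ => ?_
        by_cases hj : j ∈ P
        · rw [hyP j hj, mul_zero]
        · refine mul_nonpos_of_nonpos_of_nonneg ?_ (hy0 j)
          have h5 : ¬ m j.1 < β j.1 := fun h => hj (Finset.mem_filter.2 ⟨Finset.mem_univ _, h⟩)
          rw [hx j.1]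
          have : (β j.1 : ℤ) - m j.1 ≤ 0 := by omega
          exact_mod_cast this
      have h5 := (abs_le.1 (hαδ δ hδK)).2
      have h6 : η * ((∑ v, (α v : ℤ) * δ v : ℤ) : ℝ) ≤ η * (M * K) :=
        mul_le_mul_of_nonneg_left h5 hη0.le
      have h7 : η ^ 2 * (K * c₀) ≤ η * (1 / 4) := by
        have : η ^ 2 * (K * c₀) = η * (η * (K * c₀)) := by ring
        rw [this]
        exact mul_le_mul_of_nonneg_left hηK hη0.le
      linarith

end MPb07157
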