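import Pool.Agent.Lib.MP_b07157_ag.Defs

/-!
# From `D[s] f^{s+1}` to identities at integers

`InDnForm f k g` is the formal analogue of `InDn`: operators with coefficients in `ℂ[[x]][s]`.
-/

noncomputable section

namespace MPb07157

open MvPolynomial

variable {n : ℕ}

/-- `∂^β g` for a formal power series. -/
def dPow (β : Fin n →₀ ℕ) (g : MvPowerSeries (Fin n) ℂ) : MvPowerSeries (Fin n) ℂ :=
  fun m => (∏ j, ((m j + 1).ascFactorial (β j) : ℂ)) * MvPowerSeries.coeff (m + β) g

theorem coeff_dPow (β : Fin n →₀ ℕ) (g : MvPowerSeries (Fin n) ℂ) (m : Fin n →₀ ℕ) :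
    MvPowerSeries.coeff m (dPow β g) =
      (∏ j, ((m j + 1).ascFactorial (β j) : ℂ)) * MvPowerSeries.coeff (m + β) g := rfl

theorem dPow_zero (g : MvPowerSeries (Fin n) ℂ) : dPow 0 g = g := by
  ext m
  simp [coeff_dPow]

theorem pderiv_dPow (i : Fin n) (β : Fin n →₀ ℕ) (g : MvPowerSeries (Fin n) ℂ) :
    MvPowerSeries.pderiv ℂ i (dPow β g) = dPow (β + Finsupp.single i 1) g := by
  ext m
  rw [MvPowerSeries.coeff_pderiv, coeff_dPow, coeff_dPow]
  have h1 : m + Finsupp.single i 1 + β = m + (β + Finsupp.single i 1) := by abel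
  rw [h1, mul_right_comm]
  congr 1
  have h2 : ∀ j, j ≠ i →
      (((((m + Finsupp.single i 1 : Fin n →₀ ℕ) j) + 1).ascFactorial (β j) : ℕ) : ℂ) =
      (((m j + 1).ascFactorial ((β + Finsupp.single i 1 : Fin n →₀ ℕ) j) : ℕ) : ℂ) := by
    intro j hj
    simp [Finsupp.single_eq_of_ne hj]
  rw [← Finset.mul_prod_erase Finset.univ _ (Finset.mem_univ i),
    ← Finset.mul_prod_erase Finset.univ _ (Finset.mem_univ i)]
  rw [Finset.prod_congr rfl fun j hj => h2 j (Finset.ne_of_mem_erase hj)]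
  have h3 : (((((m + Finsupp.single i 1 : Fin n →₀ ℕ) i) + 1).ascFactorial (β i) : ℕ) : ℂ) *
      (m i + 1) =
      (((m i + 1).ascFactorial ((β + Finsupp.single i 1 : Fin n →₀ ℕ) i) : ℕ) : ℂ) := by
    simp only [Finsupp.coe_add, Pi.add_apply, Finsupp.single_eq_same]
    rw [← Nat.cast_one (R := ℂ), ← Nat.cast_add, ← Nat.cast_mul]
    congr 1
    have := Nat.succ_ascFactorial (m i + 1) (β i)
    rw [Nat.ascFactorial_succ]
    simp only [Nat.succ_eq_add_one] at this
    linarith
  rw [← h3]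
  ring

/-- The formal analogue of `InDn`: the module `D_n[[x]][s] f^{s+1}`. -/
inductive InDnForm (f : MvPolynomial (Fin n) ℂ) :
    ℕ → Polynomial (MvPowerSeries (Fin n) ℂ) → Prop
  | base : InDnForm f 0 1
  | add {k g h} : InDnForm f k g → InDnForm f k h → InDnForm f k (g + h)
  | mul {k g} (c : Polynomial (MvPowerSeries (Fin n) ℂ)) : InDnForm f k g → InDnForm f k (c * g)
  | deriv {k g} (i : Fin n) : InDnForm f k g →
      InDnForm f (k + 1) (Polynomial.C (f : MvPowerSeries (Fin n) ℂ) *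
          (g.sum fun j a => Polynomial.monomial j (MvPowerSeries.pderiv ℂ i a)) +
        (Polynomial.X + 1 - (k : Polynomial (MvPowerSeries (Fin n) ℂ))) *
          Polynomial.C ((pderiv i f : MvPolynomial (Fin n) ℂ) : MvPowerSeries (Fin n) ℂ) * g)
  | raise {k g} : InDnForm f k g →
      InDnForm f (k + 1) (Polynomial.C (f : MvPowerSeries (Fin n) ℂ) * g)
  | lower {k g} : InDnForm f (k + 1) (Polynomial.C (f : MvPowerSeries (Fin n) ℂ) * g) →
      InDnForm f k g

/-- Coefficientwise derivative. -/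
def derivC (i : Fin n) (g : Polynomial (MvPowerSeries (Fin n) ℂ)) :
    Polynomial (MvPowerSeries (Fin n) ℂ) :=
  g.sum fun j a => Polynomial.monomial j (MvPowerSeries.pderiv ℂ i a)

theorem eval_derivC (i : Fin n) (g : Polynomial (MvPowerSeries (Fin n) ℂ)) (q : ℕ) :
    (derivC i g).eval (q : MvPowerSeries (Fin n) ℂ) =
      MvPowerSeries.pderiv ℂ i (g.eval (q : MvPowerSeries (Fin n) ℂ)) := by
  unfold derivC
  rw [Polynomial.sum_def, Polynomial.eval_finsetSum, Polynomial.eval_eq_sum, Polynomial.sum_def,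
    map_sum]
  refine Finset.sum_congr rfl fun j _ => ?_
  rw [Polynomial.eval_monomial, Derivation.leibniz]
  have h : MvPowerSeries.pderiv ℂ i ((q : MvPowerSeries (Fin n) ℂ) ^ j) = 0 := by
    rw [← Nat.cast_pow, Derivation.map_natCast]
  rw [h, smul_zero, zero_add, smul_eq_mul, mul_comm]

/-- Values at integers `q` of elements of `D_n[[x]][s] f^{s+1}`. -/
inductive OpVal (F : MvPowerSeries (Fin n) ℂ) : (ℕ → MvPowerSeries (Fin n) ℂ) → Prop
  | base (β : Fin n →₀ ℕ) : OpVal F (fun q => dPow β (F ^ (q + 1)))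
  | add {Φ Ψ} : OpVal F Φ → OpVal F Ψ → OpVal F (fun q => Φ q + Ψ q)
  | mul {Φ} (c : Polynomial (MvPowerSeries (Fin n) ℂ)) : OpVal F Φ →
      OpVal F (fun q => c.eval (q : MvPowerSeries (Fin n) ℂ) * Φ q)

theorem OpVal.deriv {F : MvPowerSeries (Fin n) ℂ} {Φ : ℕ → MvPowerSeries (Fin n) ℂ}
    (h : OpVal F Φ) (i : Fin n) : OpVal F (fun q => MvPowerSeries.pderiv ℂ i (Φ q)) := by
  induction h with
  | base β =>
    simp only [pderiv_dPow]
    exact OpVal.base _
  | add _ _ ih1 ih2 =>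
    simp only [map_add]
    exact ih1.add ih2
  | @mul Φ c h ih =>
    have : (fun q : ℕ => MvPowerSeries.pderiv ℂ i (c.eval (q : MvPowerSeries (Fin n) ℂ) * Φ q)) =
        fun q : ℕ => c.eval (q : MvPowerSeries (Fin n) ℂ) * MvPowerSeries.pderiv ℂ i (Φ q) +
          (derivC i c).eval (q : MvPowerSeries (Fin n) ℂ) * Φ q := by
      funext q
      rw [eval_derivC, Derivation.leibniz, smul_eq_mul, smul_eq_mul]
      ring
    rw [this]
    exact (OpVal.mul c ih).add (OpVal.mul _ h)

theorem InDnForm.exists_opVal {f : MvPolynomial (Fin n) ℂ} {k : ℕ}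
    {g : Polynomial (MvPowerSeries (Fin n) ℂ)} (h : InDnForm f k g) (hf : f ≠ 0) :
    ∃ Φ, OpVal (f : MvPowerSeries (Fin n) ℂ) Φ ∧ ∃ q₀, ∀ q ≥ q₀, k ≤ q + 1 ∧
      g.eval (q : MvPowerSeries (Fin n) ℂ) * (f : MvPowerSeries (Fin n) ℂ) ^ (q + 1 - k) = Φ q := by
  have hF : (f : MvPowerSeries (Fin n) ℂ) ≠ 0 := by
    intro h0
    exact hf (MvPolynomial.coe_injective _ _ (by simpa using h0))
  induction h with
  | base =>
    refine ⟨_, OpVal.base 0, 0, fun q _ => ⟨by omega, ?_⟩⟩
    rw [dPow_zero]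
    simp
  | add _ _ ih1 ih2 =>
    obtain ⟨Φ, hΦ, q₁, h1⟩ := ih1
    obtain ⟨Ψ, hΨ, q₂, h2⟩ := ih2
    refine ⟨_, hΦ.add hΨ, max q₁ q₂, fun q hq => ⟨(h1 q (le_of_max_le_left hq)).1, ?_⟩⟩
    rw [Polynomial.eval_add, add_mul, (h1 q (le_of_max_le_left hq)).2,
      (h2 q (le_of_max_le_right hq)).2]
  | mul c _ ih =>
    obtain ⟨Φ, hΦ, q₁, h1⟩ := ih
    refine ⟨_, OpVal.mul c hΦ, q₁, fun q hq => ⟨(h1 q hq).1, ?_⟩⟩
    rw [Polynomial.eval_mul, mul_assoc, (h1 q hq).2]
  | @deriv k g i _ ih =>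
    obtain ⟨Φ, hΦ, q₁, h1⟩ := ih
    refine ⟨_, hΦ.deriv i, max q₁ k, fun q hq => ⟨?_, ?_⟩⟩
    · have := le_of_max_le_right hq; omega
    · have hk := le_of_max_le_right hq
      rw [← (h1 q (le_of_max_le_left hq)).2]
      have e1 : q + 1 - k = (q + 1 - (k + 1)) + 1 := by omega
      have e2 : q + 1 - k - 1 = q + 1 - (k + 1) := by omega
      rw [Derivation.leibniz, MvPowerSeries.pderiv_pow, e2, smul_eq_mul, smul_eq_mul,
        ← eval_derivC, MvPowerSeries.pderiv_coe]
      simp only [Polynomial.eval_add, Polynomial.eval_mul, Polynomial.eval_sub, Polynomial.eval_C,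
        Polynomial.eval_X, Polynomial.eval_one, Polynomial.eval_natCast]
      have e3 : ((q + 1 - k : ℕ) : MvPowerSeries (Fin n) ℂ) = (q : MvPowerSeries (Fin n) ℂ) + 1 - k := by
        rw [Nat.cast_sub (by omega)]; push_cast; ring
      rw [e3, e1, pow_succ]
      simp only [derivC]
      ring
  | raise _ ih =>
    obtain ⟨Φ, hΦ, q₁, h1⟩ := ih
    rename_i k g _
    refine ⟨_, hΦ, max q₁ k, fun q hq => ⟨?_, ?_⟩⟩
    · have := le_of_max_le_right hq; omega
    · have hk := le_of_max_le_right hq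
      rw [← (h1 q (le_of_max_le_left hq)).2]
      have e1 : q + 1 - k = (q + 1 - (k + 1)) + 1 := by omega
      rw [Polynomial.eval_mul, Polynomial.eval_C, e1, pow_succ]
      ring
  | lower _ ih =>
    obtain ⟨Φ, hΦ, q₁, h1⟩ := ih
    rename_i k g _
    refine ⟨_, hΦ, q₁, fun q hq => ⟨?_, ?_⟩⟩
    · have := (h1 q hq).1; omega
    · have hk := (h1 q hq).1
      rw [← (h1 q hq).2]
      have e1 : q + 1 - k = (q + 1 - (k + 1)) + 1 := by omega
      rw [Polynomial.eval_mul, Polynomial.eval_C, e1, pow_succ]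
      ring

/-- Polynomials in `x` with coefficients in `ℂ[s]`, seen in `ℂ[[x]][s]`. -/
def toForm : MvPolynomial (Fin n) (Polynomial ℂ) →+* Polynomial (MvPowerSeries (Fin n) ℂ) :=
  eval₂Hom (Polynomial.mapRingHom (MvPowerSeries.C (σ := Fin n) (R := ℂ)))
    (fun i => Polynomial.C (MvPowerSeries.X i))

theorem toForm_C (a : Polynomial ℂ) :
    toForm (n := n) (C a) = a.map (MvPowerSeries.C (σ := Fin n) (R := ℂ)) := by
  simp [toForm]

theorem toForm_X (i : Fin n) : toForm (X i) = Polynomial.C (MvPowerSeries.X i) := by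
  simp [toForm]

theorem toForm_monomial (s : Fin n →₀ ℕ) (a : Polynomial ℂ) :
    toForm (monomial s a) = a.map (MvPowerSeries.C (σ := Fin n) (R := ℂ)) *
      Polynomial.C (MvPowerSeries.monomial s 1) := by
  rw [monomial_eq, map_mul, toForm_C]
  congr 1
  have h : (MvPowerSeries.monomial s (1 : ℂ)) = ((monomial s (1 : ℂ) : MvPolynomial (Fin n) ℂ) :
      MvPowerSeries (Fin n) ℂ) := (MvPolynomial.coe_monomial s 1).symm
  rw [h, monomial_eq]
  simp only [Finsupp.prod, map_prod, map_pow, toForm_X, map_one, one_mul]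
  rw [← MvPolynomial.coeToMvPowerSeries.ringHom_apply, map_prod]
  simp

theorem coeff_toForm (g : MvPolynomial (Fin n) (Polynomial ℂ)) (j : ℕ) (m : Fin n →₀ ℕ) :
    MvPowerSeries.coeff m ((toForm g).coeff j) = (coeff m g).coeff j := by
  classical
  induction g using MvPolynomial.monomial_add_induction_on with
  | C a =>
    rw [toForm_C, Polynomial.coeff_map, MvPowerSeries.coeff_C, MvPolynomial.coeff_C]
    by_cases h : m = 0
    · simp [h]
    · simp [h, Ne.symm h]
  | monomial_add s a g _ _ ih =>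
    rw [map_add, Polynomial.coeff_add, map_add, ih, coeff_add, Polynomial.coeff_add]
    congr 1
    rw [toForm_monomial, Polynomial.coeff_mul_C, Polynomial.coeff_map, MvPowerSeries.coeff_C_mul,
      MvPowerSeries.coeff_monomial, MvPolynomial.coeff_monomial]
    by_cases h : m = s
    · simp [h]
    · simp [h, Ne.symm h]

theorem coeff_derivC (i : Fin n) (g : Polynomial (MvPowerSeries (Fin n) ℂ)) (j : ℕ) :
    (derivC i g).coeff j = MvPowerSeries.pderiv ℂ i (g.coeff j) := by
  classical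
  unfold derivC
  rw [Polynomial.sum_def, Polynomial.finsetSum_coeff]
  simp only [Polynomial.coeff_monomial]
  rw [Finset.sum_ite_eq']
  split_ifs with h
  · rfl
  · rw [Polynomial.notMem_support_iff.1 h, map_zero]

theorem toForm_pderiv (i : Fin n) (g : MvPolynomial (Fin n) (Polynomial ℂ)) :
    toForm (pderiv i g) = derivC i (toForm g) := by
  ext j m
  rw [coeff_toForm, coeff_derivC, MvPowerSeries.coeff_pderiv, coeff_toForm,
    MvPolynomial.coeff_pderiv]
  have : ((m i : Polynomial ℂ) + 1) = Polynomial.C ((m i : ℂ) + 1) := by simp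
  rw [this, Polynomial.coeff_mul_C]

theorem toForm_liftS (f : MvPolynomial (Fin n) ℂ) :
    toForm (liftS f) = Polynomial.C (f : MvPowerSeries (Fin n) ℂ) := by
  ext j m
  rw [coeff_toForm, liftS, MvPolynomial.coeff_map, Polynomial.coeff_C, Polynomial.coeff_C]
  split_ifs with h
  · rw [MvPolynomial.coeff_coe]
  · simp

theorem InDn.toForm {f : MvPolynomial (Fin n) ℂ} {k : ℕ}
    {g : MvPolynomial (Fin n) (Polynomial ℂ)} (h : InDn f k g) :
    InDnForm f k (MPb07157.toForm g) := by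
  induction h with
  | base => rw [map_one]; exact InDnForm.base
  | add _ _ ih1 ih2 => rw [map_add]; exact ih1.add ih2
  | mul c _ ih => rw [map_mul]; exact InDnForm.mul _ ih
  | @deriv k g i _ ih =>
    have := InDnForm.deriv i ih
    convert this using 1
    rw [map_add, map_mul, map_mul, map_mul, toForm_liftS, toForm_liftS, toForm_pderiv, toForm_C]
    simp only [Polynomial.map_sub, Polynomial.map_add, Polynomial.map_X, Polynomial.map_one,
      Polynomial.map_natCast]
    rfl
  | raise _ ih =>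
    rw [map_mul, toForm_liftS]; exact InDnForm.raise ih
  | lower _ ih =>
    rw [map_mul, toForm_liftS] at ih; exact InDnForm.lower ih

end MPb07157
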