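import Pool.Agent.Lib.MP_b07157_ag.NewtMain
import Pool.Agent.Lib.MP_b07157_ag.NewtOp

/-!
# Local motivic zeta functions and local Bernstein–Sato polynomials
-/

noncomputable section

namespace MPb07157

open MvPolynomial Finset

variable {n : ℕ}

/-! ### Local motivic zeta functions -/

/-- The coefficient `L^{-n(m+1)} [X_{m,0}]` of the local motivic zeta function, where `X_{m,0}` is
the set of `m`-jets `γ` of arcs with `γ(0) = 0` and `ord_t f(γ(t)) = m`. -/
def Zcoeff0 (f : MvPolynomial (Fin n) ℂ) (m : ℕ) : Mot :=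
  ↑((LU ^ (n * (m + 1)))⁻¹) * clsM {γ ∈ arcs f (m + 1) m | ∀ i, γ (i, 0) = 0}

/-- The local motivic zeta function `Z_{f,0}^mot = ∑_m L^{-n(m+1)} [X_{m,0}] T^m`. -/
def Zmot0 (f : MvPolynomial (Fin n) ℂ) : PowerSeries Mot := PowerSeries.mk (Zcoeff0 f)

theorem Zmot_eq (f : MvPolynomial (Fin n) ℂ) : Zmot f = ZE f 0 := by
  unfold Zmot ZE
  congr 1
  funext m
  unfold Zcoeff muE
  congr 2
  ext γ
  simp [Start]

theorem Zmot0_eq (f : MvPolynomial (Fin n) ℂ) : Zmot0 f = ZE f 1 := by
  unfold Zmot0 ZE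
  congr 1
  funext m
  unfold Zcoeff0 muE
  congr 2
  ext γ
  simp only [Set.mem_ofPred_eq, Set.mem_inter_iff, Start]
  refine and_congr_right fun _ => forall_congr' fun i => ⟨fun h k hk => ?_, fun h => h 0 (by simp)⟩
  have : k = 0 := by
    ext
    simp only [Nat.lt_one_iff] at hk
    simp [hk]
  rw [this]
  exact h

/-! ### Local Bernstein–Sato polynomials -/

/-- The power series `c` converges in a neighbourhood of the origin. -/
def IsConv (c : MvPowerSeries (Fin n) ℂ) : Prop :=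
  ∃ C B : ℝ, ∀ m : Fin n →₀ ℕ, ‖MvPowerSeries.coeff m c‖ ≤ C * B ^ (∑ j, m j)

/-- Local version of `InDn`: `InDnLoc f k g` says that `g · f^{s+1-k}` belongs to
`D[s] · f^{s+1}`, for `g ∈ ℂ{x_1, …, x_n}[s]`, where `D` is the ring of germs at the origin of
analytic differential operators. -/
inductive InDnLoc (f : MvPolynomial (Fin n) ℂ) :
    ℕ → Polynomial (MvPowerSeries (Fin n) ℂ) → Prop
  | base : InDnLoc f 0 1
  | add {k g h} : InDnLoc f k g → InDnLoc f k h → InDnLoc f k (g + h)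
  | mul {k g} (c : Polynomial (MvPowerSeries (Fin n) ℂ)) (hc : ∀ i, IsConv (c.coeff i)) :
      InDnLoc f k g → InDnLoc f k (c * g)
  | deriv {k g} (i : Fin n) : InDnLoc f k g →
      InDnLoc f (k + 1) (Polynomial.C (f : MvPowerSeries (Fin n) ℂ) *
          (g.sum fun j a => Polynomial.monomial j (MvPowerSeries.pderiv ℂ i a)) +
        (Polynomial.X + 1 - (k : Polynomial (MvPowerSeries (Fin n) ℂ))) *
          Polynomial.C ((pderiv i f : MvPolynomial (Fin n) ℂ) : MvPowerSeries (Fin n) ℂ) * g)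
  | raise {k g} : InDnLoc f k g →
      InDnLoc f (k + 1) (Polynomial.C (f : MvPowerSeries (Fin n) ℂ) * g)
  | lower {k g} (hg : ∀ i, IsConv (g.coeff i)) :
      InDnLoc f (k + 1) (Polynomial.C (f : MvPowerSeries (Fin n) ℂ) * g) → InDnLoc f k g

/-- `b(s) f^s ∈ D[s] f^{s+1}` near the origin. -/
def IsLocalBernsteinSato (f : MvPolynomial (Fin n) ℂ) (b : Polynomial ℂ) : Prop :=
  InDnLoc f 1 (b.map (MvPowerSeries.C (σ := Fin n) (R := ℂ)))

/-- `s₀` is a root of the local Bernstein–Sato polynomial `b_{f,0}`, the monic generator of the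
(nonzero) ideal of all `b` with `b(s) f^s ∈ D[s] f^{s+1}` near the origin: every such `b` vanishes
at `s₀`. -/
def IsLocalBernsteinSatoRoot (f : MvPolynomial (Fin n) ℂ) (s₀ : ℚ) : Prop :=
  ∀ b : Polynomial ℂ, IsLocalBernsteinSato f b → b.eval (s₀ : ℂ) = 0

theorem InDnLoc.toForm {f : MvPolynomial (Fin n) ℂ} {k : ℕ}
    {g : Polynomial (MvPowerSeries (Fin n) ℂ)} (h : InDnLoc f k g) : InDnForm f k g := by
  induction h with
  | base => exact InDnForm.base
  | add _ _ ih1 ih2 => exact ih1.add ih2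
  | mul c _ _ ih => exact InDnForm.mul c ih
  | deriv i _ ih => exact InDnForm.deriv i ih
  | raise _ ih => exact InDnForm.raise ih
  | lower _ _ ih => exact InDnForm.lower ih

/-- A number at which all formal Bernstein–Sato polynomials vanish is a root of the global and of
the local Bernstein–Sato polynomial. -/
theorem roots_of_form {f : MvPolynomial (Fin n) ℂ} {s₀ : ℚ}
    (h : ∀ b : Polynomial ℂ, InDnForm f 1 (b.map (MvPowerSeries.C (σ := Fin n) (R := ℂ))) →
      b.eval (s₀ : ℂ) = 0) :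
    IsBernsteinSatoRoot f s₀ ∧ IsLocalBernsteinSatoRoot f s₀ := by
  refine ⟨fun b hb => h b ?_, fun b hb => h b hb.toForm⟩
  have := InDn.toForm hb
  rwa [toForm_C] at this

/-! ### The root `-1` -/

theorem eval_neg_one_derivC (i : Fin n) (g : Polynomial (MvPowerSeries (Fin n) ℂ)) :
    (derivC i g).eval (-1 : MvPowerSeries (Fin n) ℂ) =
      MvPowerSeries.pderiv ℂ i (g.eval (-1 : MvPowerSeries (Fin n) ℂ)) := by
  unfold derivC
  rw [Polynomial.sum_def, Polynomial.eval_finsetSum, Polynomial.eval_eq_sum, Polynomial.sum_def,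
    map_sum]
  refine Finset.sum_congr rfl fun j _ => ?_
  rw [Polynomial.eval_monomial, Derivation.leibniz]
  have h : MvPowerSeries.pderiv ℂ i ((-1 : MvPowerSeries (Fin n) ℂ) ^ j) = 0 := by
    rcases neg_one_pow_eq_or (MvPowerSeries (Fin n) ℂ) j with h | h <;> rw [h] <;> simp
  rw [h, smul_zero, zero_add, smul_eq_mul, mul_comm]

theorem InDnForm.dvd {f : MvPolynomial (Fin n) ℂ} (hf : f ≠ 0) {k : ℕ}
    {g : Polynomial (MvPowerSeries (Fin n) ℂ)} (h : InDnForm f k g) :
    (f : MvPowerSeries (Fin n) ℂ) ^ k ∣ g.eval (-1 : MvPowerSeries (Fin n) ℂ) := by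
  have hF : (f : MvPowerSeries (Fin n) ℂ) ≠ 0 := by
    intro h0
    exact hf (MvPolynomial.coe_injective _ _ (by simpa using h0))
  induction h with
  | base => simp
  | add _ _ ih1 ih2 => rw [Polynomial.eval_add]; exact dvd_add ih1 ih2
  | mul c _ ih => rw [Polynomial.eval_mul]; exact Dvd.dvd.mul_left ih _
  | @deriv k g i _ ih =>
    obtain ⟨h, hh⟩ := ih
    have e := eval_neg_one_derivC i g
    rw [hh, Derivation.leibniz, MvPowerSeries.pderiv_pow, smul_eq_mul, smul_eq_mul,
      MvPowerSeries.pderiv_coe] at e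
    simp only [Polynomial.eval_add, Polynomial.eval_mul, Polynomial.eval_sub, Polynomial.eval_C,
      Polynomial.eval_X, Polynomial.eval_one, Polynomial.eval_natCast]
    have e2 : Polynomial.eval (-1 : MvPowerSeries (Fin n) ℂ)
        (g.sum fun j a => Polynomial.monomial j (MvPowerSeries.pderiv ℂ i a)) =
        (derivC i g).eval (-1 : MvPowerSeries (Fin n) ℂ) := rfl
    rw [e2, e, hh]
    rcases k with _ | k
    · simp
    · refine ⟨MvPowerSeries.pderiv ℂ i h, ?_⟩
      rw [Nat.add_sub_cancel]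
      push_cast
      ring
  | raise _ ih =>
    rw [Polynomial.eval_mul, Polynomial.eval_C, pow_succ, mul_comm]
    exact mul_dvd_mul_left _ ih
  | lower _ ih =>
    rw [Polynomial.eval_mul, Polynomial.eval_C, pow_succ, mul_comm] at ih
    exact (mul_dvd_mul_iff_left hF).1 ih

/-- `-1` is a root of the Bernstein–Sato polynomials of `f` if `f(0) = 0`. -/
theorem neg_one_root {f : MvPolynomial (Fin n) ℂ} (hf : f ≠ 0) (h0 : (0 : Fin n →₀ ℕ) ∉ f.support)
    (b : Polynomial ℂ) (hb : InDnForm f 1 (b.map (MvPowerSeries.C (σ := Fin n) (R := ℂ)))) :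
    b.eval (((-1 : ℚ)) : ℂ) = 0 := by
  have h := hb.dvd hf
  rw [pow_one] at h
  obtain ⟨g, hg⟩ := h
  have h1 : Polynomial.eval (-1 : MvPowerSeries (Fin n) ℂ)
      (b.map (MvPowerSeries.C (σ := Fin n) (R := ℂ))) = MvPowerSeries.C (b.eval (-1 : ℂ)) := by
    rw [Polynomial.eval_map, ← Polynomial.eval₂_hom, map_neg, map_one]
  rw [h1] at hg
  have h2 := congrArg (MvPowerSeries.coeff 0) hg
  rw [MvPowerSeries.coeff_zero_C, MvPowerSeries.coeff_zero_eq_constantCoeff_apply, map_mul,
    ← MvPowerSeries.coeff_zero_eq_constantCoeff_apply, MvPolynomial.coeff_coe,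
    MvPolynomial.notMem_support_iff.1 h0, zero_mul] at h2
  push_cast
  exact h2

end MPb07157
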