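import Pool.Agent.Lib.MP_b07157_ag.NewtFF1
import Pool.Agent.Lib.MP_b07157_ag.NewtMulL
import Pool.Agent.Lib.MP_b07157_ag.NewtRootAll
import Pool.Agent.Lib.MP_b07157_ag.NewtLocal

section

/-!
# From formal operators to polynomial operators

Faithful flatness of the completion, by Krull's intersection theorem.
-/

noncomputable section

namespace MPb07157

open MvPolynomial

variable {n : ℕ}

/-- Descent of linear relations from power series to polynomials. -/
theorem flat_descent {ι : Type} [Fintype ι] {N : ℕ} (e : Fin N → MvPolynomial (Fin n) ℂ)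
    (v : ι → Fin N → MvPolynomial (Fin n) ℂ) (a : ι → MvPowerSeries (Fin n) ℂ)
    (h : ∀ l, (e l : MvPowerSeries (Fin n) ℂ) = ∑ i, a i * (v i l : MvPowerSeries (Fin n) ℂ)) :
    ∃ g : MvPolynomial (Fin n) ℂ, constantCoeff g = 1 ∧
      ∃ q : ι → MvPolynomial (Fin n) ℂ, g • e = ∑ i, q i • v i := by
  classical
  set I : Ideal (MvPolynomial (Fin n) ℂ) := idealOfVars (Fin n) ℂ with hI
  set V : Submodule (MvPolynomial (Fin n) ℂ) (Fin N → MvPolynomial (Fin n) ℂ) :=
    Submodule.span _ (Set.range v) with hV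
  have key : ∀ t : ℕ, V.mkQ e ∈ (I ^ t • ⊤ : Submodule (MvPolynomial (Fin n) ℂ)
      ((Fin N → MvPolynomial (Fin n) ℂ) ⧸ V)) := by
    intro t
    set w : Fin N → MvPolynomial (Fin n) ℂ := e - ∑ i, (MvPowerSeries.truncTotal t (a i)) • v i with hw
    have hwl : ∀ l, w l ∈ I ^ t := by
      intro l
      rw [hI, mem_pow_idealOfVars_iff']
      intro x hx
      have h1 : coeff x (e l) = ∑ i, MvPowerSeries.coeff x (a i * (v i l : MvPowerSeries (Fin n) ℂ)) := by
        rw [← MvPolynomial.coeff_coe, h l, map_sum]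
      have h2 : w l = e l - ∑ i, (MvPowerSeries.truncTotal t (a i)) * v i l := by
        simp [hw]
      rw [h2, coeff_sub, h1, coeff_sum, sub_eq_zero]
      refine Finset.sum_congr rfl fun i _ => ?_
      rw [MvPowerSeries.coeff_mul, MvPolynomial.coeff_mul]
      refine Finset.sum_congr rfl fun p hp => ?_
      have hp' : p.1 + p.2 = x := Finset.HasAntidiagonal.mem_antidiagonal.1 hp
      have h3 : p.1.degree < t := by
        rw [← hp', map_add] at hx
        omega
      rw [MvPowerSeries.coeff_truncTotal _ h3, MvPolynomial.coeff_coe]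
    have hwt : w ∈ (I ^ t • ⊤ : Submodule (MvPolynomial (Fin n) ℂ)
        (Fin N → MvPolynomial (Fin n) ℂ)) := by
      have : w = ∑ l, w l • (Pi.single l (1 : MvPolynomial (Fin n) ℂ) :
          Fin N → MvPolynomial (Fin n) ℂ) := by
        ext l : 1
        simp [Finset.sum_apply, Pi.single_apply]
      rw [this]
      exact Submodule.sum_mem _ fun l _ => Submodule.smul_mem_smul (hwl l) Submodule.mem_top
    have h4 : V.mkQ e = V.mkQ w := by
      rw [hw, map_sub, eq_comm, sub_eq_self, Submodule.mkQ_apply, Submodule.Quotient.mk_eq_zero]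
      exact Submodule.sum_mem _ fun i _ => Submodule.smul_mem _ _ (Submodule.subset_span ⟨i, rfl⟩)
    rw [h4]
    have h5 := Submodule.mem_map_of_mem (f := V.mkQ) hwt
    rw [Submodule.map_smul''] at h5
    exact Submodule.smul_mono le_rfl le_top h5
  have hk : V.mkQ e ∈ (⨅ t : ℕ, I ^ t • ⊤ : Submodule (MvPolynomial (Fin n) ℂ)
      ((Fin N → MvPolynomial (Fin n) ℂ) ⧸ V)) := by
    rw [Submodule.mem_iInf]
    exact key
  obtain ⟨⟨r, hr⟩, hre⟩ := (Ideal.mem_iInf_smul_pow_eq_bot_iff I _).1 hk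
  have h6 : (1 - r) • e ∈ V := by
    rw [← Submodule.Quotient.mk_eq_zero, sub_smul, one_smul, Submodule.Quotient.mk_sub,
      Submodule.Quotient.mk_smul, sub_eq_zero]
    exact hre.symm
  obtain ⟨q, hq⟩ := (Submodule.mem_span_range_iff_exists_fun _).1 h6
  refine ⟨1 - r, ?_, q, hq.symm⟩
  have h7 : constantCoeff r = 0 := by
    have := (mem_pow_idealOfVars_iff' (σ := Fin n) (R := ℂ) 1 r).1 (by rw [pow_one]; exact hr) 0
      (by simp)
    exact this
  rw [map_sub, map_one, h7, sub_zero]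

/-- The coefficient of `s^j`. -/
def sC (j : ℕ) (G : MvPolynomial (Fin n) (Polynomial ℂ)) : MvPolynomial (Fin n) ℂ :=
  ∑ m ∈ G.support, monomial m ((coeff m G).coeff j)

theorem coeff_sC (j : ℕ) (G : MvPolynomial (Fin n) (Polynomial ℂ)) (m : Fin n →₀ ℕ) :
    coeff m (sC j G) = (coeff m G).coeff j := by
  classical
  unfold sC
  rw [coeff_sum]
  simp only [coeff_monomial]
  rw [Finset.sum_ite_eq']
  split_ifs with h
  · rfl
  · rw [notMem_support_iff.1 h, Polynomial.coeff_zero]

theorem coe_sC (j : ℕ) (G : MvPolynomial (Fin n) (Polynomial ℂ)) :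
    (sC j G : MvPowerSeries (Fin n) ℂ) = (toForm G).coeff j := by
  ext m
  rw [coeff_toForm, MvPolynomial.coeff_coe, coeff_sC]

theorem toForm_injective : Function.Injective (toForm (n := n)) := by
  intro G G' h
  ext m j
  rw [← coeff_toForm, ← coeff_toForm, h]

theorem InDn.exists_zero (f : MvPolynomial (Fin n) ℂ) (K : ℕ) : InDn f K 0 := by
  have h : ∀ K, ∃ g, InDn f K g := by
    intro K
    induction K with
    | zero => exact ⟨1, InDn.base⟩
    | succ K ih =>
      obtain ⟨g, hg⟩ := ih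
      exact ⟨_, hg.raise⟩
  obtain ⟨g, hg⟩ := h K
  have := InDn.mul 0 hg
  rwa [zero_mul] at this

theorem InDn.sum {f : MvPolynomial (Fin n) ℂ} {K : ℕ} {ι : Type} (s : Finset ι)
    {g : ι → MvPolynomial (Fin n) (Polynomial ℂ)} (h : ∀ i ∈ s, InDn f K (g i)) :
    InDn f K (∑ i ∈ s, g i) := by
  classical
  induction s using Finset.induction_on with
  | empty => simpa using InDn.exists_zero f K
  | insert a s ha ih =>
    rw [Finset.sum_insert ha]
    exact (h a (Finset.mem_insert_self a s)).add (ih fun i hi => h i (Finset.mem_insert_of_mem hi))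

theorem InDn.lower_pow {f : MvPolynomial (Fin n) ℂ} {x : MvPolynomial (Fin n) (Polynomial ℂ)}
    (k : ℕ) (h : InDn f (k + 1) (liftS f ^ k * x)) : InDn f 1 x := by
  induction k with
  | zero => simpa using h
  | succ k ih =>
    apply ih
    apply InDn.lower
    rwa [← mul_assoc, ← pow_succ']

/-- NWT-14. From formal operators to polynomial operators (faithful flatness of the completion). -/
theorem InDnForm.exists_poly {f : MvPolynomial (Fin n) ℂ} {b : Polynomial ℂ}
    (hb : InDnForm f 1 (b.map (MvPowerSeries.C (σ := Fin n) (R := ℂ)))) :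
    ∃ h : MvPolynomial (Fin n) ℂ, constantCoeff h = 1 ∧
      InDn f 1 (MvPolynomial.C b * liftS h) := by
  classical
  obtain ⟨K₀, hK₀⟩ := hb.exists_comb
  obtain ⟨K, hK⟩ : ∃ K, K = max K₀ 1 := ⟨_, rfl⟩
  obtain ⟨-, m, c, G, hG, hc⟩ := hK₀ K (by omega)
  obtain ⟨k, rfl⟩ : ∃ k, K = k + 1 := ⟨K - 1, by omega⟩
  rw [Nat.add_sub_cancel] at hc
  set d : ℕ := ∑ i, (c i).natDegree with hd
  set D : ℕ := b.natDegree + d + ∑ i, (toForm (G i)).natDegree with hD
  have hcd : ∀ i, (c i).natDegree < d + 1 := fun i =>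
    Nat.lt_succ_of_le (Finset.single_le_sum (f := fun i => (c i).natDegree)
      (fun _ _ => Nat.zero_le _) (Finset.mem_univ i))
  set v : Fin m × Fin (d + 1) → ℕ → MvPolynomial (Fin n) ℂ := fun ij l =>
    if (ij.2 : ℕ) ≤ l then sC (l - ij.2) (G ij.1) else 0 with hv
  have hvc : ∀ ij l, (v ij l : MvPowerSeries (Fin n) ℂ) =
      (toForm (G ij.1) * Polynomial.X ^ (ij.2 : ℕ)).coeff l := by
    intro ij l
    rw [Polynomial.coeff_mul_X_pow']
    simp only [hv]
    split_ifs with h
    · exact coe_sC _ _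
    · exact MvPolynomial.coe_zero
  have hvD : ∀ ij l, D < l → v ij l = 0 := by
    intro ij l hl
    have h1 : (v ij l : MvPowerSeries (Fin n) ℂ) = 0 := by
      rw [hvc]
      apply Polynomial.coeff_eq_zero_of_natDegree_lt
      refine lt_of_le_of_lt Polynomial.natDegree_mul_le ?_
      rw [Polynomial.natDegree_X_pow]
      have h2 : (toForm (G ij.1)).natDegree ≤ ∑ i, (toForm (G i)).natDegree :=
        Finset.single_le_sum (f := fun i => (toForm (G i)).natDegree)
          (fun _ _ => Nat.zero_le _) (Finset.mem_univ ij.1)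
      have h3 := ij.2.2
      omega
    exact MvPolynomial.coe_injective _ _ (by simpa using h1)
  set e : ℕ → MvPolynomial (Fin n) ℂ := fun l => f ^ k * C (b.coeff l) with he
  have hec : ∀ l, (e l : MvPowerSeries (Fin n) ℂ) =
      (Polynomial.C (f : MvPowerSeries (Fin n) ℂ) ^ k *
        b.map (MvPowerSeries.C (σ := Fin n) (R := ℂ))).coeff l := by
    intro l
    rw [← Polynomial.C_pow, Polynomial.coeff_C_mul, Polynomial.coeff_map]
    simp [he]
  have hsum : ∀ l, (e l : MvPowerSeries (Fin n) ℂ) =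
      ∑ ij : Fin m × Fin (d + 1), (c ij.1).coeff ij.2 * (v ij l : MvPowerSeries (Fin n) ℂ) := by
    intro l
    rw [hec, hc, Polynomial.finsetSum_coeff, Fintype.sum_prod_type]
    refine Finset.sum_congr rfl fun i _ => ?_
    have h1 : c i * toForm (G i) = ∑ j : Fin (d + 1),
        Polynomial.C ((c i).coeff j) * (toForm (G i) * Polynomial.X ^ (j : ℕ)) := by
      conv_lhs => rw [Polynomial.as_sum_range_C_mul_X_pow' (c i) (hcd i)]
      rw [Finset.sum_mul, Finset.sum_range]
      refine Finset.sum_congr rfl fun j _ => by ring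
    rw [h1, Polynomial.finsetSum_coeff]
    refine Finset.sum_congr rfl fun j _ => ?_
    rw [Polynomial.coeff_C_mul, hvc]
  obtain ⟨g, hg1, q, hq⟩ := flat_descent (N := D + 1) (fun l => e l) (fun ij l => v ij l)
    (fun ij => (c ij.1).coeff ij.2) (fun l => hsum l)
  refine ⟨g, hg1, ?_⟩
  have hq' : ∀ l, g * e l = ∑ ij, q ij * v ij l := by
    intro l
    by_cases hl : l < D + 1
    · have := congrFun hq ⟨l, hl⟩
      simpa [Finset.sum_apply] using this
    · have h1 : e l = 0 := by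
        simp only [he]
        rw [Polynomial.coeff_eq_zero_of_natDegree_lt (by omega), map_zero, mul_zero]
      rw [h1, mul_zero]
      exact (Finset.sum_eq_zero fun ij _ => by rw [hvD ij l (by omega), mul_zero]).symm
  have hfin : liftS f ^ k * (C b * liftS g) = ∑ i : Fin m, (∑ j : Fin (d + 1),
      liftS (q (i, j)) * C (Polynomial.X ^ (j : ℕ))) * G i := by
    apply toForm_injective
    rw [map_mul, map_mul, map_pow, toForm_liftS, toForm_liftS, toForm_C, map_sum]
    ext1 l
    have h1 : (Polynomial.C (f : MvPowerSeries (Fin n) ℂ) ^ k *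
        (b.map (MvPowerSeries.C (σ := Fin n) (R := ℂ)) *
          Polynomial.C (g : MvPowerSeries (Fin n) ℂ))).coeff l =
        ((g * e l : MvPolynomial (Fin n) ℂ) : MvPowerSeries (Fin n) ℂ) := by
      rw [← mul_assoc, Polynomial.coeff_mul_C, ← hec, mul_comm]
      exact (MvPolynomial.coe_mul _ _).symm
    rw [h1, hq', Polynomial.finsetSum_coeff, Fintype.sum_prod_type]
    rw [← MvPolynomial.coeToMvPowerSeries.ringHom_apply, map_sum]
    refine Finset.sum_congr rfl fun i _ => ?_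
    rw [map_sum, map_mul, map_sum, Finset.sum_mul, Polynomial.finsetSum_coeff]
    refine Finset.sum_congr rfl fun j _ => ?_
    rw [MvPolynomial.coeToMvPowerSeries.ringHom_apply, MvPolynomial.coe_mul, map_mul, toForm_liftS,
      toForm_C, hvc, Polynomial.map_pow, Polynomial.map_X, mul_assoc, Polynomial.coeff_C_mul,
      mul_comm (Polynomial.X ^ (j : ℕ))]
  apply InDn.lower_pow k
  rw [hfin]
  exact InDn.sum _ fun i _ => InDn.mul _ (hG i)

end MPb07157
end
end

section

/-!
# Roots of local Bernstein–Sato polynomials from simplices in compact faces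
-/

noncomputable section

namespace MPb07157

open MvPolynomial Finset

variable {n : ℕ} {f : MvPolynomial (Fin n) ℂ}

/-- The choice of the constants. -/
theorem exists_constants (K c₀ M N Nω : ℕ) (C₁ Q : ℝ) (hC0 : 0 ≤ C₁) (hQ1 : 1 ≤ Q) (hN : 0 < N)
    (hNω : 0 < Nω) : ∃ t η B : ℝ, 0 < t ∧ t ≤ 1 / 8 ∧ t * (K * C₁) ≤ 1 / 8 ∧ 0 < η ∧ η < 1 ∧
      η * (M * K) + η ^ 2 * (K * c₀ + 1) ≤ B ∧ B ≤ 1 / 8 ∧ B < t / Nω ∧
      B * (Q + 1) < 7 / (8 * N) ∧ η * (K * c₀) < 1 := by
  have hM0 : (0 : ℝ) ≤ M := by positivity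
  have hK0 : (0 : ℝ) ≤ K := by positivity
  have hc0 : (0 : ℝ) ≤ c₀ := by positivity
  have hN1 : (1 : ℝ) ≤ N := by exact_mod_cast hN
  have hNω1 : (1 : ℝ) ≤ Nω := by exact_mod_cast hNω
  have hKC : 0 ≤ (K : ℝ) * C₁ := mul_nonneg hK0 hC0
  have hMK : 0 ≤ (M : ℝ) * K := mul_nonneg hM0 hK0
  have hKc : 0 ≤ (K : ℝ) * c₀ := mul_nonneg hK0 hc0
  obtain ⟨S, hS⟩ : ∃ S : ℝ, S = M * K + K * c₀ + 1 := ⟨_, rfl⟩
  have hS1 : 1 ≤ S := by rw [hS]; linarith
  obtain ⟨t, ht⟩ : ∃ t : ℝ, t = 1 / (8 * ((K : ℝ) * C₁ + 1)) := ⟨_, rfl⟩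
  have ht0 : 0 < t := by rw [ht]; positivity
  have htd : t * (8 * ((K : ℝ) * C₁ + 1)) = 1 := by
    rw [ht]; field_simp
  have ht8 : t ≤ 1 / 8 := by nlinarith
  have htK : t * (K * C₁) ≤ 1 / 8 := by nlinarith
  obtain ⟨D, hD⟩ : ∃ D : ℝ, D = 8 * Q * N * Nω := ⟨_, rfl⟩
  have hD1 : 8 ≤ D := by
    rw [hD]
    have h1 : 1 ≤ Q * N := by nlinarith
    have h2 : 1 ≤ Q * N * Nω := by nlinarith
    linarith
  obtain ⟨B, hB⟩ : ∃ B : ℝ, B = t / D := ⟨_, rfl⟩
  have hB0 : 0 < B := by rw [hB]; positivity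
  have hBD : B * D = t := by rw [hB]; field_simp
  have hB8 : B * 8 ≤ t := by rw [← hBD]; exact mul_le_mul_of_nonneg_left hD1 hB0.le
  obtain ⟨η, hη⟩ : ∃ η : ℝ, η = B / S := ⟨_, rfl⟩
  have hη0 : 0 < η := by rw [hη]; positivity
  have hηS : η * S = B := by rw [hη]; field_simp
  have hηB : η ≤ B := by rw [← hηS]; nlinarith
  have hη1 : η < 1 := by linarith
  have hη2 : η ^ 2 ≤ η := by nlinarith
  refine ⟨t, η, B, ht0, ht8, htK, hη0, hη1, ?_, by linarith, ?_, ?_, ?_⟩
  · have h1 : η ^ 2 * (K * c₀ + 1) ≤ η * (K * c₀ + 1) :=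
      mul_le_mul_of_nonneg_right hη2 (by linarith)
    have h2 : η * (M * K) + η * (K * c₀ + 1) = B := by rw [← hηS, hS]; ring
    linarith
  · rw [lt_div_iff₀ (by linarith)]
    have h1 : (Nω : ℝ) * 8 ≤ D := by
      rw [hD]
      have h2 : 1 ≤ Q * N := by nlinarith
      nlinarith
    have h2 : B * (Nω * 8) ≤ t := by rw [← hBD]; exact mul_le_mul_of_nonneg_left h1 hB0.le
    have h3 : 0 < B * Nω := by positivity
    linarith
  · rw [lt_div_iff₀ (by linarith)]
    have h1 : Q * N * 8 ≤ D := by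
      rw [hD]
      have h2 : 0 ≤ Q * N := by positivity
      nlinarith
    have h2 : B * (Q * N * 8) ≤ t := by rw [← hBD]; exact mul_le_mul_of_nonneg_left h1 hB0.le
    have h3 : B * (Q + 1) * (8 * N) ≤ B * (Q * N * 8) * 2 := by
      have h4 : (Q + 1) * (8 * N) ≤ Q * N * 8 * 2 := by
        have h5 : (Q + 1) * (8 * (N : ℝ)) ≤ (2 * Q) * (8 * N) :=
          mul_le_mul_of_nonneg_right (by linarith) (by linarith)
        calc (Q + 1) * (8 * (N : ℝ)) ≤ (2 * Q) * (8 * N) := h5
          _ = Q * N * 8 * 2 := by ring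
      calc B * (Q + 1) * (8 * N) = B * ((Q + 1) * (8 * N)) := by ring
        _ ≤ B * (Q * N * 8 * 2) := mul_le_mul_of_nonneg_left h4 hB0.le
        _ = B * (Q * N * 8) * 2 := by ring
    linarith
  · have h1 : η * (K * c₀) ≤ η * S := by
      refine mul_le_mul_of_nonneg_left ?_ hη0.le
      rw [hS]; linarith
    rw [hηS] at h1
    linarith

set_option maxHeartbeats 4000000 in
/-- **Local root theorem.** -/
theorem root_simplex_form (hf : f ≠ 0) (halg : AlgebraicIndependent ℚ (cf f)) {w ω : Fin n → ℕ}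
    {N Nω : ℕ} (hN : 0 < N) (hNω : 0 < Nω) (hmin : ∀ v ∈ f.support, N ≤ wt w v) (hω : ∀ j, 0 < ω j)
    (hωmin : ∀ v ∈ f.support, Nω ≤ wt ω v) (ρ : Finset (Sf f))
    (hρ : ∀ v ∈ ρ, wt w v.1 = N) (hρω : ∀ v ∈ ρ, wt ω v.1 = Nω)
    (linJ : ∀ g : Sf f → ℚ, (∀ v, v ∉ ρ → g v = 0) →
      (∀ j, 0 < w j → ∑ v, g v * ((v.1 j : ℕ) : ℚ) = 0) → g = 0)
    (spanJ : ∀ j, 0 < w j → ∃ g : Sf f → ℚ, (∀ v, v ∉ ρ → g v = 0) ∧
      ∀ i, 0 < w i → ∑ v, g v * ((v.1 i : ℕ) : ℚ) = if i = j then 1 else 0)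
    (γ : Sf f → ℚ) (hγ0 : ∀ v, v ∉ ρ → γ v = 0)
    (hγ : ∀ j, 0 < w j → ∑ v, γ v * ((v.1 j : ℕ) : ℚ) = 1)
    (hint : ∀ j, 0 < w j → ∃ v ∈ ρ, (∀ k : ℕ, γ v ≠ k + 1) ∧ 0 < v.1 j)
    (b : Polynomial ℂ) (hb : InDnForm f 1 (b.map (MvPowerSeries.C (σ := Fin n) (R := ℂ)))) :
    b.eval ((-(∑ v, γ v) : ℚ) : ℂ) = 0 := by
  classical
  obtain ⟨p, hp, hpb⟩ := hb.exists_poly
  set σ : Finset (Sf f) := ρ.filter fun v => ∀ k : ℕ, γ v ≠ k + 1 with hσ
  have hσρ : σ ⊆ ρ := Finset.filter_subset _ _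
  have hmemR : ∀ v, v ∈ ρ \ σ ↔ ∃ k : ℕ, γ v = k + 1 := by
    intro v
    rw [Finset.mem_sdiff, hσ, Finset.mem_filter]
    constructor
    · rintro ⟨h1, h2⟩
      by_contra h3
      push Not at h3
      exact h2 ⟨h1, h3⟩
    · rintro ⟨k, hk⟩
      refine ⟨?_, fun h => h.2 k hk⟩
      by_contra h
      rw [hγ0 v h] at hk
      have : (0 : ℚ) ≤ k := by positivity
      linarith
  rw [← Finset.sum_neg_distrib]
  refine rootML hf halg (fun v => -γ v) (ρ \ σ).card (fun K => ?_) b p hp hpb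
  -- constants
  obtain ⟨α, hαρ, hα1, hαgen⟩ := exists_generic_weights ρ K
  choose G hG0 hG using spanJ
  obtain ⟨M, hM⟩ : ∃ M : ℕ, M = ∑ v, α v := ⟨_, rfl⟩
  obtain ⟨c₀, hc₀⟩ : ∃ c : ℕ, c = Fintype.card (Sf f) := ⟨_, rfl⟩
  obtain ⟨C₁, hC₁⟩ : ∃ C : ℝ, C = ∑ v : Sf f, ∑ j, ((v.1 j : ℕ) : ℝ) * ω j := ⟨_, rfl⟩
  obtain ⟨Q, hQ⟩ : ∃ Q : ℝ, Q = 1 + ∑ j : {j // 0 < w j}, ∑ v : Sf f, |((G j.1 j.2 v : ℚ) : ℝ)| :=
    ⟨_, rfl⟩
  have hC0 : 0 ≤ C₁ := by rw [hC₁]; positivity
  have hQ1 : 1 ≤ Q := by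
    rw [hQ]
    have : 0 ≤ ∑ j : {j // 0 < w j}, ∑ v : Sf f, |((G j.1 j.2 v : ℚ) : ℝ)| := by positivity
    linarith
  obtain ⟨t, η, B, ht0, ht8, htK, hη0, hη1, hηB, hB8, hBω, hBQ, hηK⟩ :=
    exists_constants K c₀ M N Nω C₁ Q hC0 hQ1 hN hNω
  have hM0 : (0 : ℝ) ≤ M := by positivity
  have hK0 : (0 : ℝ) ≤ K := by positivity
  have hc0 : (0 : ℝ) ≤ c₀ := by positivity
  have hNR : (0 : ℝ) < N := by exact_mod_cast hN
  have hNωR : (0 : ℝ) < Nω := by exact_mod_cast hNω
  -- the reference point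
  let ζ : Fin n → ℝ := fun j => if 0 < w j then 0 else t * ω j / Nω
  let y₀ : {j // 0 < w j} → ℝ := fun j => (1 - t) * (w j.1 : ℝ) / N + t * (ω j.1 : ℝ) / Nω
  let V : ({j // 0 < w j} → ℝ) → Sf f → ℝ := fun y v =>
    ∑ j : {j // 0 < w j}, ((v.1 j.1 : ℕ) : ℝ) * y j
  let c : Sf f → ℝ := fun v => 1 - η * α v - ∑ j, ((v.1 j : ℕ) : ℝ) * ζ j
  have hζ0 : ∀ j, 0 ≤ ζ j := by
    intro j
    simp only [ζ]
    split_ifs
    · exact le_rfl
    · positivity
  have hVζ : ∀ v : Sf f, V y₀ v + ∑ j, ((v.1 j : ℕ) : ℝ) * ζ j =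
      (1 - t) * (wt w v.1 : ℝ) / N + t * (wt ω v.1 : ℝ) / Nω := by
    intro v
    have h1 : V y₀ v = ∑ j, (if 0 < w j then ((v.1 j : ℕ) : ℝ) *
        ((1 - t) * (w j : ℝ) / N + t * (ω j : ℝ) / Nω) else 0) := by
      rw [← Finset.sum_filter, ← Finset.sum_subtype_eq_sum_filter]
      exact Finset.sum_congr (by ext; simp) fun _ _ => rfl
    rw [h1, ← Finset.sum_add_distrib]
    unfold wt
    push_cast
    rw [Finset.mul_sum, Finset.sum_div, Finset.mul_sum, Finset.sum_div, ← Finset.sum_add_distrib]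
    refine Finset.sum_congr rfl fun j _ => ?_
    simp only [ζ]
    split_ifs with hj
    · ring
    · have : w j = 0 := by omega
      rw [this]
      push_cast
      ring
  have hy₀ : ∀ j, 0 < y₀ j := by
    intro j
    have h1 : (0 : ℝ) < w j.1 := by exact_mod_cast j.2
    have h2 : (0 : ℝ) < 1 - t := by linarith
    have h3 : 0 < (1 - t) * (w j.1 : ℝ) / N := by positivity
    have h4 : 0 ≤ t * (ω j.1 : ℝ) / Nω := by positivity
    simp only [y₀]
    linarith
  have hcle : ∀ v, c v ≤ 1 := by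
    intro v
    have h1 : 0 ≤ η * α v := by positivity
    have h2 : 0 ≤ ∑ j, ((v.1 j : ℕ) : ℝ) * ζ j :=
      Finset.sum_nonneg fun j _ => mul_nonneg (by positivity) (hζ0 j)
    simp only [c]
    linarith
  have hcρ : ∀ v ∈ ρ, V y₀ v = c v := by
    intro v hv
    have h1 := hVζ v
    rw [hρ v hv, hρω v hv] at h1
    have h2 : (1 - t) * (N : ℝ) / N + t * (Nω : ℝ) / Nω = 1 := by
      field_simp
      ring
    rw [h2] at h1
    simp only [c]
    rw [hαρ v hv]
    push_cast
    linarith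
  have hcout : ∀ v, v ∉ ρ → c v + η ^ 2 < V y₀ v := by
    intro v hv
    have h1 := hVζ v
    have h2 : 1 ≤ (wt w v.1 : ℝ) / N := by
      rw [le_div_iff₀ hNR, one_mul]; exact_mod_cast hmin v.1 v.2
    have h3 : 1 ≤ (wt ω v.1 : ℝ) / Nω := by
      rw [le_div_iff₀ hNωR, one_mul]; exact_mod_cast hωmin v.1 v.2
    have h4 : (1 - t) * 1 ≤ (1 - t) * ((wt w v.1 : ℝ) / N) :=
      mul_le_mul_of_nonneg_left h2 (by linarith)
    have h5 : t * 1 ≤ t * ((wt ω v.1 : ℝ) / Nω) := mul_le_mul_of_nonneg_left h3 ht0.le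
    rw [mul_div_assoc, mul_div_assoc] at h1
    have h6 : (1 : ℝ) ≤ α v := by exact_mod_cast hα1 v hv
    have h7 : η ^ 2 < η := by nlinarith
    have h8 : η ≤ η * α v := by nlinarith
    simp only [c]
    linarith
  obtain ⟨Λ, hΛ0, hΛ⟩ := exists_functional (fun (v : Sf f) (j : {j // 0 < w j}) => v.1 j.1) ρ σ hσρ
    (fun j => by
      obtain ⟨v, hv, h1, h2⟩ := hint j.1 j.2
      exact ⟨v, Finset.mem_filter.2 ⟨hv, h1⟩, h2⟩)
    y₀ hy₀ c hcle (η ^ 2) (by positivity) (by nlinarith) hcρ hcout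
  -- termwise bounds
  have hterm : ∀ (δ : Sf f → ℤ) (y : {j // 0 < w j} → ℝ), (∀ v, |δ v| ≤ K) →
      (∀ v ∈ negSet γ δ ∪ σ, |V y v - c v| ≤ η ^ 2) → (∀ v : Sf f, c v - η ^ 2 ≤ V y v) →
      ∀ v, -(η ^ 2 * K) ≤ (δ v : ℝ) * (V y v - c v) := by
    intro δ y hδK h1 h2 v
    have hδv : |(δ v : ℝ)| ≤ K := by exact_mod_cast hδK v
    have hη2 : 0 ≤ η ^ 2 := by positivity
    by_cases hv : v ∈ negSet γ δ ∪ σ
    · have h3 := h1 v hv
      have h4 : |(δ v : ℝ) * (V y v - c v)| ≤ K * η ^ 2 := by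
        rw [abs_mul]
        exact mul_le_mul hδv h3 (abs_nonneg _) hK0
      have h5 := (abs_le.1 h4).1
      linarith
    · rw [Finset.mem_union, not_or] at hv
      have h3 : 0 ≤ δ v := by
        by_cases hvρ : v ∈ ρ
        · have h4 : v ∈ ρ \ σ := Finset.mem_sdiff.2 ⟨hvρ, hv.2⟩
          obtain ⟨k, hk⟩ := (hmemR v).1 h4
          by_contra h5
          apply hv.1
          rw [mem_negSet]
          exact ⟨(k : ℤ) + 1, by rw [hk]; push_cast; rfl, by omega⟩
        · by_contra h5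
          apply hv.1
          rw [mem_negSet]
          exact ⟨0, by rw [hγ0 v hvρ]; simp, by omega⟩
      have h4 : (0 : ℝ) ≤ δ v := by exact_mod_cast h3
      have h5 := h2 v
      have h6 := (abs_le.1 hδv).2
      have h7 : (δ v : ℝ) * (-(η ^ 2)) ≤ δ v * (V y v - c v) :=
        mul_le_mul_of_nonneg_left (by linarith) h4
      have h8 : (δ v : ℝ) * η ^ 2 ≤ K * η ^ 2 := mul_le_mul_of_nonneg_right h6 hη2
      linarith
  have htotal : ∀ (δ : Sf f → ℤ) (y : {j // 0 < w j} → ℝ),
      ∑ v, (δ v : ℝ) * (V y v - c v) =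
        ∑ j : {j // 0 < w j}, ((∑ v, δ v * ((v.1 j.1 : ℕ) : ℤ) : ℤ) : ℝ) * y j -
        ((∑ v, δ v : ℤ) : ℝ) + η * ((∑ v, (α v : ℤ) * δ v : ℤ) : ℝ) +
        ∑ j, ((∑ v, δ v * ((v.1 j : ℕ) : ℤ) : ℤ) : ℝ) * ζ j := by
    intro δ y
    have e1 : ∑ j : {j // 0 < w j}, ((∑ v, δ v * ((v.1 j.1 : ℕ) : ℤ) : ℤ) : ℝ) * y j =
        ∑ v, (δ v : ℝ) * V y v := by
      simp only [V]
      push_cast
      simp only [Finset.sum_mul, Finset.mul_sum]
      rw [Finset.sum_comm]
      exact Finset.sum_congr rfl fun v _ => Finset.sum_congr rfl fun j _ => by ring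
    have e2 : ∑ j, ((∑ v, δ v * ((v.1 j : ℕ) : ℤ) : ℤ) : ℝ) * ζ j =
        ∑ v, (δ v : ℝ) * ∑ j, ((v.1 j : ℕ) : ℝ) * ζ j := by
      push_cast
      simp only [Finset.sum_mul, Finset.mul_sum]
      rw [Finset.sum_comm]
      exact Finset.sum_congr rfl fun v _ => Finset.sum_congr rfl fun j _ => by ring
    rw [e1, e2]
    push_cast
    rw [Finset.mul_sum, ← Finset.sum_sub_distrib, ← Finset.sum_add_distrib,
      ← Finset.sum_add_distrib]
    refine Finset.sum_congr rfl fun v _ => ?_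
    simp only [c]
    ring
  have hαδ : ∀ δ : Sf f → ℤ, (∀ v, |δ v| ≤ K) →
      |((∑ v, (α v : ℤ) * δ v : ℤ) : ℝ)| ≤ M * K := by
    intro δ hδK
    rw [← Int.cast_abs]
    have h1 : |∑ v, (α v : ℤ) * δ v| ≤ M * K := by
      refine (Finset.abs_sum_le_sum_abs _ _).trans ?_
      rw [hM]
      push_cast
      rw [Finset.sum_mul]
      refine Finset.sum_le_sum fun v _ => ?_
      rw [abs_mul, Nat.abs_cast]
      exact mul_le_mul_of_nonneg_left (hδK v) (by positivity)
    exact_mod_cast h1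
  have hlow : ∀ (δ : Sf f → ℤ) (y : {j // 0 < w j} → ℝ), (∀ v, |δ v| ≤ K) →
      (∀ v ∈ negSet γ δ ∪ σ, |V y v - c v| ≤ η ^ 2) → (∀ v : Sf f, c v - η ^ 2 ≤ V y v) →
      -(η ^ 2 * (K * c₀)) ≤ ∑ v, (δ v : ℝ) * (V y v - c v) := by
    intro δ y hδK h1 h2
    have h3 := Finset.sum_le_sum fun v (_ : v ∈ (univ : Finset (Sf f))) =>
      hterm δ y hδK h1 h2 v
    rw [Finset.sum_const, Finset.card_univ, ← hc₀, nsmul_eq_mul] at h3
    linarith
  set E : ℕ := K + ∑ v, ⌈|γ v|⌉₊ with hE
  have hEγ : ∀ v, ∀ g : ℤ, γ v = g → g ≤ E := by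
    intro v g hg
    have h1 : (g : ℚ) ≤ ⌈|γ v|⌉₊ := by
      rw [← hg]
      exact (le_abs_self _).trans (Nat.le_ceil _)
    have h2 : g ≤ (⌈|γ v|⌉₊ : ℤ) := by exact_mod_cast h1
    have h3 : ⌈|γ v|⌉₊ ≤ ∑ v, ⌈|γ v|⌉₊ :=
      Finset.single_le_sum (f := fun v => ⌈|γ v|⌉₊) (fun _ _ => Nat.zero_le _) (Finset.mem_univ v)
    omega
  have hXhom : ∀ U : Finset (Sf f), (∏ v ∈ U, (X v : MvPolynomial (Sf f) ℚ)).IsHomogeneous U.card := by
    intro U
    have := IsHomogeneous.prod U (fun v => (X v : MvPolynomial (Sf f) ℚ)) (fun _ => 1)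
      fun v _ => isHomogeneous_X _ v
    simpa using this
  have hLhom : ∀ P : Finset {j // 0 < w j}, (∏ j ∈ P, ∑ v : Sf f,
      (C ((v.1 j.1 : ℕ) : ℚ) * X v : MvPolynomial (Sf f) ℚ)).IsHomogeneous P.card := by
    intro P
    have := IsHomogeneous.prod P (fun j => ∑ v : Sf f,
      (C ((v.1 j.1 : ℕ) : ℚ) * X v : MvPolynomial (Sf f) ℚ)) (fun _ => 1)
      fun j _ => IsHomogeneous.sum _ _ _ fun v _ => isHomogeneous_C_mul_X _ v
    simpa using this
  have hB0 : 0 < B := lt_of_lt_of_le (by positivity) hηB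
  refine ⟨E, α, Λ ∘ₗ (homogeneousComponent (ρ \ σ).card), by omega, ?_, ?_, ?_, ?_⟩
  · intro g
    rw [LinearMap.comp_apply, mul_comm, homComp_high _ ((ρ \ σ).card + 1) (by omega) _ _ ?_, map_zero]
    have := (IsHomogeneous.sum (univ : Finset (Sf f)) (fun v => (X v : MvPolynomial (Sf f) ℚ)) 1
      fun v _ => isHomogeneous_X _ v).pow ((ρ \ σ).card + 1)
    simpa using this
  · obtain ⟨h, hh, hh0⟩ := PM_zero_eq hEγ (ρ \ σ) hmemR
    rw [LinearMap.comp_apply, hh, homComp_low _ _ _ (hXhom _), ← smul_eq_C_mul, map_smul]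
    exact smul_ne_zero hh0 hΛ0
  · intro δ hδ0 hδK hδs μ hδj
    by_cases hpos : μ = 0 ∧ 0 < ∑ v, (α v : ℤ) * δ v
    · exact Or.inl hpos
    right
    intro g
    obtain ⟨h, hh⟩ := negSet_dvd_PM hEγ δ
    have hkill := hΛ (negSet γ δ) ∅ ?_
    · rw [LinearMap.comp_apply, hh, mul_left_comm, mul_comm]
      refine homComp_mul _ _ _ _ (hXhom _) Λ fun g' => ?_
      have := hkill g'
      simpa using this
    · intro y hy0 _ h1 h2
      have h3 := hlow δ y hδK h1 h2
      have h3t := htotal δ y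
      rw [hδs, Int.cast_zero, sub_zero] at h3t
      have h4 : ∑ j : {j // 0 < w j}, ((∑ v, δ v * ((v.1 j.1 : ℕ) : ℤ) : ℤ) : ℝ) * y j =
          -∑ j : {j // 0 < w j}, ((μ j.1 : ℕ) : ℝ) * y j := by
        rw [← Finset.sum_neg_distrib]
        refine Finset.sum_congr rfl fun j _ => ?_
        rw [hδj]
        push_cast
        ring
      have h5 : ∑ j, ((∑ v, δ v * ((v.1 j : ℕ) : ℤ) : ℤ) : ℝ) * ζ j =
          -∑ j, ((μ j : ℕ) : ℝ) * ζ j := by
        rw [← Finset.sum_neg_distrib]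
        refine Finset.sum_congr rfl fun j _ => ?_
        rw [hδj]
        push_cast
        ring
      rw [h4, h5] at h3t
      have hαb := abs_le.1 (hαδ δ hδK)
      by_cases hμ : μ = 0
      · -- the usual argument
        subst hμ
        simp only [Finsupp.coe_zero, Pi.zero_apply, Nat.cast_zero, zero_mul,
          Finset.sum_const_zero, neg_zero, zero_add, add_zero] at h3t
        have h6 : (∑ v, (α v : ℤ) * δ v) ≠ 0 := by
          intro h6
          have h7 := hαgen δ hδK h6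
          apply hδ0
          have h8 := linJ (fun v => (δ v : ℚ)) (fun v hv => by
            rw [h7 v hv, Int.cast_zero]) (fun j _ => by
            have := hδj j
            have h9 : ((∑ v, δ v * ((v.1 j : ℕ) : ℤ) : ℤ) : ℚ) = 0 := by rw [this]; simp
            push_cast at h9
            exact h9)
          funext v
          have := congrFun h8 v
          simpa using this
        have h7 : ∑ v, (α v : ℤ) * δ v ≤ -1 := by
          by_contra h8
          exact hpos ⟨rfl, by omega⟩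
        have h8 : ((∑ v, (α v : ℤ) * δ v : ℤ) : ℝ) ≤ -1 := by exact_mod_cast h7
        have h9 : η * ((∑ v, (α v : ℤ) * δ v : ℤ) : ℝ) ≤ η * (-1) :=
          mul_le_mul_of_nonneg_left h8 hη0.le
        have h10 : η ^ 2 * (K * c₀) = η * (η * (K * c₀)) := by ring
        have h11 : η * (η * (K * c₀)) < η * 1 := mul_lt_mul_of_pos_left hηK hη0
        rw [h3t] at h3
        linarith
      · -- a nonzero `μ`
        have hαη : η * ((∑ v, (α v : ℤ) * δ v : ℤ) : ℝ) ≤ η * (M * K) :=
          mul_le_mul_of_nonneg_left hαb.2 hη0.le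
        have hs1 : 0 ≤ ∑ j : {j // 0 < w j}, ((μ j.1 : ℕ) : ℝ) * y j :=
          Finset.sum_nonneg fun j _ => mul_nonneg (by positivity) (hy0 j)
        have hs2 : 0 ≤ ∑ j, ((μ j : ℕ) : ℝ) * ζ j :=
          Finset.sum_nonneg fun j _ => mul_nonneg (by positivity) (hζ0 j)
        have hη20 : 0 < η ^ 2 := by positivity
        have hsB : ∑ j : {j // 0 < w j}, ((μ j.1 : ℕ) : ℝ) * y j + ∑ j, ((μ j : ℕ) : ℝ) * ζ j ≤
            B := by linarith
        obtain ⟨j, hj⟩ : ∃ j, μ j ≠ 0 := by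
          by_contra h6
          push Not at h6
          exact hμ (Finsupp.ext h6)
        have hj1 : (1 : ℝ) ≤ μ j := by exact_mod_cast Nat.one_le_iff_ne_zero.2 hj
        by_cases hwj : 0 < w j
        · -- the coordinate `y j` is small
          have hyj : y ⟨j, hwj⟩ ≤ B := by
            have h6 : ((μ j : ℕ) : ℝ) * y ⟨j, hwj⟩ ≤
                ∑ j : {j // 0 < w j}, ((μ j.1 : ℕ) : ℝ) * y j :=
              Finset.single_le_sum (f := fun j : {j // 0 < w j} => ((μ j.1 : ℕ) : ℝ) * y j)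
                (fun j _ => mul_nonneg (by positivity) (hy0 j)) (Finset.mem_univ (⟨j, hwj⟩ : {j // 0 < w j}))
            have h7 : 1 * y ⟨j, hwj⟩ ≤ ((μ j : ℕ) : ℝ) * y ⟨j, hwj⟩ :=
              mul_le_mul_of_nonneg_right hj1 (hy0 _)
            linarith
          -- all `v ∈ ρ` are almost tight
          have htight : ∀ v ∈ ρ, |V y v - c v| ≤ B := by
            intro v hv
            by_cases hvU : v ∈ negSet γ δ ∪ σ
            · have h6 := h1 v hvU
              have h7 : 0 ≤ η * (M * K) := by positivity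
              have h8 : 0 ≤ η ^ 2 * (K * c₀) := by positivity
              linarith
            · have hvU' := hvU
              rw [Finset.mem_union, not_or] at hvU'
              obtain ⟨k, hk⟩ := (hmemR v).1 (Finset.mem_sdiff.2 ⟨hv, hvU'.2⟩)
              have h6 : 1 ≤ δ v := by
                by_contra h7
                apply hvU'.1
                rw [mem_negSet]
                exact ⟨(k : ℤ) + 1, by rw [hk]; push_cast; rfl, by omega⟩
              have h6' : (1 : ℝ) ≤ δ v := by exact_mod_cast h6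
              have h7 : (δ v : ℝ) * (V y v - c v) ≤ B := by
                have h8 := Finset.add_sum_erase univ (fun v => (δ v : ℝ) * (V y v - c v))
                  (Finset.mem_univ v)
                have h9 : -(η ^ 2 * (K * c₀)) ≤
                    ∑ u ∈ univ.erase v, (δ u : ℝ) * (V y u - c u) := by
                  have h10 := Finset.sum_le_sum fun u (_ : u ∈ univ.erase v) =>
                    hterm δ y hδK h1 h2 u
                  rw [Finset.sum_const, Finset.card_erase_of_mem (Finset.mem_univ v),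
                    Finset.card_univ, ← hc₀, nsmul_eq_mul] at h10
                  have h11 : ((c₀ - 1 : ℕ) : ℝ) ≤ c₀ := by exact_mod_cast Nat.sub_le _ _
                  have h12 : ((c₀ - 1 : ℕ) : ℝ) * (η ^ 2 * K) ≤ c₀ * (η ^ 2 * K) :=
                    mul_le_mul_of_nonneg_right h11 (by positivity)
                  linarith
                beta_reduce at h8
                rw [h3t] at h8
                linarith
              have h8 := h2 v
              rw [abs_le]
              constructor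
              · have h9 : 0 ≤ η * (M * K) := by positivity
                have h10 : 0 ≤ η ^ 2 * (K * c₀) := by positivity
                linarith
              · rcases le_or_gt 0 (V y v - c v) with h9 | h9
                · have : 1 * (V y v - c v) ≤ (δ v : ℝ) * (V y v - c v) :=
                    mul_le_mul_of_nonneg_right h6' h9
                  linarith
                · linarith
          -- so `y` is close to `y₀`
          have hdiff : y ⟨j, hwj⟩ - y₀ ⟨j, hwj⟩ =
              ∑ v, ((G j hwj v : ℚ) : ℝ) * (V y v - V y₀ v) := by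
            have e1 : ∀ v : Sf f, V y v - V y₀ v =
                ∑ i : {j // 0 < w j}, ((v.1 i.1 : ℕ) : ℝ) * (y i - y₀ i) := by
              intro v
              simp only [V]
              rw [← Finset.sum_sub_distrib]
              exact Finset.sum_congr rfl fun i _ => by ring
            have e2 : ∑ v, ((G j hwj v : ℚ) : ℝ) * (V y v - V y₀ v) =
                ∑ i : {j // 0 < w j}, ((∑ v, G j hwj v * ((v.1 i.1 : ℕ) : ℚ) : ℚ) : ℝ) *
                  (y i - y₀ i) := by
              simp only [e1]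
              push_cast
              simp only [Finset.mul_sum, Finset.sum_mul]
              rw [Finset.sum_comm]
              exact Finset.sum_congr rfl fun i _ => Finset.sum_congr rfl fun v _ => by ring
            rw [e2, Finset.sum_eq_single (⟨j, hwj⟩ : {j // 0 < w j})]
            · rw [hG j hwj j hwj, if_pos rfl]
              simp
            · intro i _ hi
              rw [hG j hwj i.1 i.2, if_neg (fun h => hi (Subtype.ext h))]
              simp
            · intro h
              exact absurd (Finset.mem_univ _) h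
          have hclose : |y ⟨j, hwj⟩ - y₀ ⟨j, hwj⟩| ≤ Q * B := by
            rw [hdiff]
            refine (Finset.abs_sum_le_sum_abs _ _).trans ?_
            have h6 : ∀ v ∈ (univ : Finset (Sf f)), |((G j hwj v : ℚ) : ℝ) * (V y v - V y₀ v)| ≤
                |((G j hwj v : ℚ) : ℝ)| * B := by
              intro v _
              rw [abs_mul]
              by_cases hv : v ∈ ρ
              · rw [hcρ v hv]
                exact mul_le_mul_of_nonneg_left (htight v hv) (abs_nonneg _)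
              · rw [hG0 j hwj v hv]
                simp
            refine (Finset.sum_le_sum h6).trans ?_
            rw [← Finset.sum_mul]
            refine mul_le_mul_of_nonneg_right ?_ hB0.le
            have h7 : ∑ v : Sf f, |((G j hwj v : ℚ) : ℝ)| ≤
                ∑ j : {j // 0 < w j}, ∑ v : Sf f, |((G j.1 j.2 v : ℚ) : ℝ)| :=
              Finset.single_le_sum (f := fun j : {j // 0 < w j} => ∑ v : Sf f,
                |((G j.1 j.2 v : ℚ) : ℝ)|) (fun j _ => by positivity)
                (Finset.mem_univ (⟨j, hwj⟩ : {j // 0 < w j}))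
            rw [hQ]
            linarith
          have hy0j : 7 / (8 * (N : ℝ)) ≤ y₀ ⟨j, hwj⟩ := by
            have h6 : (1 : ℝ) ≤ w j := by exact_mod_cast hwj
            have h7 : 0 ≤ t * (ω j : ℝ) / Nω := by positivity
            have h8 : 7 / (8 * (N : ℝ)) ≤ (1 - t) * (w j : ℝ) / N := by
              rw [div_le_div_iff₀ (by positivity) hNR]
              have h9 : (7 : ℝ) / 8 ≤ (1 - t) * w j := by
                have h10 : (7 : ℝ) / 8 * 1 ≤ (1 - t) * w j :=
                  mul_le_mul (by linarith) h6 (by norm_num) (by linarith)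
                linarith
              have h11 : 8 * (N : ℝ) * (7 / 8) ≤ 8 * N * ((1 - t) * w j) :=
                mul_le_mul_of_nonneg_left h9 (by positivity)
              linarith
            simp only [y₀]
            linarith
          have h6 := (abs_le.1 hclose).1
          linarith
        · -- the coordinate `j` is a zero of `w`
          have hζj : t / Nω ≤ ζ j := by
            simp only [ζ, if_neg hwj]
            have h6 : (1 : ℝ) ≤ ω j := by exact_mod_cast hω j
            rw [div_le_div_iff_of_pos_right hNωR]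
            nlinarith
          have h6 : ((μ j : ℕ) : ℝ) * ζ j ≤ ∑ j, ((μ j : ℕ) : ℝ) * ζ j :=
            Finset.single_le_sum (f := fun j => ((μ j : ℕ) : ℝ) * ζ j)
              (fun j _ => mul_nonneg (by positivity) (hζ0 j)) (Finset.mem_univ j)
          have h7 : 1 * ζ j ≤ ((μ j : ℕ) : ℝ) * ζ j :=
            mul_le_mul_of_nonneg_right hj1 (hζ0 j)
          linarith
  · intro δ hδK hδs β m hx g
    obtain ⟨h, hh⟩ := negSet_dvd_PM hEγ δ
    set P : Finset {j // 0 < w j} := univ.filter fun j => m j.1 < β j.1 with hP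
    obtain ⟨h', hh'⟩ := LF_dvd_RM hγ β m P (fun j hj => (Finset.mem_filter.1 hj).2)
    have hkill := hΛ (negSet γ δ) P ?_
    · rw [LinearMap.comp_apply, hh, hh']
      have e : ∀ a b c d e : MvPolynomial (Sf f) ℚ, a * (b * c * (d * e)) = (a * c * e) * (d * b) :=
        fun a b c d e => by ring
      rw [e]
      refine homComp_mul _ _ _ _ ((hXhom _).mul (hLhom _)) Λ fun g' => hkill g'
    · intro y hy0 hyP h1 h2
      have h3 := hlow δ y hδK h1 h2
      rw [htotal δ y, hδs, Int.cast_one] at h3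
      have h4 : ∑ j : {j // 0 < w j}, ((∑ v, δ v * ((v.1 j.1 : ℕ) : ℤ) : ℤ) : ℝ) * y j ≤ 0 := by
        refine Finset.sum_nonpos fun j _ => ?_
        by_cases hj : j ∈ P
        · rw [hyP j hj, mul_zero]
        · refine mul_nonpos_of_nonpos_of_nonneg ?_ (hy0 j)
          have h5 : ¬ m j.1 < β j.1 := fun h => hj (Finset.mem_filter.2 ⟨Finset.mem_univ _, h⟩)
          rw [hx j.1]
          have : (β j.1 : ℤ) - m j.1 ≤ 0 := by omega
          exact_mod_cast this
      have h5 := (abs_le.1 (hαδ δ hδK)).2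
      have h6 : η * ((∑ v, (α v : ℤ) * δ v : ℤ) : ℝ) ≤ η * (M * K) :=
        mul_le_mul_of_nonneg_left h5 hη0.le
      have h7 : ∑ j, ((∑ v, δ v * ((v.1 j : ℕ) : ℤ) : ℤ) : ℝ) * ζ j ≤ t * (K * C₁) := by
        have e1 : ∀ j, ζ j ≤ t * ω j := by
          intro j
          simp only [ζ]
          split_ifs
          · positivity
          · rw [div_le_iff₀ hNωR]
            have h8 : (1 : ℝ) ≤ Nω := by exact_mod_cast hNω
            have h9 : 0 ≤ t * (ω j : ℝ) := by positivity
            nlinarith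
        have e2 : ∀ j, ((∑ v, δ v * ((v.1 j : ℕ) : ℤ) : ℤ) : ℝ) ≤
            K * ∑ v : Sf f, ((v.1 j : ℕ) : ℝ) := by
          intro j
          push_cast
          rw [Finset.mul_sum]
          refine Finset.sum_le_sum fun v _ => mul_le_mul_of_nonneg_right ?_ (by positivity)
          have : |(δ v : ℝ)| ≤ K := by exact_mod_cast hδK v
          exact (abs_le.1 this).2
        calc ∑ j, ((∑ v, δ v * ((v.1 j : ℕ) : ℤ) : ℤ) : ℝ) * ζ j
            ≤ ∑ j, (K * ∑ v : Sf f, ((v.1 j : ℕ) : ℝ)) * (t * ω j) := by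
              refine Finset.sum_le_sum fun j _ => ?_
              refine (mul_le_mul_of_nonneg_right (e2 j) (hζ0 j)).trans ?_
              exact mul_le_mul_of_nonneg_left (e1 j) (by positivity)
          _ = t * (K * C₁) := by
              rw [hC₁, Finset.sum_comm, Finset.mul_sum, Finset.mul_sum]
              refine Finset.sum_congr rfl fun j _ => ?_
              rw [Finset.mul_sum, Finset.mul_sum, Finset.mul_sum, Finset.sum_mul]
              exact Finset.sum_congr rfl fun v _ => by ring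
      have h8 : η ^ 2 * (K * c₀) ≤ η ^ 2 * (K * c₀ + 1) := by
        have : 0 < η ^ 2 := by positivity
        linarith
      linarith

end MPb07157
end
end
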