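import Pool.Agent.Lib.MP_b07157_ag.NewtClass
import Pool.Agent.Lib.MP_e52354_nt.DerivExist

/-!
# Polynomials with algebraically independent coefficients are nondegenerate
-/

noncomputable section

namespace MPb07157

open MvPolynomial Finset

variable {n : ℕ}

/-- A derivation of `ℂ` over `ℚ` with prescribed values on an algebraically independent family. -/
theorem exists_der {ι : Type*} {c : ι → ℂ} (hc : AlgebraicIndependent ℚ c) (θ : ι) :
    ∃ D : Derivation ℚ ℂ ℂ, D (c θ) = 1 ∧ ∀ i, i ≠ θ → D (c i) = 0 := by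
  classical
  have hc' : AlgebraicIndepOn ℚ id (Set.range c) := hc.coe_range
  obtain ⟨s, hs1, hs2⟩ := exists_isTranscendenceBasis_superset hc'
  have := hs2.isAlgebraic
  obtain ⟨D, hD⟩ := Pool.Agent.Lib.MP_e52354_nt.exists_derivation hs2.1
    (fun i => if (i : ℂ) = c θ then 1 else 0)
  refine ⟨D, ?_, fun i hi => ?_⟩
  · have h := hD ⟨c θ, hs1 ⟨θ, rfl⟩⟩
    simpa using h
  · have h := hD ⟨c i, hs1 ⟨i, rfl⟩⟩
    have hne : c i ≠ c θ := fun h => hi (hc.injective h)
    simpa [hne] using h

/-- The chain rule for a monomial. -/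
theorem der_eval_monomial (D : Derivation ℚ ℂ ℂ) (u : Fin n → ℂ) (v : Fin n →₀ ℕ) (c : ℂ) :
    D (eval u (monomial v c)) =
      D c * eval u (monomial v 1) + ∑ j, D (u j) * eval u (pderiv j (monomial v c)) := by
  have key : ∀ p : MvPolynomial (Fin n) ℚ, D (eval u (map (algebraMap ℚ ℂ) p)) =
      ∑ j, D (u j) * eval u (pderiv j (map (algebraMap ℚ ℂ) p)) := by
    intro p
    induction p using MvPolynomial.induction_on with
    | C a =>
      rw [map_C, eval_C, D.map_algebraMap]
      simp
    | add p q hp hq =>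
      simp only [map_add, hp, hq, mul_add, Finset.sum_add_distrib]
    | mul_X p i hp =>
      simp only [map_mul, Derivation.leibniz, hp, map_X, eval_X, smul_eq_mul, pderiv_X]
      simp only [map_add, map_mul, eval_X, mul_add, Finset.sum_add_distrib]
      rw [Finset.mul_sum]
      congr 1
      · rw [Finset.sum_eq_single i]
        · simp; ring
        · intro b _ hb
          simp [hb]
        · simp
      · refine Finset.sum_congr rfl fun j _ => ?_
        ring
  have h1 : (monomial v c : MvPolynomial (Fin n) ℂ) = C c * map (algebraMap ℚ ℂ) (monomial v 1) := by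
    simp [C_mul_monomial]
  have h2 : (monomial v 1 : MvPolynomial (Fin n) ℂ) = map (algebraMap ℚ ℂ) (monomial v 1) := by
    simp
  rw [h1, h2]
  simp only [map_mul, eval_C, Derivation.leibniz, key, smul_eq_mul, pderiv_C]
  rw [Finset.mul_sum, add_comm, mul_comm (D c)]
  simp only [mul_zero, add_zero, map_mul, eval_C]
  congr 1
  refine Finset.sum_congr rfl fun j _ => ?_
  ring

/-- A polynomial whose nonzero coefficients are algebraically independent over `ℚ` is
nondegenerate in every direction. -/
theorem nondegAt_of_algInd (f : MvPolynomial (Fin n) ℂ)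
    (hf : AlgebraicIndependent ℚ (fun v : {v // v ∈ f.support} => coeff v.1 f))
    (I : Finset (Fin n →₀ ℕ)) (hI : I ⊆ f.support) (hne : I.Nonempty) : NondegAt f I := by
  intro u hu h0
  by_contra hcon
  push Not at hcon
  obtain ⟨v₀, hv₀⟩ := hne
  obtain ⟨D, hD1, hD0⟩ := exists_der hf ⟨v₀, hI hv₀⟩
  have h1 : D (eval u (inForm f I)) = ∑ v ∈ I, D (coeff v f) * eval u (monomial v 1) +
      ∑ j, D (u j) * eval u (pderiv j (inForm f I)) := by
    unfold inForm
    simp only [map_sum, der_eval_monomial, Finset.sum_add_distrib, Finset.mul_sum]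
    congr 1
    rw [Finset.sum_comm]
  rw [h0, map_zero, Finset.sum_eq_zero (s := (Finset.univ : Finset (Fin n)))
    (fun j _ => by rw [hcon j, mul_zero]), add_zero, Finset.sum_eq_single_of_mem v₀ hv₀] at h1
  · rw [hD1, one_mul, eval_monomial, one_mul] at h1
    refine absurd h1.symm (Finset.prod_ne_zero_iff.2 fun j _ => pow_ne_zero _ (hu j))
  · intro v hv hne
    rw [hD0 ⟨v, hI hv⟩ (fun h => hne (congrArg Subtype.val h)), zero_mul]

end MPb07157
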