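import Pool.Agent.Lib.MP_b07157_ag.Defs

/-!
# Newton polyhedra and polyhedral sets: definitions
-/

noncomputable section

namespace MPb07157

open MvPolynomial Finset

variable {n : ℕ}

/-- The `w`-weight of an exponent. -/
def wt (w : Fin n → ℕ) (v : Fin n →₀ ℕ) : ℕ := ∑ j, w j * v j

/-- `N` is the minimum of the `a`-weights of the exponents of `f`. -/
def IsMinWt (f : MvPolynomial (Fin n) ℂ) (a : Fin n → ℕ) (N : ℕ) : Prop :=
  (∀ v ∈ f.support, N ≤ wt a v) ∧ ∃ v ∈ f.support, wt a v = N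

/-- The projections of the exponents `v ∈ I` to the support of `w` span. -/
def Spans (w : Fin n → ℕ) (I : Finset (Fin n →₀ ℕ)) : Prop :=
  ∀ y : Fin n → ℤ, (∀ j, w j = 0 → y j = 0) → (∀ v ∈ I, ∑ j, y j * (v j : ℤ) = 0) → y = 0

section Poly

variable {G ι : Type} [AddCommGroup G] [Fintype ι] (lam : ι → G →+ ℤ)

/-- The polyhedral set `{z : lam k z ≥ c k for all k, with equality for k ∈ E}`. -/
def PSet (c : ι → ℤ) (E : Finset ι) : Set G :=
  {z | (∀ k, c k ≤ lam k z) ∧ ∀ k ∈ E, lam k z = c k}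

/-- `z` is a nonzero element of the recession cone whose set of tight constraints is maximal. -/
def MaxTight (E : Finset ι) (z : G) : Prop :=
  z ≠ 0 ∧ z ∈ PSet lam 0 E ∧
    ∀ y ∈ PSet lam 0 E, y ≠ 0 → (∀ k, lam k z = 0 → lam k y = 0) → ∀ k, lam k y = 0 → lam k z = 0

/-- The generating function `∑_{z ∈ Q} L^{-ν z} T^{μ z}`. -/
def genF (mu nu : G →+ ℤ) (Q : Set G) : PowerSeries Mot :=
  PowerSeries.mk fun m => ∑ᶠ z ∈ {z ∈ Q | mu z = m}, ((LU ^ (-(nu z)) : Motˣ) : Mot)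

end Poly

end MPb07157
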