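import Mathlib

/-!
# Descent of a linear identity to the polynomial ring of algebraically independent coefficients
-/

noncomputable section

namespace MPb07157

open MvPolynomial Finset

/-- common denominators in the field generated by a family -/
theorem common_denom {σ : Type} (c : σ → ℂ) (S : Finset ℂ)
    (hS : ∀ z ∈ S, z ∈ IntermediateField.adjoin ℚ (Set.range c)) :
    ∃ d : MvPolynomial σ ℚ, (aeval c d : ℂ) ≠ 0 ∧
      ∀ z ∈ S, ∃ P : MvPolynomial σ ℚ, (aeval c P : ℂ) = aeval c d * z := by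
  classical
  induction S using Finset.induction_on with
  | empty => exact ⟨1, by simp, by simp⟩
  | insert z S hz ih =>
    obtain ⟨d, hd, hP⟩ := ih fun y hy => hS y (Finset.mem_insert_of_mem hy)
    obtain ⟨r, s, hrs⟩ := (IntermediateField.mem_adjoin_range_iff ℚ c z).1
      (hS z (Finset.mem_insert_self _ _))
    by_cases hs : (aeval c s : ℂ) = 0
    · have hz0 : z = 0 := by rw [hrs, hs, div_zero]
      refine ⟨d, hd, fun y hy => ?_⟩
      rcases Finset.mem_insert.1 hy with rfl | hy
      · exact ⟨0, by rw [hz0]; simp⟩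
      · exact hP y hy
    · refine ⟨s * d, by rw [map_mul]; exact mul_ne_zero hs hd, fun y hy => ?_⟩
      rcases Finset.mem_insert.1 hy with rfl | hy
      · refine ⟨r * d, ?_⟩
        rw [map_mul, map_mul, hrs]
        field_simp
      · obtain ⟨P, h⟩ := hP y hy
        refine ⟨s * P, ?_⟩
        rw [map_mul, map_mul, h, mul_assoc]

/-- V2: descent to the field generated by the coefficients. -/
theorem descent {σ T E : Type} [Fintype T] (c : σ → ℂ) (hc : AlgebraicIndependent ℚ c)
    (g : T → Polynomial ℂ) (q : E → ℕ) (H : T → E → MvPolynomial σ ℚ)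
    (h : ∀ e, ∑ t, (g t).eval (q e : ℂ) * (aeval c (H t e) : ℂ) = 0) (t₀ : T) (s₀ : ℚ)
    (h0 : (g t₀).eval (s₀ : ℂ) ≠ 0) :
    ∃ G : T → Polynomial (MvPolynomial σ ℚ),
      (G t₀).eval (C s₀ : MvPolynomial σ ℚ) ≠ 0 ∧
      ∀ e, ∑ t, (G t).eval (q e : MvPolynomial σ ℚ) * H t e = 0 := by
  classical
  let K := IntermediateField.adjoin ℚ (Set.range c)
  have hH : ∀ P : MvPolynomial σ ℚ, (aeval c P : ℂ) ∈ K := fun P => by
    rw [IntermediateField.mem_adjoin_range_iff]
    exact ⟨P, 1, by simp⟩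
  -- a linear functional
  obtain ⟨Λ, hΛ⟩ : ∃ Λ : ℂ →ₗ[K] K, Λ ((g t₀).eval (s₀ : ℂ)) ≠ 0 := by
    by_contra hcon
    push Not at hcon
    exact h0 ((Module.forall_dual_apply_eq_zero_iff K _).1 hcon)
  -- evaluation of the transported polynomials
  have hev : ∀ (t : T) (r : K), ((Λ ((g t).eval (r : ℂ)) : K) : ℂ) =
      ∑ i ∈ (g t).support, ((Λ ((g t).coeff i) : K) : ℂ) * (r : ℂ) ^ i := by
    intro t r
    have e1 : (g t).eval (r : ℂ) = ∑ i ∈ (g t).support, (r ^ i : K) • (g t).coeff i := by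
      rw [Polynomial.eval_eq_sum, Polynomial.sum]
      refine Finset.sum_congr rfl fun i _ => ?_
      rw [Algebra.smul_def, mul_comm]
      rfl
    rw [e1, map_sum]
    push_cast
    refine Finset.sum_congr rfl fun i _ => ?_
    rw [map_smul, smul_eq_mul, mul_comm]
    push_cast
    rfl
  obtain ⟨d, hd, hP⟩ := common_denom c
    (Finset.univ.biUnion fun t => (g t).support.image fun i => ((Λ ((g t).coeff i) : K) : ℂ)) (by
      intro z hz
      rw [Finset.mem_biUnion] at hz
      obtain ⟨t, -, hz⟩ := hz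
      obtain ⟨i, -, rfl⟩ := Finset.mem_image.1 hz
      exact (Λ ((g t).coeff i)).2)
  have hP' : ∀ t i, ∃ P : MvPolynomial σ ℚ, i ∈ (g t).support →
      (aeval c P : ℂ) = aeval c d * ((Λ ((g t).coeff i) : K) : ℂ) := by
    intro t i
    by_cases hi : i ∈ (g t).support
    · obtain ⟨P, h⟩ := hP _ (Finset.mem_biUnion.2 ⟨t, Finset.mem_univ _,
        Finset.mem_image.2 ⟨i, hi, rfl⟩⟩)
      exact ⟨P, fun _ => h⟩
    · exact ⟨0, fun h => absurd h hi⟩
  choose P hPP using hP'
  refine ⟨fun t => ∑ i ∈ (g t).support, Polynomial.monomial i (P t i), ?_, ?_⟩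
  all_goals
    have key : ∀ (t : T) (R : MvPolynomial σ ℚ), (aeval c
        ((∑ i ∈ (g t).support, Polynomial.monomial i (P t i)).eval R) : ℂ) =
        aeval c d * ((Λ ((g t).eval (aeval c R : ℂ)) : K) : ℂ) := by
      intro t R
      have := hev t ⟨aeval c R, hH R⟩
      simp only at this
      rw [this, Polynomial.eval_finsetSum, map_sum, Finset.mul_sum]
      refine Finset.sum_congr rfl fun i hi => ?_
      rw [Polynomial.eval_monomial, map_mul, map_pow, hPP t i hi]
      ring
  · intro h1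
    have h2 := key t₀ (C s₀)
    rw [h1, map_zero] at h2
    have h3 : (aeval c (C s₀ : MvPolynomial σ ℚ) : ℂ) = (s₀ : ℂ) := by
      rw [aeval_C]; rfl
    rw [h3] at h2
    rcases mul_eq_zero.1 h2.symm with h4 | h4
    · exact hd h4
    · exact hΛ (Subtype.ext h4)
  · intro e
    apply hc
    rw [map_zero, map_sum]
    have e1 : ∀ t, (aeval c ((∑ i ∈ (g t).support, Polynomial.monomial i (P t i)).eval
        (q e : MvPolynomial σ ℚ) * H t e) : ℂ) =
        aeval c d * ((Λ ((g t).eval (q e : ℂ) * (aeval c (H t e) : ℂ)) : K) : ℂ) := by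
      intro t
      rw [map_mul, key t]
      have e2 : (g t).eval (q e : ℂ) * (aeval c (H t e) : ℂ) =
          (⟨aeval c (H t e), hH _⟩ : K) • (g t).eval (q e : ℂ) := by
        rw [Algebra.smul_def, mul_comm]; rfl
      rw [e2, map_smul, smul_eq_mul, map_natCast]
      push_cast
      ring
    rw [Finset.sum_congr rfl fun t _ => e1 t, ← Finset.mul_sum]
    have e3 : (∑ t, ((Λ ((g t).eval (q e : ℂ) * (aeval c (H t e) : ℂ)) : K) : ℂ)) =
        ((Λ (∑ t, (g t).eval (q e : ℂ) * (aeval c (H t e) : ℂ)) : K) : ℂ) := by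
      rw [map_sum]
      push_cast
      rfl
    rw [e3, h e, map_zero]
    simp

end MPb07157
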