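import Pool.Agent.Lib.MP_b07157_ag.NewtRoot
import Pool.Agent.Lib.MP_b07157_ag.NewtDescent

/-!
# Roots of Bernstein–Sato polynomials of very general polynomials
-/

noncomputable section

namespace MPb07157

open MvPolynomial Finset
open scoped Nat

variable {n : ℕ}

/-- The exponents of `f`. -/
abbrev Sf (f : MvPolynomial (Fin n) ℂ) : Type := {v : Fin n →₀ ℕ // v ∈ f.support}

/-- The coefficients of `f`. -/
def cf (f : MvPolynomial (Fin n) ℂ) (v : Sf f) : ℂ := coeff v.1 f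

/-- The generic polynomial with the same exponents as `f`. -/
def genPoly (f : MvPolynomial (Fin n) ℂ) : MvPolynomial (Fin n) (MvPolynomial (Sf f) ℚ) :=
  ∑ v : Sf f, monomial v.1 (X v)

theorem map_genPoly (f : MvPolynomial (Fin n) ℂ) :
    map (aeval (R := ℚ) (cf f) : MvPolynomial (Sf f) ℚ →ₐ[ℚ] ℂ).toRingHom (genPoly f) = f := by
  unfold genPoly
  rw [map_sum]
  simp only [map_monomial, AlgHom.toRingHom_eq_coe, RingHom.coe_coe, aeval_X, cf]
  rw [Finset.sum_coe_sort f.support (fun v => monomial v (coeff v f))]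
  exact MvPolynomial.support_sum_monomial_coeff f

/-- The coefficient of `x^M` in the `q`-th power of the generic polynomial. -/
def Hc (f : MvPolynomial (Fin n) ℂ) (q : ℕ) (M : Fin n →₀ ℕ) : MvPolynomial (Sf f) ℚ :=
  coeff M (genPoly f ^ q)

theorem aeval_Hc (f : MvPolynomial (Fin n) ℂ) (q : ℕ) (M : Fin n →₀ ℕ) :
    (aeval (cf f) (Hc f q M) : ℂ) = coeff M (f ^ q) := by
  conv_rhs => rw [← map_genPoly f]
  rw [← map_pow, coeff_map]
  rfl

theorem coeff_Hc (f : MvPolynomial (Fin n) ℂ) (q : ℕ) (M : Fin n →₀ ℕ) (κ : Sf f →₀ ℕ) :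
    coeff κ (Hc f q M) =
      if ∑ v, κ v = q ∧ ∑ v, κ v • v.1 = M then (Nat.multinomial univ κ : ℚ) else 0 := by
  classical
  unfold Hc genPoly
  rw [Finset.sum_pow_eq_sum_piAntidiag, coeff_sum, coeff_sum]
  have h : ∀ μ : Sf f → ℕ, ∏ v : Sf f, (monomial v.1 (X v : MvPolynomial (Sf f) ℚ)) ^ μ v =
      monomial (∑ v, μ v • v.1) (monomial (Finsupp.equivFunOnFinite.symm μ) 1) := by
    intro μ
    simp only [monomial_pow]
    rw [← MvPolynomial.monomial_sum_prod]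
    congr 1
    rw [monomial_eq]
    simp [Finsupp.prod_fintype]
  have h2 : ∀ μ : Sf f → ℕ, coeff κ (coeff M
      ((Nat.multinomial univ μ : MvPolynomial (Fin n) (MvPolynomial (Sf f) ℚ)) *
        ∏ v : Sf f, (monomial v.1 (X v : MvPolynomial (Sf f) ℚ)) ^ μ v)) =
      if Finsupp.equivFunOnFinite.symm μ = κ ∧ ∑ v, μ v • v.1 = M then
        (Nat.multinomial univ μ : ℚ) else 0 := by
    intro μ
    rw [h, ← MvPolynomial.C_eq_coe_nat, coeff_C_mul, coeff_monomial]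
    by_cases h3 : ∑ v, μ v • v.1 = M
    · rw [if_pos h3, ← MvPolynomial.C_eq_coe_nat, coeff_C_mul, coeff_monomial]
      by_cases h4 : Finsupp.equivFunOnFinite.symm μ = κ
      · rw [if_pos h4, if_pos ⟨h4, h3⟩, mul_one]
      · rw [if_neg h4, if_neg fun h5 => h4 h5.1, mul_zero]
    · rw [if_neg h3, mul_zero, coeff_zero, if_neg fun h5 => h3 h5.2]
  simp only [h2]
  have h3 : ∀ μ : Sf f → ℕ, Finsupp.equivFunOnFinite.symm μ = κ ↔ μ = κ := by
    intro μ
    constructor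
    · rintro rfl; rfl
    · intro h4; ext v; simp [h4]
  simp only [h3]
  by_cases hq : ∑ v, κ v = q
  · rw [Finset.sum_eq_single (κ : Sf f → ℕ)]
    · by_cases h4 : ∑ v, κ v • v.1 = M
      · rw [if_pos ⟨rfl, h4⟩, if_pos ⟨hq, h4⟩]
      · rw [if_neg fun h5 => h4 h5.2, if_neg fun h5 => h4 h5.2]
    · intro μ _ hμ
      rw [if_neg fun h5 => hμ h5.1]
    · intro h4
      exact absurd (Finset.mem_piAntidiag.2 ⟨hq, fun _ _ => Finset.mem_univ _⟩) h4
  · rw [if_neg fun h5 => hq h5.1]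
    refine Finset.sum_eq_zero fun μ hμ => ?_
    rw [if_neg]
    rintro ⟨rfl, -⟩
    exact hq (Finset.mem_piAntidiag.1 hμ).1

/-- Flat form of `OpVal`. -/
theorem OpVal.flat {F : MvPowerSeries (Fin n) ℂ} {Φ : ℕ → MvPowerSeries (Fin n) ℂ}
    (h : OpVal F Φ) : ∃ (k : ℕ) (c : Fin k → Polynomial (MvPowerSeries (Fin n) ℂ))
      (β : Fin k → (Fin n →₀ ℕ)), ∀ q, Φ q =
        ∑ i, (c i).eval (q : MvPowerSeries (Fin n) ℂ) * dPow (β i) (F ^ (q + 1)) := by
  induction h with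
  | base β => exact ⟨1, fun _ => 1, fun _ => β, fun q => by simp⟩
  | add _ _ ih1 ih2 =>
    obtain ⟨k1, c1, β1, h1⟩ := ih1
    obtain ⟨k2, c2, β2, h2⟩ := ih2
    refine ⟨k1 + k2, Fin.append c1 c2, Fin.append β1 β2, fun q => ?_⟩
    rw [Fin.sum_univ_add]
    simp only [Fin.append_left, Fin.append_right]
    rw [← h1, ← h2]
  | mul c _ ih =>
    obtain ⟨k, c', β, h⟩ := ih
    refine ⟨k, fun i => c * c' i, β, fun q => ?_⟩
    beta_reduce
    rw [h, Finset.mul_sum]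
    refine Finset.sum_congr rfl fun i _ => ?_
    rw [Polynomial.eval_mul, mul_assoc]

/-- Data for the root theorem for very general polynomials. -/
structure VGData (f : MvPolynomial (Fin n) ℂ) where
  w : Fin n → ℕ
  N : ℕ
  N_pos : 0 < N
  w_ne : ∃ j, 0 < w j
  N_le : ∀ v ∈ f.support, N ≤ wt w v
  ω : Fin n → ℕ
  ω_pos : ∀ j, 0 < ω j
  Nω : ℕ
  Nω_le : ∀ v ∈ f.support, Nω ≤ wt ω v
  ρ : Finset (Sf f)
  hρω : ∀ v ∈ ρ, wt ω v.1 = Nω
  hρw : ∀ v ∈ ρ, wt w v.1 = N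
  lin : ∀ g : Sf f → ℚ, (∀ v, v ∉ ρ → g v = 0) → (∀ j, ∑ v, g v * ((v.1 j : ℕ) : ℚ) = 0) → g = 0
  γ : Sf f → ℚ
  γ_sum : ∀ j, 0 < w j → ∑ v ∈ ρ, γ v * (v.1 j : ℚ) = 1
  γ_ne : ∀ v ∈ ρ, ∀ k : ℕ, γ v ≠ k + 1

namespace VGData

variable {f : MvPolynomial (Fin n) ℂ} (R : VGData f)

theorem ρ_nonempty : R.ρ.Nonempty := by
  obtain ⟨j, hj⟩ := R.w_ne
  have h := R.γ_sum j hj
  by_contra hne
  rw [Finset.not_nonempty_iff_eq_empty] at hne
  rw [hne] at h
  simp at h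

theorem exists_affine : ∃ (z D : ℕ) (h : Sf f → ℕ), 0 < D ∧
    ∀ v ∈ R.ρ, 1 ≤ h v ∧ (h v : ℚ) = D * (z + R.γ v) := by
  classical
  let D : ℕ := ∏ v ∈ R.ρ, (R.γ v).den
  have hD : 0 < D := Finset.prod_pos fun v _ => (R.γ v).den_pos
  have hg : ∀ v ∈ R.ρ, ∃ g : ℤ, (g : ℚ) = D * R.γ v := by
    intro v hv
    have h1 : (R.γ v).den ∣ D := Finset.dvd_prod_of_mem _ hv
    obtain ⟨c, hc⟩ := h1
    refine ⟨c * (R.γ v).num, ?_⟩
    rw [hc]
    push_cast
    have h2 : (R.γ v : ℚ) * (R.γ v).den = (R.γ v).num := Rat.mul_den_eq_num _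
    rw [← h2]
    ring
  choose! g hg using hg
  let z : ℕ := ∑ v ∈ R.ρ, (g v).natAbs + 1
  have hz : ∀ v ∈ R.ρ, 1 ≤ g v + D * z := by
    intro v hv
    have h1 : (g v).natAbs ≤ ∑ v ∈ R.ρ, (g v).natAbs :=
      Finset.single_le_sum (f := fun v => (g v).natAbs) (fun _ _ => Nat.zero_le _) hv
    have h2 : (z : ℤ) = (∑ v ∈ R.ρ, (g v).natAbs : ℕ) + 1 := by
      simp only [z]; push_cast; rfl
    have h3 : (z : ℤ) ≤ D * z := by
      have : (1 : ℤ) ≤ D := by exact_mod_cast hD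
      nlinarith [Int.natCast_nonneg z]
    omega
  refine ⟨z, D, fun v => (g v + D * z).toNat, hD, fun v hv => ⟨?_, ?_⟩⟩
  · have := hz v hv
    beta_reduce
    omega
  · have h1 : (((g v + D * z).toNat : ℕ) : ℤ) = g v + D * z :=
      Int.toNat_of_nonneg (by have := hz v hv; omega)
    have h2 : (((g v + D * z).toNat : ℕ) : ℚ) = ((g v + D * z : ℤ) : ℚ) := by
      rw [← h1]; norm_cast
    rw [h2]
    push_cast
    rw [hg v hv]
    ring

/-- A sequence of integral points on a line through `-γ`. -/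
structure VLine (R : VGData f) where
  z : ℕ
  D : ℕ
  h : Sf f → ℕ
  D_pos : 0 < D
  h_pos : ∀ v ∈ R.ρ, 1 ≤ h v
  h_eq : ∀ v ∈ R.ρ, (h v : ℚ) = D * (z + R.γ v)

theorem exists_vline : Nonempty (VLine R) := by
  obtain ⟨z, D, h, hD, hh⟩ := R.exists_affine
  exact ⟨⟨z, D, h, hD, fun v hv => (hh v hv).1, fun v hv => (hh v hv).2⟩⟩

namespace VLine

variable {R} (Ln : VLine R)

/-- The points. -/
def a (k : ℕ) : Sf f →₀ ℕ :=
  Finsupp.equivFunOnFinite.symm fun v => by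
    classical exact if v ∈ R.ρ then Ln.z + k * Ln.h v else 0

theorem a_of_mem (k : ℕ) {v : Sf f} (hv : v ∈ R.ρ) : Ln.a k v = Ln.z + k * Ln.h v := by
  simp [a, hv]

theorem a_of_notMem (k : ℕ) {v : Sf f} (hv : v ∉ R.ρ) : Ln.a k v = 0 := by
  simp [a, hv]

/-- The exponent of the power. -/
def q (k : ℕ) : ℕ := ∑ v, Ln.a k v

/-- The monomial. -/
def M (k : ℕ) : Fin n →₀ ℕ := ∑ v, Ln.a k v • v.1

/-- Coordinates as polynomials in `k`. -/
def A (v : Sf f) : Polynomial ℚ := by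
  classical exact if v ∈ R.ρ then Polynomial.C (Ln.z : ℚ) + Polynomial.C (Ln.h v : ℚ) *
    Polynomial.X else 0

/-- The special parameter. -/
def x₀ : ℚ := -1 / Ln.D

theorem A_eval (k : ℕ) (v : Sf f) : (Ln.A v).eval (k : ℚ) = Ln.a k v := by
  unfold A
  split_ifs with h
  · rw [Ln.a_of_mem k h]
    simp
    ring
  · rw [Ln.a_of_notMem k h]
    simp

theorem A_x₀ {v : Sf f} (hv : v ∈ R.ρ) : (Ln.A v).eval Ln.x₀ = - R.γ v := by
  unfold A x₀
  rw [if_pos hv]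
  simp only [Polynomial.eval_add, Polynomial.eval_C, Polynomial.eval_mul, Polynomial.eval_X]
  rw [Ln.h_eq v hv]
  have : (Ln.D : ℚ) ≠ 0 := by exact_mod_cast Ln.D_pos.ne'
  field_simp
  ring

theorem A_x₀' {v : Sf f} (hv : v ∉ R.ρ) : (Ln.A v).eval Ln.x₀ = 0 := by
  unfold A
  rw [if_neg hv]
  simp

/-- `q` as a polynomial. -/
def Qp : Polynomial ℚ := ∑ v, Ln.A v

/-- The coordinates of `M` as polynomials. -/
def Mp (j : Fin n) : Polynomial ℚ := ∑ v : Sf f, Ln.A v * Polynomial.C ((v.1 j : ℕ) : ℚ)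

theorem Qp_eval (k : ℕ) : Ln.Qp.eval (k : ℚ) = (Ln.q k : ℚ) := by
  unfold Qp q
  rw [Polynomial.eval_finsetSum, Nat.cast_sum]
  exact Finset.sum_congr rfl fun v _ => Ln.A_eval k v

theorem M_apply (k : ℕ) (j : Fin n) : Ln.M k j = ∑ v, Ln.a k v * v.1 j := by
  unfold M
  rw [Finsupp.finsetSum_apply]
  rfl

theorem Mp_eval (k : ℕ) (j : Fin n) : (Ln.Mp j).eval (k : ℚ) = (Ln.M k j : ℚ) := by
  unfold Mp
  rw [Polynomial.eval_finsetSum, M_apply, Nat.cast_sum]
  refine Finset.sum_congr rfl fun v _ => ?_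
  rw [Polynomial.eval_mul, Polynomial.eval_C, Ln.A_eval k v, Nat.cast_mul]

theorem Qp_x₀ : Ln.Qp.eval Ln.x₀ = -(∑ v ∈ R.ρ, R.γ v) := by
  classical
  unfold Qp
  rw [Polynomial.eval_finsetSum, ← Finset.sum_neg_distrib,
    ← Finset.sum_subset (Finset.subset_univ R.ρ) (fun v _ hv => Ln.A_x₀' hv)]
  exact Finset.sum_congr rfl fun v hv => Ln.A_x₀ hv

theorem Mp_x₀ (j : Fin n) (hj : 0 < R.w j) : (Ln.Mp j).eval Ln.x₀ = -1 := by
  classical
  unfold Mp
  rw [Polynomial.eval_finsetSum]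
  have h := R.γ_sum j hj
  rw [← h, ← Finset.sum_neg_distrib,
    ← Finset.sum_subset (Finset.subset_univ R.ρ) (fun v _ hv => by
      rw [Polynomial.eval_mul, Ln.A_x₀' hv, zero_mul])]
  refine Finset.sum_congr rfl fun v hv => ?_
  rw [Polynomial.eval_mul, Polynomial.eval_C, Ln.A_x₀ hv]
  ring

theorem le_q (k : ℕ) : k ≤ Ln.q k := by
  obtain ⟨v, hv⟩ := R.ρ_nonempty
  have h1 : Ln.a k v ≤ Ln.q k := Finset.single_le_sum (f := fun v => Ln.a k v)
    (fun _ _ => Nat.zero_le _) (Finset.mem_univ v)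
  rw [Ln.a_of_mem k hv] at h1
  have h2 := Ln.h_pos v hv
  nlinarith

/-- Normalization. -/
def nrm (E k : ℕ) : ℚ := (∏ v ∈ R.ρ, ((Ln.a k v + E)! : ℚ)) / ((Ln.q k)! : ℚ)

/-- The constants. -/
def cst (R : VGData f) (δ : Sf f → ℤ) : ℚ := by
  classical exact ∏ v ∈ Finset.univ \ R.ρ, (((δ v).toNat)! : ℚ)⁻¹

/-- The polynomial attached to a displacement. -/
def pd (E : ℕ) (δ : Sf f → ℤ) : Polynomial ℚ :=
  Polynomial.C (cst R δ) * ∏ v ∈ R.ρ, ∏ e ∈ Ioc (δ v) (E : ℤ), (Ln.A v + Polynomial.C (e : ℚ))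

theorem pd_eval (E : ℕ) (δ : Sf f → ℤ) (k : ℕ) :
    (Ln.pd E δ).eval (k : ℚ) =
      cst R δ * ∏ v ∈ R.ρ, ∏ e ∈ Ioc (δ v) (E : ℤ), ((Ln.a k v : ℚ) + (e : ℚ)) := by
  unfold pd
  simp only [Polynomial.eval_mul, Polynomial.eval_C, Polynomial.eval_prod, Polynomial.eval_add,
    Ln.A_eval]

theorem prod_Ioc_mul_factorial' (a : ℕ) (d : ℤ) (t : ℕ) (h : 0 ≤ (a : ℤ) + d) :
    (∏ e ∈ Ioc d (d + t), ((a : ℚ) + (e : ℚ))) * ((((a : ℤ) + d).toNat)! : ℚ) =
      ((((a : ℤ) + d + t).toNat)! : ℚ) := by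
  induction t with
  | zero => simp
  | succ t ih =>
    have h1 : Ioc d (d + (t + 1 : ℕ)) = insert (d + (t + 1 : ℕ)) (Ioc d (d + t)) := by
      ext x
      simp only [mem_Ioc, mem_insert]
      push_cast
      omega
    rw [h1, Finset.prod_insert (by simp), mul_assoc, ih]
    have h2 : ((a : ℤ) + d + (t + 1 : ℕ)).toNat = ((a : ℤ) + d + t).toNat + 1 := by
      push_cast; omega
    rw [h2, Nat.factorial_succ]
    push_cast
    congr 1
    have h3 : ((((a : ℤ) + d + t).toNat : ℤ) : ℚ) = (((a : ℤ) + d + t : ℤ) : ℚ) := by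
      rw [Int.toNat_of_nonneg (by omega)]
    push_cast at h3
    rw [h3]
    ring

theorem prod_Ioc_eq' (a : ℕ) (d : ℤ) (E : ℕ) (h : 0 ≤ (a : ℤ) + d) (hE : d ≤ E) :
    (∏ e ∈ Ioc d (E : ℤ), ((a : ℚ) + (e : ℚ))) =
      ((a + E)! : ℚ) / ((((a : ℤ) + d).toNat)! : ℚ) := by
  have h1 := prod_Ioc_mul_factorial' a d ((E : ℤ) - d).toNat h
  rw [Int.toNat_of_nonneg (by omega), add_sub_cancel] at h1
  rw [eq_div_iff (by exact_mod_cast Nat.factorial_ne_zero _), h1]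
  congr 2
  omega

theorem prod_Ioc_eq_zero' (a : ℕ) (d : ℤ) (E : ℕ) (h : (a : ℤ) + d < 0) :
    (∏ e ∈ Ioc d (E : ℤ), ((a : ℚ) + (e : ℚ))) = 0 := by
  refine Finset.prod_eq_zero (i := -(a : ℤ)) ?_ ?_
  · simp only [mem_Ioc]; omega
  · push_cast; ring

theorem multinomial_nrm (E k τ : ℕ) (hτ : τ ≤ 1) (κ : Sf f →₀ ℕ) (δ : Sf f → ℤ)
    (hκ : ∀ v, (κ v : ℤ) = Ln.a k v + δ v) (hs : ∑ v, κ v = Ln.q k + τ)
    (hE : ∀ v ∈ R.ρ, δ v ≤ E) :
    (Nat.multinomial univ κ : ℚ) * Ln.nrm E k =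
      ((Ln.q k : ℚ) + 1) ^ τ * (Ln.pd E δ).eval (k : ℚ) := by
  classical
  have e1 : (Nat.multinomial univ κ : ℚ) = ((Ln.q k + τ)! : ℚ) / ∏ v, ((κ v)! : ℚ) := by
    rw [eq_div_iff (Finset.prod_ne_zero_iff.2 fun v _ => by
      exact_mod_cast Nat.factorial_ne_zero _)]
    have := Nat.multinomial_spec univ κ
    rw [hs] at this
    rw [mul_comm]
    exact_mod_cast this
  have e3 : ∏ v, ((κ v)! : ℚ) = (∏ v ∈ univ \ R.ρ, ((κ v)! : ℚ)) * ∏ v ∈ R.ρ, ((κ v)! : ℚ) :=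
    (Finset.prod_sdiff (Finset.subset_univ R.ρ)).symm
  have e4 : cst R δ = (∏ v ∈ univ \ R.ρ, ((κ v)! : ℚ))⁻¹ := by
    unfold cst
    rw [← Finset.prod_inv_distrib]
    refine Finset.prod_congr rfl fun v hv => ?_
    have h1 := hκ v
    rw [Ln.a_of_notMem k (Finset.mem_sdiff.1 hv).2] at h1
    congr 3
    omega
  have e5 : ∏ v ∈ R.ρ, ∏ e ∈ Ioc (δ v) (E : ℤ), ((Ln.a k v : ℚ) + (e : ℚ)) =
      (∏ v ∈ R.ρ, ((Ln.a k v + E)! : ℚ)) / ∏ v ∈ R.ρ, ((κ v)! : ℚ) := by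
    rw [← Finset.prod_div_distrib]
    refine Finset.prod_congr rfl fun v hv => ?_
    have h1 := hκ v
    rw [prod_Ioc_eq' _ _ _ (by omega) (hE v hv)]
    congr 3
    omega
  have h4 : ((Ln.q k)! : ℚ) ≠ 0 := by exact_mod_cast Nat.factorial_ne_zero _
  have h5 : (∏ v ∈ univ \ R.ρ, ((κ v)! : ℚ)) ≠ 0 :=
    Finset.prod_ne_zero_iff.2 fun v _ => by exact_mod_cast Nat.factorial_ne_zero _
  have h6 : (∏ v ∈ R.ρ, ((κ v)! : ℚ)) ≠ 0 :=
    Finset.prod_ne_zero_iff.2 fun v _ => by exact_mod_cast Nat.factorial_ne_zero _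
  have h7 : ((Ln.q k + τ)! : ℚ) = ((Ln.q k : ℚ) + 1) ^ τ * ((Ln.q k)! : ℚ) := by
    rcases Nat.le_one_iff_eq_zero_or_eq_one.1 hτ with rfl | rfl
    · simp
    · rw [Nat.factorial_succ]; push_cast; ring
  rw [pd_eval, e1, e5, e4, e3, nrm, h7]
  field_simp

/-- The coefficient condition on a displacement. -/
def Cond (R : VGData f) (τ : ℕ) (x : Fin n → ℤ) (δ : Sf f → ℤ) : Prop :=
  (∀ v, v ∉ R.ρ → 0 ≤ δ v) ∧ ∑ v, δ v = τ ∧ ∀ j, ∑ v, δ v * ((v.1 j : ℕ) : ℤ) = x j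

open Classical in
theorem coeff_nrm (E k τ : ℕ) (hτ : τ ≤ 1) (θ θ₀ : Sf f →₀ ℕ) (M' : Fin n →₀ ℕ)
    (hE : ∀ v ∈ R.ρ, ((θ₀ v : ℤ) - θ v) ≤ E) :
    (if θ ≤ θ₀ + Ln.a k then coeff (θ₀ + Ln.a k - θ) (Hc f (Ln.q k + τ) M') else 0) * Ln.nrm E k =
      if Cond R τ (fun j => (M' j : ℤ) - Ln.M k j) (fun v => (θ₀ v : ℤ) - θ v) then
        ((Ln.q k : ℚ) + 1) ^ τ * (Ln.pd E (fun v => (θ₀ v : ℤ) - θ v)).eval (k : ℚ) else 0 := by
  by_cases hle : θ ≤ θ₀ + Ln.a k
  · rw [if_pos hle]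
    set κ := θ₀ + Ln.a k - θ with hκdef
    have hκ : ∀ v, (κ v : ℤ) = Ln.a k v + ((θ₀ v : ℤ) - θ v) := by
      intro v
      have h1 := hle v
      simp only [Finsupp.coe_add, Pi.add_apply] at h1
      simp only [hκdef, Finsupp.coe_tsub, Finsupp.coe_add, Pi.sub_apply, Pi.add_apply]
      omega
    have hiff : (∑ v, κ v = Ln.q k + τ ∧ ∑ v, κ v • v.1 = M') ↔
        Cond R τ (fun j => (M' j : ℤ) - Ln.M k j) (fun v => (θ₀ v : ℤ) - θ v) := by
      unfold Cond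
      have hsum : ((∑ v, κ v : ℕ) : ℤ) = Ln.q k + ∑ v, ((θ₀ v : ℤ) - θ v) := by
        push_cast
        rw [Finset.sum_congr rfl fun v _ => hκ v, Finset.sum_add_distrib]
        unfold q
        push_cast
        rfl
      have hexp : ∀ j, (((∑ v, κ v • v.1 : Fin n →₀ ℕ) j : ℕ) : ℤ) =
          Ln.M k j + ∑ v, ((θ₀ v : ℤ) - θ v) * ((v.1 j : ℕ) : ℤ) := by
        intro j
        rw [Finsupp.finsetSum_apply, M_apply]
        simp only [Finsupp.coe_smul, Pi.smul_apply, smul_eq_mul]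
        push_cast
        rw [← Finset.sum_add_distrib]
        refine Finset.sum_congr rfl fun v _ => ?_
        rw [hκ v]
        ring
      constructor
      · rintro ⟨h1, h2⟩
        refine ⟨fun v hv => ?_, ?_, fun j => ?_⟩
        · have h3 := hκ v
          rw [Ln.a_of_notMem k hv] at h3
          beta_reduce
          omega
        · rw [h1] at hsum
          push_cast at hsum
          linarith
        · have h3 := hexp j
          rw [h2] at h3
          linarith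
      · rintro ⟨-, h2, h3⟩
        refine ⟨?_, ?_⟩
        · rw [h2] at hsum
          exact_mod_cast hsum
        · ext j
          have h4 := hexp j
          rw [h3 j] at h4
          have h5 : (((∑ v, κ v • v.1 : Fin n →₀ ℕ) j : ℕ) : ℤ) = M' j := by
            rw [h4]; ring
          exact_mod_cast h5
    rw [coeff_Hc]
    by_cases hc : ∑ v, κ v = Ln.q k + τ ∧ ∑ v, κ v • v.1 = M'
    · rw [if_pos hc, if_pos (hiff.1 hc), Ln.multinomial_nrm E k τ hτ κ _ hκ hc.1 hE]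
    · rw [if_neg hc, if_neg fun h => hc (hiff.2 h), zero_mul]
  · rw [if_neg hle, zero_mul]
    symm
    by_cases hc : Cond R τ (fun j => (M' j : ℤ) - Ln.M k j) (fun v => (θ₀ v : ℤ) - θ v)
    · rw [if_pos hc]
      obtain ⟨v, hv⟩ : ∃ v, (θ₀ + Ln.a k) v < θ v := by
        by_contra hcon
        push Not at hcon
        exact hle hcon
      simp only [Finsupp.coe_add, Pi.add_apply] at hv
      have hvρ : v ∈ R.ρ := by
        by_contra h1
        have h2 := hc.1 v h1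
        beta_reduce at h2
        omega
      rw [pd_eval, Finset.prod_eq_zero hvρ (prod_Ioc_eq_zero' _ _ _ (by omega)), mul_zero,
        mul_zero]
    · rw [if_neg hc]

/-- The coefficient polynomials of an element of `ℚ[X][s]`. -/
def cG (G : Polynomial (MvPolynomial (Sf f) ℚ)) (θ : Sf f →₀ ℕ) : Polynomial ℚ :=
  G.sum fun j x => Polynomial.monomial j (coeff θ x)

theorem cG_eval (G : Polynomial (MvPolynomial (Sf f) ℚ)) (θ : Sf f →₀ ℕ) (r : ℚ) :
    (cG G θ).eval r = coeff θ (G.eval (C r : MvPolynomial (Sf f) ℚ)) := by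
  unfold cG
  rw [Polynomial.sum_def, Polynomial.eval_finsetSum, Polynomial.eval_eq_sum, Polynomial.sum_def,
    coeff_sum]
  refine Finset.sum_congr rfl fun j _ => ?_
  rw [Polynomial.eval_monomial, ← C_pow, mul_comm (G.coeff j), coeff_C_mul, mul_comm]

/-- The exponents occurring in `G`. -/
def sG (G : Polynomial (MvPolynomial (Sf f) ℚ)) : Finset (Sf f →₀ ℕ) := by
  classical exact G.support.biUnion fun j => (G.coeff j).support

theorem coeff_eval_eq_zero (G : Polynomial (MvPolynomial (Sf f) ℚ)) {θ : Sf f →₀ ℕ}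
    (hθ : θ ∉ sG G) (r : ℚ) : coeff θ (G.eval (C r : MvPolynomial (Sf f) ℚ)) = 0 := by
  classical
  rw [← cG_eval]
  unfold cG
  rw [Polynomial.sum_def, Polynomial.eval_finsetSum]
  refine Finset.sum_eq_zero fun j hj => ?_
  have : coeff θ (G.coeff j) = 0 := by
    by_contra hne
    apply hθ
    unfold sG
    exact Finset.mem_biUnion.2 ⟨j, hj, MvPolynomial.mem_support_iff.2 hne⟩
  rw [this]
  simp

open Classical in
/-- Coefficient of a product. -/
theorem coeff_mul_eq (G : Polynomial (MvPolynomial (Sf f) ℚ)) (r : ℚ) (Θ : Finset (Sf f →₀ ℕ))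
    (hΘ : sG G ⊆ Θ) (H : MvPolynomial (Sf f) ℚ) (κ : Sf f →₀ ℕ) :
    coeff κ (G.eval (C r : MvPolynomial (Sf f) ℚ) * H) =
      ∑ θ ∈ Θ, (cG G θ).eval r * (if θ ≤ κ then coeff (κ - θ) H else 0) := by
  rw [coeff_mul]
  have h1 : ∀ p ∈ Finset.HasAntidiagonal.antidiagonal κ,
      coeff p.1 (G.eval (C r : MvPolynomial (Sf f) ℚ)) * coeff p.2 H =
      (fun θ => (cG G θ).eval r * (if θ ≤ κ then coeff (κ - θ) H else 0)) p.1 := by
    intro p hp
    rw [Finset.HasAntidiagonal.mem_antidiagonal] at hp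
    beta_reduce
    have h2 : p.1 ≤ κ := by rw [← hp]; exact le_add_of_nonneg_right zero_le
    rw [if_pos h2, cG_eval, ← hp, add_tsub_cancel_left]
  rw [Finset.sum_congr rfl h1]
  have h3 : ∑ p ∈ Finset.HasAntidiagonal.antidiagonal κ,
      (fun θ => (cG G θ).eval r * (if θ ≤ κ then coeff (κ - θ) H else 0)) p.1 =
      ∑ θ ∈ Finset.Iic κ, (cG G θ).eval r * (if θ ≤ κ then coeff (κ - θ) H else 0) := by
    refine Finset.sum_nbij' (fun p => p.1) (fun θ => (θ, κ - θ)) ?_ ?_ ?_ ?_ ?_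
    · intro p hp
      rw [Finset.HasAntidiagonal.mem_antidiagonal] at hp
      rw [Finset.mem_Iic, ← hp]
      exact le_add_of_nonneg_right zero_le
    · intro θ hθ
      rw [Finset.mem_Iic] at hθ
      rw [Finset.HasAntidiagonal.mem_antidiagonal]
      exact add_tsub_cancel_of_le hθ
    · intro p hp
      rw [Finset.HasAntidiagonal.mem_antidiagonal] at hp
      ext1
      · rfl
      · simp only
        rw [← hp, add_tsub_cancel_left]
    · intro θ _
      rfl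
    · intro p _
      rfl
  rw [h3]
  rw [Finset.sum_subset (s₁ := Finset.Iic κ) (s₂ := Finset.Iic κ ∪ Θ) Finset.subset_union_left,
    Finset.sum_subset (s₁ := Θ) (s₂ := Finset.Iic κ ∪ Θ) Finset.subset_union_right]
  · intro θ _ hθ
    rw [cG_eval, coeff_eval_eq_zero G (fun h => hθ (hΘ h)), zero_mul]
  · intro θ _ hθ
    rw [Finset.mem_Iic] at hθ
    rw [if_neg hθ, mul_zero]

/-- The box of relevant shifts. -/
def boxV (R : VGData f) (β : Fin n →₀ ℕ) : Finset (Fin n →₀ ℕ) :=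
  Finset.Iic (Finsupp.equivFunOnFinite.symm (fun _ => wt R.ω β))

theorem wt_M (Ln : VLine R) (k : ℕ) : wt R.ω (Ln.M k) = Ln.q k * R.Nω := by
  unfold wt
  simp only [M_apply]
  simp only [Finset.mul_sum]
  rw [Finset.sum_comm]
  unfold q
  rw [Finset.sum_mul]
  refine Finset.sum_congr rfl fun v _ => ?_
  by_cases hv : v ∈ R.ρ
  · rw [← R.hρω v hv]
    unfold wt
    rw [Finset.mul_sum]
    exact Finset.sum_congr rfl fun j _ => by ring
  · rw [Ln.a_of_notMem k hv]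
    simp

theorem wt_add (ω : Fin n → ℕ) (x y : Fin n →₀ ℕ) : wt ω (x + y) = wt ω x + wt ω y := by
  unfold wt
  rw [← Finset.sum_add_distrib]
  exact Finset.sum_congr rfl fun j _ => by simp [mul_add]

theorem coeff_eq_zero_of_notMem_box (Ln : VLine R) (k : ℕ) {β m : Fin n →₀ ℕ}
    (hm : m ∉ boxV R β) (hle : m ≤ Ln.M k) :
    coeff (Ln.M k - m + β) (f ^ (Ln.q k + 1)) = 0 := by
  rw [← aeval_Hc]
  have hz : Hc f (Ln.q k + 1) (Ln.M k - m + β) = 0 := by
    ext κ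
    rw [coeff_Hc, if_neg, coeff_zero]
    rintro ⟨h1, h2⟩
    apply hm
    have h3 : (Ln.q k + 1) * R.Nω ≤ wt R.ω (Ln.M k - m + β) := by
      rw [← h2, ← h1]
      have h4 : wt R.ω (∑ v, κ v • v.1) = ∑ v, κ v * wt R.ω v.1 := by
        unfold wt
        simp only [Finsupp.finsetSum_apply, Finsupp.coe_smul, Pi.smul_apply, smul_eq_mul,
          Finset.mul_sum]
        rw [Finset.sum_comm]
        exact Finset.sum_congr rfl fun v _ => Finset.sum_congr rfl fun j _ => by ring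
      rw [h4, Finset.sum_mul]
      exact Finset.sum_le_sum fun v _ => Nat.mul_le_mul_left _ (R.Nω_le v.1 v.2)
    have h5 : wt R.ω (Ln.M k - m) + wt R.ω m = Ln.q k * R.Nω := by
      rw [← wt_add, tsub_add_cancel_of_le hle, wt_M]
    rw [wt_add] at h3
    have h6 : wt R.ω m ≤ wt R.ω β := by
      have : (Ln.q k + 1) * R.Nω = Ln.q k * R.Nω + R.Nω := by ring
      omega
    rw [boxV, Finset.mem_Iic]
    intro j
    simp only [Finsupp.equivFunOnFinite_symm_apply_apply]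
    refine le_trans ?_ h6
    unfold wt
    calc m j ≤ R.ω j * m j := Nat.le_mul_of_pos_left _ (R.ω_pos j)
      _ ≤ _ := Finset.single_le_sum (f := fun j => R.ω j * m j) (fun _ _ => Nat.zero_le _)
        (Finset.mem_univ j)
  rw [hz, map_zero]

open Classical in
/-- The coefficient of `x^M` of a term. -/
theorem coeff_term (Ln : VLine R) (k : ℕ) (c : Polynomial (MvPowerSeries (Fin n) ℂ))
    (β : Fin n →₀ ℕ) :
    MvPowerSeries.coeff (Ln.M k) (c.eval (Ln.q k : MvPowerSeries (Fin n) ℂ) *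
      dPow β ((f : MvPowerSeries (Fin n) ℂ) ^ (Ln.q k + 1))) =
    ∑ m ∈ boxV R β, (RootData.Line.cpoly c m).eval (Ln.q k : ℂ) *
      (if m ≤ Ln.M k then (∏ j, (((Ln.M k - m) j + 1).ascFactorial (β j) : ℂ)) *
        coeff (Ln.M k - m + β) (f ^ (Ln.q k + 1)) else 0) := by
  rw [MvPowerSeries.coeff_mul]
  have h1 : ∀ p ∈ Finset.HasAntidiagonal.antidiagonal (Ln.M k),
      MvPowerSeries.coeff p.1 (c.eval (Ln.q k : MvPowerSeries (Fin n) ℂ)) *
        MvPowerSeries.coeff p.2 (dPow β ((f : MvPowerSeries (Fin n) ℂ) ^ (Ln.q k + 1))) =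
      (fun m => (RootData.Line.cpoly c m).eval (Ln.q k : ℂ) *
        (if m ≤ Ln.M k then (∏ j, (((Ln.M k - m) j + 1).ascFactorial (β j) : ℂ)) *
          coeff (Ln.M k - m + β) (f ^ (Ln.q k + 1)) else 0)) p.1 := by
    intro p hp
    rw [Finset.HasAntidiagonal.mem_antidiagonal] at hp
    beta_reduce
    have h2 : p.1 ≤ Ln.M k := by rw [← hp]; exact le_add_of_nonneg_right zero_le
    have h3 : Ln.M k - p.1 = p.2 := by rw [← hp, add_tsub_cancel_left]
    rw [if_pos h2, RootData.Line.cpoly_eval, h3, coeff_dPow, ← MvPolynomial.coe_pow,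
      MvPolynomial.coeff_coe]
  rw [Finset.sum_congr rfl h1]
  have h3 : ∀ G : (Fin n →₀ ℕ) → ℂ, ∑ p ∈ Finset.HasAntidiagonal.antidiagonal (Ln.M k), G p.1 =
      ∑ m ∈ Finset.Iic (Ln.M k), G m := by
    intro G
    refine Finset.sum_nbij' (fun p => p.1) (fun θ => (θ, Ln.M k - θ)) ?_ ?_ ?_ ?_ ?_
    · intro p hp
      rw [Finset.HasAntidiagonal.mem_antidiagonal] at hp
      rw [Finset.mem_Iic, ← hp]
      exact le_add_of_nonneg_right zero_le
    · intro θ hθ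
      rw [Finset.mem_Iic] at hθ
      rw [Finset.HasAntidiagonal.mem_antidiagonal]
      exact add_tsub_cancel_of_le hθ
    · intro p hp
      rw [Finset.HasAntidiagonal.mem_antidiagonal] at hp
      ext1
      · rfl
      · simp only
        rw [← hp, add_tsub_cancel_left]
    · intro θ _
      rfl
    · intro p _
      rfl
  rw [h3 (fun m => (RootData.Line.cpoly c m).eval (Ln.q k : ℂ) *
        (if m ≤ Ln.M k then (∏ j, (((Ln.M k - m) j + 1).ascFactorial (β j) : ℂ)) *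
          coeff (Ln.M k - m + β) (f ^ (Ln.q k + 1)) else 0))]
  rw [Finset.sum_subset (s₁ := Finset.Iic (Ln.M k)) (s₂ := Finset.Iic (Ln.M k) ∪ boxV R β)
      Finset.subset_union_left,
    Finset.sum_subset (s₁ := boxV R β) (s₂ := Finset.Iic (Ln.M k) ∪ boxV R β)
      Finset.subset_union_right]
  · intro m _ hm
    split_ifs with h4
    · rw [Ln.coeff_eq_zero_of_notMem_box k hm h4]
      ring
    · ring
  · intro m _ hm
    rw [Finset.mem_Iic] at hm
    rw [if_neg hm, mul_zero]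

open Classical in
/-- The polynomial of the left-hand term. -/
def lhsP (Ln : VLine R) (G : Polynomial (MvPolynomial (Sf f) ℚ)) (Θ : Finset (Sf f →₀ ℕ))
    (θ₀ : Sf f →₀ ℕ) (E : ℕ) : Polynomial ℚ :=
  ∑ θ ∈ Θ, if Cond R 0 (fun _ => 0) (fun v => (θ₀ v : ℤ) - θ v) then
    (cG G θ).comp Ln.Qp * Ln.pd E (fun v => (θ₀ v : ℤ) - θ v) else 0

theorem lhs_term (Ln : VLine R) (G : Polynomial (MvPolynomial (Sf f) ℚ))
    (Θ : Finset (Sf f →₀ ℕ)) (hΘ : sG G ⊆ Θ) (θ₀ : Sf f →₀ ℕ) (E : ℕ) (hE : ∀ v, θ₀ v ≤ E)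
    (k : ℕ) :
    coeff (θ₀ + Ln.a k) (G.eval (Ln.q k : MvPolynomial (Sf f) ℚ) * Hc f (Ln.q k) (Ln.M k)) *
      Ln.nrm E k = (Ln.lhsP G Θ θ₀ E).eval (k : ℚ) := by
  classical
  have hq : (Ln.q k : MvPolynomial (Sf f) ℚ) = C ((Ln.q k : ℕ) : ℚ) := by simp
  rw [hq, coeff_mul_eq G _ Θ hΘ, lhsP, Finset.sum_mul, Polynomial.eval_finsetSum]
  refine Finset.sum_congr rfl fun θ _ => ?_
  have h1 := Ln.coeff_nrm E k 0 (by omega) θ θ₀ (Ln.M k) (fun v _ => by
    have := hE v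
    omega)
  rw [add_zero] at h1
  rw [mul_assoc, h1]
  simp only [sub_self]
  split_ifs with hc
  · rw [Polynomial.eval_mul, Polynomial.eval_comp, Ln.Qp_eval]
    ring
  · simp

open Classical in
/-- The polynomial of a right-hand term. -/
def rhsP (Ln : VLine R) (G : Polynomial (MvPolynomial (Sf f) ℚ)) (Θ : Finset (Sf f →₀ ℕ))
    (θ₀ : Sf f →₀ ℕ) (E : ℕ) (β m : Fin n →₀ ℕ) : Polynomial ℚ :=
  (Ln.Qp + 1) * (∏ j, ∏ e ∈ range (β j),
    (Ln.Mp j - Polynomial.C ((m j : ℕ) : ℚ) + 1 + Polynomial.C (e : ℚ))) *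
  ∑ θ ∈ Θ, if Cond R 1 (fun j => (β j : ℤ) - m j) (fun v => (θ₀ v : ℤ) - θ v) then
    (cG G θ).comp Ln.Qp * Ln.pd E (fun v => (θ₀ v : ℤ) - θ v) else 0

theorem rhs_term (Ln : VLine R) (G : Polynomial (MvPolynomial (Sf f) ℚ))
    (Θ : Finset (Sf f →₀ ℕ)) (hΘ : sG G ⊆ Θ) (θ₀ : Sf f →₀ ℕ) (E : ℕ) (hE : ∀ v, θ₀ v ≤ E)
    (β m : Fin n →₀ ℕ) (k : ℕ) (H : MvPolynomial (Sf f) ℚ)
    (hH1 : m ≤ Ln.M k → H = C (∏ j, (((Ln.M k - m) j + 1).ascFactorial (β j) : ℚ)) *
      Hc f (Ln.q k + 1) (Ln.M k - m + β))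
    (hH2 : ¬ m ≤ Ln.M k → H = 0) :
    coeff (θ₀ + Ln.a k) (G.eval (Ln.q k : MvPolynomial (Sf f) ℚ) * H) *
      Ln.nrm E k = (Ln.rhsP G Θ θ₀ E β m).eval (k : ℚ) := by
  classical
  have hprod : ((∏ j, ∏ e ∈ range (β j),
    (Ln.Mp j - Polynomial.C ((m j : ℕ) : ℚ) + 1 + Polynomial.C (e : ℚ))) : Polynomial ℚ).eval
      (k : ℚ) = ∏ j, ∏ e ∈ range (β j), ((Ln.M k j : ℚ) - (m j : ℚ) + 1 + e) := by
    simp only [Polynomial.eval_prod, Polynomial.eval_add, Polynomial.eval_sub, Polynomial.eval_C,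
      Polynomial.eval_one, Ln.Mp_eval]
  by_cases hm : m ≤ Ln.M k
  · rw [hH1 hm]
    have hasc : (∏ j, ((((Ln.M k - m) j + 1).ascFactorial (β j) : ℕ) : ℚ)) =
        ∏ j, ∏ e ∈ range (β j), ((Ln.M k j : ℚ) - (m j : ℚ) + 1 + e) := by
      refine Finset.prod_congr rfl fun j _ => ?_
      rw [Nat.ascFactorial_eq_prod_range]
      push_cast
      refine Finset.prod_congr rfl fun e _ => ?_
      simp only [Pi.sub_apply]
      rw [Nat.cast_sub (hm j)]
    have hq : (Ln.q k : MvPolynomial (Sf f) ℚ) = C ((Ln.q k : ℕ) : ℚ) := by simp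
    rw [mul_left_comm, coeff_C_mul, hq, coeff_mul_eq G _ Θ hΘ, hasc, rhsP]
    rw [Polynomial.eval_mul, Polynomial.eval_mul, hprod, Polynomial.eval_finsetSum,
      Finset.mul_sum, Finset.sum_mul, Finset.mul_sum]
    refine Finset.sum_congr rfl fun θ _ => ?_
    have h1 := Ln.coeff_nrm E k 1 (by omega) θ θ₀ (Ln.M k - m + β) (fun v _ => by
      have := hE v
      omega)
    have h2 : (fun j => (((Ln.M k - m + β) j : ℕ) : ℤ) - Ln.M k j) =
        fun j => (β j : ℤ) - m j := by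
      funext j
      have := hm j
      simp only [Finsupp.coe_add, Finsupp.coe_tsub, Pi.add_apply, Pi.sub_apply]
      omega
    rw [h2] at h1
    rw [mul_assoc, mul_assoc, h1]
    split_ifs with hc
    · rw [Polynomial.eval_mul, Polynomial.eval_comp, Ln.Qp_eval, Polynomial.eval_add,
        Ln.Qp_eval, Polynomial.eval_one]
      ring
    · simp
  · rw [hH2 hm, mul_zero, coeff_zero, zero_mul]
    symm
    rw [rhsP, Polynomial.eval_mul, Polynomial.eval_mul, hprod, Polynomial.eval_finsetSum]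
    by_cases hex : ∃ θ ∈ Θ, Cond R 1 (fun j => (β j : ℤ) - m j) (fun v => (θ₀ v : ℤ) - θ v) ∧
        ¬ ∃ v ∈ R.ρ, (Ln.a k v : ℤ) + ((θ₀ v : ℤ) - θ v) < 0
    · obtain ⟨θ, -, hc, hcon⟩ := hex
      obtain ⟨j, hj⟩ : ∃ j, Ln.M k j < m j := by
        by_contra h3
        push Not at h3
        exact hm fun j => h3 j
      have h1 := hc.2.2 j
      have h2 : 0 ≤ ∑ v, ((Ln.a k v : ℤ) + ((θ₀ v : ℤ) - θ v)) * ((v.1 j : ℕ) : ℤ) := by
        refine Finset.sum_nonneg fun v _ => mul_nonneg ?_ (by positivity)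
        by_cases hv : v ∈ R.ρ
        · by_contra h3
          exact hcon ⟨v, hv, not_le.1 h3⟩
        · have := hc.1 v hv
          beta_reduce at this
          omega
      have h4 : ∑ v, (Ln.a k v : ℤ) * ((v.1 j : ℕ) : ℤ) = Ln.M k j := by
        rw [M_apply]
        push_cast
        rfl
      simp only [add_mul, Finset.sum_add_distrib] at h2
      beta_reduce at h1
      rw [h1, h4] at h2
      have h3 : ∏ j, ∏ e ∈ range (β j), ((Ln.M k j : ℚ) - (m j : ℚ) + 1 + e) = 0 := by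
        refine Finset.prod_eq_zero (Finset.mem_univ j) ?_
        refine Finset.prod_eq_zero (i := m j - Ln.M k j - 1) (Finset.mem_range.2 (by omega)) ?_
        have h4 : ((m j - Ln.M k j - 1 : ℕ) : ℚ) = (m j : ℚ) - Ln.M k j - 1 := by
          rw [Nat.cast_sub (by omega), Nat.cast_sub (by omega), Nat.cast_one]
        rw [h4]
        ring
      rw [h3]
      ring
    · push Not at hex
      rw [Finset.sum_eq_zero fun θ hθ => ?_, mul_zero]
      split_ifs with hc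
      · obtain ⟨v, hv, h⟩ := hex θ hθ hc
        rw [Polynomial.eval_mul, pd_eval,
          Finset.prod_eq_zero hv (prod_Ioc_eq_zero' _ _ _ (by omega)), mul_zero,
          mul_zero]
      · simp

theorem rhsP_x₀ (Ln : VLine R) (G : Polynomial (MvPolynomial (Sf f) ℚ))
    (Θ : Finset (Sf f →₀ ℕ)) (θ₀ : Sf f →₀ ℕ) (E : ℕ) (β m : Fin n →₀ ℕ) :
    (Ln.rhsP G Θ θ₀ E β m).eval Ln.x₀ = 0 := by
  classical
  unfold rhsP
  by_cases hex : ∃ θ ∈ Θ, Cond R 1 (fun j => (β j : ℤ) - m j) (fun v => (θ₀ v : ℤ) - θ v)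
  · obtain ⟨θ, -, hc⟩ := hex
    have h1 : ∃ j, 0 < R.w j ∧ m j < β j := by
      by_contra hcon
      push Not at hcon
      have h2 : ∑ v, ((θ₀ v : ℤ) - θ v) * (wt R.w v.1 : ℤ) =
          ∑ j, (R.w j : ℤ) * ((β j : ℤ) - m j) := by
        have h3 : ∀ j, ∑ v, ((θ₀ v : ℤ) - θ v) * ((v.1 j : ℕ) : ℤ) = (β j : ℤ) - m j := hc.2.2
        simp only [← h3]
        simp only [Finset.mul_sum]
        rw [Finset.sum_comm]
        refine Finset.sum_congr rfl fun v _ => ?_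
        unfold wt
        push_cast
        rw [Finset.mul_sum]
        exact Finset.sum_congr rfl fun j _ => by ring
      have h4 : (R.N : ℤ) ≤ ∑ v, ((θ₀ v : ℤ) - θ v) * (wt R.w v.1 : ℤ) := by
        have h5 : ∑ v, ((θ₀ v : ℤ) - θ v) * (R.N : ℤ) = R.N := by
          rw [← Finset.sum_mul, hc.2.1]
          push_cast
          ring
        rw [← h5]
        refine Finset.sum_le_sum fun v _ => ?_
        by_cases hv : v ∈ R.ρ
        · rw [R.hρw v hv]
        · refine mul_le_mul_of_nonneg_left ?_ (hc.1 v hv)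
          exact_mod_cast R.N_le v.1 v.2
      have h6 : ∑ j, (R.w j : ℤ) * ((β j : ℤ) - m j) ≤ 0 := by
        refine Finset.sum_nonpos fun j _ => ?_
        rcases Nat.eq_zero_or_pos (R.w j) with h7 | h7
        · rw [h7]; simp
        · have := hcon j h7
          refine mul_nonpos_of_nonneg_of_nonpos (by positivity) (by omega)
      have := R.N_pos
      omega
    obtain ⟨j, hj, hlt⟩ := h1
    rw [Polynomial.eval_mul, Polynomial.eval_mul, Polynomial.eval_prod]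
    have h5 : ∏ j, Polynomial.eval Ln.x₀ (∏ e ∈ range (β j),
      (Ln.Mp j - Polynomial.C ((m j : ℕ) : ℚ) + 1 + Polynomial.C (e : ℚ))) = 0 := by
      refine Finset.prod_eq_zero (Finset.mem_univ j) ?_
      rw [Polynomial.eval_prod]
      refine Finset.prod_eq_zero (Finset.mem_range.2 hlt) ?_
      simp only [Polynomial.eval_add, Polynomial.eval_sub, Polynomial.eval_C, Polynomial.eval_one,
        Ln.Mp_x₀ j hj]
      ring
    rw [h5]
    ring
  · push Not at hex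
    rw [Finset.sum_eq_zero fun θ hθ => if_neg (hex θ hθ), mul_zero, Polynomial.eval_zero]

theorem lhsP_x₀ (Ln : VLine R) (G : Polynomial (MvPolynomial (Sf f) ℚ))
    (Θ : Finset (Sf f →₀ ℕ)) (hΘ : sG G ⊆ Θ) (θ₀ : Sf f →₀ ℕ) (E : ℕ)
    (hθ₀ : coeff θ₀ (G.eval (C (-(∑ v ∈ R.ρ, R.γ v)) : MvPolynomial (Sf f) ℚ)) ≠ 0)
    (hmin : ∀ θ : Sf f →₀ ℕ,
      coeff θ (G.eval (C (-(∑ v ∈ R.ρ, R.γ v)) : MvPolynomial (Sf f) ℚ)) ≠ 0 →
      (∀ v, v ∉ R.ρ → θ v ≤ θ₀ v) → ∀ v, v ∉ R.ρ → θ v = θ₀ v) :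
    (Ln.lhsP G Θ θ₀ E).eval Ln.x₀ ≠ 0 := by
  classical
  unfold lhsP
  rw [Polynomial.eval_finsetSum, Finset.sum_eq_single θ₀]
  · rw [if_pos]
    · rw [Polynomial.eval_mul, Polynomial.eval_comp, Ln.Qp_x₀, cG_eval]
      refine mul_ne_zero hθ₀ ?_
      unfold pd
      simp only [sub_self]
      rw [Polynomial.eval_mul, Polynomial.eval_C, Polynomial.eval_prod]
      refine mul_ne_zero ?_ ?_
      · unfold cst
        refine Finset.prod_ne_zero_iff.2 fun v _ => ?_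
        exact inv_ne_zero (by exact_mod_cast Nat.factorial_ne_zero _)
      · refine Finset.prod_ne_zero_iff.2 fun v hv => ?_
        rw [Polynomial.eval_prod]
        refine Finset.prod_ne_zero_iff.2 fun e he => ?_
        rw [Polynomial.eval_add, Ln.A_x₀ hv, Polynomial.eval_C]
        rw [Finset.mem_Ioc] at he
        intro h
        refine R.γ_ne v hv (e - 1).toNat ?_
        have h4 : (((e - 1).toNat : ℕ) : ℤ) = e - 1 := Int.toNat_of_nonneg (by omega)
        have h5 : (((e - 1).toNat : ℕ) : ℚ) = (e : ℚ) - 1 := by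
          exact_mod_cast congrArg (Int.cast : ℤ → ℚ) h4
        rw [h5]
        linarith
    · refine ⟨fun v _ => by simp, by simp, fun j => by simp⟩
  · intro θ _ hne
    split_ifs with hc
    · rw [Polynomial.eval_mul, Polynomial.eval_comp, Ln.Qp_x₀, cG_eval]
      by_cases h0 : coeff θ (G.eval (C (-(∑ v ∈ R.ρ, R.γ v)) : MvPolynomial (Sf f) ℚ)) = 0
      · rw [h0, zero_mul]
      · exfalso
        have h1 := hmin θ h0 fun v hv => by
          have := hc.1 v hv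
          beta_reduce at this
          omega
        have h2 := R.lin (fun v => (θ₀ v : ℚ) - θ v) (fun v hv => by rw [h1 v hv, sub_self])
          (fun j => by
            have := hc.2.2 j
            beta_reduce at this
            exact_mod_cast this)
        apply hne
        ext v
        have h3 := congrFun h2 v
        simp only [Pi.zero_apply] at h3
        have h4 : (θ₀ v : ℚ) = θ v := by linarith
        exact_mod_cast h4.symm
    · simp
  · intro hnot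
    exfalso
    exact hθ₀ (coeff_eval_eq_zero G (fun h => hnot (hΘ h)) _)

end VLine

/-- **Root theorem for very general polynomials.** -/
theorem root (R : VGData f) (hf : f ≠ 0) (halg : AlgebraicIndependent ℚ (cf f))
    (b : Polynomial ℂ)
    (hb : InDnForm f 1 (b.map (MvPowerSeries.C (σ := Fin n) (R := ℂ)))) :
    b.eval (-((∑ v ∈ R.ρ, R.γ v : ℚ) : ℂ)) = 0 := by
  classical
  by_contra hne
  obtain ⟨Ln⟩ := R.exists_vline
  obtain ⟨Φ, hΦ, q₀, hq⟩ := hb.exists_opVal hf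
  obtain ⟨k₀, c, β, hc⟩ := hΦ.flat
  let T : Type := Option (Σ i : Fin k₀, {m // m ∈ VLine.boxV R (β i)})
  let g : T → Polynomial ℂ := fun t => match t with
    | none => b
    | some x => - RootData.Line.cpoly (c x.1) x.2.1
  let H : T → {k : ℕ // q₀ ≤ k} → MvPolynomial (Sf f) ℚ := fun t e => match t with
    | none => Hc f (Ln.q e.1) (Ln.M e.1)
    | some x => if x.2.1 ≤ Ln.M e.1 then
        C (∏ j, (((Ln.M e.1 - x.2.1) j + 1).ascFactorial (β x.1 j) : ℚ)) *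
          Hc f (Ln.q e.1 + 1) (Ln.M e.1 - x.2.1 + β x.1) else 0
  have key : ∀ e : {k : ℕ // q₀ ≤ k},
      ∑ t, (g t).eval (Ln.q e.1 : ℂ) * (aeval (cf f) (H t e) : ℂ) = 0 := by
    rintro ⟨k, hk⟩
    have hqk : q₀ ≤ Ln.q k := hk.trans (Ln.le_q k)
    have h1 := (hq (Ln.q k) hqk).2
    rw [add_tsub_cancel_right, hc] at h1
    have h2 : Polynomial.eval (Ln.q k : MvPowerSeries (Fin n) ℂ)
        (b.map (MvPowerSeries.C (σ := Fin n) (R := ℂ))) =
        MvPowerSeries.C (b.eval (Ln.q k : ℂ)) := by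
      rw [Polynomial.eval_map, ← Polynomial.eval₂_hom, map_natCast]
    have h3 := congrArg (MvPowerSeries.coeff (Ln.M k)) h1
    rw [h2, MvPowerSeries.coeff_C_mul, ← MvPolynomial.coe_pow, MvPolynomial.coeff_coe,
      map_sum] at h3
    rw [Fintype.sum_option, Fintype.sum_sigma]
    simp only [g, H, aeval_Hc]
    rw [h3, ← Finset.sum_add_distrib]
    refine Finset.sum_eq_zero fun i _ => ?_
    rw [Ln.coeff_term k (c i) (β i),
      ← Finset.sum_coe_sort (VLine.boxV R (β i)) (fun m => (RootData.Line.cpoly (c i) m).eval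
        (Ln.q k : ℂ) * (if m ≤ Ln.M k then
          (∏ j, (((Ln.M k - m) j + 1).ascFactorial (β i j) : ℂ)) *
            coeff (Ln.M k - m + β i) (f ^ (Ln.q k + 1)) else 0)),
      ← Finset.sum_add_distrib]
    refine Finset.sum_eq_zero fun m _ => ?_
    rw [Polynomial.eval_neg]
    split_ifs with h5
    · rw [map_mul, aeval_Hc, aeval_C]
      simp only [eq_ratCast]
      push_cast
      ring
    · simp
  obtain ⟨G, hG0, hG⟩ := descent (cf f) halg g (fun e : {k : ℕ // q₀ ≤ k} => Ln.q e.1) H key none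
    (-(∑ v ∈ R.ρ, R.γ v)) (by
      simp only [g]
      push_cast at hne ⊢
      exact hne)
  set P₀ := (G none).eval (C (-(∑ v ∈ R.ρ, R.γ v)) : MvPolynomial (Sf f) ℚ) with hP₀
  obtain ⟨θ₀, hθ₀, hmin⟩ := P₀.support.exists_min_image
    (fun θ => ∑ v ∈ univ \ R.ρ, θ v) (by
      rw [Finset.nonempty_iff_ne_empty]
      intro h
      exact hG0 (MvPolynomial.support_eq_empty.1 h))
  let Θ : Finset (Sf f →₀ ℕ) := Finset.univ.biUnion fun t => VLine.sG (G t)
  have hΘ : ∀ t, VLine.sG (G t) ⊆ Θ := fun t x hx => Finset.mem_biUnion.2 ⟨t, Finset.mem_univ _, hx⟩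
  let E : ℕ := ∑ v, θ₀ v
  have hE : ∀ v, θ₀ v ≤ E := fun v =>
    Finset.single_le_sum (f := fun v => θ₀ v) (fun _ _ => Nat.zero_le _) (Finset.mem_univ v)
  let TP : Polynomial ℚ := Ln.lhsP (G none) Θ θ₀ E +
    ∑ x : (Σ i : Fin k₀, {m // m ∈ VLine.boxV R (β i)}),
      Ln.rhsP (G (some x)) Θ θ₀ E (β x.1) x.2.1
  have hTPk : ∀ k, q₀ ≤ k → TP.eval (k : ℚ) = 0 := by
    intro k hk
    have h1 := congrArg (fun P => coeff (θ₀ + Ln.a k) P * Ln.nrm E k) (hG ⟨k, hk⟩)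
    simp only [coeff_zero, zero_mul] at h1
    rw [coeff_sum, Finset.sum_mul, Fintype.sum_option] at h1
    rw [← h1]
    simp only [TP]
    rw [Polynomial.eval_add, Polynomial.eval_finsetSum]
    congr 1
    · exact (Ln.lhs_term (G none) Θ (hΘ _) θ₀ E hE k).symm
    · refine Finset.sum_congr rfl fun x _ => ?_
      exact (Ln.rhs_term (G (some x)) Θ (hΘ _) θ₀ E hE (β x.1) x.2.1 k _
        (fun h => by simp only [H]; rw [if_pos h]) (fun h => by simp only [H]; rw [if_neg h])).symm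
  have hTP : TP = 0 := by
    refine Polynomial.eq_of_infinite_eval_eq _ _ ?_
    have h1 : ((fun k : ℕ => (k : ℚ)) '' Set.Ici q₀).Infinite :=
      (Set.Ici_infinite q₀).image (fun a _ b _ h => by exact_mod_cast h)
    refine h1.mono ?_
    rintro _ ⟨k, hk, rfl⟩
    simp only [Set.mem_ofPred_eq, Polynomial.eval_zero]
    exact hTPk k hk
  have h0 : (Ln.lhsP (G none) Θ θ₀ E).eval Ln.x₀ = 0 := by
    have h1 : TP.eval Ln.x₀ = 0 := by rw [hTP, Polynomial.eval_zero]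
    simp only [TP] at h1
    rw [Polynomial.eval_add, Polynomial.eval_finsetSum,
      Finset.sum_eq_zero fun x _ => Ln.rhsP_x₀ (G (some x)) Θ θ₀ E (β x.1) x.2.1, add_zero] at h1
    exact h1
  refine Ln.lhsP_x₀ (G none) Θ (hΘ _) θ₀ E ?_ ?_ h0
  · exact MvPolynomial.mem_support_iff.1 hθ₀
  · intro θ hθ hle
    have h1 := hmin θ (MvPolynomial.mem_support_iff.2 hθ)
    have h2 : ∀ v ∈ univ \ R.ρ, θ v ≤ θ₀ v := fun v hv => hle v (Finset.mem_sdiff.1 hv).2
    intro v hv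
    by_contra hne
    have h3 : θ v < θ₀ v := lt_of_le_of_ne (hle v hv) hne
    have h4 := Finset.sum_lt_sum h2 ⟨v, Finset.mem_sdiff.2 ⟨Finset.mem_univ _, hv⟩, h3⟩
    omega

end VGData

end MPb07157
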