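import Mathlib
import Pool.Agent.Lib.MP_b07157_ag.NewtDefs
import Pool.Agent.Lib.MP_b07157_ag.NewtLocal
import Pool.Agent.Lib.MP_b07157_ag.NewtVG
import Pool.Agent.Lib.MP_b07157_ag.NewtGeneric

section

/-!
# A simplex among spanning exponents, with a Cramer bound
-/

noncomputable section

namespace MPb07157

open MvPolynomial Finset
open scoped Nat

variable {n : ℕ}

/-- the determinant of a matrix with entries of absolute value at most `D`, with one column
replaced by ones -/
theorem det_updateCol_one_le {m : Type} [Fintype m] [DecidableEq m] (A : Matrix m m ℚ) (D : ℚ)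
    (hA : ∀ i j, |A i j| ≤ D) (i : m) :
    |(A.updateCol i fun _ => 1).det| ≤ ((Fintype.card m)! : ℚ) * D ^ (Fintype.card m - 1) := by
  rw [Matrix.det_apply]
  refine (Finset.abs_sum_le_sum_abs _ _).trans ?_
  have h1 : ∀ σ : Equiv.Perm m, |Equiv.Perm.sign σ • ∏ k, (A.updateCol i fun _ => 1) (σ k) k| ≤
      D ^ (Fintype.card m - 1) := by
    intro σ
    have h2 : |Equiv.Perm.sign σ • ∏ k, (A.updateCol i fun _ => 1) (σ k) k| =
        |∏ k, (A.updateCol i fun _ => 1) (σ k) k| := by
      rcases Int.units_eq_one_or (Equiv.Perm.sign σ) with h | h <;> rw [h] <;> simp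
    rw [h2, Finset.abs_prod, ← Finset.mul_prod_erase _ _ (Finset.mem_univ i)]
    have h3 : |(A.updateCol i fun _ => (1 : ℚ)) (σ i) i| = 1 := by
      rw [Matrix.updateCol_self]; simp
    rw [h3, one_mul]
    calc ∏ k ∈ Finset.univ.erase i, |(A.updateCol i fun _ => (1 : ℚ)) (σ k) k|
        ≤ ∏ _k ∈ Finset.univ.erase i, D := by
          refine Finset.prod_le_prod (fun _ _ => abs_nonneg _) fun k hk => ?_
          rw [Matrix.updateCol_ne (Finset.ne_of_mem_erase hk)]
          exact hA _ _
      _ = D ^ (Fintype.card m - 1) := by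
          rw [Finset.prod_const, Finset.card_erase_of_mem (Finset.mem_univ i), Finset.card_univ]
  calc ∑ σ : Equiv.Perm m, |Equiv.Perm.sign σ • ∏ k, (A.updateCol i fun _ => 1) (σ k) k|
      ≤ ∑ _σ : Equiv.Perm m, D ^ (Fintype.card m - 1) := Finset.sum_le_sum fun σ _ => h1 σ
    _ = _ := by
        rw [Finset.sum_const, Finset.card_univ, Fintype.card_perm, nsmul_eq_mul]

/-- Cramer's rule with bounds for an invertible integer matrix -/
theorem exists_solution {m : Type} [Fintype m] [DecidableEq m] (B : Matrix m m ℤ) (D : ℕ)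
    (hB : ∀ i j, |B i j| ≤ D) (hdet : B.det ≠ 0) :
    ∃ x : m → ℚ, (∀ j, ∑ i, x i * (B i j : ℚ) = 1) ∧
      ∀ i, |x i| ≤ ((Fintype.card m)! : ℚ) * (D : ℚ) ^ (Fintype.card m - 1) := by
  set A : Matrix m m ℚ := (B.map (Int.castRingHom ℚ)).transpose with hAdef
  have hA : ∀ i j, A i j = (B j i : ℚ) := fun i j => rfl
  have hdetA : A.det = (B.det : ℚ) := by
    rw [hAdef, Matrix.det_transpose]
    exact ((Int.castRingHom ℚ).map_det B).symm
  have hd0 : A.det ≠ 0 := by rw [hdetA]; exact_mod_cast hdet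
  have hd1 : 1 ≤ |A.det| := by
    rw [hdetA, ← Int.cast_abs]
    exact_mod_cast Int.one_le_abs hdet
  refine ⟨fun i => A.cramer (fun _ => 1) i / A.det, ?_, ?_⟩
  · intro j
    have h1 := congrFun (Matrix.mulVec_cramer A (fun _ => 1)) j
    simp only [Matrix.mulVec, dotProduct, Pi.smul_apply, smul_eq_mul, mul_one] at h1
    have h2 : ∑ i, A.cramer (fun _ => 1) i / A.det * (B i j : ℚ) =
        (∑ i, A j i * A.cramer (fun _ => 1) i) / A.det := by
      rw [Finset.sum_div]
      refine Finset.sum_congr rfl fun i _ => ?_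
      rw [hA]; ring
    rw [h2, h1, div_self hd0]
  · intro i
    simp only
    rw [abs_div, Matrix.cramer_apply]
    have h1 := det_updateCol_one_le A (D : ℚ) (by
      intro a b
      rw [hA, ← Int.cast_abs]
      exact_mod_cast hB b a) i
    calc _ ≤ |(A.updateCol i fun _ => 1).det| / 1 := by
          exact div_le_div_of_nonneg_left (abs_nonneg _) one_pos hd1
      _ ≤ _ := by rw [div_one]; exact h1

theorem sum_pos_eq (w : Fin n → ℕ) (F : Fin n → ℚ) (hF : ∀ j, w j = 0 → F j = 0) :
    ∑ j, F j = ∑ j : {j : Fin n // 0 < w j}, F j.1 := by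
  classical
  rw [← Finset.sum_subtype (Finset.univ.filter fun j => 0 < w j) (by simp) F]
  symm
  refine Finset.sum_subset (Finset.filter_subset _ _) fun j _ hj => hF j ?_
  simpa using hj

/-- V3: a simplex among spanning exponents, with bounds. -/
theorem exists_simplex (w : Fin n → ℕ) (hw : ∃ j, 0 < w j) (I : Finset (Fin n →₀ ℕ))
    (hs : Spans w I) (d D : ℕ) (hd : 0 < d)
    (hI : ∀ v ∈ I, ∃ v' : Fin n →₀ ℕ, v = d • v' ∧ ∀ j, v' j ≤ D) :
    ∃ (ρ : Finset (Fin n →₀ ℕ)) (γ : (Fin n →₀ ℕ) → ℚ), ρ ⊆ I ∧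
      LinearIndependent ℚ (fun v : {v // v ∈ ρ} => fun j => ((v.1 j : ℕ) : ℚ)) ∧
      (∀ j, 0 < w j → ∑ v ∈ ρ, γ v * (v j : ℚ) = 1) ∧
      ∀ v ∈ ρ, |γ v| * d ≤ (n ! : ℚ) * (D : ℚ) ^ (n - 1) := by
  classical
  let P := {j : Fin n // 0 < w j}
  let π : (Fin n →₀ ℕ) → (P → ℚ) := fun v j => ((v j.1 : ℕ) : ℚ)
  -- the projections span
  have hspan : Submodule.span ℚ (Set.range fun v : {v // v ∈ I} => π v.1) = ⊤ := by
    by_contra hcon
    obtain ⟨f, hf0, hf⟩ := Submodule.exists_le_ker_of_lt_top _ (lt_top_iff_ne_top.2 hcon)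
    obtain ⟨b, hb⟩ := IsLocalization.exist_integer_multiples_of_finite (nonZeroDivisors ℤ)
      (fun j : P => f (Pi.single j 1))
    choose z hz using hb
    have hb0 : (b : ℤ) ≠ 0 := nonZeroDivisors.ne_zero b.2
    have hz' : ∀ j, ((z j : ℤ) : ℚ) = (b : ℤ) * f (Pi.single j 1) := by
      intro j
      have := hz j
      rw [eq_intCast] at this
      rw [this]
      exact zsmul_eq_mul _ _
    have hfx : ∀ x : P → ℚ, f x = ∑ j : P, x j * f (Pi.single j 1) := by
      intro x
      conv_lhs => rw [← Finset.univ_sum_single x]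
      rw [map_sum]
      refine Finset.sum_congr rfl fun j _ => ?_
      rw [← smul_eq_mul, ← map_smul, ← Pi.single_smul, smul_eq_mul, mul_one]
    have h1 := hs (fun j => if h : 0 < w j then z ⟨j, h⟩ else 0)
      (fun j hj => by simp [hj]) (by
        intro v hv
        have h2 : f (π v) = 0 := hf (Submodule.subset_span ⟨⟨v, hv⟩, rfl⟩)
        have h4 : (((∑ j : Fin n, (if h : 0 < w j then z ⟨j, h⟩ else 0) * (v j : ℤ)) : ℤ) : ℚ) =
            (b : ℤ) * f (π v) := by
          rw [hfx, Finset.mul_sum]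
          push_cast
          rw [sum_pos_eq w _ (by intro j hj; simp [hj])]
          refine Finset.sum_congr rfl fun j _ => ?_
          rw [dif_pos j.2, hz' j]
          simp only [π]
          ring
        rw [h2, mul_zero] at h4
        exact_mod_cast h4)
    apply hf0
    have hz0 : ∀ j : P, f (Pi.single j 1) = 0 := by
      intro j
      have h2 := congrFun h1 j.1
      simp only [dif_pos j.2, Pi.zero_apply] at h2
      have h3 := hz' j
      have h4 : z ⟨j.1, j.2⟩ = 0 := h2
      have h5 : z j = 0 := h4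
      rw [h5, Int.cast_zero] at h3
      exact (mul_eq_zero.1 h3.symm).resolve_left (by exact_mod_cast hb0)
    refine LinearMap.ext fun x => ?_
    rw [hfx]
    simp [hz0]
  obtain ⟨κ, a, ha, hsp, hli⟩ := exists_linearIndependent' ℚ (fun v : {v // v ∈ I} => π v.1)
  rw [hspan] at hsp
  have : Finite κ := Finite.of_injective a ha
  have : Fintype κ := Fintype.ofFinite κ
  let bas : Module.Basis κ ℚ (P → ℚ) := Module.Basis.mk hli (by rw [hsp])
  have hcard : Fintype.card κ = Fintype.card P := by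
    rw [← Module.finrank_eq_card_basis bas, Module.finrank_fintype_fun_eq_card]
  let e : κ ≃ P := Fintype.equivOfCardEq hcard
  choose v' hv' hvD using hI
  let B : Matrix P P ℤ := fun i j => ((v' (a (e.symm i)).1 (a (e.symm i)).2 j.1 : ℕ) : ℤ)
  have hBe : ∀ i j, ((a (e.symm i)).1 j.1 : ℚ) = d * (B i j : ℚ) := by
    intro i j
    conv_lhs => rw [hv' _ (a (e.symm i)).2]
    simp [B]
  have hdet : B.det ≠ 0 := by
    intro h0
    have h1 : (B.map (Int.castRingHom ℚ)).det = 0 := by
      rw [← (Int.castRingHom ℚ).mapMatrix_apply, ← RingHom.map_det, h0, map_zero]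
    obtain ⟨x, hx0, hx⟩ := Matrix.exists_vecMul_eq_zero_iff.2 h1
    have h2 := Fintype.linearIndependent_iff.1 hli (fun k => x (e k)) (by
      funext j
      have h3 := congrFun hx j
      simp only [Matrix.vecMul, dotProduct, Matrix.map_apply, Pi.zero_apply] at h3
      simp only [Finset.sum_apply, Pi.smul_apply, Function.comp, smul_eq_mul, Pi.zero_apply]
      rw [← Equiv.sum_comp e.symm]
      simp only [Equiv.apply_symm_apply]
      have h4 : ∀ i, x i * π (a (e.symm i)).1 j = d * (x i * (B i j : ℚ)) := by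
        intro i
        have := hBe i j
        simp only [π]
        rw [this]; ring
      rw [Finset.sum_congr rfl fun i _ => h4 i, ← Finset.mul_sum]
      have h5 : ∑ i, x i * (B i j : ℚ) = 0 := by simpa using h3
      rw [h5, mul_zero])
    apply hx0
    funext i
    have := h2 (e.symm i)
    simpa using this
  obtain ⟨x, hx1, hx2⟩ := exists_solution B D (by
    intro i j
    simp only [B]
    rw [abs_of_nonneg (by positivity)]
    exact_mod_cast hvD _ _ _) hdet
  have hP : Nonempty P := ⟨⟨hw.choose, hw.choose_spec⟩⟩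
  have hD : 1 ≤ D := by
    by_contra hcon
    apply hdet
    have h0 : ∀ i j, B i j = 0 := by
      intro i j
      have := hvD _ (a (e.symm i)).2 j.1
      simp only [B]
      have : v' (a (e.symm i)).1 (a (e.symm i)).2 j.1 = 0 := by omega
      rw [this]; rfl
    have : B = 0 := by ext i j; exact h0 i j
    rw [this, Matrix.det_zero]
  have hinj : Function.Injective fun k : κ => (a k).1 := Subtype.val_injective.comp ha
  let ρ : Finset (Fin n →₀ ℕ) := Finset.univ.image fun k : κ => (a k).1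
  let γ : (Fin n →₀ ℕ) → ℚ := fun v => if h : ∃ k, (a k).1 = v then x (e h.choose) / d else 0
  have hγ : ∀ k, γ (a k).1 = x (e k) / d := by
    intro k
    have h : ∃ k', (a k').1 = (a k).1 := ⟨k, rfl⟩
    have h2 : h.choose = k := hinj h.choose_spec
    simp only [γ]
    rw [dif_pos h, h2]
  have hcardP : Fintype.card P ≤ n := by
    have := Fintype.card_subtype_le fun j : Fin n => 0 < w j
    simpa using this
  have hcardP1 : 1 ≤ Fintype.card P := Fintype.card_pos
  have hdQ : (0 : ℚ) < d := by exact_mod_cast hd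
  refine ⟨ρ, γ, ?_, ?_, ?_, ?_⟩
  · intro v hv
    obtain ⟨k, -, rfl⟩ := Finset.mem_image.1 hv
    exact (a k).2
  · have h1 : LinearIndependent ℚ fun k : κ => fun j : Fin n => (((a k).1 j : ℕ) : ℚ) := by
      refine LinearIndependent.of_comp (LinearMap.funLeft ℚ ℚ (Subtype.val : P → Fin n)) ?_
      exact hli
    have h2 : ∀ v : {v // v ∈ ρ}, ∃ k : κ, (a k).1 = v.1 := by
      intro v
      obtain ⟨k, -, hk⟩ := Finset.mem_image.1 v.2
      exact ⟨k, hk⟩
    choose g hg using h2
    have h3 : Function.Injective g := by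
      intro v v' h
      apply Subtype.ext
      rw [← hg v, ← hg v', h]
    have h4 := h1.comp g h3
    have h5 : ((fun k : κ => fun j : Fin n => (((a k).1 j : ℕ) : ℚ)) ∘ g) =
        fun v : {v // v ∈ ρ} => fun j => ((v.1 j : ℕ) : ℚ) := by
      funext v j
      simp only [Function.comp]
      rw [hg v]
    rwa [h5] at h4
  · intro j hj
    rw [Finset.sum_image (fun k _ k' _ h => hinj h), ← Equiv.sum_comp e.symm]
    rw [← hx1 ⟨j, hj⟩]
    refine Finset.sum_congr rfl fun i _ => ?_
    rw [hγ, Equiv.apply_symm_apply, hBe i ⟨j, hj⟩]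
    field_simp
  · intro v hv
    obtain ⟨k, -, rfl⟩ := Finset.mem_image.1 hv
    rw [hγ, abs_div, abs_of_pos hdQ, div_mul_cancel₀ _ hdQ.ne']
    refine (hx2 _).trans ?_
    refine mul_le_mul ?_ ?_ (by positivity) (by positivity)
    · exact_mod_cast Nat.factorial_le hcardP
    · refine pow_le_pow_right₀ (by exact_mod_cast hD) (by omega)

end MPb07157
end
end

section

/-!
# The strong monodromy conjecture for very general polynomials with divisible exponents
-/

noncomputable section

namespace MPb07157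

open MvPolynomial Finset
open scoped Nat

variable {n : ℕ}

theorem sum_Sf (f : MvPolynomial (Fin n) ℂ) (ρ : Finset (Fin n →₀ ℕ)) (hρ : ρ ⊆ f.support)
    (F : (Fin n →₀ ℕ) → ℚ) :
    ∑ v ∈ (Finset.univ : Finset (Sf f)).filter (fun v => v.1 ∈ ρ), F v.1 = ∑ v ∈ ρ, F v := by
  classical
  rw [Finset.sum_filter, Finset.sum_coe_sort f.support (fun v => if v ∈ ρ then F v else 0),
    ← Finset.sum_filter]
  congr 1
  ext v
  simp only [Finset.mem_filter]
  exact ⟨fun h => h.2, fun h => ⟨hρ h, h⟩⟩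

/-- The root theorem from a linearly independent set of exponents in a compact face. -/
theorem root_of_simplex {f : MvPolynomial (Fin n) ℂ} (hf : f ≠ 0)
    (halg : AlgebraicIndependent ℚ (cf f)) {w : Fin n → ℕ} {N : ℕ} (hfac : IsFacetWt f w N)
    (hw : ∃ j, 0 < w j) {ω : Fin n → ℕ} {Nω : ℕ} (hω : ∀ j, 0 < ω j) (hωmin : IsMinWt f ω Nω)
    (hωw : ∀ v ∈ f.support, wt ω v = Nω → wt w v = N)
    (ρ : Finset (Fin n →₀ ℕ)) (hρ : ρ ⊆ f.support.filter fun v => wt ω v = Nω)
    (γ : (Fin n →₀ ℕ) → ℚ)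
    (hlin : LinearIndependent ℚ (fun v : {v // v ∈ ρ} => fun j => ((v.1 j : ℕ) : ℚ)))
    (hγ : ∀ j, 0 < w j → ∑ v ∈ ρ, γ v * (v j : ℚ) = 1)
    (hne : ∀ v ∈ ρ, ∀ k : ℕ, γ v ≠ k + 1) {s₀ : ℚ} (hs : ((∑ j, w j : ℕ) : ℚ) = -s₀ * N) :
    IsBernsteinSatoRoot f s₀ ∧ IsLocalBernsteinSatoRoot f s₀ := by
  classical
  obtain ⟨hmin, hN, -⟩ := hfac
  have hρf : ρ ⊆ f.support := fun v hv => (Finset.mem_filter.1 (hρ hv)).1
  let R : VGData f :=
    { w := w
      N := N
      N_pos := hN
      w_ne := hw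
      N_le := hmin.1
      ω := ω
      ω_pos := hω
      Nω := Nω
      Nω_le := hωmin.1
      ρ := (Finset.univ : Finset (Sf f)).filter (fun v => v.1 ∈ ρ)
      hρω := fun v hv => (Finset.mem_filter.1 (hρ (Finset.mem_filter.1 hv).2)).2
      hρw := fun v hv => hωw v.1 v.2 (Finset.mem_filter.1 (hρ (Finset.mem_filter.1 hv).2)).2
      lin := by
        intro g hg0 hg
        rw [Fintype.linearIndependent_iff] at hlin
        have h1 := hlin (fun v => if h : v.1 ∈ f.support then g ⟨v.1, h⟩ else 0) (by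
          funext j
          have h2 := hg j
          rw [Finset.sum_apply]
          simp only [Pi.smul_apply, smul_eq_mul, Pi.zero_apply]
          rw [Finset.sum_coe_sort ρ (fun v => (if h : v ∈ f.support then g ⟨v, h⟩ else 0) *
            ((v j : ℕ) : ℚ)), ← sum_Sf f ρ hρf, Finset.sum_filter]
          refine (Finset.sum_congr rfl fun v _ => ?_).trans h2
          by_cases h3 : v.1 ∈ ρ
          · rw [if_pos h3, dif_pos v.2]
          · rw [if_neg h3, hg0 v (fun h4 => h3 (Finset.mem_filter.1 h4).2), zero_mul])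
        funext v
        by_cases hv : v.1 ∈ ρ
        · have h3 := h1 ⟨v.1, hv⟩
          simp only at h3
          rw [dif_pos v.2] at h3
          exact h3
        · exact hg0 v fun h4 => hv (Finset.mem_filter.1 h4).2
      γ := fun v => γ v.1
      γ_sum := fun j hj => by
        rw [← hγ j hj]
        exact sum_Sf f ρ hρf (fun v => γ v * (v j : ℚ))
      γ_ne := fun v hv k => hne v.1 (Finset.mem_filter.1 hv).2 k }
  have hsum : (∑ v ∈ R.ρ, R.γ v : ℚ) = -s₀ := by
    have h1 : (∑ v ∈ R.ρ, R.γ v : ℚ) = ∑ v ∈ ρ, γ v := sum_Sf f ρ hρf γ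
    rw [h1]
    have h2 : ∑ j, (w j : ℚ) = (∑ v ∈ ρ, γ v) * N := by
      have h3 : ∀ j, (w j : ℚ) = ∑ v ∈ ρ, γ v * ((w j : ℚ) * (v j : ℚ)) := by
        intro j
        rcases Nat.eq_zero_or_pos (w j) with h | h
        · rw [h]; simp
        · calc (w j : ℚ) = w j * ∑ v ∈ ρ, γ v * (v j : ℚ) := by rw [hγ j h, mul_one]
            _ = _ := by
              rw [Finset.mul_sum]
              exact Finset.sum_congr rfl fun v _ => by ring
      rw [Finset.sum_congr rfl fun j _ => h3 j, Finset.sum_comm, Finset.sum_mul]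
      refine Finset.sum_congr rfl fun v hv => ?_
      rw [← Finset.mul_sum]
      congr 1
      have h4 := hωw v (hρf hv) (Finset.mem_filter.1 (hρ hv)).2
      rw [← h4]
      unfold wt
      push_cast
      rfl
    have h5 : (N : ℚ) ≠ 0 := by exact_mod_cast hN.ne'
    have h6 : (∑ v ∈ ρ, γ v) * (N : ℚ) = -s₀ * N := by
      rw [← h2, ← hs]
      push_cast
      rfl
    exact mul_right_cancel₀ h5 h6
  refine roots_of_form fun b hb => ?_
  have := R.root hf halg b hb
  rw [hsum] at this
  push_cast at this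
  rwa [neg_neg] at this

theorem IsFacetWt.w_ne {f : MvPolynomial (Fin n) ℂ} {w : Fin n → ℕ} {N : ℕ}
    (h : IsFacetWt f w N) : ∃ j, 0 < w j := by
  obtain ⟨⟨-, v, hv, hvN⟩, hN, -⟩ := h
  by_contra hcon
  push Not at hcon
  have : wt w v = 0 := by
    unfold wt
    exact Finset.sum_eq_zero fun j _ => by rw [Nat.le_zero.1 (hcon j), zero_mul]
  omega

/-- The strong monodromy conjecture for very general polynomials with divisible exponents. -/
theorem smc_dilated {f : MvPolynomial (Fin n) ℂ} (hf : f ≠ 0) (h0 : (0 : Fin n →₀ ℕ) ∉ f.support)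
    (halg : AlgebraicIndependent ℚ (cf f)) {d D : ℕ} (hd : n ! * D ^ (n - 1) < d)
    (hsupp : ∀ v ∈ f.support, ∃ v' : Fin n →₀ ℕ, v = d • v' ∧ ∀ j, v' j ≤ D) (s₀ : ℚ) :
    (IsPole (Zmot f) s₀ → IsBernsteinSatoRoot f s₀) ∧
      (IsPole (Zmot0 f) s₀ → IsLocalBernsteinSatoRoot f s₀) := by
  classical
  by_cases h1 : s₀ = -1
  · subst h1
    have := roots_of_form (f := f) (s₀ := -1) fun b hb => neg_one_root hf h0 b hb
    exact ⟨fun _ => this.1, fun _ => this.2⟩
  by_cases hex : ∃ w N, IsFacetWt f w N ∧ ((∑ j, w j : ℕ) : ℚ) = -s₀ * N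
  · obtain ⟨w, N, hfac, hs⟩ := hex
    obtain ⟨ω, Nω, hω, hωmin, hωw, hωs⟩ := exists_compact_face f w N hfac.1 hfac.2.2
    obtain ⟨ρ, γ, hρ, hlin, hγ, hb⟩ := exists_simplex w hfac.w_ne _ hωs d D (by omega)
      (fun v hv => hsupp v (Finset.mem_filter.1 hv).1)
    have := root_of_simplex hf halg hfac hfac.w_ne hω hωmin hωw ρ hρ γ hlin hγ
      (fun v hv k hk => by
        have h2 := hb v hv
        have h3 : ((n ! * D ^ (n - 1) : ℕ) : ℚ) < d := by exact_mod_cast hd
        push_cast at h3
        have h4 : (0 : ℚ) < d := by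
          have : 0 < d := by omega
          exact_mod_cast this
        have h5 : (1 : ℚ) ≤ |γ v| := by
          rw [hk, abs_of_nonneg (by positivity)]
          have : (0 : ℚ) ≤ k := by positivity
          linarith
        nlinarith) hs
    exact ⟨fun _ => this.1, fun _ => this.2⟩
  · push Not at hex
    have hnd : ∀ a : Fin n → ℕ, NondegAt f (face f a (nuf f a)) := by
      intro a
      refine nondegAt_of_algInd f halg _ (Finset.filter_subset _ _) ?_
      obtain ⟨-, v, hv, hvN⟩ := isMinWt_nuf hf a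
      exact ⟨v, Finset.mem_filter.2 ⟨hv, hvN⟩⟩
    refine ⟨fun h => absurd ?_ h, fun h => absurd ?_ h⟩
    · rw [Zmot_eq]
      exact ZE_mem_regularAt hf (by omega) (fun a _ => hnd a) h1 fun w N h => hex w N h
    · rw [Zmot0_eq]
      exact ZE_mem_regularAt hf (by omega) (fun a _ => hnd a) h1 fun w N h => hex w N h

end MPb07157
end
end
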