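import Pool.Agent.Lib.MP_b07157_ag.NewtRootAll
import Pool.Agent.Lib.MP_b07157_ag.NewtDilate

/-!
# The strong monodromy conjecture for very general polynomials without B1-facets
-/

noncomputable section

namespace MPb07157

open MvPolynomial Finset
open scoped Nat

variable {n : ℕ}

/-- The value of the sum of the barycentric coordinates. -/
theorem sum_coord {n : ℕ} {f : MvPolynomial (Fin n) ℂ} {w : Fin n → ℕ} {N : ℕ} (hN : 0 < N)
    (ρ : Finset (Sf f)) (hρ : ∀ v ∈ ρ, wt w v.1 = N) (γ : Sf f → ℚ) (hγ0 : ∀ v, v ∉ ρ → γ v = 0)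
    (hγ : ∀ j, 0 < w j → ∑ v, γ v * ((v.1 j : ℕ) : ℚ) = 1)
    {s₀ : ℚ} (hs : ((∑ j, w j : ℕ) : ℚ) = -s₀ * N) : -(∑ v, γ v) = s₀ := by
  have e1 : (∑ j, (w j : ℚ)) = (∑ v, γ v) * N := by
    have e2 : ∀ v : Sf f, ((wt w v.1 : ℕ) : ℚ) = ∑ j, (w j : ℚ) * ((v.1 j : ℕ) : ℚ) := by
      intro v; unfold wt; push_cast; rfl
    calc (∑ j, (w j : ℚ)) = ∑ j, (w j : ℚ) * ∑ v, γ v * ((v.1 j : ℕ) : ℚ) := by
          refine Finset.sum_congr rfl fun j _ => ?_
          rcases Nat.eq_zero_or_pos (w j) with h | h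
          · rw [h]; simp
          · rw [hγ j h, mul_one]
      _ = ∑ v, γ v * ((wt w v.1 : ℕ) : ℚ) := by
          simp only [Finset.mul_sum]
          rw [Finset.sum_comm]
          refine Finset.sum_congr rfl fun v _ => ?_
          rw [e2, Finset.mul_sum]
          exact Finset.sum_congr rfl fun j _ => by ring
      _ = _ := by
          rw [Finset.sum_mul]
          refine Finset.sum_congr rfl fun v _ => ?_
          by_cases hv : v ∈ ρ
          · rw [hρ v hv]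
          · rw [hγ0 v hv, zero_mul, zero_mul]
  have e3 : (N : ℚ) ≠ 0 := by exact_mod_cast hN.ne'
  have e4 : (-s₀) * (N : ℚ) = (∑ v, γ v) * N := by
    rw [← hs, ← e1]
    push_cast
    rfl
  have := mul_right_cancel₀ e3 e4
  linarith

/-- The root theorem, for a set of exponents in a facet. -/
theorem root_of_rho {f : MvPolynomial (Fin n) ℂ} (hf : f ≠ 0)
    (halg : AlgebraicIndependent ℚ (cf f)) {w : Fin n → ℕ} {N : ℕ} (hN : 0 < N)
    (hmin : ∀ v ∈ f.support, N ≤ wt w v)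
    (ρ : Finset (Fin n →₀ ℕ)) (hρ : ρ ⊆ face f w N) (γ : (Fin n →₀ ℕ) → ℚ)
    (hlin : LinearIndependent ℚ (fun v : {v // v ∈ ρ} => fun j => ((v.1 j : ℕ) : ℚ)))
    (hγ : ∀ j, 0 < w j → ∑ v ∈ ρ, γ v * (v j : ℚ) = 1)
    (hint : ∀ j, 0 < w j → ∃ v ∈ ρ, (∀ k : ℕ, γ v ≠ k + 1) ∧ 0 < v j) {s₀ : ℚ}
    (hs : ((∑ j, w j : ℕ) : ℚ) = -s₀ * N) : IsBernsteinSatoRoot f s₀ := by
  classical
  intro b hb
  have hρf : ρ ⊆ f.support := fun v hv => (Finset.mem_filter.1 (hρ hv)).1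
  let ρ' : Finset (Sf f) := (Finset.univ : Finset (Sf f)).filter (fun v => v.1 ∈ ρ)
  have hρ'w : ∀ v ∈ ρ', wt w v.1 = N := fun v hv =>
    (Finset.mem_filter.1 (hρ (Finset.mem_filter.1 hv).2)).2
  let γ' : Sf f → ℚ := fun v => if v.1 ∈ ρ then γ v.1 else 0
  have hγ'0 : ∀ v, v ∉ ρ' → γ' v = 0 := by
    intro v hv
    exact if_neg fun h => hv (Finset.mem_filter.2 ⟨Finset.mem_univ _, h⟩)
  have hsum : ∀ F : (Fin n →₀ ℕ) → ℚ, ∑ v : Sf f, (if v.1 ∈ ρ then F v.1 else 0) =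
      ∑ v ∈ ρ, F v := by
    intro F
    rw [← Finset.sum_filter]
    exact sum_Sf f ρ hρf F
  have hγ' : ∀ j, 0 < w j → ∑ v, γ' v * ((v.1 j : ℕ) : ℚ) = 1 := by
    intro j hj
    rw [← hγ j hj, ← hsum (fun v => γ v * (v j : ℚ))]
    refine Finset.sum_congr rfl fun v _ => ?_
    simp only [γ']
    split_ifs <;> simp
  have := root_simplex hf halg hN hmin ρ' hρ'w ?_ γ' hγ'0 hγ' ?_ b hb
  · rw [sum_coord hN ρ' hρ'w γ' hγ'0 hγ' hs] at this
    exact this
  · intro g hg0 hg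
    rw [Fintype.linearIndependent_iff] at hlin
    have h1 := hlin (fun v => if h : v.1 ∈ f.support then g ⟨v.1, h⟩ else 0) (by
      funext j
      have h2 := hg j
      rw [Finset.sum_apply]
      simp only [Pi.smul_apply, smul_eq_mul, Pi.zero_apply]
      rw [Finset.sum_coe_sort ρ (fun v => (if h : v ∈ f.support then g ⟨v, h⟩ else 0) *
        ((v j : ℕ) : ℚ)), ← hsum]
      refine (Finset.sum_congr rfl fun v _ => ?_).trans h2
      by_cases h3 : v.1 ∈ ρ
      · rw [if_pos h3, dif_pos v.2]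
      · rw [if_neg h3, hg0 v (fun h4 => h3 (Finset.mem_filter.1 h4).2), zero_mul])
    funext v
    by_cases hv : v.1 ∈ ρ
    · have h3 := h1 ⟨v.1, hv⟩
      simp only at h3
      rw [dif_pos v.2] at h3
      exact h3
    · exact hg0 v fun h4 => hv (Finset.mem_filter.1 h4).2
  · intro j hj
    obtain ⟨v, hv, h1, h2⟩ := hint j hj
    refine ⟨⟨v, hρf hv⟩, Finset.mem_filter.2 ⟨Finset.mem_univ _, hv⟩, ?_, h2⟩
    simp only [γ', if_pos hv]
    exact h1

/-- A facet of the Newton polyhedron (with weight `w` and minimum `N`) is thick if it contains a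
linearly independent set `ρ` of exponents, whose span contains a vector with coordinates `1` at all
`j` with `w j > 0`, such that `∑_{v ∈ ρ} v_j ≥ 2` for all `j` with `w j > 0`. -/
def Thick (f : MvPolynomial (Fin n) ℂ) (w : Fin n → ℕ) (N : ℕ) : Prop :=
  ∃ ρ : Finset (Fin n →₀ ℕ), ρ ⊆ face f w N ∧
    LinearIndependent ℚ (fun v : {v // v ∈ ρ} => fun j => ((v.1 j : ℕ) : ℚ)) ∧
    (∃ γ : (Fin n →₀ ℕ) → ℚ, ∀ j, 0 < w j → ∑ v ∈ ρ, γ v * (v j : ℚ) = 1) ∧
    ∀ j, 0 < w j → 2 ≤ ∑ v ∈ ρ, v j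

theorem Thick.root {f : MvPolynomial (Fin n) ℂ} (hf : f ≠ 0)
    (halg : AlgebraicIndependent ℚ (cf f)) {w : Fin n → ℕ} {N : ℕ} (hN : 0 < N)
    (hmin : ∀ v ∈ f.support, N ≤ wt w v) (h : Thick f w N) {s₀ : ℚ}
    (hs : ((∑ j, w j : ℕ) : ℚ) = -s₀ * N) : IsBernsteinSatoRoot f s₀ := by
  classical
  obtain ⟨ρ, hρ, hlin, ⟨γ, hγ⟩, hge⟩ := h
  refine root_of_rho hf halg hN hmin ρ hρ γ hlin hγ (fun j hj => ?_) hs
  by_contra hcon
  push Not at hcon
  have h1 : (∑ v ∈ ρ, (v j : ℚ)) ≤ ∑ v ∈ ρ, γ v * (v j : ℚ) := by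
    refine Finset.sum_le_sum fun v hv => ?_
    rcases Nat.eq_zero_or_pos (v j) with h0 | h0
    · rw [h0]; simp
    · have h2 : ∃ k : ℕ, γ v = k + 1 := by
        by_contra h3
        push Not at h3
        exact absurd (hcon v hv h3) (by omega)
      obtain ⟨k, hk⟩ := h2
      rw [hk]
      have h3 : (0 : ℚ) ≤ k := by positivity
      have h4 : (0 : ℚ) ≤ v j := by positivity
      nlinarith
  rw [hγ j hj] at h1
  have h2 : (2 : ℚ) ≤ ∑ v ∈ ρ, (v j : ℚ) := by exact_mod_cast hge j hj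
  linarith

/-- A facet without coordinates equal to `1` is thick. -/
theorem thick_of_ne_one {f : MvPolynomial (Fin n) ℂ} {w : Fin n → ℕ} {N : ℕ}
    (hfac : IsFacetWt f w N) (h : ∀ v ∈ face f w N, ∀ j, 0 < w j → v j ≠ 1) : Thick f w N := by
  classical
  obtain ⟨ρ, γ, hρ, hlin, hγ, -⟩ := exists_simplex w hfac.w_ne _ hfac.2.2 1
    ((face f w N).sup fun v => univ.sup fun j => v j) one_pos (fun v hv => ⟨v, by simp, fun j => by
      have h1 : v j ≤ univ.sup fun j => v j := Finset.le_sup (f := fun j => v j) (Finset.mem_univ j)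
      exact h1.trans (Finset.le_sup (f := fun v : Fin n →₀ ℕ => univ.sup fun j => v j) hv)⟩)
  refine ⟨ρ, hρ, hlin, ⟨γ, hγ⟩, fun j hj => ?_⟩
  have h1 : ∃ v ∈ ρ, v j ≠ 0 := by
    by_contra hcon
    push Not at hcon
    have := hγ j hj
    rw [Finset.sum_eq_zero fun v hv => by rw [hcon v hv]; simp] at this
    exact zero_ne_one this
  obtain ⟨v, hv, hvj⟩ := h1
  have h2 := h v (hρ hv) j hj
  have h3 : v j ≤ ∑ v ∈ ρ, v j := Finset.single_le_sum (f := fun v : Fin n →₀ ℕ => v j)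
    (fun _ _ => Nat.zero_le _) hv
  omega

/-- **The strong monodromy conjecture for very general polynomials whose Newton polyhedron has only
thick facets** (apart from those with `|w| = N`). -/
theorem smc_thick {f : MvPolynomial (Fin n) ℂ} (hf : f ≠ 0) (h0 : (0 : Fin n →₀ ℕ) ∉ f.support)
    (halg : AlgebraicIndependent ℚ (cf f))
    (hthick : ∀ w N, IsFacetWt f w N → ∑ j, w j ≠ N → Thick f w N) (s₀ : ℚ)
    (h : IsPole (Zmot f) s₀) : IsBernsteinSatoRoot f s₀ := by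
  by_cases h1 : s₀ = -1
  · subst h1
    exact (roots_of_form (f := f) (s₀ := -1) fun b hb => neg_one_root hf h0 b hb).1
  by_cases hex : ∃ w N, IsFacetWt f w N ∧ ((∑ j, w j : ℕ) : ℚ) = -s₀ * N
  · obtain ⟨w, N, hfac, hs⟩ := hex
    refine (hthick w N hfac ?_).root hf halg hfac.2.1 hfac.1.1 hs
    intro h2
    rw [h2] at hs
    apply h1
    have h3 : (0 : ℚ) < N := by exact_mod_cast hfac.2.1
    have h4 : (N : ℚ) * (1 + s₀) = 0 := by linarith
    rcases mul_eq_zero.1 h4 with h5 | h5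
    · exact absurd h5 h3.ne'
    · linarith
  · push Not at hex
    refine absurd ?_ h
    have hnd : ∀ a : Fin n → ℕ, NondegAt f (face f a (nuf f a)) := by
      intro a
      refine nondegAt_of_algInd f halg _ (Finset.filter_subset _ _) ?_
      obtain ⟨-, v, hv, hvN⟩ := isMinWt_nuf hf a
      exact ⟨v, Finset.mem_filter.2 ⟨hv, hvN⟩⟩
    rw [Zmot_eq]
    exact ZE_mem_regularAt hf (by omega) (fun a _ => hnd a) h1 fun w N h => hex w N h

end MPb07157
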