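import Pool.Agent.Lib.MP_b07157_ag.NewtMulL

/-!
# Extraction in all directions: general left-hand sides
-/

noncomputable section

namespace MPb07157

open MvPolynomial Finset
open scoped Nat

variable {n : ℕ} {f : MvPolynomial (Fin n) ℂ}

theorem eval_toForm_nat (q : ℕ) (g : MvPolynomial (Fin n) (Polynomial ℂ)) :
    Polynomial.eval (q : MvPowerSeries (Fin n) ℂ) (toForm g) =
      ((map (Polynomial.evalRingHom (q : ℂ)) g : MvPolynomial (Fin n) ℂ) :
        MvPowerSeries (Fin n) ℂ) := by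
  induction g using MvPolynomial.induction_on with
  | C a =>
    rw [toForm_C, map_C, MvPolynomial.coe_C, Polynomial.eval_map, Polynomial.coe_evalRingHom,
      ← Polynomial.eval₂_hom, map_natCast]
  | add p r hp hr => rw [map_add, map_add, MvPolynomial.coe_add, Polynomial.eval_add, hp, hr]
  | mul_X p i hp =>
    rw [map_mul, map_mul, MvPolynomial.coe_mul, Polynomial.eval_mul, hp, toForm_X, map_X,
      MvPolynomial.coe_X, Polynomial.eval_C]

set_option maxHeartbeats 1000000 in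
open Classical in
/-- **Root theorem for very general polynomials, all directions, general left-hand side.** -/
theorem rootMG (hf : f ≠ 0) (halg : AlgebraicIndependent ℚ (cf f)) (κs : Sf f → ℚ) (r : ℕ)
    (hex : ∀ K : ℕ, ∃ (E : ℕ) (α : Sf f → ℕ) (Λ : MvPolynomial (Sf f) ℚ →ₗ[ℚ] ℝ), K ≤ E ∧
      (∀ g, Λ ((∑ v, X v) ^ (r + 1) * g) = 0) ∧ Λ (PM κs E 0) ≠ 0 ∧
      (∀ δ : Sf f → ℤ, δ ≠ 0 → (∀ v, |δ v| ≤ K) → ∑ v, δ v = 0 → ∀ μ : Fin n →₀ ℕ,
        (∀ j, ∑ v, δ v * ((v.1 j : ℕ) : ℤ) = -(μ j : ℤ)) →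
        (μ = 0 ∧ 0 < ∑ v, (α v : ℤ) * δ v) ∨ ∀ g, Λ (g * PM κs E δ) = 0) ∧
      ∀ δ : Sf f → ℤ, (∀ v, |δ v| ≤ K) → ∑ v, δ v = 1 →
        ∀ β m : Fin n →₀ ℕ, (∀ j, ∑ v, δ v * ((v.1 j : ℕ) : ℤ) = (β j : ℤ) - m j) →
        ∀ g, Λ (g * (RM κs β m * PM κs E δ)) = 0)
    (p : MvPolynomial (Fin n) (Polynomial ℂ)) (hb : InDn f 1 p) :
    (constantCoeff p).eval (((∑ v, κs v : ℚ)) : ℂ) = 0 := by
  by_contra hne
  obtain ⟨b, hbp⟩ : ∃ b, b = constantCoeff p := ⟨_, rfl⟩
  rw [← hbp] at hne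
  obtain ⟨s₀, hs₀⟩ : ∃ s₀ : ℚ, s₀ = ∑ v, κs v := ⟨_, rfl⟩
  rw [← hs₀] at hne
  -- normalize `b`
  obtain ⟨u, y, huy⟩ : IsCoprime b ((Polynomial.X - Polynomial.C (s₀ : ℂ)) ^ (r + 1)) := by
    refine IsCoprime.pow_right ?_
    rw [isCoprime_comm, (Polynomial.irreducible_X_sub_C (s₀ : ℂ)).coprime_iff_not_dvd,
      Polynomial.dvd_iff_isRoot]
    exact hne
  have hub : InDn f 1 (C u * p) := InDn.mul _ hb
  obtain ⟨Φ, hΦ, q₀, hq⟩ := hub.exists_opValP hf
  obtain ⟨k₀, c, β, hc⟩ := hΦ.flat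
  let S : Type := {μ // μ ∈ p.support}
  let T : Type := S ⊕ (Unit ⊕ (Σ i : Fin k₀, {m // m ∈ (c i).support}))
  have hp0 : (0 : Fin n →₀ ℕ) ∈ p.support := by
    rw [MvPolynomial.mem_support_iff]
    intro h0
    apply hne
    have : constantCoeff p = 0 := h0
    rw [hbp, this, Polynomial.eval_zero]
  let t₀ : T := Sum.inl ⟨0, hp0⟩
  let g : T → Polynomial ℂ := fun t => match t with
    | Sum.inl μ => if μ.1 = 0 then 1 else u * coeff μ.1 p
    | Sum.inr (Sum.inl _) => -y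
    | Sum.inr (Sum.inr x) => - RootData.Line.cpoly (toForm (c x.1)) x.2.1
  let H : T → {κ : Sf f →₀ ℕ // q₀ ≤ kq κ} → MvPolynomial (Sf f) ℚ := fun t e => match t with
    | Sum.inl μ => if μ.1 ≤ kM e.1 then Hc f (kq e.1) (kM e.1 - μ.1) else 0
    | Sum.inr (Sum.inl _) => C (((kq e.1 : ℕ) : ℚ) - s₀) ^ (r + 1) * Hc f (kq e.1) (kM e.1)
    | Sum.inr (Sum.inr x) => if x.2.1 ≤ kM e.1 then
        C (∏ j, (((kM e.1 - x.2.1) j + 1).ascFactorial (β x.1 j) : ℚ)) *
          Hc f (kq e.1 + 1) (kM e.1 - x.2.1 + β x.1) else 0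
  have key : ∀ e : {κ : Sf f →₀ ℕ // q₀ ≤ kq κ},
      ∑ t, (g t).eval (kq e.1 : ℂ) * (aeval (cf f) (H t e) : ℂ) = 0 := by
    rintro ⟨κ, hκ⟩
    have h1 := (hq (kq κ) hκ).2
    rw [add_tsub_cancel_right, hc] at h1
    have h2 := eval_toForm_nat (kq κ) (C u * p)
    have hPc : ∀ μ, coeff μ (map (Polynomial.evalRingHom (kq κ : ℂ)) (C u * p)) =
        (u * coeff μ p).eval (kq κ : ℂ) := by
      intro μ
      rw [coeff_map, coeff_C_mul, Polynomial.coe_evalRingHom]
    have h3 := congrArg (MvPowerSeries.coeff (kM κ)) h1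
    rw [h2, ← MvPolynomial.coe_pow, ← MvPolynomial.coe_mul, MvPolynomial.coeff_coe, map_sum] at h3
    have h4 : (u * b).eval (kq κ : ℂ) = 1 - y.eval (kq κ : ℂ) * ((kq κ : ℂ) - (s₀ : ℂ)) ^ (r + 1) := by
      have h5 := congrArg (Polynomial.eval (kq κ : ℂ)) huy
      simp only [Polynomial.eval_add, Polynomial.eval_mul, Polynomial.eval_pow,
        Polynomial.eval_sub, Polynomial.eval_X, Polynomial.eval_C, Polynomial.eval_one] at h5
      rw [Polynomial.eval_mul]
      linear_combination h5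
    have h7 : coeff (kM κ) (map (Polynomial.evalRingHom (kq κ : ℂ)) (C u * p) * f ^ kq κ) =
        ∑ μ : S, (u * coeff μ.1 p).eval (kq κ : ℂ) *
          (if μ.1 ≤ kM κ then coeff (kM κ - μ.1) (f ^ kq κ) else 0) := by
      have h8 : coeff (kM κ) (map (Polynomial.evalRingHom (kq κ : ℂ)) (C u * p) * f ^ kq κ) =
          ∑ μ ∈ p.support, (u * coeff μ p).eval (kq κ : ℂ) *
          (if μ ≤ kM κ then coeff (kM κ - μ) (f ^ kq κ) else 0) := by
        have h8' : map (Polynomial.evalRingHom (kq κ : ℂ)) (C u * p) =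
            ∑ μ ∈ p.support, monomial μ ((u * coeff μ p).eval (kq κ : ℂ)) := by
          ext e
          rw [hPc, coeff_sum]
          simp only [coeff_monomial]
          rw [Finset.sum_ite_eq']
          split_ifs with h
          · rfl
          · rw [MvPolynomial.notMem_support_iff.1 h, mul_zero, Polynomial.eval_zero]
        rw [h8', Finset.sum_mul, MvPolynomial.coeff_sum]
        refine Finset.sum_congr rfl fun μ _ => ?_
        rw [MvPolynomial.coeff_monomial_mul']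
        split_ifs <;> simp
      rw [h8, ← Finset.sum_coe_sort p.support (fun μ => (u * coeff μ p).eval (kq κ : ℂ) *
          (if μ ≤ kM κ then coeff (kM κ - μ) (f ^ kq κ) else 0))]
    rw [h7] at h3
    rw [Fintype.sum_sum_type, Fintype.sum_sum_type, Fintype.sum_sigma]
    simp only [g, H, Polynomial.eval_neg, map_mul, map_pow, aeval_C, aeval_Hc]
    have h9 : ∀ μ : S, (aeval (cf f) (if μ.1 ≤ kM κ then Hc f (kq κ) (kM κ - μ.1) else 0) : ℂ) =
        if μ.1 ≤ kM κ then coeff (kM κ - μ.1) (f ^ kq κ) else 0 := by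
      intro μ
      split_ifs
      · exact aeval_Hc _ _ _
      · exact map_zero _
    simp only [h9]
    have h6 : ∑ x : Fin k₀, ∑ x_1 : {m // m ∈ (c x).support},
        -Polynomial.eval (kq κ : ℂ) (RootData.Line.cpoly (toForm (c x)) x_1.1) *
          (aeval (cf f)) (if x_1.1 ≤ kM κ then
            C (∏ j, (((kM κ - x_1.1) j + 1).ascFactorial (β x j) : ℚ)) *
              Hc f (kq κ + 1) (kM κ - x_1.1 + β x) else 0) =
        -∑ i, MvPowerSeries.coeff (kM κ) ((toForm (c i)).eval (kq κ : MvPowerSeries (Fin n) ℂ) *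
          dPow (β i) ((f : MvPowerSeries (Fin n) ℂ) ^ (kq κ + 1))) := by
      rw [← Finset.sum_neg_distrib]
      refine Finset.sum_congr rfl fun i _ => ?_
      rw [coeff_termP f (kM κ) (kq κ) (c i) (β i),
        ← Finset.sum_coe_sort (c i).support (fun m => (RootData.Line.cpoly (toForm (c i)) m).eval
          (kq κ : ℂ) * (if m ≤ kM κ then
            (∏ j, (((kM κ - m) j + 1).ascFactorial (β i j) : ℂ)) *
              coeff (kM κ - m + β i) (f ^ (kq κ + 1)) else 0)),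
        ← Finset.sum_neg_distrib]
      refine Finset.sum_congr rfl fun m _ => ?_
      split_ifs with h5
      · rw [map_mul, aeval_Hc, aeval_C]
        simp only [eq_ratCast]
        push_cast
        ring
      · simp
    have h10 : ∑ μ : S, Polynomial.eval (kq κ : ℂ) (if μ.1 = 0 then 1 else u * coeff μ.1 p) *
          (if μ.1 ≤ kM κ then coeff (kM κ - μ.1) (f ^ kq κ) else 0) =
        (∑ μ : S, (u * coeff μ.1 p).eval (kq κ : ℂ) *
          (if μ.1 ≤ kM κ then coeff (kM κ - μ.1) (f ^ kq κ) else 0)) +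
        y.eval (kq κ : ℂ) * ((kq κ : ℂ) - (s₀ : ℂ)) ^ (r + 1) * coeff (kM κ) (f ^ kq κ) := by
      have h11 : ∀ a c d : ℂ, a - c = d → a = c + d := fun a c d h => by rw [← h]; ring
      refine h11 _ _ _ ?_
      rw [← Finset.sum_sub_distrib, Finset.sum_eq_single (⟨0, hp0⟩ : S)]
      · have h12 : coeff 0 p = b := hbp.symm
        rw [if_pos rfl, if_pos (by simp : (0 : Fin n →₀ ℕ) ≤ kM κ), h12, h4, tsub_zero,
          Polynomial.eval_one]
        ring
      · intro μ _ hμ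
        rw [if_neg (fun h => hμ (Subtype.ext h)), sub_self]
      · intro h
        exact absurd (Finset.mem_univ _) h
    rw [h10, h3, h6, Fintype.sum_unique (ι := Unit)]
    simp only [eq_ratCast, Rat.cast_sub, Rat.cast_natCast]
    ring
  obtain ⟨G, hG0, hG, hGc⟩ := descent' (cf f) halg g
    (fun e : {κ : Sf f →₀ ℕ // q₀ ≤ kq κ} => kq e.1) H key t₀ s₀ (by
      simp only [g, t₀]
      rw [if_pos trivial, Polynomial.eval_one]
      exact one_ne_zero)
  -- the coefficient at `t₀` is constant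
  obtain ⟨g₀, hg₀⟩ : ∃ g₀, G t₀ = Polynomial.C g₀ := by
    refine ⟨(G t₀).coeff 0, ?_⟩
    ext1 i
    rcases Nat.eq_zero_or_pos i with rfl | hi
    · simp
    · rw [hGc t₀ i (by
        simp only [g, t₀]
        rw [if_pos trivial, Polynomial.coeff_one, if_neg hi.ne']),
        Polynomial.coeff_C, if_neg hi.ne']
  have hg₀0 : g₀ ≠ 0 := by
    rw [hg₀, Polynomial.eval_C] at hG0
    exact hG0
  let Θ : Finset (Sf f →₀ ℕ) := Finset.univ.biUnion fun t => VGData.VLine.sG (G t)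
  have hΘ : ∀ t, VGData.VLine.sG (G t) ⊆ Θ :=
    fun t x hx => Finset.mem_biUnion.2 ⟨t, Finset.mem_univ _, hx⟩
  let K : ℕ := ∑ θ ∈ Θ, ∑ v, θ v
  have hK : ∀ θ ∈ Θ, ∀ v, θ v ≤ K := fun θ hθ v =>
    (Finset.single_le_sum (f := fun v => θ v) (fun _ _ => Nat.zero_le _)
      (Finset.mem_univ v)).trans (Finset.single_le_sum (f := fun θ : Sf f →₀ ℕ => ∑ v, θ v)
        (fun _ _ => Nat.zero_le _) hθ)
  obtain ⟨E, α, Λ, hKE, hΛr, hΛ0, hL, hR⟩ := hex K
  obtain ⟨θ₀, hθ₀, hmin⟩ := g₀.support.exists_min_image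
    (fun θ => ∑ v, α v * θ v) (by
      rw [Finset.nonempty_iff_ne_empty]
      intro h
      exact hg₀0 (MvPolynomial.support_eq_empty.1 h))
  have hθ₀Θ : θ₀ ∈ Θ := hΘ t₀ (by rw [hg₀]; exact mem_sG_C hθ₀)
  have hE : ∀ v, θ₀ v ≤ E := fun v => (hK θ₀ hθ₀Θ v).trans hKE
  have habs : ∀ θ ∈ Θ, ∀ v, |(θ₀ v : ℤ) - θ v| ≤ K := by
    intro θ hθ v
    have h1 := hK θ₀ hθ₀Θ v
    have h2 := hK θ hθ v
    rw [abs_le]
    omega
  let TP : MvPolynomial (Sf f) ℚ := (∑ μ : S, lhsM (G (Sum.inl μ)) Θ θ₀ E μ.1) +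
    ((qp f - C s₀) ^ (r + 1) * lhsM (G (Sum.inr (Sum.inl ()))) Θ θ₀ E 0 +
    ∑ x : (Σ i : Fin k₀, {m // m ∈ (c i).support}),
      rhsK (G (Sum.inr (Sum.inr x))) Θ θ₀ E (β x.1) x.2.1)
  have hTPk : ∀ κ : Sf f →₀ ℕ, q₀ ≤ kq κ → eval (ev κ) TP = 0 := by
    intro κ hκ
    have h1 := congrArg (fun P => coeff (θ₀ + κ) P * nrmK E κ) (hG ⟨κ, hκ⟩)
    simp only [coeff_zero, zero_mul] at h1
    rw [coeff_sum, Finset.sum_mul, Fintype.sum_sum_type, Fintype.sum_sum_type,
      Fintype.sum_unique (ι := Unit)] at h1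
    rw [← h1]
    simp only [TP]
    rw [map_add, map_add, map_mul, map_sum, map_sum]
    congr 1
    · refine Finset.sum_congr rfl fun μ _ => ?_
      exact (lhs_termM (G (Sum.inl μ)) Θ (hΘ _) θ₀ E hE μ.1 κ _
        (fun h => by simp only [H]; rw [if_pos h]) (fun h => by simp only [H]; rw [if_neg h])).symm
    · congr 1
      · rw [← lhs_termM (G (Sum.inr (Sum.inl ()))) Θ (hΘ _) θ₀ E hE 0 κ
          (Hc f (kq κ) (kM κ))
          (fun _ => by rw [tsub_zero]) (fun h => absurd (by simp : (0 : Fin n →₀ ℕ) ≤ kM κ) h)]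
        simp only [H]
        rw [← C_pow, coeff_mul_C_mul, map_pow, map_sub, eval_qp, eval_C]
        exact (mul_assoc _ _ _).symm
      · refine Finset.sum_congr rfl fun x _ => ?_
        exact (rhs_termK (G (Sum.inr (Sum.inr x))) Θ (hΘ _) θ₀ E hE (β x.1) x.2.1 κ _
          (fun h => by simp only [H]; rw [if_pos h]) (fun h => by simp only [H]; rw [if_neg h])).symm
  have hTP : TP = 0 := by
    refine MvPolynomial.funext_set (fun _ => (fun k : ℕ => (k : ℚ)) '' Set.Ici q₀)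
      (fun _ => (Set.Ici_infinite q₀).image (fun a _ b _ h => by exact_mod_cast h)) ?_
    intro x hx
    rw [map_zero]
    have hx' : ∀ v, ∃ k : ℕ, q₀ ≤ k ∧ (k : ℚ) = x v := fun v => by
      obtain ⟨k, hk, hkx⟩ := hx v (Set.mem_univ v)
      exact ⟨k, hk, hkx⟩
    choose k hk hkx using hx'
    have h1 : x = ev (Finsupp.equivFunOnFinite.symm k) := by
      funext v
      simp only [ev, Finsupp.equivFunOnFinite_symm_apply_apply]
      exact (hkx v).symm
    rw [h1]
    refine hTPk _ ?_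
    obtain ⟨v, hv⟩ := MvPolynomial.support_nonempty.2 hf
    refine (hk ⟨v, hv⟩).trans ?_
    exact Finset.single_le_sum (f := fun v : Sf f => k v) (fun _ _ => Nat.zero_le _)
      (Finset.mem_univ (⟨v, hv⟩ : Sf f))
  -- apply the functional
  have h0 : Λ (trK κs TP) = 0 := by rw [hTP, map_zero, map_zero]
  simp only [TP] at h0
  rw [map_add (trK κs), map_add (trK κs), map_mul (trK κs), map_pow (trK κs),
    map_sum (trK κs), map_sum (trK κs), map_add Λ, map_add Λ, map_sum Λ,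
    map_sum Λ] at h0
  have hd2 : Λ (trK κs (qp f - C s₀) ^ (r + 1) *
      trK κs (lhsM (G (Sum.inr (Sum.inl ()))) Θ θ₀ E 0)) = 0 := by
    rw [trK_qp κs hs₀]
    exact hΛr _
  have hd3 : ∑ x : (Σ i : Fin k₀, {m // m ∈ (c i).support}),
      Λ (trK κs (rhsK (G (Sum.inr (Sum.inr x))) Θ θ₀ E (β x.1) x.2.1)) = 0 := by
    refine Finset.sum_eq_zero fun x _ => ?_
    unfold rhsK
    rw [map_mul (trK κs), map_mul (trK κs), trK_RM, map_sum (trK κs), Finset.mul_sum, map_sum Λ]
    refine Finset.sum_eq_zero fun θ hθ => ?_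
    split_ifs with hc
    · rw [map_mul (trK κs), trK_pp]
      have h1 := hR (fun v => (θ₀ v : ℤ) - θ v) (habs θ hθ)
        (by have := hc.1; exact_mod_cast this) (β x.1) x.2.1 hc.2
        (trK κs (qp f + 1) * trK κs (sq f (VGData.VLine.cG (G (Sum.inr (Sum.inr x))) θ)))
      have h2 : ∀ a b c d : MvPolynomial (Sf f) ℚ, a * b * (c * d) = a * c * (b * d) :=
        fun a b c d => by ring
      rw [h2]
      exact h1
    · simp
  rw [hd2, hd3, add_zero, add_zero] at h0
  -- only the term of `t₀` survives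
  have hd5 : ∑ μ : S, Λ (trK κs (lhsM (G (Sum.inl μ)) Θ θ₀ E μ.1)) =
      Λ (trK κs (lhsM (G t₀) Θ θ₀ E 0)) := by
    refine (Finset.sum_eq_single (⟨0, hp0⟩ : S) (fun μ _ hμ => ?_) fun h => ?_)
    · unfold lhsM
      rw [map_sum (trK κs), map_sum Λ]
      refine Finset.sum_eq_zero fun θ hθ => ?_
      split_ifs with hc
      · rw [map_mul (trK κs), trK_pp]
        have hμ0 : μ.1 ≠ 0 := fun h => hμ (Subtype.ext h)
        rcases hL (fun v => (θ₀ v : ℤ) - θ v) (by
            intro h1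
            apply hμ0
            ext j
            have h2 := hc.2 j
            have h3 : ∀ v, (θ₀ v : ℤ) - θ v = 0 := fun v => congrFun h1 v
            simp only [h3, zero_mul, Finset.sum_const_zero] at h2
            simp only [Finsupp.coe_zero, Pi.zero_apply]
            omega) (habs θ hθ)
          (by have := hc.1; exact_mod_cast this) μ.1 hc.2 with h1 | h1
        · exact absurd h1.1 hμ0
        · exact h1 _
      · simp
    · exact absurd (Finset.mem_univ _) h
  rw [hd5] at h0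
  have hcG : ∀ θ, VGData.VLine.cG (G t₀) θ = Polynomial.C (coeff θ g₀) := by
    intro θ
    rw [hg₀, cG_C]
  unfold lhsM at h0
  rw [map_sum (trK κs), map_sum Λ, ← Finset.add_sum_erase _ _ hθ₀Θ] at h0
  have hd4 : ∑ θ ∈ Θ.erase θ₀,
      Λ (trK κs (if CondK 0 (fun j => -((0 : Fin n →₀ ℕ) j : ℤ)) (fun v => (θ₀ v : ℤ) - θ v) then
        sq f (VGData.VLine.cG (G t₀) θ) * pp E (fun v => (θ₀ v : ℤ) - θ v) else 0)) = 0 := by
    refine Finset.sum_eq_zero fun θ hθ => ?_
    split_ifs with hc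
    · rw [map_mul (trK κs), trK_pp]
      rcases hL (fun v => (θ₀ v : ℤ) - θ v) (by
          intro h1
          apply Finset.ne_of_mem_erase hθ
          ext v
          have := congrFun h1 v
          simp only [Pi.zero_apply] at this
          omega) (habs θ (Finset.mem_of_mem_erase hθ))
        (by have := hc.1; exact_mod_cast this) 0 hc.2 with ⟨-, h1⟩ | h1
      · have h2 : coeff θ g₀ = 0 := by
          by_contra h3
          have h4 := hmin θ (MvPolynomial.mem_support_iff.2 h3)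
          have h5 : (∑ v, (α v : ℤ) * ((θ₀ v : ℤ) - θ v)) =
              ((∑ v, α v * θ₀ v : ℕ) : ℤ) - ((∑ v, α v * θ v : ℕ) : ℤ) := by
            push_cast
            rw [← Finset.sum_sub_distrib]
            exact Finset.sum_congr rfl fun v _ => by ring
          rw [h5] at h1
          omega
        rw [hcG, h2, Polynomial.C_0]
        unfold sq
        simp
      · exact h1 _
    · simp
  rw [hd4, add_zero, if_pos ⟨by simp, fun j => by simp⟩, map_mul (trK κs), trK_pp, hcG] at h0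
  have h7 : (fun v => (θ₀ v : ℤ) - θ₀ v) = 0 := by funext v; simp
  rw [h7] at h0
  have h8 : trK κs (sq f (Polynomial.C (coeff θ₀ g₀))) = C (coeff θ₀ g₀) := by
    unfold sq trK
    simp
  rw [h8, ← smul_eq_C_mul, map_smul] at h0
  exact (smul_ne_zero (MvPolynomial.mem_support_iff.1 hθ₀) hΛ0) h0

end MPb07157
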