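import Pool.Agent.Lib.MP_b07157_ag.Defs
import Pool.Agent.Lib.MP_b07157_ag.Adapted

set_option autoImplicit false

noncomputable section

open MeasureTheory

namespace MPb07157

theorem rk_eq_card {n : ℕ} {ι : Type} (v : ι → Fin n → ℝ) (B : Finset ι)
    (hB : LinearIndepOn ℝ v (B : Set ι)) : rk v B = B.card := by
  unfold rk
  have h := finrank_span_eq_card (R := ℝ) (b := fun i : (B : Set ι) => v i) hB
  have h2 : Set.range (fun i : (B : Set ι) => v i) = v '' (B : Set ι) := by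
    ext y
    simp
  rw [h2] at h
  rw [h]
  simp

/-- the greedy basis inequality -/
theorem greedy {n : ℕ} {ι : Type} [DecidableEq ι] (v : ι → Fin n → ℝ) (θ : ℝ) (w : ι → ℝ) :
    ∀ (S : Finset ι) (ℓ : ι → ℝ), (∀ j ∈ S, 0 ≤ ℓ j) →
      (∀ S' ⊆ S, ∑ j ∈ S', w j ≤ θ * rk v S') →
      ∃ B ⊆ S, LinearIndepOn ℝ v (B : Set ι) ∧
        Submodule.span ℝ (v '' (B : Set ι)) = Submodule.span ℝ (v '' (S : Set ι)) ∧
        ∑ j ∈ S, w j * ℓ j ≤ θ * ∑ j ∈ B, ℓ j := by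
  intro S
  induction S using Finset.strongInduction with
  | H S ih =>
    intro ℓ hℓ hS
    rcases S.eq_empty_or_nonempty with rfl | hne
    · exact ⟨∅, Finset.Subset.refl _, by simp, rfl, by simp⟩
    · obtain ⟨i1, hi1, hmin⟩ := Finset.exists_min_image S ℓ hne
      set c := ℓ i1 with hc
      have hc0 : 0 ≤ c := hℓ i1 hi1
      obtain ⟨B', hB'S, hB'ind, hB'span, hB'⟩ := ih (S.erase i1) (Finset.erase_ssubset hi1)
        (fun j => ℓ j - c) (fun j hj => sub_nonneg.2 (hmin j (Finset.mem_of_mem_erase hj)))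
        (fun S' hS' => hS S' (hS'.trans (Finset.erase_subset _ _)))
      have hi1B' : i1 ∉ B' := fun h => Finset.notMem_erase i1 S (hB'S h)
      have hmain : ∀ B : Finset ι, LinearIndepOn ℝ v (B : Set ι) →
          Submodule.span ℝ (v '' (B : Set ι)) = Submodule.span ℝ (v '' (S : Set ι)) →
          ∑ j ∈ B, (ℓ j - c) = ∑ j ∈ B', (ℓ j - c) →
          ∑ j ∈ S, w j * ℓ j ≤ θ * ∑ j ∈ B, ℓ j := by
        intro B hBind hBspan hBsum
        have hcard : (rk v S : ℝ) = B.card := by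
          rw [← rk_eq_card v B hBind]
          unfold rk
          rw [hBspan]
        have h1 : ∑ j ∈ S, w j * ℓ j = ∑ j ∈ S.erase i1, w j * (ℓ j - c) + c * ∑ j ∈ S, w j := by
          have h2 : ∑ j ∈ S, w j * (ℓ j - c) = ∑ j ∈ S.erase i1, w j * (ℓ j - c) := by
            rw [← Finset.add_sum_erase S _ hi1, ← hc]
            simp
          rw [← h2, Finset.mul_sum, ← Finset.sum_add_distrib]
          exact Finset.sum_congr rfl fun j _ => by ring
        have h3 := hS S (Finset.Subset.refl _)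
        have h4 : c * ∑ j ∈ S, w j ≤ c * (θ * B.card) := by
          apply mul_le_mul_of_nonneg_left _ hc0
          rw [← hcard]
          exact h3
        have h5 : θ * ∑ j ∈ B, ℓ j = θ * ∑ j ∈ B', (ℓ j - c) + c * (θ * B.card) := by
          rw [← hBsum, Finset.sum_sub_distrib, Finset.sum_const, nsmul_eq_mul]
          ring
        rw [h1, h5]
        exact add_le_add hB' h4
      have hSins : S = insert i1 (S.erase i1) := (Finset.insert_erase hi1).symm
      by_cases hsp : v i1 ∈ Submodule.span ℝ (v '' (B' : Set ι))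
      · have hspan : Submodule.span ℝ (v '' (B' : Set ι)) = Submodule.span ℝ (v '' (S : Set ι)) := by
          rw [hB'span] at hsp
          rw [hB'span, hSins, Finset.coe_insert, Set.image_insert_eq, Finset.erase_insert_eq_erase,
            Finset.erase_idem, Submodule.span_insert_eq_span hsp]
        exact ⟨B', hB'S.trans (Finset.erase_subset _ _), hB'ind, hspan, hmain B' hB'ind hspan rfl⟩
      · have hspan : Submodule.span ℝ (v '' ((insert i1 B' : Finset ι) : Set ι)) =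
            Submodule.span ℝ (v '' (S : Set ι)) := by
          conv_rhs => rw [hSins]
          rw [Finset.coe_insert, Finset.coe_insert, Set.image_insert_eq, Set.image_insert_eq,
            Submodule.span_insert, Submodule.span_insert, hB'span]
        have hind : LinearIndepOn ℝ v ((insert i1 B' : Finset ι) : Set ι) := by
          rw [Finset.coe_insert]
          exact hB'ind.insert hsp
        refine ⟨insert i1 B', ?_, hind, hspan, hmain _ hind hspan ?_⟩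
        · exact Finset.insert_subset hi1 (hB'S.trans (Finset.erase_subset _ _))
        · rw [Finset.sum_insert hi1B', ← hc]
          simp

theorem exists_ratio {n : ℕ} {ι : Type} [DecidableEq ι] (v : ι → Fin n → ℝ) (F : Finset ι)
    (i₀ : ι) (hi₀ : i₀ ∈ F) (d : ι → ℝ) (hd : ∀ j ∈ F.erase i₀, 0 < d j)
    (hrel : (F.erase i₀).Nonempty → v i₀ = ∑ j ∈ F.erase i₀, d j • v j) :
    ∃ c : ℝ, 0 < c ∧ ∀ x, (∀ j ∈ F, 0 < v j ⬝ᵥ x) → c * ∑ j ∈ F, v j ⬝ᵥ x ≤ v i₀ ⬝ᵥ x := by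
  rcases (F.erase i₀).eq_empty_or_nonempty with he | hne
  · refine ⟨1, one_pos, fun x _ => ?_⟩
    rw [← Finset.add_sum_erase F _ hi₀, he]
    simp
  · obtain ⟨k, hk, hmin⟩ := Finset.exists_min_image _ d hne
    have hδ : 0 < d k := hd k hk
    refine ⟨d k / (1 + d k), by positivity, fun x hx => ?_⟩
    have h1 : v i₀ ⬝ᵥ x = ∑ j ∈ F.erase i₀, d j * (v j ⬝ᵥ x) := by
      conv_lhs => rw [hrel hne]
      rw [sum_dotProduct]
      simp [smul_dotProduct]
    have h2 : d k * ∑ j ∈ F.erase i₀, v j ⬝ᵥ x ≤ v i₀ ⬝ᵥ x := by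
      rw [h1, Finset.mul_sum]
      refine Finset.sum_le_sum fun j hj => ?_
      exact mul_le_mul_of_nonneg_right (hmin j hj) (hx j (Finset.mem_of_mem_erase hj)).le
    rw [← Finset.add_sum_erase F _ hi₀, div_mul_eq_mul_div, div_le_iff₀ (by positivity)]
    nlinarith

theorem exists_C1 {n : ℕ} {ι : Type} [DecidableEq ι] (v : ι → Fin n → ℝ) (F : Finset ι)
    (i₀ : ι) :
    ∃ C : ℝ, 1 ≤ C ∧ ∀ S ⊆ F, v i₀ ∈ Submodule.span ℝ (v '' (S : Set ι)) →
      ∀ x, (∀ j ∈ F, 0 < v j ⬝ᵥ x) → ∀ V, 0 ≤ V → (∀ j ∈ S, v j ⬝ᵥ x ≤ V) →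
        v i₀ ⬝ᵥ x ≤ C * V := by
  have h1 : ∀ S : Finset ι, ∃ C : ℝ, 0 ≤ C ∧ (S ⊆ F → v i₀ ∈ Submodule.span ℝ (v '' (S : Set ι)) →
      ∀ x, (∀ j ∈ F, 0 < v j ⬝ᵥ x) → ∀ V, 0 ≤ V → (∀ j ∈ S, v j ⬝ᵥ x ≤ V) →
        v i₀ ⬝ᵥ x ≤ C * V) := by
    intro S
    by_cases hsp : v i₀ ∈ Submodule.span ℝ (v '' (S : Set ι))
    · rw [Submodule.mem_span_image_finset_iff_exists_fun'] at hsp
      obtain ⟨e, he⟩ := hsp
      refine ⟨∑ j ∈ S, |e j|, Finset.sum_nonneg fun j _ => abs_nonneg _, ?_⟩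
      intro hSF _ x hx V hV hjV
      rw [← he, sum_dotProduct, Finset.sum_mul]
      refine Finset.sum_le_sum fun j hj => ?_
      rw [smul_dotProduct, smul_eq_mul]
      have h2 := hx j (hSF hj)
      have h3 := hjV j hj
      calc e j * (v j ⬝ᵥ x) ≤ |e j| * (v j ⬝ᵥ x) :=
            mul_le_mul_of_nonneg_right (le_abs_self _) h2.le
        _ ≤ |e j| * V := mul_le_mul_of_nonneg_left h3 (abs_nonneg _)
    · exact ⟨0, le_refl _, fun _ h => absurd h hsp⟩
  choose C hC0 hC using h1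
  refine ⟨1 + ∑ S ∈ F.powerset, C S, ?_, ?_⟩
  · have : 0 ≤ ∑ S ∈ F.powerset, C S := Finset.sum_nonneg fun S _ => hC0 S
    linarith
  · intro S hSF hsp x hx V hV hjV
    refine (hC S hSF hsp x hx V hV hjV).trans (mul_le_mul_of_nonneg_right ?_ hV)
    have := Finset.single_le_sum (f := C) (fun T _ => hC0 T) (Finset.mem_powerset.2 hSF)
    linarith

theorem prod_rpow_eq_exp {ι : Type} (F : Finset ι) (t : ι → ℝ) (ht : ∀ j ∈ F, 0 < t j)
    (w : ι → ℝ) : ∏ j ∈ F, (t j) ^ (w j) = Real.exp (∑ j ∈ F, Real.log (t j) * w j) := by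
  rw [Real.exp_sum]
  exact Finset.prod_congr rfl fun j hj => Real.rpow_def_of_pos (ht j hj) _

theorem pointwise {n : ℕ} {ι : Type} [DecidableEq ι] (v : ι → Fin n → ℝ) (F : Finset ι)
    (i₀ : ι) (hi₀ : i₀ ∈ F) (d : ι → ℝ) (hd : ∀ j ∈ F.erase i₀, 0 < d j)
    (hrel : (F.erase i₀).Nonempty → v i₀ = ∑ j ∈ F.erase i₀, d j • v j)
    (w : ι → ℝ) (hw : ∀ j ∈ F, 0 ≤ w j) (θ : ℝ) (hθ0 : 0 ≤ θ)
    (hS : ∀ S ⊆ F, v i₀ ∉ Submodule.span ℝ (v '' (S : Set ι)) → ∑ j ∈ S, w j ≤ θ * rk v S)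
    (htot : ∑ j ∈ F, w j = θ * rk v F) :
    ∃ C : ℝ, 0 ≤ C ∧ ∀ x, (∀ j ∈ F, 0 < v j ⬝ᵥ x) → ∃ B ⊆ F, LinearIndepOn ℝ v (B : Set ι) ∧
      ∏ j ∈ F, (v j ⬝ᵥ x) ^ (-w j) ≤ C * ∏ j ∈ B, |v j ⬝ᵥ x| ^ (-θ) := by
  obtain ⟨c', hc', hratio⟩ := exists_ratio v F i₀ hi₀ d hd hrel
  obtain ⟨C1, hC1, hspan⟩ := exists_C1 v F i₀
  have hC1p : 0 < C1 := lt_of_lt_of_le one_pos hC1
  set c := min 1 (c' / (2 * C1)) with hc
  have hc0 : 0 < c := lt_min one_pos (by positivity)
  have hc1 : c ≤ 1 := min_le_left _ _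
  have hc2 : C1 * c ≤ c' / 2 := by
    have h1 : c ≤ c' / (2 * C1) := min_le_right _ _
    calc C1 * c ≤ C1 * (c' / (2 * C1)) := mul_le_mul_of_nonneg_left h1 hC1p.le
      _ = c' / 2 := by field_simp
  have hlogc : Real.log c ≤ 0 := Real.log_nonpos hc0.le hc1
  refine ⟨Real.exp (-θ * rk v F * Real.log c), (Real.exp_pos _).le, fun x hx => ?_⟩
  set N := ∑ j ∈ F, v j ⬝ᵥ x with hN
  have hNpos : 0 < N := Finset.sum_pos hx ⟨i₀, hi₀⟩
  have htN : ∀ j ∈ F, v j ⬝ᵥ x ≤ N := fun j hj =>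
    Finset.single_le_sum (f := fun j => v j ⬝ᵥ x) (fun k hk => (hx k hk).le) hj
  set V := c * N with hV
  have hVpos : 0 < V := mul_pos hc0 hNpos
  have hlogV : Real.log V = Real.log c + Real.log N :=
    Real.log_mul hc0.ne' hNpos.ne'
  set S := F.filter (fun j => v j ⬝ᵥ x ≤ V) with hSdef
  have hSF : S ⊆ F := Finset.filter_subset _ _
  have hnot : ∀ S' ⊆ S, v i₀ ∉ Submodule.span ℝ (v '' (S' : Set ι)) := by
    intro S' hS' hsp
    have h1 := hspan S' (hS'.trans hSF) hsp x hx V hVpos.le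
      (fun j hj => (Finset.mem_filter.1 (hS' hj)).2)
    have h2 := hratio x hx
    have h3 : C1 * V ≤ c' / 2 * N := by
      rw [hV, ← mul_assoc]
      exact mul_le_mul_of_nonneg_right hc2 hNpos.le
    have h4 : 0 < c' * N := mul_pos hc' hNpos
    linarith
  obtain ⟨B, hBS, hBind, _, hBle⟩ := greedy v θ w S (fun j => Real.log V - Real.log (v j ⬝ᵥ x))
    (fun j hj => sub_nonneg.2 (Real.log_le_log (hx j (hSF hj)) (Finset.mem_filter.1 hj).2))
    (fun S' hS' => hS S' (hS'.trans hSF) (hnot S' hS'))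
  obtain ⟨b, hbF, hBb, hFb, hbind⟩ := exists_linearIndepOn_extension hBind
    (Finset.coe_subset.2 (hBS.trans hSF))
  obtain ⟨Bp, rfl⟩ := (F.finite_toSet.subset hbF).exists_finset_coe
  have hBpF : Bp ⊆ F := Finset.coe_subset.1 hbF
  have hBBp : B ⊆ Bp := Finset.coe_subset.1 hBb
  have hcard : (rk v F : ℝ) = Bp.card := by
    rw [← rk_eq_card v Bp hbind]
    unfold rk
    rw [le_antisymm (Submodule.span_le.2 hFb) (Submodule.span_mono (Set.image_mono hbF))]
  refine ⟨Bp, hBpF, hbind, ?_⟩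
  have habs : ∏ j ∈ Bp, |v j ⬝ᵥ x| ^ (-θ) = ∏ j ∈ Bp, (v j ⬝ᵥ x) ^ (-θ) :=
    Finset.prod_congr rfl fun j hj => by rw [abs_of_pos (hx j (hBpF hj))]
  rw [habs, prod_rpow_eq_exp F (fun j => v j ⬝ᵥ x) hx (fun j => -w j),
    prod_rpow_eq_exp Bp (fun j => v j ⬝ᵥ x) (fun j hj => hx j (hBpF hj)) (fun _ => -θ),
    ← Real.exp_add, Real.exp_le_exp]
  -- the logarithmic inequality
  have e1 : ∑ j ∈ F, Real.log (v j ⬝ᵥ x) * -w j =
      ∑ j ∈ F, w j * (Real.log V - Real.log (v j ⬝ᵥ x)) - Real.log V * ∑ j ∈ F, w j := by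
    rw [Finset.mul_sum, ← Finset.sum_sub_distrib]
    exact Finset.sum_congr rfl fun j _ => by ring
  have e2 : ∑ j ∈ F, w j * (Real.log V - Real.log (v j ⬝ᵥ x)) ≤
      ∑ j ∈ S, w j * (Real.log V - Real.log (v j ⬝ᵥ x)) := by
    rw [← Finset.sum_filter_add_sum_filter_not F (fun j => v j ⬝ᵥ x ≤ V)]
    have : ∑ j ∈ F.filter (fun j => ¬ v j ⬝ᵥ x ≤ V),
        w j * (Real.log V - Real.log (v j ⬝ᵥ x)) ≤ 0 := by
      apply Finset.sum_nonpos
      intro j hj
      obtain ⟨hjF, hjV⟩ := Finset.mem_filter.1 hj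
      apply mul_nonpos_of_nonneg_of_nonpos (hw j hjF)
      exact sub_nonpos.2 (Real.log_le_log hVpos (not_le.1 hjV).le)
    rw [← hSdef]
    linarith
  have e3 : ∑ j ∈ B, (Real.log V - Real.log (v j ⬝ᵥ x)) ≤
      ∑ j ∈ Bp, (Real.log V - Real.log c - Real.log (v j ⬝ᵥ x)) := by
    calc ∑ j ∈ B, (Real.log V - Real.log (v j ⬝ᵥ x))
        ≤ ∑ j ∈ B, (Real.log V - Real.log c - Real.log (v j ⬝ᵥ x)) :=
          Finset.sum_le_sum fun j _ => by linarith
      _ ≤ _ := by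
          apply Finset.sum_le_sum_of_subset_of_nonneg hBBp
          intro j hj _
          have := Real.log_le_log (hx j (hBpF hj)) (htN j (hBpF hj))
          linarith
  have e4 : ∑ j ∈ Bp, (Real.log V - Real.log c - Real.log (v j ⬝ᵥ x)) =
      Bp.card * (Real.log V - Real.log c) - ∑ j ∈ Bp, Real.log (v j ⬝ᵥ x) := by
    rw [Finset.sum_sub_distrib, Finset.sum_const, nsmul_eq_mul]
  have e5 : ∑ j ∈ Bp, Real.log (v j ⬝ᵥ x) * -θ = -θ * ∑ j ∈ Bp, Real.log (v j ⬝ᵥ x) := by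
    rw [← Finset.sum_mul, mul_comm]
  have e6 := mul_le_mul_of_nonneg_left e3 hθ0
  rw [e1, e5, htot, hcard]
  rw [e4] at e6
  have e7 := e2.trans (hBle.trans e6)
  linarith

theorem integrable_abs_rpow (θ : ℝ) (hθ : θ < 1) (R : ℝ) :
    IntegrableOn (fun u : ℝ => |u| ^ (-θ)) (Set.Icc (-R) R) volume := by
  rcases lt_or_ge R 0 with hR | hR
  · rw [Set.Icc_eq_empty (by linarith)]
    exact integrableOn_empty
  · have h1 : IntervalIntegrable (fun u : ℝ => |u| ^ (-θ)) volume 0 R := by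
      have h0 := intervalIntegral.intervalIntegrable_rpow' (a := 0) (b := R) (r := -θ)
        (by linarith)
      refine h0.congr ?_
      intro u hu
      rw [Set.uIoc_of_le hR] at hu
      simp only
      rw [abs_of_pos hu.1]
    have h2 : IntervalIntegrable (fun u : ℝ => |u| ^ (-θ)) volume 0 (-R) := by
      rw [IntervalIntegrable.iff_comp_neg, neg_zero, neg_neg]
      simpa using h1
    have h3 := h2.symm.trans h1
    rw [intervalIntegrable_iff_integrableOn_Icc_of_le (by linarith)] at h3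
    exact h3

theorem measurableSet_box {n : ℕ} (R : ℝ) : MeasurableSet {x : Fin n → ℝ | ∀ i, |x i| ≤ R} := by
  have : {x : Fin n → ℝ | ∀ i, |x i| ≤ R} = ⋂ i, {x : Fin n → ℝ | |x i| ≤ R} := by
    ext x
    simp
  rw [this]
  exact MeasurableSet.iInter fun i => measurableSet_le (by fun_prop) measurable_const

theorem integrableOn_prod_indep {n : ℕ} {ι : Type} (v : ι → Fin n → ℝ) (B : Finset ι)
    (hB : LinearIndepOn ℝ v (B : Set ι)) (θ : ℝ) (hθ : θ < 1) (R : ℝ) :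
    IntegrableOn (fun x : Fin n → ℝ => ∏ j ∈ B, |v j ⬝ᵥ x| ^ (-θ)) {x | ∀ i, |x i| ≤ R}
      volume := by
  classical
  obtain ⟨P, e, hdet, einj, hPe⟩ := exists_adapted v B hB
  set R' : ℝ := ∑ i, ∑ k, |P i k| * |R| with hR'
  let h : Fin n → ℝ → ℝ := fun i => (Set.Icc (-R') R').indicator
    (fun u => if i ∈ Set.range e then |u| ^ (-θ) else 1)
  have hint : ∀ i, Integrable (h i) volume := by
    intro i
    apply IntegrableOn.integrable_indicator _ measurableSet_Icc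
    by_cases hi : i ∈ Set.range e
    · simp only [hi, if_true]
      exact integrable_abs_rpow θ hθ R'
    · simp only [hi, if_false]
      exact integrableOn_const (by simp)
  have hG : Integrable (fun u : Fin n → ℝ => ∏ i, h i (u i)) volume := by
    rw [volume_pi]
    exact Integrable.fintype_prod hint
  have hG2 : Integrable (fun x : Fin n → ℝ => ∏ i, h i (P.mulVec x i)) volume := by
    have hmap := Real.map_matrix_volume_pi_eq_smul_volume_pi (M := P) hdet.ne_zero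
    have h1 : Integrable (fun u : Fin n → ℝ => ∏ i, h i (u i))
        (Measure.map (Matrix.toLin' P) volume) := by
      rw [hmap]
      exact hG.smul_measure ENNReal.ofReal_ne_top
    have h2 : Measurable (Matrix.toLin' P : (Fin n → ℝ) → (Fin n → ℝ)) :=
      (LinearMap.continuous_of_finiteDimensional _).measurable
    exact h1.comp_measurable h2
  refine (hG2.integrableOn (s := {x | ∀ i, |x i| ≤ R})).congr_fun ?_ (measurableSet_box R)
  intro x hx
  have hx' : ∀ i, |x i| ≤ R := hx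
  have hmem : ∀ i, P.mulVec x i ∈ Set.Icc (-R') R' := by
    intro i
    rw [Set.mem_Icc, ← abs_le]
    have h1 : |P.mulVec x i| ≤ ∑ k, |P i k| * |R| := by
      unfold Matrix.mulVec dotProduct
      refine (Finset.abs_sum_le_sum_abs _ _).trans (Finset.sum_le_sum fun k _ => ?_)
      rw [abs_mul]
      exact mul_le_mul_of_nonneg_left ((hx' k).trans (le_abs_self R)) (abs_nonneg _)
    refine h1.trans ?_
    exact Finset.single_le_sum (f := fun i => ∑ k, |P i k| * |R|)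
      (fun i _ => Finset.sum_nonneg fun k _ => mul_nonneg (abs_nonneg _) (abs_nonneg _))
      (Finset.mem_univ i)
  have h2 : ∀ i, h i (P.mulVec x i) = if i ∈ Set.range e then |P.mulVec x i| ^ (-θ) else 1 :=
    fun i => Set.indicator_of_mem (hmem i) _
  simp only [h2]
  have h3 : ∏ j : B, |v j ⬝ᵥ x| ^ (-θ) =
      ∏ i, (if i ∈ Set.range e then |P.mulVec x i| ^ (-θ) else 1) := by
    apply Fintype.prod_of_injective e einj
    · intro i hi
      rw [if_neg hi]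
    · intro j
      rw [if_pos ⟨j, rfl⟩, ← hPe j]
      rfl
  rw [← h3, Finset.prod_coe_sort B (fun j => |v j ⬝ᵥ x| ^ (-θ))]

/-- Integrability of `∏ v_j ^ (-w_j)` on the bounded part of a chamber. -/
theorem integrableOn_chamber {n : ℕ} {ι : Type} [DecidableEq ι] (v : ι → Fin n → ℝ)
    (F : Finset ι) (_hv : ∀ j ∈ F, v j ≠ 0) (i₀ : ι) (hi₀ : i₀ ∈ F) (d : ι → ℝ)
    (hd : ∀ j ∈ F.erase i₀, 0 < d j)
    (hrel : (F.erase i₀).Nonempty → v i₀ = ∑ j ∈ F.erase i₀, d j • v j)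
    (w : ι → ℝ) (hw : ∀ j ∈ F, 0 ≤ w j) (θ : ℝ) (hθ0 : 0 ≤ θ) (hθ : θ < 1)
    (hS : ∀ S ⊆ F, v i₀ ∉ Submodule.span ℝ (v '' (S : Set ι)) → ∑ j ∈ S, w j ≤ θ * rk v S)
    (htot : ∑ j ∈ F, w j = θ * rk v F) (R : ℝ) :
    IntegrableOn (fun x : Fin n → ℝ => ∏ j ∈ F, (v j ⬝ᵥ x) ^ (-w j))
      {x | (∀ j ∈ F, 0 < v j ⬝ᵥ x) ∧ ∀ i, |x i| ≤ R} volume := by
  classical
  obtain ⟨C, hC, hpt⟩ := pointwise v F i₀ hi₀ d hd hrel w hw θ hθ0 hS htot
  set T : Finset (Finset ι) := F.powerset.filter (fun B => LinearIndepOn ℝ v (B : Set ι)) with hT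
  have hdotm : ∀ j, Measurable (fun x : Fin n → ℝ => v j ⬝ᵥ x) := by
    intro j
    unfold dotProduct
    fun_prop
  have hmeas : MeasurableSet {x : Fin n → ℝ | (∀ j ∈ F, 0 < v j ⬝ᵥ x) ∧ ∀ i, |x i| ≤ R} := by
    have : {x : Fin n → ℝ | (∀ j ∈ F, 0 < v j ⬝ᵥ x) ∧ ∀ i, |x i| ≤ R} =
        (⋂ j ∈ F, {x : Fin n → ℝ | 0 < v j ⬝ᵥ x}) ∩ {x : Fin n → ℝ | ∀ i, |x i| ≤ R} := by
      ext x
      simp
    rw [this]
    exact (Finset.measurableSet_biInter F fun j _ =>
      measurableSet_lt measurable_const (hdotm j)).inter (measurableSet_box R)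
  have hg : IntegrableOn (fun x : Fin n → ℝ => C * ∑ B ∈ T, ∏ j ∈ B, |v j ⬝ᵥ x| ^ (-θ))
      {x : Fin n → ℝ | (∀ j ∈ F, 0 < v j ⬝ᵥ x) ∧ ∀ i, |x i| ≤ R} volume := by
    have h1 : IntegrableOn (fun x : Fin n → ℝ => C * ∑ B ∈ T, ∏ j ∈ B, |v j ⬝ᵥ x| ^ (-θ))
        {x : Fin n → ℝ | ∀ i, |x i| ≤ R} volume := by
      apply Integrable.const_mul
      apply integrable_finsetSum
      intro B hB
      exact integrableOn_prod_indep v B (Finset.mem_filter.1 hB).2 θ hθ R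
    exact h1.mono_set fun x hx => hx.2
  refine Integrable.mono' hg ?_ ?_
  · apply Measurable.aestronglyMeasurable
    apply Finset.measurable_prod
    intro j _
    exact (hdotm j).pow_const _
  · rw [ae_restrict_iff' hmeas]
    refine Filter.Eventually.of_forall fun x hx => ?_
    obtain ⟨B, hBF, hBind, hle⟩ := hpt x hx.1
    have hpos : 0 ≤ ∏ j ∈ F, (v j ⬝ᵥ x) ^ (-w j) :=
      Finset.prod_nonneg fun j hj => Real.rpow_nonneg (hx.1 j hj).le _
    rw [Real.norm_of_nonneg hpos]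
    refine hle.trans (mul_le_mul_of_nonneg_left ?_ hC)
    exact Finset.single_le_sum (f := fun B : Finset ι => ∏ j ∈ B, |v j ⬝ᵥ x| ^ (-θ))
      (fun B _ => Finset.prod_nonneg fun j _ => Real.rpow_nonneg (abs_nonneg _) _)
      (Finset.mem_filter.2 ⟨Finset.mem_powerset.2 hBF, hBind⟩)

end MPb07157
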