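import Pool.Agent.Lib.MP_b07157_ag.Defs

noncomputable section

namespace MPb07157

open MvPolynomial

variable {σ τ ρ : Type}

/-! ### Constructible sets -/

theorem IsConstr.union {S T : Set (σ → ℂ)} (hS : IsConstr S) (hT : IsConstr T) :
    IsConstr (S ∪ T) := by
  have h := (hS.compl.inter hT.compl).compl
  rwa [Set.compl_inter, compl_compl, compl_compl] at h

theorem IsConstr.univ : IsConstr (Set.univ : Set (σ → ℂ)) := by
  have h := IsConstr.zeros (0 : MvPolynomial σ ℂ)
  have h2 : {x : σ → ℂ | eval x (0 : MvPolynomial σ ℂ) = 0} = Set.univ := by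
    ext x; simp
  rwa [h2] at h

theorem IsConstr.empty : IsConstr (∅ : Set (σ → ℂ)) := by
  have h := (IsConstr.univ (σ := σ)).compl
  rwa [Set.compl_univ] at h

theorem IsConstr.diff {S T : Set (σ → ℂ)} (hS : IsConstr S) (hT : IsConstr T) :
    IsConstr (S \ T) := by
  rw [Set.sdiff_eq]; exact hS.inter hT.compl

theorem isConstr_setOf_not {P : (σ → ℂ) → Prop} (h : IsConstr {x | P x}) :
    IsConstr {x | ¬ P x} := h.compl

theorem isConstr_setOf_and {P Q : (σ → ℂ) → Prop} (h : IsConstr {x | P x})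
    (h' : IsConstr {x | Q x}) : IsConstr {x | P x ∧ Q x} := h.inter h'

theorem isConstr_setOf_or {P Q : (σ → ℂ) → Prop} (h : IsConstr {x | P x})
    (h' : IsConstr {x | Q x}) : IsConstr {x | P x ∨ Q x} := h.union h'

theorem isConstr_setOf_imp {P Q : (σ → ℂ) → Prop} (h : IsConstr {x | P x})
    (h' : IsConstr {x | Q x}) : IsConstr {x | P x → Q x} := by
  have : {x | P x → Q x} = {x | ¬ P x ∨ Q x} := by
    ext x; simp only [Set.mem_ofPred_eq]; tauto
  rw [this]
  exact isConstr_setOf_or (isConstr_setOf_not h) h'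

theorem isConstr_setOf_iff {P Q : (σ → ℂ) → Prop} (h : IsConstr {x | P x})
    (h' : IsConstr {x | Q x}) : IsConstr {x | P x ↔ Q x} := by
  have : {x | P x ↔ Q x} = {x | (P x → Q x) ∧ (Q x → P x)} := by
    ext x; simp only [Set.mem_ofPred_eq]; tauto
  rw [this]
  exact isConstr_setOf_and (isConstr_setOf_imp h h') (isConstr_setOf_imp h' h)

theorem isConstr_eq_zero (p : MvPolynomial σ ℂ) : IsConstr {x | eval x p = 0} :=
  IsConstr.zeros p

theorem isConstr_ne_zero (p : MvPolynomial σ ℂ) : IsConstr {x | eval x p ≠ 0} :=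
  (IsConstr.zeros p).compl

theorem isConstr_const (P : Prop) : IsConstr {_x : σ → ℂ | P} := by
  by_cases h : P
  · simp only [h, Set.ofPred_true]; exact IsConstr.univ
  · simp only [h, Set.ofPred_false]; exact IsConstr.empty

theorem isConstr_biInter {α : Type*} (s : Finset α) (S : α → Set (σ → ℂ))
    (h : ∀ i ∈ s, IsConstr (S i)) : IsConstr (⋂ i ∈ s, S i) := by
  classical
  induction s using Finset.induction_on with
  | empty => simpa using IsConstr.univ
  | insert a s ha ih =>
    rw [Finset.set_biInter_insert]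
    exact (h a (Finset.mem_insert_self a s)).inter
      (ih fun i hi => h i (Finset.mem_insert_of_mem hi))

theorem isConstr_biUnion {α : Type*} (s : Finset α) (S : α → Set (σ → ℂ))
    (h : ∀ i ∈ s, IsConstr (S i)) : IsConstr (⋃ i ∈ s, S i) := by
  classical
  induction s using Finset.induction_on with
  | empty => simpa using IsConstr.empty
  | insert a s ha ih =>
    rw [Finset.set_biUnion_insert]
    exact (h a (Finset.mem_insert_self a s)).union
      (ih fun i hi => h i (Finset.mem_insert_of_mem hi))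

theorem isConstr_forall_mem {α : Type*} (s : Finset α) (P : α → (σ → ℂ) → Prop)
    (h : ∀ i ∈ s, IsConstr {x | P i x}) : IsConstr {x | ∀ i ∈ s, P i x} := by
  have h2 := isConstr_biInter s (fun i => {x | P i x}) h
  have h3 : (⋂ i ∈ s, {x | P i x}) = {x | ∀ i ∈ s, P i x} := by
    ext x; simp
  rwa [h3] at h2

theorem isConstr_exists_mem {α : Type*} (s : Finset α) (P : α → (σ → ℂ) → Prop)
    (h : ∀ i ∈ s, IsConstr {x | P i x}) : IsConstr {x | ∃ i ∈ s, P i x} := by
  have h2 := isConstr_biUnion s (fun i => {x | P i x}) h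
  have h3 : (⋃ i ∈ s, {x | P i x}) = {x | ∃ i ∈ s, P i x} := by
    ext x; simp
  rwa [h3] at h2

theorem eval_polyMap (φ : τ → MvPolynomial σ ℂ) (x : σ → ℂ) (p : MvPolynomial τ ℂ) :
    eval (polyMap φ x) p = eval x (bind₁ φ p) :=
  (eval₂Hom_bind₁ (RingHom.id ℂ) x φ p).symm

theorem IsConstr.preimage {T : Set (τ → ℂ)} (hT : IsConstr T) (φ : τ → MvPolynomial σ ℂ) :
    IsConstr (polyMap φ ⁻¹' T) := by
  induction hT with
  | zeros p =>
    have : polyMap φ ⁻¹' {x | eval x p = 0} = {x | eval x (bind₁ φ p) = 0} := by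
      ext x; simp [eval_polyMap]
    rw [this]
    exact IsConstr.zeros _
  | compl _ ih => rw [Set.preimage_compl]; exact ih.compl
  | inter _ _ ih1 ih2 => rw [Set.preimage_inter]; exact ih1.inter ih2

theorem polyMap_X (g : τ → σ) (x : σ → ℂ) : polyMap (fun j => X (g j)) x = fun j => x (g j) := by
  funext j; simp [polyMap]

theorem polyMap_comp (φ : τ → MvPolynomial σ ℂ) (ψ : ρ → MvPolynomial τ ℂ) (x : σ → ℂ) :
    polyMap ψ (polyMap φ x) = polyMap (fun k => bind₁ φ (ψ k)) x := by
  funext k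
  exact eval_polyMap φ x (ψ k)

theorem IsConstr.reindex {S : Set (σ → ℂ)} (hS : IsConstr S) (g : σ → τ) :
    IsConstr {x : τ → ℂ | (fun i => x (g i)) ∈ S} := by
  have h := hS.preimage (fun i => (X (g i) : MvPolynomial τ ℂ))
  have h2 : polyMap (fun i => (X (g i) : MvPolynomial τ ℂ)) ⁻¹' S
      = {x : τ → ℂ | (fun i => x (g i)) ∈ S} := by
    ext x; simp [polyMap_X]
  rwa [h2] at h

/-! ### Classes -/

theorem K0_eq_of_rel {p q : MvPolynomial Gen ℤ} (h : K0Rel (p - q)) :
    toK0 p = toK0 q :=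
  Ideal.Quotient.eq.2 (Ideal.subset_span h)

theorem clsFin_union {N : ℕ} {S T : Set (Fin N → ℂ)} (hS : IsConstr S) (hT : IsConstr T)
    (h : Disjoint S T) : clsFin (S ∪ T) = clsFin S + clsFin T := by
  unfold clsFin
  rw [dif_pos (hS.union hT), dif_pos hS, dif_pos hT, ← map_add]
  refine K0_eq_of_rel ?_
  rw [← sub_sub]
  exact K0Rel.disj S T hS hT _ h

theorem clsFin_bijOn {N M : ℕ} {S : Set (Fin N → ℂ)} {T : Set (Fin M → ℂ)} (hS : IsConstr S)
    (hT : IsConstr T) (φ : Fin M → MvPolynomial (Fin N) ℂ) (h : Set.BijOn (polyMap φ) S T) :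
    clsFin S = clsFin T := by
  unfold clsFin
  rw [dif_pos hS, dif_pos hT]
  exact K0_eq_of_rel (K0Rel.bij S T hS hT φ h)

theorem isConstr_prodSet {N M : ℕ} {S : Set (Fin N → ℂ)} {T : Set (Fin M → ℂ)} (hS : IsConstr S)
    (hT : IsConstr T) : IsConstr (prodSet S T) :=
  (hS.reindex (fun i => Fin.castAdd M i)).inter (hT.reindex (fun i => Fin.natAdd N i))

theorem clsFin_prod {N M : ℕ} {S : Set (Fin N → ℂ)} {T : Set (Fin M → ℂ)} (hS : IsConstr S)
    (hT : IsConstr T) : clsFin (prodSet S T) = clsFin S * clsFin T := by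
  unfold clsFin
  rw [dif_pos (isConstr_prodSet hS hT), dif_pos hS, dif_pos hT, ← map_mul]
  exact K0_eq_of_rel (K0Rel.prod S T hS hT _)

theorem clsFin_point : clsFin (Set.univ : Set (Fin 0 → ℂ)) = 1 := by
  unfold clsFin
  rw [dif_pos IsConstr.univ, ← map_one toK0]
  exact K0_eq_of_rel (K0Rel.point _)

theorem clsFin_empty {N : ℕ} : clsFin (∅ : Set (Fin N → ℂ)) = 0 := by
  have h := clsFin_union (N := N) IsConstr.empty IsConstr.empty (disjoint_bot_left)
  rw [Set.union_empty] at h
  exact left_eq_add.1 h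

variable [Fintype σ] [Fintype τ] [Fintype ρ]

theorem cls_eq_clsFin {S : Set (σ → ℂ)} (hS : IsConstr S) {N : ℕ} (e : σ ≃ Fin N) :
    cls S = clsFin {x : Fin N → ℂ | (fun i => x (e i)) ∈ S} := by
  unfold cls
  refine clsFin_bijOn (hS.reindex _) (hS.reindex _)
    (fun k => X (Fintype.equivFin σ (e.symm k))) ⟨?_, ?_, ?_⟩
  · intro x hx
    simp only [Set.mem_ofPred_eq, polyMap_X] at hx ⊢
    simpa using hx
  · intro x _ y _ hxy
    simp only [polyMap_X] at hxy
    funext k
    have := congrFun hxy (e ((Fintype.equivFin σ).symm k))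
    simpa using this
  · intro y hy
    refine ⟨fun k => y (e ((Fintype.equivFin σ).symm k)), ?_, ?_⟩
    · simpa using hy
    · simp only [polyMap_X]
      funext k
      simp

theorem cls_union {S T : Set (σ → ℂ)} (hS : IsConstr S) (hT : IsConstr T)
    (h : Disjoint S T) : cls (S ∪ T) = cls S + cls T := by
  unfold cls
  rw [← clsFin_union (hS.reindex _) (hT.reindex _)]
  · congr 1
  · rw [Set.disjoint_left] at h ⊢
    intro x hx hx'
    exact h hx hx'

theorem cls_empty : cls (∅ : Set (σ → ℂ)) = 0 := by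
  unfold cls
  simp only [Set.mem_empty_iff_false, Set.ofPred_false]
  exact clsFin_empty

/-- Classes are invariant under polynomial maps that restrict to a bijection. -/
theorem cls_bijOn {S : Set (σ → ℂ)} {T : Set (τ → ℂ)} (hS : IsConstr S)
    (hT : IsConstr T) (φ : τ → MvPolynomial σ ℂ) (h : Set.BijOn (polyMap φ) S T) :
    cls S = cls T := by
  unfold cls
  refine clsFin_bijOn (hS.reindex _) (hT.reindex _)
    (fun k => rename (Fintype.equivFin σ) (φ ((Fintype.equivFin τ).symm k))) ?_
  have key : ∀ x : Fin (Fintype.card σ) → ℂ,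
      polyMap (fun k => rename (Fintype.equivFin σ) (φ ((Fintype.equivFin τ).symm k))) x
      = fun k => polyMap φ (fun i => x (Fintype.equivFin σ i)) ((Fintype.equivFin τ).symm k) := by
    intro x
    funext k
    simp [polyMap, eval_rename, Function.comp_def]
  refine ⟨?_, ?_, ?_⟩
  · intro x hx
    simp only [Set.mem_ofPred_eq, key] at hx ⊢
    simpa using h.mapsTo hx
  · intro x hx y hy hxy
    simp only [Set.mem_ofPred_eq, key] at hx hy hxy
    have h1 : polyMap φ (fun i => x (Fintype.equivFin σ i)) =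
        polyMap φ (fun i => y (Fintype.equivFin σ i)) := by
      funext j
      have := congrFun hxy (Fintype.equivFin τ j)
      simpa using this
    have h2 := h.injOn hx hy h1
    funext k
    have := congrFun h2 ((Fintype.equivFin σ).symm k)
    simpa using this
  · intro y hy
    obtain ⟨x, hx, hxy⟩ := h.surjOn hy
    refine ⟨fun k => x ((Fintype.equivFin σ).symm k), ?_, ?_⟩
    · simpa using hx
    · rw [key]
      funext k
      simp [hxy]

/-- The product of two sets. -/
def prodSum (S : Set (σ → ℂ)) (T : Set (τ → ℂ)) : Set (σ ⊕ τ → ℂ) :=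
  {x | (fun i => x (Sum.inl i)) ∈ S ∧ (fun i => x (Sum.inr i)) ∈ T}

omit [Fintype σ] [Fintype τ] in
theorem isConstr_prodSum {S : Set (σ → ℂ)} {T : Set (τ → ℂ)} (hS : IsConstr S)
    (hT : IsConstr T) : IsConstr (prodSum S T) :=
  (hS.reindex Sum.inl).inter (hT.reindex Sum.inr)

theorem cls_prodSum {S : Set (σ → ℂ)} {T : Set (τ → ℂ)} (hS : IsConstr S)
    (hT : IsConstr T) : cls (prodSum S T) = cls S * cls T := by
  rw [cls_eq_clsFin (isConstr_prodSum hS hT)
    ((Equiv.sumCongr (Fintype.equivFin σ) (Fintype.equivFin τ)).trans finSumFinEquiv)]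
  unfold cls
  rw [← clsFin_prod (hS.reindex _) (hT.reindex _)]
  congr 1

theorem cls_biUnion {α : Type*} (s : Finset α) (S : α → Set (σ → ℂ))
    (h : ∀ i ∈ s, IsConstr (S i)) (hd : ∀ i ∈ s, ∀ j ∈ s, i ≠ j → Disjoint (S i) (S j)) :
    cls (⋃ i ∈ s, S i) = ∑ i ∈ s, cls (S i) := by
  classical
  induction s using Finset.induction_on with
  | empty => simp [cls_empty]
  | insert a s ha ih =>
    rw [Finset.set_biUnion_insert, Finset.sum_insert ha, cls_union (h a (Finset.mem_insert_self a s))
      (isConstr_biUnion s S fun i hi => h i (Finset.mem_insert_of_mem hi)), ih]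
    · exact fun i hi => h i (Finset.mem_insert_of_mem hi)
    · exact fun i hi j hj => hd i (Finset.mem_insert_of_mem hi) j (Finset.mem_insert_of_mem hj)
    · rw [Set.disjoint_iUnion₂_right]
      intro i hi
      exact hd a (Finset.mem_insert_self a s) i (Finset.mem_insert_of_mem hi)
        (fun h => ha (h ▸ hi))

theorem cls_equiv (e : σ ≃ τ) {S : Set (σ → ℂ)} (hS : IsConstr S) :
    cls {x : τ → ℂ | (fun i => x (e i)) ∈ S} = cls S := by
  rw [cls_eq_clsFin hS (e.trans (Fintype.equivFin τ))]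
  unfold cls
  rfl

theorem cls_univ_eq : cls (Set.univ : Set (σ → ℂ)) = L ^ Fintype.card σ := by
  have key : ∀ N : ℕ, clsFin (Set.univ : Set (Fin N → ℂ)) = L ^ N := by
    intro N
    induction N with
    | zero => rw [clsFin_point, pow_zero]
    | succ N ih =>
      have h : (Set.univ : Set (Fin (N + 1) → ℂ)) = prodSet (Set.univ : Set (Fin N → ℂ))
          (Set.univ : Set (Fin 1 → ℂ)) := by
        ext x; simp [prodSet]
      rw [h, clsFin_prod IsConstr.univ IsConstr.univ, ih, pow_succ]
      rfl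
  unfold cls
  simp only [Set.mem_univ, Set.ofPred_true]
  exact key _

end MPb07157
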