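import Pool.Agent.Lib.MP_b07157_ag.Prod

noncomputable section

namespace MPb07157

open MvPolynomial

variable {n : ℕ} {ι : Type}

/-- The product `∏_{j ∈ F} (a_j·x + c_j)^{m_j}` over `ℂ`. -/
def arrC (a : ι → Fin n → ℂ) (c : ι → ℂ) (m : ι → ℕ) (F : Finset ι) : MvPolynomial (Fin n) ℂ :=
  ∏ j ∈ F, (∑ i, C (a j i) * X i + C (c j)) ^ m j

/-- The points at which exactly the forms in `G` vanish (among those in `F`). -/
def strat (a : ι → Fin n → ℂ) (c : ι → ℂ) (F G : Finset ι) : Set (Fin n → ℂ) :=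
  {q | ∀ j ∈ F, (a j ⬝ᵥ q + c j = 0 ↔ j ∈ G)}

theorem isConstr_strat (a : ι → Fin n → ℂ) (c : ι → ℂ) (F G : Finset ι) :
    IsConstr (strat a c F G) := by
  refine isConstr_forall_mem F _ fun j _ => isConstr_setOf_iff ?_ (isConstr_const _)
  have h : {x : Fin n → ℂ | a j ⬝ᵥ x + c j = 0}
      = {x | eval x (∑ i, C (a j i) * X i + C (c j)) = 0} := by
    ext x; simp [dotProduct]
  rw [h]
  exact IsConstr.zeros _

theorem aeval_arrC (a : ι → Fin n → ℂ) (c : ι → ℂ) (m : ι → ℕ) (F : Finset ι)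
    (α : Fin n → PowerSeries ℂ) :
    (aeval α (arrC a c m F) : PowerSeries ℂ) =
      ∏ j ∈ F, (∑ i, PowerSeries.C (a j i) * α i + PowerSeries.C (c j)) ^ m j := by
  have h : ∀ z : ℂ, algebraMap ℂ (PowerSeries ℂ) z = PowerSeries.C z := fun z => rfl
  simp only [arrC, map_prod, map_pow, map_add, map_sum, map_mul, aeval_X, algHom_C, h]

theorem arc_one_add {N : ℕ} (γ : Fin n × Fin (1 + N) → ℂ) (i : Fin n) :
    arc γ i = PowerSeries.C (leftPart γ (i, 0)) + PowerSeries.X * arc (rightPart γ) i := by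
  rw [arc_split]
  simp [arc]

theorem order_arrC [DecidableEq ι] (a : ι → Fin n → ℂ) (c : ι → ℂ) (m : ι → ℕ) {F G : Finset ι}
    (hG : G ⊆ F) {N : ℕ} (γ : Fin n × Fin (1 + N) → ℂ)
    (hγ : (fun i => leftPart γ (i, 0)) ∈ strat a c F G) :
    (aeval (arc γ) (arrC a c m F) : PowerSeries ℂ).order =
      ((∑ j ∈ G, m j : ℕ) : ℕ∞) +
        (aeval (arc (rightPart γ)) (arrC a 0 m G) : PowerSeries ℂ).order := by
  have key : ∀ j, ∑ i, PowerSeries.C (a j i) * arc γ i + PowerSeries.C (c j) =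
      PowerSeries.C (a j ⬝ᵥ (fun i => leftPart γ (i, 0)) + c j) +
        PowerSeries.X * ∑ i, PowerSeries.C (a j i) * arc (rightPart γ) i := by
    intro j
    simp only [arc_one_add, mul_add, Finset.sum_add_distrib, map_add, dotProduct, map_sum,
      map_mul, Finset.mul_sum]
    have : ∀ i : Fin n, PowerSeries.C (a j i) * (PowerSeries.X * arc (rightPart γ) i)
        = PowerSeries.X * (PowerSeries.C (a j i) * arc (rightPart γ) i) := fun i => by ring
    simp only [this]
    ring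
  rw [aeval_arrC, aeval_arrC, ← Finset.prod_sdiff hG, PowerSeries.order_mul]
  have h1 : (∏ j ∈ F \ G, (∑ i, PowerSeries.C (a j i) * arc γ i + PowerSeries.C (c j)) ^ m j
      : PowerSeries ℂ).order = 0 := by
    refine PowerSeries.order_zero_of_unit ?_
    refine IsUnit.prod_iff.2 fun j hj => IsUnit.pow _ ?_
    rw [key, PowerSeries.isUnit_iff_constantCoeff]
    obtain ⟨hjF, hjG⟩ := Finset.mem_sdiff.1 hj
    have h2 : a j ⬝ᵥ (fun i => leftPart γ (i, 0)) + c j ≠ 0 := fun h => hjG ((hγ j hjF).1 h)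
    simpa using h2
  have h2 : (∏ j ∈ G, (∑ i, PowerSeries.C (a j i) * arc γ i + PowerSeries.C (c j)) ^ m j
      : PowerSeries ℂ) = PowerSeries.X ^ (∑ j ∈ G, m j) *
        ∏ j ∈ G, (∑ i, PowerSeries.C (a j i) * arc (rightPart γ) i +
          PowerSeries.C ((0 : ι → ℂ) j)) ^ m j := by
    rw [← Finset.prod_pow_eq_pow_sum, ← Finset.prod_mul_distrib]
    refine Finset.prod_congr rfl fun j hj => ?_
    rw [key, (hγ j (hG hj)).2 hj]
    simp only [map_zero, Pi.zero_apply, zero_add, add_zero, mul_pow]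
  rw [h1, h2, PowerSeries.order_mul, PowerSeries.order_X_pow, zero_add]

theorem isConstr_strat' (a : ι → Fin n → ℂ) (c : ι → ℂ) (F G : Finset ι) :
    IsConstr {δ : Fin n × Fin 1 → ℂ | (fun i => δ (i, 0)) ∈ strat a c F G} :=
  (isConstr_strat a c F G).reindex (fun i => ((i, 0) : Fin n × Fin 1))

theorem cls_strat' (a : ι → Fin n → ℂ) (c : ι → ℂ) (F G : Finset ι) :
    cls {δ : Fin n × Fin 1 → ℂ | (fun i => δ (i, 0)) ∈ strat a c F G} = cls (strat a c F G) := by
  rw [← cls_equiv (Equiv.prodUnique (Fin n) (Fin 1)).symm (isConstr_strat a c F G)]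
  rfl

/-- The part of `arcs f_G N (k - m_G)`, empty if `k < m_G`. -/
def arcs' (f : MvPolynomial (Fin n) ℂ) (N k e : ℕ) : Set (Fin n × Fin N → ℂ) :=
  {γ | e ≤ k ∧ γ ∈ arcs f N (k - e)}

theorem isConstr_arcs' (f : MvPolynomial (Fin n) ℂ) (N k e : ℕ) : IsConstr (arcs' f N k e) :=
  (isConstr_const _).inter (isConstr_arcs f N (k - e))

theorem cls_arcs' (f : MvPolynomial (Fin n) ℂ) (N k e : ℕ) :
    cls (arcs' f N k e) = if e ≤ k then cls (arcs f N (k - e)) else 0 := by
  unfold arcs'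
  split_ifs with h
  · simp [h]
  · simp [h, cls_empty]

theorem arcs_arrC [DecidableEq ι] (a : ι → Fin n → ℂ) (c : ι → ℂ) (m : ι → ℕ) (F : Finset ι)
    (N k : ℕ) :
    arcs (arrC a c m F) (1 + N) k = ⋃ G ∈ F.powerset, {γ : Fin n × Fin (1 + N) → ℂ |
      leftPart γ ∈ {δ : Fin n × Fin 1 → ℂ | (fun i => δ (i, 0)) ∈ strat a c F G} ∧
      rightPart γ ∈ arcs' (arrC a 0 m G) N k (∑ j ∈ G, m j)} := by
  classical
  ext γ
  simp only [Set.mem_iUnion, Finset.mem_powerset, exists_prop, Set.mem_ofPred_eq]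
  have aux : ∀ (e : ℕ) (x : ℕ∞), (e : ℕ∞) + x = k ↔ e ≤ k ∧ x = ((k - e : ℕ) : ℕ∞) := by
    intro e x
    induction x using ENat.recTopCoe with
    | top =>
      constructor
      · intro h; exact absurd h (by simp)
      · rintro ⟨_, h⟩; exact absurd h.symm (ENat.natCast_ne_top _)
    | coe x =>
      constructor
      · intro h
        have h' : e + x = k := by exact_mod_cast h
        refine ⟨by omega, ?_⟩
        have : x = k - e := by omega
        rw [this]
      · rintro ⟨h1, h2⟩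
        have h' : x = k - e := by exact_mod_cast h2
        have : e + x = k := by omega
        exact_mod_cast this
  constructor
  · intro hγ
    have hst : (fun i => leftPart γ (i, 0)) ∈ strat a c F
        (F.filter (fun j => a j ⬝ᵥ (fun i => leftPart γ (i, 0)) + c j = 0)) := by
      intro j hj
      simp [hj]
    refine ⟨_, Finset.filter_subset _ _, hst, ?_⟩
    have h1 := order_arrC a c m (Finset.filter_subset _ _) γ hst
    simp only [arcs, Set.mem_ofPred_eq] at hγ
    rw [hγ] at h1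
    exact (aux _ _).1 h1.symm
  · rintro ⟨G, hG, h1, h2⟩
    have h3 := order_arrC a c m hG γ h1
    simp only [arcs, Set.mem_ofPred_eq]
    rw [h3]
    exact (aux _ _).2 h2

theorem cls_arcs_arrC [DecidableEq ι] (a : ι → Fin n → ℂ) (c : ι → ℂ) (m : ι → ℕ) (F : Finset ι)
    (N k : ℕ) :
    cls (arcs (arrC a c m F) (1 + N) k) = ∑ G ∈ F.powerset, cls (strat a c F G) *
      (if ∑ j ∈ G, m j ≤ k then cls (arcs (arrC a 0 m G) N (k - ∑ j ∈ G, m j)) else 0) := by
  rw [arcs_arrC, cls_biUnion]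
  · refine Finset.sum_congr rfl fun G _ => ?_
    rw [cls_split (isConstr_strat' a c F G) (isConstr_arcs' _ _ _ _), cls_strat', cls_arcs']
  · exact fun G _ => isConstr_split (isConstr_strat' a c F G) (isConstr_arcs' _ _ _ _)
  · intro G hG G' hG' hne
    rw [Set.disjoint_left]
    rintro γ ⟨h1, -⟩ ⟨h2, -⟩
    apply hne
    simp only [Set.mem_ofPred_eq] at h1 h2
    ext j
    constructor
    · intro hj
      have hjF := Finset.mem_powerset.1 hG hj
      exact (h2 j hjF).1 ((h1 j hjF).2 hj)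
    · intro hj
      have hjF := Finset.mem_powerset.1 hG' hj
      exact (h1 j hjF).1 ((h2 j hjF).2 hj)

theorem mu_one (N k : ℕ) : mu (1 : MvPolynomial (Fin n) ℂ) N k = if k = 0 then 1 else 0 := by
  unfold mu
  have h : ∀ γ : Fin n × Fin N → ℂ,
      (aeval (arc γ) (1 : MvPolynomial (Fin n) ℂ) : PowerSeries ℂ).order = ((0 : ℕ) : ℕ∞) := by
    intro γ; simp
  split_ifs with hk
  · subst hk
    have : arcs (1 : MvPolynomial (Fin n) ℂ) N 0 = Set.univ := by
      ext γ; simp only [arcs, Set.mem_ofPred_eq, Set.mem_univ, iff_true]; exact h γ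
    rw [this, clsM_univ, show Fintype.card (Fin n × Fin N) = n * N by simp]
    exact Units.inv_mul _
  · have : arcs (1 : MvPolynomial (Fin n) ℂ) N k = ∅ := by
      ext γ
      simp only [arcs, Set.mem_ofPred_eq, Set.mem_empty_iff_false, iff_false, h]
      intro h2
      exact hk (by exact_mod_cast h2.symm)
    rw [this]
    unfold clsM
    rw [cls_empty, map_zero, mul_zero]

theorem Zmot_one : Zmot (1 : MvPolynomial (Fin n) ℂ) = 1 := by
  ext k
  simp only [Zmot, PowerSeries.coeff_mk, Zcoeff_eq_mu, mu_one, PowerSeries.coeff_one]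

/-- Stratification of the zeta function of an arrangement by the point of origin of the arc. -/
theorem Zmot_arrC [DecidableEq ι] (a : ι → Fin n → ℂ) (c : ι → ℂ) (m : ι → ℕ)
    (hm : ∀ j, 0 < m j) (F : Finset ι) :
    Zmot (arrC a c m F) = ∑ G ∈ F.powerset,
      PowerSeries.C (↑((LU ^ n)⁻¹) * clsM (strat a c F G)) *
        (PowerSeries.X ^ (∑ j ∈ G, m j) * Zmot (arrC a 0 m G)) := by
  ext k
  simp only [Zmot, PowerSeries.coeff_mk, map_sum, PowerSeries.coeff_C_mul,
    PowerSeries.coeff_X_pow_mul']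
  rw [Zcoeff_eq_mu, mu, add_comm k 1, clsM, cls_arcs_arrC, map_sum, Finset.mul_sum]
  refine Finset.sum_congr rfl fun G _ => ?_
  rw [map_mul]
  have h1 : (↑((LU ^ (n * (1 + k)))⁻¹) : Mot) = ↑((LU ^ n)⁻¹) * ↑((LU ^ (n * k))⁻¹) := by
    rw [← Units.val_mul, mul_add, mul_one, pow_add, mul_inv]
  rw [h1]
  split_ifs with h
  · have h2 : Zcoeff (arrC a 0 m G) (k - ∑ j ∈ G, m j) =
        mu (arrC a 0 m G) k (k - ∑ j ∈ G, m j) := by
      rcases G.eq_empty_or_nonempty with rfl | hne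
      · have : arrC a 0 m ∅ = 1 := by simp [arrC]
        rw [this, Zcoeff_eq_mu, mu_one, mu_one]
      · have hpos : 0 < ∑ j ∈ G, m j := Finset.sum_pos (fun j _ => hm j) hne
        rw [mu_eq]
        omega
    rw [h2]
    unfold mu clsM
    ring
  · simp

end MPb07157
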