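import Pool.Agent.Lib.MP_b07157_ag.Adapted
import Pool.Agent.Lib.MP_b07157_ag.Strat

noncomputable section

namespace MPb07157

open MvPolynomial

variable {n : ℕ} {ι : Type}

/-- A basis of the span inside the family. -/
theorem exists_basis_subset [DecidableEq ι] (a : ι → Fin n → ℝ) (S F : Finset ι) (hSF : S ⊆ F)
    (hS : LinearIndepOn ℝ a (S : Set ι)) :
    ∃ B : Finset ι, S ⊆ B ∧ B ⊆ F ∧ LinearIndepOn ℝ a (B : Set ι) ∧
      Submodule.span ℝ (a '' (B : Set ι)) = Submodule.span ℝ (a '' (F : Set ι)) ∧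
      B.card = rk a F := by
  obtain ⟨b, hbF, hSb, hspan, hli⟩ := exists_linearIndepOn_extension hS
    (t := (F : Set ι)) (by exact_mod_cast hSF)
  have hfin : b.Finite := F.finite_toSet.subset hbF
  lift b to Finset ι using hfin
  have hsp : Submodule.span ℝ (a '' (b : Set ι)) = Submodule.span ℝ (a '' (F : Set ι)) :=
    le_antisymm (Submodule.span_mono (Set.image_mono hbF)) (Submodule.span_le.2 hspan)
  refine ⟨b, by exact_mod_cast hSb, by exact_mod_cast hbF, hli, hsp, ?_⟩
  rw [rk, ← hsp]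
  have h1 := finrank_span_set_eq_card (R := ℝ) (s := a '' (b : Set ι)) hli.id_image
  rw [h1]
  rw [Set.toFinset_image, Finset.card_image_of_injOn]
  · simp
  · intro x hx y hy hxy
    exact hli.injOn (by simpa using hx) (by simpa using hy) hxy

/-- Real linear forms evaluated at complex points: vanishing passes to the real span. -/
theorem dot_eq_zero_of_mem_span (a : ι → Fin n → ℝ) (B : Set ι) (x : Fin n → ℂ)
    (hx : ∀ j ∈ B, (fun i => ((a j i : ℝ) : ℂ)) ⬝ᵥ x = 0) (v : Fin n → ℝ)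
    (hv : v ∈ Submodule.span ℝ (a '' B)) : (fun i => ((v i : ℝ) : ℂ)) ⬝ᵥ x = 0 := by
  induction hv using Submodule.span_induction with
  | mem v hv => obtain ⟨j, hj, rfl⟩ := hv; exact hx j hj
  | zero => simp [dotProduct]
  | add u v _ _ hu hv =>
    simp only [dotProduct] at hu hv ⊢
    simp [add_mul, Finset.sum_add_distrib, hu, hv]
  | smul r v _ hv =>
    simp only [dotProduct] at hv ⊢
    simp only [Pi.smul_apply, smul_eq_mul, Complex.ofReal_mul, mul_assoc, ← Finset.mul_sum, hv,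
      mul_zero]

theorem rdot_eq_zero_of_mem_span (a : ι → Fin n → ℝ) (B : Set ι) (x : Fin n → ℝ)
    (hx : ∀ j ∈ B, a j ⬝ᵥ x = 0) (v : Fin n → ℝ)
    (hv : v ∈ Submodule.span ℝ (a '' B)) : v ⬝ᵥ x = 0 := by
  induction hv using Submodule.span_induction with
  | mem v hv => obtain ⟨j, hj, rfl⟩ := hv; exact hx j hj
  | zero => simp
  | add u v _ _ hu hv => rw [add_dotProduct, hu, hv, add_zero]
  | smul r v _ hv => rw [smul_dotProduct, hv, smul_zero]

/-- The class of the linear subspace `{x : a_j·x = 0, j ∈ F}`. -/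
theorem cls_subspace [DecidableEq ι] (a : ι → Fin n → ℝ) (F : Finset ι) :
    cls (strat (fun j i => ((a j i : ℝ) : ℂ)) 0 F F) = L ^ (n - rk a F) := by
  obtain ⟨B, -, hBF, hli, hspan, hcard⟩ := exists_basis_subset a ∅ F (Finset.empty_subset _)
    (by simp)
  obtain ⟨P, e, hP, he, hPe⟩ := exists_adapted a B hli
  -- complexified matrix
  let Q : Matrix (Fin n) (Fin n) ℂ := P.map (algebraMap ℝ ℂ)
  have hQ : IsUnit Q.det := by
    have : Q.det = algebraMap ℝ ℂ P.det := by
      simp [Q, ← RingHom.mapMatrix_apply, RingHom.map_det]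
    rw [this]; exact hP.map _
  have hQ1 : Q⁻¹ * Q = 1 := Matrix.nonsing_inv_mul Q hQ
  have hQ2 : Q * Q⁻¹ = 1 := Matrix.mul_nonsing_inv Q hQ
  let R : Finset (Fin n) := Finset.univ.image e
  have hRcard : R.card = B.card := by
    rw [Finset.card_image_of_injective _ he]; simp
  let Z : Set (Fin n → ℂ) := {z | ∀ i ∈ R, z i = 0}
  have hZ : IsConstr Z := by
    refine isConstr_forall_mem R _ fun i _ => ?_
    have := isConstr_eq_zero (X i : MvPolynomial (Fin n) ℂ)
    simpa using this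
  have hmul : ∀ (A : Matrix (Fin n) (Fin n) ℂ) (x : Fin n → ℂ),
      polyMap (fun i => ∑ k, C (A i k) * X k) x = A.mulVec x := by
    intro A x; funext i
    simp [polyMap, Matrix.mulVec, dotProduct]
  have hstrat : ∀ x : Fin n → ℂ, x ∈ strat (fun j i => ((a j i : ℝ) : ℂ)) 0 F F ↔
      Q.mulVec x ∈ Z := by
    intro x
    have h1 : ∀ j : B, Q.mulVec x (e j) = (fun i => ((a j i : ℝ) : ℂ)) ⬝ᵥ x := by
      intro j
      simp [Matrix.mulVec, Q, dotProduct, ← hPe j]
    constructor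
    · intro hx i hi
      obtain ⟨j, -, rfl⟩ := Finset.mem_image.1 hi
      rw [h1]
      have := (hx j (hBF j.2)).2 (hBF j.2)
      simpa using this
    · intro hx j hj
      simp only [hj, iff_true, Pi.zero_apply, add_zero]
      refine dot_eq_zero_of_mem_span a B x (fun k hk => ?_) (a j) ?_
      · rw [← h1 ⟨k, hk⟩]
        exact hx _ (Finset.mem_image.2 ⟨⟨k, hk⟩, Finset.mem_univ _, rfl⟩)
      · rw [hspan]; exact Submodule.subset_span ⟨j, hj, rfl⟩
  have h1 : cls (strat (fun j i => ((a j i : ℝ) : ℂ)) 0 F F) = cls Z := by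
    refine cls_bijOn (isConstr_strat _ _ _ _) hZ (fun i => ∑ k, C (Q i k) * X k) ⟨?_, ?_, ?_⟩
    · intro x hx
      rw [hmul]; exact (hstrat x).1 hx
    · intro x _ y _ hxy
      rw [hmul, hmul] at hxy
      have := congrArg (Q⁻¹).mulVec hxy
      simpa [Matrix.mulVec_mulVec, hQ1] using this
    · intro z hz
      refine ⟨(Q⁻¹).mulVec z, (hstrat _).2 ?_, ?_⟩
      · simpa [Matrix.mulVec_mulVec, hQ2] using hz
      · rw [hmul]; simp [Matrix.mulVec_mulVec, hQ2]
  have h2 : cls (Set.univ : Set ({i : Fin n // i ∉ R} → ℂ)) = cls Z := by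
    refine cls_bijOn IsConstr.univ hZ
      (fun i => if h : i ∉ R then X ⟨i, h⟩ else 0) ⟨?_, ?_, ?_⟩
    · intro x _ i hi
      simp [polyMap, hi]
    · intro x _ y _ hxy
      funext i
      have := congrFun hxy i
      simpa [polyMap, i.2] using this
    · intro z hz
      refine ⟨fun i => z i, Set.mem_univ _, ?_⟩
      funext i
      by_cases h : i ∈ R
      · simp [polyMap, h, hz i h]
      · simp [polyMap, h]
  rw [h1, ← h2, cls_univ_eq]
  congr 1
  rw [Fintype.card_subtype_compl, Fintype.card_fin, ← hcard, ← hRcard]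
  simp

theorem rk_le (a : ι → Fin n → ℝ) (F : Finset ι) : rk a F ≤ n := by
  have := Submodule.finrank_le (Submodule.span ℝ (a '' (F : Set ι)))
  simpa [rk] using this

/-- A small generic parameter. -/
theorem exists_small_generic (S : Finset ι) (u v : ι → ℝ) (h : ∀ j ∈ S, u j ≠ 0 ∨ v j ≠ 0)
    (δ : ℝ) (hδ : 0 < δ) : ∃ ε, 0 < ε ∧ ε < δ ∧ ∀ j ∈ S, u j + ε * v j ≠ 0 := by
  classical
  have hfin : (S.image (fun j => - u j / v j) : Set ℝ).Finite := Finset.finite_toSet _
  have hinf : (Set.Ioo 0 δ).Infinite := Set.Ioo_infinite hδ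
  obtain ⟨ε, hε, hε'⟩ := (hinf.sdiff hfin).nonempty
  refine ⟨ε, hε.1, hε.2, fun j hj h0 => hε' ?_⟩
  have hv : v j ≠ 0 := by
    intro hv
    rw [hv, mul_zero, add_zero] at h0
    rcases h j hj with h1 | h1
    · exact h1 h0
    · exact h1 hv
  simp only [Finset.coe_image, Set.mem_image]
  refine ⟨j, hj, ?_⟩
  field_simp
  linarith

/-- A form outside the span takes a nonzero value at a point where the span vanishes. -/
theorem exists_point_of_notMem_span [DecidableEq ι] (a : ι → Fin n → ℝ) (G : Finset ι) (j : ι)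
    (hj : a j ∉ Submodule.span ℝ (a '' (G : Set ι))) :
    ∃ x : Fin n → ℝ, (∀ k ∈ G, a k ⬝ᵥ x = 0) ∧ a j ⬝ᵥ x ≠ 0 := by
  obtain ⟨B, -, hBG, hli, hspan, -⟩ := exists_basis_subset a ∅ G (Finset.empty_subset _)
    (by simp)
  have hjB : j ∉ B := fun h => hj (Submodule.subset_span ⟨j, hBG h, rfl⟩)
  have hli' : LinearIndepOn ℝ a ((insert j B : Finset ι) : Set ι) := by
    rw [Finset.coe_insert]
    exact hli.insert (by rwa [hspan])
  obtain ⟨P, e, hP, he, hPe⟩ := exists_adapted a (insert j B) hli'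
  have hP2 : P * P⁻¹ = 1 := Matrix.mul_nonsing_inv P hP
  let j' : (insert j B : Finset ι) := ⟨j, Finset.mem_insert_self _ _⟩
  refine ⟨(P⁻¹).mulVec (Pi.single (e j') 1), fun k hk => ?_, ?_⟩
  · refine rdot_eq_zero_of_mem_span a B _ (fun b hb => ?_) (a k) ?_
    · have hb' : b ∈ insert j B := Finset.mem_insert_of_mem hb
      have h1 : a b ⬝ᵥ (P⁻¹).mulVec (Pi.single (e j') 1) =
          (P.mulVec ((P⁻¹).mulVec (Pi.single (e j') 1))) (e ⟨b, hb'⟩) := by
        simp only [Matrix.mulVec, hPe ⟨b, hb'⟩]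
      rw [h1, Matrix.mulVec_mulVec, hP2, Matrix.one_mulVec, Pi.single_apply, if_neg]
      intro h2
      have := he h2
      have h3 : b = j := congrArg Subtype.val this
      exact hjB (h3 ▸ hb)
    · rw [hspan]; exact Submodule.subset_span ⟨k, hk, rfl⟩
  · have h1 : a j ⬝ᵥ (P⁻¹).mulVec (Pi.single (e j') 1) =
        (P.mulVec ((P⁻¹).mulVec (Pi.single (e j') 1))) (e j') := by
      simp only [Matrix.mulVec, hPe j']
      rfl
    rw [h1, Matrix.mulVec_mulVec, hP2, Matrix.one_mulVec]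
    simp

/-- A generic point of the subspace where `G` vanishes. -/
theorem exists_generic_point [DecidableEq ι] (a : ι → Fin n → ℝ) (G S : Finset ι)
    (hS : ∀ j ∈ S, a j ∉ Submodule.span ℝ (a '' (G : Set ι))) :
    ∃ x : Fin n → ℝ, (∀ k ∈ G, a k ⬝ᵥ x = 0) ∧ ∀ j ∈ S, a j ⬝ᵥ x ≠ 0 := by
  induction S using Finset.induction_on with
  | empty => exact ⟨0, by simp, by simp⟩
  | insert k S hk ih =>
    obtain ⟨x, hx1, hx2⟩ := ih (fun j hj => hS j (Finset.mem_insert_of_mem hj))
    obtain ⟨y, hy1, hy2⟩ := exists_point_of_notMem_span a G k (hS k (Finset.mem_insert_self _ _))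
    obtain ⟨ε, -, -, hε⟩ := exists_small_generic (insert k S) (fun j => a j ⬝ᵥ x)
      (fun j => a j ⬝ᵥ y) (by
        intro j hj
        rcases Finset.mem_insert.1 hj with rfl | hj
        · exact Or.inr hy2
        · exact Or.inl (hx2 j hj)) 1 one_pos
    refine ⟨x + ε • y, fun j hj => ?_, fun j hj => ?_⟩
    · rw [dotProduct_add, dotProduct_smul, hx1 j hj, hy1 j hj, smul_zero, add_zero]
    · rw [dotProduct_add, dotProduct_smul, smul_eq_mul]
      exact hε j hj

variable [Fintype ι]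

theorem mem_through {a : ι → Fin n → ℝ} {c : ι → ℝ} {p : Fin n → ℝ} {j : ι} :
    j ∈ through a c p ↔ a j ⬝ᵥ p + c j = 0 := by
  simp [through]

/-- A real point with prescribed zero set, near `p`. -/
theorem exists_through_of_real [DecidableEq ι] (a : ι → Fin n → ℝ) (c : ι → ℝ) (p x : Fin n → ℝ)
    (G : Finset ι) (hG : ∀ j, j ∈ G ↔ (a j ⬝ᵥ p + c j = 0 ∧ a j ⬝ᵥ x = 0)) :
    ∃ p' : Fin n → ℝ, through a c p' = G := by
  obtain ⟨ε, hε0, -, hε⟩ := exists_small_generic (Finset.univ \ G) (fun j => a j ⬝ᵥ p + c j)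
    (fun j => a j ⬝ᵥ x) (by
      intro j hj
      have hjG := (Finset.mem_sdiff.1 hj).2
      rw [hG] at hjG
      by_contra h
      push Not at h
      exact hjG h) 1 one_pos
  refine ⟨p + ε • x, ?_⟩
  ext j
  rw [mem_through]
  have hval : a j ⬝ᵥ (p + ε • x) + c j = (a j ⬝ᵥ p + c j) + ε * (a j ⬝ᵥ x) := by
    rw [dotProduct_add, dotProduct_smul, smul_eq_mul]; ring
  rw [hval]
  constructor
  · intro h
    by_contra hj
    exact hε j (Finset.mem_sdiff.2 ⟨Finset.mem_univ _, hj⟩) h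
  · intro hj
    obtain ⟨h1, h2⟩ := (hG j).1 hj
    rw [h1, h2]; ring

/-- Real and imaginary parts. -/
theorem cdot_eq_zero_iff (v : Fin n → ℝ) (r : ℝ) (q : Fin n → ℂ) :
    (fun i => ((v i : ℝ) : ℂ)) ⬝ᵥ q + (r : ℂ) = 0 ↔
      (v ⬝ᵥ (fun i => (q i).re) + r = 0 ∧ v ⬝ᵥ (fun i => (q i).im) = 0) := by
  rw [Complex.ext_iff]
  simp [dotProduct]

theorem exists_through_of_complex [DecidableEq ι] (a : ι → Fin n → ℝ) (c : ι → ℝ)
    (q : Fin n → ℂ) (G : Finset ι)
    (hq : q ∈ strat (fun j i => ((a j i : ℝ) : ℂ)) (fun j => ((c j : ℝ) : ℂ)) Finset.univ G) :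
    ∃ p' : Fin n → ℝ, through a c p' = G := by
  refine exists_through_of_real a c (fun i => (q i).re) (fun i => (q i).im) G fun j => ?_
  rw [← hq j (Finset.mem_univ j)]
  exact cdot_eq_zero_iff (a j) (c j) q

theorem exists_through_of_central [DecidableEq ι] (a : ι → Fin n → ℝ) (c : ι → ℝ)
    (p : Fin n → ℝ) (q : Fin n → ℂ) (G : Finset ι) (hGF : G ⊆ through a c p)
    (hq : q ∈ strat (fun j i => ((a j i : ℝ) : ℂ)) 0 (through a c p) G) :
    ∃ p' : Fin n → ℝ, through a c p' = G := by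
  -- a real point with the same central zero set
  have h1 : ∀ j ∈ through a c p, j ∈ G ↔ (a j ⬝ᵥ (fun i => (q i).re) = 0 ∧
      a j ⬝ᵥ (fun i => (q i).im) = 0) := by
    intro j hj
    rw [← hq j hj]
    have := cdot_eq_zero_iff (a j) 0 q
    simpa using this
  obtain ⟨ε, -, -, hε⟩ := exists_small_generic (through a c p \ G)
    (fun j => a j ⬝ᵥ (fun i => (q i).re)) (fun j => a j ⬝ᵥ (fun i => (q i).im)) (by
      intro j hj
      obtain ⟨hjF, hjG⟩ := Finset.mem_sdiff.1 hj
      rw [h1 j hjF] at hjG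
      by_contra h
      push Not at h
      exact hjG h) 1 one_pos
  refine exists_through_of_real a c p ((fun i => (q i).re) + ε • (fun i => (q i).im)) G
    fun j => ?_
  rw [← mem_through (a := a) (c := c), dotProduct_add, dotProduct_smul, smul_eq_mul]
  constructor
  · intro hj
    obtain ⟨h2, h3⟩ := (h1 j (hGF hj)).1 hj
    exact ⟨hGF hj, by rw [h2, h3]; ring⟩
  · rintro ⟨hjF, h2⟩
    by_contra hj
    exact hε j (Finset.mem_sdiff.2 ⟨hjF, hj⟩) h2

theorem exists_through_of_closed [DecidableEq ι] (a : ι → Fin n → ℝ) (c : ι → ℝ)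
    (p : Fin n → ℝ) (G : Finset ι) (hGF : G ⊆ through a c p)
    (hcl : ∀ j ∈ through a c p \ G, a j ∉ Submodule.span ℝ (a '' (G : Set ι))) :
    ∃ p' : Fin n → ℝ, through a c p' = G := by
  obtain ⟨x, hx1, hx2⟩ := exists_generic_point a G (through a c p \ G) hcl
  refine exists_through_of_real a c p x G fun j => ?_
  rw [← mem_through (a := a) (c := c)]
  constructor
  · intro hj; exact ⟨hGF hj, hx1 j hj⟩
  · rintro ⟨h1, h2⟩
    by_contra hj
    exact hx2 j (Finset.mem_sdiff.2 ⟨h1, hj⟩) h2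

end MPb07157
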