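import Pool.Agent.Lib.MP_b07157_ag.Root
import Pool.Agent.Lib.MP_b07157_ag.Comb

noncomputable section

namespace MPb07157

open MvPolynomial

variable {n : ℕ} {ι : Type}

theorem exists_sign (r : ℝ) (hr : r ≠ 0) : ∃ τ : ℝ, (τ = 1 ∨ τ = -1) ∧ 0 < τ * r := by
  rcases lt_or_gt_of_ne hr with h | h
  · exact ⟨-1, Or.inr rfl, by linarith⟩
  · exact ⟨1, Or.inl rfl, by linarith⟩

theorem sq_of_sign {τ : ℝ} (h : τ = 1 ∨ τ = -1) : τ * τ = 1 := by
  rcases h with h | h <;> rw [h] <;> norm_num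

theorem span_image_sign (a : ι → Fin n → ℝ) (τ : ι → ℝ) (hτ : ∀ j, τ j = 1 ∨ τ j = -1)
    (S : Set ι) : Submodule.span ℝ ((fun j => τ j • a j) '' S) = Submodule.span ℝ (a '' S) := by
  apply le_antisymm
  · rw [Submodule.span_le]
    rintro _ ⟨j, hj, rfl⟩
    exact Submodule.smul_mem _ _ (Submodule.subset_span ⟨j, hj, rfl⟩)
  · rw [Submodule.span_le]
    rintro _ ⟨j, hj, rfl⟩
    have h1 : a j = τ j • (τ j • a j) := by
      rw [smul_smul, sq_of_sign (hτ j), one_smul]
    rw [h1]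
    exact Submodule.smul_mem _ _ (Submodule.subset_span ⟨j, hj, rfl⟩)

variable [Fintype ι]

theorem arrPoly_eq_sign (a : ι → Fin n → ℝ) (c : ι → ℝ) (m : ι → ℕ) (τ : ι → ℝ)
    (hτ : ∀ j, τ j = 1 ∨ τ j = -1) :
    ∃ σ : ℝ, (σ = 1 ∨ σ = -1) ∧ arrPoly a c m = C (σ : ℂ) *
      map (algebraMap ℝ ℂ) (realPoly (fun j => τ j • a j) (fun j => τ j * c j) m) := by
  classical
  have h1 : ∀ s : Finset ι, (∏ j ∈ s, τ j ^ m j = 1 ∨ ∏ j ∈ s, τ j ^ m j = -1) := by
    intro s
    induction s using Finset.induction_on with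
    | empty => left; simp
    | insert k s hk ih =>
      rw [Finset.prod_insert hk]
      have h2 : τ k ^ m k = 1 ∨ τ k ^ m k = -1 := by
        rcases hτ k with h | h
        · rw [h]; left; simp
        · rw [h]; exact neg_one_pow_eq_or ℝ (m k)
      rcases h2 with h2 | h2 <;> rcases ih with h3 | h3 <;> rw [h2, h3] <;> simp
  refine ⟨∏ j, τ j ^ m j, h1 _, ?_⟩
  have h2 : map (algebraMap ℝ ℂ) (realPoly (fun j => τ j • a j) (fun j => τ j * c j) m)
      = C ((∏ j, τ j ^ m j : ℝ) : ℂ) * arrPoly a c m := by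
    unfold realPoly arrPoly affForm
    simp only [map_prod, map_pow, map_add, map_sum, map_mul, map_C, map_X, Complex.ofReal_prod,
      Complex.ofReal_pow, Pi.smul_apply, smul_eq_mul]
    rw [← Finset.prod_mul_distrib]
    refine Finset.prod_congr rfl fun j _ => ?_
    rw [← mul_pow]
    congr 1
    simp only [Complex.coe_algebraMap, mul_add, Finset.mul_sum, mul_assoc]
  rw [h2, ← mul_assoc, ← map_mul]
  have h3 : ((∏ j, τ j ^ m j : ℝ) : ℂ) * ((∏ j, τ j ^ m j : ℝ) : ℂ) = 1 := by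
    rw [← Complex.ofReal_mul]
    rcases h1 Finset.univ with h | h <;> rw [h] <;> norm_num
  rw [h3, map_one, one_mul]

variable [DecidableEq ι]

/-- The root `-r_F/m_F` of the Bernstein–Sato polynomial for a dense edge with a good
hyperplane `i₀`. -/
theorem root_of_good (a : ι → Fin n → ℝ) (c : ι → ℝ) (m : ι → ℕ) (ha : ∀ j, a j ≠ 0)
    (hm : ∀ j, 0 < m j) (p : Fin n → ℝ) (hd : IsDense a (through a c p)) (i₀ : ι)
    (hi₀ : i₀ ∈ through a c p)
    (hcrit : ∀ S ⊆ through a c p, a i₀ ∉ Submodule.span ℝ (a '' (S : Set ι)) →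
      (∑ j ∈ S, m j) * rk a (through a c p) ≤ (∑ j ∈ through a c p, m j) * rk a S) :
    IsBernsteinSatoRoot (arrPoly a c m)
      (-(((rk a (through a c p) : ℕ) : ℚ) / ((mult m (through a c p) : ℕ) : ℚ))) := by
  set F := through a c p with hF
  obtain ⟨y, cc, hy, hcc, hrel⟩ := exists_chamber a F hd (fun j _ => ha j) i₀ hi₀
  have hsgn : ∀ j, ∃ τ : ℝ, (τ = 1 ∨ τ = -1) ∧ (j ∈ F → 0 < τ * (a j ⬝ᵥ y)) ∧
      (j ∉ F → 0 < τ * (a j ⬝ᵥ p + c j)) := by
    intro j
    by_cases hj : j ∈ F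
    · obtain ⟨τ, h1, h2⟩ := exists_sign _ (hy j hj)
      exact ⟨τ, h1, fun _ => h2, fun h => absurd hj h⟩
    · have h0 : a j ⬝ᵥ p + c j ≠ 0 := fun h => hj (by rw [hF, mem_through]; exact h)
      obtain ⟨τ, h1, h2⟩ := exists_sign _ h0
      exact ⟨τ, h1, fun h => absurd h hj, fun _ => h2⟩
  choose τ hτ hτF hτF' using hsgn
  obtain ⟨σ, hσ, hf⟩ := arrPoly_eq_sign a c m τ hτ
  have hrk : ∀ S : Finset ι, rk (fun j => τ j • a j) S = rk a S := by
    intro S
    unfold rk
    rw [span_image_sign a τ hτ]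
  have hval : ∀ j (x : Fin n → ℝ), (τ j • a j) ⬝ᵥ x + τ j * c j = τ j * (a j ⬝ᵥ x + c j) := by
    intro j x
    rw [smul_dotProduct, smul_eq_mul]; ring
  have key := root_core (fun j => τ j • a j) (fun j => τ j * c j) m hm p F
    (fun j hj => by
      rw [hval, (mem_through.1 (hF ▸ hj)), mul_zero])
    (fun j hj => by rw [hval]; exact hτF' j hj)
    (fun j _ h => by
      apply ha j
      have := congrArg (fun v => τ j • v) h
      simpa [smul_smul, sq_of_sign (hτ j)] using this)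
    y (fun j hj => by rw [smul_dotProduct, smul_eq_mul]; exact hτF j hj)
    i₀ hi₀ (fun j => cc j * (τ j * (a j ⬝ᵥ y)))
    (fun j hj => mul_pos (hcc j hj) (hτF j (Finset.mem_of_mem_erase hj)))
    (fun hne => by
      have h1 := hrel hne
      have h2 : 0 < a i₀ ⬝ᵥ y := by
        rw [h1, sum_dotProduct]
        refine Finset.sum_pos (fun j hj => ?_) hne
        rw [smul_dotProduct, smul_eq_mul, mul_assoc]
        exact mul_pos (hcc j hj) (mul_self_pos.2 (hy j (Finset.mem_of_mem_erase hj)))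
      have h3 : τ i₀ = 1 := by
        rcases hτ i₀ with h | h
        · exact h
        · have := hτF i₀ hi₀
          rw [h] at this
          linarith
      change τ i₀ • a i₀ = _
      rw [h3, one_smul, h1]
      refine Finset.sum_congr rfl fun j _ => ?_
      rw [smul_smul]
      congr 1
      have := sq_of_sign (hτ j)
      calc cc j * (a j ⬝ᵥ y) = cc j * (a j ⬝ᵥ y) * (τ j * τ j) := by rw [this, mul_one]
        _ = cc j * (τ j * (a j ⬝ᵥ y)) * τ j := by ring)
    (by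
      intro S hS hS'
      rw [hrk, hrk]
      refine hcrit S hS fun h => hS' ?_
      rw [span_image_sign a τ hτ]
      exact Submodule.smul_mem _ _ h)
    (arrPoly a c m) σ hσ hf
  rw [hrk] at key
  exact key

/-- **The strong monodromy conjecture for real hyperplane arrangements**, under a numerical
condition on the dense edges. -/
theorem strong_monodromy (a : ι → Fin n → ℝ) (c : ι → ℝ) (m : ι → ℕ) (ha : ∀ j, a j ≠ 0)
    (hm : ∀ j, 0 < m j)
    (hne : ∀ j k, j ≠ k → ¬ ∃ t : ℝ, a k = t • a j ∧ c k = t * c j)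
    (hgood : ∀ p : Fin n → ℝ, IsDense a (through a c p) →
      rk a (through a c p) ≤ 2 ∨
      (rk a (through a c p) ≤ 4 ∧ ∀ j ∈ through a c p, m j = 1) ∨
      ∃ i₀ ∈ through a c p, ∀ S ⊆ through a c p,
        a i₀ ∉ Submodule.span ℝ (a '' (S : Set ι)) →
        (∑ j ∈ S, m j) * rk a (through a c p) ≤ (∑ j ∈ through a c p, m j) * rk a S)
    (s₀ : ℚ) (hs₀ : IsPole (Zmot (arrPoly a c m)) s₀) :
    IsBernsteinSatoRoot (arrPoly a c m) s₀ := by
  obtain ⟨p, hd, rfl⟩ := exists_dense_of_isPole a c m ha hm s₀ hs₀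
  have hp : ∀ j ∈ through a c p, ∀ k ∈ through a c p, j ≠ k → ¬ ∃ t : ℝ, a k = t • a j := by
    rintro j hj k hk hjk ⟨t, ht⟩
    refine hne j k hjk ⟨t, ht, ?_⟩
    rw [mem_through] at hj hk
    rw [ht, smul_dotProduct, smul_eq_mul] at hk
    have h1 : a j ⬝ᵥ p = - c j := by linarith
    rw [h1] at hk
    linarith
  have key : ∃ i₀ ∈ through a c p, ∀ S ⊆ through a c p,
        a i₀ ∉ Submodule.span ℝ (a '' (S : Set ι)) →
        (∑ j ∈ S, m j) * rk a (through a c p) ≤ (∑ j ∈ through a c p, m j) * rk a S := by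
    rcases hgood p hd with h | ⟨h, h1⟩ | h
    · exact exists_good_of_rk_le_two a _ hd.1 (fun j _ => ha j) hp m h
    · obtain ⟨i₀, hi₀, hc⟩ := exists_good_of_rk_le_four a _ hd (fun j _ => ha j) hp h
      refine ⟨i₀, hi₀, fun S hS hS' => ?_⟩
      have h2 : ∀ T ⊆ through a c p, ∑ j ∈ T, m j = T.card := by
        intro T hT
        rw [Finset.card_eq_sum_ones]
        exact Finset.sum_congr rfl fun j hj => h1 j (hT hj)
      rw [h2 S hS, h2 _ (Finset.Subset.refl _)]
      exact hc S hS hS'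
    · exact h
  obtain ⟨i₀, hi₀, hc⟩ := key
  exact root_of_good a c m ha hm p hd i₀ hi₀ hc

end MPb07157
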