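import Pool.Agent.Lib.MP_b07157_ag.NewtTriple

/-!
# Sets of exponents all of whose spanning triples are B1-like
-/

namespace MPb07157

/-- The determinant of three exponents, coordinates in the order `i`, `j`, `k`. -/
private def dd (i j k : Fin 3) (a b c : Fin 3 → ℕ) : ℤ :=
  (a i : ℤ) * ((b j : ℤ) * c k - (b k : ℤ) * c j) - (a j : ℤ) * ((b i : ℤ) * c k - (b k : ℤ) * c i) +
    (a k : ℤ) * ((b i : ℤ) * c j - (b j : ℤ) * c i)

private theorem dd_iff (i j k : Fin 3) (hij : i ≠ j) (hik : i ≠ k) (hjk : j ≠ k)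
    (a b c : Fin 3 → ℕ) : det3 a b c ≠ 0 ↔ dd i j k a b c ≠ 0 := by
  have h : dd i j k a b c = det3 a b c ∨ dd i j k a b c = - det3 a b c := by
    unfold dd det3
    fin_cases i <;> fin_cases j <;> fin_cases k <;>
      first
      | exact absurd rfl hij
      | exact absurd rfl hik
      | exact absurd rfl hjk
      | (left; rfl)
      | (left; simp only [Fin.zero_eta, Fin.mk_one, Fin.reduceFinMk]; ring1)
      | (right; simp only [Fin.zero_eta, Fin.mk_one, Fin.reduceFinMk]; ring1)
  rcases h with h | h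
  · rw [h]
  · rw [h]
    exact (neg_ne_zero).symm

private theorem cas (i j k : Fin 3) (hij : i ≠ j) (hik : i ≠ k) (hjk : j ≠ k) (l : Fin 3) :
    l = i ∨ l = j ∨ l = k := by
  omega

private theorem ext3 (i j k : Fin 3) (hij : i ≠ j) (hik : i ≠ k) (hjk : j ≠ k)
    (y u : Fin 3 → ℕ) (h1 : y i = u i) (h2 : y j = u j) (h3 : y k = u k) : y = u := by
  funext l
  rcases cas i j k hij hik hjk l with rfl | rfl | rfl
  · exact h1
  · exact h2
  · exact h3

private theorem B1_cases {i j k : Fin 3} (hij : i ≠ j) (hik : i ≠ k) (hjk : j ≠ k)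
    {a b c : Fin 3 → ℕ} (h : B1like a b c) :
    (Pat i a b c ∨ Pat i b c a ∨ Pat i c a b) ∨ (Pat j a b c ∨ Pat j b c a ∨ Pat j c a b) ∨
      (Pat k a b c ∨ Pat k b c a ∨ Pat k c a b) := by
  obtain ⟨l, h⟩ := h
  rcases cas i j k hij hik hjk l with rfl | rfl | rfl
  · exact Or.inl h
  · exact Or.inr (Or.inl h)
  · exact Or.inr (Or.inr h)

/-- `u = (0,1,u3)`, `x = (x1,0,x3)` with `x1 > 0` and `y ≠ u` with `y2 ≥ 1` span. -/
private theorem span_uyx (i j k : Fin 3) (hij : i ≠ j) (hik : i ≠ k) (hjk : j ≠ k)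
    (w : Fin 3 → ℕ) (hw : ∀ j, 0 < w j) (N : ℕ) (hN : 0 < N) (u y x : Fin 3 → ℕ)
    (hu : w i * u i + w j * u j + w k * u k = N) (hy : w i * y i + w j * y j + w k * y k = N)
    (hx : w i * x i + w j * x j + w k * x k = N) (hui : u i = 0) (huj : u j = 1) (hxj : x j = 0)
    (hxi : 1 ≤ x i) (hyj : 1 ≤ y j) (hyu : y ≠ u) : dd i j k u y x ≠ 0 := by
  intro h0
  unfold dd at h0
  rw [hui, huj, hxj] at h0
  rw [hui, huj, mul_zero, zero_add, mul_one] at hu
  rw [hxj, mul_zero, add_zero] at hx
  push_cast at h0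
  have e : (y k : ℤ) * x i = y i * x k + u k * (y j * x i) := by linarith
  have huZ : (w j : ℤ) + w k * u k = N := by exact_mod_cast hu
  have hyZ : (w i : ℤ) * y i + w j * y j + w k * y k = N := by exact_mod_cast hy
  have hxZ : (w i : ℤ) * x i + w k * x k = N := by exact_mod_cast hx
  have e2 : (N : ℤ) * x i = N * (y i + y j * x i) := by
    calc (N : ℤ) * x i = ((w i : ℤ) * y i + w j * y j + w k * y k) * x i := by rw [hyZ]
      _ = w i * y i * x i + w j * y j * x i + w k * ((y k : ℤ) * x i) := by ring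
      _ = w i * y i * x i + w j * y j * x i + w k * (y i * x k + u k * (y j * x i)) := by rw [e]
      _ = y i * (w i * x i + w k * x k) + y j * x i * (w j + w k * u k) := by ring
      _ = _ := by rw [huZ, hxZ]; ring
  have hNZ : (N : ℤ) ≠ 0 := by exact_mod_cast hN.ne'
  have e3 := mul_left_cancel₀ hNZ e2
  have e4 : x i = y i + y j * x i := by exact_mod_cast e3
  have e5 : 1 * x i ≤ y j * x i := Nat.mul_le_mul_right _ hyj
  have e6 : y i = 0 := by omega
  have e7 : y j * x i = 1 * x i := by omega
  have e8 : y j = 1 := Nat.eq_of_mul_eq_mul_right hxi e7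
  rw [e6, e8, mul_zero, zero_add, mul_one] at hy
  have e9 : w k * y k = w k * u k := by omega
  have e10 : y k = u k := Nat.eq_of_mul_eq_mul_left (hw k) e9
  exact hyu (ext3 i j k hij hik hjk y u (by rw [e6, hui]) (by rw [e8, huj]) e10)

private theorem core (w : Fin 3 → ℕ) (hw : ∀ j, 0 < w j) (N : ℕ) (hN : 0 < N)
    (I : Finset (Fin 3 → ℕ)) (i j k : Fin 3) (hij : i ≠ j) (hik : i ≠ k) (hjk : j ≠ k)
    (hI : ∀ v ∈ I, w i * v i + w j * v j + w k * v k = N)
    (hall : ∀ a ∈ I, ∀ b ∈ I, ∀ c ∈ I, dd i j k a b c ≠ 0 → B1like a b c)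
    (hB1 : ∀ j, ∀ v ∈ I, v j = 1 → ∃ u ∈ I, u ≠ v ∧ u j ≠ 0)
    (hE : ∀ i j, i ≠ j → ∀ v ∈ I, ∀ u ∈ I, v i = 1 → v j = 1 → u i = 0 → u j = 0 → False)
    (v u t x : Fin 3 → ℕ) (hvI : v ∈ I) (huI : u ∈ I) (htI : t ∈ I) (hxI : x ∈ I)
    (hv : v i = 1) (hu : u i = 0) (ht : t i = 0) (hD : dd i j k v u t ≠ 0)
    (hx : 1 ≤ x i) (hxv : x ≠ v)
    (hpat : Pat j v x u ∨ Pat j x u v ∨ Pat j u v x) : False := by
  have hwi := hw i
  have hwj := hw j
  have hwk := hw k
  have Wv := hI v hvI
  have Wu := hI u huI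
  have Wt := hI t htI
  have Wx := hI x hxI
  -- the minor of u and t
  have hmin : (u j : ℤ) * t k - u k * t j ≠ 0 := by
    intro h0
    apply hD
    unfold dd
    rw [hv, hu, ht, h0]
    push_cast
    ring
  have hDx : dd i j k x u t ≠ 0 := by
    unfold dd
    rw [hu, ht]
    push_cast
    have hx0 : (x i : ℤ) ≠ 0 := by
      have : x i ≠ 0 := by omega
      exact_mod_cast this
    have := mul_ne_zero hx0 hmin
    intro h0
    apply this
    linarith
  have hBx := B1_cases hij hik hjk (hall x hxI u huI t htI hDx)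
  rcases hpat with ⟨hvj, hxj, huj⟩ | ⟨hxj, huj, hvj⟩ | ⟨huj, hvj, hxj⟩
  · -- gamma
    exact hE i j hij v hvI u huI hv hvj hu huj
  · -- beta
    have huk : 1 ≤ u k := by
      rcases Nat.eq_zero_or_pos (u k) with h0 | h0
      · rw [hu, huj, h0] at Wu
        omega
      · exact h0
    have htj : 1 ≤ t j := by
      rcases Nat.eq_zero_or_pos (t j) with h0 | h0
      · rw [huj, h0] at hmin
        simp at hmin
      · exact h0
    rcases hBx with h1 | h1 | h1
    · -- coordinate i
      unfold Pat at h1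
      have hxi : x i = 1 := by omega
      exact hE i j hij x hxI u huI hxi hxj hu huj
    · unfold Pat at h1
      omega
    · unfold Pat at h1
      have h2 : u k = 1 ∧ x k = 0 ∧ t k = 0 := by omega
      obtain ⟨h2, h3, h4⟩ := h2
      rw [hu, huj, h2] at Wu
      rw [hv, hvj] at Wv
      rw [hxj, h3] at Wx
      have h5 : w i * 1 ≤ w i * x i := Nat.mul_le_mul_left _ hx
      have h6 : v k = 0 := by
        by_contra h7
        have h8 : w k * 1 ≤ w k * v k := Nat.mul_le_mul_left _ (by omega)
        omega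
      rw [h6] at Wv
      omega
  · -- alpha
    have hxi : 2 ≤ x i := by
      by_contra h0
      have h1 : x i = 1 := by omega
      apply hxv
      have h2 : w k * x k = w k * v k := by
        rw [hv, hvj] at Wv
        rw [h1, hxj] at Wx
        omega
      exact ext3 i j k hij hik hjk x v (by rw [h1, hv]) (by rw [hxj, hvj])
        (Nat.eq_of_mul_eq_mul_left hwk h2)
    have hxk : x k < v k := by
      by_contra h0
      have h1 : w k * v k ≤ w k * x k := Nat.mul_le_mul_left _ (by omega)
      have h2 : w i * 2 ≤ w i * x i := Nat.mul_le_mul_left _ hxi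
      rw [hv, hvj] at Wv
      rw [hxj] at Wx
      omega
    -- v, x and a point z with z i = 0, z j ≠ 0 span when x k = 0
    have spanvx : ∀ z : Fin 3 → ℕ, z i = 0 → z j ≠ 0 → x k = 0 → dd i j k v x z ≠ 0 := by
      intro z hzi hzj hxk0
      unfold dd
      rw [hv, hvj, hxj, hxk0, hzi]
      push_cast
      have h1 : (v k : ℤ) ≠ 0 := by
        have : v k ≠ 0 := by omega
        exact_mod_cast this
      have h2 : (x i : ℤ) ≠ 0 := by
        have : x i ≠ 0 := by omega
        exact_mod_cast this
      have h3 : (z j : ℤ) ≠ 0 := by exact_mod_cast hzj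
      have h4 := mul_ne_zero h1 (mul_ne_zero h2 h3)
      intro h0
      apply h4
      linarith
    rcases Nat.eq_zero_or_pos (t j) with htj | htj
    · -- alpha 1
      have htk : 1 ≤ t k := by
        rcases Nat.eq_zero_or_pos (t k) with h0 | h0
        · rw [ht, htj, h0] at Wt
          omega
        · exact h0
      obtain ⟨y, hyI, hyu, hyj⟩ := hB1 j u huI huj
      have hyj' : 1 ≤ y j := Nat.one_le_iff_ne_zero.2 hyj
      have Wy := hI y hyI
      have h1 : dd i j k u y x ≠ 0 :=
        span_uyx i j k hij hik hjk w hw N hN u y x Wu Wy Wx hu huj hxj hx hyj' hyu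
      have h2 : dd i j k u y v ≠ 0 :=
        span_uyx i j k hij hik hjk w hw N hN u y v Wu Wy Wv hu huj hvj (by omega) hyj' hyu
      have B1 := B1_cases hij hik hjk (hall u huI y hyI x hxI h1)
      have B2 := B1_cases hij hik hjk (hall u huI y hyI v hvI h2)
      unfold Pat at B1 B2
      have h3 : (u k = 1 ∧ y k = 0 ∧ x k = 0) ∨ (y k = 1 ∧ x k = 0 ∧ u k = 0) ∨
          (x k = 1 ∧ u k = 0 ∧ y k = 0) := by omega
      rcases h3 with ⟨huk, hyk, hxk0⟩ | ⟨hyk, hxk0, huk⟩ | ⟨hxk1, huk, hyk⟩
      · have hyi : y i = 0 := by omega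
        have hy2 : 2 ≤ y j := by
          by_contra h0
          have h4 : y j = 1 := by omega
          rw [hyi, h4, hyk] at Wy
          rw [hu, huj, huk] at Wu
          omega
        have h5 := spanvx y hyi hyj hxk0
        have B3 := B1_cases hij hik hjk (hall v hvI x hxI y hyI h5)
        unfold Pat at B3
        have hvk : v k = 1 := by omega
        exact hE i k hik v hvI y hyI hv hvk hyi hyk
      · rw [hu, huj, huk] at Wu
        rw [hyk] at Wy
        have h4 : w j * 1 ≤ w j * y j := Nat.mul_le_mul_left _ hyj'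
        omega
      · rw [hu, huj, huk] at Wu
        rw [hyk] at Wy
        have h4 : w j * 1 ≤ w j * y j := Nat.mul_le_mul_left _ hyj'
        have h5 : w i * y i = 0 := by omega
        have h6 : y i = 0 := by
          rcases Nat.mul_eq_zero.1 h5 with h7 | h7
          · omega
          · exact h7
        have h8 : w j * y j = w j * 1 := by omega
        have h9 := Nat.eq_of_mul_eq_mul_left hwj h8
        exact hyu (ext3 i j k hij hik hjk y u (by rw [h6, hu]) (by rw [h9, huj])
          (by rw [hyk, huk]))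
    · -- alpha 2
      have ht2 : 2 ≤ t j := by
        by_contra h0
        have h1 : t j = 1 := by omega
        rw [hu, huj] at Wu
        rw [ht, h1] at Wt
        have h2 : w k * t k = w k * u k := by omega
        have h3 := Nat.eq_of_mul_eq_mul_left hwk h2
        apply hmin
        rw [huj, h1, h3]
        push_cast
        ring
      have htk : t k < u k := by
        by_contra h0
        have h1 : w k * u k ≤ w k * t k := Nat.mul_le_mul_left _ (by omega)
        have h2 : w j * 2 ≤ w j * t j := Nat.mul_le_mul_left _ ht2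
        rw [hu, huj] at Wu
        rw [ht] at Wt
        omega
      unfold Pat at hBx
      have h3 : u k = 1 ∧ x k = 0 ∧ t k = 0 := by omega
      obtain ⟨huk, hxk0, htk0⟩ := h3
      have h5 := spanvx t ht (by omega) hxk0
      have B3 := B1_cases hij hik hjk (hall v hvI x hxI t htI h5)
      unfold Pat at B3
      have hvk : v k = 1 := by omega
      exact hE i k hik v hvI t htI hv hvk ht htk0

/-- NWT-8: if all spanning triples are B1-like. -/
theorem lemB (w : Fin 3 → ℕ) (hw : ∀ j, 0 < w j) (N : ℕ) (hN : 0 < N)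
    (I : Finset (Fin 3 → ℕ)) (hI : ∀ v ∈ I, ∑ j, w j * v j = N)
    (hsp : ∃ a ∈ I, ∃ b ∈ I, ∃ c ∈ I, det3 a b c ≠ 0)
    (hall : ∀ a ∈ I, ∀ b ∈ I, ∀ c ∈ I, det3 a b c ≠ 0 → B1like a b c) :
    (∃ j, ∃ v ∈ I, v j = 1 ∧ ∀ u ∈ I, u ≠ v → u j = 0) ∨
      ∃ i j, i ≠ j ∧ ∃ v ∈ I, ∃ u ∈ I, v i = 1 ∧ v j = 1 ∧ u i = 0 ∧ u j = 0 := by
  by_contra hcon
  push Not at hcon
  obtain ⟨hB1, hE⟩ := hcon
  have hE' : ∀ i j, i ≠ j → ∀ v ∈ I, ∀ u ∈ I, v i = 1 → v j = 1 → u i = 0 → u j = 0 → False :=
    fun i j hij v hv u hu h1 h2 h3 h4 => hE i j hij v hv u hu h1 h2 h3 h4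
  -- the weight in any order of the coordinates
  have hI' : ∀ i j k : Fin 3, i ≠ j → i ≠ k → j ≠ k →
      ∀ v ∈ I, w i * v i + w j * v j + w k * v k = N := by
    intro i j k hij hik hjk v hv
    rw [← hI v hv, Fin.sum_univ_three]
    fin_cases i <;> fin_cases j <;> fin_cases k <;>
      first
      | exact absurd rfl hij
      | exact absurd rfl hik
      | exact absurd rfl hjk
      | rfl
      | (simp only [Fin.zero_eta, Fin.mk_one, Fin.reduceFinMk]; ring1)
  have hall' : ∀ i j k : Fin 3, i ≠ j → i ≠ k → j ≠ k →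
      ∀ a ∈ I, ∀ b ∈ I, ∀ c ∈ I, dd i j k a b c ≠ 0 → B1like a b c := by
    intro i j k hij hik hjk a ha b hb c hc h
    exact hall a ha b hb c hc ((dd_iff i j k hij hik hjk a b c).2 h)
  -- main step: a spanning triple with a pattern in the coordinate `i`
  have main : ∀ i : Fin 3, ∀ v ∈ I, ∀ u ∈ I, ∀ t ∈ I, det3 v u t ≠ 0 → Pat i v u t → False := by
    intro i v hv u hu t ht hdet hpat
    obtain ⟨hvi, hui, hti⟩ := hpat
    obtain ⟨x, hx, hxv, hxi⟩ := hB1 i v hv hvi
    have hxi' : 1 ≤ x i := Nat.one_le_iff_ne_zero.2 hxi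
    obtain ⟨j, k, hij, hik, hjk⟩ : ∃ j k : Fin 3, i ≠ j ∧ i ≠ k ∧ j ≠ k := by
      fin_cases i
      · exact ⟨1, 2, by decide, by decide, by decide⟩
      · exact ⟨0, 2, by decide, by decide, by decide⟩
      · exact ⟨0, 1, by decide, by decide, by decide⟩
    -- the statement for a spanning triple v, x, s with s = u or t
    have step : ∀ s ∈ I, ∀ r ∈ I, s i = 0 → r i = 0 → det3 v s r ≠ 0 → dd i j k v x s ≠ 0 →
        False := by
      intro s hs r hr hsi hri hsr hd
      have hB := B1_cases hij hik hjk (hall' i j k hij hik hjk v hv x hx s hs hd)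
      rcases hB with h1 | h1 | h1
      · unfold Pat at h1
        omega
      · exact core w hw N hN I i j k hij hik hjk (hI' i j k hij hik hjk)
          (hall' i j k hij hik hjk) hB1 hE' v s r x hv hs hr hx hvi hsi hri
          ((dd_iff i j k hij hik hjk v s r).1 hsr) hxi' hxv h1
      · exact core w hw N hN I i k j hik hij hjk.symm (hI' i k j hik hij hjk.symm)
          (hall' i k j hik hij hjk.symm) hB1 hE' v s r x hv hs hr hx hvi hsi hri
          ((dd_iff i k j hik hij hjk.symm v s r).1 hsr) hxi' hxv h1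
    by_cases hd : dd i j k v x u = 0
    · by_cases hd2 : dd i j k v x t = 0
      · -- x is a multiple of v
        have hD := (dd_iff i j k hij hik hjk v u t).1 hdet
        have hmin : (u j : ℤ) * t k - u k * t j ≠ 0 := by
          intro h0
          apply hD
          unfold dd
          rw [hvi, hui, hti, h0]
          push_cast
          ring
        unfold dd at hd hd2
        rw [hvi, hui] at hd
        rw [hvi, hti] at hd2
        push_cast at hd hd2
        have eX : ((u j : ℤ) * t k - u k * t j) * ((x j : ℤ) - x i * v j) = 0 := by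
          linear_combination (t j : ℤ) * (-hd) + (u j : ℤ) * hd2
        have eY : ((u j : ℤ) * t k - u k * t j) * ((x k : ℤ) - x i * v k) = 0 := by
          linear_combination (t k : ℤ) * (-hd) + (u k : ℤ) * hd2
        have fX : (x j : ℤ) - x i * v j = 0 := (mul_eq_zero.1 eX).resolve_left hmin
        have fY : (x k : ℤ) - x i * v k = 0 := (mul_eq_zero.1 eY).resolve_left hmin
        have gX : x j = x i * v j := by
          have : (x j : ℤ) = x i * v j := by linarith
          exact_mod_cast this
        have gY : x k = x i * v k := by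
          have : (x k : ℤ) = x i * v k := by linarith
          exact_mod_cast this
        have Wx := hI' i j k hij hik hjk x hx
        have Wv := hI' i j k hij hik hjk v hv
        have e1 : x i * N = 1 * N := by
          rw [gX, gY] at Wx
          rw [hvi] at Wv
          calc x i * N = x i * (w i * 1 + w j * v j + w k * v k) := by rw [Wv]
            _ = w i * x i + w j * (x i * v j) + w k * (x i * v k) := by ring
            _ = 1 * N := by rw [Wx, one_mul]
        have e2 : x i = 1 := Nat.eq_of_mul_eq_mul_right hN e1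
        rw [e2, one_mul] at gX gY
        exact hxv (ext3 i j k hij hik hjk x v (by rw [e2, hvi]) gX gY)
      · refine step t ht u hu hti hui ?_ hd2
        intro h0
        apply hdet
        have : det3 v u t = - det3 v t u := by
          unfold det3
          ring
        rw [this, h0, neg_zero]
    · exact step u hu t ht hui hti hdet hd
  obtain ⟨a, ha, b, hb, c, hc, hdet⟩ := hsp
  obtain ⟨l, h | h | h⟩ := hall a ha b hb c hc hdet
  · exact main l a ha b hb c hc hdet h
  · refine main l b hb c hc a ha ?_ h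
    have : det3 b c a = det3 a b c := by
      unfold det3
      ring
    rw [this]
    exact hdet
  · refine main l c hc a ha b hb ?_ h
    have : det3 c a b = det3 a b c := by
      unfold det3
      ring
    rw [this]
    exact hdet

end MPb07157
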