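import Pool.Agent.Lib.MP_b07157_ag.NewtRoot3
import Pool.Agent.Lib.MP_b07157_ag.NewtDilate

/-!
# Facets of Newton polyhedra in three variables and roots
-/

noncomputable section

namespace MPb07157

open MvPolynomial Finset
open scoped Nat

/-- A spanning family in a compact facet contains a spanning triple. -/
theorem Spans.exists_triple {w : Fin 3 → ℕ} {I : Finset (Fin 3 →₀ ℕ)} (hs : Spans w I)
    (hw : ∀ j, 0 < w j) (hne : ∃ v ∈ I, v ≠ 0) :
    ∃ a ∈ I, ∃ b ∈ I, ∃ c ∈ I, det3 a b c ≠ 0 := by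
  have key : ∀ y : Fin 3 → ℤ, (∀ v ∈ I, y 0 * (v 0 : ℤ) + y 1 * (v 1 : ℤ) + y 2 * (v 2 : ℤ) = 0) →
      y = 0 := by
    intro y hy
    refine hs y (fun j hj => absurd hj (hw j).ne') fun v hv => ?_
    rw [Fin.sum_univ_three]
    exact hy v hv
  obtain ⟨a, ha, ha0⟩ := hne
  by_contra hcon
  push Not at hcon
  by_cases hpar : ∀ b ∈ I, (a 1 : ℤ) * b 2 - (a 2 : ℤ) * b 1 = 0 ∧
      (a 2 : ℤ) * b 0 - (a 0 : ℤ) * b 2 = 0 ∧ (a 0 : ℤ) * b 1 - (a 1 : ℤ) * b 0 = 0
  · have h0 := key ![0, -(a 2 : ℤ), a 1] fun b hb => by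
      have := (hpar b hb).1
      simp only [Matrix.cons_val_zero, Matrix.cons_val_one, Matrix.cons_val]
      linarith
    have h1 := key ![a 2, 0, -(a 0 : ℤ)] fun b hb => by
      have := (hpar b hb).2.1
      simp only [Matrix.cons_val_zero, Matrix.cons_val_one, Matrix.cons_val]
      linarith
    have e1 := congrFun h0 2
    have e2 := congrFun h0 1
    have e3 := congrFun h1 2
    simp only [Matrix.cons_val_zero, Matrix.cons_val_one, Matrix.cons_val, Pi.zero_apply] at e1 e2 e3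
    apply ha0
    ext j
    fin_cases j
    · show a 0 = 0; omega
    · show a 1 = 0; omega
    · show a 2 = 0; omega
  · push Not at hpar
    obtain ⟨b, hb, hb'⟩ := hpar
    have h0 := key ![(a 1 : ℤ) * b 2 - (a 2 : ℤ) * b 1, (a 2 : ℤ) * b 0 - (a 0 : ℤ) * b 2,
        (a 0 : ℤ) * b 1 - (a 1 : ℤ) * b 0] fun c hc => by
      have := hcon a ha b hb c hc
      unfold det3 at this
      simp only [Matrix.cons_val_zero, Matrix.cons_val_one, Matrix.cons_val]
      linarith
    have e0 := congrFun h0 0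
    have e1 := congrFun h0 1
    have e2 := congrFun h0 2
    simp only [Matrix.cons_val_zero, Matrix.cons_val_one, Matrix.cons_val, Pi.zero_apply] at e0 e1 e2
    exact hb' e0 e1 e2

theorem lem2' (w₁ w₂ N a₁ a₂ b₁ b₂ : ℕ) (hw₁ : 0 < w₁)
    (ha : w₁ * a₁ + w₂ * a₂ = N) (hb : w₁ * b₁ + w₂ * b₂ = N) (hlt : a₁ < b₁) (x y : ℚ)
    (h1 : x * a₁ + y * b₁ = 1) (h2 : x * a₂ + y * b₂ = 1) :
    b₂ < a₂ ∧ ((∀ k : ℕ, x ≠ k + 1) ∨ (a₂ = 1 ∧ b₂ = 0)) ∧
      ((∀ k : ℕ, y ≠ k + 1) ∨ (b₁ = 1 ∧ a₁ = 0)) := by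
  have hlt2 : b₂ < a₂ := by
    by_contra h
    push Not at h
    have h3 : w₁ * a₁ < w₁ * b₁ := Nat.mul_lt_mul_of_pos_left hlt hw₁
    have h4 : w₂ * a₂ ≤ w₂ * b₂ := Nat.mul_le_mul_left _ h
    omega
  have hx : x * ((a₂ : ℚ) * b₁ - a₁ * b₂) = b₁ - b₂ := by linear_combination b₁ * h2 - b₂ * h1
  have hy : y * ((a₂ : ℚ) * b₁ - a₁ * b₂) = a₂ - a₁ := by linear_combination a₂ * h1 - a₁ * h2
  have hlt' : (a₁ : ℚ) + 1 ≤ b₁ := by exact_mod_cast hlt
  have hlt2' : (b₂ : ℚ) + 1 ≤ a₂ := by exact_mod_cast hlt2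
  have ha0 : (0 : ℚ) ≤ a₁ := by positivity
  have hb0 : (0 : ℚ) ≤ b₂ := by positivity
  have hD : (0 : ℚ) < (a₂ : ℚ) * b₁ - a₁ * b₂ := by nlinarith
  refine ⟨hlt2, ?_, ?_⟩
  · by_cases hk : ∃ k : ℕ, x = k + 1
    · right
      obtain ⟨k, hk⟩ := hk
      have hk0 : (0 : ℚ) ≤ k := by positivity
      have h3 : ((a₂ : ℚ) * b₁ - a₁ * b₂) ≤ b₁ - b₂ := by
        rw [← hx, hk]; nlinarith
      rcases Nat.eq_zero_or_pos b₂ with hb2 | hb2
      · refine ⟨?_, hb2⟩
        subst hb2
        push_cast at h3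
        have h4 : (b₁ : ℚ) * (a₂ - 1) ≤ 0 := by linarith
        have h5 : (0 : ℚ) < b₁ := by linarith
        have h6 : (a₂ : ℚ) ≤ 1 := by
          by_contra h7
          push Not at h7
          nlinarith
        have h7 : a₂ ≤ 1 := by exact_mod_cast h6
        omega
      · exfalso
        have h4 : (1 : ℚ) ≤ b₂ := by exact_mod_cast hb2
        nlinarith
    · left
      push Not at hk
      exact hk
  · by_cases hk : ∃ k : ℕ, y = k + 1
    · right
      obtain ⟨k, hk⟩ := hk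
      have hk0 : (0 : ℚ) ≤ k := by positivity
      have h3 : ((a₂ : ℚ) * b₁ - a₁ * b₂) ≤ a₂ - a₁ := by
        rw [← hy, hk]; nlinarith
      rcases Nat.eq_zero_or_pos a₁ with ha1 | ha1
      · refine ⟨?_, ha1⟩
        subst ha1
        push_cast at h3
        have h4 : (a₂ : ℚ) * (b₁ - 1) ≤ 0 := by linarith
        have h5 : (0 : ℚ) < a₂ := by linarith
        have h6 : (b₁ : ℚ) ≤ 1 := by
          by_contra h7
          push Not at h7
          nlinarith
        have h7 : b₁ ≤ 1 := by exact_mod_cast h6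
        omega
      · exfalso
        have h4 : (1 : ℚ) ≤ a₁ := by exact_mod_cast ha1
        nlinarith
    · left
      push Not at hk
      exact hk

variable {f : MvPolynomial (Fin 3) ℂ}

/-- Facet weights with three positive coordinates. -/
theorem root_facet3 (hf : f ≠ 0) (halg : AlgebraicIndependent ℚ (cf f)) {w : Fin 3 → ℕ} {N : ℕ}
    (hfac : IsFacetWt f w N) (hw : ∀ j, 0 < w j)
    (hB : ∃ a ∈ face f w N, ∃ b ∈ face f w N, ∃ c ∈ face f w N, det3 a b c ≠ 0 ∧ ¬ B1like a b c)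
    {s₀ : ℚ} (hs : ((∑ j, w j : ℕ) : ℚ) = -s₀ * N)
    (B : Polynomial ℂ) (hB' : IsBernsteinSato f B) : B.eval (s₀ : ℂ) = 0 := by
  obtain ⟨a, ha, b, hb, c, hc, hd, hBl⟩ := hB
  obtain ⟨ha1, ha2⟩ := Finset.mem_filter.1 ha
  obtain ⟨hb1, hb2⟩ := Finset.mem_filter.1 hb
  obtain ⟨hc1, hc2⟩ := Finset.mem_filter.1 hc
  exact root3_triple hf halg hfac.2.1 hw hfac.1.1 (a := ⟨a, ha1⟩) (b := ⟨b, hb1⟩) (c := ⟨c, hc1⟩)
    ha2 hb2 hc2 hd hBl hs B hB'

/-- The value of the sum of the barycentric coordinates. -/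
theorem sum_coord_eq {n : ℕ} {f : MvPolynomial (Fin n) ℂ} {w : Fin n → ℕ} {N : ℕ} (hN : 0 < N)
    (ρ : Finset (Sf f)) (hρ : ∀ v ∈ ρ, wt w v.1 = N) (γ : Sf f → ℚ) (hγ0 : ∀ v, v ∉ ρ → γ v = 0)
    (hγ : ∀ j, 0 < w j → ∑ v, γ v * ((v.1 j : ℕ) : ℚ) = 1)
    {s₀ : ℚ} (hs : ((∑ j, w j : ℕ) : ℚ) = -s₀ * N) : -(∑ v, γ v) = s₀ := by
  have e1 : (∑ j, (w j : ℚ)) = (∑ v, γ v) * N := by
    have e2 : ∀ v : Sf f, ((wt w v.1 : ℕ) : ℚ) = ∑ j, (w j : ℚ) * ((v.1 j : ℕ) : ℚ) := by
      intro v; unfold wt; push_cast; rfl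
    calc (∑ j, (w j : ℚ)) = ∑ j, (w j : ℚ) * ∑ v, γ v * ((v.1 j : ℕ) : ℚ) := by
          refine Finset.sum_congr rfl fun j _ => ?_
          rcases Nat.eq_zero_or_pos (w j) with h | h
          · rw [h]; simp
          · rw [hγ j h, mul_one]
      _ = ∑ v, γ v * ((wt w v.1 : ℕ) : ℚ) := by
          simp only [Finset.mul_sum]
          rw [Finset.sum_comm]
          refine Finset.sum_congr rfl fun v _ => ?_
          rw [e2, Finset.mul_sum]
          exact Finset.sum_congr rfl fun j _ => by ring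
      _ = _ := by
          rw [Finset.sum_mul]
          refine Finset.sum_congr rfl fun v _ => ?_
          by_cases hv : v ∈ ρ
          · rw [hρ v hv]
          · rw [hγ0 v hv, zero_mul, zero_mul]
  have e3 : (N : ℚ) ≠ 0 := by exact_mod_cast hN.ne'
  have e4 : (-s₀) * (N : ℚ) = (∑ v, γ v) * N := by
    rw [← hs, ← e1]
    push_cast
    rfl
  have := mul_right_cancel₀ e3 e4
  linarith

/-- Facet weights with exactly two positive coordinates. -/
theorem root_facet2 (hf : f ≠ 0) (halg : AlgebraicIndependent ℚ (cf f)) {w : Fin 3 → ℕ} {N : ℕ}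
    (hfac : IsFacetWt f w N) {i j : Fin 3} (hij : i ≠ j) (hi : 0 < w i) (hj : 0 < w j)
    (hk : ∀ k, k ≠ i → k ≠ j → w k = 0)
    (hB : ∃ a ∈ face f w N, ∃ b ∈ face f w N, a i < b i ∧ ¬ (a j = 1 ∧ b j = 0) ∧
      ¬ (b i = 1 ∧ a i = 0))
    {s₀ : ℚ} (hs : ((∑ j, w j : ℕ) : ℚ) = -s₀ * N)
    (B : Polynomial ℂ) (hB' : IsBernsteinSato f B) : B.eval (s₀ : ℂ) = 0 := by
  classical
  obtain ⟨a, ha, b, hb, hlt, h1, h2⟩ := hB
  obtain ⟨ha1, ha2⟩ := Finset.mem_filter.1 ha
  obtain ⟨hb1, hb2⟩ := Finset.mem_filter.1 hb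
  have hwt : ∀ v : Fin 3 →₀ ℕ, wt w v = w i * v i + w j * v j := by
    intro v
    unfold wt
    rw [← Finset.sum_subset (Finset.subset_univ {i, j}), Finset.sum_pair hij]
    intro k _ hk'
    rw [hk k (fun h => hk' (by simp [h])) (fun h => hk' (by simp [h])), zero_mul]
  have hlt2 : b j < a j := by
    by_contra h
    push Not at h
    have h3 : w i * a i < w i * b i := Nat.mul_lt_mul_of_pos_left hlt hi
    have h4 : w j * a j ≤ w j * b j := Nat.mul_le_mul_left _ h
    rw [hwt] at ha2 hb2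
    omega
  have hlt' : (a i : ℚ) + 1 ≤ b i := by exact_mod_cast hlt
  have hlt2' : (b j : ℚ) + 1 ≤ a j := by exact_mod_cast hlt2
  have ha0 : (0 : ℚ) ≤ a i := by positivity
  have hb0 : (0 : ℚ) ≤ b j := by positivity
  have hD : (0 : ℚ) < (a j : ℚ) * b i - a i * b j := by nlinarith
  obtain ⟨x, hx⟩ : ∃ x : ℚ, x = (b i - b j) / ((a j : ℚ) * b i - a i * b j) := ⟨_, rfl⟩
  obtain ⟨y, hy⟩ : ∃ y : ℚ, y = (a j - a i) / ((a j : ℚ) * b i - a i * b j) := ⟨_, rfl⟩
  have e1 : x * a i + y * b i = 1 := by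
    rw [hx, hy, div_mul_eq_mul_div, div_mul_eq_mul_div, ← add_div, div_eq_one_iff_eq hD.ne']
    ring
  have e2 : x * a j + y * b j = 1 := by
    rw [hx, hy, div_mul_eq_mul_div, div_mul_eq_mul_div, ← add_div, div_eq_one_iff_eq hD.ne']
    ring
  obtain ⟨-, hx', hy'⟩ := lem2' (w i) (w j) N (a i) (a j) (b i) (b j) hi (by rw [← hwt]; exact ha2)
    (by rw [← hwt]; exact hb2) hlt x y e1 e2
  have hx'' : ∀ k : ℕ, x ≠ k + 1 := hx'.resolve_right h1
  have hy'' : ∀ k : ℕ, y ≠ k + 1 := hy'.resolve_right h2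
  let A : Sf f := ⟨a, ha1⟩
  let Bb : Sf f := ⟨b, hb1⟩
  have hAB : A ≠ Bb := by
    intro h
    have : a = b := congrArg Subtype.val h
    rw [this] at hlt
    exact lt_irrefl _ hlt
  let γ : Sf f → ℚ := fun v => if v = A then x else if v = Bb then y else 0
  have hsum : ∀ (F : Sf f → ℚ) (g : Sf f → ℚ), (∀ v, v ∉ ({A, Bb} : Finset (Sf f)) → g v = 0) →
      ∑ v, g v * F v = g A * F A + g Bb * F Bb := by
    intro F g hg
    rw [← Finset.sum_subset (Finset.subset_univ {A, Bb}), Finset.sum_pair hAB]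
    intro v _ hv
    rw [hg v hv, zero_mul]
  have hγ0 : ∀ v, v ∉ ({A, Bb} : Finset (Sf f)) → γ v = 0 := by
    intro v hv
    simp only [Finset.mem_insert, Finset.mem_singleton, not_or] at hv
    simp only [γ, if_neg hv.1, if_neg hv.2]
  have hγA : γ A = x := by simp only [γ, if_true]
  have hγB : γ Bb = y := by simp only [γ, if_neg hAB.symm, if_true]
  have hρ : ∀ v ∈ ({A, Bb} : Finset (Sf f)), wt w v.1 = N := by
    intro v hv
    simp only [Finset.mem_insert, Finset.mem_singleton] at hv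
    rcases hv with rfl | rfl
    · exact ha2
    · exact hb2
  have hγ : ∀ k, 0 < w k → ∑ v, γ v * ((v.1 k : ℕ) : ℚ) = 1 := by
    intro k hk'
    rw [hsum _ _ hγ0, hγA, hγB]
    by_cases hki : k = i
    · subst hki; exact e1
    · by_cases hkj : k = j
      · subst hkj; exact e2
      · rw [hk k hki hkj] at hk'
        exact absurd hk' (lt_irrefl _)
  have := root_of_nonres hf halg hfac.2.1 hfac.1.1 {A, Bb} hρ ?_ γ hγ0 hγ ?_ B hB'
  · rw [sum_coord_eq hfac.2.1 _ hρ γ hγ0 hγ hs] at this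
    exact this
  · intro g hg0 hg
    have g1 := hg i
    have g2 := hg j
    rw [hsum _ _ hg0] at g1 g2
    have g1' : g A * a i + g Bb * b i = 0 := g1
    have g2' : g A * a j + g Bb * b j = 0 := g2
    have gA : g A * ((a j : ℚ) * b i - a i * b j) = 0 := by
      linear_combination (b i : ℚ) * g2' - (b j : ℚ) * g1'
    have gB : g Bb * ((a j : ℚ) * b i - a i * b j) = 0 := by
      linear_combination (a j : ℚ) * g1' - (a i : ℚ) * g2'
    have gA' := (mul_eq_zero.1 gA).resolve_right hD.ne'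
    have gB' := (mul_eq_zero.1 gB).resolve_right hD.ne'
    funext v
    by_cases hv : v ∈ ({A, Bb} : Finset (Sf f))
    · simp only [Finset.mem_insert, Finset.mem_singleton] at hv
      rcases hv with rfl | rfl
      · exact gA'
      · exact gB'
    · exact hg0 v hv
  · intro v hv k
    simp only [Finset.mem_insert, Finset.mem_singleton] at hv
    rcases hv with rfl | rfl
    · rw [hγA]; exact hx'' k
    · rw [hγB]; exact hy'' k

/-- Facet weights with exactly one positive coordinate. -/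
theorem root_facet1 {n : ℕ} {f : MvPolynomial (Fin n) ℂ} (hf : f ≠ 0)
    (halg : AlgebraicIndependent ℚ (cf f)) {w : Fin n → ℕ} {N : ℕ}
    (hfac : IsFacetWt f w N) {i : Fin n} (hi : 0 < w i) (hk : ∀ k, k ≠ i → w k = 0)
    (hB : ∃ a ∈ face f w N, a i ≠ 1)
    {s₀ : ℚ} (hs : ((∑ j, w j : ℕ) : ℚ) = -s₀ * N)
    (B : Polynomial ℂ) (hB' : IsBernsteinSato f B) : B.eval (s₀ : ℂ) = 0 := by
  classical
  obtain ⟨a, ha, ha'⟩ := hB
  obtain ⟨ha1, ha2⟩ := Finset.mem_filter.1 ha
  have hwt : ∀ v : Fin n →₀ ℕ, wt w v = w i * v i := by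
    intro v
    unfold wt
    rw [Finset.sum_eq_single i]
    · intro k _ hk'
      rw [hk k hk', zero_mul]
    · intro h; exact absurd (Finset.mem_univ _) h
  have hai : 1 < a i := by
    rcases Nat.eq_zero_or_pos (a i) with h | h
    · have := hfac.2.1
      rw [← ha2, hwt, h, mul_zero] at this
      exact absurd this (lt_irrefl _)
    · omega
  have hai' : (1 : ℚ) < a i := by exact_mod_cast hai
  let A : Sf f := ⟨a, ha1⟩
  let γ : Sf f → ℚ := fun v => if v = A then 1 / a i else 0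
  have hsum : ∀ (F : Sf f → ℚ) (g : Sf f → ℚ), (∀ v, v ∉ ({A} : Finset (Sf f)) → g v = 0) →
      ∑ v, g v * F v = g A * F A := by
    intro F g hg
    rw [Finset.sum_eq_single A]
    · intro v _ hv
      rw [hg v (by simpa using hv), zero_mul]
    · intro h; exact absurd (Finset.mem_univ _) h
  have hγ0 : ∀ v, v ∉ ({A} : Finset (Sf f)) → γ v = 0 := by
    intro v hv
    simp only [Finset.mem_singleton] at hv
    simp only [γ, if_neg hv]
  have hγA : γ A = 1 / a i := by simp only [γ, if_true]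
  have hρ : ∀ v ∈ ({A} : Finset (Sf f)), wt w v.1 = N := by
    intro v hv
    rw [Finset.mem_singleton] at hv
    rw [hv]; exact ha2
  have hγ : ∀ k, 0 < w k → ∑ v, γ v * ((v.1 k : ℕ) : ℚ) = 1 := by
    intro k hk'
    rw [hsum _ _ hγ0, hγA]
    by_cases hki : k = i
    · subst hki
      show 1 / (a k : ℚ) * (a k : ℚ) = 1
      field_simp
    · rw [hk k hki] at hk'
      exact absurd hk' (lt_irrefl _)
  have := root_of_nonres hf halg hfac.2.1 hfac.1.1 {A} hρ ?_ γ hγ0 hγ ?_ B hB'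
  · rw [sum_coord_eq hfac.2.1 _ hρ γ hγ0 hγ hs] at this
    exact this
  · intro g hg0 hg
    have g1 := hg i
    rw [hsum _ _ hg0] at g1
    have g1' : g A * a i = 0 := g1
    have gA' := (mul_eq_zero.1 g1').resolve_right (by linarith)
    funext v
    by_cases hv : v ∈ ({A} : Finset (Sf f))
    · rw [Finset.mem_singleton] at hv
      rw [hv]; exact gA'
    · exact hg0 v hv
  · intro v hv k hk'
    rw [Finset.mem_singleton] at hv
    rw [hv, hγA] at hk'
    have h5 : 1 / (a i : ℚ) < 1 := by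
      rw [div_lt_one (by linarith)]; exact hai'
    have h6 : (0 : ℚ) ≤ k := by positivity
    linarith

/-- Roots for all facets when no exponent has a coordinate equal to `1`. -/
theorem root_facet_no_one (hf : f ≠ 0) (halg : AlgebraicIndependent ℚ (cf f))
    (hone : ∀ v ∈ f.support, ∀ j, v j ≠ 1) {w : Fin 3 → ℕ} {N : ℕ}
    (hfac : IsFacetWt f w N) {s₀ : ℚ} (hs : ((∑ j, w j : ℕ) : ℚ) = -s₀ * N)
    (B : Polynomial ℂ) (hB' : IsBernsteinSato f B) : B.eval (s₀ : ℂ) = 0 := by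
  obtain ⟨⟨hmin, v₀, hv₀, hv₀N⟩, hN, hsp⟩ := id hfac
  have hv₀f : v₀ ∈ face f w N := Finset.mem_filter.2 ⟨hv₀, hv₀N⟩
  have hone' : ∀ v ∈ face f w N, ∀ j, v j ≠ 1 := fun v hv => hone v (Finset.mem_filter.1 hv).1
  by_cases hw3 : ∀ j, 0 < w j
  · -- three positive coordinates
    obtain ⟨a, ha, b, hb, c, hc, hd⟩ := hsp.exists_triple hw3 ⟨v₀, hv₀f, by
      rintro rfl
      rw [← hv₀N] at hN
      unfold wt at hN
      simp at hN⟩
    refine root_facet3 hf halg hfac hw3 ⟨a, ha, b, hb, c, hc, hd, ?_⟩ hs B hB'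
    rintro ⟨j, h | h | h⟩
    · exact hone' a ha j h.1
    · exact hone' b hb j h.1
    · exact hone' c hc j h.1
  · push Not at hw3
    obtain ⟨k, hk⟩ := hw3
    have hk0 : w k = 0 := Nat.le_zero.1 hk
    obtain ⟨i, hi⟩ := hfac.w_ne
    by_cases hj : ∃ j, j ≠ i ∧ 0 < w j
    · obtain ⟨j, hji, hj⟩ := hj
      have hkk : ∀ l, l ≠ i → l ≠ j → w l = 0 := by
        intro l hli hlj
        have hki : k ≠ i := fun h => by rw [h] at hk0; omega
        have hkj : k ≠ j := fun h => by rw [h] at hk0; omega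
        have : l = k := by omega
        rw [this, hk0]
      have hwt : ∀ v : Fin 3 →₀ ℕ, wt w v = w i * v i + w j * v j := by
        intro v
        unfold wt
        rw [← Finset.sum_subset (Finset.subset_univ {i, j}), Finset.sum_pair hji.symm]
        intro l _ hl'
        rw [hkk l (fun h => hl' (by simp [h])) (fun h => hl' (by simp [h])), zero_mul]
      -- two exponents with distinct projections
      obtain ⟨b, hb, hbne⟩ : ∃ b ∈ face f w N, b i ≠ v₀ i := by
        by_contra hcon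
        push Not at hcon
        have hcon' : ∀ b ∈ face f w N, b j = v₀ j := by
          intro b hb
          have h1 := (Finset.mem_filter.1 hb).2
          rw [hwt, hcon b hb] at h1
          rw [hwt] at hv₀N
          have h2 : w j * b j = w j * v₀ j := by omega
          exact Nat.eq_of_mul_eq_mul_left hj h2
        have h3 := hsp (fun l => if l = i then (v₀ j : ℤ) else if l = j then -(v₀ i : ℤ) else 0)
          (fun l hl => by
            have h4 : l ≠ i := fun h => by rw [h] at hl; omega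
            have h5 : l ≠ j := fun h => by rw [h] at hl; omega
            simp only [if_neg h4, if_neg h5]) (fun v hv => by
            rw [← Finset.sum_subset (Finset.subset_univ {i, j}), Finset.sum_pair hji.symm]
            · simp only [if_true, if_neg hji, hcon v hv, hcon' v hv]
              ring
            · intro l _ hl'
              have h4 : l ≠ i := fun h => hl' (by simp [h])
              have h5 : l ≠ j := fun h => hl' (by simp [h])
              simp only [if_neg h4, if_neg h5, zero_mul])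
        have h6 := congrFun h3 i
        have h7 := congrFun h3 j
        simp only [if_true, if_neg hji, Pi.zero_apply] at h6 h7
        rw [hwt] at hv₀N
        have h8 : v₀ j = 0 := by omega
        have h9 : v₀ i = 0 := by omega
        rw [h8, h9] at hv₀N
        omega
      rcases lt_or_gt_of_ne hbne with h | h
      · exact root_facet2 hf halg hfac hji.symm hi hj hkk ⟨b, hb, v₀, hv₀f, h,
          fun h' => hone' b hb j h'.1, fun h' => hone' v₀ hv₀f i h'.1⟩ hs B hB'
      · exact root_facet2 hf halg hfac hji.symm hi hj hkk ⟨v₀, hv₀f, b, hb, h,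
          fun h' => hone' v₀ hv₀f j h'.1, fun h' => hone' b hb i h'.1⟩ hs B hB'
    · push Not at hj
      exact root_facet1 hf halg hfac hi (fun l hl => Nat.le_zero.1 (hj l hl))
        ⟨v₀, hv₀f, hone' v₀ hv₀f i⟩ hs B hB'

/-- The strong monodromy conjecture (global, question 1) for very general polynomials in three
variables, no exponent of which has a coordinate equal to `1`. -/
theorem smc3_no_one (hf : f ≠ 0) (h0 : (0 : Fin 3 →₀ ℕ) ∉ f.support)
    (halg : AlgebraicIndependent ℚ (cf f)) (hone : ∀ v ∈ f.support, ∀ j, v j ≠ 1) (s₀ : ℚ)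
    (h : IsPole (Zmot f) s₀) : IsBernsteinSatoRoot f s₀ := by
  by_cases h1 : s₀ = -1
  · subst h1
    exact (roots_of_form (f := f) (s₀ := -1) fun b hb => neg_one_root hf h0 b hb).1
  by_cases hex : ∃ w N, IsFacetWt f w N ∧ ((∑ j, w j : ℕ) : ℚ) = -s₀ * N
  · obtain ⟨w, N, hfac, hs⟩ := hex
    intro b hb
    exact root_facet_no_one hf halg hone hfac hs b hb
  · push Not at hex
    refine absurd ?_ h
    have hnd : ∀ a : Fin 3 → ℕ, NondegAt f (face f a (nuf f a)) := by
      intro a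
      refine nondegAt_of_algInd f halg _ (Finset.filter_subset _ _) ?_
      obtain ⟨-, v, hv, hvN⟩ := isMinWt_nuf hf a
      exact ⟨v, Finset.mem_filter.2 ⟨hv, hvN⟩⟩
    rw [Zmot_eq]
    exact ZE_mem_regularAt hf (by omega) (fun a _ => hnd a) h1 fun w N h => hex w N h

end MPb07157
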