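import Pool.Agent.Lib.MP_b07157_ag.K0
import Pool.Agent.Lib.MP_b07157_ag.Arcs
import Pool.Agent.Lib.MP_b07157_ag.NewtDefs

section

/-!
# Classes of coordinate cells, and the Hensel step
-/

noncomputable section

namespace MPb07157

open MvPolynomial Finset

/-- N4a -/
theorem cls_cell {σ κ : Type} [Fintype σ] [Fintype κ] (e : κ → σ) (he : Function.Injective e)
    (A : Set (κ → ℂ)) (hA : IsConstr A) (Z : Finset σ) (hZ : ∀ i, e i ∉ Z) (M : ℕ)
    (hM : Fintype.card σ = Fintype.card κ + Z.card + M) :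
    cls {x : σ → ℂ | (fun i => x (e i)) ∈ A ∧ ∀ j ∈ Z, x j = 0} = cls A * L ^ M := by
  classical
  let ρ : Type := {j : σ // ¬ (j ∈ Finset.univ.image e ∪ Z)}
  have hcard : Fintype.card ρ = M := by
    have h1 : Fintype.card ρ = Fintype.card σ - (Finset.univ.image e ∪ Z).card := by
      show Fintype.card {j : σ // ¬ (j ∈ Finset.univ.image e ∪ Z)} = _
      rw [Fintype.card_subtype_compl (fun j => j ∈ Finset.univ.image e ∪ Z)]
      rw [Fintype.card_subtype, Finset.filter_mem_eq_inter, Finset.univ_inter]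
    have h2 : (Finset.univ.image e ∪ Z).card = Fintype.card κ + Z.card := by
      rw [Finset.card_union_of_disjoint, Finset.card_image_of_injective _ he, Finset.card_univ]
      rw [Finset.disjoint_left]
      intro j hj
      obtain ⟨i, _, rfl⟩ := Finset.mem_image.1 hj
      exact hZ i
    rw [h1, h2, hM]; omega
  have hS : IsConstr {x : σ → ℂ | (fun i => x (e i)) ∈ A ∧ ∀ j ∈ Z, x j = 0} := by
    refine isConstr_setOf_and (hA.reindex e) (isConstr_forall_mem Z _ fun j _ => ?_)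
    have := isConstr_eq_zero (X j : MvPolynomial σ ℂ)
    simpa using this
  have hT : IsConstr (prodSum A (Set.univ : Set (ρ → ℂ))) := isConstr_prodSum hA IsConstr.univ
  rw [← hcard, ← cls_univ_eq (σ := ρ), ← cls_prodSum hA IsConstr.univ]
  have hmap : ∀ x : σ → ℂ, polyMap (Sum.elim (fun i => (X (e i) : MvPolynomial σ ℂ))
      (fun j : ρ => X j.1)) x = Sum.elim (fun i => x (e i)) (fun j : ρ => x j.1) := by
    intro x
    funext k
    rcases k with i | j <;> simp [polyMap]
  refine cls_bijOn hS hT (Sum.elim (fun i => X (e i)) (fun j => X j.1)) ⟨?_, ?_, ?_⟩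
  · intro x hx
    rw [hmap]
    exact ⟨hx.1, Set.mem_univ _⟩
  · intro x hx y hy hxy
    rw [hmap, hmap] at hxy
    funext j
    by_cases h1 : ∃ i, e i = j
    · obtain ⟨i, rfl⟩ := h1
      exact congrFun hxy (Sum.inl i)
    · by_cases h2 : j ∈ Z
      · rw [hx.2 j h2, hy.2 j h2]
      · have h3 : ¬ (j ∈ Finset.univ.image e ∪ Z) := by
          rw [Finset.mem_union, Finset.mem_image]
          rintro (⟨i, _, hi⟩ | h)
          · exact h1 ⟨i, hi⟩
          · exact h2 h
        exact congrFun hxy (Sum.inr ⟨j, h3⟩)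
  · intro z hz
    refine ⟨fun j => if h1 : ∃ i, e i = j then z (Sum.inl h1.choose) else
      if h2 : ¬ (j ∈ Finset.univ.image e ∪ Z) then z (Sum.inr ⟨j, h2⟩) else 0, ?_, ?_⟩
    · constructor
      · have : (fun i => (fun j => if h1 : ∃ i, e i = j then z (Sum.inl h1.choose) else
            if h2 : ¬ (j ∈ Finset.univ.image e ∪ Z) then z (Sum.inr ⟨j, h2⟩) else 0) (e i)) =
            fun i => z (Sum.inl i) := by
          funext i
          have h1 : ∃ i', e i' = e i := ⟨i, rfl⟩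
          show (if h1 : ∃ i', e i' = e i then z (Sum.inl h1.choose) else _) = _
          rw [dif_pos h1]
          rw [he h1.choose_spec]
        rw [this]
        exact hz.1
      · intro j hj
        have h1 : ¬ ∃ i, e i = j := by
          rintro ⟨i, rfl⟩
          exact hZ i hj
        show (if h1 : ∃ i', e i' = j then z (Sum.inl h1.choose) else _) = _
        rw [dif_neg h1, dif_neg]
        rw [not_not]
        exact Finset.mem_union_right _ hj
    · rw [hmap]
      funext k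
      rcases k with i | j
      · have h1 : ∃ i', e i' = e i := ⟨i, rfl⟩
        show (if h1 : ∃ i', e i' = e i then z (Sum.inl h1.choose) else _) = _
        rw [dif_pos h1]
        rw [he h1.choose_spec]
      · have h1 : ¬ ∃ i, e i = j.1 := by
          rintro ⟨i, hi⟩
          exact j.2 (Finset.mem_union_left _ (Finset.mem_image.2 ⟨i, Finset.mem_univ _, hi⟩))
        show (if h1 : ∃ i', e i' = j.1 then z (Sum.inl h1.choose) else _) = _
        rw [dif_neg h1, dif_pos j.2]

/-- N4b -/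
theorem hensel_step {σ : Type} [Fintype σ] [DecidableEq σ] (B : Set (σ → ℂ)) (hB : IsConstr B)
    (G : (σ → ℂ) → ℂ) (hG : ∃ P : MvPolynomial σ ℂ, ∀ x, G x = eval x P) (p : σ)
    (hshift : ∀ x ∈ B, ∀ c : ℂ, Function.update x p (x p + c) ∈ B)
    (D : (σ → ℂ) → ℂ) (hD : ∀ x ∈ B, D x ≠ 0)
    (hGD : ∀ x ∈ B, ∀ c : ℂ, G (Function.update x p (x p + c)) = G x + c * D x) :
    cls {x | x ∈ B ∧ G x = 0} * L = cls B ∧
      cls {x | x ∈ B ∧ G x ≠ 0} = cls {x | x ∈ B ∧ G x = 0} * (L - 1) := by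
  obtain ⟨P, hP⟩ := hG
  have hS0 : IsConstr {x | x ∈ B ∧ G x = 0} := by
    refine isConstr_setOf_and hB ?_
    simp only [hP]
    exact isConstr_eq_zero P
  have hS1 : IsConstr {x | x ∈ B ∧ G x ≠ 0} := by
    refine isConstr_setOf_and hB ?_
    simp only [hP]
    exact isConstr_ne_zero P
  have hfirst : cls {x | x ∈ B ∧ G x = 0} * L = cls B := by
    have hL : L = cls (Set.univ : Set (Unit → ℂ)) := by
      rw [cls_univ_eq, Fintype.card_unit, pow_one]
    rw [hL, ← cls_prodSum hS0 IsConstr.univ]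
    have hmap : ∀ z : σ ⊕ Unit → ℂ, polyMap (fun j => if j = p then
        (X (Sum.inl p) + X (Sum.inr ()) : MvPolynomial (σ ⊕ Unit) ℂ) else X (Sum.inl j)) z =
        Function.update (fun i => z (Sum.inl i)) p (z (Sum.inl p) + z (Sum.inr ())) := by
      intro z
      funext j
      by_cases hj : j = p
      · subst hj; simp [polyMap]
      · simp [polyMap, hj]
    refine cls_bijOn (isConstr_prodSum hS0 IsConstr.univ) hB (fun j => if j = p then
        (X (Sum.inl p) + X (Sum.inr ()) : MvPolynomial (σ ⊕ Unit) ℂ) else X (Sum.inl j))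
        ⟨?_, ?_, ?_⟩
    · intro z hz
      rw [hmap]
      exact hshift _ hz.1.1 _
    · intro z hz w hw hzw
      rw [hmap, hmap] at hzw
      have hne : ∀ j, j ≠ p → z (Sum.inl j) = w (Sum.inl j) := by
        intro j hj
        have := congrFun hzw j
        rwa [Function.update_of_ne hj, Function.update_of_ne hj] at this
      have hp : z (Sum.inl p) + z (Sum.inr ()) = w (Sum.inl p) + w (Sum.inr ()) := by
        have := congrFun hzw p
        rwa [Function.update_self, Function.update_self] at this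
      have hw2 : (fun i => w (Sum.inl i)) = Function.update (fun i => z (Sum.inl i)) p
          (z (Sum.inl p) + (w (Sum.inl p) - z (Sum.inl p))) := by
        funext j
        by_cases hj : j = p
        · subst hj; simp
        · rw [Function.update_of_ne hj]; exact (hne j hj).symm
      have hG1 : G (fun i => z (Sum.inl i)) = 0 := hz.1.2
      have hG2 : G (fun i => w (Sum.inl i)) = 0 := hw.1.2
      have h3 := hGD (fun i => z (Sum.inl i)) hz.1.1 (w (Sum.inl p) - z (Sum.inl p))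
      rw [← hw2, hG1, hG2, zero_add] at h3
      have h4 : w (Sum.inl p) - z (Sum.inl p) = 0 := by
        rcases mul_eq_zero.1 h3.symm with h | h
        · exact h
        · exact absurd h (hD _ hz.1.1)
      funext k
      rcases k with j | u
      · by_cases hj : j = p
        · subst hj; exact (sub_eq_zero.1 h4).symm
        · exact hne j hj
      · have : w (Sum.inl p) = z (Sum.inl p) := sub_eq_zero.1 h4
        rw [this] at hp
        exact add_left_cancel hp
    · intro y hy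
      set c : ℂ := G y / D y with hc
      have hcD : c * D y = G y := div_mul_cancel₀ _ (hD y hy)
      refine ⟨Sum.elim (Function.update y p (y p + (-c))) (fun _ => c), ⟨⟨?_, ?_⟩, Set.mem_univ _⟩,
        ?_⟩
      · exact hshift y hy _
      · show G (Function.update y p (y p + (-c))) = 0
        rw [hGD y hy (-c)]
        rw [neg_mul, hcD]; ring
      · rw [hmap]
        funext j
        by_cases hj : j = p
        · subst hj; simp
        · simp [hj]
  refine ⟨hfirst, ?_⟩
  have hBun : B = {x | x ∈ B ∧ G x = 0} ∪ {x | x ∈ B ∧ G x ≠ 0} := by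
    ext x
    simp only [Set.mem_union, Set.mem_ofPred_eq]
    tauto
  have h2 : cls B = cls {x | x ∈ B ∧ G x = 0} + cls {x | x ∈ B ∧ G x ≠ 0} := by
    conv_lhs => rw [hBun]
    refine cls_union hS0 hS1 ?_
    rw [Set.disjoint_left]
    intro x hx hx'
    exact hx'.2 hx.2
  rw [mul_sub, mul_one, hfirst, h2]
  ring

end MPb07157
end
end

section

/-!
# Order strata of arcs and initial forms
-/

noncomputable section

namespace MPb07157

open MvPolynomial Finset

variable {n : ℕ}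

/-- First order Taylor expansion. -/
theorem eval_update_add {R : Type} [CommRing R] (g : MvPolynomial (Fin n) R) (U : Fin n → R)
    (j : Fin n) (h : R) :
    ∃ k : R, eval (Function.update U j (U j + h)) g =
      eval U g + h * eval U (pderiv j g) + h ^ 2 * k := by
  induction g using MvPolynomial.induction_on with
  | C a => exact ⟨0, by simp⟩
  | add p q hp hq =>
    obtain ⟨k, hk⟩ := hp
    obtain ⟨l, hl⟩ := hq
    refine ⟨k + l, ?_⟩
    rw [map_add, hk, hl, map_add, map_add, map_add]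
    ring
  | mul_X p i hp =>
    obtain ⟨k, hk⟩ := hp
    by_cases hi : i = j
    · subst hi
      refine ⟨k * (U i + h) + eval U (pderiv i p), ?_⟩
      simp only [map_mul, eval_X, hk, Function.update_self, pderiv_mul, map_add, pderiv_X_self,
        mul_one]
      ring
    · refine ⟨k * U i, ?_⟩
      have h1 : pderiv j (X i : MvPolynomial (Fin n) R) = 0 := pderiv_X_of_ne hi
      simp only [map_mul, eval_X, hk, Function.update_of_ne hi, pderiv_mul, h1,
        mul_zero, add_zero]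
      ring

/-- The face of the Newton polyhedron of `f` in the direction `a`. -/
def face (f : MvPolynomial (Fin n) ℂ) (a : Fin n → ℕ) (N : ℕ) : Finset (Fin n →₀ ℕ) :=
  f.support.filter (fun v => wt a v = N)

/-- The part of `f` with exponents in `I`. -/
def inForm (f : MvPolynomial (Fin n) ℂ) (I : Finset (Fin n →₀ ℕ)) : MvPolynomial (Fin n) ℂ :=
  ∑ v ∈ I, monomial v (coeff v f)

/-- `f(t^a u) = t^N g(u)`. -/
def gPoly (f : MvPolynomial (Fin n) ℂ) (a : Fin n → ℕ) (N : ℕ) :
    MvPolynomial (Fin n) (PowerSeries ℂ) :=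
  ∑ v ∈ f.support, monomial v (PowerSeries.C (coeff v f) * PowerSeries.X ^ (wt a v - N))

theorem aeval_eq_gPoly {f : MvPolynomial (Fin n) ℂ} {a : Fin n → ℕ} {N : ℕ}
    (h : IsMinWt f a N) (U : Fin n → PowerSeries ℂ) :
    (aeval (fun j => PowerSeries.X ^ (a j) * U j) f : PowerSeries ℂ) =
      PowerSeries.X ^ N * eval U (gPoly f a N) := by
  unfold gPoly
  conv_lhs => rw [← MvPolynomial.support_sum_monomial_coeff f]
  rw [map_sum, map_sum, Finset.mul_sum]
  refine Finset.sum_congr rfl fun v hv => ?_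
  rw [aeval_monomial, eval_monomial]
  rw [Finsupp.prod_fintype _ _ (fun _ => pow_zero _), Finsupp.prod_fintype _ _ (fun _ => pow_zero _)]
  simp only [mul_pow, Finset.prod_mul_distrib]
  have h1 : ∏ j, ((PowerSeries.X : PowerSeries ℂ) ^ a j) ^ v j = PowerSeries.X ^ wt a v := by
    simp only [← pow_mul]
    rw [Finset.prod_pow_eq_pow_sum]
    rfl
  rw [h1]
  have h2 : (PowerSeries.X : PowerSeries ℂ) ^ wt a v =
      PowerSeries.X ^ N * PowerSeries.X ^ (wt a v - N) := by
    rw [← pow_add, Nat.add_sub_cancel' (h.1 v hv)]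
  rw [h2]
  change PowerSeries.C (coeff v f) * _ = _
  ring

theorem map_gPoly {f : MvPolynomial (Fin n) ℂ} {a : Fin n → ℕ} {N : ℕ}
    (h : IsMinWt f a N) :
    map PowerSeries.constantCoeff (gPoly f a N) = inForm f (face f a N) := by
  unfold gPoly inForm face
  rw [map_sum, Finset.sum_filter]
  refine Finset.sum_congr rfl fun v hv => ?_
  rw [map_monomial, map_mul, PowerSeries.constantCoeff_C, map_pow, PowerSeries.constantCoeff_X]
  have h1 := h.1 v hv
  split_ifs with h2
  · rw [h2]; simp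
  · rw [zero_pow (by omega), mul_zero, monomial_zero]

theorem constantCoeff_eval (g : MvPolynomial (Fin n) (PowerSeries ℂ)) (U : Fin n → PowerSeries ℂ) :
    PowerSeries.constantCoeff (eval U g) =
      eval (fun j => PowerSeries.constantCoeff (U j)) (map PowerSeries.constantCoeff g) := by
  rw [eval_map]
  change PowerSeries.constantCoeff (eval₂ (RingHom.id _) U g) = _
  rw [eval₂_comp_left, RingHom.comp_id]
  rfl

/-- The tail of an arc. -/
def tailS {N : ℕ} (a : Fin n → ℕ) (γ : Fin n × Fin N → ℂ) (j : Fin n) : PowerSeries ℂ :=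
  PowerSeries.mk fun k => PowerSeries.coeff (a j + k) (arc γ j)

theorem coeff_arc {N : ℕ} (γ : Fin n × Fin N → ℂ) (j : Fin n) (k : ℕ) :
    PowerSeries.coeff k (arc γ j) = if h : k < N then γ (j, ⟨k, h⟩) else 0 := by
  unfold arc
  rw [map_sum]
  simp only [PowerSeries.coeff_C_mul, PowerSeries.coeff_X_pow, mul_ite, mul_one, mul_zero]
  split_ifs with h
  · rw [Finset.sum_eq_single (⟨k, h⟩ : Fin N)]
    · simp
    · intro b _ hb
      rw [if_neg]
      intro h2
      apply hb
      ext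
      exact h2.symm
    · simp
  · refine Finset.sum_eq_zero fun b _ => ?_
    rw [if_neg]
    intro h2
    exact h (h2 ▸ b.2)

/-- Arcs that vanish to order at least `a`. -/
def Vn {N : ℕ} (a : Fin n → ℕ) (γ : Fin n × Fin N → ℂ) : Prop :=
  ∀ j, ∀ k : Fin N, (k : ℕ) < a j → γ (j, k) = 0

theorem arc_eq_tail {N : ℕ} {a : Fin n → ℕ} {γ : Fin n × Fin N → ℂ} (h : Vn a γ) (j : Fin n) :
    arc γ j = PowerSeries.X ^ (a j) * tailS a γ j := by
  ext k
  rw [PowerSeries.coeff_X_pow_mul', tailS]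
  split_ifs with h1
  · rw [PowerSeries.coeff_mk, Nat.add_sub_cancel' h1]
  · rw [coeff_arc]
    split_ifs with h2
    · exact h j ⟨k, h2⟩ (by simpa using h1)
    · rfl

/-- The value `f(γ(t))`. -/
def Fv {N : ℕ} (f : MvPolynomial (Fin n) ℂ) (γ : Fin n × Fin N → ℂ) : PowerSeries ℂ :=
  aeval (arc γ) f

theorem Fv_eq {N : ℕ} {f : MvPolynomial (Fin n) ℂ} {a : Fin n → ℕ} {ν : ℕ}
    (h : IsMinWt f a ν) {γ : Fin n × Fin N → ℂ} (hγ : Vn a γ) :
    Fv f γ = PowerSeries.X ^ ν * eval (tailS a γ) (gPoly f a ν) := by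
  unfold Fv
  rw [← aeval_eq_gPoly h]
  congr 2
  funext j
  exact arc_eq_tail hγ j

theorem coeff_Fv_of_lt {N : ℕ} {f : MvPolynomial (Fin n) ℂ} {a : Fin n → ℕ} {ν : ℕ}
    (h : IsMinWt f a ν) {γ : Fin n × Fin N → ℂ} (hγ : Vn a γ) {k : ℕ} (hk : k < ν) :
    PowerSeries.coeff k (Fv f γ) = 0 := by
  rw [Fv_eq h hγ, PowerSeries.coeff_X_pow_mul', if_neg (by omega)]

/-- The leading coefficients (`0` if the coordinate vanishes). -/
def lead0 {N : ℕ} (a : Fin n → ℕ) (γ : Fin n × Fin N → ℂ) (j : Fin n) : ℂ :=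
  if h : a j < N then γ (j, ⟨a j, h⟩) else 0

theorem constantCoeff_tailS {N : ℕ} (a : Fin n → ℕ) (γ : Fin n × Fin N → ℂ) (j : Fin n) :
    PowerSeries.constantCoeff (tailS a γ j) = lead0 a γ j := by
  rw [tailS, ← PowerSeries.coeff_zero_eq_constantCoeff_apply, PowerSeries.coeff_mk, add_zero,
    coeff_arc]
  rfl

theorem coeff_Fv_eq {N : ℕ} {f : MvPolynomial (Fin n) ℂ} {a : Fin n → ℕ} {ν : ℕ}
    (h : IsMinWt f a ν) {γ : Fin n × Fin N → ℂ} (hγ : Vn a γ) :
    PowerSeries.coeff ν (Fv f γ) = eval (lead0 a γ) (inForm f (face f a ν)) := by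
  rw [Fv_eq h hγ, PowerSeries.coeff_X_pow_mul', if_pos le_rfl, Nat.sub_self,
    PowerSeries.coeff_zero_eq_constantCoeff_apply, constantCoeff_eval, map_gPoly h]
  congr 1
  congr 1
  funext j
  exact constantCoeff_tailS a γ j

theorem tailS_update {N : ℕ} (a : Fin n → ℕ) (γ : Fin n × Fin N → ℂ) (j : Fin n) (r : ℕ)
    (hr : a j + r < N) (c : ℂ) :
    tailS a (Function.update γ (j, ⟨a j + r, hr⟩) (γ (j, ⟨a j + r, hr⟩) + c)) =
      Function.update (tailS a γ) j (tailS a γ j + PowerSeries.C c * PowerSeries.X ^ r) := by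
  funext i
  by_cases hi : i = j
  · subst hi
    rw [Function.update_self]
    ext k
    simp only [tailS, PowerSeries.coeff_mk, map_add, PowerSeries.coeff_C_mul,
      PowerSeries.coeff_X_pow, coeff_arc]
    by_cases hk : k = r
    · subst hk
      rw [dif_pos hr, dif_pos hr, Function.update_self]
      simp
    · simp only [hk, if_false, mul_zero, add_zero]
      split_ifs with h1
      · rw [Function.update_of_ne]
        intro h2
        apply hk
        have := congrArg (fun p : Fin n × Fin N => (p.2 : ℕ)) h2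
        simp only at this
        omega
      · rfl
  · rw [Function.update_of_ne hi]
    ext k
    simp only [tailS, PowerSeries.coeff_mk, coeff_arc]
    split_ifs with h1
    · rw [Function.update_of_ne]
      intro h2
      exact hi (congrArg Prod.fst h2)
    · rfl

theorem Vn_update {N : ℕ} {a : Fin n → ℕ} {γ : Fin n × Fin N → ℂ} (hγ : Vn a γ) (j : Fin n)
    (r : ℕ) (hr : a j + r < N) (c : ℂ) : Vn a (Function.update γ (j, ⟨a j + r, hr⟩) c) := by
  intro i k hk
  rw [Function.update_of_ne]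
  · exact hγ i k hk
  · intro h
    have h1 := congrArg Prod.fst h
    have h2 := congrArg (fun p : Fin n × Fin N => (p.2 : ℕ)) h
    simp only at h1 h2
    subst h1
    omega

/-- Effect of a change of one coefficient. -/
theorem coeff_Fv_update {N : ℕ} {f : MvPolynomial (Fin n) ℂ} {a : Fin n → ℕ} {ν : ℕ}
    (h : IsMinWt f a ν) {γ : Fin n × Fin N → ℂ} (hγ : Vn a γ) (j : Fin n) (r : ℕ)
    (hr1 : 1 ≤ r) (hr : a j + r < N) (c : ℂ) :
    (∀ k < ν + r, PowerSeries.coeff k
      (Fv f (Function.update γ (j, ⟨a j + r, hr⟩) (γ (j, ⟨a j + r, hr⟩) + c))) =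
        PowerSeries.coeff k (Fv f γ)) ∧
    PowerSeries.coeff (ν + r)
      (Fv f (Function.update γ (j, ⟨a j + r, hr⟩) (γ (j, ⟨a j + r, hr⟩) + c))) =
        PowerSeries.coeff (ν + r) (Fv f γ) +
          c * eval (lead0 a γ) (pderiv j (inForm f (face f a ν))) := by
  rw [Fv_eq h (Vn_update hγ j r hr _), Fv_eq h hγ, tailS_update]
  obtain ⟨q, hq⟩ := eval_update_add (gPoly f a ν) (tailS a γ) j
    (PowerSeries.C c * PowerSeries.X ^ r)
  rw [hq]
  have e1 : (PowerSeries.X : PowerSeries ℂ) ^ ν * (eval (tailS a γ) (gPoly f a ν) +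
      PowerSeries.C c * PowerSeries.X ^ r * eval (tailS a γ) (pderiv j (gPoly f a ν)) +
      (PowerSeries.C c * PowerSeries.X ^ r) ^ 2 * q) =
      PowerSeries.X ^ ν * eval (tailS a γ) (gPoly f a ν) +
      PowerSeries.X ^ (ν + r) * (PowerSeries.C c * eval (tailS a γ) (pderiv j (gPoly f a ν))) +
      PowerSeries.X ^ (ν + r + r) * (PowerSeries.C c ^ 2 * q) := by
    ring
  rw [e1]
  constructor
  · intro k hk
    rw [map_add, map_add, PowerSeries.coeff_X_pow_mul' _ (ν + r),
      PowerSeries.coeff_X_pow_mul' _ (ν + r + r), if_neg (by omega), if_neg (by omega), add_zero,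
      add_zero]
  · rw [map_add, map_add, PowerSeries.coeff_X_pow_mul' _ (ν + r),
      PowerSeries.coeff_X_pow_mul' _ (ν + r + r), if_pos le_rfl, if_neg (by omega), add_zero,
      Nat.sub_self, PowerSeries.coeff_C_mul, PowerSeries.coeff_zero_eq_constantCoeff_apply,
      constantCoeff_eval, ← pderiv_map, map_gPoly h]
    congr 4
    funext j
    exact constantCoeff_tailS a γ j

end MPb07157
end
end

section

/-!
# Classes of the order strata
-/

noncomputable section

namespace MPb07157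

open MvPolynomial Finset

variable {n : ℕ}

/-- Truncated arcs with order vector `a`. -/
def Strat (N : ℕ) (a : Fin n → ℕ) : Set (Fin n × Fin N → ℂ) :=
  {γ | Vn a γ ∧ ∀ j, a j < N → lead0 a γ j ≠ 0}

/-- Extension by zero. -/
def ext0 (S : Finset (Fin n)) (u : {j // j ∉ S} → ℂ) : Fin n → ℂ :=
  fun j => if h : j ∉ S then u ⟨j, h⟩ else 0

/-- Zeros of the initial form in the torus. -/
def XS (f : MvPolynomial (Fin n) ℂ) (I : Finset (Fin n →₀ ℕ)) (S : Finset (Fin n)) :
    Set ({j // j ∉ S} → ℂ) :=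
  {u | (∀ j, u j ≠ 0) ∧ eval (ext0 S u) (inForm f I) = 0}

/-- The complement of the zeros of the initial form in the torus. -/
def YS (f : MvPolynomial (Fin n) ℂ) (I : Finset (Fin n →₀ ℕ)) (S : Finset (Fin n)) :
    Set ({j // j ∉ S} → ℂ) :=
  {u | (∀ j, u j ≠ 0) ∧ eval (ext0 S u) (inForm f I) ≠ 0}

/-- Nondegeneracy in the direction `a`. -/
def NondegAt (f : MvPolynomial (Fin n) ℂ) (I : Finset (Fin n →₀ ℕ)) : Prop :=
  ∀ u : Fin n → ℂ, (∀ j, u j ≠ 0) → eval u (inForm f I) = 0 →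
    ∃ j, eval u (pderiv j (inForm f I)) ≠ 0

theorem eval_inForm_congr (f : MvPolynomial (Fin n) ℂ) (I : Finset (Fin n →₀ ℕ))
    {x y : Fin n → ℂ} (h : ∀ v ∈ I, ∀ j, v j ≠ 0 → x j = y j) :
    eval x (inForm f I) = eval y (inForm f I) := by
  unfold inForm
  rw [map_sum, map_sum]
  refine Finset.sum_congr rfl fun v hv => ?_
  rw [eval_monomial, eval_monomial]
  congr 1
  refine Finset.prod_congr rfl fun j hj => ?_
  beta_reduce
  rw [h v hv j (Finsupp.mem_support_iff.1 hj)]

theorem eval_pderiv_inForm_congr (f : MvPolynomial (Fin n) ℂ) (I : Finset (Fin n →₀ ℕ))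
    (i : Fin n) {x y : Fin n → ℂ} (h : ∀ v ∈ I, ∀ j, v j ≠ 0 → x j = y j) :
    eval x (pderiv i (inForm f I)) = eval y (pderiv i (inForm f I)) := by
  unfold inForm
  rw [map_sum, map_sum, map_sum]
  refine Finset.sum_congr rfl fun v hv => ?_
  rw [pderiv_monomial, eval_monomial, eval_monomial]
  congr 1
  refine Finset.prod_congr rfl fun j hj => ?_
  beta_reduce
  rw [h v hv j]
  rw [Finsupp.mem_support_iff] at hj
  intro h0
  apply hj
  simp [h0]

theorem exists_of_pderiv_ne (f : MvPolynomial (Fin n) ℂ) (I : Finset (Fin n →₀ ℕ))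
    (i : Fin n) (x : Fin n → ℂ) (h : eval x (pderiv i (inForm f I)) ≠ 0) :
    ∃ v ∈ I, v i ≠ 0 := by
  by_contra hcon
  push Not at hcon
  apply h
  unfold inForm
  rw [map_sum, map_sum]
  refine Finset.sum_eq_zero fun v hv => ?_
  rw [pderiv_monomial, hcon v hv]
  simp

/-- Nondegeneracy for points with some vanishing coordinates. -/
theorem NondegAt.ext0 {f : MvPolynomial (Fin n) ℂ} {I : Finset (Fin n →₀ ℕ)}
    (h : NondegAt f I) {S : Finset (Fin n)} (hS : ∀ v ∈ I, ∀ j ∈ S, v j = 0)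
    {u : {j // j ∉ S} → ℂ} (hu : ∀ j, u j ≠ 0) (h0 : eval (ext0 S u) (inForm f I) = 0) :
    ∃ j, eval (MPb07157.ext0 S u) (pderiv j (inForm f I)) ≠ 0 := by
  let x : Fin n → ℂ := fun j => if h : j ∉ S then u ⟨j, h⟩ else 1
  have hx : ∀ v ∈ I, ∀ j, v j ≠ 0 → x j = MPb07157.ext0 S u j := by
    intro v hv j hj
    have : j ∉ S := fun h2 => hj (hS v hv j h2)
    simp [x, MPb07157.ext0, this]
  obtain ⟨j, hj⟩ := h x (fun j => by
    simp only [x]
    split_ifs with h2
    · exact one_ne_zero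
    · exact hu _) (by rw [eval_inForm_congr f I hx]; exact h0)
  exact ⟨j, by rwa [eval_pderiv_inForm_congr f I j hx] at hj⟩

section

variable {N : ℕ} {f : MvPolynomial (Fin n) ℂ} {a : Fin n → ℕ} {S : Finset (Fin n)}

/-- The leading positions. -/
def epos (hS : ∀ j, j ∉ S → a j < N) (j : {j // j ∉ S}) : Fin n × Fin N :=
  (j.1, ⟨a j.1, hS j.1 j.2⟩)

theorem epos_injective (hS : ∀ j, j ∉ S → a j < N) : Function.Injective (epos hS) := by
  intro i j h
  exact Subtype.ext (congrArg Prod.fst h)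

theorem lead0_eq (hS : ∀ j, j ∉ S → a j < N) (hS' : ∀ j ∈ S, a j = N) (γ : Fin n × Fin N → ℂ) :
    lead0 a γ = ext0 S (fun j => γ (epos hS j)) := by
  funext j
  unfold lead0 ext0 epos
  by_cases h : j ∉ S
  · rw [dif_pos (hS j h), dif_pos h]
  · rw [dif_neg h, dif_neg]
    rw [hS' j (by simpa using h)]
    exact lt_irrefl _

/-- The zero positions. -/
def Zpos (N : ℕ) (a : Fin n → ℕ) : Finset (Fin n × Fin N) :=
  Finset.univ.filter fun p => (p.2 : ℕ) < a p.1

theorem card_Zpos (ha : ∀ j, a j ≤ N) : (Zpos N a).card = ∑ j, a j := by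
  classical
  have h : Zpos N a = (Finset.univ.sigma
      (fun j => Finset.univ.filter fun k : Fin N => (k : ℕ) < a j)).map
      (Equiv.sigmaEquivProd (Fin n) (Fin N)).toEmbedding := by
    ext ⟨i, k⟩
    simp [Zpos]
  rw [h, Finset.card_map, Finset.card_sigma]
  refine Finset.sum_congr rfl fun j _ => ?_
  rw [Fin.card_filter_val_lt]
  have := ha j
  omega

theorem cls_lead (hS : ∀ j, j ∉ S → a j < N) (ha : ∀ j, a j ≤ N)
    {A : Set ({j // j ∉ S} → ℂ)} (hA : IsConstr A) {M : ℕ}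
    (hM : n * N = Fintype.card {j // j ∉ S} + ∑ j, a j + M) :
    cls {γ : Fin n × Fin N → ℂ | Vn a γ ∧ (fun j => γ (epos hS j)) ∈ A} = cls A * L ^ M := by
  rw [← cls_cell (epos hS) (epos_injective hS) A hA (Zpos N a) ?_ M ?_]
  · congr 1
    ext γ
    simp only [Set.mem_ofPred_eq, Vn, Zpos, Finset.mem_filter, Finset.mem_univ, true_and,
      Prod.forall]
    exact and_comm
  · intro j
    simp [Zpos, epos]
  · rw [card_Zpos ha]
    simpa using hM

theorem isConstr_coeff (f : MvPolynomial (Fin n) ℂ) (N k : ℕ) :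
    IsConstr {γ : Fin n × Fin N → ℂ | PowerSeries.coeff k (Fv f γ) = 0} := by
  obtain ⟨P, hP⟩ := exists_coeff_poly (N := N) f k
  have h : {γ : Fin n × Fin N → ℂ | PowerSeries.coeff k (Fv f γ) = 0} = {γ | eval γ P = 0} := by
    ext γ
    simp only [Set.mem_ofPred_eq]
    rw [← hP γ]
    rfl
  rw [h]
  exact isConstr_eq_zero P

theorem isConstr_ext0 (S : Finset (Fin n)) (p : MvPolynomial (Fin n) ℂ) :
    IsConstr {u : {j // j ∉ S} → ℂ | eval (ext0 S u) p = 0} := by
  let φ : Fin n → MvPolynomial {j // j ∉ S} ℂ := fun j => if h : j ∉ S then X ⟨j, h⟩ else 0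
  have h : ∀ u : {j // j ∉ S} → ℂ, polyMap φ u = ext0 S u := by
    intro u
    funext j
    simp only [polyMap, φ, ext0]
    split_ifs <;> simp
  have h2 := (isConstr_eq_zero p).preimage φ
  have h3 : polyMap φ ⁻¹' {x | eval x p = 0} = {u : {j // j ∉ S} → ℂ | eval (ext0 S u) p = 0} := by
    ext u
    simp only [Set.mem_preimage, Set.mem_ofPred_eq, h]
  rwa [h3] at h2

theorem isConstr_torus (S : Finset (Fin n)) :
    IsConstr {u : {j // j ∉ S} → ℂ | ∀ j, u j ≠ 0} := by
  have h := isConstr_forall_mem (σ := {j // j ∉ S}) Finset.univ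
    (fun (j : {j // j ∉ S}) u => u j ≠ 0) (fun j _ => by
      have := isConstr_ne_zero (X j : MvPolynomial {j // j ∉ S} ℂ)
      simpa using this)
  simpa using h

theorem isConstr_XS (f : MvPolynomial (Fin n) ℂ) (I : Finset (Fin n →₀ ℕ)) (S : Finset (Fin n)) :
    IsConstr (XS f I S) :=
  isConstr_setOf_and (isConstr_torus S) (isConstr_ext0 S _)

theorem isConstr_YS (f : MvPolynomial (Fin n) ℂ) (I : Finset (Fin n →₀ ℕ)) (S : Finset (Fin n)) :
    IsConstr (YS f I S) :=
  isConstr_setOf_and (isConstr_torus S) (isConstr_setOf_not (isConstr_ext0 S _))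

/-- The part of `XS` where `∂_{j₀}` is the first nonvanishing partial derivative. -/
def XSj (f : MvPolynomial (Fin n) ℂ) (I : Finset (Fin n →₀ ℕ)) (S : Finset (Fin n))
    (j₀ : Fin n) : Set ({j // j ∉ S} → ℂ) :=
  {u | u ∈ XS f I S ∧ ((∀ j ∈ Finset.univ.filter (· < j₀),
    eval (ext0 S u) (pderiv j (inForm f I)) = 0) ∧
    eval (ext0 S u) (pderiv j₀ (inForm f I)) ≠ 0)}

theorem isConstr_XSj (f : MvPolynomial (Fin n) ℂ) (I : Finset (Fin n →₀ ℕ)) (S : Finset (Fin n))
    (j₀ : Fin n) : IsConstr (XSj f I S j₀) :=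
  isConstr_setOf_and (isConstr_XS f I S) (isConstr_setOf_and
    (isConstr_forall_mem _ _ fun _ _ => isConstr_ext0 S _) (isConstr_setOf_not (isConstr_ext0 S _)))

/-- The arcs with leading coefficients in `XSj` along which `f` vanishes to order `> ν + k`. -/
def BS (f : MvPolynomial (Fin n) ℂ) (N : ℕ) (a : Fin n → ℕ) (ν : ℕ) (I : Finset (Fin n →₀ ℕ))
    (S : Finset (Fin n)) (hS : ∀ j, j ∉ S → a j < N) (j₀ : Fin n) (k : ℕ) :
    Set (Fin n × Fin N → ℂ) :=
  {γ | (Vn a γ ∧ (fun j => γ (epos hS j)) ∈ XSj f I S j₀) ∧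
    ∀ i ∈ Finset.Icc 1 k, PowerSeries.coeff (ν + i) (Fv f γ) = 0}

theorem isConstr_Vn (N : ℕ) (a : Fin n → ℕ) :
    IsConstr {γ : Fin n × Fin N → ℂ | Vn a γ} := by
  have h := isConstr_forall_mem (σ := Fin n × Fin N) (Zpos N a)
    (fun p γ => γ p = 0) (fun p _ => by
      have := isConstr_eq_zero (X p : MvPolynomial (Fin n × Fin N) ℂ)
      simpa using this)
  have h2 : {γ : Fin n × Fin N → ℂ | Vn a γ} = {γ | ∀ p ∈ Zpos N a, γ p = 0} := by
    ext γ
    simp only [Set.mem_ofPred_eq, Vn, Zpos, Finset.mem_filter, Finset.mem_univ, true_and,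
      Prod.forall]
  rw [h2]
  exact h

theorem isConstr_BS (f : MvPolynomial (Fin n) ℂ) (N : ℕ) (a : Fin n → ℕ) (ν : ℕ)
    (I : Finset (Fin n →₀ ℕ)) (S : Finset (Fin n)) (hS : ∀ j, j ∉ S → a j < N) (j₀ : Fin n)
    (k : ℕ) : IsConstr (BS f N a ν I S hS j₀ k) :=
  isConstr_setOf_and (isConstr_setOf_and (isConstr_Vn N a)
    ((isConstr_XSj f I S j₀).reindex (epos hS)))
    (isConstr_forall_mem _ _ fun _ _ => isConstr_coeff f N _)

theorem epos_ne (hS : ∀ j, j ∉ S → a j < N) (j₀ : Fin n) (r : ℕ) (hr : a j₀ + r < N) (h1 : 1 ≤ r)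
    (j : {j // j ∉ S}) : epos hS j ≠ (j₀, ⟨a j₀ + r, hr⟩) := by
  intro h
  have h2 := congrArg Prod.fst h
  have h3 := congrArg (fun p : Fin n × Fin N => (p.2 : ℕ)) h
  simp only [epos] at h2 h3
  rw [h2] at h3
  omega

theorem wt_le_of_ne {a : Fin n → ℕ} {v : Fin n →₀ ℕ} {j : Fin n} (h : v j ≠ 0) : a j ≤ wt a v := by
  unfold wt
  calc a j ≤ a j * v j := Nat.le_mul_of_pos_right _ (Nat.pos_of_ne_zero h)
    _ ≤ _ := Finset.single_le_sum (f := fun j => a j * v j) (fun _ _ => Nat.zero_le _)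
      (Finset.mem_univ j)

theorem hensel_BS {ν : ℕ} (h : IsMinWt f a ν) (hS : ∀ j, j ∉ S → a j < N)
    (hS' : ∀ j ∈ S, a j = N) (j₀ : Fin n) (k : ℕ) (hk : a j₀ + (k + 1) < N) :
    cls (BS f N a ν (face f a ν) S hS j₀ (k + 1)) * L =
      cls (BS f N a ν (face f a ν) S hS j₀ k) ∧
    cls {γ | γ ∈ BS f N a ν (face f a ν) S hS j₀ k ∧
      PowerSeries.coeff (ν + (k + 1)) (Fv f γ) ≠ 0} =
      cls (BS f N a ν (face f a ν) S hS j₀ (k + 1)) * (L - 1) := by
  have hB : {x | x ∈ BS f N a ν (face f a ν) S hS j₀ k ∧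
      PowerSeries.coeff (ν + (k + 1)) (Fv f x) = 0} =
      BS f N a ν (face f a ν) S hS j₀ (k + 1) := by
    ext γ
    simp only [BS, Set.mem_ofPred_eq, Finset.mem_Icc]
    constructor
    · rintro ⟨⟨h1, h2⟩, h3⟩
      refine ⟨h1, fun i hi => ?_⟩
      rcases Nat.lt_or_ge i (k + 1) with h4 | h4
      · exact h2 i ⟨hi.1, by omega⟩
      · rw [show i = k + 1 by omega]; exact h3
    · rintro ⟨h1, h2⟩
      exact ⟨⟨h1, fun i hi => h2 i ⟨hi.1, by omega⟩⟩, h2 (k + 1) ⟨by omega, le_rfl⟩⟩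
  have hup : ∀ γ ∈ BS f N a ν (face f a ν) S hS j₀ k, ∀ c : ℂ,
      Function.update γ (j₀, ⟨a j₀ + (k + 1), hk⟩) (γ (j₀, ⟨a j₀ + (k + 1), hk⟩) + c) ∈
        BS f N a ν (face f a ν) S hS j₀ k := by
    rintro γ ⟨⟨h1, h2⟩, h3⟩ c
    have h4 := coeff_Fv_update h h1 j₀ (k + 1) (by omega) hk c
    refine ⟨⟨Vn_update h1 j₀ (k + 1) hk _, ?_⟩, fun i hi => ?_⟩
    · have : (fun j => Function.update γ (j₀, (⟨a j₀ + (k + 1), hk⟩ : Fin N))
        (γ (j₀, ⟨a j₀ + (k + 1), hk⟩) + c) (epos hS j)) = fun j => γ (epos hS j) := by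
        funext j
        rw [Function.update_of_ne (epos_ne hS j₀ (k + 1) hk (by omega) j)]
      rw [this]
      exact h2
    · rw [h4.1 (ν + i) (by have := (Finset.mem_Icc.1 hi).2; omega)]
      exact h3 i hi
  have key := hensel_step (BS f N a ν (face f a ν) S hS j₀ k) (isConstr_BS f N a ν _ S hS j₀ k)
    (fun γ => PowerSeries.coeff (ν + (k + 1)) (Fv f γ)) (exists_coeff_poly f (ν + (k + 1)))
    (j₀, ⟨a j₀ + (k + 1), hk⟩) hup
    (fun γ => eval (lead0 a γ) (pderiv j₀ (inForm f (face f a ν))))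
    (fun γ hγ => by
      rw [lead0_eq hS hS']
      exact hγ.1.2.2.2)
    (fun γ hγ c => (coeff_Fv_update h hγ.1.1 j₀ (k + 1) (by omega) hk c).2)
  rw [hB] at key
  exact key

theorem cls_BS {ν : ℕ} (h : IsMinWt f a ν) (hS : ∀ j, j ∉ S → a j < N)
    (hS' : ∀ j ∈ S, a j = N) (ha : ∀ j, a j ≤ N) {M : ℕ}
    (hM : n * N = Fintype.card {j // j ∉ S} + ∑ j, a j + M) (j₀ : Fin n) (r : ℕ)
    (hr : a j₀ + r < N) :
    cls (BS f N a ν (face f a ν) S hS j₀ r) * L ^ r =
      cls (XSj f (face f a ν) S j₀) * L ^ M := by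
  induction r with
  | zero =>
    rw [pow_zero, mul_one, ← cls_lead hS ha (isConstr_XSj f _ S j₀) hM]
    congr 1
    ext γ
    simp [BS]
  | succ k ih =>
    rw [pow_succ', ← mul_assoc, (hensel_BS h hS hS' j₀ k hr).1, ih (by omega)]

theorem isConstr_Strat (N : ℕ) (a : Fin n → ℕ) : IsConstr (Strat N a) := by
  refine isConstr_setOf_and (isConstr_Vn N a) ?_
  have h := isConstr_forall_mem (σ := Fin n × Fin N) (Finset.univ : Finset (Fin n))
    (fun j γ => a j < N → lead0 a γ j ≠ 0) (fun j _ => by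
      refine isConstr_setOf_imp (isConstr_const _) ?_
      by_cases hj : a j < N
      · have := isConstr_ne_zero (X (j, ⟨a j, hj⟩) : MvPolynomial (Fin n × Fin N) ℂ)
        simpa [lead0, hj] using this
      · simp only [lead0, dif_neg hj, ne_eq, not_true_eq_false]
        exact isConstr_const False)
  simpa using h

theorem mem_Strat_iff (hS : ∀ j, j ∉ S → a j < N) (hS' : ∀ j ∈ S, a j = N)
    (γ : Fin n × Fin N → ℂ) :
    γ ∈ Strat N a ↔ Vn a γ ∧ ∀ j, γ (epos hS j) ≠ 0 := by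
  unfold Strat
  rw [Set.mem_ofPred_eq, lead0_eq hS hS']
  refine and_congr_right fun _ => ⟨fun h j => ?_, fun h j hj => ?_⟩
  · have := h j.1 (hS j.1 j.2)
    simpa [ext0, j.2] using this
  · have h2 : j ∉ S := fun h3 => by rw [hS' j h3] at hj; exact lt_irrefl _ hj
    simp only [ext0, h2, not_false_eq_true, dif_pos]
    exact h ⟨j, h2⟩

theorem mem_arcs_iff (f : MvPolynomial (Fin n) ℂ) (N m : ℕ) (γ : Fin n × Fin N → ℂ) :
    γ ∈ arcs f N m ↔ PowerSeries.coeff m (Fv f γ) ≠ 0 ∧
      ∀ i < m, PowerSeries.coeff i (Fv f γ) = 0 := by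
  simp only [arcs, Set.mem_ofPred_eq, PowerSeries.order_eq_nat]
  rfl

/-- The class of the arcs in a stratum with minimal order. -/
theorem cls_strat_zero {ν : ℕ} (h : IsMinWt f a ν) (hS : ∀ j, j ∉ S → a j < N)
    (hS' : ∀ j ∈ S, a j = N) (ha : ∀ j, a j ≤ N) {M : ℕ}
    (hM : n * N = Fintype.card {j // j ∉ S} + ∑ j, a j + M) :
    cls (arcs f N ν ∩ Strat N a) = cls (YS f (face f a ν) S) * L ^ M := by
  rw [← cls_lead hS ha (isConstr_YS f _ S) hM]
  congr 1
  ext γ
  rw [Set.mem_inter_iff, mem_arcs_iff, mem_Strat_iff hS hS']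
  simp only [YS, Set.mem_ofPred_eq]
  constructor
  · rintro ⟨⟨h1, h2⟩, h3, h4⟩
    refine ⟨h3, h4, ?_⟩
    rw [← lead0_eq hS hS', ← coeff_Fv_eq h h3]
    exact h1
  · rintro ⟨h3, h4, h5⟩
    rw [← lead0_eq hS hS', ← coeff_Fv_eq h h3] at h5
    exact ⟨⟨h5, fun i hi => coeff_Fv_of_lt h h3 hi⟩, h3, h4⟩

attribute [local irreducible] K0.instCommRing

/-- The class of the arcs in a stratum with larger order. -/
theorem cls_strat_pos {ν : ℕ} (h : IsMinWt f a ν) (hS : ∀ j, j ∉ S → a j < N)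
    (hS' : ∀ j ∈ S, a j = N) (ha : ∀ j, a j ≤ N) {M : ℕ}
    (hM : n * N = Fintype.card {j // j ∉ S} + ∑ j, a j + M)
    (hnd : NondegAt f (face f a ν)) (r : ℕ) (hr : ν + (r + 1) < N) :
    cls (arcs f N (ν + (r + 1)) ∩ Strat N a) * L ^ (r + 1) =
      cls (XS f (face f a ν) S) * L ^ M * (L - 1) := by
  classical
  set I := face f a ν with hI
  -- a coordinate that vanishes does not occur in the initial form
  have hvS : ∀ v ∈ I, ∀ j ∈ S, v j = 0 := by
    intro v hv j hj
    by_contra hne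
    have h1 := wt_le_of_ne (a := a) hne
    rw [hI, face, Finset.mem_filter] at hv
    rw [hv.2, hS' j hj] at h1
    omega
  -- partition of `XS`
  have hXS : XS f I S = ⋃ j₀ ∈ (Finset.univ : Finset (Fin n)), XSj f I S j₀ := by
    ext u
    simp only [Set.mem_iUnion, Finset.mem_univ, exists_prop, true_and]
    constructor
    · intro hu
      obtain ⟨j, hj⟩ := hnd.ext0 hvS hu.1 hu.2
      have hne : (Finset.univ.filter fun j =>
        eval (ext0 S u) (pderiv j (inForm f I)) ≠ 0).Nonempty := ⟨j, by simpa using hj⟩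
      refine ⟨Finset.min' _ hne, hu, fun i hi => ?_, ?_⟩
      · by_contra hcon
        have hmem : i ∈ Finset.univ.filter fun j =>
            eval (ext0 S u) (pderiv j (inForm f I)) ≠ 0 :=
          Finset.mem_filter.2 ⟨Finset.mem_univ i, hcon⟩
        have h1 := Finset.min'_le _ i hmem
        rw [Finset.mem_filter] at hi
        exact absurd hi.2 (not_lt.2 h1)
      · exact (Finset.mem_filter.1 (Finset.min'_mem _ hne)).2
    · rintro ⟨j₀, hu⟩
      exact hu.1
  have hdisj : ∀ i ∈ (Finset.univ : Finset (Fin n)), ∀ j ∈ (Finset.univ : Finset (Fin n)), i ≠ j →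
      Disjoint (XSj f I S i) (XSj f I S j) := by
    intro i _ j _ hij
    rw [Set.disjoint_left]
    rintro u ⟨-, h1, h2⟩ ⟨-, h3, h4⟩
    rcases lt_or_gt_of_ne hij with h5 | h5
    · exact h2 (h3 i (Finset.mem_filter.2 ⟨Finset.mem_univ i, h5⟩))
    · exact h4 (h1 j (Finset.mem_filter.2 ⟨Finset.mem_univ j, h5⟩))
  -- partition of the stratum
  let W : Fin n → Set (Fin n × Fin N → ℂ) := fun j₀ => {γ | γ ∈ BS f N a ν I S hS j₀ r ∧
      PowerSeries.coeff (ν + (r + 1)) (Fv f γ) ≠ 0}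
  have hW : arcs f N (ν + (r + 1)) ∩ Strat N a =
      ⋃ j₀ ∈ (Finset.univ : Finset (Fin n)), W j₀ := by
    ext γ
    rw [Set.mem_inter_iff, mem_arcs_iff, mem_Strat_iff hS hS']
    simp only [Set.mem_iUnion, Finset.mem_univ, exists_prop, true_and, W, Set.mem_ofPred_eq, BS,
      Finset.mem_Icc]
    constructor
    · rintro ⟨⟨h1, h2⟩, h3, h4⟩
      have h5 : (fun j => γ (epos hS j)) ∈ XS f I S := by
        refine ⟨h4, ?_⟩
        rw [← lead0_eq hS hS', ← coeff_Fv_eq h h3]
        exact h2 ν (by omega)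
      rw [hXS] at h5
      simp only [Set.mem_iUnion, Finset.mem_univ, exists_prop, true_and] at h5
      obtain ⟨j₀, h5⟩ := h5
      exact ⟨j₀, ⟨⟨h3, h5⟩, fun i hi => h2 _ (by omega)⟩, h1⟩
    · rintro ⟨j₀, ⟨⟨h1, h2⟩, h3⟩, h4⟩
      refine ⟨⟨h4, fun i hi => ?_⟩, h1, h2.1.1⟩
      rcases lt_trichotomy i ν with h5 | h5 | h5
      · exact coeff_Fv_of_lt h h1 h5
      · rw [h5, coeff_Fv_eq h h1, lead0_eq hS hS']
        exact h2.1.2
      · obtain ⟨k, rfl⟩ := Nat.exists_eq_add_of_lt h5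
        rw [add_assoc]
        exact h3 (k + 1) ⟨by omega, by omega⟩
  have hWc : ∀ j₀ ∈ (Finset.univ : Finset (Fin n)), IsConstr (W j₀) := fun j₀ _ =>
    isConstr_setOf_and (isConstr_BS f N a ν I S hS j₀ r) (isConstr_setOf_not
      (isConstr_coeff f N _))
  have hWd : ∀ i ∈ (Finset.univ : Finset (Fin n)), ∀ j ∈ (Finset.univ : Finset (Fin n)), i ≠ j →
      Disjoint (W i) (W j) := by
    intro i hi j hj hij
    rw [Set.disjoint_left]
    rintro γ ⟨⟨⟨-, h1⟩, -⟩, -⟩ ⟨⟨⟨-, h2⟩, -⟩, -⟩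
    exact Set.disjoint_left.1 (hdisj i hi j hj hij) h1 h2
  rw [hW, cls_biUnion _ _ hWc hWd, hXS,
    cls_biUnion _ _ (fun j _ => isConstr_XSj f I S j) hdisj, Finset.sum_mul, Finset.sum_mul,
    Finset.sum_mul]
  refine Finset.sum_congr rfl fun j₀ _ => ?_
  by_cases hj : a j₀ + (r + 1) < N
  · have h1 := (hensel_BS h hS hS' j₀ r hj).2
    have h2 := cls_BS h hS hS' ha hM j₀ (r + 1) hj
    rw [← hI] at h1 h2
    simp only [W]
    rw [h1, ← h2]
    ring
  · have hX : XSj f I S j₀ = ∅ := by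
      rw [Set.eq_empty_iff_forall_notMem]
      rintro u ⟨-, -, h2⟩
      obtain ⟨v, hv, hne⟩ := exists_of_pderiv_ne f I j₀ _ h2
      have h1 := wt_le_of_ne (a := a) hne
      rw [hI, face, Finset.mem_filter] at hv
      rw [hv.2] at h1
      omega
    have hW0 : W j₀ = ∅ := by
      rw [Set.eq_empty_iff_forall_notMem]
      rintro γ ⟨⟨⟨-, h1⟩, -⟩, -⟩
      rw [hX] at h1
      exact h1
    rw [hX, hW0, cls_empty, cls_empty]
    ring

end

end MPb07157
end
end
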