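import Pool.Agent.Lib.MP_b07157_ag.NewtOp

/-!
# Elements of the formal module are combinations of elements of the polynomial module
-/

noncomputable section

namespace MPb07157

open MvPolynomial

variable {n : ℕ}

theorem derivC_add (i : Fin n) (a b : Polynomial (MvPowerSeries (Fin n) ℂ)) :
    derivC i (a + b) = derivC i a + derivC i b := by
  refine Polynomial.ext fun j => ?_
  rw [Polynomial.coeff_add, coeff_derivC, coeff_derivC, coeff_derivC, Polynomial.coeff_add,
    map_add]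

theorem derivC_zero (i : Fin n) : derivC i (0 : Polynomial (MvPowerSeries (Fin n) ℂ)) = 0 := by
  refine Polynomial.ext fun j => ?_
  rw [coeff_derivC, Polynomial.coeff_zero, map_zero]

theorem derivC_mul (i : Fin n) (a b : Polynomial (MvPowerSeries (Fin n) ℂ)) :
    derivC i (a * b) = derivC i a * b + a * derivC i b := by
  refine Polynomial.ext fun j => ?_
  rw [Polynomial.coeff_add, coeff_derivC, Polynomial.coeff_mul, Polynomial.coeff_mul,
    Polynomial.coeff_mul, map_sum, ← Finset.sum_add_distrib]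
  refine Finset.sum_congr rfl fun p _ => ?_
  rw [coeff_derivC, coeff_derivC, Derivation.leibniz, smul_eq_mul, smul_eq_mul]
  ring

theorem derivC_C (i : Fin n) (a : MvPowerSeries (Fin n) ℂ) :
    derivC i (Polynomial.C a) = Polynomial.C (MvPowerSeries.pderiv ℂ i a) := by
  refine Polynomial.ext fun j => ?_
  rw [coeff_derivC, Polynomial.coeff_C, Polynomial.coeff_C]
  split_ifs <;> simp

/-- The operator `∂_i` on `B f^{s+1-K}`. -/
def dOp (f : MvPolynomial (Fin n) ℂ) (i : Fin n) (K : ℕ)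
    (B : Polynomial (MvPowerSeries (Fin n) ℂ)) : Polynomial (MvPowerSeries (Fin n) ℂ) :=
  Polynomial.C (f : MvPowerSeries (Fin n) ℂ) * derivC i B +
    (Polynomial.X + 1 - (K : Polynomial (MvPowerSeries (Fin n) ℂ))) *
      Polynomial.C ((pderiv i f : MvPolynomial (Fin n) ℂ) : MvPowerSeries (Fin n) ℂ) * B

theorem dOp_add (f : MvPolynomial (Fin n) ℂ) (i : Fin n) (K : ℕ)
    (a b : Polynomial (MvPowerSeries (Fin n) ℂ)) :
    dOp f i K (a + b) = dOp f i K a + dOp f i K b := by
  unfold dOp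
  rw [derivC_add]
  ring

theorem dOp_zero (f : MvPolynomial (Fin n) ℂ) (i : Fin n) (K : ℕ) :
    dOp f i K 0 = 0 := by
  unfold dOp
  rw [derivC_zero]
  ring

theorem dOp_mul (f : MvPolynomial (Fin n) ℂ) (i : Fin n) (K : ℕ)
    (a b : Polynomial (MvPowerSeries (Fin n) ℂ)) :
    dOp f i K (a * b) =
      derivC i a * (Polynomial.C (f : MvPowerSeries (Fin n) ℂ) * b) + a * dOp f i K b := by
  unfold dOp
  rw [derivC_mul]
  ring

/-- Multiplying by a power of `f` changes the exponent. -/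
theorem dOp_pow_mul (f : MvPolynomial (Fin n) ℂ) (i : Fin n) (k m : ℕ)
    (g : Polynomial (MvPowerSeries (Fin n) ℂ)) :
    dOp f i (k + m) (Polynomial.C (f : MvPowerSeries (Fin n) ℂ) ^ m * g) =
      Polynomial.C (f : MvPowerSeries (Fin n) ℂ) ^ m * dOp f i k g := by
  unfold dOp
  rw [derivC_mul, ← Polynomial.C_pow, derivC_C, MvPowerSeries.pderiv_pow, MvPowerSeries.pderiv_coe]
  rcases m with _ | m
  · simp
  · rw [Nat.add_sub_cancel]
    simp only [map_mul, map_pow, Nat.cast_add, Nat.cast_one, map_add, map_one, map_natCast]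
    ring

/-- The span over `ℂ[[x]][s]` of the polynomial module at level `K`. -/
def spanK (f : MvPolynomial (Fin n) ℂ) (K : ℕ) : Ideal (Polynomial (MvPowerSeries (Fin n) ℂ)) :=
  Ideal.span (toForm '' {G | InDn f K G})

theorem toForm_mem_spanK {f : MvPolynomial (Fin n) ℂ} {K : ℕ}
    {G : MvPolynomial (Fin n) (Polynomial ℂ)} (h : InDn f K G) : toForm G ∈ spanK f K :=
  Ideal.subset_span ⟨G, h, rfl⟩

theorem toForm_dOp {f : MvPolynomial (Fin n) ℂ} (i : Fin n) {K : ℕ}
    (G : MvPolynomial (Fin n) (Polynomial ℂ)) :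
    dOp f i K (toForm G) = toForm (liftS f * pderiv i G +
        C (Polynomial.X + 1 - (K : Polynomial ℂ)) * liftS (pderiv i f) * G) := by
  unfold dOp
  rw [map_add, map_mul, map_mul, map_mul, toForm_liftS, toForm_liftS, toForm_pderiv, toForm_C]
  simp only [Polynomial.map_sub, Polynomial.map_add, Polynomial.map_X, Polynomial.map_one,
    Polynomial.map_natCast]

theorem spanK_dOp {f : MvPolynomial (Fin n) ℂ} (i : Fin n) {K : ℕ}
    {B : Polynomial (MvPowerSeries (Fin n) ℂ)} (hB : B ∈ spanK f K) :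
    dOp f i K B ∈ spanK f (K + 1) := by
  unfold spanK at hB
  induction hB using Submodule.span_induction with
  | mem x hx =>
    obtain ⟨G, hG, rfl⟩ := hx
    rw [toForm_dOp]
    exact toForm_mem_spanK (InDn.deriv i hG)
  | zero => rw [dOp_zero]; exact Ideal.zero_mem _
  | add x y _ _ h1 h2 => rw [dOp_add]; exact Ideal.add_mem _ h1 h2
  | smul a x hx h =>
    rw [smul_eq_mul, dOp_mul]
    refine Ideal.add_mem _ (Ideal.mul_mem_left _ _ ?_) (Ideal.mul_mem_left _ _ h)
    clear h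
    induction hx using Submodule.span_induction with
    | mem x hx =>
      obtain ⟨G, hG, rfl⟩ := hx
      rw [← toForm_liftS, ← map_mul]
      exact toForm_mem_spanK (InDn.raise hG)
    | zero => rw [mul_zero]; exact Ideal.zero_mem _
    | add x y _ _ h1 h2 => rw [mul_add]; exact Ideal.add_mem _ h1 h2
    | smul a x _ h =>
      rw [smul_eq_mul, mul_left_comm]
      exact Ideal.mul_mem_left _ _ h

theorem InDn.liftS_pow (f : MvPolynomial (Fin n) ℂ) (K : ℕ) : InDn f K (liftS f ^ K) := by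
  induction K with
  | zero => rw [pow_zero]; exact InDn.base
  | succ K ih => rw [pow_succ, mul_comm]; exact InDn.raise ih

theorem InDnForm.exists_mem_spanK {f : MvPolynomial (Fin n) ℂ} {k : ℕ}
    {g : Polynomial (MvPowerSeries (Fin n) ℂ)} (h : InDnForm f k g) :
    ∃ K₀ : ℕ, ∀ K ≥ K₀, k ≤ K ∧
      Polynomial.C (f : MvPowerSeries (Fin n) ℂ) ^ (K - k) * g ∈ spanK f K := by
  induction h with
  | base =>
    refine ⟨0, fun K _ => ⟨Nat.zero_le _, ?_⟩⟩
    rw [mul_one, Nat.sub_zero, ← toForm_liftS, ← map_pow]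
    exact toForm_mem_spanK (InDn.liftS_pow f K)
  | add _ _ ih1 ih2 =>
    obtain ⟨K₁, h1⟩ := ih1
    obtain ⟨K₂, h2⟩ := ih2
    refine ⟨max K₁ K₂, fun K hK => ⟨(h1 K (le_of_max_le_left hK)).1, ?_⟩⟩
    rw [mul_add]
    exact Ideal.add_mem _ (h1 K (le_of_max_le_left hK)).2 (h2 K (le_of_max_le_right hK)).2
  | mul c _ ih =>
    obtain ⟨K₁, h1⟩ := ih
    refine ⟨K₁, fun K hK => ⟨(h1 K hK).1, ?_⟩⟩
    rw [mul_left_comm]
    exact Ideal.mul_mem_left _ _ (h1 K hK).2
  | @deriv k g i _ ih =>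
    obtain ⟨K₁, h1⟩ := ih
    refine ⟨K₁ + 1, fun K hK => ?_⟩
    obtain ⟨L, rfl⟩ : ∃ L, K = L + 1 := ⟨K - 1, by omega⟩
    obtain ⟨hk, h2⟩ := h1 L (by omega)
    refine ⟨by omega, ?_⟩
    obtain ⟨m, rfl⟩ : ∃ m, L = k + m := ⟨L - k, by omega⟩
    have e1 : k + m + 1 - (k + 1) = m := by omega
    have e2 : k + m - k = m := by omega
    rw [e2] at h2
    rw [e1]
    have h3 := spanK_dOp i h2
    rw [dOp_pow_mul] at h3
    exact h3
  | @raise k g _ ih =>
    obtain ⟨K₁, h1⟩ := ih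
    refine ⟨max K₁ (k + 1), fun K hK => ⟨le_of_max_le_right hK, ?_⟩⟩
    have hk := le_of_max_le_right hK
    have h2 := (h1 K (le_of_max_le_left hK)).2
    have e1 : K - k = (K - (k + 1)) + 1 := by omega
    rw [e1, pow_succ, mul_assoc] at h2
    exact h2
  | @lower k g _ ih =>
    obtain ⟨K₁, h1⟩ := ih
    refine ⟨K₁, fun K hK => ?_⟩
    obtain ⟨hk, h2⟩ := h1 K hK
    refine ⟨by omega, ?_⟩
    have e1 : K - k = (K - (k + 1)) + 1 := by omega
    rw [e1, pow_succ, mul_assoc]
    exact h2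

/-- NWT-13. Elements of the formal module are combinations of elements of the polynomial module. -/
theorem InDnForm.exists_comb {f : MvPolynomial (Fin n) ℂ} {k : ℕ}
    {g : Polynomial (MvPowerSeries (Fin n) ℂ)} (h : InDnForm f k g) :
    ∃ K₀ : ℕ, ∀ K ≥ K₀, k ≤ K ∧ ∃ (m : ℕ) (c : Fin m → Polynomial (MvPowerSeries (Fin n) ℂ))
      (G : Fin m → MvPolynomial (Fin n) (Polynomial ℂ)), (∀ i, InDn f K (G i)) ∧
      Polynomial.C (f : MvPowerSeries (Fin n) ℂ) ^ (K - k) * g = ∑ i, c i * toForm (G i) := by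
  obtain ⟨K₀, h0⟩ := h.exists_mem_spanK
  refine ⟨K₀, fun K hK => ⟨(h0 K hK).1, ?_⟩⟩
  have h1 := (h0 K hK).2
  unfold spanK Ideal.span at h1
  rw [Submodule.mem_span_set'] at h1
  obtain ⟨m, c, G, hG⟩ := h1
  choose H hH using fun i => (G i).2
  refine ⟨m, c, H, fun i => (hH i).1, ?_⟩
  rw [← hG]
  refine Finset.sum_congr rfl fun i _ => ?_
  rw [smul_eq_mul, (hH i).2]

end MPb07157
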