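import Mathlib

/-!
Resonances in two variables.
-/

namespace MPb07157

private theorem newtLem2_aux (a b c d : ℤ) (hb : 0 ≤ b) (ha : 0 ≤ a) (hd : 0 ≤ d)
    (hac : a < c) (hdb : d < b) (h : b * c - a * d ≤ b - a) : c = 1 ∧ a = 0 := by
  have hb1 : 1 ≤ b := by omega
  have hc1 : 1 ≤ c := by omega
  have hc : c = 1 := by
    by_contra hne
    have hc2 : 2 ≤ c := by omega
    have h1 : b * (c - 1) ≤ a * (d - 1) := by linarith
    have h2 : 0 < b * (c - 1) := by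
      apply mul_pos
      · linarith
      · linarith
    have h3 : 0 < d - 1 := by
      by_contra hneg
      have : a * (d - 1) ≤ 0 := by nlinarith
      linarith
    have h4 : a * (d - 1) ≤ (c - 1) * (d - 1) := by
      apply mul_le_mul_of_nonneg_right _ h3.le
      linarith
    have h5 : (c - 1) * (d - 1) ≤ (c - 1) * (b - 2) := by
      apply mul_le_mul_of_nonneg_left _ (by linarith)
      linarith
    nlinarith
  exact ⟨hc, by omega⟩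

/-- NWT-9: resonances in two variables. -/
theorem lem2 (w₁ w₂ N a₁ a₂ b₁ b₂ : ℕ) (hw₁ : 0 < w₁) (hw₂ : 0 < w₂) (hN : 0 < N)
    (ha : w₁ * a₁ + w₂ * a₂ = N) (hb : w₁ * b₁ + w₂ * b₂ = N) (hlt : a₁ < b₁) (x y : ℚ)
    (h1 : x * a₁ + y * b₁ = 1) (h2 : x * a₂ + y * b₂ = 1) :
    ((∀ k : ℕ, x ≠ k + 1) ∨ (a₂ = 1 ∧ b₂ = 0)) ∧ ((∀ k : ℕ, y ≠ k + 1) ∨ (b₁ = 1 ∧ a₁ = 0)) := by
  have hlt2 : b₂ < a₂ := by
    by_contra hge
    have h3 : w₂ * a₂ ≤ w₂ * b₂ := Nat.mul_le_mul_left _ (by omega)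
    have h4 : w₁ * a₁ < w₁ * b₁ := Nat.mul_lt_mul_of_pos_left hlt hw₁
    omega
  have hDn : a₁ * b₂ < a₂ * b₁ := by
    calc a₁ * b₂ ≤ a₁ * a₂ := Nat.mul_le_mul_left _ hlt2.le
      _ = a₂ * a₁ := mul_comm _ _
      _ < a₂ * b₁ := Nat.mul_lt_mul_of_pos_left hlt (by omega)
  have hD : (0 : ℤ) < (a₂ : ℤ) * b₁ - a₁ * b₂ := by
    have : ((a₁ * b₂ : ℕ) : ℤ) < ((a₂ * b₁ : ℕ) : ℤ) := by exact_mod_cast hDn
    push_cast at this
    linarith
  have hy : y * (((a₂ : ℤ) * b₁ - a₁ * b₂ : ℤ) : ℚ) = (((a₂ : ℤ) - a₁ : ℤ) : ℚ) := by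
    push_cast
    linear_combination (a₂ : ℚ) * h1 - (a₁ : ℚ) * h2
  have hx : x * (((a₂ : ℤ) * b₁ - a₁ * b₂ : ℤ) : ℚ) = (((b₁ : ℤ) - b₂ : ℤ) : ℚ) := by
    push_cast
    linear_combination (b₁ : ℚ) * h2 - (b₂ : ℚ) * h1
  constructor
  · by_cases hk : ∀ k : ℕ, x ≠ k + 1
    · exact Or.inl hk
    · right
      push Not at hk
      obtain ⟨k, hk⟩ := hk
      rw [hk] at hx
      have h3 : ((k : ℤ) + 1) * ((a₂ : ℤ) * b₁ - a₁ * b₂) = (b₁ : ℤ) - b₂ := by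
        exact_mod_cast hx
      have h4 : (a₂ : ℤ) * b₁ - a₁ * b₂ ≤ (b₁ : ℤ) - b₂ := by nlinarith
      have h5 := newtLem2_aux (b₂ : ℤ) b₁ a₂ a₁ (by positivity) (by positivity) (by positivity)
        (by exact_mod_cast hlt2) (by exact_mod_cast hlt) (by linarith)
      exact ⟨by exact_mod_cast h5.1, by exact_mod_cast h5.2⟩
  · by_cases hk : ∀ k : ℕ, y ≠ k + 1
    · exact Or.inl hk
    · right
      push Not at hk
      obtain ⟨k, hk⟩ := hk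
      rw [hk] at hy
      have h3 : ((k : ℤ) + 1) * ((a₂ : ℤ) * b₁ - a₁ * b₂) = (a₂ : ℤ) - a₁ := by
        exact_mod_cast hy
      have h4 : (a₂ : ℤ) * b₁ - a₁ * b₂ ≤ (a₂ : ℤ) - a₁ := by nlinarith
      have h5 := newtLem2_aux (a₁ : ℤ) a₂ b₁ b₂ (by positivity) (by positivity) (by positivity)
        (by exact_mod_cast hlt) (by exact_mod_cast hlt2) (by linarith)
      exact ⟨by exact_mod_cast h5.1, by exact_mod_cast h5.2⟩

end MPb07157
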