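import Pool.Agent.Lib.MP_b07157_ag.NewtTriple

/-!
# Resonances of triples of exponents
-/

namespace MPb07157

private theorem lemA_case0 (w0 w1 w2 N : ℕ) (h0 : 0 < w0) (h1 : 0 < w1) (h2 : 0 < w2)
    (a b c : Fin 3 → ℕ)
    (ha : w0 * a 0 + w1 * a 1 + w2 * a 2 = N) (hb : w0 * b 0 + w1 * b 1 + w2 * b 2 = N)
    (hc : w0 * c 0 + w1 * c 1 + w2 * c 2 = N) (hN : 0 < N)
    (hdet : det3 a b c ≠ 0) (hab : ∀ j, a j + b j = 1) : B1like a b c := by
  by_contra hB
  have hB' : ∀ j, ¬ Pat j a b c ∧ ¬ Pat j b c a ∧ ¬ Pat j c a b := by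
    intro j
    refine ⟨fun h => hB ⟨j, Or.inl h⟩, fun h => hB ⟨j, Or.inr (Or.inl h)⟩,
      fun h => hB ⟨j, Or.inr (Or.inr h)⟩⟩
  have hb0 := hab 0
  have hb1 := hab 1
  have hb2 := hab 2
  obtain ⟨p0, q0, r0⟩ := hB' 0
  obtain ⟨p1, q1, r1⟩ := hB' 1
  obtain ⟨p2, q2, r2⟩ := hB' 2
  unfold Pat at *
  unfold det3 at hdet
  generalize a 0 = a0 at *
  generalize a 1 = a1 at *
  generalize a 2 = a2 at *
  generalize b 0 = b0 at *
  generalize b 1 = b1 at *
  generalize b 2 = b2 at *
  generalize c 0 = c0 at *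
  generalize c 1 = c1 at *
  generalize c 2 = c2 at *
  clear hB hB' hab
  have e0 : (a0 = 0 ∧ b0 = 1) ∨ (a0 = 1 ∧ b0 = 0) := by omega
  have e1 : (a1 = 0 ∧ b1 = 1) ∨ (a1 = 1 ∧ b1 = 0) := by omega
  have e2 : (a2 = 0 ∧ b2 = 1) ∨ (a2 = 1 ∧ b2 = 0) := by omega
  -- a point with the weight of a unit vector and a nonzero coordinate there is that vector
  have key : ∀ (u0 u1 u2 d0 d1 d2 : ℕ), 0 < u1 → 0 < u2 → u0 * d0 + u1 * d1 + u2 * d2 = u0 →
      0 < u0 → d0 ≠ 0 → d0 = 1 ∧ d1 = 0 ∧ d2 = 0 := by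
    intro u0 u1 u2 d0 d1 d2 hu1 hu2 h hu0 hd0
    obtain ⟨d, rfl⟩ := Nat.exists_eq_succ_of_ne_zero hd0
    have e : u0 * d + u1 * d1 + u2 * d2 = 0 := by
      have : u0 * (d + 1) = u0 * d + u0 := by ring
      rw [Nat.succ_eq_add_one, this] at h
      omega
    have k0 : u0 * d = 0 := by omega
    have k1 : u1 * d1 = 0 := by omega
    have k2 : u2 * d2 = 0 := by omega
    rcases Nat.mul_eq_zero.1 k0 with k | k <;> rcases Nat.mul_eq_zero.1 k1 with k' | k' <;>
      rcases Nat.mul_eq_zero.1 k2 with k'' | k'' <;> omega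
  rcases e0 with ⟨rfl, rfl⟩ | ⟨rfl, rfl⟩ <;> rcases e1 with ⟨rfl, rfl⟩ | ⟨rfl, rfl⟩ <;>
    rcases e2 with ⟨rfl, rfl⟩ | ⟨rfl, rfl⟩
  · -- a = 0
    omega
  · -- a = e2
    have hc2 : c2 ≠ 0 := by omega
    have := key w2 w0 w1 c2 c0 c1 h0 h1 (by omega) h2 hc2
    obtain ⟨rfl, rfl, rfl⟩ := this
    simp at hdet
  · have hc2 : c1 ≠ 0 := by omega
    have := key w1 w0 w2 c1 c0 c2 h0 h2 (by omega) h1 hc2
    obtain ⟨rfl, rfl, rfl⟩ := this
    simp at hdet
  · -- b = e0
    have hc2 : c0 ≠ 0 := by omega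
    have := key w0 w1 w2 c0 c1 c2 h1 h2 (by omega) h0 hc2
    obtain ⟨rfl, rfl, rfl⟩ := this
    simp at hdet
  · -- a = e0
    have hc2 : c0 ≠ 0 := by omega
    have := key w0 w1 w2 c0 c1 c2 h1 h2 (by omega) h0 hc2
    obtain ⟨rfl, rfl, rfl⟩ := this
    simp at hdet
  · have hc2 : c1 ≠ 0 := by omega
    have := key w1 w0 w2 c1 c0 c2 h0 h2 (by omega) h1 hc2
    obtain ⟨rfl, rfl, rfl⟩ := this
    simp at hdet
  · have hc2 : c2 ≠ 0 := by omega
    have := key w2 w0 w1 c2 c0 c1 h0 h1 (by omega) h2 hc2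
    obtain ⟨rfl, rfl, rfl⟩ := this
    simp at hdet
  · omega

/-- NWT-7a: two positive integral barycentric coordinates force a triple to be B1-like. -/
theorem lemA (w : Fin 3 → ℕ) (hw : ∀ j, 0 < w j) (N : ℕ) (hN : 0 < N) (a b c : Fin 3 → ℕ)
    (ha : ∑ j, w j * a j = N) (hb : ∑ j, w j * b j = N) (hc : ∑ j, w j * c j = N)
    (hdet : det3 a b c ≠ 0) (hB : ¬ B1like a b c) (x y z : ℚ)
    (h : ∀ j, x * a j + y * b j + z * c j = 1) :
    ¬ ((∃ m : ℕ, x = m + 1) ∧ (∃ k : ℕ, y = k + 1)) := by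
  rintro ⟨⟨m, rfl⟩, ⟨k, rfl⟩⟩
  rw [Fin.sum_univ_three] at ha hb hc
  have hw0 := hw 0
  have hw1 := hw 1
  have hw2 := hw 2
  have hB' : ∀ j, ¬ Pat j a b c ∧ ¬ Pat j b c a ∧ ¬ Pat j c a b := by
    intro j
    refine ⟨fun h => hB ⟨j, Or.inl h⟩, fun h => hB ⟨j, Or.inr (Or.inl h)⟩,
      fun h => hB ⟨j, Or.inr (Or.inr h)⟩⟩
  rcases lt_or_ge z 0 with hz | hz
  · -- z < 0
    by_cases hcz : ∃ j, c j = 0
    · obtain ⟨j, hj⟩ := hcz
      have hj' := h j
      rw [hj, Nat.cast_zero, mul_zero, add_zero] at hj'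
      have hj2 : (m + 1) * a j + (k + 1) * b j = 1 := by exact_mod_cast hj'
      have hA : a j = 1 ∧ b j = 0 ∨ a j = 0 ∧ b j = 1 := by
        rcases Nat.eq_zero_or_pos (a j) with h0 | h0
        · right
          refine ⟨h0, ?_⟩
          rw [h0, mul_zero, zero_add] at hj2
          exact (mul_eq_one.1 hj2).2
        · left
          have h1 : 1 ≤ (m + 1) * a j := Nat.mul_pos (by omega) h0
          have h2 : (m + 1) * a j = 1 := by omega
          have h3 : (k + 1) * b j = 0 := by omega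
          refine ⟨(mul_eq_one.1 h2).2, ?_⟩
          rcases Nat.mul_eq_zero.1 h3 with h4 | h4
          · omega
          · exact h4
      rcases hA with ⟨e1, e2⟩ | ⟨e1, e2⟩
      · exact (hB' j).1 ⟨e1, e2, hj⟩
      · exact (hB' j).2.1 ⟨e2, hj, e1⟩
    · push Not at hcz
      -- z = - p / q
      have hq : 0 < z.den := z.den_pos
      have hp : z.num < 0 := Rat.num_neg.2 hz
      obtain ⟨p, hpz⟩ : ∃ p : ℕ, z.num = -(p : ℤ) := ⟨z.num.natAbs, by omega⟩
      have hzq : z * (z.den : ℚ) = -(p : ℚ) := by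
        rw [Rat.mul_den_eq_num, hpz]
        push_cast
        ring
      have hcop : Nat.Coprime p z.den := by
        have := z.reduced
        rw [hpz, Int.natAbs_neg, Int.natAbs_natCast] at this
        exact this
      set q := z.den with hqdef
      -- p c_j = q (.. - 1)
      have hpc : ∀ j, (p : ℤ) * c j = q * ((m + 1) * a j + (k + 1) * b j - 1) := by
        intro j
        have e := h j
        have e2 : (q : ℚ) * ((m + 1) * a j + (k + 1) * b j + z * c j) = q := by rw [e, mul_one]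
        have e3 : (q : ℚ) * ((m + 1) * a j + (k + 1) * b j + z * c j) =
            q * ((m + 1) * a j + (k + 1) * b j) + (z * q) * c j := by ring
        rw [e3, hzq] at e2
        have e4 : (p : ℚ) * c j = q * ((m + 1) * a j + (k + 1) * b j - 1) := by linarith
        exact_mod_cast e4
      have hdiv : ∀ j, q ∣ c j := by
        intro j
        have e : (q : ℤ) ∣ (p : ℤ) * c j := ⟨_, hpc j⟩
        have e2 : q ∣ p * c j := by exact_mod_cast e
        exact (Nat.Coprime.dvd_of_dvd_mul_left hcop.symm e2)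
      choose t ht using hdiv
      have htpos : ∀ j, 1 ≤ t j := by
        intro j
        rcases Nat.eq_zero_or_pos (t j) with h0 | h0
        · exact absurd (by rw [ht j, h0, mul_zero]) (hcz j)
        · exact h0
      have hpt : ∀ j, (p : ℤ) * t j = (m + 1) * a j + (k + 1) * b j - 1 := by
        intro j
        have e := hpc j
        rw [ht j] at e
        have e2 : (q : ℤ) * ((p : ℤ) * t j) = q * ((m + 1) * a j + (k + 1) * b j - 1) := by
          rw [← e]; push_cast; ring
        exact mul_left_cancel₀ (by positivity) e2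
      -- the sums
      have hT : (q : ℤ) * (w 0 * t 0 + w 1 * t 1 + w 2 * t 2) = N := by
        rw [← hc, ht 0, ht 1, ht 2]; push_cast; ring
      have haZ : ((w 0 : ℤ) * a 0 + w 1 * a 1 + w 2 * a 2) = N := by exact_mod_cast ha
      have hbZ : ((w 0 : ℤ) * b 0 + w 1 * b 1 + w 2 * b 2) = N := by exact_mod_cast hb
      set T : ℤ := (w 0 : ℤ) * t 0 + w 1 * t 1 + w 2 * t 2 with hTdef
      have hW : (p : ℤ) * T = (m + k + 2) * N - (w 0 + w 1 + w 2) := by
        have e0 := hpt 0
        have e1 := hpt 1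
        have e2 := hpt 2
        calc (p : ℤ) * T = w 0 * ((p : ℤ) * t 0) + w 1 * ((p : ℤ) * t 1) + w 2 * ((p : ℤ) * t 2) := by
              rw [hTdef]; ring
          _ = (m + 1) * ((w 0 : ℤ) * a 0 + w 1 * a 1 + w 2 * a 2) +
              (k + 1) * ((w 0 : ℤ) * b 0 + w 1 * b 1 + w 2 * b 2) - (w 0 + w 1 + w 2) := by
              rw [e0, e1, e2]; ring
          _ = _ := by rw [haZ, hbZ]; ring
      have hTW : (w 0 : ℤ) + w 1 + w 2 ≤ T := by
        have k0 : (w 0 : ℤ) * 1 ≤ w 0 * t 0 :=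
          mul_le_mul_of_nonneg_left (by exact_mod_cast htpos 0) (by positivity)
        have k1 : (w 1 : ℤ) * 1 ≤ w 1 * t 1 :=
          mul_le_mul_of_nonneg_left (by exact_mod_cast htpos 1) (by positivity)
        have k2 : (w 2 : ℤ) * 1 ≤ w 2 * t 2 :=
          mul_le_mul_of_nonneg_left (by exact_mod_cast htpos 2) (by positivity)
        rw [hTdef]; linarith
      have hWpos : (0 : ℤ) < (w 0 : ℤ) + w 1 + w 2 := by
        have : (0 : ℤ) < w 0 := by exact_mod_cast hw0
        positivity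
      have hTpos : 0 < T := lt_of_lt_of_le hWpos hTW
      have hfac : ((w 0 : ℤ) + w 1 + w 2) = ((m + k + 2) * q - p) * T := by
        rw [← hT] at hW
        linarith
      have hone : ((m + k + 2) * q - p : ℤ) = 1 := by
        have h1 : 0 < ((m + k + 2) * q - p : ℤ) := by
          rw [hfac] at hWpos
          exact pos_of_mul_pos_left hWpos hTpos.le
        have h2 : ((m + k + 2) * q - p : ℤ) ≤ 1 := by
          by_contra hcon
          push Not at hcon
          have : 2 * T ≤ ((m + k + 2) * q - p : ℤ) * T :=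
            mul_le_mul_of_nonneg_right (by omega) hTpos.le
          rw [← hfac] at this
          linarith
        omega
      have hTeq : T = (w 0 : ℤ) + w 1 + w 2 := by
        rw [hone, one_mul] at hfac
        exact hfac.symm
      have ht1 : ∀ j, t j = 1 := by
        have hle : ∀ j, (w j : ℤ) * 1 ≤ w j * t j := fun j =>
          mul_le_mul_of_nonneg_left (by exact_mod_cast htpos j) (by positivity)
        have l0 := hle 0
        have l1 := hle 1
        have l2 := hle 2
        have g : ∀ j, (w j : ℤ) * t j = w j * 1 → t j = 1 := by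
          intro j e
          have hwj : (w j : ℤ) ≠ 0 := by
            have := hw j
            exact_mod_cast this.ne'
          have := mul_left_cancel₀ hwj e
          exact_mod_cast this
        rw [hTdef] at hTeq
        intro j
        apply g
        fin_cases j
        · show (w 0 : ℤ) * t 0 = w 0 * 1
          linarith
        · show (w 1 : ℤ) * t 1 = w 1 * 1
          linarith
        · show (w 2 : ℤ) * t 2 = w 2 * 1
          linarith
      have hlin : ∀ j, ((m : ℤ) + 1) * a j = (m + k + 2) * c j - (k + 1) * b j := by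
        intro j
        have e := hpt j
        rw [ht1 j] at e
        have e2 := ht j
        rw [ht1 j, mul_one] at e2
        rw [e2]
        push_cast at e ⊢
        linarith
      have hz0 : ((m : ℤ) + 1) * det3 a b c = 0 := by
        have e0 := hlin 0
        have e1 := hlin 1
        have e2 := hlin 2
        unfold det3
        calc ((m : ℤ) + 1) * ((a 0 : ℤ) * ((b 1 : ℤ) * c 2 - (b 2 : ℤ) * c 1) -
              (a 1 : ℤ) * ((b 0 : ℤ) * c 2 - (b 2 : ℤ) * c 0) +
              (a 2 : ℤ) * ((b 0 : ℤ) * c 1 - (b 1 : ℤ) * c 0)) =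
            (((m : ℤ) + 1) * (a 0 : ℤ)) * ((b 1 : ℤ) * c 2 - (b 2 : ℤ) * c 1) -
              (((m : ℤ) + 1) * (a 1 : ℤ)) * ((b 0 : ℤ) * c 2 - (b 2 : ℤ) * c 0) +
              (((m : ℤ) + 1) * (a 2 : ℤ)) * ((b 0 : ℤ) * c 1 - (b 1 : ℤ) * c 0) := by ring
          _ = 0 := by rw [e0, e1, e2]; ring
      rcases mul_eq_zero.1 hz0 with h1 | h1
      · have : (0 : ℤ) < m + 1 := by positivity
        omega
      · exact hdet h1
  · -- z ≥ 0
    have hpa : ∀ j, 1 ≤ a j → m = 0 ∧ a j = 1 ∧ b j = 0 ∧ z * c j = 0 := by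
      intro j hj
      have e := h j
      have h1 : (0 : ℚ) ≤ z * c j := by positivity
      have h2 : (0 : ℚ) ≤ ((k : ℚ) + 1) * b j := by positivity
      have h3 : ((m : ℚ) + 1) * a j ≤ 1 := by linarith
      have h4 : (m + 1) * a j ≤ 1 := by exact_mod_cast h3
      have h5 : 1 ≤ (m + 1) * a j := Nat.mul_pos (by omega) hj
      have h6 : (m + 1) * a j = 1 := by omega
      obtain ⟨h7, h8⟩ := mul_eq_one.1 h6
      have h9 : ((m : ℚ) + 1) * a j = 1 := by exact_mod_cast h6
      have h10 : ((k : ℚ) + 1) * b j = 0 := by linarith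
      have h11 : z * c j = 0 := by linarith
      refine ⟨by omega, h8, ?_, h11⟩
      have h12 : (k + 1) * b j = 0 := by exact_mod_cast h10
      rcases Nat.mul_eq_zero.1 h12 with h13 | h13
      · omega
      · exact h13
    have hpb : ∀ j, 1 ≤ b j → k = 0 := by
      intro j hj
      have e := h j
      have h1 : (0 : ℚ) ≤ z * c j := by positivity
      have h2 : (0 : ℚ) ≤ ((m : ℚ) + 1) * a j := by positivity
      have h3 : ((k : ℚ) + 1) * b j ≤ 1 := by linarith
      have h4 : (k + 1) * b j ≤ 1 := by exact_mod_cast h3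
      have h5 : 1 ≤ (k + 1) * b j := Nat.mul_pos (by omega) hj
      have h6 : (k + 1) * b j = 1 := by omega
      obtain ⟨h7, h8⟩ := mul_eq_one.1 h6
      omega
    have hexa : ∃ j, 1 ≤ a j := by
      by_contra hcon
      push Not at hcon
      have a0 := hcon 0
      have a1 := hcon 1
      have a2 := hcon 2
      have a0' : a 0 = 0 := by omega
      have a1' : a 1 = 0 := by omega
      have a2' : a 2 = 0 := by omega
      rw [a0', a1', a2'] at ha
      omega
    have hexb : ∃ j, 1 ≤ b j := by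
      by_contra hcon
      push Not at hcon
      have a0 := hcon 0
      have a1 := hcon 1
      have a2 := hcon 2
      have a0' : b 0 = 0 := by omega
      have a1' : b 1 = 0 := by omega
      have a2' : b 2 = 0 := by omega
      rw [a0', a1', a2'] at hb
      omega
    obtain ⟨j, hj⟩ := hexa
    obtain ⟨i, hi⟩ := hexb
    obtain ⟨hm, haj, hbj, hzc⟩ := hpa j hj
    have hk := hpb i hi
    rcases eq_or_lt_of_le hz with hz0 | hz0
    · have hab : ∀ j, a j + b j = 1 := by
        intro l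
        have e := h l
        rw [hm, hk, ← hz0] at e
        push_cast at e
        have e2 : (a l : ℚ) + b l = 1 := by linarith
        exact_mod_cast e2
      exact hB (lemA_case0 (w 0) (w 1) (w 2) N hw0 hw1 hw2 a b c ha hb hc hN hdet hab)
    · rcases mul_eq_zero.1 hzc with h1 | h1
      · exact absurd h1 hz0.ne'
      · exact (hB' j).1 ⟨haj, hbj, by exact_mod_cast h1⟩

/-- NWT-7b: a nonnegative dual vector with integral sum gives a pattern. -/
theorem lemA' (a b c : Fin 3 → ℕ) (hdet : det3 a b c ≠ 0) (p : Fin 3 → ℚ) (hp : ∀ j, 0 ≤ p j)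
    (ha : ∑ j, p j * a j = 1) (hb : ∑ j, p j * b j = 0) (hc : ∑ j, p j * c j = 0)
    (m : ℕ) (hm : ∑ j, p j = m) : ∃ j, Pat j a b c := by
  rw [Fin.sum_univ_three] at ha hb hc hm
  have hz : ∀ (d : Fin 3 → ℕ), p 0 * d 0 + p 1 * d 1 + p 2 * d 2 = 0 → ∀ j, p j ≠ 0 → d j = 0 := by
    intro d hd j hj
    have h0 : 0 ≤ p 0 * d 0 := mul_nonneg (hp 0) (by positivity)
    have h1 : 0 ≤ p 1 * d 1 := mul_nonneg (hp 1) (by positivity)
    have h2 : 0 ≤ p 2 * d 2 := mul_nonneg (hp 2) (by positivity)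
    have e : p j * d j = 0 := by
      fin_cases j
      · show p 0 * d 0 = 0
        linarith
      · show p 1 * d 1 = 0
        linarith
      · show p 2 * d 2 = 0
        linarith
    rcases mul_eq_zero.1 e with h3 | h3
    · exact absurd h3 hj
    · exact_mod_cast h3
  have hzb := hz b hb
  have hzc := hz c hc
  -- at most one coordinate of p is nonzero
  have h01 : p 0 = 0 ∨ p 1 = 0 := by
    by_contra hcon
    push Not at hcon
    apply hdet
    unfold det3
    rw [hzb 0 hcon.1, hzb 1 hcon.2, hzc 0 hcon.1, hzc 1 hcon.2]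
    push_cast
    ring
  have h02 : p 0 = 0 ∨ p 2 = 0 := by
    by_contra hcon
    push Not at hcon
    apply hdet
    unfold det3
    rw [hzb 0 hcon.1, hzb 2 hcon.2, hzc 0 hcon.1, hzc 2 hcon.2]
    push_cast
    ring
  have h12 : p 1 = 0 ∨ p 2 = 0 := by
    by_contra hcon
    push Not at hcon
    apply hdet
    unfold det3
    rw [hzb 1 hcon.1, hzb 2 hcon.2, hzc 1 hcon.1, hzc 2 hcon.2]
    push_cast
    ring
  have fin : ∀ j, p j = m → p j * a j = 1 → Pat j a b c := by
    intro j hj h1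
    have hne : p j ≠ 0 := by
      intro h0
      rw [h0, zero_mul] at h1
      exact zero_ne_one h1
    rw [hj] at h1
    have h2 : m * a j = 1 := by exact_mod_cast h1
    exact ⟨(mul_eq_one.1 h2).2, hzb j hne, hzc j hne⟩
  by_cases h0 : p 0 = 0
  · by_cases h1 : p 1 = 0
    · refine ⟨2, fin 2 ?_ ?_⟩
      · rw [h0, h1] at hm; linarith
      · rw [h0, h1] at ha; linarith
    · have h2 : p 2 = 0 := h12.resolve_left h1
      refine ⟨1, fin 1 ?_ ?_⟩
      · rw [h0, h2] at hm; linarith
      · rw [h0, h2] at ha; linarith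
  · have h1 : p 1 = 0 := h01.resolve_left h0
    have h2 : p 2 = 0 := h02.resolve_left h0
    refine ⟨0, fin 0 ?_ ?_⟩
    · rw [h1, h2] at hm; linarith
    · rw [h1, h2] at ha; linarith

end MPb07157
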