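import Pool.Agent.Lib.MP_b07157_ag.NewtDefs

/-!
# Generating functions of polyhedral sets are regular
-/

noncomputable section

namespace MPb07157

open Finset

section Poly

variable {G ι : Type} [AddCommGroup G] [Fintype ι] (lam : ι → G →+ ℤ)

theorem genF_empty (mu nu : G →+ ℤ) : genF mu nu (∅ : Set G) = 0 := by
  ext m
  simp [genF]

theorem genF_union (mu nu : G →+ ℤ) {Q R : Set G} (hd : Disjoint Q R)
    (hQ : ∀ m : ℤ, {z ∈ Q | mu z = m}.Finite) (hR : ∀ m : ℤ, {z ∈ R | mu z = m}.Finite) :
    genF mu nu (Q ∪ R) = genF mu nu Q + genF mu nu R := by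
  ext m
  simp only [genF, PowerSeries.coeff_mk, map_add]
  have : {z ∈ Q ∪ R | mu z = m} = {z ∈ Q | mu z = m} ∪ {z ∈ R | mu z = m} := by
    ext z
    simp only [Set.mem_ofPred_eq, Set.mem_union]
    tauto
  rw [this, finsum_mem_union _ (hQ m) (hR m)]
  rw [Set.disjoint_left] at hd ⊢
  intro z hz hz'
  exact hd hz.1 hz'.1

theorem genF_singleton (mu nu : G →+ ℤ) (z : G) (hz : 0 ≤ mu z) :
    genF mu nu {z} = PowerSeries.C ((LU ^ (-(nu z)) : Motˣ) : Mot) *
      PowerSeries.X ^ (mu z).toNat := by
  ext m
  rw [PowerSeries.coeff_C_mul, PowerSeries.coeff_X_pow]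
  simp only [genF, PowerSeries.coeff_mk]
  by_cases h : mu z = m
  · have : {y ∈ ({z} : Set G) | mu y = m} = {z} := by
      ext y
      simp only [Set.mem_ofPred_eq, Set.mem_singleton_iff]
      constructor
      · exact fun h => h.1
      · rintro rfl
        exact ⟨rfl, h⟩
    rw [this, finsum_mem_singleton, if_pos (by omega), mul_one]
  · have : {y ∈ ({z} : Set G) | mu y = m} = ∅ := by
      ext y
      simp only [Set.mem_ofPred_eq, Set.mem_singleton_iff, Set.mem_empty_iff_false, iff_false,
        not_and]
      rintro rfl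
      exact h
    rw [this, finsum_mem_empty, if_neg (by omega), mul_zero]

theorem X_mem_regularAt (s₀ : ℚ) : (PowerSeries.X : PowerSeries Mot) ∈ regularAt s₀ :=
  Algebra.subset_adjoin (Or.inl rfl)

theorem C_mem_regularAt (s₀ : ℚ) (a : Mot) : (PowerSeries.C a : PowerSeries Mot) ∈ regularAt s₀ :=
  (regularAt s₀).algebraMap_mem a

theorem genF_finite (mu nu : G →+ ℤ) (s₀ : ℚ) (Q : Set G) (hQ : Q.Finite)
    (hpos : ∀ z ∈ Q, 0 ≤ mu z) : genF mu nu Q ∈ regularAt s₀ := by
  induction Q, hQ using Set.Finite.induction_on with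
  | empty => rw [genF_empty]; exact zero_mem _
  | @insert z Q hz hQ ih =>
    rw [Set.insert_eq, genF_union mu nu (Set.disjoint_singleton_left.2 hz)
      (fun m => (Set.finite_singleton z).subset fun y hy => hy.1)
      (fun m => hQ.subset fun y hy => hy.1),
      genF_singleton mu nu z (hpos z (Set.mem_insert _ _))]
    exact add_mem (mul_mem (C_mem_regularAt _ _) (pow_mem (X_mem_regularAt _) _))
      (ih fun y hy => hpos y (Set.mem_insert_of_mem _ hy))

theorem genF_translate (mu nu : G →+ ℤ) (Q : Set G) (w : G) (hw : 0 ≤ mu w)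
    (hpos : ∀ z ∈ Q, 0 ≤ mu z) (hfin : ∀ m : ℤ, {z ∈ Q | mu z = m}.Finite) :
    genF mu nu {z | z - w ∈ Q} = PowerSeries.C ((LU ^ (-(nu w)) : Motˣ) : Mot) *
      PowerSeries.X ^ (mu w).toNat * genF mu nu Q := by
  ext m
  rw [mul_assoc, PowerSeries.coeff_C_mul, PowerSeries.coeff_X_pow_mul']
  simp only [genF, PowerSeries.coeff_mk]
  split_ifs with h
  · have h1 : {z ∈ {z | z - w ∈ Q} | mu z = m} =
        (fun z => z + w) '' {z ∈ Q | mu z = ((m - (mu w).toNat : ℕ) : ℤ)} := by
      ext z
      simp only [Set.mem_ofPred_eq, Set.mem_image]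
      constructor
      · rintro ⟨hz, hm⟩
        refine ⟨z - w, ⟨hz, ?_⟩, by abel⟩
        rw [map_sub, hm]
        omega
      · rintro ⟨y, ⟨hy, hm⟩, rfl⟩
        refine ⟨by simpa using hy, ?_⟩
        rw [map_add, hm]
        omega
    rw [h1, finsum_mem_image (fun a _ b _ hab => add_right_cancel hab), mul_finsum_mem' _ _ (hfin _)]
    refine finsum_mem_congr rfl fun z _ => ?_
    rw [map_add, neg_add, zpow_add, Units.val_mul, mul_comm]
  · have h1 : {z ∈ {z | z - w ∈ Q} | mu z = m} = ∅ := by
      ext z
      simp only [Set.mem_ofPred_eq, Set.mem_empty_iff_false, iff_false, not_and]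
      intro hz hm
      have := hpos _ hz
      rw [map_sub, hm] at this
      omega
    rw [h1, finsum_mem_empty, mul_zero]

omit [Fintype ι] in
theorem PSet_mono_E {c : ι → ℤ} {E F : Finset ι} (h : E ⊆ F) : PSet lam c F ⊆ PSet lam c E :=
  fun _ hz => ⟨hz.1, fun k hk => hz.2 k (h hk)⟩

omit [Fintype ι] in
theorem MaxTight.of_insert [DecidableEq ι] {E : Finset ι} {k : ι} {z : G}
    (hz : MaxTight lam (insert k E) z) : MaxTight lam E z := by
  obtain ⟨h0, h1, h2⟩ := hz
  refine ⟨h0, PSet_mono_E lam (Finset.subset_insert k E) h1, fun y hy hy0 hzy => ?_⟩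
  refine h2 y ⟨hy.1, fun j hj => ?_⟩ hy0 hzy
  simpa using hzy j (by simpa using h1.2 j hj)

/-- the recession cone is trivial: the polyhedral set is finite. -/
theorem PSet_finite (c : ι → ℤ) (E : Finset ι)
    (h : ∀ z ∈ PSet lam 0 E, z = 0) : (PSet lam c E).Finite := by
  by_contra hinf
  have hinf : (PSet lam c E).Infinite := hinf
  let e := Set.Infinite.natEmbedding _ hinf
  let f : ℕ → G := fun n => (e n : G)
  have hf : ∀ n, f n ∈ PSet lam c E := fun n => (e n).2
  have hfi : Function.Injective f := fun a b hab => e.injective (Subtype.ext hab)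
  let g : ℕ → ι → ℕ := fun n k => (lam k (f n) - c k).toNat
  obtain ⟨m, n, hmn, hle⟩ := wellQuasiOrdered_le g
  have h1 : f n - f m ∈ PSet lam 0 E := by
    refine ⟨fun k => ?_, fun k hk => ?_⟩
    · have h2 := hle k
      have h3 := (hf m).1 k
      have h4 := (hf n).1 k
      simp only [g] at h2
      rw [map_sub]
      simp only [Pi.zero_apply]
      omega
    · rw [map_sub, (hf n).2 k hk, (hf m).2 k hk]
      simp
  exact hmn.ne' (hfi (sub_eq_zero.1 (h _ h1)))

omit [Fintype ι] in
theorem PSet_split [DecidableEq ι] (c : ι → ℤ) (E : Finset ι) (k : ι) (hk : k ∉ E) :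
    PSet lam c E = PSet lam (Function.update c k (c k + 1)) E ∪ PSet lam c (insert k E) := by
  ext z
  simp only [PSet, Set.mem_union, Set.mem_ofPred_eq]
  constructor
  · rintro ⟨h1, h2⟩
    by_cases hz : lam k z = c k
    · right
      refine ⟨h1, fun j hj => ?_⟩
      rcases Finset.mem_insert.1 hj with rfl | hj
      · exact hz
      · exact h2 j hj
    · left
      refine ⟨fun j => ?_, fun j hj => ?_⟩
      · by_cases hjk : j = k
        · subst hjk
          rw [Function.update_self]
          have := h1 j
          omega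
        · rw [Function.update_of_ne hjk]
          exact h1 j
      · rw [Function.update_of_ne (by rintro rfl; exact hk hj)]
        exact h2 j hj
  · rintro (⟨h1, h2⟩ | ⟨h1, h2⟩)
    · refine ⟨fun j => ?_, fun j hj => ?_⟩
      · have := h1 j
        by_cases hjk : j = k
        · subst hjk
          rw [Function.update_self] at this
          omega
        · rwa [Function.update_of_ne hjk] at this
      · have := h2 j hj
        rwa [Function.update_of_ne (by rintro rfl; exact hk hj)] at this
    · exact ⟨h1, fun j hj => h2 j (Finset.mem_insert_of_mem hj)⟩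

omit [Fintype ι] in
theorem PSet_split_disjoint [DecidableEq ι] (c : ι → ℤ) (E : Finset ι) (k : ι) :
    Disjoint (PSet lam (Function.update c k (c k + 1)) E) (PSet lam c (insert k E)) := by
  rw [Set.disjoint_left]
  rintro z ⟨h1, -⟩ ⟨-, h2⟩
  have h3 := h1 k
  rw [Function.update_self, h2 k (Finset.mem_insert_self _ _)] at h3
  omega

/-- The generating function of a polyhedral set is regular at `s₀` unless an extremal ray of its
recession cone contributes the candidate pole `s₀`. -/
theorem genF_mem_regularAt (hinj : ∀ z, (∀ k, lam k z = 0) → z = 0) (mu nu : G →+ ℤ) (s₀ : ℚ)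
    (c : ι → ℤ) (E : Finset ι)
    (hpos : ∀ z ∈ PSet lam c E, 0 ≤ mu z)
    (hfin : ∀ m : ℤ, {z ∈ PSet lam c E | mu z = m}.Finite)
    (hray : ∀ z, MaxTight lam E z → (nu z : ℚ) ≠ -s₀ * mu z) :
    genF mu nu (PSet lam c E) ∈ regularAt s₀ := by
  classical
  induction hN : (Eᶜ).card using Nat.strong_induction_on generalizing E c with
  | _ N IH =>
  subst hN
  -- the statement for `insert k E`
  have IH' : ∀ (c : ι → ℤ) (k : ι), k ∉ E → (∀ z ∈ PSet lam c E, 0 ≤ mu z) →
      (∀ m : ℤ, {z ∈ PSet lam c E | mu z = m}.Finite) →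
      genF mu nu (PSet lam c (insert k E)) ∈ regularAt s₀ := by
    intro c k hk hpos hfin
    have hsub := PSet_mono_E lam (c := c) (Finset.subset_insert k E)
    refine IH _ ?_ c (insert k E) (fun z hz => hpos z (hsub hz))
      (fun m => (hfin m).subset fun z hz => ⟨hsub hz.1, hz.2⟩)
      (fun z hz => hray z (MaxTight.of_insert lam hz)) rfl
    apply Finset.card_lt_card
    rw [Finset.ssubset_iff_of_subset (by
      intro j hj
      simp only [Finset.mem_compl, Finset.mem_insert, not_or] at hj ⊢
      exact hj.2)]
    exact ⟨k, by simpa using hk, by simp⟩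
  -- comparison of `F(c, E)` and `F(c', E)`
  have hcomp : ∀ (N : ℕ) (c c' : ι → ℤ), (∀ k, c k ≤ c' k) → (∀ k ∈ E, c' k = c k) →
      (∑ k, (c' k - c k)).toNat = N →
      (∀ z ∈ PSet lam c E, 0 ≤ mu z) → (∀ m : ℤ, {z ∈ PSet lam c E | mu z = m}.Finite) →
      genF mu nu (PSet lam c E) - genF mu nu (PSet lam c' E) ∈ regularAt s₀ := by
    intro N
    induction N with
    | zero =>
      intro c c' hcc hE hN hpos hfin
      have h0 : ∑ k, (c' k - c k) ≤ 0 := by omega
      have h1 : ∀ k, c' k = c k := by
        intro k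
        have h2 : c' k - c k ≤ ∑ k, (c' k - c k) :=
          Finset.single_le_sum (f := fun k => c' k - c k) (fun j _ => sub_nonneg.2 (hcc j))
            (Finset.mem_univ k)
        have := hcc k
        omega
      have h2 : c' = c := funext h1
      rw [h2, sub_self]
      exact zero_mem _
    | succ N ihN =>
      intro c c' hcc hE hN hpos hfin
      have h0 : ∃ k, c k < c' k := by
        by_contra hcon
        push Not at hcon
        have h1 : ∑ k, (c' k - c k) ≤ 0 :=
          Finset.sum_nonpos fun k _ => by have := hcon k; omega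
        omega
      obtain ⟨k, hk⟩ := h0
      have hkE : k ∉ E := fun h => by have := hE k h; omega
      have hsplit := PSet_split lam c E k hkE
      have hsub1 : PSet lam (Function.update c k (c k + 1)) E ⊆ PSet lam c E := by
        rw [hsplit]; exact Set.subset_union_left
      have hsub2 : PSet lam c (insert k E) ⊆ PSet lam c E := by
        conv_rhs => rw [hsplit]
        exact Set.subset_union_right
      have h3 := genF_union mu nu (PSet_split_disjoint lam c E k)
        (fun m => (hfin m).subset fun z hz => ⟨hsub1 hz.1, hz.2⟩)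
        (fun m => (hfin m).subset fun z hz => ⟨hsub2 hz.1, hz.2⟩)
      rw [← hsplit] at h3
      have h4 := ihN (Function.update c k (c k + 1)) c' (fun j => by
          by_cases hjk : j = k
          · subst hjk
            rw [Function.update_self]
            omega
          · rw [Function.update_of_ne hjk]
            exact hcc j) (fun j hj => by
          rw [Function.update_of_ne (by rintro rfl; exact hkE hj)]
          exact hE j hj) (by
          have h5 : ∑ j, (c' j - Function.update c k (c k + 1) j) = ∑ j, (c' j - c j) - 1 := by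
            rw [← Finset.add_sum_erase _ _ (Finset.mem_univ k),
              ← Finset.add_sum_erase (Finset.univ) (fun j => c' j - c j) (Finset.mem_univ k),
              Function.update_self, Finset.sum_congr rfl (g := fun j => c' j - c j)]
            · ring
            · intro j hj
              rw [Function.update_of_ne (Finset.ne_of_mem_erase hj)]
          omega) (fun z hz => hpos z (hsub1 hz))
        (fun m => (hfin m).subset fun z hz => ⟨hsub1 hz.1, hz.2⟩)
      have h5 := IH' c k hkE hpos hfin
      have h6 : genF mu nu (PSet lam c E) - genF mu nu (PSet lam c' E) =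
          (genF mu nu (PSet lam (Function.update c k (c k + 1)) E) -
            genF mu nu (PSet lam c' E)) + genF mu nu (PSet lam c (insert k E)) := by
        rw [h3]; ring
      rw [h6]
      exact add_mem h4 h5
  -- main argument
  rcases Set.eq_empty_or_nonempty (PSet lam c E) with hemp | ⟨q, hq⟩
  · rw [hemp, genF_empty]
    exact zero_mem _
  by_cases hcone : ∀ z ∈ PSet lam 0 E, z = 0
  · exact genF_finite mu nu s₀ _ (PSet_finite lam c E hcone) hpos
  push Not at hcone
  -- a vector with maximal tight set
  obtain ⟨w, hw⟩ : ∃ w, MaxTight lam E w := by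
    let S : Set ℕ := {n | ∃ z ∈ PSet lam 0 E, z ≠ 0 ∧ (univ.filter fun k => lam k z ≠ 0).card = n}
    have hS : S.Nonempty := by
      obtain ⟨z, hz, hz0⟩ := hcone
      exact ⟨_, z, hz, hz0, rfl⟩
    obtain ⟨w, hw, hw0, hwc⟩ := Nat.sInf_mem hS
    refine ⟨w, hw0, hw, fun y hy hy0 hwy k hk => ?_⟩
    by_contra hne
    have h1 : (univ.filter fun k => lam k y ≠ 0).card < (univ.filter fun k => lam k w ≠ 0).card := by
      apply Finset.card_lt_card
      rw [Finset.ssubset_iff_of_subset (by
        intro j hj
        simp only [Finset.mem_filter, Finset.mem_univ, true_and] at hj ⊢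
        exact fun h => hj (hwy j h))]
      exact ⟨k, by simpa using hne, by simpa using hk⟩
    have h2 : sInf S ≤ (univ.filter fun k => lam k y ≠ 0).card := Nat.sInf_le ⟨y, hy, hy0, rfl⟩
    omega
  have hw0 := hw.1
  have hwc := hw.2.1
  -- `q + m • w` lies in the set
  have hqm : ∀ m : ℕ, q + m • w ∈ PSet lam c E := by
    intro m
    refine ⟨fun k => ?_, fun k hk => ?_⟩
    · rw [map_add, map_nsmul]
      have h1 := hq.1 k
      have h2 := hwc.1 k
      simp only [Pi.zero_apply] at h2
      have h3 : 0 ≤ m • lam k w := nsmul_nonneg h2 m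
      omega
    · rw [map_add, map_nsmul, hq.2 k hk, hwc.2 k hk]
      simp
  have hminj : Function.Injective fun m : ℕ => q + m • w := by
    intro a b hab
    have h1 : a • w = b • w := add_left_cancel hab
    have h2 : ∃ k, lam k w ≠ 0 := by
      by_contra hcon
      push Not at hcon
      exact hw0 (hinj w hcon)
    obtain ⟨k, hk⟩ := h2
    have h3 : lam k (a • w) = lam k (b • w) := by rw [h1]
    rw [map_nsmul, map_nsmul, nsmul_eq_mul, nsmul_eq_mul] at h3
    exact_mod_cast mul_right_cancel₀ hk h3
  have hmu : 0 < mu w := by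
    rcases lt_trichotomy (mu w) 0 with h | h | h
    · exfalso
      have h1 := hpos _ (hqm (mu q + 1).toNat)
      have h2 := hpos _ hq
      rw [map_add, map_nsmul, nsmul_eq_mul] at h1
      have h3 : ((mu q + 1).toNat : ℤ) = mu q + 1 := Int.toNat_of_nonneg (by omega)
      rw [h3] at h1
      nlinarith
    · exfalso
      refine Set.infinite_of_injective_forall_mem hminj (fun m => ?_) (hfin (mu q))
      refine ⟨hqm m, ?_⟩
      rw [map_add, map_nsmul, h]
      simp
    · exact h
  -- the shift by `w`
  have hc' := hcomp _ c (fun k => c k + lam k w) (fun k => by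
      have := hwc.1 k
      simp only [Pi.zero_apply] at this
      omega) (fun k hk => by
      have := hwc.2 k hk
      simp only [Pi.zero_apply] at this
      rw [this, add_zero]) rfl hpos hfin
  have hset : PSet lam (fun k => c k + lam k w) E = {z | z - w ∈ PSet lam c E} := by
    ext z
    simp only [PSet, Set.mem_ofPred_eq, map_sub]
    constructor
    · rintro ⟨h1, h2⟩
      exact ⟨fun k => by have := h1 k; omega, fun k hk => by have := h2 k hk; omega⟩
    · rintro ⟨h1, h2⟩
      exact ⟨fun k => by have := h1 k; omega, fun k hk => by have := h2 k hk; omega⟩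
  rw [hset, genF_translate mu nu _ w hmu.le hpos hfin] at hc'
  set b := (mu w).toNat with hb
  have hb0 : 0 < b := by omega
  set u : PowerSeries Mot := PowerSeries.C ((LU ^ (-(nu w)) : Motˣ) : Mot) *
      PowerSeries.X ^ b with hu
  have hcc : PowerSeries.constantCoeff (1 - u) = ((1 : Motˣ) : Mot) := by
    rw [hu, map_sub, map_mul, map_pow, PowerSeries.constantCoeff_X, zero_pow hb0.ne', mul_zero,
      map_one, sub_zero, Units.val_one]
  have hinv := PowerSeries.mul_invOfUnit (1 - u) 1 hcc
  have hmem : PowerSeries.invOfUnit (1 - u) 1 ∈ regularAt s₀ := by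
    apply Algebra.subset_adjoin
    refine Or.inr ⟨nu w, b, hb0, ?_, ?_⟩
    · intro h
      apply hray w hw
      have h1 : (b : ℚ) = mu w := by
        have : (b : ℤ) = mu w := Int.toNat_of_nonneg hmu.le
        exact_mod_cast this
      have h2 : (b : ℚ) ≠ 0 := by exact_mod_cast hb0.ne'
      rw [div_eq_iff h2] at h
      rw [h, h1]
    · rw [mul_comm]
      exact hinv
  have h7 : genF mu nu (PSet lam c E) = PowerSeries.invOfUnit (1 - u) 1 *
      (genF mu nu (PSet lam c E) - u * genF mu nu (PSet lam c E)) := by
    calc genF mu nu (PSet lam c E) = 1 * genF mu nu (PSet lam c E) := by rw [one_mul]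
      _ = ((1 - u) * PowerSeries.invOfUnit (1 - u) 1) * genF mu nu (PSet lam c E) := by rw [hinv]
      _ = _ := by ring
  rw [h7]
  exact mul_mem hmem hc'

end Poly

end MPb07157
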