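import Pool.Agent.Lib.MP_b07157_ag.NewtDefs
import Pool.Agent.Lib.MP_b07157_ag.NewtClass
import Pool.Agent.Lib.MP_b07157_ag.NewtPoly

section

/-!
# Maximal-tight vectors of a cone, and compact faces of facets
-/

noncomputable section

namespace MPb07157

open MvPolynomial Finset

variable {n : ℕ}

section Poly

variable {G ι : Type} [AddCommGroup G] [Fintype ι] (lam : ι → G →+ ℤ)

/-- The auxiliary step: some `lam k y` is negative. -/
theorem MaxTight.proportional_aux {E : Finset ι} {z : G}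
    (hz : MaxTight lam E z) (y : G) (hy : ∀ k, lam k z = 0 → lam k y = 0)
    (hneg : ∃ k, lam k y < 0) :
    ∃ p q : ℤ, p ≠ 0 ∧ p • y = q • z := by
  classical
  obtain ⟨_, hzC, hzmax⟩ := hz
  have hz0 : ∀ k, 0 ≤ lam k z := fun k => by simpa using hzC.1 k
  set F : Finset ι := Finset.univ.filter fun k => lam k y < 0 with hF
  have hFne : F.Nonempty := by
    obtain ⟨k, hk⟩ := hneg
    exact ⟨k, by simp [hF, hk]⟩
  obtain ⟨k, hkF, hkmin⟩ := F.exists_min_image (fun k => (lam k z : ℚ) / (-(lam k y : ℚ))) hFne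
  have hkneg : lam k y < 0 := by simpa [hF] using hkF
  have hkz : 0 < lam k z := by
    rcases (hz0 k).lt_or_eq with h | h
    · exact h
    · exact absurd (hy k h.symm) hkneg.ne
  set u : G := (-(lam k y)) • z + (lam k z) • y with hu
  have hlu : ∀ j, lam j u = -(lam k y) * lam j z + lam k z * lam j y := by
    intro j
    simp only [hu, map_add, map_zsmul, smul_eq_mul]
  have hunn : ∀ j, 0 ≤ lam j u := by
    intro j
    rw [hlu]
    rcases lt_or_ge (lam j y) 0 with hj | hj
    · have h1 := hkmin j (by simp [hF, hj])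
      have hk' : (0 : ℚ) < -(lam k y : ℚ) := by exact_mod_cast neg_pos.2 hkneg
      have hj' : (0 : ℚ) < -(lam j y : ℚ) := by exact_mod_cast neg_pos.2 hj
      rw [div_le_div_iff₀ hk' hj'] at h1
      have h2 : lam k z * -(lam j y) ≤ lam j z * -(lam k y) := by exact_mod_cast h1
      nlinarith
    · have := mul_nonneg (neg_nonneg.2 hkneg.le) (hz0 j)
      have := mul_nonneg hkz.le hj
      linarith
  have huC : u ∈ PSet lam 0 E := by
    refine ⟨fun j => by simpa using hunn j, fun j hj => ?_⟩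
    have h1 : lam j z = 0 := by simpa using hzC.2 j hj
    have h2 : lam j y = 0 := hy j h1
    rw [hlu, h1, h2]
    simp
  have huk : lam k u = 0 := by
    rw [hlu]
    ring
  have hu0 : u = 0 := by
    by_contra hne
    have h1 : ∀ j, lam j z = 0 → lam j u = 0 := by
      intro j hj
      rw [hlu, hj, hy j hj]
      simp
    have h2 := hzmax u huC hne h1 k huk
    omega
  refine ⟨lam k z, lam k y, hkz.ne', ?_⟩
  have h3 : (-(lam k y)) • z + (lam k z) • y = 0 := by rw [← hu]; exact hu0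
  rw [neg_smul] at h3
  have h4 : (lam k z) • y = (lam k y) • z := by
    have := neg_add_eq_zero.1 h3
    exact this.symm
  exact h4

/-- Vectors on the face spanned by a maximal-tight vector are proportional to it. -/
theorem MaxTight.proportional (hinj : ∀ z, (∀ k, lam k z = 0) → z = 0) {E : Finset ι} {z : G}
    (hz : MaxTight lam E z) (y : G) (hy : ∀ k, lam k z = 0 → lam k y = 0) :
    ∃ p q : ℤ, p ≠ 0 ∧ p • y = q • z := by
  classical
  by_cases h : ∃ k, lam k y < 0
  · exact MaxTight.proportional_aux lam hz y hy h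
  by_cases h' : ∃ k, lam k (-y) < 0
  · obtain ⟨p, q, hp, hpq⟩ := MaxTight.proportional_aux lam hz (-y)
      (fun k hk => by rw [map_neg, hy k hk, neg_zero]) h'
    refine ⟨-p, q, neg_ne_zero.2 hp, ?_⟩
    rw [← hpq]
    simp
  · push Not at h h'
    have hy0 : y = 0 := by
      refine hinj y fun k => le_antisymm ?_ (h k)
      have := h' k
      rw [map_neg] at this
      omega
    exact ⟨1, 0, one_ne_zero, by simp [hy0]⟩

end Poly

/-! ### Compact faces -/

/-- Integer-valued weight of an exponent. -/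
def wtZ (θ : Fin n → ℤ) (v : Fin n →₀ ℕ) : ℤ := ∑ j, θ j * (v j : ℤ)

theorem wtZ_natCast (w : Fin n → ℕ) (v : Fin n →₀ ℕ) : wtZ (fun j => (w j : ℤ)) v = (wt w v : ℤ) := by
  simp [wtZ, wt]

theorem wtZ_add (θ η : Fin n → ℤ) (v : Fin n →₀ ℕ) :
    wtZ (fun j => θ j + η j) v = wtZ θ v + wtZ η v := by
  simp only [wtZ, add_mul, Finset.sum_add_distrib]

theorem wtZ_mul (c : ℤ) (θ : Fin n → ℤ) (v : Fin n →₀ ℕ) :
    wtZ (fun j => c * θ j) v = c * wtZ θ v := by
  simp only [wtZ, Finset.mul_sum, mul_assoc]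

/-- Perturbing the weight `K w` by `θ` for large `K`. -/
theorem exists_perturb (f : MvPolynomial (Fin n) ℂ) (w : Fin n → ℕ) (N : ℕ)
    (hw : IsMinWt f w N) (θ : Fin n → ℤ) (hθ : ∀ j, w j = 0 → 0 < θ j) :
    ∃ ω : Fin n → ℕ, (∀ j, 0 < ω j) ∧ ∃ K : ℤ, (∀ v, (wt ω v : ℤ) = wtZ θ v + K * wt w v) ∧
      ∀ v ∈ f.support, ∀ v' ∈ f.support, wt w v = N → wt w v' ≠ N → wt ω v < wt ω v' := by
  classical
  -- a large constant
  obtain ⟨K, hK0, hK1, hK2⟩ : ∃ K : ℤ, 0 ≤ K ∧ (∀ j, -(θ j) < K) ∧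
      ∀ v ∈ f.support, ∀ v' ∈ f.support, wtZ θ v - wtZ θ v' < K := by
    refine ⟨1 + ∑ j, |θ j| + ∑ v ∈ f.support, ∑ v' ∈ f.support, |wtZ θ v - wtZ θ v'|, ?_, ?_, ?_⟩
    · positivity
    · intro j
      have h1 : |θ j| ≤ ∑ j, |θ j| :=
        Finset.single_le_sum (f := fun j => |θ j|) (fun i _ => abs_nonneg _) (Finset.mem_univ j)
      have h2 : -(θ j) ≤ |θ j| := neg_le_abs _
      have h3 : 0 ≤ ∑ v ∈ f.support, ∑ v' ∈ f.support, |wtZ θ v - wtZ θ v'| := by positivity
      linarith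
    · intro v hv v' hv'
      have h1 : |wtZ θ v - wtZ θ v'| ≤ ∑ v' ∈ f.support, |wtZ θ v - wtZ θ v'| :=
        Finset.single_le_sum (f := fun v' => |wtZ θ v - wtZ θ v'|) (fun i _ => abs_nonneg _) hv'
      have h2 : ∑ v' ∈ f.support, |wtZ θ v - wtZ θ v'| ≤
          ∑ v ∈ f.support, ∑ v' ∈ f.support, |wtZ θ v - wtZ θ v'| :=
        Finset.single_le_sum (f := fun v => ∑ v' ∈ f.support, |wtZ θ v - wtZ θ v'|)
          (fun i _ => by positivity) hv
      have h3 : wtZ θ v - wtZ θ v' ≤ |wtZ θ v - wtZ θ v'| := le_abs_self _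
      have h4 : 0 ≤ ∑ j, |θ j| := by positivity
      linarith
  have hpos : ∀ j, 0 < θ j + K * w j := by
    intro j
    rcases Nat.eq_zero_or_pos (w j) with h | h
    · rw [h]
      simpa using hθ j h
    · have h1 := hK1 j
      have h2 : (1 : ℤ) ≤ w j := by exact_mod_cast h
      nlinarith
  have hω : ∀ v, (wt (fun j => (θ j + K * w j).toNat) v : ℤ) = wtZ θ v + K * wt w v := by
    intro v
    rw [← wtZ_natCast]
    have : (fun j => (((θ j + K * w j).toNat : ℕ) : ℤ)) = fun j => θ j + K * w j := by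
      funext j
      exact Int.toNat_of_nonneg (hpos j).le
    rw [this, wtZ_add, wtZ_mul, wtZ_natCast]
  refine ⟨fun j => (θ j + K * w j).toNat, fun j => ?_, K, hω, ?_⟩
  · have := hpos j
    show 0 < (θ j + K * (w j : ℤ)).toNat
    omega
  · intro v hv v' hv' hvN hv'N
    have h1 := hω v
    have h2 := hω v'
    have h3 : N + 1 ≤ wt w v' := by
      have := hw.1 v' hv'
      omega
    have h4 := hK2 v hv v' hv'
    have h5 : K * (N + 1 : ℕ) ≤ K * (wt w v' : ℤ) := by
      apply mul_le_mul_of_nonneg_left _ hK0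
      exact_mod_cast h3
    rw [hvN] at h1
    have h6 : (wt (fun j => (θ j + K * w j).toNat) v : ℤ) <
        wt (fun j => (θ j + K * w j).toNat) v' := by
      rw [h1, h2]
      push_cast at h5
      linarith
    exact_mod_cast h6

/-- A positive weight whose face is a facet of the face of `w` and still spans. -/
theorem exists_compact_face (f : MvPolynomial (Fin n) ℂ) (w : Fin n → ℕ) (N : ℕ)
    (hw : IsMinWt f w N) (hs : Spans w (f.support.filter fun v => wt w v = N)) :
    ∃ (ω : Fin n → ℕ) (Nω : ℕ), (∀ j, 0 < ω j) ∧ IsMinWt f ω Nω ∧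
      (∀ v ∈ f.support, wt ω v = Nω → wt w v = N) ∧
      Spans w (f.support.filter fun v => wt ω v = Nω) := by
  classical
  obtain ⟨v₀, hv₀, hv₀N⟩ := hw.2
  have hfne : f.support.Nonempty := ⟨v₀, hv₀⟩
  -- the set of good cardinalities
  let P : ℕ → Prop := fun c => ∃ (ω : Fin n → ℕ) (Nω : ℕ), (∀ j, 0 < ω j) ∧ IsMinWt f ω Nω ∧
      (∀ v ∈ f.support, wt ω v = Nω → wt w v = N) ∧
      (f.support.filter fun v => wt ω v = Nω).card = c
  -- every positive weight has a minimum
  have hmin : ∀ ω : Fin n → ℕ, ∃ Nω, IsMinWt f ω Nω := by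
    intro ω
    obtain ⟨v, hv, hvm⟩ := f.support.exists_min_image (fun v => wt ω v) hfne
    exact ⟨wt ω v, hvm, v, hv, rfl⟩
  -- from a perturbation, the face is inside the face of `w`
  have hface : ∀ (ω : Fin n → ℕ) (Nω : ℕ), IsMinWt f ω Nω →
      (∀ v ∈ f.support, ∀ v' ∈ f.support, wt w v = N → wt w v' ≠ N → wt ω v < wt ω v') →
      ∀ v ∈ f.support, wt ω v = Nω → wt w v = N := by
    intro ω Nω hm hlt v hv hvN
    by_contra hne
    have h1 := hlt v₀ hv₀ v hv hv₀N hne
    have h2 := hm.1 v₀ hv₀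
    omega
  have hP0 : ∃ c, P c := by
    obtain ⟨ω, hωpos, K, -, hlt⟩ := exists_perturb f w N hw (fun _ => 1) (fun _ _ => one_pos)
    obtain ⟨Nω, hm⟩ := hmin ω
    exact ⟨_, ω, Nω, hωpos, hm, hface ω Nω hm hlt, rfl⟩
  have hbdd : ∀ c, P c → c ≤ f.support.card := by
    rintro c ⟨ω, Nω, -, -, -, rfl⟩
    exact Finset.card_le_card (Finset.filter_subset _ _)
  obtain ⟨c, hPc, hcmax⟩ : ∃ c, P c ∧ ∀ c', P c' → c' ≤ c := by
    have hne : (Set.ofPred P).Nonempty := hP0
    have hbd : BddAbove (Set.ofPred P) := ⟨f.support.card, fun c hc => hbdd c hc⟩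
    exact ⟨sSup (Set.ofPred P), Nat.sSup_mem hne hbd, fun c' hc' => le_csSup hbd hc'⟩
  obtain ⟨ω, Nω, hωpos, hm, hsub, hcard⟩ := hPc
  refine ⟨ω, Nω, hωpos, hm, hsub, ?_⟩
  by_contra hspan
  -- a vector orthogonal to the face of `ω`
  have hex : ∃ y : Fin n → ℤ, (∀ j, w j = 0 → y j = 0) ∧
      (∀ v ∈ f.support.filter fun v => wt ω v = Nω, wtZ y v = 0) ∧
      ∃ v ∈ f.support, wt w v = N ∧ wtZ y v < 0 := by
    unfold Spans at hspan
    push Not at hspan
    obtain ⟨y, hyw, hyI, hy0⟩ := hspan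
    have h1 : ∃ v ∈ f.support.filter (fun v => wt w v = N), ∑ j, y j * (v j : ℤ) ≠ 0 := by
      by_contra hcon
      push Not at hcon
      exact hy0 (hs y hyw hcon)
    obtain ⟨v, hv, hvne⟩ := h1
    rw [Finset.mem_filter] at hv
    rcases lt_or_gt_of_ne hvne with h | h
    · exact ⟨y, hyw, hyI, v, hv.1, hv.2, h⟩
    · refine ⟨fun j => -(y j), fun j hj => by simp [hyw j hj], fun v' hv' => ?_,
        v, hv.1, hv.2, ?_⟩
      · have := hyI v' hv'
        simp only [wtZ, neg_mul, Finset.sum_neg_distrib]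
        rw [this, neg_zero]
      · simp only [wtZ, neg_mul, Finset.sum_neg_distrib]
        linarith
  obtain ⟨y, hyw, hyI, v₂, hv₂, hv₂N, hv₂neg⟩ := hex
  -- the minimal ratio
  set F : Finset (Fin n →₀ ℕ) := f.support.filter fun v => wt w v = N ∧ wtZ y v < 0 with hF
  have hFne : F.Nonempty := ⟨v₂, by simp only [hF, Finset.mem_filter]; exact ⟨hv₂, hv₂N, hv₂neg⟩⟩
  obtain ⟨v₁, hv₁F, hv₁min⟩ := F.exists_min_image
    (fun v => ((wt ω v : ℚ) - Nω) / (-(wtZ y v : ℚ))) hFne
  have hv₁ : v₁ ∈ f.support ∧ wt w v₁ = N ∧ wtZ y v₁ < 0 := by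
    simpa only [hF, Finset.mem_filter] using hv₁F
  obtain ⟨hv₁s, hv₁N, hv₁neg⟩ := hv₁
  set a : ℤ := (wt ω v₁ : ℤ) - Nω with ha
  set b : ℤ := -(wtZ y v₁) with hb
  have hbpos : 0 < b := by omega
  have hv₁notin : wt ω v₁ ≠ Nω := by
    intro h
    have := hyI v₁ (by rw [Finset.mem_filter]; exact ⟨hv₁s, h⟩)
    omega
  have hapos : 0 < a := by
    have := hm.1 v₁ hv₁s
    omega
  -- the new weight
  obtain ⟨ω', hω'pos, K, hω', hlt⟩ := exists_perturb f w N hw
    (fun j => b * (ω j : ℤ) + a * y j) (by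
      intro j hj
      have h1 := hωpos j
      have h2 : (0 : ℤ) < ω j := by exact_mod_cast h1
      rw [hyw j hj]
      have := mul_pos hbpos h2
      linarith)
  have hω'v : ∀ v, (wt ω' v : ℤ) = b * wt ω v + a * wtZ y v + K * wt w v := by
    intro v
    rw [hω' v, wtZ_add, wtZ_mul, wtZ_mul, wtZ_natCast]
  -- its value on the face of `w`
  have hge : ∀ v ∈ f.support, wt w v = N → b * (Nω : ℤ) ≤ b * wt ω v + a * wtZ y v := by
    intro v hv hvN
    have h0 : (Nω : ℤ) ≤ wt ω v := by exact_mod_cast hm.1 v hv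
    rcases lt_or_ge (wtZ y v) 0 with h | h
    · have h1 := hv₁min v (by simp only [hF, Finset.mem_filter]; exact ⟨hv, hvN, h⟩)
      have hp1 : (0 : ℚ) < -(wtZ y v₁ : ℚ) := by exact_mod_cast hbpos
      have hp2 : (0 : ℚ) < -(wtZ y v : ℚ) := by exact_mod_cast neg_pos.2 h
      rw [div_le_div_iff₀ hp1 hp2] at h1
      have h2 : ((wt ω v₁ : ℤ) - Nω) * -(wtZ y v) ≤ ((wt ω v : ℤ) - Nω) * -(wtZ y v₁) := by
        exact_mod_cast h1
      rw [← ha, ← hb] at h2
      nlinarith
    · have := mul_nonneg hapos.le h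
      nlinarith
  have heq : ∀ v ∈ f.support, wt ω v = Nω → b * (Nω : ℤ) = b * wt ω v + a * wtZ y v := by
    intro v hv hvN
    rw [hyI v (by rw [Finset.mem_filter]; exact ⟨hv, hvN⟩), hvN]
    ring
  have heq₁ : b * (Nω : ℤ) = b * wt ω v₁ + a * wtZ y v₁ := by
    have : wtZ y v₁ = -b := by omega
    rw [this]
    have : (wt ω v₁ : ℤ) = a + Nω := by omega
    rw [this]
    ring
  -- the minimum
  obtain ⟨v₃, hv₃, hv₃N⟩ := hm.2
  have hv₃w : wt w v₃ = N := hsub v₃ hv₃ hv₃N
  have hmin' : IsMinWt f ω' (wt ω' v₃) := by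
    refine ⟨fun v hv => ?_, v₃, hv₃, rfl⟩
    by_cases hvN : wt w v = N
    · have h1 := hge v hv hvN
      have h2 := heq v₃ hv₃ hv₃N
      have h3 := hω'v v
      have h4 := hω'v v₃
      rw [hvN] at h3
      rw [hv₃w] at h4
      have : (wt ω' v₃ : ℤ) ≤ wt ω' v := by
        rw [h3, h4]
        linarith
      exact_mod_cast this
    · exact (hlt v₃ hv₃ v hv hv₃w hvN).le
  have hmem : ∀ v ∈ f.support, wt w v = N → b * (Nω : ℤ) = b * wt ω v + a * wtZ y v →
      wt ω' v = wt ω' v₃ := by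
    intro v hv hvN hval
    have h2 := heq v₃ hv₃ hv₃N
    have h3 := hω'v v
    have h4 := hω'v v₃
    rw [hvN] at h3
    rw [hv₃w] at h4
    have : (wt ω' v : ℤ) = wt ω' v₃ := by
      rw [h3, h4]
      linarith
    exact_mod_cast this
  have hPnew : P (f.support.filter fun v => wt ω' v = wt ω' v₃).card :=
    ⟨ω', wt ω' v₃, hω'pos, hmin', hface ω' _ hmin' hlt, rfl⟩
  have hle := hcmax _ hPnew
  have hss : (f.support.filter fun v => wt ω v = Nω) ⊂
      f.support.filter fun v => wt ω' v = wt ω' v₃ := by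
    rw [Finset.ssubset_iff_of_subset]
    · refine ⟨v₁, ?_, ?_⟩
      · rw [Finset.mem_filter]
        exact ⟨hv₁s, hmem v₁ hv₁s hv₁N heq₁⟩
      · rw [Finset.mem_filter]
        exact fun h => hv₁notin h.2
    · intro v hv
      rw [Finset.mem_filter] at hv ⊢
      exact ⟨hv.1, hmem v hv.1 (hsub v hv.1 hv.2) (heq v hv.1 hv.2)⟩
  have := Finset.card_lt_card hss
  omega

end MPb07157
end
end

section

/-!
# Poles of the motivic zeta function of a nondegenerate polynomial
-/

noncomputable section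

namespace MPb07157

open MvPolynomial Finset

variable {n : ℕ}

/-! ### Arcs with a condition at the origin -/

/-- Truncated arcs `γ` with `ord γ_j ≥ ε` for all `j`. -/
def Start (n ε N : ℕ) : Set (Fin n × Fin N → ℂ) :=
  {γ | ∀ j, ∀ k : Fin N, (k : ℕ) < ε → γ (j, k) = 0}

theorem isConstr_Start (n ε N : ℕ) : IsConstr (Start n ε N) :=
  isConstr_Vn N (fun _ => ε)

/-- The measure of the arcs with `ord f = m` and `ord γ_j ≥ ε` for all `j`. -/
def muE (f : MvPolynomial (Fin n) ℂ) (ε N m : ℕ) : Mot :=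
  ↑((LU ^ (n * N))⁻¹) * clsM (arcs f N m ∩ Start n ε N)

theorem muE_succ (f : MvPolynomial (Fin n) ℂ) {ε N m : ℕ} (hm : m < N) (hε : ε ≤ N) :
    muE f ε (N + 1) m = muE f ε N m := by
  have h : arcs f (N + 1) m ∩ Start n ε (N + 1) = {γ : Fin n × Fin (N + 1) → ℂ |
      leftPart γ ∈ arcs f N m ∩ Start n ε N ∧
      rightPart γ ∈ (Set.univ : Set (Fin n × Fin 1 → ℂ))} := by
    rw [arcs_succ f hm]
    ext γ
    simp only [Set.mem_inter_iff, Set.mem_ofPred_eq, Set.mem_univ, and_true, Start, leftPart]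
    refine and_congr_right fun _ => ⟨fun h j k hk => h j (Fin.castAdd 1 k) hk,
      fun h j k hk => ?_⟩
    have := h j ⟨k, by omega⟩ hk
    exact this
  unfold muE
  rw [h, clsM_mul_eq (cls_split ((isConstr_arcs f N m).inter (isConstr_Start n ε N))
    IsConstr.univ), clsM_univ]
  simp only [Fintype.card_prod, Fintype.card_fin, mul_one, mul_add, pow_add, mul_inv,
    Units.val_mul]
  rw [mul_comm (clsM _), mul_assoc, ← mul_assoc (((LU ^ n)⁻¹ : Motˣ) : Mot), Units.inv_mul,
    one_mul]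

theorem muE_eq (f : MvPolynomial (Fin n) ℂ) {ε N m : ℕ} (hm : m < N) (hε : ε ≤ 1) :
    muE f ε N m = muE f ε (m + 1) m := by
  obtain ⟨k, rfl⟩ := Nat.exists_eq_add_of_lt hm
  rw [show m + k + 1 = (m + 1) + k by ring]
  induction k with
  | zero => rfl
  | succ k ih =>
    rw [← ih (by omega)]
    exact muE_succ f (N := m + 1 + k) (by omega) (by omega)

theorem arcs_eq_iUnion (f : MvPolynomial (Fin n) ℂ) {ε N : ℕ} (m : ℕ) (hε : ε ≤ N) :
    arcs f N m ∩ Start n ε N = ⋃ a ∈ Fintype.piFinset (fun _ : Fin n => Finset.Icc ε N),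
      (arcs f N m ∩ Strat N a) := by
  classical
  ext γ
  simp only [Set.mem_inter_iff, Set.mem_iUnion, exists_prop, Fintype.mem_piFinset,
    Finset.mem_Icc]
  constructor
  · rintro ⟨h1, h2⟩
    have hex : ∀ j : Fin n, ∃ k : ℕ, k = N ∨ ∃ h : k < N, γ (j, ⟨k, h⟩) ≠ 0 :=
      fun j => ⟨N, Or.inl rfl⟩
    refine ⟨fun j => Nat.find (hex j), fun j => ⟨?_, Nat.find_min' (hex j) (Or.inl rfl)⟩, h1,
      ?_, ?_⟩
    · rw [Nat.le_find_iff]
      rintro k hk (h3 | ⟨h3, h4⟩)
      · omega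
      · exact h4 (h2 j ⟨k, h3⟩ hk)
    · intro j k hk
      by_contra hne
      exact Nat.find_min (hex j) hk (Or.inr ⟨k.2, hne⟩)
    · intro j hj
      have h3 := Nat.find_spec (hex j)
      rcases h3 with h3 | ⟨h3, h4⟩
      · beta_reduce at hj
        rw [h3] at hj
        exact absurd hj (lt_irrefl _)
      · unfold lead0
        rw [dif_pos hj]
        exact h4
  · rintro ⟨a, h1, h2, h3⟩
    exact ⟨h2, fun j k hk => h3.1 j k (lt_of_lt_of_le hk (h1 j).1)⟩

theorem disjoint_Strat {N : ℕ} {a b : Fin n → ℕ} (ha : ∀ j, a j ≤ N) (hb : ∀ j, b j ≤ N)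
    (hab : a ≠ b) : Disjoint (Strat N a) (Strat N b) := by
  rw [Set.disjoint_left]
  rintro γ ⟨h1, h2⟩ ⟨h3, h4⟩
  obtain ⟨j, hj⟩ := Function.ne_iff.1 hab
  rcases lt_or_gt_of_ne hj with h5 | h5
  · have h6 : a j < N := lt_of_lt_of_le h5 (hb j)
    have h7 := h2 j h6
    unfold lead0 at h7
    rw [dif_pos h6] at h7
    exact h7 (h3 j ⟨a j, h6⟩ h5)
  · have h6 : b j < N := lt_of_lt_of_le h5 (ha j)
    have h7 := h4 j h6
    unfold lead0 at h7
    rw [dif_pos h6] at h7
    exact h7 (h1 j ⟨b j, h6⟩ h5)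

theorem clsM_arcs_eq_sum (f : MvPolynomial (Fin n) ℂ) {ε N : ℕ} (m : ℕ) (hε : ε ≤ N) :
    clsM (arcs f N m ∩ Start n ε N) =
      ∑ a ∈ Fintype.piFinset (fun _ : Fin n => Finset.Icc ε N),
        clsM (arcs f N m ∩ Strat N a) := by
  unfold clsM
  rw [arcs_eq_iUnion f m hε, cls_biUnion, map_sum]
  · intro a _
    exact (isConstr_arcs f N m).inter (isConstr_Strat N a)
  · intro a ha b hb hab
    rw [Fintype.mem_piFinset] at ha hb
    exact (disjoint_Strat (fun j => (Finset.mem_Icc.1 (ha j)).2)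
      (fun j => (Finset.mem_Icc.1 (hb j)).2) hab).mono Set.inter_subset_right
      Set.inter_subset_right

/-- The set of vanishing coordinates. -/
def SS (N : ℕ) (a : Fin n → ℕ) : Finset (Fin n) := Finset.univ.filter fun j => a j = N

/-- The minimal weight. -/
def nuf (f : MvPolynomial (Fin n) ℂ) (a : Fin n → ℕ) : ℕ := sInf (wt a '' (f.support : Set _))

theorem isMinWt_nuf {f : MvPolynomial (Fin n) ℂ} (hf : f ≠ 0) (a : Fin n → ℕ) :
    IsMinWt f a (nuf f a) := by
  have hne : (wt a '' (f.support : Set (Fin n →₀ ℕ))).Nonempty := by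
    obtain ⟨v, hv⟩ := MvPolynomial.support_nonempty.2 hf
    exact ⟨wt a v, v, hv, rfl⟩
  refine ⟨fun v hv => Nat.sInf_le ⟨v, hv, rfl⟩, ?_⟩
  obtain ⟨v, hv, h⟩ := Nat.sInf_mem hne
  exact ⟨v, hv, h⟩

theorem IsMinWt.eq {f : MvPolynomial (Fin n) ℂ} {a : Fin n → ℕ} {N N' : ℕ} (h : IsMinWt f a N)
    (h' : IsMinWt f a N') : N = N' := by
  obtain ⟨h1, v, hv, h2⟩ := h
  obtain ⟨h1', v', hv', h2'⟩ := h'
  have := h1 v' hv'
  have := h1' v hv
  omega

/-- Dimension count. -/
theorem exists_M {N : ℕ} {a : Fin n → ℕ} (ha : ∀ j, a j ≤ N) :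
    ∃ M, n * N = Fintype.card {j // j ∉ SS N a} + ∑ j, a j + M := by
  classical
  have h : Fintype.card {j // j ∉ SS N a} + ∑ j, a j ≤ n * N := by
    rw [Fintype.card_subtype, Finset.card_eq_sum_ones, Finset.sum_filter,
      ← Finset.sum_add_distrib]
    calc _ ≤ ∑ _j : Fin n, N := by
          refine Finset.sum_le_sum fun j _ => ?_
          have := ha j
          simp only [SS, Finset.mem_filter, Finset.mem_univ, true_and]
          split_ifs <;> omega
      _ = n * N := by simp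
  exact ⟨n * N - (Fintype.card {j // j ∉ SS N a} + ∑ j, a j), by omega⟩

theorem clsM_stratum {f : MvPolynomial (Fin n) ℂ} (hf : f ≠ 0) {N m : ℕ} (hm : m < N)
    {a : Fin n → ℕ} (ha : ∀ j, a j ≤ N) (hnd : NondegAt f (face f a (nuf f a))) :
    (↑((LU ^ (n * N))⁻¹) * clsM (arcs f N m ∩ Strat N a) : Mot) =
      if nuf f a = m then
        clsM (YS f (face f a (nuf f a)) (SS N a)) *
          ↑(LU ^ (-(Fintype.card {j // j ∉ SS N a} : ℤ))) * ↑(LU ^ (-((∑ j, a j : ℕ) : ℤ)))
      else if nuf f a < m then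
        clsM (XS f (face f a (nuf f a)) (SS N a)) * (↑LU - 1) *
          ↑(LU ^ (-(Fintype.card {j // j ∉ SS N a} : ℤ))) *
          ↑(LU ^ (-((∑ j, a j : ℕ) + (m - nuf f a : ℕ) : ℤ)))
      else 0 := by
  have hmin := isMinWt_nuf hf a
  have hS : ∀ j, j ∉ SS N a → a j < N := by
    intro j hj
    simp only [SS, Finset.mem_filter, Finset.mem_univ, true_and] at hj
    have := ha j
    omega
  have hS' : ∀ j ∈ SS N a, a j = N := by
    intro j hj
    simpa [SS] using hj
  obtain ⟨M, hM⟩ := exists_M ha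
  have hMot : ∀ z : ℤ, z = (n * N : ℕ) - (Fintype.card {j // j ∉ SS N a} : ℤ) - (∑ j, a j : ℕ) →
      ((LU ^ (n * N))⁻¹ : Motˣ) * LU ^ z =
      LU ^ (-(Fintype.card {j // j ∉ SS N a} : ℤ)) * LU ^ (-((∑ j, a j : ℕ) : ℤ)) := by
    intro z hz
    rw [← zpow_natCast, ← zpow_neg, ← zpow_add, ← zpow_add, hz]
    congr 1
    ring
  have hLM : ∀ M : ℕ, algebraMap K0 Mot L ^ M = ((LU ^ (M : ℤ) : Motˣ) : Mot) := by
    intro M
    rw [zpow_natCast, Units.val_pow_eq_pow_val, LU_val]
  rcases lt_trichotomy (nuf f a) m with h | h | h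
  · -- larger order
    rw [if_neg h.ne, if_pos h]
    obtain ⟨r, rfl⟩ := Nat.exists_eq_add_of_lt h
    have h1 := cls_strat_pos hmin hS hS' ha hM hnd r (by omega)
    have h2 := congrArg (algebraMap K0 Mot) h1
    simp only [map_mul, map_pow, map_sub, map_one] at h2
    rw [hLM, hLM, ← LU_val] at h2
    have h3 : clsM (arcs f N (nuf f a + r + 1) ∩ Strat N a) =
        clsM (XS f (face f a (nuf f a)) (SS N a)) * ((LU : Mot) - 1) *
          ((LU ^ (M : ℤ) * LU ^ (-((r + 1 : ℕ) : ℤ)) : Motˣ) : Mot) := by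
      have h4 : ((LU ^ (((r + 1 : ℕ)) : ℤ) : Motˣ) : Mot) *
          ((LU ^ (-((r + 1 : ℕ) : ℤ)) : Motˣ) : Mot) = 1 := by
        rw [← Units.val_mul, ← zpow_add, add_neg_cancel, zpow_zero, Units.val_one]
      unfold clsM
      calc _ = (algebraMap K0 Mot (cls (arcs f N (nuf f a + (r + 1)) ∩ Strat N a)) *
            ((LU ^ (((r + 1 : ℕ)) : ℤ) : Motˣ) : Mot)) *
            ((LU ^ (-((r + 1 : ℕ) : ℤ)) : Motˣ) : Mot) := by
              rw [mul_assoc, h4, mul_one]; rfl
        _ = _ := by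
              rw [h2, Units.val_mul]
              ring
    rw [h3]
    have h5 := hMot M (by rw [hM]; push_cast; ring)
    have h6 : (nuf f a + r + 1 - nuf f a : ℕ) = r + 1 := by omega
    rw [h6]
    calc _ = clsM (XS f (face f a (nuf f a)) (SS N a)) * ((LU : Mot) - 1) *
          ((((LU ^ (n * N))⁻¹ * LU ^ (M : ℤ) : Motˣ) : Mot) *
            ((LU ^ (-((r + 1 : ℕ) : ℤ)) : Motˣ) : Mot)) := by
            rw [Units.val_mul, Units.val_mul]; ring
      _ = _ := by
            rw [h5, neg_add, zpow_add, Units.val_mul, Units.val_mul]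
            ring
  · subst h
    rw [if_pos rfl]
    have h1 := cls_strat_zero hmin hS hS' ha hM
    have h5 := hMot M (by rw [hM]; push_cast; ring)
    unfold clsM
    rw [h1, map_mul, map_pow, hLM]
    calc _ = algebraMap K0 Mot (cls (YS f (face f a (nuf f a)) (SS N a))) *
          (((LU ^ (n * N))⁻¹ * LU ^ (M : ℤ) : Motˣ) : Mot) := by
            rw [Units.val_mul]; ring
      _ = _ := by rw [h5, Units.val_mul]; ring
  · rw [if_neg (by omega), if_neg (by omega)]
    have : arcs f N m ∩ Strat N a = ∅ := by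
      rw [Set.eq_empty_iff_forall_notMem]
      rintro γ ⟨h1, h2⟩
      rw [mem_arcs_iff] at h1
      exact h1.1 (coeff_Fv_of_lt hmin h2.1 h)
    rw [this]
    unfold clsM
    rw [cls_empty, map_zero, mul_zero]

end MPb07157
end
end

section

/-!
# Poles of the motivic zeta function of a nondegenerate polynomial: assembly
-/

noncomputable section

namespace MPb07157

open MvPolynomial Finset

variable {n : ℕ}

/-- The ambient group of the polyhedral sets. -/
abbrev GG (n : ℕ) : Type := (Fin n → ℤ) × ℤ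

/-- The index type of the constraints. -/
abbrev II (f : MvPolynomial (Fin n) ℂ) : Type := (Fin n ⊕ {v // v ∈ f.support}) ⊕ (Fin n ⊕ Unit)

/-- The linear form `a ↦ a·v`. -/
def dotH (v : Fin n →₀ ℕ) : GG n →+ ℤ where
  toFun z := ∑ j, z.1 j * (v j : ℤ)
  map_zero' := by simp
  map_add' x y := by
    simp only [Prod.fst_add, Pi.add_apply, add_mul, Finset.sum_add_distrib]

theorem dotH_apply (v : Fin n →₀ ℕ) (z : GG n) : dotH v z = ∑ j, z.1 j * (v j : ℤ) := rfl

/-- The coordinates. -/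
def coordH (j : Fin n) : GG n →+ ℤ where
  toFun z := z.1 j
  map_zero' := rfl
  map_add' _ _ := rfl

/-- The last coordinate. -/
def muH (n : ℕ) : GG n →+ ℤ := AddMonoidHom.snd _ _

theorem coordH_apply (j : Fin n) (z : GG n) : coordH j z = z.1 j := rfl

theorem muH_apply (z : GG n) : muH n z = z.2 := rfl

/-- The sum of the coordinates, plus `m - a·v₀`. -/
def nuH (v₀ : Fin n →₀ ℕ) : GG n →+ ℤ := ∑ j, coordH j + (muH n - dotH v₀)

theorem nuH_apply (v₀ : Fin n →₀ ℕ) (z : GG n) :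
    nuH v₀ z = ∑ j, z.1 j + (z.2 - dotH v₀ z) := by
  simp [nuH, AddMonoidHom.finsetSum_apply, coordH_apply, muH_apply]

/-- The linear forms. -/
def lamF (f : MvPolynomial (Fin n) ℂ) (K : ℕ) (v₀ : Fin n →₀ ℕ) : II f → GG n →+ ℤ
  | .inl (.inl j) => coordH j
  | .inl (.inr v) => dotH v.1 - dotH v₀
  | .inr (.inl j) => (K : ℤ) • muH n - coordH j
  | .inr (.inr _) => muH n - dotH v₀

open Classical in
/-- The lower bounds. -/
def cF (f : MvPolynomial (Fin n) ℂ) (K ε : ℕ) (I : Finset (Fin n →₀ ℕ)) (S : Finset (Fin n))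
    (ty : ℕ) : II f → ℤ
  | .inl (.inl _) => ε
  | .inl (.inr v) => if v.1 ∈ I then 0 else 1
  | .inr (.inl j) => if j ∈ S then -K else -K + 1
  | .inr (.inr _) => ty

open Classical in
/-- The equality constraints. -/
def EF (f : MvPolynomial (Fin n) ℂ) (I : Finset (Fin n →₀ ℕ)) (S : Finset (Fin n))
    (ty : ℕ) : Finset (II f) :=
  Finset.univ.filter fun k => match k with
    | .inl (.inl _) => False
    | .inl (.inr v) => v.1 ∈ I
    | .inr (.inl j) => j ∈ S
    | .inr (.inr _) => ty = 0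

theorem mem_EF1 {f : MvPolynomial (Fin n) ℂ} {I : Finset (Fin n →₀ ℕ)} {S : Finset (Fin n)}
    {ty : ℕ} {j : Fin n} : (Sum.inl (Sum.inl j) : II f) ∈ EF f I S ty ↔ False := by
  simp [EF]

theorem mem_EF2 {f : MvPolynomial (Fin n) ℂ} {I : Finset (Fin n →₀ ℕ)} {S : Finset (Fin n)}
    {ty : ℕ} {v : {v // v ∈ f.support}} :
    (Sum.inl (Sum.inr v) : II f) ∈ EF f I S ty ↔ v.1 ∈ I := by
  simp [EF]

theorem mem_EF3 {f : MvPolynomial (Fin n) ℂ} {I : Finset (Fin n →₀ ℕ)} {S : Finset (Fin n)}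
    {ty : ℕ} {j : Fin n} : (Sum.inr (Sum.inl j) : II f) ∈ EF f I S ty ↔ j ∈ S := by
  simp [EF]

theorem mem_EF4 {f : MvPolynomial (Fin n) ℂ} {I : Finset (Fin n →₀ ℕ)} {S : Finset (Fin n)}
    {ty : ℕ} {u : Unit} : (Sum.inr (Sum.inr u) : II f) ∈ EF f I S ty ↔ ty = 0 := by
  simp [EF]

theorem mem_PSet_iff {f : MvPolynomial (Fin n) ℂ} {K ε : ℕ} {I : Finset (Fin n →₀ ℕ)}
    {S : Finset (Fin n)} {ty : ℕ} {v₀ : Fin n →₀ ℕ} {z : GG n} :
    z ∈ PSet (lamF f K v₀) (cF f K ε I S ty) (EF f I S ty) ↔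
      (∀ j, (ε : ℤ) ≤ z.1 j) ∧
      (∀ v ∈ f.support, (v ∈ I → dotH v z = dotH v₀ z) ∧ (v ∉ I → dotH v₀ z + 1 ≤ dotH v z)) ∧
      (∀ j, (j ∈ S → z.1 j = K * z.2 + K) ∧ (j ∉ S → z.1 j ≤ K * z.2 + K - 1)) ∧
      (dotH v₀ z + ty ≤ z.2 ∧ (ty = 0 → z.2 = dotH v₀ z)) := by
  classical
  unfold PSet
  rw [Set.mem_ofPred_eq]
  simp only [Sum.forall, mem_EF1, mem_EF2, mem_EF3, mem_EF4, lamF, cF, coordH_apply,
    AddMonoidHom.sub_apply, AddMonoidHom.smul_apply, muH_apply, smul_eq_mul, Subtype.forall,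
    false_implies, implies_true, true_and]
  constructor
  · rintro ⟨⟨⟨h1, h2⟩, h3, h4⟩, h5, h6, h7⟩
    refine ⟨h1, fun v hv => ⟨fun hI => ?_, fun hI => ?_⟩, fun j => ⟨fun hj => ?_, fun hj => ?_⟩,
      ?_, fun ht => ?_⟩
    · have := h5 v hv hI
      rw [if_pos hI] at this
      omega
    · have := h2 v hv
      rw [if_neg hI] at this
      omega
    · have := h6 j hj
      rw [if_pos hj] at this
      omega
    · have := h3 j
      rw [if_neg hj] at this
      omega
    · have := h4 ()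
      omega
    · have := h7 () ht
      omega
  · rintro ⟨h1, h2, h3, h4, h5⟩
    refine ⟨⟨⟨h1, fun v hv => ?_⟩, fun j => ?_, fun _ => ?_⟩, fun v hv hI => ?_, fun j hj => ?_,
      fun _ ht => ?_⟩
    · by_cases hI : v ∈ I
      · rw [if_pos hI]
        have := (h2 v hv).1 hI
        omega
      · rw [if_neg hI]
        have := (h2 v hv).2 hI
        omega
    · by_cases hj : j ∈ S
      · rw [if_pos hj]
        have := (h3 j).1 hj
        omega
      · rw [if_neg hj]
        have := (h3 j).2 hj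
        omega
    · omega
    · rw [if_pos hI]
      have := (h2 v hv).1 hI
      omega
    · rw [if_pos hj]
      have := (h3 j).1 hj
      omega
    · have := h5 ht
      omega

theorem mem_cone_iff {f : MvPolynomial (Fin n) ℂ} {K : ℕ} {I : Finset (Fin n →₀ ℕ)}
    {S : Finset (Fin n)} {ty : ℕ} {v₀ : Fin n →₀ ℕ} {z : GG n} :
    z ∈ PSet (lamF f K v₀) 0 (EF f I S ty) ↔
      (∀ j, 0 ≤ z.1 j) ∧
      (∀ v ∈ f.support, (v ∈ I → dotH v z = dotH v₀ z) ∧ (dotH v₀ z ≤ dotH v z)) ∧
      (∀ j, (j ∈ S → z.1 j = K * z.2) ∧ (z.1 j ≤ K * z.2)) ∧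
      (dotH v₀ z ≤ z.2 ∧ (ty = 0 → z.2 = dotH v₀ z)) := by
  classical
  unfold PSet
  rw [Set.mem_ofPred_eq]
  simp only [Sum.forall, mem_EF1, mem_EF2, mem_EF3, mem_EF4, lamF, coordH_apply,
    AddMonoidHom.sub_apply, AddMonoidHom.smul_apply, muH_apply, smul_eq_mul, Subtype.forall,
    false_implies, implies_true, true_and, Pi.zero_apply]
  constructor
  · rintro ⟨⟨⟨h1, h2⟩, h3, h4⟩, h5, h6, h7⟩
    refine ⟨h1, fun v hv => ⟨fun hI => ?_, ?_⟩, fun j => ⟨fun hj => ?_, ?_⟩,
      ?_, fun ht => ?_⟩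
    · have := h5 v hv hI
      omega
    · have := h2 v hv
      omega
    · have := h6 j hj
      omega
    · have := h3 j
      omega
    · have := h4 ()
      omega
    · have := h7 () ht
      omega
  · rintro ⟨h1, h2, h3, h4, h5⟩
    refine ⟨⟨⟨h1, fun v hv => ?_⟩, fun j => ?_, fun _ => ?_⟩, fun v hv hI => ?_, fun j hj => ?_,
      fun _ ht => ?_⟩
    · have := (h2 v hv).2
      omega
    · have := (h3 j).2
      omega
    · omega
    · have := (h2 v hv).1 hI
      omega
    · have := (h3 j).1 hj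
      omega
    · have := h5 ht
      omega

theorem lamF_inj (f : MvPolynomial (Fin n) ℂ) (K : ℕ) (v₀ : Fin n →₀ ℕ) (z : GG n)
    (h : ∀ k, lamF f K v₀ k z = 0) : z = 0 := by
  have h1 : z.1 = 0 := by
    funext j
    exact h (.inl (.inl j))
  have h2 : dotH v₀ z = 0 := by
    rw [dotH_apply, h1]; simp
  have h3 := h (.inr (.inr ()))
  simp only [lamF, AddMonoidHom.sub_apply, muH_apply, h2, sub_zero] at h3
  exact Prod.ext h1 h3

/-- A facet weight of the Newton polyhedron of `f`. -/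
def IsFacetWt (f : MvPolynomial (Fin n) ℂ) (w : Fin n → ℕ) (N : ℕ) : Prop :=
  IsMinWt f w N ∧ 0 < N ∧ Spans w (face f w N)

theorem ray_ne {f : MvPolynomial (Fin n) ℂ} {K : ℕ} {I : Finset (Fin n →₀ ℕ)}
    {S : Finset (Fin n)} {ty : ℕ} {v₀ : Fin n →₀ ℕ} (hv₀ : v₀ ∈ f.support)
    {s₀ : ℚ} (hK : -s₀ < K) (h1 : s₀ ≠ -1)
    (hfac : ∀ w N, IsFacetWt f w N → ((∑ j, w j : ℕ) : ℚ) ≠ -s₀ * N)
    (z : GG n) (hz : MaxTight (lamF f K v₀) (EF f I S ty) z) :
    ((nuH v₀ z : ℤ) : ℚ) ≠ -s₀ * (muH n z : ℤ) := by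
  obtain ⟨hz0, hzC, hmax⟩ := hz
  have hC := mem_cone_iff.1 hzC
  obtain ⟨c1, c2, c3, c4, c5⟩ := hC
  have hdot : 0 ≤ dotH v₀ z := by
    rw [dotH_apply]
    exact Finset.sum_nonneg fun j _ => mul_nonneg (c1 j) (by positivity)
  have hm : 0 < z.2 := by
    rcases lt_or_eq_of_le (hdot.trans c4) with h | h
    · exact h
    · exfalso
      apply hz0
      refine Prod.ext ?_ h.symm
      funext j
      have := (c3 j).2
      rw [← h, mul_zero] at this
      exact le_antisymm this (c1 j)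
  rw [nuH_apply, muH_apply]
  by_cases hA : ∃ j, z.1 j = K * z.2
  · obtain ⟨j, hj⟩ := hA
    have h2 : z.1 j ≤ ∑ j, z.1 j := Finset.single_le_sum (fun i _ => c1 i) (Finset.mem_univ j)
    have h3 : (K : ℤ) * z.2 ≤ ∑ j, z.1 j + (z.2 - dotH v₀ z) := by
      rw [hj] at h2; omega
    have h4 : ((K : ℚ)) * z.2 ≤ ((∑ j, z.1 j + (z.2 - dotH v₀ z) : ℤ) : ℚ) := by
      exact_mod_cast h3
    have h5 : (0 : ℚ) < z.2 := by exact_mod_cast hm
    intro h6
    rw [h6] at h4
    nlinarith
  push Not at hA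
  rcases lt_or_eq_of_le c4 with hB | hB
  · -- the ray `(0, 1)`
    have hy : ((0, 1) : GG n) ∈ PSet (lamF f K v₀) 0 (EF f I S ty) := by
      rw [mem_cone_iff]
      have hd : ∀ v : Fin n →₀ ℕ, dotH v ((0, 1) : GG n) = 0 := by
        intro v; rw [dotH_apply]; simp
      refine ⟨fun j => by simp, fun v hv => ⟨fun _ => by rw [hd, hd], by rw [hd, hd]⟩,
        fun j => ⟨fun hj => absurd ((c3 j).1 hj) (hA j), by simp⟩, by rw [hd]; simp,
        fun ht => ?_⟩
      exact absurd (c5 ht) (by omega)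
    have h2 := hmax _ hy (by
      intro h
      have := congrArg Prod.snd h
      simp at this) ?_
    · have hz1 : z.1 = 0 := by
        funext j
        exact h2 (.inl (.inl j)) rfl
      have hd : dotH v₀ z = 0 := by rw [dotH_apply, hz1]; simp
      rw [hz1, hd]
      simp only [Pi.zero_apply, Finset.sum_const_zero, zero_add, sub_zero]
      intro h3
      have h5 : (z.2 : ℚ) ≠ 0 := by exact_mod_cast hm.ne'
      apply h1
      have h6 : (z.2 : ℚ) * (1 + s₀) = 0 := by linear_combination h3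
      rcases mul_eq_zero.1 h6 with h7 | h7
      · exact absurd h7 h5
      · linarith
    · rintro ((j | v) | (j | _)) hk
      · simp [lamF, coordH_apply]
      · simp [lamF, dotH_apply]
      · exfalso
        apply hA j
        simp only [lamF, AddMonoidHom.sub_apply, AddMonoidHom.smul_apply, muH_apply,
          coordH_apply, smul_eq_mul] at hk
        omega
      · exfalso
        simp only [lamF, AddMonoidHom.sub_apply, muH_apply] at hk
        omega
  · -- a facet weight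
    have hw : ∃ w : Fin n → ℕ, ∀ j, (w j : ℤ) = z.1 j :=
      ⟨fun j => (z.1 j).toNat, fun j => Int.toNat_of_nonneg (c1 j)⟩
    obtain ⟨w, hw⟩ := hw
    have hwt : ∀ v, (wt w v : ℤ) = dotH v z := by
      intro v
      rw [dotH_apply]
      unfold wt
      push_cast
      exact Finset.sum_congr rfl fun j _ => by rw [hw]
    obtain ⟨N, hN⟩ : ∃ N : ℕ, (N : ℤ) = z.2 := ⟨z.2.toNat, Int.toNat_of_nonneg hm.le⟩
    have hfw : IsFacetWt f w N := by
      refine ⟨⟨fun v hv => ?_, v₀, hv₀, ?_⟩, by omega, ?_⟩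
      · have := (c2 v hv).2
        have := hwt v
        omega
      · have := hwt v₀
        omega
      · intro y hy0 hyv
        have hyd : ∀ v : Fin n →₀ ℕ, dotH v ((y, 0) : GG n) = ∑ j, y j * (v j : ℤ) := fun v => rfl
        have hface : ∀ v ∈ f.support, dotH v z = dotH v₀ z → dotH v ((y, 0) : GG n) = 0 := by
          intro v hv h
          rw [hyd]
          refine hyv v (Finset.mem_filter.2 ⟨hv, ?_⟩)
          have := hwt v
          omega
        obtain ⟨p, q, hp, hpq⟩ := MaxTight.proportional (lamF f K v₀) (lamF_inj f K v₀)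
          ⟨hz0, hzC, hmax⟩ ((y, 0) : GG n) (by
            rintro ((j | v) | (j | _)) hk
            · refine hy0 j ?_
              have h3 : z.1 j = 0 := hk
              have := hw j
              omega
            · simp only [lamF, AddMonoidHom.sub_apply] at hk ⊢
              rw [hface v.1 v.2 (by omega), hface v₀ hv₀ rfl, sub_zero]
            · exfalso
              apply hA j
              simp only [lamF, AddMonoidHom.sub_apply, AddMonoidHom.smul_apply, muH_apply,
                coordH_apply, smul_eq_mul] at hk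
              omega
            · simp only [lamF, AddMonoidHom.sub_apply, muH_apply]
              rw [hface v₀ hv₀ rfl, sub_zero])
        have h3 : p * 0 = q * z.2 := congrArg Prod.snd hpq
        rw [mul_zero] at h3
        have h4 : q = 0 := by
          rcases mul_eq_zero.1 h3.symm with h | h
          · exact h
          · omega
        have h5 := congrArg Prod.fst hpq
        rw [h4, zero_smul] at h5
        change p • y = 0 at h5
        exact (smul_eq_zero.1 h5).resolve_left hp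
    have h2 := hfac w N hfw
    rw [← hN, ← hwt v₀]
    intro h3
    apply h2
    rw [← hB, ← hwt v₀] at hN
    have h4 : ((∑ j, z.1 j : ℤ) : ℚ) = ((∑ j, w j : ℕ) : ℚ) := by
      rw [Finset.sum_congr rfl fun j _ => (hw j).symm]
      push_cast
      rfl
    push_cast at h3 h4 ⊢
    rw [← h4]
    have h5 : (N : ℚ) = (wt w v₀ : ℚ) := by exact_mod_cast hN
    rw [h5] at h3 ⊢
    linarith

end MPb07157
end
end

section

/-!
# Poles of the motivic zeta function of a nondegenerate polynomial: main theorem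
-/

noncomputable section

namespace MPb07157

open MvPolynomial Finset

variable {n : ℕ}

/-- The motivic zeta function of the arcs with `ord γ_j ≥ ε` for all `j` (`ε = 0`: global,
`ε = 1`: local at the origin). -/
def ZE (f : MvPolynomial (Fin n) ℂ) (ε : ℕ) : PowerSeries Mot :=
  PowerSeries.mk fun m => muE f ε (m + 1) m

open Classical in
/-- A chosen element of a nonempty finset. -/
def v0 (I : Finset (Fin n →₀ ℕ)) : Fin n →₀ ℕ := if h : I.Nonempty then h.choose else 0

theorem v0_mem {I : Finset (Fin n →₀ ℕ)} (h : I.Nonempty) : v0 I ∈ I := by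
  unfold v0
  rw [dif_pos h]
  exact h.choose_spec

/-- The polyhedral sets. -/
def PQ (f : MvPolynomial (Fin n) ℂ) (K ε : ℕ) (I : Finset (Fin n →₀ ℕ)) (S : Finset (Fin n))
    (ty : ℕ) : Set (GG n) :=
  PSet (lamF f K (v0 I)) (cF f K ε I S ty) (EF f I S ty)

/-- The embedding of order vectors. -/
def emb (m : ℕ) (a : Fin n → ℕ) : GG n := (fun j => (a j : ℤ), (m : ℤ))

theorem emb_injective (m : ℕ) : Function.Injective (emb (n := n) m) := by
  intro a b h
  have h1 := congrArg Prod.fst h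
  funext j
  have h2 := congrFun h1 j
  simp only [emb] at h2
  exact_mod_cast h2

theorem dotH_emb (m : ℕ) (a : Fin n → ℕ) (v : Fin n →₀ ℕ) : dotH v (emb m a) = wt a v := by
  rw [dotH_apply]
  unfold wt emb
  push_cast
  rfl

open Classical in
/-- The order vectors belonging to a polyhedral set. -/
def boxP (f : MvPolynomial (Fin n) ℂ) (K ε m : ℕ) (I : Finset (Fin n →₀ ℕ))
    (S : Finset (Fin n)) (ty : ℕ) : Finset (Fin n → ℕ) :=
  (Fintype.piFinset (fun _ : Fin n => Finset.Icc ε (K * (m + 1)))).filter fun a =>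
    (face f a (nuf f a) = I ∧ SS (K * (m + 1)) a = S) ∧
      (nuf f a + ty ≤ m ∧ (ty = 0 → nuf f a = m))

theorem PQ_fiber {f : MvPolynomial (Fin n) ℂ} (hf : f ≠ 0) {K ε : ℕ}
    {I : Finset (Fin n →₀ ℕ)} (hI : I.Nonempty) (hIf : I ⊆ f.support) (S : Finset (Fin n))
    (ty m : ℕ) :
    {z ∈ PQ f K ε I S ty | muH n z = m} = ((boxP f K ε m I S ty).image (emb m) : Set (GG n)) := by
  classical
  ext z
  rw [Set.mem_ofPred_eq, muH_apply]
  unfold PQ
  rw [mem_PSet_iff]
  simp only [Finset.coe_image, Set.mem_image, Finset.mem_coe, boxP, Finset.mem_filter,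
    Fintype.mem_piFinset, Finset.mem_Icc]
  have hv0 := v0_mem hI
  constructor
  · rintro ⟨⟨h1, h2, h3, h4, h5⟩, h6⟩
    have hw : ∃ a : Fin n → ℕ, ∀ j, (a j : ℤ) = z.1 j :=
      ⟨fun j => (z.1 j).toNat, fun j => Int.toNat_of_nonneg (le_trans (by positivity) (h1 j))⟩
    obtain ⟨a, ha⟩ := hw
    have hz : emb m a = z := by
      refine Prod.ext ?_ h6.symm
      funext j
      exact ha j
    rw [← hz] at h2 h4 h5
    simp only [dotH_emb] at h2 h4 h5
    simp only [emb] at h4 h5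
    have hmin : IsMinWt f a (wt a (v0 I)) := by
      refine ⟨fun v hv => ?_, v0 I, hIf hv0, rfl⟩
      by_cases hvI : v ∈ I
      · have := (h2 v hv).1 hvI
        omega
      · have := (h2 v hv).2 hvI
        omega
    have hnu : nuf f a = wt a (v0 I) := (isMinWt_nuf hf a).eq hmin
    refine ⟨a, ⟨fun j => ?_, ⟨?_, ?_⟩, ?_, ?_⟩, hz⟩
    · have e1 := h1 j
      have e2 := h3 j
      rw [← ha j, h6] at e2
      rw [← ha j] at e1
      refine ⟨by omega, ?_⟩
      have : ((a j : ℕ) : ℤ) ≤ K * m + K := by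
        by_cases hj : j ∈ S
        · exact (e2.1 hj).le
        · have := e2.2 hj
          omega
      have h7 : ((a j : ℕ) : ℤ) ≤ ((K * (m + 1) : ℕ) : ℤ) := by push_cast; linarith
      exact_mod_cast h7
    · rw [hnu]
      ext v
      unfold face
      rw [Finset.mem_filter]
      constructor
      · rintro ⟨hv, h7⟩
        by_contra hvI
        have := (h2 v hv).2 hvI
        omega
      · intro hvI
        have := (h2 v (hIf hvI)).1 hvI
        exact ⟨hIf hvI, by omega⟩
    · ext j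
      unfold SS
      rw [Finset.mem_filter]
      have e2 := h3 j
      rw [← ha j, h6] at e2
      constructor
      · rintro ⟨-, h7⟩
        by_contra hj
        have := e2.2 hj
        have h8 : ((a j : ℕ) : ℤ) = K * m + K := by rw [h7]; push_cast; ring
        omega
      · intro hj
        refine ⟨Finset.mem_univ _, ?_⟩
        have := e2.1 hj
        have h8 : ((a j : ℕ) : ℤ) = ((K * (m + 1) : ℕ) : ℤ) := by rw [this]; push_cast; ring
        exact_mod_cast h8
    · rw [hnu]; omega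
    · intro ht
      rw [hnu]
      have := h5 ht
      omega
  · rintro ⟨a, ⟨h1, ⟨h2, h3⟩, h4, h5⟩, rfl⟩
    simp only [dotH_emb]
    have hmin := isMinWt_nuf hf a
    have hv0' : wt a (v0 I) = nuf f a := by
      rw [← h2] at hv0
      have h9 : v0 (face f a (nuf f a)) ∈ face f a (nuf f a) := hv0
      rw [face, Finset.mem_filter] at h9
      rw [← h2]
      exact h9.2
    refine ⟨⟨fun j => ?_, fun v hv => ⟨fun hvI => ?_, fun hvI => ?_⟩, fun j => ⟨fun hj => ?_,
      fun hj => ?_⟩, ?_, fun ht => ?_⟩, rfl⟩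
    · simp only [emb]
      exact_mod_cast (h1 j).1
    · rw [← h2, face, Finset.mem_filter] at hvI
      rw [hv0', hvI.2]
    · rw [hv0']
      have e1 := hmin.1 v hv
      have e2 : wt a v ≠ nuf f a := by
        intro h7
        apply hvI
        rw [← h2, face, Finset.mem_filter]
        exact ⟨hv, h7⟩
      omega
    · rw [← h3, SS, Finset.mem_filter] at hj
      simp only [emb]
      rw [hj.2]
      push_cast
      ring
    · have e1 := (h1 j).2
      have e2 : a j ≠ K * (m + 1) := by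
        intro h7
        apply hj
        rw [← h3, SS, Finset.mem_filter]
        exact ⟨Finset.mem_univ _, h7⟩
      have e3 : a j + 1 ≤ K * (m + 1) := by omega
      have e4 : ((a j : ℕ) : ℤ) + 1 ≤ K * (m + 1) := by exact_mod_cast e3
      simp only [emb]
      linarith
    · rw [hv0']
      simp only [emb]
      omega
    · rw [hv0']
      simp only [emb]
      have := h5 ht
      omega

theorem coeff_genF {f : MvPolynomial (Fin n) ℂ} (hf : f ≠ 0) {K ε : ℕ}
    {I : Finset (Fin n →₀ ℕ)} (hI : I.Nonempty) (hIf : I ⊆ f.support) (S : Finset (Fin n))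
    (ty m : ℕ) :
    PowerSeries.coeff m (genF (muH n) (nuH (v0 I)) (PQ f K ε I S ty)) =
      ∑ a ∈ boxP f K ε m I S ty, ((LU ^ (-(((∑ j, a j : ℕ) : ℤ) +
        ((m - nuf f a : ℕ) : ℤ))) : Motˣ) : Mot) := by
  classical
  unfold genF
  rw [PowerSeries.coeff_mk, PQ_fiber hf hI hIf S ty m, finsum_mem_coe_finset, Finset.sum_image fun a _ b _ h => emb_injective m h]
  refine Finset.sum_congr rfl fun a ha => ?_
  congr 3
  rw [boxP, Finset.mem_filter] at ha
  obtain ⟨-, ⟨h2, h3⟩, h4, h5⟩ := ha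
  rw [nuH_apply, dotH_emb]
  have hv0' : wt a (v0 I) = nuf f a := by
    have hv0 := v0_mem hI
    rw [← h2] at hv0
    have h9 : v0 (face f a (nuf f a)) ∈ face f a (nuf f a) := hv0
    rw [face, Finset.mem_filter] at h9
    rw [← h2]
    exact h9.2
  rw [hv0']
  simp only [emb]
  push_cast
  omega

/-- The constants. -/
def c0 (f : MvPolynomial (Fin n) ℂ) (I : Finset (Fin n →₀ ℕ)) (S : Finset (Fin n)) : Mot :=
  clsM (YS f I S) * ↑(LU ^ (-(Fintype.card {j // j ∉ S} : ℤ)))

/-- The constants. -/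
def c1 (f : MvPolynomial (Fin n) ℂ) (I : Finset (Fin n →₀ ℕ)) (S : Finset (Fin n)) : Mot :=
  clsM (XS f I S) * (↑LU - 1) * ↑(LU ^ (-(Fintype.card {j // j ∉ S} : ℤ)))

theorem muE_eq_sum {f : MvPolynomial (Fin n) ℂ} (hf : f ≠ 0) {K ε : ℕ} (hK : 1 ≤ K) (hε : ε ≤ 1)
    (hnd : ∀ a : Fin n → ℕ, (∀ j, ε ≤ a j) → NondegAt f (face f a (nuf f a))) (m : ℕ) :
    muE f ε (m + 1) m = ∑ p ∈ (f.support.powerset.filter Finset.Nonempty) ×ˢ
      (Finset.univ : Finset (Finset (Fin n))),
      (c0 f p.1 p.2 * PowerSeries.coeff m (genF (muH n) (nuH (v0 p.1)) (PQ f K ε p.1 p.2 0)) +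
       c1 f p.1 p.2 * PowerSeries.coeff m (genF (muH n) (nuH (v0 p.1)) (PQ f K ε p.1 p.2 1))) := by
  classical
  have hm : m < K * (m + 1) := by nlinarith
  have hεN : ε ≤ K * (m + 1) := by nlinarith
  rw [← muE_eq f hm hε]
  unfold muE
  rw [clsM_arcs_eq_sum f m hεN, Finset.mul_sum]
  rw [← Finset.sum_fiberwise_of_maps_to (g := fun a : Fin n → ℕ =>
    (face f a (nuf f a), SS (K * (m + 1)) a)) (t := (f.support.powerset.filter Finset.Nonempty) ×ˢ
      (Finset.univ : Finset (Finset (Fin n))))]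
  · refine Finset.sum_congr rfl fun p hp => ?_
    obtain ⟨I, S⟩ := p
    rw [Finset.mem_product, Finset.mem_filter, Finset.mem_powerset] at hp
    obtain ⟨⟨hIf, hI⟩, -⟩ := hp
    simp only at hIf hI ⊢
    rw [coeff_genF hf hI hIf, coeff_genF hf hI hIf, Finset.mul_sum, Finset.mul_sum]
    have hb0 : boxP f K ε m I S 0 = ((Fintype.piFinset (fun _ : Fin n =>
        Finset.Icc ε (K * (m + 1)))).filter fun a => (face f a (nuf f a), SS (K * (m + 1)) a) =
          (I, S)).filter fun a => nuf f a = m := by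
      ext a
      simp only [boxP, Finset.mem_filter, Prod.mk.injEq]
      constructor
      · rintro ⟨h1, h2, h3, h4⟩
        exact ⟨⟨h1, h2⟩, h4 trivial⟩
      · rintro ⟨⟨h1, h2⟩, h3⟩
        exact ⟨h1, h2, by omega, fun _ => h3⟩
    have hb1 : boxP f K ε m I S 1 = ((Fintype.piFinset (fun _ : Fin n =>
        Finset.Icc ε (K * (m + 1)))).filter fun a => (face f a (nuf f a), SS (K * (m + 1)) a) =
          (I, S)).filter fun a => nuf f a < m := by
      ext a
      simp only [boxP, Finset.mem_filter, Prod.mk.injEq]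
      constructor
      · rintro ⟨h1, h2, h3, h4⟩
        exact ⟨⟨h1, h2⟩, h3⟩
      · rintro ⟨⟨h1, h2⟩, h3⟩
        exact ⟨h1, h2, h3, fun h => by omega⟩
    rw [hb0, hb1, Finset.sum_filter (fun a => nuf f a = m), Finset.sum_filter
      (fun a => nuf f a < m), ← Finset.sum_add_distrib]
    refine Finset.sum_congr rfl fun a ha => ?_
    rw [Finset.mem_filter, Fintype.mem_piFinset, Prod.mk.injEq] at ha
    obtain ⟨h1, h2, h3⟩ := ha
    rw [clsM_stratum hf hm (fun j => (Finset.mem_Icc.1 (h1 j)).2)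
      (hnd a fun j => (Finset.mem_Icc.1 (h1 j)).1)]
    rw [h2, h3]
    unfold c0 c1
    rcases lt_trichotomy (nuf f a) m with h | h | h
    · rw [if_neg h.ne, if_pos h, if_neg h.ne, zero_add]
    · rw [if_pos h, if_pos h, if_neg (by omega), add_zero, h, Nat.sub_self]
      simp
    · rw [if_neg (by omega), if_neg (by omega), if_neg (by omega), add_zero]
  · intro a _
    rw [Finset.mem_product, Finset.mem_filter, Finset.mem_powerset]
    refine ⟨⟨Finset.filter_subset _ _, ?_⟩, Finset.mem_univ _⟩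
    obtain ⟨-, v, hv, h⟩ := isMinWt_nuf hf a
    exact ⟨v, Finset.mem_filter.2 ⟨hv, h⟩⟩

/-- **Poles of the motivic zeta function of a nondegenerate polynomial.** -/
theorem ZE_mem_regularAt {f : MvPolynomial (Fin n) ℂ} (hf : f ≠ 0) {ε : ℕ} (hε : ε ≤ 1)
    (hnd : ∀ a : Fin n → ℕ, (∀ j, ε ≤ a j) → NondegAt f (face f a (nuf f a)))
    {s₀ : ℚ} (h1 : s₀ ≠ -1)
    (hfac : ∀ w N, IsFacetWt f w N → ((∑ j, w j : ℕ) : ℚ) ≠ -s₀ * N) :
    ZE f ε ∈ regularAt s₀ := by
  classical
  obtain ⟨K, hK⟩ := exists_nat_gt (max (-s₀) 1)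
  have hK1 : 1 ≤ K := by
    have : (1 : ℚ) < K := lt_of_le_of_lt (le_max_right _ _) hK
    exact_mod_cast this.le
  have hKs : -s₀ < K := lt_of_le_of_lt (le_max_left _ _) hK
  have hsum : ZE f ε = ∑ p ∈ (f.support.powerset.filter Finset.Nonempty) ×ˢ
      (Finset.univ : Finset (Finset (Fin n))),
      (c0 f p.1 p.2 • genF (muH n) (nuH (v0 p.1)) (PQ f K ε p.1 p.2 0) +
       c1 f p.1 p.2 • genF (muH n) (nuH (v0 p.1)) (PQ f K ε p.1 p.2 1)) := by
    ext m
    unfold ZE
    rw [PowerSeries.coeff_mk, muE_eq_sum hf hK1 hε hnd, map_sum]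
    refine Finset.sum_congr rfl fun p _ => ?_
    rw [map_add, PowerSeries.coeff_smul, PowerSeries.coeff_smul, smul_eq_mul, smul_eq_mul]
  rw [hsum]
  refine Subalgebra.sum_mem _ fun p hp => ?_
  obtain ⟨I, S⟩ := p
  rw [Finset.mem_product, Finset.mem_filter, Finset.mem_powerset] at hp
  obtain ⟨⟨hIf, hI⟩, -⟩ := hp
  simp only at hIf hI ⊢
  have key : ∀ ty, genF (muH n) (nuH (v0 I)) (PQ f K ε I S ty) ∈ regularAt s₀ := by
    intro ty
    unfold PQ
    have hpos : ∀ z ∈ PSet (lamF f K (v0 I)) (cF f K ε I S ty) (EF f I S ty), 0 ≤ muH n z := by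
      intro z hz
      rw [mem_PSet_iff] at hz
      obtain ⟨h1, -, -, h4, -⟩ := hz
      have hdot : 0 ≤ dotH (v0 I) z := by
        rw [dotH_apply]
        exact Finset.sum_nonneg fun j _ => mul_nonneg (le_trans (by positivity) (h1 j))
          (by positivity)
      rw [muH_apply]
      omega
    refine genF_mem_regularAt _ (lamF_inj f K (v0 I)) (muH n) (nuH (v0 I)) s₀ _ _ hpos ?_ ?_
    · intro m
      rcases lt_or_ge m 0 with hm | hm
      · refine Set.Finite.subset Set.finite_empty ?_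
        rintro z ⟨h2, h3⟩
        have := hpos z h2
        omega
      · obtain ⟨m, rfl⟩ := Int.eq_ofNat_of_zero_le hm
        have := PQ_fiber (K := K) (ε := ε) hf hI hIf S ty m
        unfold PQ at this
        rw [this]
        exact Set.toFinite _
    · intro z hz
      exact ray_ne (hIf (v0_mem hI)) hKs h1 hfac z hz
  exact Subalgebra.add_mem _ (Subalgebra.smul_mem _ (key 0) _) (Subalgebra.smul_mem _ (key 1) _)

end MPb07157
end
end
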