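import Pool.Agent.Lib.MP_b07157_ag.NewtDescent
import Pool.Agent.Lib.MP_b07157_ag.NewtVG

section

/-!
# Descent with control of the coefficients
-/

noncomputable section

namespace MPb07157

open MvPolynomial Finset

/-- Descent to the field generated by the coefficients, with control of the coefficients. -/
theorem descent' {σ T E : Type} [Fintype T] (c : σ → ℂ) (hc : AlgebraicIndependent ℚ c)
    (g : T → Polynomial ℂ) (q : E → ℕ) (H : T → E → MvPolynomial σ ℚ)
    (h : ∀ e, ∑ t, (g t).eval (q e : ℂ) * (aeval c (H t e) : ℂ) = 0) (t₀ : T) (s₀ : ℚ)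
    (h0 : (g t₀).eval (s₀ : ℂ) ≠ 0) :
    ∃ G : T → Polynomial (MvPolynomial σ ℚ),
      (G t₀).eval (C s₀ : MvPolynomial σ ℚ) ≠ 0 ∧
      (∀ e, ∑ t, (G t).eval (q e : MvPolynomial σ ℚ) * H t e = 0) ∧
      ∀ t i, (g t).coeff i = 0 → (G t).coeff i = 0 := by
  classical
  let K := IntermediateField.adjoin ℚ (Set.range c)
  have hH : ∀ P : MvPolynomial σ ℚ, (aeval c P : ℂ) ∈ K := fun P => by
    rw [IntermediateField.mem_adjoin_range_iff]
    exact ⟨P, 1, by simp⟩
  -- a linear functional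
  obtain ⟨Λ, hΛ⟩ : ∃ Λ : ℂ →ₗ[K] K, Λ ((g t₀).eval (s₀ : ℂ)) ≠ 0 := by
    by_contra hcon
    push Not at hcon
    exact h0 ((Module.forall_dual_apply_eq_zero_iff K _).1 hcon)
  -- evaluation of the transported polynomials
  have hev : ∀ (t : T) (r : K), ((Λ ((g t).eval (r : ℂ)) : K) : ℂ) =
      ∑ i ∈ (g t).support, ((Λ ((g t).coeff i) : K) : ℂ) * (r : ℂ) ^ i := by
    intro t r
    have e1 : (g t).eval (r : ℂ) = ∑ i ∈ (g t).support, (r ^ i : K) • (g t).coeff i := by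
      rw [Polynomial.eval_eq_sum, Polynomial.sum]
      refine Finset.sum_congr rfl fun i _ => ?_
      rw [Algebra.smul_def, mul_comm]
      rfl
    rw [e1, map_sum]
    push_cast
    refine Finset.sum_congr rfl fun i _ => ?_
    rw [map_smul, smul_eq_mul, mul_comm]
    push_cast
    rfl
  obtain ⟨d, hd, hP⟩ := common_denom c
    (Finset.univ.biUnion fun t => (g t).support.image fun i => ((Λ ((g t).coeff i) : K) : ℂ)) (by
      intro z hz
      rw [Finset.mem_biUnion] at hz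
      obtain ⟨t, -, hz⟩ := hz
      obtain ⟨i, -, rfl⟩ := Finset.mem_image.1 hz
      exact (Λ ((g t).coeff i)).2)
  have hP' : ∀ t i, ∃ P : MvPolynomial σ ℚ, i ∈ (g t).support →
      (aeval c P : ℂ) = aeval c d * ((Λ ((g t).coeff i) : K) : ℂ) := by
    intro t i
    by_cases hi : i ∈ (g t).support
    · obtain ⟨P, h⟩ := hP _ (Finset.mem_biUnion.2 ⟨t, Finset.mem_univ _,
        Finset.mem_image.2 ⟨i, hi, rfl⟩⟩)
      exact ⟨P, fun _ => h⟩
    · exact ⟨0, fun h => absurd h hi⟩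
  choose P hPP using hP'
  have key : ∀ (t : T) (R : MvPolynomial σ ℚ), (aeval c
      ((∑ i ∈ (g t).support, Polynomial.monomial i (P t i)).eval R) : ℂ) =
      aeval c d * ((Λ ((g t).eval (aeval c R : ℂ)) : K) : ℂ) := by
    intro t R
    have := hev t ⟨aeval c R, hH R⟩
    simp only at this
    rw [this, Polynomial.eval_finsetSum, map_sum, Finset.mul_sum]
    refine Finset.sum_congr rfl fun i hi => ?_
    rw [Polynomial.eval_monomial, map_mul, map_pow, hPP t i hi]
    ring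
  refine ⟨fun t => ∑ i ∈ (g t).support, Polynomial.monomial i (P t i), ?_, ?_, ?_⟩
  · intro h1
    have h2 := key t₀ (C s₀)
    rw [h1, map_zero] at h2
    have h3 : (aeval c (C s₀ : MvPolynomial σ ℚ) : ℂ) = (s₀ : ℂ) := by
      rw [aeval_C]; rfl
    rw [h3] at h2
    rcases mul_eq_zero.1 h2.symm with h4 | h4
    · exact hd h4
    · exact hΛ (Subtype.ext h4)
  · intro e
    apply hc
    rw [map_zero, map_sum]
    have e1 : ∀ t, (aeval c ((∑ i ∈ (g t).support, Polynomial.monomial i (P t i)).eval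
        (q e : MvPolynomial σ ℚ) * H t e) : ℂ) =
        aeval c d * ((Λ ((g t).eval (q e : ℂ) * (aeval c (H t e) : ℂ)) : K) : ℂ) := by
      intro t
      rw [map_mul, key t]
      have e2 : (g t).eval (q e : ℂ) * (aeval c (H t e) : ℂ) =
          (⟨aeval c (H t e), hH _⟩ : K) • (g t).eval (q e : ℂ) := by
        rw [Algebra.smul_def, mul_comm]; rfl
      rw [e2, map_smul, smul_eq_mul, map_natCast]
      push_cast
      ring
    rw [Finset.sum_congr rfl fun t _ => e1 t, ← Finset.mul_sum]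
    have e3 : (∑ t, ((Λ ((g t).eval (q e : ℂ) * (aeval c (H t e) : ℂ)) : K) : ℂ)) =
        ((Λ (∑ t, (g t).eval (q e : ℂ) * (aeval c (H t e) : ℂ)) : K) : ℂ) := by
      rw [map_sum]
      push_cast
      rfl
    rw [e3, h e, map_zero]
    simp
  · intro t i hi
    beta_reduce
    rw [Polynomial.finsetSum_coeff]
    refine Finset.sum_eq_zero fun j hj => ?_
    rw [Polynomial.coeff_monomial, if_neg]
    rintro rfl
    exact (Polynomial.mem_support_iff.1 hj) hi

end MPb07157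
end
end

section

/-!
# Roots of Bernstein–Sato polynomials of very general polynomials: the polynomial case

For operators with polynomial coefficients the coefficient extraction gives an identity of
polynomials in all exponents of the coefficients of `f`.
-/

noncomputable section

namespace MPb07157

open MvPolynomial Finset
open scoped Nat

variable {n : ℕ}

/-- Values at integers `q` of elements of `D_n[s] f^{s+1}`, with polynomial coefficients. -/
inductive OpValP (F : MvPowerSeries (Fin n) ℂ) : (ℕ → MvPowerSeries (Fin n) ℂ) → Prop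
  | base (β : Fin n →₀ ℕ) : OpValP F (fun q => dPow β (F ^ (q + 1)))
  | add {Φ Ψ} : OpValP F Φ → OpValP F Ψ → OpValP F (fun q => Φ q + Ψ q)
  | mul {Φ} (c : MvPolynomial (Fin n) (Polynomial ℂ)) : OpValP F Φ →
      OpValP F (fun q => (toForm c).eval (q : MvPowerSeries (Fin n) ℂ) * Φ q)

theorem OpValP.deriv {F : MvPowerSeries (Fin n) ℂ} {Φ : ℕ → MvPowerSeries (Fin n) ℂ}
    (h : OpValP F Φ) (i : Fin n) : OpValP F (fun q => MvPowerSeries.pderiv ℂ i (Φ q)) := by
  induction h with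
  | base β =>
    simp only [pderiv_dPow]
    exact OpValP.base _
  | add _ _ ih1 ih2 =>
    simp only [map_add]
    exact ih1.add ih2
  | @mul Φ c h ih =>
    have : (fun q : ℕ => MvPowerSeries.pderiv ℂ i
        ((toForm c).eval (q : MvPowerSeries (Fin n) ℂ) * Φ q)) =
        fun q : ℕ => (toForm c).eval (q : MvPowerSeries (Fin n) ℂ) *
          MvPowerSeries.pderiv ℂ i (Φ q) +
          (toForm (pderiv i c)).eval (q : MvPowerSeries (Fin n) ℂ) * Φ q := by
      funext q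
      rw [toForm_pderiv, eval_derivC, Derivation.leibniz, smul_eq_mul, smul_eq_mul]
      ring
    rw [this]
    exact (OpValP.mul c ih).add (OpValP.mul _ h)

theorem toForm_deriv_step (f : MvPolynomial (Fin n) ℂ) (k : ℕ) (i : Fin n)
    (g : MvPolynomial (Fin n) (Polynomial ℂ)) :
    toForm (liftS f * pderiv i g +
        C (Polynomial.X + 1 - (k : Polynomial ℂ)) * liftS (pderiv i f) * g) =
      Polynomial.C (f : MvPowerSeries (Fin n) ℂ) * derivC i (toForm g) +
        (Polynomial.X + 1 - (k : Polynomial (MvPowerSeries (Fin n) ℂ))) *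
          Polynomial.C ((pderiv i f : MvPolynomial (Fin n) ℂ) : MvPowerSeries (Fin n) ℂ) *
            toForm g := by
  rw [map_add, map_mul, map_mul, map_mul, toForm_liftS, toForm_liftS, toForm_pderiv, toForm_C]
  simp only [Polynomial.map_sub, Polynomial.map_add, Polynomial.map_X, Polynomial.map_one,
    Polynomial.map_natCast]

theorem InDn.exists_opValP {f : MvPolynomial (Fin n) ℂ} {k : ℕ}
    {g : MvPolynomial (Fin n) (Polynomial ℂ)} (h : InDn f k g) (hf : f ≠ 0) :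
    ∃ Φ, OpValP (f : MvPowerSeries (Fin n) ℂ) Φ ∧ ∃ q₀, ∀ q ≥ q₀, k ≤ q + 1 ∧
      (MPb07157.toForm g).eval (q : MvPowerSeries (Fin n) ℂ) *
        (f : MvPowerSeries (Fin n) ℂ) ^ (q + 1 - k) = Φ q := by
  have hF : (f : MvPowerSeries (Fin n) ℂ) ≠ 0 := by
    intro h0
    exact hf (MvPolynomial.coe_injective _ _ (by simpa using h0))
  induction h with
  | base =>
    refine ⟨_, OpValP.base 0, 0, fun q _ => ⟨by omega, ?_⟩⟩
    rw [dPow_zero, map_one]
    simp
  | add _ _ ih1 ih2 =>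
    obtain ⟨Φ, hΦ, q₁, h1⟩ := ih1
    obtain ⟨Ψ, hΨ, q₂, h2⟩ := ih2
    refine ⟨_, hΦ.add hΨ, max q₁ q₂, fun q hq => ⟨(h1 q (le_of_max_le_left hq)).1, ?_⟩⟩
    rw [map_add, Polynomial.eval_add, add_mul, (h1 q (le_of_max_le_left hq)).2,
      (h2 q (le_of_max_le_right hq)).2]
  | mul c _ ih =>
    obtain ⟨Φ, hΦ, q₁, h1⟩ := ih
    refine ⟨_, OpValP.mul c hΦ, q₁, fun q hq => ⟨(h1 q hq).1, ?_⟩⟩
    rw [map_mul, Polynomial.eval_mul, mul_assoc, (h1 q hq).2]
  | @deriv k g i _ ih =>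
    obtain ⟨Φ, hΦ, q₁, h1⟩ := ih
    refine ⟨_, hΦ.deriv i, max q₁ k, fun q hq => ⟨?_, ?_⟩⟩
    · have := le_of_max_le_right hq; omega
    · have hk := le_of_max_le_right hq
      rw [← (h1 q (le_of_max_le_left hq)).2, toForm_deriv_step]
      have e1 : q + 1 - k = (q + 1 - (k + 1)) + 1 := by omega
      have e2 : q + 1 - k - 1 = q + 1 - (k + 1) := by omega
      rw [Derivation.leibniz, MvPowerSeries.pderiv_pow, e2, smul_eq_mul, smul_eq_mul,
        ← eval_derivC, MvPowerSeries.pderiv_coe]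
      simp only [Polynomial.eval_add, Polynomial.eval_mul, Polynomial.eval_sub, Polynomial.eval_C,
        Polynomial.eval_X, Polynomial.eval_one, Polynomial.eval_natCast]
      have e3 : ((q + 1 - k : ℕ) : MvPowerSeries (Fin n) ℂ) =
          (q : MvPowerSeries (Fin n) ℂ) + 1 - k := by
        rw [Nat.cast_sub (by omega)]; push_cast; ring
      rw [e3, e1, pow_succ]
      ring
  | raise _ ih =>
    obtain ⟨Φ, hΦ, q₁, h1⟩ := ih
    rename_i k g _
    refine ⟨_, hΦ, max q₁ k, fun q hq => ⟨?_, ?_⟩⟩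
    · have := le_of_max_le_right hq; omega
    · have hk := le_of_max_le_right hq
      rw [← (h1 q (le_of_max_le_left hq)).2]
      have e1 : q + 1 - k = (q + 1 - (k + 1)) + 1 := by omega
      rw [map_mul, toForm_liftS, Polynomial.eval_mul, Polynomial.eval_C, e1, pow_succ]
      ring
  | lower _ ih =>
    obtain ⟨Φ, hΦ, q₁, h1⟩ := ih
    rename_i k g _
    refine ⟨_, hΦ, q₁, fun q hq => ⟨?_, ?_⟩⟩
    · have := (h1 q hq).1; omega
    · have hk := (h1 q hq).1
      rw [← (h1 q hq).2]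
      have e1 : q + 1 - k = (q + 1 - (k + 1)) + 1 := by omega
      rw [map_mul, toForm_liftS, Polynomial.eval_mul, Polynomial.eval_C, e1, pow_succ]
      ring

/-- Flat form of `OpValP`. -/
theorem OpValP.flat {F : MvPowerSeries (Fin n) ℂ} {Φ : ℕ → MvPowerSeries (Fin n) ℂ}
    (h : OpValP F Φ) : ∃ (k : ℕ) (c : Fin k → MvPolynomial (Fin n) (Polynomial ℂ))
      (β : Fin k → (Fin n →₀ ℕ)), ∀ q, Φ q =
        ∑ i, (toForm (c i)).eval (q : MvPowerSeries (Fin n) ℂ) * dPow (β i) (F ^ (q + 1)) := by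
  induction h with
  | base β => exact ⟨1, fun _ => 1, fun _ => β, fun q => by simp⟩
  | add _ _ ih1 ih2 =>
    obtain ⟨k1, c1, β1, h1⟩ := ih1
    obtain ⟨k2, c2, β2, h2⟩ := ih2
    refine ⟨k1 + k2, Fin.append c1 c2, Fin.append β1 β2, fun q => ?_⟩
    rw [Fin.sum_univ_add]
    simp only [Fin.append_left, Fin.append_right]
    rw [← h1, ← h2]
  | mul c _ ih =>
    obtain ⟨k, c', β, h⟩ := ih
    refine ⟨k, fun i => c * c' i, β, fun q => ?_⟩
    beta_reduce
    rw [h, Finset.mul_sum]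
    refine Finset.sum_congr rfl fun i _ => ?_
    rw [map_mul, Polynomial.eval_mul, mul_assoc]

theorem cpoly_toForm_eq_zero (c : MvPolynomial (Fin n) (Polynomial ℂ)) {m : Fin n →₀ ℕ}
    (hm : m ∉ c.support) : RootData.Line.cpoly (toForm c) m = 0 := by
  unfold RootData.Line.cpoly
  rw [Polynomial.sum_def]
  refine Finset.sum_eq_zero fun j _ => ?_
  rw [coeff_toForm, MvPolynomial.notMem_support_iff.1 hm, Polynomial.coeff_zero,
    Polynomial.monomial_zero_right]

open Classical in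
/-- The coefficient of `x^M` of a term. -/
theorem coeff_termP (f : MvPolynomial (Fin n) ℂ) (M : Fin n →₀ ℕ) (q : ℕ)
    (c : MvPolynomial (Fin n) (Polynomial ℂ)) (β : Fin n →₀ ℕ) :
    MvPowerSeries.coeff M ((toForm c).eval (q : MvPowerSeries (Fin n) ℂ) *
      dPow β ((f : MvPowerSeries (Fin n) ℂ) ^ (q + 1))) =
    ∑ m ∈ c.support, (RootData.Line.cpoly (toForm c) m).eval (q : ℂ) *
      (if m ≤ M then (∏ j, (((M - m) j + 1).ascFactorial (β j) : ℂ)) *
        coeff (M - m + β) (f ^ (q + 1)) else 0) := by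
  rw [MvPowerSeries.coeff_mul]
  have h1 : ∀ p ∈ Finset.HasAntidiagonal.antidiagonal M,
      MvPowerSeries.coeff p.1 ((toForm c).eval (q : MvPowerSeries (Fin n) ℂ)) *
        MvPowerSeries.coeff p.2 (dPow β ((f : MvPowerSeries (Fin n) ℂ) ^ (q + 1))) =
      (fun m => (RootData.Line.cpoly (toForm c) m).eval (q : ℂ) *
        (if m ≤ M then (∏ j, (((M - m) j + 1).ascFactorial (β j) : ℂ)) *
          coeff (M - m + β) (f ^ (q + 1)) else 0)) p.1 := by
    intro p hp
    rw [Finset.HasAntidiagonal.mem_antidiagonal] at hp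
    beta_reduce
    have h2 : p.1 ≤ M := by rw [← hp]; exact le_add_of_nonneg_right zero_le
    have h3 : M - p.1 = p.2 := by rw [← hp, add_tsub_cancel_left]
    rw [if_pos h2, RootData.Line.cpoly_eval, h3, coeff_dPow, ← MvPolynomial.coe_pow,
      MvPolynomial.coeff_coe]
  rw [Finset.sum_congr rfl h1]
  have h3 : ∀ G : (Fin n →₀ ℕ) → ℂ, ∑ p ∈ Finset.HasAntidiagonal.antidiagonal M, G p.1 =
      ∑ m ∈ Finset.Iic M, G m := by
    intro G
    refine Finset.sum_nbij' (fun p => p.1) (fun θ => (θ, M - θ)) ?_ ?_ ?_ ?_ ?_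
    · intro p hp
      rw [Finset.HasAntidiagonal.mem_antidiagonal] at hp
      rw [Finset.mem_Iic, ← hp]
      exact le_add_of_nonneg_right zero_le
    · intro θ hθ
      rw [Finset.mem_Iic] at hθ
      rw [Finset.HasAntidiagonal.mem_antidiagonal]
      exact add_tsub_cancel_of_le hθ
    · intro p hp
      rw [Finset.HasAntidiagonal.mem_antidiagonal] at hp
      ext1
      · rfl
      · simp only
        rw [← hp, add_tsub_cancel_left]
    · intro θ _
      rfl
    · intro p _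
      rfl
  rw [h3 (fun m => (RootData.Line.cpoly (toForm c) m).eval (q : ℂ) *
        (if m ≤ M then (∏ j, (((M - m) j + 1).ascFactorial (β j) : ℂ)) *
          coeff (M - m + β) (f ^ (q + 1)) else 0))]
  rw [Finset.sum_subset (s₁ := Finset.Iic M) (s₂ := Finset.Iic M ∪ c.support)
      Finset.subset_union_left,
    Finset.sum_subset (s₁ := c.support) (s₂ := Finset.Iic M ∪ c.support)
      Finset.subset_union_right]
  · intro m _ hm
    rw [cpoly_toForm_eq_zero c hm, Polynomial.eval_zero, zero_mul]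
  · intro m _ hm
    rw [Finset.mem_Iic] at hm
    rw [if_neg hm, mul_zero]

section Extraction

variable {f : MvPolynomial (Fin n) ℂ}

/-- The power belonging to an exponent vector. -/
def kq (κ : Sf f →₀ ℕ) : ℕ := ∑ v, κ v

/-- The monomial belonging to an exponent vector. -/
def kM (κ : Sf f →₀ ℕ) : Fin n →₀ ℕ := ∑ v, κ v • v.1

/-- The power, as a polynomial in the exponents. -/
def qp (f : MvPolynomial (Fin n) ℂ) : MvPolynomial (Sf f) ℚ := ∑ v, X v

/-- The monomial, as a polynomial in the exponents. -/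
def mp (f : MvPolynomial (Fin n) ℂ) (j : Fin n) : MvPolynomial (Sf f) ℚ :=
  ∑ v : Sf f, X v * C ((v.1 j : ℕ) : ℚ)

/-- The polynomial belonging to a displacement. -/
def pp (E : ℕ) (δ : Sf f → ℤ) : MvPolynomial (Sf f) ℚ :=
  ∏ v, ∏ e ∈ Ioc (δ v) (E : ℤ), (X v + C (e : ℚ))

/-- Normalization. -/
def nrmK (E : ℕ) (κ : Sf f →₀ ℕ) : ℚ := (∏ v, ((κ v + E)! : ℚ)) / ((kq κ)! : ℚ)

/-- The point with coordinates `κ`. -/
def ev (κ : Sf f →₀ ℕ) : Sf f → ℚ := fun v => (κ v : ℚ)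

theorem eval_qp (κ : Sf f →₀ ℕ) : eval (ev κ) (qp f) = (kq κ : ℚ) := by
  unfold qp kq ev
  simp

theorem kM_apply (κ : Sf f →₀ ℕ) (j : Fin n) : kM κ j = ∑ v, κ v * v.1 j := by
  unfold kM
  rw [Finsupp.finsetSum_apply]
  rfl

theorem eval_mp (κ : Sf f →₀ ℕ) (j : Fin n) : eval (ev κ) (mp f j) = (kM κ j : ℚ) := by
  rw [kM_apply]
  unfold mp ev
  simp

theorem eval_pp (E : ℕ) (δ : Sf f → ℤ) (κ : Sf f →₀ ℕ) :
    eval (ev κ) (pp E δ) = ∏ v, ∏ e ∈ Ioc (δ v) (E : ℤ), ((κ v : ℚ) + (e : ℚ)) := by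
  unfold pp ev
  simp [map_prod]

/-- The coefficient condition on a displacement. -/
def CondK (τ : ℕ) (x : Fin n → ℤ) (δ : Sf f → ℤ) : Prop :=
  ∑ v, δ v = τ ∧ ∀ j, ∑ v, δ v * ((v.1 j : ℕ) : ℤ) = x j

theorem multinomial_nrmK (E τ : ℕ) (hτ : τ ≤ 1) (κ μ : Sf f →₀ ℕ) (δ : Sf f → ℤ)
    (hμ : ∀ v, (μ v : ℤ) = κ v + δ v) (hs : ∑ v, μ v = kq κ + τ) (hE : ∀ v, δ v ≤ E) :
    (Nat.multinomial univ μ : ℚ) * nrmK E κ =
      ((kq κ : ℚ) + 1) ^ τ * eval (ev κ) (pp E δ) := by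
  classical
  have e1 : (Nat.multinomial univ μ : ℚ) = ((kq κ + τ)! : ℚ) / ∏ v, ((μ v)! : ℚ) := by
    rw [eq_div_iff (Finset.prod_ne_zero_iff.2 fun v _ => by
      exact_mod_cast Nat.factorial_ne_zero _)]
    have := Nat.multinomial_spec univ μ
    rw [hs] at this
    rw [mul_comm]
    exact_mod_cast this
  have e5 : eval (ev κ) (pp E δ) = (∏ v, ((κ v + E)! : ℚ)) / ∏ v, ((μ v)! : ℚ) := by
    rw [eval_pp, ← Finset.prod_div_distrib]
    refine Finset.prod_congr rfl fun v _ => ?_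
    have h1 := hμ v
    rw [VGData.VLine.prod_Ioc_eq' _ _ _ (by omega) (hE v)]
    congr 3
    omega
  have h4 : ((kq κ)! : ℚ) ≠ 0 := by exact_mod_cast Nat.factorial_ne_zero _
  have h6 : (∏ v, ((μ v)! : ℚ)) ≠ 0 :=
    Finset.prod_ne_zero_iff.2 fun v _ => by exact_mod_cast Nat.factorial_ne_zero _
  have h7 : ((kq κ + τ)! : ℚ) = ((kq κ : ℚ) + 1) ^ τ * ((kq κ)! : ℚ) := by
    rcases Nat.le_one_iff_eq_zero_or_eq_one.1 hτ with rfl | rfl
    · simp
    · rw [Nat.factorial_succ]; push_cast; ring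
  rw [e1, e5, nrmK, h7]
  field_simp

open Classical in
theorem coeff_nrmK (E τ : ℕ) (hτ : τ ≤ 1) (κ θ θ₀ : Sf f →₀ ℕ) (M' : Fin n →₀ ℕ)
    (hE : ∀ v, ((θ₀ v : ℤ) - θ v) ≤ E) :
    (if θ ≤ θ₀ + κ then coeff (θ₀ + κ - θ) (Hc f (kq κ + τ) M') else 0) * nrmK E κ =
      if CondK τ (fun j => (M' j : ℤ) - kM κ j) (fun v => (θ₀ v : ℤ) - θ v) then
        ((kq κ : ℚ) + 1) ^ τ * eval (ev κ) (pp E (fun v => (θ₀ v : ℤ) - θ v)) else 0 := by
  by_cases hle : θ ≤ θ₀ + κ
  · rw [if_pos hle]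
    set μ := θ₀ + κ - θ with hμdef
    have hμ : ∀ v, (μ v : ℤ) = κ v + ((θ₀ v : ℤ) - θ v) := by
      intro v
      have h1 := hle v
      simp only [Finsupp.coe_add, Pi.add_apply] at h1
      simp only [hμdef, Finsupp.coe_tsub, Finsupp.coe_add, Pi.sub_apply, Pi.add_apply]
      omega
    have hiff : (∑ v, μ v = kq κ + τ ∧ ∑ v, μ v • v.1 = M') ↔
        CondK τ (fun j => (M' j : ℤ) - kM κ j) (fun v => (θ₀ v : ℤ) - θ v) := by
      unfold CondK
      have hsum : ((∑ v, μ v : ℕ) : ℤ) = kq κ + ∑ v, ((θ₀ v : ℤ) - θ v) := by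
        push_cast
        rw [Finset.sum_congr rfl fun v _ => hμ v, Finset.sum_add_distrib]
        unfold kq
        push_cast
        rfl
      have hexp : ∀ j, (((∑ v, μ v • v.1 : Fin n →₀ ℕ) j : ℕ) : ℤ) =
          kM κ j + ∑ v, ((θ₀ v : ℤ) - θ v) * ((v.1 j : ℕ) : ℤ) := by
        intro j
        rw [Finsupp.finsetSum_apply, kM_apply]
        simp only [Finsupp.coe_smul, Pi.smul_apply, smul_eq_mul]
        push_cast
        rw [← Finset.sum_add_distrib]
        refine Finset.sum_congr rfl fun v _ => ?_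
        rw [hμ v]
        ring
      constructor
      · rintro ⟨h1, h2⟩
        refine ⟨?_, fun j => ?_⟩
        · rw [h1] at hsum
          push_cast at hsum
          linarith
        · have h3 := hexp j
          rw [h2] at h3
          linarith
      · rintro ⟨h2, h3⟩
        refine ⟨?_, ?_⟩
        · rw [h2] at hsum
          exact_mod_cast hsum
        · ext j
          have h4 := hexp j
          rw [h3 j] at h4
          have h5 : (((∑ v, μ v • v.1 : Fin n →₀ ℕ) j : ℕ) : ℤ) = M' j := by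
            rw [h4]; ring
          exact_mod_cast h5
    rw [coeff_Hc]
    by_cases hc : ∑ v, μ v = kq κ + τ ∧ ∑ v, μ v • v.1 = M'
    · rw [if_pos hc, if_pos (hiff.1 hc), multinomial_nrmK E τ hτ κ μ _ hμ hc.1 hE]
    · rw [if_neg hc, if_neg fun h => hc (hiff.2 h), zero_mul]
  · rw [if_neg hle, zero_mul]
    symm
    by_cases hc : CondK τ (fun j => (M' j : ℤ) - kM κ j) (fun v => (θ₀ v : ℤ) - θ v)
    · rw [if_pos hc]
      obtain ⟨v, hv⟩ : ∃ v, (θ₀ + κ) v < θ v := by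
        by_contra hcon
        push Not at hcon
        exact hle hcon
      simp only [Finsupp.coe_add, Pi.add_apply] at hv
      rw [eval_pp, Finset.prod_eq_zero (Finset.mem_univ v)
        (VGData.VLine.prod_Ioc_eq_zero' _ _ _ (by omega)), mul_zero]
    · rw [if_neg hc]

/-- Substitution of the power in a polynomial. -/
def sq (f : MvPolynomial (Fin n) ℂ) (P : Polynomial ℚ) : MvPolynomial (Sf f) ℚ :=
  P.eval₂ (C : ℚ →+* MvPolynomial (Sf f) ℚ) (qp f)

theorem eval_sq (P : Polynomial ℚ) (κ : Sf f →₀ ℕ) :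
    eval (ev κ) (sq f P) = P.eval (kq κ : ℚ) := by
  unfold sq
  rw [Polynomial.hom_eval₂, eval_qp]
  have : (eval (ev κ)).comp (C : ℚ →+* MvPolynomial (Sf f) ℚ) = RingHom.id ℚ := by
    ext x
    simp
  rw [this, Polynomial.eval₂_id]

open Classical in
/-- The polynomial of the left-hand term. -/
def lhsK (G : Polynomial (MvPolynomial (Sf f) ℚ)) (Θ : Finset (Sf f →₀ ℕ))
    (θ₀ : Sf f →₀ ℕ) (E : ℕ) : MvPolynomial (Sf f) ℚ :=
  ∑ θ ∈ Θ, if CondK 0 (fun _ => 0) (fun v => (θ₀ v : ℤ) - θ v) then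
    sq f (VGData.VLine.cG G θ) * pp E (fun v => (θ₀ v : ℤ) - θ v) else 0

theorem lhs_termK (G : Polynomial (MvPolynomial (Sf f) ℚ))
    (Θ : Finset (Sf f →₀ ℕ)) (hΘ : VGData.VLine.sG G ⊆ Θ) (θ₀ : Sf f →₀ ℕ) (E : ℕ)
    (hE : ∀ v, θ₀ v ≤ E) (κ : Sf f →₀ ℕ) :
    coeff (θ₀ + κ) (G.eval (kq κ : MvPolynomial (Sf f) ℚ) * Hc f (kq κ) (kM κ)) *
      nrmK E κ = eval (ev κ) (lhsK G Θ θ₀ E) := by
  classical
  have hq : (kq κ : MvPolynomial (Sf f) ℚ) = C ((kq κ : ℕ) : ℚ) := by simp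
  rw [hq, VGData.VLine.coeff_mul_eq G _ Θ hΘ, lhsK, Finset.sum_mul, map_sum]
  refine Finset.sum_congr rfl fun θ _ => ?_
  have h1 := coeff_nrmK E 0 (by omega) κ θ θ₀ (kM κ) (fun v => by
    have := hE v
    omega)
  rw [add_zero] at h1
  rw [mul_assoc, h1]
  simp only [sub_self]
  split_ifs with hc
  · rw [map_mul, eval_sq]
    ring
  · simp

open Classical in
/-- The polynomial of a right-hand term. -/
def rhsK (G : Polynomial (MvPolynomial (Sf f) ℚ)) (Θ : Finset (Sf f →₀ ℕ))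
    (θ₀ : Sf f →₀ ℕ) (E : ℕ) (β m : Fin n →₀ ℕ) : MvPolynomial (Sf f) ℚ :=
  (qp f + 1) * (∏ j, ∏ e ∈ range (β j), (mp f j - C ((m j : ℕ) : ℚ) + 1 + C (e : ℚ))) *
  ∑ θ ∈ Θ, if CondK 1 (fun j => (β j : ℤ) - m j) (fun v => (θ₀ v : ℤ) - θ v) then
    sq f (VGData.VLine.cG G θ) * pp E (fun v => (θ₀ v : ℤ) - θ v) else 0

theorem rhs_termK (G : Polynomial (MvPolynomial (Sf f) ℚ))
    (Θ : Finset (Sf f →₀ ℕ)) (hΘ : VGData.VLine.sG G ⊆ Θ) (θ₀ : Sf f →₀ ℕ) (E : ℕ)
    (hE : ∀ v, θ₀ v ≤ E) (β m : Fin n →₀ ℕ) (κ : Sf f →₀ ℕ) (H : MvPolynomial (Sf f) ℚ)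
    (hH1 : m ≤ kM κ → H = C (∏ j, (((kM κ - m) j + 1).ascFactorial (β j) : ℚ)) *
      Hc f (kq κ + 1) (kM κ - m + β))
    (hH2 : ¬ m ≤ kM κ → H = 0) :
    coeff (θ₀ + κ) (G.eval (kq κ : MvPolynomial (Sf f) ℚ) * H) *
      nrmK E κ = eval (ev κ) (rhsK G Θ θ₀ E β m) := by
  classical
  have hprod : eval (ev κ) (∏ j, ∏ e ∈ range (β j),
    (mp f j - C ((m j : ℕ) : ℚ) + 1 + C (e : ℚ))) =
      ∏ j, ∏ e ∈ range (β j), ((kM κ j : ℚ) - (m j : ℚ) + 1 + e) := by
    simp only [map_prod, map_add, map_sub, eval_C, map_one, eval_mp]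
  by_cases hm : m ≤ kM κ
  · rw [hH1 hm]
    have hasc : (∏ j, ((((kM κ - m) j + 1).ascFactorial (β j) : ℕ) : ℚ)) =
        ∏ j, ∏ e ∈ range (β j), ((kM κ j : ℚ) - (m j : ℚ) + 1 + e) := by
      refine Finset.prod_congr rfl fun j _ => ?_
      rw [Nat.ascFactorial_eq_prod_range]
      push_cast
      refine Finset.prod_congr rfl fun e _ => ?_
      simp only [Pi.sub_apply]
      rw [Nat.cast_sub (hm j)]
    have hq : (kq κ : MvPolynomial (Sf f) ℚ) = C ((kq κ : ℕ) : ℚ) := by simp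
    rw [mul_left_comm, coeff_C_mul, hq, VGData.VLine.coeff_mul_eq G _ Θ hΘ, hasc, rhsK]
    rw [map_mul, map_mul, hprod, map_sum, Finset.mul_sum, Finset.sum_mul, Finset.mul_sum]
    refine Finset.sum_congr rfl fun θ _ => ?_
    have h1 := coeff_nrmK E 1 (by omega) κ θ θ₀ (kM κ - m + β) (fun v => by
      have := hE v
      omega)
    have h2 : (fun j => (((kM κ - m + β) j : ℕ) : ℤ) - kM κ j) =
        fun j => (β j : ℤ) - m j := by
      funext j
      have := hm j
      simp only [Finsupp.coe_add, Finsupp.coe_tsub, Pi.add_apply, Pi.sub_apply]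
      omega
    rw [h2] at h1
    rw [mul_assoc, mul_assoc, h1]
    split_ifs with hc
    · rw [map_mul, eval_sq, map_add, eval_qp, map_one]
      ring
    · simp
  · rw [hH2 hm, mul_zero, coeff_zero, zero_mul]
    symm
    rw [rhsK, map_mul, map_mul, hprod, map_sum]
    by_cases hex : ∃ θ ∈ Θ, CondK 1 (fun j => (β j : ℤ) - m j) (fun v => (θ₀ v : ℤ) - θ v) ∧
        ¬ ∃ v, (κ v : ℤ) + ((θ₀ v : ℤ) - θ v) < 0
    · obtain ⟨θ, -, hc, hcon⟩ := hex
      obtain ⟨j, hj⟩ : ∃ j, kM κ j < m j := by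
        by_contra h3
        push Not at h3
        exact hm fun j => h3 j
      have h1 := hc.2 j
      have h2 : 0 ≤ ∑ v, ((κ v : ℤ) + ((θ₀ v : ℤ) - θ v)) * ((v.1 j : ℕ) : ℤ) := by
        refine Finset.sum_nonneg fun v _ => mul_nonneg ?_ (by positivity)
        by_contra h3
        exact hcon ⟨v, not_le.1 h3⟩
      have h4 : ∑ v, (κ v : ℤ) * ((v.1 j : ℕ) : ℤ) = kM κ j := by
        rw [kM_apply]
        push_cast
        rfl
      simp only [add_mul, Finset.sum_add_distrib] at h2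
      beta_reduce at h1
      rw [h1, h4] at h2
      have h3 : ∏ j, ∏ e ∈ range (β j), ((kM κ j : ℚ) - (m j : ℚ) + 1 + e) = 0 := by
        refine Finset.prod_eq_zero (Finset.mem_univ j) ?_
        refine Finset.prod_eq_zero (i := m j - kM κ j - 1) (Finset.mem_range.2 (by omega)) ?_
        have h4 : ((m j - kM κ j - 1 : ℕ) : ℚ) = (m j : ℚ) - kM κ j - 1 := by
          rw [Nat.cast_sub (by omega), Nat.cast_sub (by omega), Nat.cast_one]
        rw [h4]
        ring
      rw [h3]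
      ring
    · push Not at hex
      rw [Finset.sum_eq_zero fun θ hθ => ?_, mul_zero]
      split_ifs with hc
      · obtain ⟨v, h⟩ := hex θ hθ hc
        rw [map_mul, eval_pp, Finset.prod_eq_zero (Finset.mem_univ v)
          (VGData.VLine.prod_Ioc_eq_zero' _ _ _ (by omega)), mul_zero]
      · simp

/-- The polynomial of a displacement, restricted to the line through `κs` with direction `h`. -/
def PK (κs h : Sf f → ℚ) (E : ℕ) (δ : Sf f → ℤ) : Polynomial ℚ :=
  ∏ v, ∏ e ∈ Ioc (δ v) (E : ℤ), (Polynomial.C (κs v) + Polynomial.C (h v) * Polynomial.X +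
    Polynomial.C (e : ℚ))

/-- The factor coming from `x^m ∂^β`, restricted to the line. -/
def RK (κs h : Sf f → ℚ) (β m : Fin n →₀ ℕ) : Polynomial ℚ :=
  ∏ j, ∏ e ∈ range (β j), ((∑ v : Sf f, (Polynomial.C (κs v) + Polynomial.C (h v) *
    Polynomial.X) * Polynomial.C ((v.1 j : ℕ) : ℚ)) - Polynomial.C ((m j : ℕ) : ℚ) + 1 +
      Polynomial.C (e : ℚ))

/-- Restriction to the line. -/
def resK (κs h : Sf f → ℚ) : MvPolynomial (Sf f) ℚ →+* Polynomial ℚ :=
  eval₂Hom Polynomial.C fun v => Polynomial.C (κs v) + Polynomial.C (h v) * Polynomial.X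

theorem resK_pp (κs h : Sf f → ℚ) (E : ℕ) (δ : Sf f → ℤ) :
    resK κs h (pp E δ) = PK κs h E δ := by
  unfold resK pp PK
  rw [map_prod]
  refine Finset.prod_congr rfl fun v _ => ?_
  rw [map_prod]
  refine Finset.prod_congr rfl fun e _ => ?_
  rw [map_add, coe_eval₂Hom, eval₂_X, eval₂_C]

theorem resK_mp (κs h : Sf f → ℚ) (j : Fin n) : resK κs h (mp f j) =
    ∑ v : Sf f, (Polynomial.C (κs v) + Polynomial.C (h v) * Polynomial.X) *
      Polynomial.C ((v.1 j : ℕ) : ℚ) := by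
  unfold resK mp
  simp

theorem resK_RK (κs h : Sf f → ℚ) (β m : Fin n →₀ ℕ) :
    resK κs h (∏ j, ∏ e ∈ range (β j), (mp f j - C ((m j : ℕ) : ℚ) + 1 + C (e : ℚ))) =
      RK κs h β m := by
  unfold RK
  simp only [map_prod, map_add, map_sub, map_one, resK_mp]
  simp [resK]

theorem X_dvd_resK_qp (κs h : Sf f → ℚ) {s₀ : ℚ} (hs₀ : s₀ = ∑ v, κs v) :
    (Polynomial.X : Polynomial ℚ) ∣ resK κs h (qp f - C s₀) := by
  subst hs₀
  have : resK κs h (qp f - C (∑ v, κs v)) = Polynomial.C (∑ v, h v) * Polynomial.X := by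
    unfold resK qp
    simp only [map_sub, map_sum, coe_eval₂Hom, eval₂_X, eval₂_C, Finset.sum_add_distrib]
    rw [Finset.sum_mul]
    ring
  rw [this]
  exact Dvd.intro_left _ rfl

theorem mem_sG_C {g₀ : MvPolynomial (Sf f) ℚ} {θ : Sf f →₀ ℕ} (h : θ ∈ g₀.support) :
    θ ∈ VGData.VLine.sG (Polynomial.C g₀) := by
  classical
  have hg₀ : g₀ ≠ 0 := by
    rintro rfl
    simp at h
  unfold VGData.VLine.sG
  refine Finset.mem_biUnion.2 ⟨0, ?_, ?_⟩
  · rw [Polynomial.mem_support_iff, Polynomial.coeff_C_zero]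
    exact hg₀
  · rw [Polynomial.coeff_C_zero]
    exact h

theorem cG_C (g₀ : MvPolynomial (Sf f) ℚ) (θ : Sf f →₀ ℕ) :
    VGData.VLine.cG (Polynomial.C g₀) θ = Polynomial.C (coeff θ g₀) := by
  unfold VGData.VLine.cG
  rw [Polynomial.sum_C_index]
  · simp
  · simp

theorem coeff_mul_C_mul (A B : MvPolynomial (Sf f) ℚ) (a : ℚ) (κ : Sf f →₀ ℕ) :
    coeff κ (A * (C a * B)) = a * coeff κ (A * B) := by
  rw [mul_left_comm, coeff_C_mul]

open Classical in
/-- **Root theorem for very general polynomials, polynomial operators.** -/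
theorem rootG (hf : f ≠ 0) (halg : AlgebraicIndependent ℚ (cf f)) (κs h : Sf f → ℚ) (r E₀ : ℕ)
    (α : Sf f → ℕ)
    (hL0 : ∀ E ≥ E₀, ¬ (Polynomial.X : Polynomial ℚ) ^ (r + 1) ∣ PK κs h E 0)
    (hL : ∀ E ≥ E₀, ∀ δ : Sf f → ℤ, δ ≠ 0 → (∀ v, δ v ≤ E) → ∑ v, δ v = 0 →
      (∀ j, ∑ v, δ v * ((v.1 j : ℕ) : ℤ) = 0) →
      0 < ∑ v, (α v : ℤ) * δ v ∨ (Polynomial.X : Polynomial ℚ) ^ (r + 1) ∣ PK κs h E δ)
    (hR : ∀ E ≥ E₀, ∀ δ : Sf f → ℤ, (∀ v, δ v ≤ E) → ∑ v, δ v = 1 →
      ∀ β m : Fin n →₀ ℕ, (∀ j, ∑ v, δ v * ((v.1 j : ℕ) : ℤ) = (β j : ℤ) - m j) →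
      (Polynomial.X : Polynomial ℚ) ^ (r + 1) ∣ RK κs h β m * PK κs h E δ)
    (b : Polynomial ℂ) (hb : IsBernsteinSato f b) :
    b.eval (((∑ v, κs v : ℚ)) : ℂ) = 0 := by
  by_contra hne
  obtain ⟨s₀, hs₀⟩ : ∃ s₀ : ℚ, s₀ = ∑ v, κs v := ⟨_, rfl⟩
  rw [← hs₀] at hne
  -- normalize `b`
  obtain ⟨u, y, huy⟩ : IsCoprime b ((Polynomial.X - Polynomial.C (s₀ : ℂ)) ^ (r + 1)) := by
    refine IsCoprime.pow_right ?_
    rw [isCoprime_comm, (Polynomial.irreducible_X_sub_C (s₀ : ℂ)).coprime_iff_not_dvd,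
      Polynomial.dvd_iff_isRoot]
    exact hne
  have hub : InDn f 1 (C (u * b)) := by
    rw [C_mul]
    exact InDn.mul _ hb
  obtain ⟨Φ, hΦ, q₀, hq⟩ := hub.exists_opValP hf
  obtain ⟨k₀, c, β, hc⟩ := hΦ.flat
  let T : Type := Option (Option (Σ i : Fin k₀, {m // m ∈ (c i).support}))
  let g : T → Polynomial ℂ := fun t => match t with
    | none => 1
    | some none => -y
    | some (some x) => - RootData.Line.cpoly (toForm (c x.1)) x.2.1
  let H : T → {κ : Sf f →₀ ℕ // q₀ ≤ kq κ} → MvPolynomial (Sf f) ℚ := fun t e => match t with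
    | none => Hc f (kq e.1) (kM e.1)
    | some none => C (((kq e.1 : ℕ) : ℚ) - s₀) ^ (r + 1) * Hc f (kq e.1) (kM e.1)
    | some (some x) => if x.2.1 ≤ kM e.1 then
        C (∏ j, (((kM e.1 - x.2.1) j + 1).ascFactorial (β x.1 j) : ℚ)) *
          Hc f (kq e.1 + 1) (kM e.1 - x.2.1 + β x.1) else 0
  have key : ∀ e : {κ : Sf f →₀ ℕ // q₀ ≤ kq κ},
      ∑ t, (g t).eval (kq e.1 : ℂ) * (aeval (cf f) (H t e) : ℂ) = 0 := by
    rintro ⟨κ, hκ⟩
    have h1 := (hq (kq κ) hκ).2
    rw [add_tsub_cancel_right, hc, toForm_C] at h1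
    have h2 : Polynomial.eval (kq κ : MvPowerSeries (Fin n) ℂ)
        ((u * b).map (MvPowerSeries.C (σ := Fin n) (R := ℂ))) =
        MvPowerSeries.C ((u * b).eval (kq κ : ℂ)) := by
      rw [Polynomial.eval_map, ← Polynomial.eval₂_hom, map_natCast]
    have h3 := congrArg (MvPowerSeries.coeff (kM κ)) h1
    rw [h2, MvPowerSeries.coeff_C_mul, ← MvPolynomial.coe_pow, MvPolynomial.coeff_coe,
      map_sum] at h3
    have h4 : (u * b).eval (kq κ : ℂ) = 1 - y.eval (kq κ : ℂ) * ((kq κ : ℂ) - (s₀ : ℂ)) ^ (r + 1) := by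
      have h5 := congrArg (Polynomial.eval (kq κ : ℂ)) huy
      simp only [Polynomial.eval_add, Polynomial.eval_mul, Polynomial.eval_pow,
        Polynomial.eval_sub, Polynomial.eval_X, Polynomial.eval_C, Polynomial.eval_one] at h5
      rw [Polynomial.eval_mul]
      linear_combination h5
    rw [h4] at h3
    rw [Fintype.sum_option, Fintype.sum_option, Fintype.sum_sigma]
    simp only [g, H, aeval_Hc, Polynomial.eval_one, one_mul, Polynomial.eval_neg, map_mul, map_pow,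
      aeval_C]
    have h6 : ∑ x : Fin k₀, ∑ x_1 : {m // m ∈ (c x).support},
        -Polynomial.eval (kq κ : ℂ) (RootData.Line.cpoly (toForm (c x)) x_1.1) *
          (aeval (cf f)) (if x_1.1 ≤ kM κ then
            C (∏ j, (((kM κ - x_1.1) j + 1).ascFactorial (β x j) : ℚ)) *
              Hc f (kq κ + 1) (kM κ - x_1.1 + β x) else 0) =
        -∑ i, MvPowerSeries.coeff (kM κ) ((toForm (c i)).eval (kq κ : MvPowerSeries (Fin n) ℂ) *
          dPow (β i) ((f : MvPowerSeries (Fin n) ℂ) ^ (kq κ + 1))) := by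
      rw [← Finset.sum_neg_distrib]
      refine Finset.sum_congr rfl fun i _ => ?_
      rw [coeff_termP f (kM κ) (kq κ) (c i) (β i),
        ← Finset.sum_coe_sort (c i).support (fun m => (RootData.Line.cpoly (toForm (c i)) m).eval
          (kq κ : ℂ) * (if m ≤ kM κ then
            (∏ j, (((kM κ - m) j + 1).ascFactorial (β i j) : ℂ)) *
              coeff (kM κ - m + β i) (f ^ (kq κ + 1)) else 0)),
        ← Finset.sum_neg_distrib]
      refine Finset.sum_congr rfl fun m _ => ?_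
      split_ifs with h5
      · rw [map_mul, aeval_Hc, aeval_C]
        simp only [eq_ratCast]
        push_cast
        ring
      · simp
    rw [h6, ← h3]
    simp only [eq_ratCast, Rat.cast_sub, Rat.cast_natCast]
    ring
  obtain ⟨G, hG0, hG, hGc⟩ := descent' (cf f) halg g
    (fun e : {κ : Sf f →₀ ℕ // q₀ ≤ kq κ} => kq e.1) H key none s₀ (by simp [g])
  -- the coefficient at `none` is constant
  obtain ⟨g₀, hg₀⟩ : ∃ g₀, G none = Polynomial.C g₀ := by
    refine ⟨(G none).coeff 0, ?_⟩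
    ext1 i
    rcases Nat.eq_zero_or_pos i with rfl | hi
    · simp
    · rw [hGc none i (by simp only [g]; rw [Polynomial.coeff_one, if_neg hi.ne']),
        Polynomial.coeff_C, if_neg hi.ne']
  have hg₀0 : g₀ ≠ 0 := by
    rw [hg₀, Polynomial.eval_C] at hG0
    exact hG0
  obtain ⟨θ₀, hθ₀, hmin⟩ := g₀.support.exists_min_image
    (fun θ => ∑ v, α v * θ v) (by
      rw [Finset.nonempty_iff_ne_empty]
      intro h
      exact hg₀0 (MvPolynomial.support_eq_empty.1 h))
  let Θ : Finset (Sf f →₀ ℕ) := Finset.univ.biUnion fun t => VGData.VLine.sG (G t)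
  have hΘ : ∀ t, VGData.VLine.sG (G t) ⊆ Θ :=
    fun t x hx => Finset.mem_biUnion.2 ⟨t, Finset.mem_univ _, hx⟩
  let E : ℕ := max E₀ (∑ v, θ₀ v)
  have hEE : E₀ ≤ E := le_max_left _ _
  have hE : ∀ v, θ₀ v ≤ E := fun v =>
    (Finset.single_le_sum (f := fun v => θ₀ v) (fun _ _ => Nat.zero_le _)
      (Finset.mem_univ v)).trans (le_max_right _ _)
  let TP : MvPolynomial (Sf f) ℚ := lhsK (G none) Θ θ₀ E +
    ((qp f - C s₀) ^ (r + 1) * lhsK (G (some none)) Θ θ₀ E +
    ∑ x : (Σ i : Fin k₀, {m // m ∈ (c i).support}),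
      rhsK (G (some (some x))) Θ θ₀ E (β x.1) x.2.1)
  have hTPk : ∀ κ : Sf f →₀ ℕ, q₀ ≤ kq κ → eval (ev κ) TP = 0 := by
    intro κ hκ
    have h1 := congrArg (fun P => coeff (θ₀ + κ) P * nrmK E κ) (hG ⟨κ, hκ⟩)
    simp only [coeff_zero, zero_mul] at h1
    rw [coeff_sum, Finset.sum_mul, Fintype.sum_option, Fintype.sum_option] at h1
    rw [← h1]
    simp only [TP]
    rw [map_add, map_add, map_mul, map_sum]
    congr 1
    · exact (lhs_termK (G none) Θ (hΘ _) θ₀ E hE κ).symm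
    · congr 1
      · rw [← lhs_termK (G (some none)) Θ (hΘ _) θ₀ E hE κ]
        simp only [H]
        rw [← C_pow, coeff_mul_C_mul, map_pow, map_sub, eval_qp, eval_C]
        ring
      · refine Finset.sum_congr rfl fun x _ => ?_
        exact (rhs_termK (G (some (some x))) Θ (hΘ _) θ₀ E hE (β x.1) x.2.1 κ _
          (fun h => by simp only [H]; rw [if_pos h]) (fun h => by simp only [H]; rw [if_neg h])).symm
  have hTP : TP = 0 := by
    refine MvPolynomial.funext_set (fun _ => (fun k : ℕ => (k : ℚ)) '' Set.Ici q₀)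
      (fun _ => (Set.Ici_infinite q₀).image (fun a _ b _ h => by exact_mod_cast h)) ?_
    intro x hx
    rw [map_zero]
    have hx' : ∀ v, ∃ k : ℕ, q₀ ≤ k ∧ (k : ℚ) = x v := fun v => by
      obtain ⟨k, hk, hkx⟩ := hx v (Set.mem_univ v)
      exact ⟨k, hk, hkx⟩
    choose k hk hkx using hx'
    have h1 : x = ev (Finsupp.equivFunOnFinite.symm k) := by
      funext v
      simp only [ev, Finsupp.equivFunOnFinite_symm_apply_apply]
      exact (hkx v).symm
    rw [h1]
    refine hTPk _ ?_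
    obtain ⟨v, hv⟩ := MvPolynomial.support_nonempty.2 hf
    refine (hk ⟨v, hv⟩).trans ?_
    exact Finset.single_le_sum (f := fun v : Sf f => k v) (fun _ _ => Nat.zero_le _)
      (Finset.mem_univ (⟨v, hv⟩ : Sf f))
  -- restrict to the line
  have h0 : resK κs h TP = 0 := by rw [hTP, map_zero]
  simp only [TP] at h0
  rw [map_add, map_add, map_mul, map_pow, map_sum] at h0
  have hd2 : (Polynomial.X : Polynomial ℚ) ^ (r + 1) ∣
      resK κs h (qp f - C s₀) ^ (r + 1) * resK κs h (lhsK (G (some none)) Θ θ₀ E) :=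
    Dvd.dvd.mul_right (pow_dvd_pow_of_dvd (X_dvd_resK_qp κs h hs₀) _) _
  have hd3 : (Polynomial.X : Polynomial ℚ) ^ (r + 1) ∣
      ∑ x : (Σ i : Fin k₀, {m // m ∈ (c i).support}),
      resK κs h (rhsK (G (some (some x))) Θ θ₀ E (β x.1) x.2.1) := by
    refine Finset.dvd_sum fun x _ => ?_
    unfold rhsK
    rw [map_mul, map_mul, resK_RK, map_sum, Finset.mul_sum]
    refine Finset.dvd_sum fun θ _ => ?_
    split_ifs with hc
    · rw [map_mul, resK_pp]
      have h1 := hR E hEE (fun v => (θ₀ v : ℤ) - θ v) (fun v => by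
        have := hE v
        omega) (by have := hc.1; exact_mod_cast this) (β x.1) x.2.1 hc.2
      have h2 : resK κs h (qp f + 1) * RK κs h (β x.1) x.2.1 *
          (resK κs h (sq f (VGData.VLine.cG (G (some (some x))) θ)) *
            PK κs h E fun v => (θ₀ v : ℤ) - θ v) =
          (resK κs h (qp f + 1) * resK κs h (sq f (VGData.VLine.cG (G (some (some x))) θ))) *
          (RK κs h (β x.1) x.2.1 * PK κs h E fun v => (θ₀ v : ℤ) - θ v) := by ring
      rw [h2]
      exact Dvd.dvd.mul_left h1 _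
    · simp
  have hd1 : (Polynomial.X : Polynomial ℚ) ^ (r + 1) ∣ resK κs h (lhsK (G none) Θ θ₀ E) := by
    rw [eq_neg_of_add_eq_zero_left h0]
    exact (dvd_add hd2 hd3).neg_right
  have hθ₀Θ : θ₀ ∈ Θ := hΘ none (by rw [hg₀]; exact mem_sG_C hθ₀)
  have hcG : ∀ θ, VGData.VLine.cG (G none) θ = Polynomial.C (coeff θ g₀) := by
    intro θ
    rw [hg₀, cG_C]
  unfold lhsK at hd1
  rw [map_sum, ← Finset.add_sum_erase _ _ hθ₀Θ] at hd1
  have hd4 : (Polynomial.X : Polynomial ℚ) ^ (r + 1) ∣ ∑ θ ∈ Θ.erase θ₀,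
      resK κs h (if CondK 0 (fun _ => 0) (fun v => (θ₀ v : ℤ) - θ v) then
        sq f (VGData.VLine.cG (G none) θ) * pp E (fun v => (θ₀ v : ℤ) - θ v) else 0) := by
    refine Finset.dvd_sum fun θ hθ => ?_
    split_ifs with hc
    · rw [map_mul, resK_pp]
      rcases hL E hEE (fun v => (θ₀ v : ℤ) - θ v) (by
          intro h1
          apply Finset.ne_of_mem_erase hθ
          ext v
          have := congrFun h1 v
          simp only [Pi.zero_apply] at this
          omega) (fun v => by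
        have := hE v
        omega) (by have := hc.1; exact_mod_cast this) hc.2 with h1 | h1
      · have h2 : coeff θ g₀ = 0 := by
          by_contra h3
          have h4 := hmin θ (MvPolynomial.mem_support_iff.2 h3)
          have h5 : (∑ v, (α v : ℤ) * ((θ₀ v : ℤ) - θ v)) =
              ((∑ v, α v * θ₀ v : ℕ) : ℤ) - ((∑ v, α v * θ v : ℕ) : ℤ) := by
            push_cast
            rw [← Finset.sum_sub_distrib]
            exact Finset.sum_congr rfl fun v _ => by ring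
          rw [h5] at h1
          omega
        rw [hcG, h2, Polynomial.C_0]
        unfold sq
        simp
      · exact Dvd.dvd.mul_left h1 _
    · simp
  have hd5 := (dvd_add_left hd4).1 hd1
  rw [if_pos ⟨by simp, fun j => by simp⟩, map_mul, resK_pp, hcG] at hd5
  have h7 : (fun v => (θ₀ v : ℤ) - θ₀ v) = 0 := by funext v; simp
  rw [h7] at hd5
  have h8 : resK κs h (sq f (Polynomial.C (coeff θ₀ g₀))) = Polynomial.C (coeff θ₀ g₀) := by
    unfold sq resK
    simp
  rw [h8] at hd5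
  have h9 : IsUnit (Polynomial.C (coeff θ₀ g₀)) :=
    Polynomial.isUnit_C.2 (IsUnit.mk0 _ (MvPolynomial.mem_support_iff.1 hθ₀))
  exact hL0 E hEE ((IsUnit.dvd_mul_left h9).1 hd5)

end Extraction

end MPb07157
end
end

section

/-!
# Extraction in all directions
-/

noncomputable section

namespace MPb07157

open MvPolynomial Finset
open scoped Nat

variable {n : ℕ} {f : MvPolynomial (Fin n) ℂ}

/-- Translation by `κs`. -/
def trK (κs : Sf f → ℚ) : MvPolynomial (Sf f) ℚ →+* MvPolynomial (Sf f) ℚ :=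
  eval₂Hom C fun v => C (κs v) + X v

/-- The polynomial of a displacement, in the coordinates centred at `κs`. -/
def PM (κs : Sf f → ℚ) (E : ℕ) (δ : Sf f → ℤ) : MvPolynomial (Sf f) ℚ :=
  ∏ v, ∏ e ∈ Ioc (δ v) (E : ℤ), (C (κs v) + X v + C (e : ℚ))

/-- The factor coming from `x^m ∂^β`, in the coordinates centred at `κs`. -/
def RM (κs : Sf f → ℚ) (β m : Fin n →₀ ℕ) : MvPolynomial (Sf f) ℚ :=
  ∏ j, ∏ e ∈ range (β j), ((∑ v : Sf f, C ((v.1 j : ℕ) : ℚ) * (C (κs v) + X v)) -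
    C ((m j : ℕ) : ℚ) + 1 + C (e : ℚ))

theorem trK_pp (κs : Sf f → ℚ) (E : ℕ) (δ : Sf f → ℤ) : trK κs (pp E δ) = PM κs E δ := by
  unfold trK pp PM
  rw [map_prod]
  refine Finset.prod_congr rfl fun v _ => ?_
  rw [map_prod]
  refine Finset.prod_congr rfl fun e _ => ?_
  rw [map_add, coe_eval₂Hom, eval₂_X, eval₂_C]

theorem trK_mp (κs : Sf f → ℚ) (j : Fin n) : trK κs (mp f j) =
    ∑ v : Sf f, C ((v.1 j : ℕ) : ℚ) * (C (κs v) + X v) := by
  unfold trK mp
  rw [map_sum]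
  refine Finset.sum_congr rfl fun v _ => ?_
  simp only [map_mul, coe_eval₂Hom, eval₂_X, eval₂_C]
  try ring

theorem trK_RM (κs : Sf f → ℚ) (β m : Fin n →₀ ℕ) :
    trK κs (∏ j, ∏ e ∈ range (β j), (mp f j - C ((m j : ℕ) : ℚ) + 1 + C (e : ℚ))) =
      RM κs β m := by
  unfold RM
  simp only [map_prod, map_add, map_sub, map_one, trK_mp]
  simp [trK]

theorem trK_qp (κs : Sf f → ℚ) {s₀ : ℚ} (hs₀ : s₀ = ∑ v, κs v) :
    trK κs (qp f - C s₀) = ∑ v, X v := by
  subst hs₀
  unfold trK qp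
  simp only [map_sub, map_sum, coe_eval₂Hom, eval₂_X, eval₂_C, Finset.sum_add_distrib]
  ring

set_option maxHeartbeats 1000000 in
open Classical in
/-- **Root theorem for very general polynomials, polynomial operators, all directions.** -/
theorem rootM (hf : f ≠ 0) (halg : AlgebraicIndependent ℚ (cf f)) (κs : Sf f → ℚ) (r : ℕ)
    (hex : ∀ K : ℕ, ∃ (E : ℕ) (α : Sf f → ℕ) (Λ : MvPolynomial (Sf f) ℚ →ₗ[ℚ] ℝ), K ≤ E ∧
      (∀ g, Λ ((∑ v, X v) ^ (r + 1) * g) = 0) ∧ Λ (PM κs E 0) ≠ 0 ∧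
      (∀ δ : Sf f → ℤ, δ ≠ 0 → (∀ v, |δ v| ≤ K) → ∑ v, δ v = 0 →
        (∀ j, ∑ v, δ v * ((v.1 j : ℕ) : ℤ) = 0) →
        0 < ∑ v, (α v : ℤ) * δ v ∨ ∀ g, Λ (g * PM κs E δ) = 0) ∧
      ∀ δ : Sf f → ℤ, (∀ v, |δ v| ≤ K) → ∑ v, δ v = 1 →
        ∀ β m : Fin n →₀ ℕ, (∀ j, ∑ v, δ v * ((v.1 j : ℕ) : ℤ) = (β j : ℤ) - m j) →
        ∀ g, Λ (g * (RM κs β m * PM κs E δ)) = 0)
    (b : Polynomial ℂ) (hb : IsBernsteinSato f b) :
    b.eval (((∑ v, κs v : ℚ)) : ℂ) = 0 := by
  by_contra hne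
  obtain ⟨s₀, hs₀⟩ : ∃ s₀ : ℚ, s₀ = ∑ v, κs v := ⟨_, rfl⟩
  rw [← hs₀] at hne
  -- normalize `b`
  obtain ⟨u, y, huy⟩ : IsCoprime b ((Polynomial.X - Polynomial.C (s₀ : ℂ)) ^ (r + 1)) := by
    refine IsCoprime.pow_right ?_
    rw [isCoprime_comm, (Polynomial.irreducible_X_sub_C (s₀ : ℂ)).coprime_iff_not_dvd,
      Polynomial.dvd_iff_isRoot]
    exact hne
  have hub : InDn f 1 (C (u * b)) := by
    rw [C_mul]
    exact InDn.mul _ hb
  obtain ⟨Φ, hΦ, q₀, hq⟩ := hub.exists_opValP hf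
  obtain ⟨k₀, c, β, hc⟩ := hΦ.flat
  let T : Type := Option (Option (Σ i : Fin k₀, {m // m ∈ (c i).support}))
  let g : T → Polynomial ℂ := fun t => match t with
    | none => 1
    | some none => -y
    | some (some x) => - RootData.Line.cpoly (toForm (c x.1)) x.2.1
  let H : T → {κ : Sf f →₀ ℕ // q₀ ≤ kq κ} → MvPolynomial (Sf f) ℚ := fun t e => match t with
    | none => Hc f (kq e.1) (kM e.1)
    | some none => C (((kq e.1 : ℕ) : ℚ) - s₀) ^ (r + 1) * Hc f (kq e.1) (kM e.1)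
    | some (some x) => if x.2.1 ≤ kM e.1 then
        C (∏ j, (((kM e.1 - x.2.1) j + 1).ascFactorial (β x.1 j) : ℚ)) *
          Hc f (kq e.1 + 1) (kM e.1 - x.2.1 + β x.1) else 0
  have key : ∀ e : {κ : Sf f →₀ ℕ // q₀ ≤ kq κ},
      ∑ t, (g t).eval (kq e.1 : ℂ) * (aeval (cf f) (H t e) : ℂ) = 0 := by
    rintro ⟨κ, hκ⟩
    have h1 := (hq (kq κ) hκ).2
    rw [add_tsub_cancel_right, hc, toForm_C] at h1
    have h2 : Polynomial.eval (kq κ : MvPowerSeries (Fin n) ℂ)
        ((u * b).map (MvPowerSeries.C (σ := Fin n) (R := ℂ))) =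
        MvPowerSeries.C ((u * b).eval (kq κ : ℂ)) := by
      rw [Polynomial.eval_map, ← Polynomial.eval₂_hom, map_natCast]
    have h3 := congrArg (MvPowerSeries.coeff (kM κ)) h1
    rw [h2, MvPowerSeries.coeff_C_mul, ← MvPolynomial.coe_pow, MvPolynomial.coeff_coe,
      map_sum] at h3
    have h4 : (u * b).eval (kq κ : ℂ) = 1 - y.eval (kq κ : ℂ) * ((kq κ : ℂ) - (s₀ : ℂ)) ^ (r + 1) := by
      have h5 := congrArg (Polynomial.eval (kq κ : ℂ)) huy
      simp only [Polynomial.eval_add, Polynomial.eval_mul, Polynomial.eval_pow,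
        Polynomial.eval_sub, Polynomial.eval_X, Polynomial.eval_C, Polynomial.eval_one] at h5
      rw [Polynomial.eval_mul]
      linear_combination h5
    rw [h4] at h3
    rw [Fintype.sum_option, Fintype.sum_option, Fintype.sum_sigma]
    simp only [g, H, aeval_Hc, Polynomial.eval_one, one_mul, Polynomial.eval_neg, map_mul, map_pow,
      aeval_C]
    have h6 : ∑ x : Fin k₀, ∑ x_1 : {m // m ∈ (c x).support},
        -Polynomial.eval (kq κ : ℂ) (RootData.Line.cpoly (toForm (c x)) x_1.1) *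
          (aeval (cf f)) (if x_1.1 ≤ kM κ then
            C (∏ j, (((kM κ - x_1.1) j + 1).ascFactorial (β x j) : ℚ)) *
              Hc f (kq κ + 1) (kM κ - x_1.1 + β x) else 0) =
        -∑ i, MvPowerSeries.coeff (kM κ) ((toForm (c i)).eval (kq κ : MvPowerSeries (Fin n) ℂ) *
          dPow (β i) ((f : MvPowerSeries (Fin n) ℂ) ^ (kq κ + 1))) := by
      rw [← Finset.sum_neg_distrib]
      refine Finset.sum_congr rfl fun i _ => ?_
      rw [coeff_termP f (kM κ) (kq κ) (c i) (β i),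
        ← Finset.sum_coe_sort (c i).support (fun m => (RootData.Line.cpoly (toForm (c i)) m).eval
          (kq κ : ℂ) * (if m ≤ kM κ then
            (∏ j, (((kM κ - m) j + 1).ascFactorial (β i j) : ℂ)) *
              coeff (kM κ - m + β i) (f ^ (kq κ + 1)) else 0)),
        ← Finset.sum_neg_distrib]
      refine Finset.sum_congr rfl fun m _ => ?_
      split_ifs with h5
      · rw [map_mul, aeval_Hc, aeval_C]
        simp only [eq_ratCast]
        push_cast
        ring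
      · simp
    rw [h6, ← h3]
    simp only [eq_ratCast, Rat.cast_sub, Rat.cast_natCast]
    ring
  obtain ⟨G, hG0, hG, hGc⟩ := descent' (cf f) halg g
    (fun e : {κ : Sf f →₀ ℕ // q₀ ≤ kq κ} => kq e.1) H key none s₀ (by simp [g])
  -- the coefficient at `none` is constant
  obtain ⟨g₀, hg₀⟩ : ∃ g₀, G none = Polynomial.C g₀ := by
    refine ⟨(G none).coeff 0, ?_⟩
    ext1 i
    rcases Nat.eq_zero_or_pos i with rfl | hi
    · simp
    · rw [hGc none i (by simp only [g]; rw [Polynomial.coeff_one, if_neg hi.ne']),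
        Polynomial.coeff_C, if_neg hi.ne']
  have hg₀0 : g₀ ≠ 0 := by
    rw [hg₀, Polynomial.eval_C] at hG0
    exact hG0
  let Θ : Finset (Sf f →₀ ℕ) := Finset.univ.biUnion fun t => VGData.VLine.sG (G t)
  have hΘ : ∀ t, VGData.VLine.sG (G t) ⊆ Θ :=
    fun t x hx => Finset.mem_biUnion.2 ⟨t, Finset.mem_univ _, hx⟩
  let K : ℕ := ∑ θ ∈ Θ, ∑ v, θ v
  have hK : ∀ θ ∈ Θ, ∀ v, θ v ≤ K := fun θ hθ v =>
    (Finset.single_le_sum (f := fun v => θ v) (fun _ _ => Nat.zero_le _)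
      (Finset.mem_univ v)).trans (Finset.single_le_sum (f := fun θ : Sf f →₀ ℕ => ∑ v, θ v)
        (fun _ _ => Nat.zero_le _) hθ)
  obtain ⟨E, α, Λ, hKE, hΛr, hΛ0, hL, hR⟩ := hex K
  obtain ⟨θ₀, hθ₀, hmin⟩ := g₀.support.exists_min_image
    (fun θ => ∑ v, α v * θ v) (by
      rw [Finset.nonempty_iff_ne_empty]
      intro h
      exact hg₀0 (MvPolynomial.support_eq_empty.1 h))
  have hθ₀Θ : θ₀ ∈ Θ := hΘ none (by rw [hg₀]; exact mem_sG_C hθ₀)
  have hE : ∀ v, θ₀ v ≤ E := fun v => (hK θ₀ hθ₀Θ v).trans hKE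
  have habs : ∀ θ ∈ Θ, ∀ v, |(θ₀ v : ℤ) - θ v| ≤ K := by
    intro θ hθ v
    have h1 := hK θ₀ hθ₀Θ v
    have h2 := hK θ hθ v
    rw [abs_le]
    omega
  let TP : MvPolynomial (Sf f) ℚ := lhsK (G none) Θ θ₀ E +
    ((qp f - C s₀) ^ (r + 1) * lhsK (G (some none)) Θ θ₀ E +
    ∑ x : (Σ i : Fin k₀, {m // m ∈ (c i).support}),
      rhsK (G (some (some x))) Θ θ₀ E (β x.1) x.2.1)
  have hTPk : ∀ κ : Sf f →₀ ℕ, q₀ ≤ kq κ → eval (ev κ) TP = 0 := by
    intro κ hκ
    have h1 := congrArg (fun P => coeff (θ₀ + κ) P * nrmK E κ) (hG ⟨κ, hκ⟩)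
    simp only [coeff_zero, zero_mul] at h1
    rw [coeff_sum, Finset.sum_mul, Fintype.sum_option, Fintype.sum_option] at h1
    rw [← h1]
    simp only [TP]
    rw [map_add, map_add, map_mul, map_sum]
    congr 1
    · exact (lhs_termK (G none) Θ (hΘ _) θ₀ E hE κ).symm
    · congr 1
      · rw [← lhs_termK (G (some none)) Θ (hΘ _) θ₀ E hE κ]
        simp only [H]
        rw [← C_pow, coeff_mul_C_mul, map_pow, map_sub, eval_qp, eval_C]
        ring
      · refine Finset.sum_congr rfl fun x _ => ?_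
        exact (rhs_termK (G (some (some x))) Θ (hΘ _) θ₀ E hE (β x.1) x.2.1 κ _
          (fun h => by simp only [H]; rw [if_pos h]) (fun h => by simp only [H]; rw [if_neg h])).symm
  have hTP : TP = 0 := by
    refine MvPolynomial.funext_set (fun _ => (fun k : ℕ => (k : ℚ)) '' Set.Ici q₀)
      (fun _ => (Set.Ici_infinite q₀).image (fun a _ b _ h => by exact_mod_cast h)) ?_
    intro x hx
    rw [map_zero]
    have hx' : ∀ v, ∃ k : ℕ, q₀ ≤ k ∧ (k : ℚ) = x v := fun v => by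
      obtain ⟨k, hk, hkx⟩ := hx v (Set.mem_univ v)
      exact ⟨k, hk, hkx⟩
    choose k hk hkx using hx'
    have h1 : x = ev (Finsupp.equivFunOnFinite.symm k) := by
      funext v
      simp only [ev, Finsupp.equivFunOnFinite_symm_apply_apply]
      exact (hkx v).symm
    rw [h1]
    refine hTPk _ ?_
    obtain ⟨v, hv⟩ := MvPolynomial.support_nonempty.2 hf
    refine (hk ⟨v, hv⟩).trans ?_
    exact Finset.single_le_sum (f := fun v : Sf f => k v) (fun _ _ => Nat.zero_le _)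
      (Finset.mem_univ (⟨v, hv⟩ : Sf f))
  -- apply the functional
  have h0 : Λ (trK κs TP) = 0 := by rw [hTP, map_zero, map_zero]
  simp only [TP] at h0
  rw [map_add (trK κs), map_add (trK κs), map_mul (trK κs), map_pow (trK κs),
    map_sum (trK κs), map_add Λ, map_add Λ, map_sum Λ] at h0
  have hd2 : Λ (trK κs (qp f - C s₀) ^ (r + 1) * trK κs (lhsK (G (some none)) Θ θ₀ E)) = 0 := by
    rw [trK_qp κs hs₀]
    exact hΛr _
  have hd3 : ∑ x : (Σ i : Fin k₀, {m // m ∈ (c i).support}),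
      Λ (trK κs (rhsK (G (some (some x))) Θ θ₀ E (β x.1) x.2.1)) = 0 := by
    refine Finset.sum_eq_zero fun x _ => ?_
    unfold rhsK
    rw [map_mul (trK κs), map_mul (trK κs), trK_RM, map_sum (trK κs), Finset.mul_sum, map_sum Λ]
    refine Finset.sum_eq_zero fun θ hθ => ?_
    split_ifs with hc
    · rw [map_mul (trK κs), trK_pp]
      have h1 := hR (fun v => (θ₀ v : ℤ) - θ v) (habs θ hθ)
        (by have := hc.1; exact_mod_cast this) (β x.1) x.2.1 hc.2
        (trK κs (qp f + 1) * trK κs (sq f (VGData.VLine.cG (G (some (some x))) θ)))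
      have h2 : ∀ a b c d : MvPolynomial (Sf f) ℚ, a * b * (c * d) = a * c * (b * d) :=
        fun a b c d => by ring
      rw [h2]
      exact h1
    · simp
  rw [hd2, hd3, add_zero, add_zero] at h0
  have hcG : ∀ θ, VGData.VLine.cG (G none) θ = Polynomial.C (coeff θ g₀) := by
    intro θ
    rw [hg₀, cG_C]
  unfold lhsK at h0
  rw [map_sum (trK κs), map_sum Λ, ← Finset.add_sum_erase _ _ hθ₀Θ] at h0
  have hd4 : ∑ θ ∈ Θ.erase θ₀,
      Λ (trK κs (if CondK 0 (fun _ => 0) (fun v => (θ₀ v : ℤ) - θ v) then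
        sq f (VGData.VLine.cG (G none) θ) * pp E (fun v => (θ₀ v : ℤ) - θ v) else 0)) = 0 := by
    refine Finset.sum_eq_zero fun θ hθ => ?_
    split_ifs with hc
    · rw [map_mul (trK κs), trK_pp]
      rcases hL (fun v => (θ₀ v : ℤ) - θ v) (by
          intro h1
          apply Finset.ne_of_mem_erase hθ
          ext v
          have := congrFun h1 v
          simp only [Pi.zero_apply] at this
          omega) (habs θ (Finset.mem_of_mem_erase hθ))
        (by have := hc.1; exact_mod_cast this) hc.2 with h1 | h1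
      · have h2 : coeff θ g₀ = 0 := by
          by_contra h3
          have h4 := hmin θ (MvPolynomial.mem_support_iff.2 h3)
          have h5 : (∑ v, (α v : ℤ) * ((θ₀ v : ℤ) - θ v)) =
              ((∑ v, α v * θ₀ v : ℕ) : ℤ) - ((∑ v, α v * θ v : ℕ) : ℤ) := by
            push_cast
            rw [← Finset.sum_sub_distrib]
            exact Finset.sum_congr rfl fun v _ => by ring
          rw [h5] at h1
          omega
        rw [hcG, h2, Polynomial.C_0]
        unfold sq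
        simp
      · exact h1 _
    · simp
  rw [hd4, add_zero, if_pos ⟨by simp, fun j => by simp⟩, map_mul (trK κs), trK_pp, hcG] at h0
  have h7 : (fun v => (θ₀ v : ℤ) - θ₀ v) = 0 := by funext v; simp
  rw [h7] at h0
  have h8 : trK κs (sq f (Polynomial.C (coeff θ₀ g₀))) = C (coeff θ₀ g₀) := by
    unfold sq trK
    simp
  rw [h8, ← smul_eq_C_mul, map_smul] at h0
  exact (smul_ne_zero (MvPolynomial.mem_support_iff.1 hθ₀) hΛ0) h0

end MPb07157
end
end
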