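import Pool.Agent.Lib.MP_b07157_ag.NewtVGG

/-!
# Nonresonant and simply resonant simplices
-/

noncomputable section

namespace MPb07157

open MvPolynomial Finset
open scoped Nat

variable {n : ℕ} {f : MvPolynomial (Fin n) ℂ}

/-- The factor of `PK` belonging to the exponent `v`. -/
def PKv (κs h : Sf f → ℚ) (E : ℕ) (δ : Sf f → ℤ) (v : Sf f) : Polynomial ℚ :=
  ∏ e ∈ Ioc (δ v) (E : ℤ), (Polynomial.C (κs v) + Polynomial.C (h v) * Polynomial.X +
    Polynomial.C (e : ℚ))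

theorem PK_eq (κs h : Sf f → ℚ) (E : ℕ) (δ : Sf f → ℤ) : PK κs h E δ = ∏ v, PKv κs h E δ v := rfl

theorem dvd_PKv {κs h : Sf f → ℚ} {E : ℕ} {δ : Sf f → ℤ} {v : Sf f} {m : ℕ}
    (hκ : κs v = -(m : ℚ)) (h1 : δ v < m) (h2 : m ≤ E) :
    Polynomial.C (h v) * Polynomial.X ∣ PKv κs h E δ v := by
  unfold PKv
  have h3 : (m : ℤ) ∈ Ioc (δ v) (E : ℤ) := by
    rw [Finset.mem_Ioc]
    exact ⟨h1, by exact_mod_cast h2⟩
  refine dvd_trans ?_ (Finset.dvd_prod_of_mem _ h3)
  have : Polynomial.C (κs v) + Polynomial.C (h v) * Polynomial.X +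
      Polynomial.C (((m : ℤ) : ℚ)) = Polynomial.C (h v) * (Polynomial.X : Polynomial ℚ) := by
    rw [hκ]
    push_cast
    rw [Polynomial.C_neg]
    ring
  rw [this]

theorem PK_eq_zero {κs h : Sf f → ℚ} {E : ℕ} {δ : Sf f → ℤ} {v : Sf f}
    (hκ : κs v = 0) (hh : h v = 0) (h1 : δ v < 0) : PK κs h E δ = 0 := by
  rw [PK_eq]
  refine Finset.prod_eq_zero (Finset.mem_univ v) ?_
  have := dvd_PKv (h := h) (m := 0) (by simpa using hκ) (by simpa using h1) (Nat.zero_le E)
  rw [hh, Polynomial.C_0, zero_mul, zero_dvd_iff] at this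
  exact this

theorem X_dvd_PK {κs h : Sf f → ℚ} {E : ℕ} {δ : Sf f → ℤ} {v : Sf f} {m : ℕ}
    (hκ : κs v = -(m : ℚ)) (h1 : δ v < m) (h2 : m ≤ E) :
    (Polynomial.X : Polynomial ℚ) ∣ PK κs h E δ := by
  rw [PK_eq]
  exact ((Dvd.intro_left _ rfl).trans (dvd_PKv hκ h1 h2)).trans
    (Finset.dvd_prod_of_mem _ (Finset.mem_univ v))

theorem X_sq_dvd_PK {κs h : Sf f → ℚ} {E : ℕ} {δ : Sf f → ℤ} {v a : Sf f} {m m' : ℕ}
    (hva : v ≠ a) (hκ : κs v = -(m : ℚ)) (h1 : δ v < m) (h2 : m ≤ E)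
    (hκ' : κs a = -(m' : ℚ)) (h1' : δ a < m') (h2' : m' ≤ E) :
    (Polynomial.X : Polynomial ℚ) ^ (1 + 1) ∣ PK κs h E δ := by
  classical
  rw [PK_eq, ← Finset.mul_prod_erase _ _ (Finset.mem_univ v),
    ← Finset.mul_prod_erase _ _ (Finset.mem_erase.2 ⟨hva.symm, Finset.mem_univ a⟩), ← mul_assoc]
  refine Dvd.dvd.mul_right ?_ _
  rw [pow_succ, pow_one]
  exact mul_dvd_mul ((Dvd.intro_left _ rfl).trans (dvd_PKv hκ h1 h2))
    ((Dvd.intro_left _ rfl).trans (dvd_PKv hκ' h1' h2'))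

/-- The order of `PK` at the origin is at most one. -/
theorem not_X_sq_dvd_PK {κs h : Sf f → ℚ} {E : ℕ} {v₀ : Sf f} {m : ℕ} (hm : 1 ≤ m)
    (hmE : m ≤ E) (hκ : κs v₀ = -(m : ℚ)) (hh : h v₀ ≠ 0)
    (hne : ∀ v, v ≠ v₀ → ∀ k : ℕ, κs v ≠ -((k : ℚ) + 1)) :
    ¬ (Polynomial.X : Polynomial ℚ) ^ (1 + 1) ∣ PK κs h E 0 := by
  classical
  have h3 : (m : ℤ) ∈ Ioc ((0 : Sf f → ℤ) v₀) (E : ℤ) := by
    rw [Finset.mem_Ioc]
    simp only [Pi.zero_apply]
    omega
  have hfac : ∀ e : ℤ, 0 < e → ∀ v, (v ≠ v₀ ∨ e ≠ m) →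
      (Polynomial.C (κs v) + Polynomial.C (h v) * Polynomial.X +
        Polynomial.C (e : ℚ)).eval 0 ≠ 0 := by
    intro e he v hv
    simp only [Polynomial.eval_add, Polynomial.eval_C, Polynomial.eval_mul, Polynomial.eval_X,
      mul_zero, add_zero]
    rcases eq_or_ne v v₀ with rfl | hvv
    · have h4 : e ≠ m := hv.resolve_left fun h => h rfl
      rw [hκ]
      intro h5
      apply h4
      have h6 : (e : ℚ) = (m : ℚ) := by linarith
      exact_mod_cast h6
    · intro h5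
      refine hne v hvv (e - 1).toNat ?_
      have h6 : (((e - 1).toNat : ℕ) : ℤ) = e - 1 := Int.toNat_of_nonneg (by omega)
      have h7 : (((e - 1).toNat : ℕ) : ℚ) = (e : ℚ) - 1 := by
        exact_mod_cast congrArg (Int.cast : ℤ → ℚ) h6
      rw [h7]
      linarith
  have hPK : PK κs h E 0 = Polynomial.X * (Polynomial.C (h v₀) *
      (∏ e ∈ (Ioc ((0 : Sf f → ℤ) v₀) (E : ℤ)).erase m,
        (Polynomial.C (κs v₀) + Polynomial.C (h v₀) * Polynomial.X + Polynomial.C (e : ℚ))) *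
      ∏ v ∈ univ.erase v₀, PKv κs h E 0 v) := by
    rw [PK_eq, ← Finset.mul_prod_erase _ _ (Finset.mem_univ v₀)]
    have : PKv κs h E 0 v₀ = (Polynomial.C (h v₀) * Polynomial.X) *
        (∏ e ∈ (Ioc ((0 : Sf f → ℤ) v₀) (E : ℤ)).erase m,
        (Polynomial.C (κs v₀) + Polynomial.C (h v₀) * Polynomial.X + Polynomial.C (e : ℚ))) := by
      unfold PKv
      rw [← Finset.mul_prod_erase _ _ h3]
      congr 1
      rw [hκ]
      push_cast
      rw [Polynomial.C_neg]
      ring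
    rw [this]
    ring
  rw [hPK, pow_succ, pow_one, mul_dvd_mul_iff_left Polynomial.X_ne_zero, Polynomial.X_dvd_iff,
    Polynomial.coeff_zero_eq_eval_zero] 
  simp only [Polynomial.eval_mul, Polynomial.eval_C, Polynomial.eval_prod, PKv]
  refine mul_ne_zero (mul_ne_zero hh ?_) ?_
  · refine Finset.prod_ne_zero_iff.2 fun e he => ?_
    rw [Finset.mem_erase, Finset.mem_Ioc] at he
    exact hfac e (by simpa using he.2.1) v₀ (Or.inr he.1)
  · refine Finset.prod_ne_zero_iff.2 fun v hv => Finset.prod_ne_zero_iff.2 fun e he => ?_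
    rw [Finset.mem_Ioc] at he
    exact hfac e (by simpa using he.1) v (Or.inl (Finset.ne_of_mem_erase hv))

theorem not_X_dvd_PK {κs h : Sf f → ℚ} {E : ℕ}
    (hne : ∀ v, ∀ k : ℕ, κs v ≠ -((k : ℚ) + 1)) :
    ¬ (Polynomial.X : Polynomial ℚ) ∣ PK κs h E 0 := by
  rw [Polynomial.X_dvd_iff, Polynomial.coeff_zero_eq_eval_zero]
  unfold PK
  simp only [Polynomial.eval_prod]
  refine Finset.prod_ne_zero_iff.2 fun v _ => Finset.prod_ne_zero_iff.2 fun e he => ?_
  rw [Finset.mem_Ioc] at he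
  simp only [Polynomial.eval_add, Polynomial.eval_C, Polynomial.eval_mul, Polynomial.eval_X,
      mul_zero, add_zero]
  have he0 : 0 < e := by simpa using he.1
  intro h5
  refine hne v (e - 1).toNat ?_
  have h6 : (((e - 1).toNat : ℕ) : ℤ) = e - 1 := Int.toNat_of_nonneg (by omega)
  have h7 : (((e - 1).toNat : ℕ) : ℚ) = (e : ℚ) - 1 := by
    exact_mod_cast congrArg (Int.cast : ℤ → ℚ) h6
  rw [h7]
  linarith

/-- The factor of `RK` belonging to the coordinate `j`. -/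
theorem dvd_RK {κs h : Sf f → ℚ} {β m : Fin n →₀ ℕ} {j : Fin n}
    (hκ : ∑ v : Sf f, κs v * ((v.1 j : ℕ) : ℚ) = -1) (hlt : m j < β j) :
    Polynomial.C (∑ v : Sf f, h v * ((v.1 j : ℕ) : ℚ)) * Polynomial.X ∣ RK κs h β m := by
  unfold RK
  refine dvd_trans ?_ (Finset.dvd_prod_of_mem _ (Finset.mem_univ j))
  refine dvd_trans ?_ (Finset.dvd_prod_of_mem _ (Finset.mem_range.2 hlt))
  have h1 : (∑ v : Sf f, (Polynomial.C (κs v) + Polynomial.C (h v) *
      Polynomial.X) * Polynomial.C ((v.1 j : ℕ) : ℚ)) =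
      Polynomial.C (∑ v : Sf f, κs v * ((v.1 j : ℕ) : ℚ)) +
        Polynomial.C (∑ v : Sf f, h v * ((v.1 j : ℕ) : ℚ)) * Polynomial.X := by
    rw [map_sum, map_sum, Finset.sum_mul, ← Finset.sum_add_distrib]
    refine Finset.sum_congr rfl fun v _ => ?_
    rw [Polynomial.C_mul, Polynomial.C_mul]
    ring
  rw [h1, hκ]
  have h2 : Polynomial.C (-1 : ℚ) + Polynomial.C (∑ v : Sf f, h v * ((v.1 j : ℕ) : ℚ)) *
      Polynomial.X - Polynomial.C ((m j : ℕ) : ℚ) + 1 + Polynomial.C ((m j : ℕ) : ℚ) =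
      Polynomial.C (∑ v : Sf f, h v * ((v.1 j : ℕ) : ℚ)) * Polynomial.X := by
    rw [Polynomial.C_neg, Polynomial.C_1]
    ring
  rw [h2]

/-- Weights of a displacement. -/
theorem sum_wt_disp (w : Fin n → ℕ) (δ : Sf f → ℤ) (x : Fin n → ℤ)
    (hx : ∀ j, ∑ v, δ v * ((v.1 j : ℕ) : ℤ) = x j) :
    ∑ v, δ v * (wt w v.1 : ℤ) = ∑ j, (w j : ℤ) * x j := by
  simp only [← hx]
  simp only [Finset.mul_sum]
  rw [Finset.sum_comm]
  refine Finset.sum_congr rfl fun v _ => ?_
  unfold wt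
  push_cast
  rw [Finset.mul_sum]
  exact Finset.sum_congr rfl fun j _ => by ring

/-- Lower bound for the weight of a displacement. -/
theorem le_wt_disp {w : Fin n → ℕ} {N : ℕ} (hmin : ∀ v ∈ f.support, N ≤ wt w v)
    {δ : Sf f → ℤ} {x : Fin n → ℤ} (hx : ∀ j, ∑ v, δ v * ((v.1 j : ℕ) : ℤ) = x j)
    (h1 : ∑ v, δ v = 1) (h2 : ∀ v, wt w v.1 ≠ N → 0 ≤ δ v) :
    (N : ℤ) ≤ ∑ j, (w j : ℤ) * x j := by
  rw [← sum_wt_disp w δ x hx]
  have h5 : ∑ v, δ v * (N : ℤ) = N := by
    rw [← Finset.sum_mul, h1, one_mul]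
  rw [← h5]
  refine Finset.sum_le_sum fun v _ => ?_
  by_cases hv : wt w v.1 = N
  · rw [hv]
  · refine mul_le_mul_of_nonneg_left ?_ (h2 v hv)
    exact_mod_cast hmin v.1 v.2

theorem exists_pos_coord {w : Fin n → ℕ} {x : Fin n → ℤ} (h : 0 < ∑ j, (w j : ℤ) * x j) :
    ∃ j, 0 < w j ∧ 0 < x j := by
  by_contra hcon
  push Not at hcon
  have : ∑ j, (w j : ℤ) * x j ≤ 0 := by
    refine Finset.sum_nonpos fun j _ => ?_
    rcases Nat.eq_zero_or_pos (w j) with h1 | h1
    · rw [h1]; simp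
    · exact mul_nonpos_of_nonneg_of_nonpos (by positivity) (hcon j h1)
  omega

/-- **Nonresonant simplices give roots** (very general polynomials, global version). -/
theorem root_of_nonres (hf : f ≠ 0) (halg : AlgebraicIndependent ℚ (cf f)) {w : Fin n → ℕ}
    {N : ℕ} (hN : 0 < N) (hmin : ∀ v ∈ f.support, N ≤ wt w v) (ρ : Finset (Sf f))
    (hρ : ∀ v ∈ ρ, wt w v.1 = N)
    (lin : ∀ g : Sf f → ℚ, (∀ v, v ∉ ρ → g v = 0) →
      (∀ j, ∑ v, g v * ((v.1 j : ℕ) : ℚ) = 0) → g = 0)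
    (γ : Sf f → ℚ) (hγ0 : ∀ v, v ∉ ρ → γ v = 0)
    (hγ : ∀ j, 0 < w j → ∑ v, γ v * ((v.1 j : ℕ) : ℚ) = 1)
    (hne : ∀ v ∈ ρ, ∀ k : ℕ, γ v ≠ k + 1) (b : Polynomial ℂ) (hb : IsBernsteinSato f b) :
    b.eval ((-(∑ v, γ v) : ℚ) : ℂ) = 0 := by
  classical
  have hκ0 : ∀ v, v ∉ ρ → (-γ v) = 0 := fun v hv => by rw [hγ0 v hv, neg_zero]
  have := rootG hf halg (fun v => -γ v) (fun _ => 0) 0 0 (fun v => if v ∈ ρ then 0 else 1)
    ?_ ?_ ?_ b hb
  · rw [Finset.sum_neg_distrib] at this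
    exact this
  · intro E _
    rw [zero_add, pow_one]
    refine not_X_dvd_PK fun v k hk => ?_
    by_cases hv : v ∈ ρ
    · exact hne v hv k (neg_injective hk)
    · rw [hκ0 v hv] at hk
      have : (0 : ℚ) ≤ k := by positivity
      linarith
  · intro E _ δ hδ0 _ _ hδ
    by_cases h1 : ∃ v, v ∉ ρ ∧ δ v < 0
    · obtain ⟨v, hv, h2⟩ := h1
      right
      rw [PK_eq_zero (hκ0 v hv) rfl h2]
      exact dvd_zero _
    · push Not at h1
      left
      obtain ⟨v, hv, h2⟩ : ∃ v, v ∉ ρ ∧ δ v ≠ 0 := by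
        by_contra h3
        push Not at h3
        apply hδ0
        have h4 := lin (fun v => (δ v : ℚ)) (fun v hv => by rw [h3 v hv]; simp)
          (fun j => by have := hδ j; exact_mod_cast this)
        funext v
        have := congrFun h4 v
        simpa using this
      have h3 : 0 < δ v := lt_of_le_of_ne (h1 v hv) (Ne.symm h2)
      refine Finset.sum_pos' (fun u _ => ?_) ⟨v, Finset.mem_univ _, ?_⟩
      · by_cases hu : u ∈ ρ
        · simp [hu]
        · simp only [hu, if_false, Nat.cast_one, one_mul]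
          exact h1 u hu
      · simp only [hv, if_false, Nat.cast_one, one_mul]
        exact h3
  · intro E _ δ _ hδ1 β m hx
    rw [zero_add, pow_one]
    by_cases h1 : ∃ v, v ∉ ρ ∧ δ v < 0
    · obtain ⟨v, hv, h2⟩ := h1
      rw [PK_eq_zero (hκ0 v hv) rfl h2, mul_zero]
      exact dvd_zero _
    · push Not at h1
      have h2 := le_wt_disp hmin hx hδ1 (fun v hv => h1 v fun h => hv (hρ v h))
      obtain ⟨j, hj, hxj⟩ := exists_pos_coord (lt_of_lt_of_le (by exact_mod_cast hN) h2)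
      have h3 := dvd_RK (κs := fun v => -γ v) (h := fun _ => 0) (β := β) (m := m) (j := j) (by
        simp only [neg_mul, Finset.sum_neg_distrib]
        rw [hγ j hj]) (by omega)
      simp only [zero_mul, Finset.sum_const_zero, Polynomial.C_0, zero_dvd_iff] at h3
      rw [h3, zero_mul]
      exact dvd_zero _

/-- The value of a linear form on an exponent. -/
def PV (p : Fin n → ℚ) (v : Sf f) : ℚ := ∑ j, p j * ((v.1 j : ℕ) : ℚ)

theorem sum_mul_PV (p : Fin n → ℚ) (g : Sf f → ℚ) :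
    ∑ v, g v * PV p v = ∑ j, p j * ∑ v, g v * ((v.1 j : ℕ) : ℚ) := by
  unfold PV
  simp only [Finset.mul_sum]
  rw [Finset.sum_comm]
  exact Finset.sum_congr rfl fun j _ => Finset.sum_congr rfl fun v _ => by ring

/-- Data of a simply resonant simplex. -/
structure Res1 (f : MvPolynomial (Fin n) ℂ) where
  w : Fin n → ℕ
  N : ℕ
  N_pos : 0 < N
  w_pos : ∀ j, 0 < w j
  N_le : ∀ v ∈ f.support, N ≤ wt w v
  ρ : Finset (Sf f)
  hρ : ∀ v ∈ ρ, wt w v.1 = N
  lin : ∀ g : Sf f → ℚ, (∀ v, v ∉ ρ → g v = 0) →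
      (∀ j, ∑ v, g v * ((v.1 j : ℕ) : ℚ) = 0) → g = 0
  span : ∀ y : Fin n → ℚ, ∃ g : Sf f → ℚ, (∀ v, v ∉ ρ → g v = 0) ∧
    ∀ j, ∑ v, g v * ((v.1 j : ℕ) : ℚ) = y j
  γ : Sf f → ℚ
  γ0 : ∀ v, v ∉ ρ → γ v = 0
  hγ : ∀ j, ∑ v, γ v * ((v.1 j : ℕ) : ℚ) = 1
  v₀ : Sf f
  v₀_mem : v₀ ∈ ρ
  m : ℕ
  m_pos : 1 ≤ m
  γv₀ : γ v₀ = m
  hne : ∀ v ∈ ρ, v ≠ v₀ → ∀ k : ℕ, γ v ≠ k + 1
  p : Fin n → ℚ
  hp0 : ∀ v ∈ ρ, v ≠ v₀ → PV p v = 0
  hp1 : PV p v₀ = 1

namespace Res1

variable (R : Res1 f)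

theorem coord {g : Sf f → ℚ} (hg : ∀ v, v ∉ R.ρ → g v = 0) :
    g R.v₀ = ∑ j, R.p j * ∑ v, g v * ((v.1 j : ℕ) : ℚ) := by
  classical
  rw [← sum_mul_PV, Finset.sum_eq_single R.v₀]
  · rw [R.hp1, mul_one]
  · intro v _ hv
    by_cases h : v ∈ R.ρ
    · rw [R.hp0 v h hv, mul_zero]
    · rw [hg v h, zero_mul]
  · intro h
    exact absurd (Finset.mem_univ _) h

theorem κ_ne (v : Sf f) (hv : v ≠ R.v₀) (k : ℕ) : -R.γ v ≠ -((k : ℚ) + 1) := by
  intro h
  by_cases hρ : v ∈ R.ρ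
  · exact R.hne v hρ hv k (neg_injective h)
  · rw [R.γ0 v hρ] at h
    have : (0 : ℚ) ≤ k := by positivity
    linarith

theorem κ0 {v : Sf f} (hv : v ∉ R.ρ) : -R.γ v = 0 := by rw [R.γ0 v hv, neg_zero]

theorem κv₀ : -R.γ R.v₀ = -((R.m : ℕ) : ℚ) := by rw [R.γv₀]

theorem case_a (hf : f ≠ 0) (halg : AlgebraicIndependent ℚ (cf f)) (a : Sf f) (ha : a ∉ R.ρ)
    (hPa : PV R.p a ≠ 0) (α : Sf f → ℕ) (hα : ∀ v, v ∉ R.ρ → 0 < α v) (hα0 : ∀ v ∈ R.ρ, α v = 0)
    (hR : ∀ δ : Sf f → ℤ, ∑ v, δ v = 1 → (∀ v, v ∉ R.ρ → v ≠ a → 0 ≤ δ v) →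
      (∀ j, ∑ v, δ v * ((v.1 j : ℕ) : ℤ) ≤ 0) → δ a < 0 ∧ δ R.v₀ < R.m)
    (hL : ∀ δ : Sf f → ℤ, ∑ v, δ v = 0 → (∀ j, ∑ v, δ v * ((v.1 j : ℕ) : ℤ) = 0) →
      (∀ v, v ∉ R.ρ → v ≠ a → 0 ≤ δ v) → δ a < 0 → (R.m : ℤ) ≤ δ R.v₀ →
      0 < ∑ v, (α v : ℤ) * δ v) (b : Polynomial ℂ) (hb : IsBernsteinSato f b) :
    b.eval ((-(∑ v, R.γ v) : ℚ) : ℂ) = 0 := by
  classical
  obtain ⟨g, hg0, hg⟩ := R.span fun j => -((a.1 j : ℕ) : ℚ)
  let h : Sf f → ℚ := fun v => g v + if v = a then 1 else 0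
  have hva : R.v₀ ≠ a := fun hh => ha (hh ▸ R.v₀_mem)
  have hh0 : ∀ v, v ∉ R.ρ → v ≠ a → h v = 0 := fun v hv hva => by simp [h, hg0 v hv, hva]
  have hhM : ∀ j, ∑ v : Sf f, h v * ((v.1 j : ℕ) : ℚ) = 0 := by
    intro j
    simp only [h, add_mul, Finset.sum_add_distrib, ite_mul, one_mul, zero_mul,
      Finset.sum_ite_eq', Finset.mem_univ, if_true]
    rw [hg j]
    ring
  have hhv₀ : h R.v₀ ≠ 0 := by
    have h1 : h R.v₀ = g R.v₀ := by simp [h, hva]
    rw [h1, R.coord hg0]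
    simp only [hg, mul_neg, Finset.sum_neg_distrib]
    exact neg_ne_zero.2 hPa
  have := rootG hf halg (fun v => -R.γ v) h 1 R.m α ?_ ?_ ?_ b hb
  · rw [Finset.sum_neg_distrib] at this
    exact this
  · intro E hE
    exact not_X_sq_dvd_PK R.m_pos hE R.κv₀ hhv₀ fun v hv k => R.κ_ne v hv k
  · intro E hE δ hδ0 _ hδs hδ
    by_cases h1 : ∃ v, v ∉ R.ρ ∧ v ≠ a ∧ δ v < 0
    · obtain ⟨v, hv, hva', h2⟩ := h1
      right
      rw [PK_eq_zero (R.κ0 hv) (hh0 v hv hva') h2]
      exact dvd_zero _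
    · push Not at h1
      by_cases h2 : δ a < 0
      · by_cases h3 : δ R.v₀ < R.m
        · right
          exact X_sq_dvd_PK hva R.κv₀ h3 hE (m' := 0) (by rw [R.κ0 ha]; simp) (by simpa using h2)
            (Nat.zero_le _)
        · left
          exact hL δ hδs hδ h1 h2 (not_lt.1 h3)
      · left
        have h1' : ∀ v, v ∉ R.ρ → 0 ≤ δ v := fun v hv => by
          by_cases h3 : v = a
          · rw [h3]; exact not_lt.1 h2
          · exact h1 v hv h3
        obtain ⟨v, hv, h2⟩ : ∃ v, v ∉ R.ρ ∧ δ v ≠ 0 := by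
          by_contra h3
          push Not at h3
          apply hδ0
          have h4 := R.lin (fun v => (δ v : ℚ)) (fun v hv => by rw [h3 v hv]; simp)
            (fun j => by have := hδ j; exact_mod_cast this)
          funext v
          have := congrFun h4 v
          simpa using this
        have h3 : 0 < δ v := lt_of_le_of_ne (h1' v hv) (Ne.symm h2)
        refine Finset.sum_pos' (fun u _ => ?_) ⟨v, Finset.mem_univ _, ?_⟩
        · by_cases hu : u ∈ R.ρ
          · simp [hα0 u hu]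
          · exact mul_nonneg (by positivity) (h1' u hu)
        · exact mul_pos (by exact_mod_cast hα v hv) h3
  · intro E hE δ _ hδ1 β m hx
    by_cases h1 : ∃ v, v ∉ R.ρ ∧ v ≠ a ∧ δ v < 0
    · obtain ⟨v, hv, hva', h2⟩ := h1
      rw [PK_eq_zero (R.κ0 hv) (hh0 v hv hva') h2, mul_zero]
      exact dvd_zero _
    · push Not at h1
      by_cases h2 : ∃ j, m j < β j
      · obtain ⟨j, hj⟩ := h2
        have h3 := dvd_RK (κs := fun v => -R.γ v) (h := h) (β := β) (m := m) (j := j) (by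
          simp only [neg_mul, Finset.sum_neg_distrib]
          rw [R.hγ j]) hj
        rw [hhM j, Polynomial.C_0, zero_mul, zero_dvd_iff] at h3
        rw [h3, zero_mul]
        exact dvd_zero _
      · push Not at h2
        obtain ⟨h3, h4⟩ := hR δ hδ1 h1 (fun j => by
          rw [hx j]
          have := h2 j
          omega)
        exact Dvd.dvd.mul_left (X_sq_dvd_PK hva R.κv₀ h4 hE (m' := 0) (by rw [R.κ0 ha]; simp)
          (by simpa using h3) (Nat.zero_le _)) _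

theorem case_j (hf : f ≠ 0) (halg : AlgebraicIndependent ℚ (cf f)) (j₀ : Fin n)
    (hpj : R.p j₀ ≠ 0)
    (hR : ∀ δ : Sf f → ℤ, ∑ v, δ v = 1 → (∀ v, v ∉ R.ρ → 0 ≤ δ v) →
      (∀ j, j ≠ j₀ → ∑ v, δ v * ((v.1 j : ℕ) : ℤ) ≤ 0) → δ R.v₀ < R.m)
    (b : Polynomial ℂ) (hb : IsBernsteinSato f b) :
    b.eval ((-(∑ v, R.γ v) : ℚ) : ℂ) = 0 := by
  classical
  obtain ⟨h, hh0, hhM⟩ := R.span fun j => if j = j₀ then 1 else 0
  have hhv₀ : h R.v₀ ≠ 0 := by
    rw [R.coord hh0]
    simp only [hhM, mul_ite, mul_one, mul_zero, Finset.sum_ite_eq', Finset.mem_univ, if_true]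
    exact hpj
  have := rootG hf halg (fun v => -R.γ v) h 1 R.m (fun v => if v ∈ R.ρ then 0 else 1) ?_ ?_ ?_ b hb
  · rw [Finset.sum_neg_distrib] at this
    exact this
  · intro E hE
    exact not_X_sq_dvd_PK R.m_pos hE R.κv₀ hhv₀ fun v hv k => R.κ_ne v hv k
  · intro E hE δ hδ0 _ hδs hδ
    by_cases h1 : ∃ v, v ∉ R.ρ ∧ δ v < 0
    · obtain ⟨v, hv, h2⟩ := h1
      right
      rw [PK_eq_zero (R.κ0 hv) (hh0 v hv) h2]
      exact dvd_zero _
    · push Not at h1
      left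
      obtain ⟨v, hv, h2⟩ : ∃ v, v ∉ R.ρ ∧ δ v ≠ 0 := by
        by_contra h3
        push Not at h3
        apply hδ0
        have h4 := R.lin (fun v => (δ v : ℚ)) (fun v hv => by rw [h3 v hv]; simp)
          (fun j => by have := hδ j; exact_mod_cast this)
        funext v
        have := congrFun h4 v
        simpa using this
      have h3 : 0 < δ v := lt_of_le_of_ne (h1 v hv) (Ne.symm h2)
      refine Finset.sum_pos' (fun u _ => ?_) ⟨v, Finset.mem_univ _, ?_⟩
      · by_cases hu : u ∈ R.ρ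
        · simp [hu]
        · simp only [hu, if_false, Nat.cast_one, one_mul]
          exact h1 u hu
      · simp only [hv, if_false, Nat.cast_one, one_mul]
        exact h3
  · intro E hE δ _ hδ1 β m hx
    by_cases h1 : ∃ v, v ∉ R.ρ ∧ δ v < 0
    · obtain ⟨v, hv, h2⟩ := h1
      rw [PK_eq_zero (R.κ0 hv) (hh0 v hv) h2, mul_zero]
      exact dvd_zero _
    · push Not at h1
      have hκ1 : ∀ j, ∑ v : Sf f, (fun v => -R.γ v) v * ((v.1 j : ℕ) : ℚ) = -1 := fun j => by
        simp only [neg_mul, Finset.sum_neg_distrib]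
        rw [R.hγ j]
      by_cases h2 : ∃ j, j ≠ j₀ ∧ m j < β j
      · obtain ⟨j, hjj, hj⟩ := h2
        have h3 := dvd_RK (κs := fun v => -R.γ v) (h := h) (β := β) (m := m) (j := j) (hκ1 j) hj
        rw [hhM j, if_neg hjj, Polynomial.C_0, zero_mul, zero_dvd_iff] at h3
        rw [h3, zero_mul]
        exact dvd_zero _
      · push Not at h2
        have h3 : δ R.v₀ < R.m := hR δ hδ1 h1 fun j hj => by
          rw [hx j]
          have := h2 j hj
          omega
        have h4 := le_wt_disp R.N_le hx hδ1 (fun v hv => h1 v fun h => hv (R.hρ v h))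
        obtain ⟨j, hj, hxj⟩ := exists_pos_coord (lt_of_lt_of_le (by exact_mod_cast R.N_pos) h4)
        have h5 : (Polynomial.X : Polynomial ℚ) ∣ RK (fun v => -R.γ v) h β m :=
          (Dvd.intro_left _ rfl).trans (dvd_RK (hκ1 j) (by omega : m j < β j))
        rw [pow_succ, pow_one]
        exact mul_dvd_mul h5 (X_dvd_PK R.κv₀ h3 hE)

theorem le_sum_mul {δ : Sf f → ℤ} {D : Sf f → ℚ} {v₀ : Sf f} (hD : D v₀ = 1)
    (h : ∀ v, v ≠ v₀ → 0 ≤ (δ v : ℚ) * D v) : (δ v₀ : ℚ) ≤ ∑ v, (δ v : ℚ) * D v := by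
  classical
  rw [← Finset.add_sum_erase _ _ (Finset.mem_univ v₀), hD, mul_one]
  have := Finset.sum_nonneg fun v (hv : v ∈ univ.erase v₀) => h v (Finset.ne_of_mem_erase hv)
  linarith

/-- **Simply resonant simplices give roots** (very general polynomials, global version), unless
the linear form `p` has nonnegative coefficients. -/
theorem root (hf : f ≠ 0) (halg : AlgebraicIndependent ℚ (cf f)) (hneg : ∃ j, R.p j < 0)
    (b : Polynomial ℂ) (hb : IsBernsteinSato f b) :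
    b.eval ((-(∑ v, R.γ v) : ℚ) : ℂ) = 0 := by
  classical
  have hsumP : ∀ (q : Fin n → ℚ) (δ : Sf f → ℤ), ∑ v, (δ v : ℚ) * PV q v =
      ∑ j, q j * ((∑ v, δ v * ((v.1 j : ℕ) : ℤ) : ℤ) : ℚ) := by
    intro q δ
    rw [sum_mul_PV]
    refine Finset.sum_congr rfl fun j _ => ?_
    push_cast
    rfl
  have hPρ : ∀ v ∈ R.ρ, 0 ≤ PV R.p v := by
    intro v hv
    by_cases h : v = R.v₀
    · rw [h, R.hp1]; norm_num
    · rw [R.hp0 v hv h]
  by_cases hA : ∃ a : Sf f, wt R.w a.1 = R.N ∧ PV R.p a < 0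
  · obtain ⟨a, haN, haP⟩ := hA
    have haρ : a ∉ R.ρ := fun h => absurd (hPρ a h) (not_le.2 haP)
    obtain ⟨K, hK⟩ := exists_nat_gt ((∑ v : Sf f, |PV R.p v|) / (-PV R.p a))
    have hK' : ∀ v : Sf f, -PV R.p v ≤ K * (-PV R.p a) := by
      intro v
      rw [div_lt_iff₀ (by linarith)] at hK
      have h1 : |PV R.p v| ≤ ∑ v : Sf f, |PV R.p v| :=
        Finset.single_le_sum (f := fun v : Sf f => |PV R.p v|) (fun _ _ => abs_nonneg _)
          (Finset.mem_univ v)
      have h2 := neg_abs_le (PV R.p v)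
      linarith
    have hK1 : 1 ≤ K := by
      have h1 := hK' a
      by_contra h2
      have h3 : K = 0 := by omega
      rw [h3] at h1
      push_cast at h1
      linarith
    refine R.case_a hf halg a haρ haP.ne (fun v => if v ∈ R.ρ then 0 else if v = a then 1 else K)
      ?_ ?_ ?_ ?_ b hb
    · intro v hv
      rw [if_neg hv]
      split_ifs <;> omega
    · intro v hv
      rw [if_pos hv]
    · intro δ hδ1 hδ0 hx
      exfalso
      have h1 := le_wt_disp R.N_le (x := fun j => ∑ v, δ v * ((v.1 j : ℕ) : ℤ)) (fun j => rfl) hδ1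
        (fun v hv => hδ0 v (fun h => hv (R.hρ v h)) (fun h => hv (h ▸ haN)))
      obtain ⟨j, -, hj⟩ := exists_pos_coord (lt_of_lt_of_le (by exact_mod_cast R.N_pos) h1)
      exact absurd (hx j) (not_le.2 hj)
    · intro δ hδs hδ hδ0 hδa hδv
      have h1 := hsumP R.p δ
      simp only [hδ] at h1
      simp only [Int.cast_zero, mul_zero, Finset.sum_const_zero] at h1
      -- compare termwise
      have h2 : ∀ v, (δ v : ℚ) * PV R.p v ≥ (if v = R.v₀ then (δ v : ℚ) else 0) +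
          (if v ∈ R.ρ then 0 else if v = a then (δ v : ℚ) * PV R.p a else
            -(K * (-PV R.p a)) * δ v) := by
        intro v
        by_cases hv : v ∈ R.ρ
        · rw [if_pos hv]
          by_cases hv0 : v = R.v₀
          · rw [if_pos hv0, hv0, R.hp1]; simp
          · rw [if_neg hv0, R.hp0 v hv hv0]; simp
        · have hv0 : v ≠ R.v₀ := fun h => hv (h ▸ R.v₀_mem)
          rw [if_neg hv0, if_neg hv, zero_add]
          by_cases hva : v = a
          · rw [if_pos hva, hva]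
          · rw [if_neg hva]
            have h3 : (0 : ℚ) ≤ δ v := by exact_mod_cast hδ0 v hv hva
            have h4 := hK' v
            nlinarith
      have h3 := Finset.sum_le_sum fun v (_ : v ∈ (univ : Finset (Sf f))) => h2 v
      rw [h1, Finset.sum_add_distrib, Finset.sum_ite_eq' univ R.v₀, if_pos (Finset.mem_univ _)] at h3
      have h4 : (∑ v, (if v ∈ R.ρ then 0 else if v = a then (δ v : ℚ) * PV R.p a else
            -(K * (-PV R.p a)) * δ v)) =
          -(-PV R.p a) * ((∑ v, ((if v ∈ R.ρ then 0 else if v = a then 1 else K : ℕ) : ℤ) * δ v : ℤ) : ℚ) := by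
        push_cast
        rw [Finset.mul_sum]
        refine Finset.sum_congr rfl fun v _ => ?_
        by_cases hv : v ∈ R.ρ
        · simp [hv]
        · by_cases hva : v = a
          · simp only [hva, if_true, if_false, haρ]
            ring
          · simp only [hv, hva, if_false]
            ring
      rw [h4] at h3
      have h5 : (1 : ℚ) ≤ δ R.v₀ := by
        have : (1 : ℤ) ≤ δ R.v₀ := le_trans (by exact_mod_cast R.m_pos) hδv
        exact_mod_cast this
      have h6 : (0 : ℚ) < ((∑ v, ((if v ∈ R.ρ then 0 else if v = a then 1 else K : ℕ) : ℤ) * δ v : ℤ) : ℚ) := by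
        by_contra h7
        push Not at h7
        nlinarith
      exact_mod_cast h6
  · push Not at hA
    -- the slope
    let Λ : Sf f → ℚ := fun v => if wt R.w v.1 = R.N then 0 else
      -PV R.p v / ((wt R.w v.1 : ℚ) - R.N)
    obtain ⟨v', -, hmax⟩ := Finset.exists_max_image (univ : Finset (Sf f)) Λ
      ⟨R.v₀, Finset.mem_univ _⟩
    set lam := Λ v' with hlam
    have hlam0 : 0 ≤ lam := by
      have h1 := hmax R.v₀ (Finset.mem_univ _)
      have h2 : Λ R.v₀ = 0 := by simp [Λ, R.hρ _ R.v₀_mem]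
      rw [h2] at h1
      exact h1
    have hgt : ∀ v : Sf f, wt R.w v.1 ≠ R.N → (0 : ℚ) < (wt R.w v.1 : ℚ) - R.N := by
      intro v hv
      have h1 : R.N < wt R.w v.1 := lt_of_le_of_ne (R.N_le v.1 v.2) (Ne.symm hv)
      have : (R.N : ℚ) < wt R.w v.1 := by exact_mod_cast h1
      linarith
    let D : Sf f → ℚ := fun v => PV R.p v + lam * ((wt R.w v.1 : ℚ) - R.N)
    have hD : ∀ v, 0 ≤ D v := by
      intro v
      by_cases hv : wt R.w v.1 = R.N
      · simp only [D, hv, sub_self, mul_zero, add_zero]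
        exact hA v hv
      · have h1 := hmax v (Finset.mem_univ v)
        simp only [Λ, if_neg hv] at h1
        rw [div_le_iff₀ (hgt v hv)] at h1
        simp only [D]
        linarith
    have hDρ : ∀ v ∈ R.ρ, v ≠ R.v₀ → D v = 0 := by
      intro v hv hv0
      simp only [D, R.hρ v hv, sub_self, mul_zero, add_zero]
      exact R.hp0 v hv hv0
    have hDv₀ : D R.v₀ = 1 := by
      simp only [D, R.hρ _ R.v₀_mem, sub_self, mul_zero, add_zero]
      exact R.hp1
    let q : Fin n → ℚ := fun j => R.p j + lam * R.w j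
    have hPq : ∀ v : Sf f, PV q v = PV R.p v + lam * (wt R.w v.1 : ℚ) := by
      intro v
      simp only [PV, q, wt, add_mul, Finset.sum_add_distrib]
      push_cast
      rw [Finset.mul_sum]
      congr 1
      exact Finset.sum_congr rfl fun j _ => by ring
    have hsumD : ∀ δ : Sf f → ℤ, ∑ v, (δ v : ℚ) * PV q v =
        ∑ v, (δ v : ℚ) * D v + lam * R.N * ((∑ v, δ v : ℤ) : ℚ) := by
      intro δ
      push_cast
      rw [Finset.mul_sum, ← Finset.sum_add_distrib]
      refine Finset.sum_congr rfl fun v _ => ?_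
      rw [hPq]
      simp only [D]
      ring
    by_cases hq : ∃ j, q j < 0
    · -- a coordinate direction
      obtain ⟨j₁, hj₁⟩ := hq
      obtain ⟨j₀, -, hj₀⟩ := Finset.exists_min_image (univ : Finset (Fin n))
        (fun j => q j / R.w j) ⟨j₁, Finset.mem_univ _⟩
      have hwj : ∀ j, (0 : ℚ) < R.w j := fun j => by exact_mod_cast R.w_pos j
      have ht : q j₀ / R.w j₀ < 0 :=
        lt_of_le_of_lt (hj₀ j₁ (Finset.mem_univ _)) (div_neg_of_neg_of_pos hj₁ (hwj j₁))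
      have hqj₀ : q j₀ < 0 := by
        by_contra h
        exact absurd (div_nonneg (not_lt.1 h) (hwj j₀).le) (not_le.2 ht)
      refine R.case_j hf halg j₀ ?_ ?_ b hb
      · intro h
        have h1 : q j₀ = R.p j₀ + lam * R.w j₀ := rfl
        rw [h, zero_add] at h1
        have := mul_nonneg hlam0 (hwj j₀).le
        linarith
      · intro δ hδ1 hδ0 hx
        by_contra hcon
        push Not at hcon
        have h1 : (δ R.v₀ : ℚ) ≤ ∑ v, (δ v : ℚ) * D v := by
          refine le_sum_mul hDv₀ fun v hv => ?_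
          by_cases hvρ : v ∈ R.ρ
          · rw [hDρ v hvρ hv, mul_zero]
          · exact mul_nonneg (by exact_mod_cast hδ0 v hvρ) (hD v)
        have h2 := hsumD δ
        rw [hδ1, hsumP q δ] at h2
        have h3 : (1 : ℚ) ≤ δ R.v₀ := by
          have : (1 : ℤ) ≤ δ R.v₀ := le_trans (by exact_mod_cast R.m_pos) hcon
          exact_mod_cast this
        have h4 : ∑ j, q j * ((∑ v, δ v * ((v.1 j : ℕ) : ℤ) : ℤ) : ℚ) ≤
            (q j₀ / R.w j₀) * ((∑ j, (R.w j : ℤ) * ∑ v, δ v * ((v.1 j : ℕ) : ℤ) : ℤ) : ℚ) := by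
          have h4' : (((∑ j, (R.w j : ℤ) * ∑ v, δ v * ((v.1 j : ℕ) : ℤ) : ℤ)) : ℚ) =
              ∑ j, (R.w j : ℚ) * ((∑ v, δ v * ((v.1 j : ℕ) : ℤ) : ℤ) : ℚ) := by
            push_cast
            rfl
          rw [h4', Finset.mul_sum]
          refine Finset.sum_le_sum fun j _ => ?_
          by_cases hj : j = j₀
          · rw [hj]
            have := (hwj j₀).ne'
            apply le_of_eq
            field_simp
          · have h5 : (((∑ v, δ v * ((v.1 j : ℕ) : ℤ) : ℤ)) : ℚ) ≤ 0 := by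
              exact_mod_cast hx j hj
            have h6 := hj₀ j (Finset.mem_univ j)
            rw [le_div_iff₀ (hwj j)] at h6
            nlinarith
        have h5 := le_wt_disp R.N_le (x := fun j => ∑ v, δ v * ((v.1 j : ℕ) : ℤ)) (fun j => rfl)
          hδ1 (fun v hv => hδ0 v (fun h => hv (R.hρ v h)))
        have h6 : (1 : ℚ) ≤ ((∑ j, (R.w j : ℤ) * ∑ v, δ v * ((v.1 j : ℕ) : ℤ) : ℤ) : ℚ) := by
          have : (1 : ℤ) ≤ ∑ j, (R.w j : ℤ) * ∑ v, δ v * ((v.1 j : ℕ) : ℤ) :=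
            le_trans (by exact_mod_cast R.N_pos) h5
          exact_mod_cast this
        have h7 : 0 ≤ lam * (R.N : ℚ) := mul_nonneg hlam0 (by positivity)
        rw [Int.cast_one, mul_one] at h2
        nlinarith
    · -- the direction of a point of the neighbouring facet
      push Not at hq
      obtain ⟨j₁, hj₁⟩ := hneg
      have hlampos : 0 < lam := by
        have h1 := hq j₁
        simp only [q] at h1
        by_contra h2
        have h3 : lam = 0 := le_antisymm (not_lt.1 h2) hlam0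
        rw [h3, zero_mul, add_zero] at h1
        linarith
      have hv'N : wt R.w v'.1 ≠ R.N := by
        intro h
        have : lam = 0 := by rw [hlam]; simp [Λ, h]
        linarith
      have hDv' : D v' = 0 := by
        have h1 : lam = -PV R.p v' / ((wt R.w v'.1 : ℚ) - R.N) := by
          rw [hlam]; simp only [Λ, if_neg hv'N]
        have h2 := (hgt v' hv'N).ne'
        simp only [D]
        rw [h1]
        field_simp
        ring
      have hPv' : PV R.p v' < 0 := by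
        have h1 : D v' = PV R.p v' + lam * ((wt R.w v'.1 : ℚ) - R.N) := rfl
        have h2 := mul_pos hlampos (hgt v' hv'N)
        linarith
      have hv'ρ : v' ∉ R.ρ := fun h => hv'N (R.hρ v' h)
      have hle : ∀ δ : Sf f → ℤ, (∀ v, v ∉ R.ρ → v ≠ v' → 0 ≤ δ v) →
          (δ R.v₀ : ℚ) ≤ ∑ v, (δ v : ℚ) * D v := by
        intro δ hδ0
        refine le_sum_mul hDv₀ fun v hv => ?_
        by_cases hvρ : v ∈ R.ρ
        · rw [hDρ v hvρ hv, mul_zero]
        · by_cases hvv : v = v'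
          · rw [hvv, hDv', mul_zero]
          · exact mul_nonneg (by exact_mod_cast hδ0 v hvρ hvv) (hD v)
      refine R.case_a hf halg v' hv'ρ hPv'.ne (fun v => if v ∈ R.ρ then 0 else 1)
        (fun v hv => by simp [hv]) (fun v hv => by simp [hv]) ?_ ?_ b hb
      · intro δ hδ1 hδ0 hx
        have h1 : δ v' < 0 := by
          by_contra h2
          push Not at h2
          have h3 := le_wt_disp R.N_le (x := fun j => ∑ v, δ v * ((v.1 j : ℕ) : ℤ))
            (fun j => rfl) hδ1 (fun v hv => by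
              by_cases hvv : v = v'
              · rw [hvv]; exact h2
              · exact hδ0 v (fun h => hv (R.hρ v h)) hvv)
          obtain ⟨j, -, hj⟩ := exists_pos_coord (lt_of_lt_of_le (by exact_mod_cast R.N_pos) h3)
          exact absurd (hx j) (not_le.2 hj)
        refine ⟨h1, ?_⟩
        by_contra hcon
        push Not at hcon
        have h2 := hle δ hδ0
        have h3 := hsumD δ
        rw [hδ1, hsumP q δ] at h3
        have h4 : ∑ j, q j * ((∑ v, δ v * ((v.1 j : ℕ) : ℤ) : ℤ) : ℚ) ≤ 0 := by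
          refine Finset.sum_nonpos fun j _ => mul_nonpos_of_nonneg_of_nonpos (hq j) ?_
          exact_mod_cast hx j
        have h5 : (1 : ℚ) ≤ δ R.v₀ := by
          have : (1 : ℤ) ≤ δ R.v₀ := le_trans (by exact_mod_cast R.m_pos) hcon
          exact_mod_cast this
        have h7 : 0 ≤ lam * (R.N : ℚ) := mul_nonneg hlam0 (by positivity)
        rw [Int.cast_one, mul_one] at h3
        linarith
      · intro δ hδs hδ hδ0 _ hδv
        exfalso
        have h2 := hle δ hδ0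
        have h3 := hsumD δ
        rw [hδs, hsumP q δ] at h3
        simp only [hδ, Int.cast_zero, mul_zero, Finset.sum_const_zero, add_zero] at h3
        have h5 : (1 : ℚ) ≤ δ R.v₀ := by
          have : (1 : ℤ) ≤ δ R.v₀ := le_trans (by exact_mod_cast R.m_pos) hδv
          exact_mod_cast this
        linarith

end Res1

end MPb07157
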