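import Pool.Agent.Lib.MP_b07157_ag.NewtOp
import Pool.Agent.Lib.MP_b07157_ag.NewtDefs

/-!
# Roots of Bernstein–Sato polynomials from facets of the Newton polyhedron
-/

noncomputable section

namespace MPb07157

open MvPolynomial Finset
open scoped Nat

variable {n : ℕ}

/-- The expansion of the coefficients of powers of a polynomial. -/
theorem coeff_pow_eq (f : MvPolynomial (Fin n) ℂ) (q : ℕ) (m : Fin n →₀ ℕ) :
    coeff m (f ^ q) = ∑ κ ∈ (piAntidiag f.support q).filter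
        (fun κ => ∑ v ∈ f.support, κ v • v = m),
      (Nat.multinomial f.support κ : ℂ) * ∏ v ∈ f.support, coeff v f ^ κ v := by
  classical
  conv_lhs => rw [← MvPolynomial.support_sum_monomial_coeff f]
  rw [Finset.sum_pow_eq_sum_piAntidiag, coeff_sum, Finset.sum_filter]
  refine Finset.sum_congr rfl fun κ _ => ?_
  have h : ∏ v ∈ f.support, (monomial v (coeff v f)) ^ κ v =
      monomial (∑ v ∈ f.support, κ v • v) (∏ v ∈ f.support, coeff v f ^ κ v) := by
    simp only [monomial_pow]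
    rw [← MvPolynomial.monomial_sum_prod]
  rw [h, ← MvPolynomial.C_eq_coe_nat, coeff_C_mul, coeff_monomial]
  split_ifs <;> simp

theorem prod_Ioc_mul_factorial (a : ℕ) (d : ℤ) (t : ℕ) (h : 0 ≤ (a : ℤ) + d) :
    (∏ e ∈ Ioc d (d + t), ((a : ℂ) + (e : ℂ))) * ((((a : ℤ) + d).toNat)! : ℂ) =
      ((((a : ℤ) + d + t).toNat)! : ℂ) := by
  induction t with
  | zero => simp
  | succ t ih =>
    have h1 : Ioc d (d + (t + 1 : ℕ)) = insert (d + (t + 1 : ℕ)) (Ioc d (d + t)) := by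
      ext x
      simp only [mem_Ioc, mem_insert]
      push_cast
      omega
    rw [h1, Finset.prod_insert (by simp), mul_assoc, ih]
    have h2 : ((a : ℤ) + d + (t + 1 : ℕ)).toNat = ((a : ℤ) + d + t).toNat + 1 := by
      push_cast; omega
    rw [h2, Nat.factorial_succ]
    push_cast
    congr 1
    have h3 : ((((a : ℤ) + d + t).toNat : ℤ) : ℂ) = (((a : ℤ) + d + t : ℤ) : ℂ) := by
      rw [Int.toNat_of_nonneg (by omega)]
    push_cast at h3
    rw [h3]
    ring

theorem prod_Ioc_eq (a : ℕ) (d : ℤ) (E : ℕ) (h : 0 ≤ (a : ℤ) + d) (hE : d ≤ E) :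
    (∏ e ∈ Ioc d (E : ℤ), ((a : ℂ) + (e : ℂ))) =
      ((a + E)! : ℂ) / ((((a : ℤ) + d).toNat)! : ℂ) := by
  have h1 := prod_Ioc_mul_factorial a d ((E : ℤ) - d).toNat h
  rw [Int.toNat_of_nonneg (by omega), add_sub_cancel] at h1
  rw [eq_div_iff (by exact_mod_cast Nat.factorial_ne_zero _), h1]
  congr 2
  omega

theorem prod_Ioc_eq_zero (a : ℕ) (d : ℤ) (E : ℕ) (h : (a : ℤ) + d < 0) :
    (∏ e ∈ Ioc d (E : ℤ), ((a : ℂ) + (e : ℂ))) = 0 := by
  refine Finset.prod_eq_zero (i := -(a : ℤ)) ?_ ?_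
  · simp only [mem_Ioc]; omega
  · push_cast; ring

/-- The data of a facet of the Newton polyhedron of `f` (given by a weight `w` with minimum `N`)
together with a compact face of it (the face of a strictly positive weight `ω`) whose exponents are
linearly independent, and an expression `∑ γ_v v` of `(1, …, 1)` on the support of `w`, where no
`γ_v` is a positive integer. -/
structure RootData (f : MvPolynomial (Fin n) ℂ) where
  w : Fin n → ℕ
  N : ℕ
  N_pos : 0 < N
  w_ne : ∃ j, 0 < w j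
  N_le : ∀ v ∈ f.support, N ≤ wt w v
  ω : Fin n → ℕ
  ω_pos : ∀ j, 0 < ω j
  Nω : ℕ
  Nω_le : ∀ v ∈ f.support, Nω ≤ wt ω v
  face : ∀ v ∈ f.support, wt ω v = Nω → wt w v = N
  lin : LinearIndependent ℚ (fun v : {v // v ∈ f.support ∧ wt ω v = Nω} =>
    fun j => ((v.1 j : ℕ) : ℚ))
  γ : (Fin n →₀ ℕ) → ℚ
  γ_sum : ∀ j, 0 < w j → ∑ v ∈ f.support.filter (fun v => wt ω v = Nω), γ v * (v j : ℚ) = 1
  γ_ne : ∀ v ∈ f.support, wt ω v = Nω → ∀ k : ℕ, γ v ≠ k + 1

namespace RootData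

variable {f : MvPolynomial (Fin n) ℂ} (R : RootData f)

/-- The exponents on the compact face. -/
def sg : Finset (Fin n →₀ ℕ) := f.support.filter (fun v => wt R.ω v = R.Nω)

theorem mem_sg {v : Fin n →₀ ℕ} : v ∈ R.sg ↔ v ∈ f.support ∧ wt R.ω v = R.Nω := by
  simp [sg]

theorem sg_subset : R.sg ⊆ f.support := Finset.filter_subset _ _

theorem sg_nonempty : R.sg.Nonempty := by
  obtain ⟨j, hj⟩ := R.w_ne
  have h := R.γ_sum j hj
  by_contra hne
  rw [Finset.not_nonempty_iff_eq_empty] at hne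
  unfold sg at hne
  rw [hne] at h
  simp at h

/-- The possible displacements. -/
def Dl (β m : Fin n →₀ ℕ) : Set ((Fin n →₀ ℕ) → ℤ) :=
  {δ | (∀ v, v ∉ f.support → δ v = 0) ∧ (∀ v ∈ f.support, v ∉ R.sg → 0 ≤ δ v) ∧
    ∑ v ∈ f.support, δ v = 1 ∧
    ∀ j, ∑ v ∈ f.support, δ v * ((v j : ℕ) : ℤ) = (β j : ℤ) - m j}

theorem sum_wt_Dl {β m : Fin n →₀ ℕ} {δ : (Fin n →₀ ℕ) → ℤ} (h : δ ∈ R.Dl β m) (w : Fin n → ℕ) :
    ∑ v ∈ f.support, δ v * (wt w v : ℤ) = (wt w β : ℤ) - wt w m := by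
  obtain ⟨-, -, -, h4⟩ := h
  unfold wt
  push_cast
  rw [← Finset.sum_sub_distrib]
  simp only [Finset.mul_sum]
  rw [Finset.sum_comm]
  refine Finset.sum_congr rfl fun j _ => ?_
  have := h4 j
  rw [← mul_sub, ← this, Finset.mul_sum]
  refine Finset.sum_congr rfl fun v _ => ?_
  ring

theorem le_of_Dl {β m : Fin n →₀ ℕ} {δ : (Fin n →₀ ℕ) → ℤ} (h : δ ∈ R.Dl β m)
    (w : Fin n → ℕ) (N : ℕ) (hN : ∀ v ∈ f.support, N ≤ wt w v)
    (hf : ∀ v ∈ R.sg, wt w v = N) :
    (N : ℤ) ≤ (wt w β : ℤ) - wt w m := by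
  rw [← R.sum_wt_Dl h w]
  have h1 : (N : ℤ) = ∑ v ∈ f.support, δ v * (N : ℤ) := by
    rw [← Finset.sum_mul, h.2.2.1, one_mul]
  rw [h1]
  refine Finset.sum_le_sum fun v hv => ?_
  by_cases hs : v ∈ R.sg
  · rw [hf v hs]
  · exact mul_le_mul_of_nonneg_left (by exact_mod_cast hN v hv) (h.2.1 v hv hs)

theorem Dl_le {β m : Fin n →₀ ℕ} {δ : (Fin n →₀ ℕ) → ℤ} (h : δ ∈ R.Dl β m) {v : Fin n →₀ ℕ}
    (hv : v ∈ f.support) (hs : v ∉ R.sg) : δ v ≤ wt R.ω β := by
  have h1 := R.sum_wt_Dl h R.ω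
  have h2 : (R.Nω : ℤ) = ∑ v ∈ f.support, δ v * (R.Nω : ℤ) := by
    rw [← Finset.sum_mul, h.2.2.1, one_mul]
  have h3 : ∑ v ∈ f.support, δ v * ((wt R.ω v : ℤ) - R.Nω) =
      (wt R.ω β : ℤ) - wt R.ω m - R.Nω := by
    rw [← h1]
    conv_rhs => rw [h2]
    rw [← Finset.sum_sub_distrib]
    exact Finset.sum_congr rfl fun v _ => by ring
  have h4 : ∀ u ∈ f.support, 0 ≤ δ u * ((wt R.ω u : ℤ) - R.Nω) := by
    intro u hu
    by_cases hus : u ∈ R.sg
    · rw [(R.mem_sg.1 hus).2]; simp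
    · refine mul_nonneg (h.2.1 u hu hus) ?_
      have := R.Nω_le u hu
      omega
  have h5 := Finset.single_le_sum h4 hv
  rw [h3] at h5
  have h6 : (1 : ℤ) ≤ (wt R.ω v : ℤ) - R.Nω := by
    have h7 := R.Nω_le v hv
    have h8 : wt R.ω v ≠ R.Nω := fun h9 => hs (R.mem_sg.2 ⟨hv, h9⟩)
    omega
  have h9 := h.2.1 v hv hs
  nlinarith

theorem Dl_finite (β m : Fin n →₀ ℕ) : (R.Dl β m).Finite := by
  classical
  refine Set.Finite.of_injOn (f := fun δ (v : f.support) => if v.1 ∈ R.sg then 0 else δ v.1)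
    (t := Set.Icc 0 (fun _ => (wt R.ω β : ℤ))) ?_ ?_ (Set.finite_Icc _ _)
  · intro δ hδ
    rw [Set.mem_Icc]
    constructor
    · intro v
      simp only [Pi.zero_apply]
      split_ifs with hs
      · exact le_rfl
      · exact hδ.2.1 v.1 v.2 hs
    · intro v
      simp only
      split_ifs with hs
      · positivity
      · exact R.Dl_le hδ v.2 hs
  · intro δ hδ δ' hδ' heq
    have hoff : ∀ v ∈ f.support, v ∉ R.sg → δ v = δ' v := by
      intro v hv hs
      have := congrFun heq ⟨v, hv⟩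
      simpa [hs] using this
    have hon : ∀ v ∈ R.sg, δ v = δ' v := by
      have : Fintype {v // v ∈ f.support ∧ wt R.ω v = R.Nω} :=
        Fintype.subtype R.sg (fun v => R.mem_sg)
      have hl := Fintype.linearIndependent_iff.1 R.lin
        (fun v => ((δ v.1 - δ' v.1 : ℤ) : ℚ)) ?_
      · intro v hv
        have := hl ⟨v, R.mem_sg.1 hv⟩
        have h2 : δ v - δ' v = 0 := by exact_mod_cast this
        omega
      · funext j
        simp only [Finset.sum_apply, Pi.smul_apply, smul_eq_mul, Pi.zero_apply]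
        have h1 := hδ.2.2.2 j
        have h2 := hδ'.2.2.2 j
        have h3 : ∑ v ∈ f.support, (δ v - δ' v) * ((v j : ℕ) : ℤ) = 0 := by
          simp only [sub_mul, Finset.sum_sub_distrib]
          rw [h1, h2, sub_self]
        have h4 : ∑ v ∈ R.sg, (δ v - δ' v) * ((v j : ℕ) : ℤ) = 0 := by
          rw [← h3]
          refine Finset.sum_subset R.sg_subset fun v hv hs => ?_
          rw [hoff v hv hs]; simp
        have h5 : ∑ v ∈ R.sg, (((δ v - δ' v : ℤ)) : ℚ) * ((v j : ℕ) : ℚ) = 0 := by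
          exact_mod_cast h4
        rw [← h5]
        rw [← Finset.sum_subtype R.sg (fun v => R.mem_sg)
          (fun v => (((δ v - δ' v : ℤ)) : ℚ) * ((v j : ℕ) : ℚ))]
    funext v
    by_cases hv : v ∈ f.support
    · by_cases hs : v ∈ R.sg
      · exact hon v hs
      · exact hoff v hv hs
    · rw [hδ.1 v hv, hδ'.1 v hv]

/-- The finite set of displacements. -/
def Dlf (β m : Fin n →₀ ℕ) : Finset ((Fin n →₀ ℕ) → ℤ) := (R.Dl_finite β m).toFinset

theorem mem_Dlf {β m : Fin n →₀ ℕ} {δ : (Fin n →₀ ℕ) → ℤ} : δ ∈ R.Dlf β m ↔ δ ∈ R.Dl β m := by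
  simp [Dlf]

/-- A box that contains all relevant shifts. -/
def box (β : Fin n →₀ ℕ) : Finset (Fin n →₀ ℕ) :=
  Finset.Iic (Finsupp.equivFunOnFinite.symm (fun _ => wt R.ω β))

theorem Dlf_eq_empty {β m : Fin n →₀ ℕ} (hm : m ∉ R.box β) : R.Dlf β m = ∅ := by
  rw [Finset.eq_empty_iff_forall_notMem]
  intro δ hδ
  rw [mem_Dlf] at hδ
  have h1 := R.le_of_Dl hδ R.ω R.Nω R.Nω_le (fun v hv => (R.mem_sg.1 hv).2)
  apply hm
  rw [box, Finset.mem_Iic]
  intro j
  simp only [Finsupp.equivFunOnFinite_symm_apply_apply]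
  have h2 : m j ≤ wt R.ω m := by
    unfold wt
    calc m j ≤ R.ω j * m j := Nat.le_mul_of_pos_left _ (R.ω_pos j)
      _ ≤ _ := Finset.single_le_sum (f := fun j => R.ω j * m j) (fun _ _ => Nat.zero_le _)
        (Finset.mem_univ j)
  omega

theorem exists_bound (β : Fin n →₀ ℕ) :
    ∃ E₀ : ℕ, ∀ m ∈ R.box β, ∀ δ ∈ R.Dlf β m, ∀ v ∈ R.sg, δ v ≤ E₀ := by
  have hfin : (⋃ m ∈ R.box β, R.Dl β m).Finite :=
    Set.Finite.biUnion (R.box β).finite_toSet fun m _ => R.Dl_finite β m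
  obtain ⟨u, hu⟩ := hfin.bddAbove
  refine ⟨∑ v ∈ R.sg, (u v).toNat, fun m hm δ hδ v hv => ?_⟩
  have h1 : δ ≤ u := hu (Set.mem_biUnion hm (R.mem_Dlf.1 hδ))
  have h2 : (u v).toNat ≤ ∑ v ∈ R.sg, (u v).toNat :=
    Finset.single_le_sum (f := fun v => (u v).toNat) (fun _ _ => Nat.zero_le _) hv
  have h3 : δ v ≤ u v := h1 v
  omega

/-- A sequence of integral points `a k` on a line through `-γ`. -/
structure Line (R : RootData f) where
  a : ℕ → (Fin n →₀ ℕ) → ℕ
  A : (Fin n →₀ ℕ) → Polynomial ℂ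
  x₀ : ℂ
  a_off : ∀ k v, v ∉ R.sg → a k v = 0
  A_eval : ∀ k : ℕ, ∀ v ∈ R.sg, (A v).eval (k : ℂ) = a k v
  A_x₀ : ∀ v ∈ R.sg, (A v).eval x₀ = -((R.γ v : ℚ) : ℂ)
  a_large : ∀ k, k ≤ ∑ v ∈ R.sg, a k v

theorem exists_line : Nonempty (Line R) := by
  classical
  let D : ℕ := ∏ v ∈ R.sg, (R.γ v).den
  have hD : 0 < D := Finset.prod_pos fun v _ => (R.γ v).den_pos
  have hg : ∀ v ∈ R.sg, ∃ g : ℤ, (g : ℚ) = D * R.γ v := by
    intro v hv
    have h1 : (R.γ v).den ∣ D := Finset.dvd_prod_of_mem _ hv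
    obtain ⟨c, hc⟩ := h1
    refine ⟨c * (R.γ v).num, ?_⟩
    rw [hc]
    push_cast
    have h2 : (R.γ v : ℚ) * (R.γ v).den = (R.γ v).num := Rat.mul_den_eq_num _
    rw [← h2]
    ring
  choose! g hg using hg
  let z : ℕ := ∑ v ∈ R.sg, (g v).natAbs + 1
  have hz : ∀ v ∈ R.sg, 1 ≤ g v + D * z := by
    intro v hv
    have h1 : (g v).natAbs ≤ ∑ v ∈ R.sg, (g v).natAbs :=
      Finset.single_le_sum (f := fun v => (g v).natAbs) (fun _ _ => Nat.zero_le _) hv
    have h2 : (z : ℤ) = (∑ v ∈ R.sg, (g v).natAbs : ℕ) + 1 := by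
      simp only [z]; push_cast; rfl
    have h3 : (z : ℤ) ≤ D * z := by
      have : (1 : ℤ) ≤ D := by exact_mod_cast hD
      nlinarith [Int.natCast_nonneg z]
    omega
  refine ⟨{
    a := fun k v => if v ∈ R.sg then ((z : ℤ) + k * (g v + D * z)).toNat else 0
    A := fun v => Polynomial.C (z : ℂ) + Polynomial.C ((g v : ℂ) + D * z) * Polynomial.X
    x₀ := -1 / (D : ℂ)
    a_off := fun k v hv => by simp [hv]
    A_eval := ?_
    A_x₀ := ?_
    a_large := ?_ }⟩
  · intro k v hv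
    simp only [hv, if_true, Polynomial.eval_add, Polynomial.eval_C, Polynomial.eval_mul,
      Polynomial.eval_X]
    have h1 : (0 : ℤ) ≤ (z : ℤ) + k * (g v + D * z) := by
      have := hz v hv
      positivity
    have h2 : ((((z : ℤ) + k * (g v + D * z)).toNat : ℕ) : ℂ) =
        (((z : ℤ) + k * (g v + D * z) : ℤ) : ℂ) := by
      exact_mod_cast congrArg (Int.cast : ℤ → ℂ) (Int.toNat_of_nonneg h1)
    rw [h2]
    push_cast
    ring
  · intro v hv
    simp only [Polynomial.eval_add, Polynomial.eval_C, Polynomial.eval_mul, Polynomial.eval_X]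
    have h1 : (g v : ℂ) = D * (R.γ v : ℂ) := by
      have := hg v hv
      have h2 : ((g v : ℚ) : ℂ) = ((D * R.γ v : ℚ) : ℂ) := by rw [this]
      push_cast at h2
      exact h2
    have hD' : (D : ℂ) ≠ 0 := by exact_mod_cast hD.ne'
    rw [h1]
    field_simp
    ring
  · intro k
    obtain ⟨v, hv⟩ := R.sg_nonempty
    refine le_trans ?_ (Finset.single_le_sum (f := fun v => if v ∈ R.sg then
      ((z : ℤ) + k * (g v + D * z)).toNat else 0) (fun _ _ => Nat.zero_le _) hv)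
    simp only [hv, if_true]
    have h1 := hz v hv
    have h2 : (k : ℤ) ≤ k * (g v + D * z) := by nlinarith [Int.natCast_nonneg k]
    omega

variable {R}

namespace Line

variable (Ln : R.Line)

/-- The exponent `q` of the power of `f`. -/
def q (k : ℕ) : ℕ := ∑ v ∈ R.sg, Ln.a k v

/-- The monomial whose coefficient is extracted. -/
def M (k : ℕ) : Fin n →₀ ℕ := ∑ v ∈ R.sg, Ln.a k v • v

/-- `q` as a polynomial in `k`. -/
def Qp : Polynomial ℂ := ∑ v ∈ R.sg, Ln.A v

/-- The coordinates of `M` as polynomials in `k`. -/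
def Mp (j : Fin n) : Polynomial ℂ := ∑ v ∈ R.sg, Ln.A v * Polynomial.C ((v j : ℕ) : ℂ)

theorem Qp_eval (k : ℕ) : Ln.Qp.eval (k : ℂ) = (Ln.q k : ℂ) := by
  unfold Qp q
  rw [Polynomial.eval_finsetSum, Nat.cast_sum]
  exact Finset.sum_congr rfl fun v hv => Ln.A_eval k v hv

theorem M_apply (k : ℕ) (j : Fin n) : Ln.M k j = ∑ v ∈ R.sg, Ln.a k v * v j := by
  unfold M
  rw [Finsupp.finsetSum_apply]
  rfl

theorem Mp_eval (k : ℕ) (j : Fin n) : (Ln.Mp j).eval (k : ℂ) = (Ln.M k j : ℂ) := by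
  unfold Mp
  rw [Polynomial.eval_finsetSum, M_apply, Nat.cast_sum]
  refine Finset.sum_congr rfl fun v hv => ?_
  rw [Polynomial.eval_mul, Polynomial.eval_C, Ln.A_eval k v hv, Nat.cast_mul]

theorem Qp_x₀ : Ln.Qp.eval Ln.x₀ = -((∑ v ∈ R.sg, R.γ v : ℚ) : ℂ) := by
  unfold Qp
  rw [Polynomial.eval_finsetSum, Rat.cast_sum, ← Finset.sum_neg_distrib]
  exact Finset.sum_congr rfl fun v hv => Ln.A_x₀ v hv

theorem Mp_x₀ (j : Fin n) (hj : 0 < R.w j) : (Ln.Mp j).eval Ln.x₀ = -1 := by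
  unfold Mp
  rw [Polynomial.eval_finsetSum]
  have h := R.γ_sum j hj
  have h2 : ((∑ v ∈ R.sg, R.γ v * (v j : ℚ) : ℚ) : ℂ) = 1 := by
    have h3 : ∑ v ∈ R.sg, R.γ v * (v j : ℚ) = 1 := h
    rw [h3]; norm_num
  push_cast at h2
  rw [← h2, ← Finset.sum_neg_distrib]
  refine Finset.sum_congr rfl fun v hv => ?_
  rw [Polynomial.eval_mul, Polynomial.eval_C, Ln.A_x₀ v hv]
  ring

/-- Normalization. -/
def nrm (E k : ℕ) : ℂ := (∏ v ∈ R.sg, ((Ln.a k v + E)! : ℂ)) /
  (((Ln.q k)! : ℂ) * ∏ v ∈ R.sg, coeff v f ^ (Ln.a k v))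

/-- The normalized coefficient of `x^{M k - m}` in `Φ (q k)`. -/
def NC (E k : ℕ) (m : Fin n →₀ ℕ) (Φ : ℕ → MvPowerSeries (Fin n) ℂ) : ℂ :=
  (if m ≤ Ln.M k then MvPowerSeries.coeff (Ln.M k - m) (Φ (Ln.q k)) else 0) * Ln.nrm E k

/-- The normalized coefficients are polynomials in `k`, vanishing at `x₀`. -/
def Good (Φ : ℕ → MvPowerSeries (Fin n) ℂ) : Prop :=
  ∃ E₀ : ℕ, ∀ E ≥ E₀, ∃ (T : Finset (Fin n →₀ ℕ)) (P : (Fin n →₀ ℕ) → Polynomial ℂ),
    (∀ m, m ∉ T → P m = 0) ∧ (∀ m, (P m).eval Ln.x₀ = 0) ∧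
    ∀ k m, Ln.NC E k m Φ = (P m).eval (k : ℂ)

theorem Good.add {Φ Ψ : ℕ → MvPowerSeries (Fin n) ℂ} (h1 : Ln.Good Φ) (h2 : Ln.Good Ψ) :
    Ln.Good (fun q => Φ q + Ψ q) := by
  classical
  obtain ⟨E₁, h1⟩ := h1
  obtain ⟨E₂, h2⟩ := h2
  refine ⟨max E₁ E₂, fun E hE => ?_⟩
  obtain ⟨T₁, P₁, a1, b1, c1⟩ := h1 E (le_of_max_le_left hE)
  obtain ⟨T₂, P₂, a2, b2, c2⟩ := h2 E (le_of_max_le_right hE)
  refine ⟨T₁ ∪ T₂, fun m => P₁ m + P₂ m, ?_, ?_, ?_⟩
  · intro m hm
    rw [Finset.mem_union, not_or] at hm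
    simp only
    rw [a1 m hm.1, a2 m hm.2, add_zero]
  · intro m
    rw [Polynomial.eval_add, b1, b2, add_zero]
  · intro k m
    rw [Polynomial.eval_add, ← c1, ← c2]
    unfold NC
    split_ifs
    · rw [map_add]; ring
    · ring

/-- The coefficient polynomials of an element of `ℂ[[x]][s]`. -/
def cpoly (c : Polynomial (MvPowerSeries (Fin n) ℂ)) (m : Fin n →₀ ℕ) : Polynomial ℂ :=
  c.sum fun j x => Polynomial.monomial j (MvPowerSeries.coeff m x)

theorem cpoly_eval (c : Polynomial (MvPowerSeries (Fin n) ℂ)) (m : Fin n →₀ ℕ) (q : ℕ) :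
    (cpoly c m).eval (q : ℂ) = MvPowerSeries.coeff m (c.eval (q : MvPowerSeries (Fin n) ℂ)) := by
  unfold cpoly
  rw [Polynomial.sum_def, Polynomial.eval_finsetSum, Polynomial.eval_eq_sum, Polynomial.sum_def,
    map_sum]
  refine Finset.sum_congr rfl fun j _ => ?_
  rw [Polynomial.eval_monomial]
  have h : ((q : MvPowerSeries (Fin n) ℂ) ^ j) = MvPowerSeries.C ((q : ℂ) ^ j) := by simp
  rw [h, MvPowerSeries.coeff_mul_C]

theorem Good.mul {Φ : ℕ → MvPowerSeries (Fin n) ℂ} (h : Ln.Good Φ)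
    (c : Polynomial (MvPowerSeries (Fin n) ℂ)) :
    Ln.Good (fun q => c.eval (q : MvPowerSeries (Fin n) ℂ) * Φ q) := by
  classical
  obtain ⟨E₀, h⟩ := h
  refine ⟨E₀, fun E hE => ?_⟩
  obtain ⟨T, P, a, b, c'⟩ := h E hE
  refine ⟨T.biUnion (fun t => Finset.Iic t), fun m => ∑ t ∈ T.filter (fun t => m ≤ t),
    (cpoly c (t - m)).comp Ln.Qp * P t, ?_, ?_, ?_⟩
  · intro m hm
    refine Finset.sum_eq_zero fun t ht => ?_
    rw [Finset.mem_filter] at ht
    exact absurd (Finset.mem_biUnion.2 ⟨t, ht.1, Finset.mem_Iic.2 ht.2⟩) hm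
  · intro m
    rw [Polynomial.eval_finsetSum]
    refine Finset.sum_eq_zero fun t _ => ?_
    rw [Polynomial.eval_mul, b, mul_zero]
  · intro k m
    rw [Polynomial.eval_finsetSum]
    have h1 : ∀ t ∈ T.filter (fun t => m ≤ t),
        ((cpoly c (t - m)).comp Ln.Qp * P t).eval (k : ℂ) =
        MvPowerSeries.coeff (t - m) (c.eval (Ln.q k : MvPowerSeries (Fin n) ℂ)) *
          Ln.NC E k t Φ := by
      intro t _
      rw [Polynomial.eval_mul, Polynomial.eval_comp, Qp_eval, cpoly_eval, c']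
    rw [Finset.sum_congr rfl h1]
    by_cases hm : m ≤ Ln.M k
    · have h2 : Ln.NC E k m (fun q => c.eval (q : MvPowerSeries (Fin n) ℂ) * Φ q) =
          ∑ p ∈ Finset.HasAntidiagonal.antidiagonal (Ln.M k - m),
            MvPowerSeries.coeff p.1 (c.eval (Ln.q k : MvPowerSeries (Fin n) ℂ)) *
            Ln.NC E k (m + p.1) Φ := by
        unfold NC
        rw [if_pos hm, MvPowerSeries.coeff_mul, Finset.sum_mul]
        refine Finset.sum_congr rfl fun p hp => ?_
        rw [Finset.HasAntidiagonal.mem_antidiagonal] at hp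
        have h3 : m + p.1 ≤ Ln.M k := by
          have : m + (Ln.M k - m) = Ln.M k := add_tsub_cancel_of_le hm
          rw [← this, ← hp]
          exact add_le_add le_rfl (le_add_of_nonneg_right zero_le)
        have h4 : Ln.M k - (m + p.1) = p.2 := by
          rw [← tsub_tsub, ← hp, add_tsub_cancel_left]
        rw [if_pos h3, h4]
        ring
      rw [h2]
      let G : (Fin n →₀ ℕ) → ℂ := fun t =>
        MvPowerSeries.coeff (t - m) (c.eval (Ln.q k : MvPowerSeries (Fin n) ℂ)) *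
          Ln.NC E k t Φ
      have hL : ∑ p ∈ Finset.HasAntidiagonal.antidiagonal (Ln.M k - m),
            MvPowerSeries.coeff p.1 (c.eval (Ln.q k : MvPowerSeries (Fin n) ℂ)) *
            Ln.NC E k (m + p.1) Φ = ∑ t ∈ Finset.Icc m (Ln.M k), G t := by
        refine Finset.sum_nbij' (fun p => m + p.1) (fun t => (t - m, Ln.M k - t)) ?_ ?_ ?_ ?_ ?_
        · intro p hp
          rw [Finset.HasAntidiagonal.mem_antidiagonal] at hp
          rw [Finset.mem_Icc]
          refine ⟨le_add_of_nonneg_right zero_le, ?_⟩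
          have : m + (Ln.M k - m) = Ln.M k := add_tsub_cancel_of_le hm
          rw [← this, ← hp]
          exact add_le_add le_rfl (le_add_of_nonneg_right zero_le)
        · intro t ht
          rw [Finset.mem_Icc] at ht
          rw [Finset.HasAntidiagonal.mem_antidiagonal]
          ext j
          have h3 := ht.1 j
          have h4 := ht.2 j
          simp only [Finsupp.coe_add, Finsupp.coe_tsub, Pi.add_apply, Pi.sub_apply]
          omega
        · intro p hp
          rw [Finset.HasAntidiagonal.mem_antidiagonal] at hp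
          ext j
          · simp
          · have h3 := congrArg (fun x : Fin n →₀ ℕ => x j) hp
            have h4 := hm j
            simp only [Finsupp.coe_add, Finsupp.coe_tsub, Pi.add_apply, Pi.sub_apply] at h3 ⊢
            omega
        · intro t ht
          rw [Finset.mem_Icc] at ht
          exact add_tsub_cancel_of_le ht.1
        · intro p _
          simp only [G, add_tsub_cancel_left]
      have hG1 : ∀ t, t ∉ T → G t = 0 := by
        intro t ht
        simp only [G]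
        rw [c', a t ht, Polynomial.eval_zero, mul_zero]
      have hG2 : ∀ t, ¬ t ≤ Ln.M k → G t = 0 := by
        intro t ht
        simp only [G, NC]
        rw [if_neg ht, zero_mul, mul_zero]
      rw [hL]
      rw [Finset.sum_subset (s₁ := Finset.Icc m (Ln.M k))
        (s₂ := Finset.Icc m (Ln.M k) ∪ T.filter (fun t => m ≤ t)) Finset.subset_union_left,
        Finset.sum_subset (s₁ := T.filter (fun t => m ≤ t))
        (s₂ := Finset.Icc m (Ln.M k) ∪ T.filter (fun t => m ≤ t)) Finset.subset_union_right]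
      · intro t ht1 ht2
        refine hG1 t fun ht3 => ht2 (Finset.mem_filter.2 ⟨ht3, ?_⟩)
        rcases Finset.mem_union.1 ht1 with h5 | h5
        · exact (Finset.mem_Icc.1 h5).1
        · exact (Finset.mem_filter.1 h5).2
      · intro t ht1 ht2
        refine hG2 t fun ht3 => ht2 (Finset.mem_Icc.2 ⟨?_, ht3⟩)
        rcases Finset.mem_union.1 ht1 with h5 | h5
        · exact (Finset.mem_Icc.1 h5).1
        · exact (Finset.mem_filter.1 h5).2
    · have h2 : Ln.NC E k m (fun q => c.eval (q : MvPowerSeries (Fin n) ℂ) * Φ q) = 0 := by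
        unfold NC
        rw [if_neg hm, zero_mul]
      rw [h2]
      symm
      refine Finset.sum_eq_zero fun t ht => ?_
      rw [Finset.mem_filter] at ht
      have h3 : ¬ t ≤ Ln.M k := fun h4 => hm (ht.2.trans h4)
      unfold NC
      rw [if_neg h3, zero_mul, mul_zero]

/-- The constant attached to a displacement. -/
def cst (R : RootData f) (δ : (Fin n →₀ ℕ) → ℤ) : ℂ :=
  (∏ v ∈ f.support, coeff v f ^ δ v) * ∏ v ∈ f.support \ R.sg, (((δ v).toNat)! : ℂ)⁻¹

theorem term_eq (E k : ℕ) (κ : (Fin n →₀ ℕ) → ℕ) (h1 : ∑ v ∈ f.support, κ v = Ln.q k + 1)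
    (hE : ∀ v ∈ R.sg, (κ v : ℤ) - Ln.a k v ≤ E) :
    (Nat.multinomial f.support κ : ℂ) * (∏ v ∈ f.support, coeff v f ^ κ v) * Ln.nrm E k =
      ((Ln.q k : ℂ) + 1) * (cst R (fun v => (κ v : ℤ) - Ln.a k v) *
        ∏ v ∈ R.sg, ∏ e ∈ Ioc ((κ v : ℤ) - Ln.a k v) (E : ℤ), ((Ln.a k v : ℂ) + (e : ℂ))) := by
  have hc : ∀ v ∈ f.support, coeff v f ≠ 0 := fun v hv => MvPolynomial.mem_support_iff.1 hv
  have e1 : (Nat.multinomial f.support κ : ℂ) =
      ((Ln.q k + 1)! : ℂ) / ∏ v ∈ f.support, ((κ v)! : ℂ) := by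
    rw [eq_div_iff (Finset.prod_ne_zero_iff.2 fun v _ => by
      exact_mod_cast Nat.factorial_ne_zero _)]
    have := Nat.multinomial_spec f.support κ
    rw [h1] at this
    rw [mul_comm]
    exact_mod_cast this
  have e2 : ∏ v ∈ f.support, coeff v f ^ κ v =
      (∏ v ∈ R.sg, coeff v f ^ (Ln.a k v)) *
        ∏ v ∈ f.support, coeff v f ^ ((κ v : ℤ) - Ln.a k v) := by
    have h2 : ∏ v ∈ R.sg, coeff v f ^ (Ln.a k v) = ∏ v ∈ f.support, coeff v f ^ (Ln.a k v) := by
      refine Finset.prod_subset R.sg_subset fun v _ hv => ?_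
      rw [Ln.a_off k v hv, pow_zero]
    rw [h2, ← Finset.prod_mul_distrib]
    refine Finset.prod_congr rfl fun v hv => ?_
    rw [← zpow_natCast, ← zpow_natCast, ← zpow_add₀ (hc v hv), add_sub_cancel]
  have e3 : ∏ v ∈ f.support, ((κ v)! : ℂ) = (∏ v ∈ f.support \ R.sg, ((κ v)! : ℂ)) *
      ∏ v ∈ R.sg, ((κ v)! : ℂ) := (Finset.prod_sdiff R.sg_subset).symm
  have e4 : ∏ v ∈ f.support \ R.sg, ((((κ v : ℤ) - Ln.a k v).toNat)! : ℂ)⁻¹ =
      (∏ v ∈ f.support \ R.sg, ((κ v)! : ℂ))⁻¹ := by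
    rw [← Finset.prod_inv_distrib]
    refine Finset.prod_congr rfl fun v hv => ?_
    rw [Ln.a_off k v (Finset.mem_sdiff.1 hv).2]
    simp
  have e5 : ∏ v ∈ R.sg, ∏ e ∈ Ioc ((κ v : ℤ) - Ln.a k v) (E : ℤ), ((Ln.a k v : ℂ) + (e : ℂ)) =
      (∏ v ∈ R.sg, ((Ln.a k v + E)! : ℂ)) / ∏ v ∈ R.sg, ((κ v)! : ℂ) := by
    rw [← Finset.prod_div_distrib]
    refine Finset.prod_congr rfl fun v hv => ?_
    rw [prod_Ioc_eq _ _ _ (by omega) (hE v hv)]
    congr 3
    omega
  have h3 : ∏ v ∈ R.sg, coeff v f ^ (Ln.a k v) ≠ 0 :=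
    Finset.prod_ne_zero_iff.2 fun v hv => pow_ne_zero _ (hc v (R.sg_subset hv))
  have h4 : ((Ln.q k)! : ℂ) ≠ 0 := by exact_mod_cast Nat.factorial_ne_zero _
  have h5 : (∏ v ∈ f.support \ R.sg, ((κ v)! : ℂ)) ≠ 0 :=
    Finset.prod_ne_zero_iff.2 fun v _ => by exact_mod_cast Nat.factorial_ne_zero _
  have h6 : (∏ v ∈ R.sg, ((κ v)! : ℂ)) ≠ 0 :=
    Finset.prod_ne_zero_iff.2 fun v _ => by exact_mod_cast Nat.factorial_ne_zero _
  rw [e1, e2, e5, cst, e4, e3, nrm, Nat.factorial_succ]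
  push_cast
  field_simp

/-- The polynomials of the base case. -/
def baseP (β : Fin n →₀ ℕ) (E : ℕ) (m : Fin n →₀ ℕ) : Polynomial ℂ :=
  (Ln.Qp + 1) * (∏ j, ∏ e ∈ range (β j),
      (Ln.Mp j - Polynomial.C ((m j : ℕ) : ℂ) + 1 + Polynomial.C (e : ℂ))) *
    ∑ δ ∈ R.Dlf β m, Polynomial.C (cst R δ) *
      ∏ v ∈ R.sg, ∏ e ∈ Ioc (δ v) (E : ℤ), (Ln.A v + Polynomial.C (e : ℂ))

theorem baseP_eval (β : Fin n →₀ ℕ) (E : ℕ) (m : Fin n →₀ ℕ) (k : ℕ) :
    (Ln.baseP β E m).eval (k : ℂ) =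
    ((Ln.q k : ℂ) + 1) * (∏ j, ∏ e ∈ range (β j), ((Ln.M k j : ℂ) - (m j : ℂ) + 1 + e)) *
    ∑ δ ∈ R.Dlf β m, cst R δ *
      ∏ v ∈ R.sg, ∏ e ∈ Ioc (δ v) (E : ℤ), ((Ln.a k v : ℂ) + (e : ℂ)) := by
  unfold baseP
  simp only [Polynomial.eval_mul, Polynomial.eval_add, Polynomial.eval_one, Polynomial.eval_prod,
    Polynomial.eval_sub, Polynomial.eval_C, Polynomial.eval_finsetSum, Qp_eval, Mp_eval]
  congr 1
  refine Finset.sum_congr rfl fun δ _ => ?_
  congr 1
  refine Finset.prod_congr rfl fun v hv => ?_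
  simp only [Ln.A_eval k v hv]

theorem baseP_x₀ (β : Fin n →₀ ℕ) (E : ℕ) (m : Fin n →₀ ℕ) :
    (Ln.baseP β E m).eval Ln.x₀ = 0 := by
  unfold baseP
  rcases (R.Dlf β m).eq_empty_or_nonempty with h | ⟨δ, hδ⟩
  · rw [h]; simp
  · have h1 := R.le_of_Dl (R.mem_Dlf.1 hδ) R.w R.N R.N_le
      (fun v hv => R.face v (R.mem_sg.1 hv).1 (R.mem_sg.1 hv).2)
    have h2 : ∃ j, 0 < R.w j ∧ m j < β j := by
      by_contra hcon
      push Not at hcon
      have h3 : wt R.w β ≤ wt R.w m := by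
        unfold wt
        refine Finset.sum_le_sum fun j _ => ?_
        rcases Nat.eq_zero_or_pos (R.w j) with h4 | h4
        · simp [h4]
        · exact Nat.mul_le_mul_left _ (hcon j h4)
      have := R.N_pos
      omega
    obtain ⟨j, hj, hlt⟩ := h2
    rw [Polynomial.eval_mul, Polynomial.eval_mul, Polynomial.eval_prod]
    have h5 : ∏ j, Polynomial.eval Ln.x₀ (∏ e ∈ range (β j),
      (Ln.Mp j - Polynomial.C ((m j : ℕ) : ℂ) + 1 + Polynomial.C (e : ℂ))) = 0 := by
      refine Finset.prod_eq_zero (Finset.mem_univ j) ?_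
      rw [Polynomial.eval_prod]
      refine Finset.prod_eq_zero (Finset.mem_range.2 hlt) ?_
      simp only [Polynomial.eval_add, Polynomial.eval_sub, Polynomial.eval_C, Polynomial.eval_one,
        Ln.Mp_x₀ j hj]
      ring
    rw [h5]
    ring

theorem sum_a_support (k : ℕ) : ∑ v ∈ f.support, Ln.a k v = Ln.q k := by
  unfold q
  symm
  exact Finset.sum_subset R.sg_subset fun v _ hv => Ln.a_off k v hv

theorem sum_a_mul_support (k : ℕ) (j : Fin n) :
    ∑ v ∈ f.support, Ln.a k v * v j = Ln.M k j := by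
  rw [M_apply]
  symm
  refine Finset.sum_subset R.sg_subset fun v _ hv => ?_
  rw [Ln.a_off k v hv, zero_mul]

theorem base_good (β : Fin n →₀ ℕ) :
    Ln.Good (fun q => dPow β ((f : MvPowerSeries (Fin n) ℂ) ^ (q + 1))) := by
  classical
  obtain ⟨E₀, hE₀⟩ := R.exists_bound β
  refine ⟨E₀, fun E hE => ⟨R.box β, Ln.baseP β E, ?_, Ln.baseP_x₀ β E, ?_⟩⟩
  · intro m hm
    unfold baseP
    rw [R.Dlf_eq_empty hm]
    simp
  intro k m
  rw [baseP_eval]
  -- displacements with a negative exponent contribute zero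
  have hzero : ∀ δ : (Fin n →₀ ℕ) → ℤ, (∃ v ∈ R.sg, (Ln.a k v : ℤ) + δ v < 0) →
      ∏ v ∈ R.sg, ∏ e ∈ Ioc (δ v) (E : ℤ), ((Ln.a k v : ℂ) + (e : ℂ)) = 0 := by
    rintro δ ⟨v, hv, h⟩
    exact Finset.prod_eq_zero hv (prod_Ioc_eq_zero _ _ _ h)
  have hsum : ∀ δ ∈ R.Dlf β m, ∀ j, ∑ v ∈ f.support, ((Ln.a k v : ℤ) + δ v) * ((v j : ℕ) : ℤ) =
      (Ln.M k j : ℤ) + β j - m j := by
    intro δ hδ j
    have h1 := (R.mem_Dlf.1 hδ).2.2.2 j
    have h2 := Ln.sum_a_mul_support k j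
    have h3 : ∑ v ∈ f.support, (Ln.a k v : ℤ) * ((v j : ℕ) : ℤ) = (Ln.M k j : ℤ) := by
      exact_mod_cast h2
    simp only [add_mul, Finset.sum_add_distrib]
    rw [h1, h3]
    ring
  have hnonneg : ∀ δ ∈ R.Dlf β m, (¬ ∃ v ∈ R.sg, (Ln.a k v : ℤ) + δ v < 0) →
      ∀ v ∈ f.support, 0 ≤ (Ln.a k v : ℤ) + δ v := by
    intro δ hδ h v hv
    by_cases hs : v ∈ R.sg
    · by_contra h3
      exact h ⟨v, hs, not_le.1 h3⟩
    · have := (R.mem_Dlf.1 hδ).2.1 v hv hs
      omega
  by_cases hm : m ≤ Ln.M k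
  · unfold NC
    simp only [if_pos hm, coeff_dPow]
    rw [← MvPolynomial.coe_pow, MvPolynomial.coeff_coe, coeff_pow_eq]
    have hasc : (∏ j, ((((Ln.M k - m) j + 1).ascFactorial (β j) : ℕ) : ℂ)) =
        ∏ j, ∏ e ∈ range (β j), ((Ln.M k j : ℂ) - (m j : ℂ) + 1 + e) := by
      refine Finset.prod_congr rfl fun j _ => ?_
      rw [Nat.ascFactorial_eq_prod_range]
      push_cast
      refine Finset.prod_congr rfl fun e _ => ?_
      simp only [Pi.sub_apply]
      rw [Nat.cast_sub (hm j)]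
    have hmain : (∑ κ ∈ (piAntidiag f.support (Ln.q k + 1)).filter
        (fun κ => ∑ v ∈ f.support, κ v • v = Ln.M k - m + β),
        (Nat.multinomial f.support κ : ℂ) * ∏ v ∈ f.support, coeff v f ^ κ v) * Ln.nrm E k =
        ((Ln.q k : ℂ) + 1) * ∑ δ ∈ R.Dlf β m, cst R δ *
        ∏ v ∈ R.sg, ∏ e ∈ Ioc (δ v) (E : ℤ), ((Ln.a k v : ℂ) + (e : ℂ)) := by
      rw [Finset.sum_mul, Finset.mul_sum]
      have hκ : ∀ κ ∈ (piAntidiag f.support (Ln.q k + 1)).filter
        (fun κ => ∑ v ∈ f.support, κ v • v = Ln.M k - m + β),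
        (fun v => (κ v : ℤ) - Ln.a k v) ∈ R.Dlf β m := by
        intro κ hκ
        rw [Finset.mem_filter, Finset.mem_piAntidiag] at hκ
        obtain ⟨⟨h1, h2⟩, h3⟩ := hκ
        rw [mem_Dlf]
        refine ⟨?_, ?_, ?_, ?_⟩
        · intro v hv
          have h4 : κ v = 0 := by
            by_contra h5; exact hv (h2 v h5)
          have h5 := Ln.a_off k v (fun h6 => hv (R.sg_subset h6))
          simp [h4, h5]
        · intro v _ hs
          have h5 := Ln.a_off k v hs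
          simp [h5]
        · rw [Finset.sum_sub_distrib]
          have h4 := Ln.sum_a_support k
          have h5 : ∑ v ∈ f.support, κ v = Ln.q k + 1 := h1
          have h6 : ∑ v ∈ f.support, (κ v : ℤ) = (Ln.q k : ℤ) + 1 := by exact_mod_cast h5
          have h7 : ∑ v ∈ f.support, (Ln.a k v : ℤ) = (Ln.q k : ℤ) := by exact_mod_cast h4
          rw [h6, h7]; ring
        · intro j
          have h4 := congrArg (fun x : Fin n →₀ ℕ => x j) h3
          simp only [Finsupp.finsetSum_apply, Finsupp.coe_smul, Pi.smul_apply, smul_eq_mul,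
            Finsupp.coe_add, Finsupp.coe_tsub, Pi.add_apply, Pi.sub_apply] at h4
          have h5 := Ln.sum_a_mul_support k j
          have h6 : ∑ v ∈ f.support, (κ v : ℤ) * ((v j : ℕ) : ℤ) =
              ((Ln.M k j - m j + β j : ℕ) : ℤ) := by exact_mod_cast h4
          have h7 : ∑ v ∈ f.support, (Ln.a k v : ℤ) * ((v j : ℕ) : ℤ) = (Ln.M k j : ℤ) := by
            exact_mod_cast h5
          simp only [sub_mul, Finset.sum_sub_distrib]
          rw [h6, h7]
          have := hm j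
          omega
      refine Finset.sum_of_injOn (fun κ v => (κ v : ℤ) - Ln.a k v) ?_ ?_ ?_ ?_
      · intro κ _ κ' _ heq
        funext v
        have := congrFun heq v
        simp only at this
        omega
      · intro κ h
        exact hκ κ h
      · intro δ hδ hnot
        have h1 : ∃ v ∈ R.sg, (Ln.a k v : ℤ) + δ v < 0 := by
          by_contra hcon
          have hnn := hnonneg δ hδ hcon
          apply hnot
          have hδ' := R.mem_Dlf.1 hδ
          refine ⟨fun v => ((Ln.a k v : ℤ) + δ v).toNat, ?_, ?_⟩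
          · rw [Finset.mem_coe, Finset.mem_filter, Finset.mem_piAntidiag]
            refine ⟨⟨?_, ?_⟩, ?_⟩
            · have h2 : ∑ v ∈ f.support, ((((Ln.a k v : ℤ) + δ v).toNat : ℕ) : ℤ) =
                  (Ln.q k : ℤ) + 1 := by
                rw [Finset.sum_congr rfl fun v hv => Int.toNat_of_nonneg (hnn v hv),
                  Finset.sum_add_distrib, hδ'.2.2.1]
                have h7 : ∑ v ∈ f.support, (Ln.a k v : ℤ) = (Ln.q k : ℤ) := by
                  exact_mod_cast Ln.sum_a_support k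
                rw [h7]
              exact_mod_cast h2
            · intro v hv
              by_contra hs
              apply hv
              have h3 := hδ'.1 v hs
              have h4 := Ln.a_off k v (fun h6 => hs (R.sg_subset h6))
              simp [h3, h4]
            · ext j
              rw [Finsupp.finsetSum_apply]
              simp only [Finsupp.coe_smul, Pi.smul_apply, smul_eq_mul, Finsupp.coe_add,
                Finsupp.coe_tsub, Pi.add_apply, Pi.sub_apply]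
              have h2 : ∑ v ∈ f.support, ((((Ln.a k v : ℤ) + δ v).toNat : ℕ) : ℤ) *
                  ((v j : ℕ) : ℤ) = (Ln.M k j : ℤ) + β j - m j := by
                rw [← hsum δ hδ j]
                exact Finset.sum_congr rfl fun v hv => by
                  rw [Int.toNat_of_nonneg (hnn v hv)]
              have h3 := hm j
              have h4 : ((Ln.M k j - m j + β j : ℕ) : ℤ) = (Ln.M k j : ℤ) + β j - m j := by
                omega
              rw [← h4] at h2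
              exact_mod_cast h2
          · funext v
            by_cases hv : v ∈ f.support
            · have := hnn v hv
              simp only
              omega
            · have h3 := hδ'.1 v hv
              have h4 := Ln.a_off k v (fun h6 => hv (R.sg_subset h6))
              simp [h3, h4]
        rw [hzero δ h1, mul_zero, mul_zero]
      · intro κ h
        have h1 := h
        rw [Finset.mem_filter, Finset.mem_piAntidiag] at h1
        have hbox : m ∈ R.box β := by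
          by_contra hb
          have := hκ κ h
          rw [R.Dlf_eq_empty hb] at this
          simp at this
        exact Ln.term_eq E k κ h1.1.1 fun v hv => (hE₀ m hbox _ (hκ κ h) v hv).trans
          (by exact_mod_cast hE)
    rw [hasc, mul_assoc, hmain]
    ring
  · unfold NC
    rw [if_neg hm, zero_mul]
    symm
    by_cases hex : ∃ δ ∈ R.Dlf β m, ¬ ∃ v ∈ R.sg, (Ln.a k v : ℤ) + δ v < 0
    · obtain ⟨δ, hδ, hcon⟩ := hex
      have hnn := hnonneg δ hδ hcon
      obtain ⟨j, hj⟩ : ∃ j, Ln.M k j < m j := by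
        by_contra hc
        push Not at hc
        exact hm fun j => hc j
      have h1 := hsum δ hδ j
      have h2 : 0 ≤ ∑ v ∈ f.support, ((Ln.a k v : ℤ) + δ v) * ((v j : ℕ) : ℤ) :=
        Finset.sum_nonneg fun v hv => mul_nonneg (hnn v hv) (by positivity)
      have h3 : ∏ j, ∏ e ∈ range (β j), ((Ln.M k j : ℂ) - (m j : ℂ) + 1 + e) = 0 := by
        refine Finset.prod_eq_zero (Finset.mem_univ j) ?_
        refine Finset.prod_eq_zero (i := m j - Ln.M k j - 1) (Finset.mem_range.2 (by omega)) ?_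
        have h4 : ((m j - Ln.M k j - 1 : ℕ) : ℂ) = (m j : ℂ) - Ln.M k j - 1 := by
          rw [Nat.cast_sub (by omega), Nat.cast_sub (by omega), Nat.cast_one]
        rw [h4]
        ring
      rw [h3]
      ring
    · push Not at hex
      rw [Finset.sum_eq_zero fun δ hδ => ?_, mul_zero]
      obtain ⟨v, hv, h⟩ := hex δ hδ
      rw [hzero δ ⟨v, hv, h⟩, mul_zero]

theorem good_of_opVal {Φ : ℕ → MvPowerSeries (Fin n) ℂ}
    (h : OpVal (f : MvPowerSeries (Fin n) ℂ) Φ) : Ln.Good Φ := by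
  induction h with
  | base β => exact Ln.base_good β
  | add _ _ ih1 ih2 => exact Good.add Ln ih1 ih2
  | mul c _ ih => exact Good.mul Ln ih c

end Line

/-- The coefficient of `x^{M}` in `f^q` has exactly one term. -/
theorem coeff_M (Ln : R.Line) (k : ℕ) :
    coeff (Ln.M k) (f ^ (Ln.q k)) = (Nat.multinomial f.support (Ln.a k) : ℂ) *
      ∏ v ∈ f.support, coeff v f ^ (Ln.a k v) := by
  classical
  rw [coeff_pow_eq]
  have h : (piAntidiag f.support (Ln.q k)).filter
      (fun κ => ∑ v ∈ f.support, κ v • v = Ln.M k) = {Ln.a k} := by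
    ext κ
    rw [Finset.mem_filter, Finset.mem_piAntidiag, Finset.mem_singleton]
    constructor
    · rintro ⟨⟨h1, h2⟩, h3⟩
      -- the difference
      have hj : ∀ j, ∑ v ∈ f.support, ((κ v : ℤ) - Ln.a k v) * ((v j : ℕ) : ℤ) = 0 := by
        intro j
        have h4 := congrArg (fun x : Fin n →₀ ℕ => x j) h3
        simp only [Finsupp.finsetSum_apply, Finsupp.coe_smul, Pi.smul_apply, smul_eq_mul] at h4
        have h5 := Ln.sum_a_mul_support k j
        have h6 : ∑ v ∈ f.support, (κ v : ℤ) * ((v j : ℕ) : ℤ) = (Ln.M k j : ℤ) := by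
          exact_mod_cast h4
        have h7 : ∑ v ∈ f.support, (Ln.a k v : ℤ) * ((v j : ℕ) : ℤ) = (Ln.M k j : ℤ) := by
          exact_mod_cast h5
        simp only [sub_mul, Finset.sum_sub_distrib]
        rw [h6, h7, sub_self]
      have hs : ∑ v ∈ f.support, ((κ v : ℤ) - Ln.a k v) = 0 := by
        have h4 := Ln.sum_a_support k
        have h6 : ∑ v ∈ f.support, (κ v : ℤ) = (Ln.q k : ℤ) := by exact_mod_cast h1
        have h7 : ∑ v ∈ f.support, (Ln.a k v : ℤ) = (Ln.q k : ℤ) := by exact_mod_cast h4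
        rw [Finset.sum_sub_distrib, h6, h7, sub_self]
      have hw : ∑ v ∈ f.support, ((κ v : ℤ) - Ln.a k v) * ((wt R.ω v : ℤ) - R.Nω) = 0 := by
        have h4 : ∑ v ∈ f.support, ((κ v : ℤ) - Ln.a k v) * (wt R.ω v : ℤ) = 0 := by
          unfold wt
          push_cast
          simp only [Finset.mul_sum]
          rw [Finset.sum_comm]
          refine Finset.sum_eq_zero fun j _ => ?_
          have h5 := hj j
          calc _ = ∑ v ∈ f.support, (R.ω j : ℤ) * (((κ v : ℤ) - Ln.a k v) * ((v j : ℕ) : ℤ)) :=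
                Finset.sum_congr rfl fun v _ => by ring
            _ = 0 := by rw [← Finset.mul_sum, h5, mul_zero]
        simp only [mul_sub, Finset.sum_sub_distrib] at h4 ⊢
        rw [h4, ← Finset.sum_mul, hs]
        ring
      have hoff : ∀ v ∈ f.support, v ∉ R.sg → κ v = 0 := by
        have h4 : ∀ u ∈ f.support, 0 ≤ ((κ u : ℤ) - Ln.a k u) * ((wt R.ω u : ℤ) - R.Nω) := by
          intro u hu
          by_cases hus : u ∈ R.sg
          · rw [(R.mem_sg.1 hus).2]; simp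
          · rw [Ln.a_off k u hus]
            have := R.Nω_le u hu
            exact mul_nonneg (by simp) (by omega)
        intro v hv hvs
        have h5 := (Finset.sum_eq_zero_iff_of_nonneg h4).1 hw v hv
        rw [Ln.a_off k v hvs] at h5
        rcases mul_eq_zero.1 h5 with h6 | h6
        · simpa using h6
        · exact absurd (R.mem_sg.2 ⟨hv, by omega⟩) hvs
      have hon : ∀ v ∈ R.sg, κ v = Ln.a k v := by
        have : Fintype {v // v ∈ f.support ∧ wt R.ω v = R.Nω} :=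
          Fintype.subtype R.sg (fun v => R.mem_sg)
        have hl := Fintype.linearIndependent_iff.1 R.lin
          (fun v => ((κ v.1 - Ln.a k v.1 : ℤ) : ℚ)) ?_
        · intro v hv
          have := hl ⟨v, R.mem_sg.1 hv⟩
          have h2 : (κ v : ℤ) - Ln.a k v = 0 := by exact_mod_cast this
          omega
        · funext j
          simp only [Finset.sum_apply, Pi.smul_apply, smul_eq_mul, Pi.zero_apply]
          have h4 : ∑ v ∈ R.sg, ((κ v : ℤ) - Ln.a k v) * ((v j : ℕ) : ℤ) = 0 := by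
            rw [← hj j]
            refine Finset.sum_subset R.sg_subset fun v hv hs => ?_
            rw [hoff v hv hs, Ln.a_off k v hs]; simp
          have h5 : ∑ v ∈ R.sg, ((((κ v : ℤ) - Ln.a k v : ℤ)) : ℚ) * ((v j : ℕ) : ℚ) = 0 := by
            exact_mod_cast h4
          rw [← h5]
          rw [← Finset.sum_subtype R.sg (fun v => R.mem_sg)
            (fun v => ((((κ v : ℤ) - Ln.a k v : ℤ)) : ℚ) * ((v j : ℕ) : ℚ))]
      funext v
      by_cases hv : v ∈ f.support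
      · by_cases hs : v ∈ R.sg
        · exact hon v hs
        · rw [hoff v hv hs, Ln.a_off k v hs]
      · rw [Ln.a_off k v (fun h6 => hv (R.sg_subset h6))]
        by_contra h5
        exact hv (h2 v h5)
    · rintro rfl
      refine ⟨⟨Ln.sum_a_support k, fun v hv => ?_⟩, ?_⟩
      · by_contra hs
        exact hv (Ln.a_off k v (fun h6 => hs (R.sg_subset h6)))
      · ext j
        rw [Finsupp.finsetSum_apply]
        simp only [Finsupp.coe_smul, Pi.smul_apply, smul_eq_mul]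
        exact Ln.sum_a_mul_support k j
  rw [h, Finset.sum_singleton]

theorem lhs_eq (Ln : R.Line) (E k : ℕ) :
    coeff (Ln.M k) (f ^ (Ln.q k)) * Ln.nrm E k =
      ∏ v ∈ R.sg, ∏ e ∈ Ioc (0 : ℤ) (E : ℤ), ((Ln.a k v : ℂ) + (e : ℂ)) := by
  have hc : ∀ v ∈ f.support, coeff v f ≠ 0 := fun v hv => MvPolynomial.mem_support_iff.1 hv
  rw [coeff_M]
  have e1 : (Nat.multinomial f.support (Ln.a k) : ℂ) =
      ((Ln.q k)! : ℂ) / ∏ v ∈ R.sg, ((Ln.a k v)! : ℂ) := by
    have h6 : (∏ v ∈ R.sg, ((Ln.a k v)! : ℂ)) = ∏ v ∈ f.support, ((Ln.a k v)! : ℂ) := by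
      refine Finset.prod_subset R.sg_subset fun v _ hv => ?_
      rw [Ln.a_off k v hv]; simp
    rw [h6, eq_div_iff (Finset.prod_ne_zero_iff.2 fun v _ => by
      exact_mod_cast Nat.factorial_ne_zero _)]
    have := Nat.multinomial_spec f.support (Ln.a k)
    rw [Ln.sum_a_support] at this
    rw [mul_comm]
    exact_mod_cast this
  have e2 : ∏ v ∈ f.support, coeff v f ^ (Ln.a k v) =
      ∏ v ∈ R.sg, coeff v f ^ (Ln.a k v) := by
    symm
    refine Finset.prod_subset R.sg_subset fun v _ hv => ?_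
    rw [Ln.a_off k v hv, pow_zero]
  have e5 : ∏ v ∈ R.sg, ∏ e ∈ Ioc (0 : ℤ) (E : ℤ), ((Ln.a k v : ℂ) + (e : ℂ)) =
      (∏ v ∈ R.sg, ((Ln.a k v + E)! : ℂ)) / ∏ v ∈ R.sg, ((Ln.a k v)! : ℂ) := by
    rw [← Finset.prod_div_distrib]
    refine Finset.prod_congr rfl fun v hv => ?_
    rw [prod_Ioc_eq _ _ _ (by omega) (by omega)]
    congr 3
  have h3 : ∏ v ∈ R.sg, coeff v f ^ (Ln.a k v) ≠ 0 :=
    Finset.prod_ne_zero_iff.2 fun v hv => pow_ne_zero _ (hc v (R.sg_subset hv))
  have h4 : ((Ln.q k)! : ℂ) ≠ 0 := by exact_mod_cast Nat.factorial_ne_zero _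
  have h6 : (∏ v ∈ R.sg, ((Ln.a k v)! : ℂ)) ≠ 0 :=
    Finset.prod_ne_zero_iff.2 fun v _ => by exact_mod_cast Nat.factorial_ne_zero _
  rw [e1, e2, e5, Line.nrm]
  field_simp

/-- **Root theorem.** -/
theorem root (R : RootData f) (hf : f ≠ 0) (b : Polynomial ℂ)
    (hb : InDnForm f 1 (b.map (MvPowerSeries.C (σ := Fin n) (R := ℂ)))) :
    b.eval (-((∑ v ∈ R.sg, R.γ v : ℚ) : ℂ)) = 0 := by
  classical
  obtain ⟨Ln⟩ := R.exists_line
  obtain ⟨Φ, hΦ, q₀, hq⟩ := hb.exists_opVal hf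
  obtain ⟨E₀, hE⟩ := Ln.good_of_opVal hΦ
  obtain ⟨T, P, -, hP0, hP⟩ := hE E₀ le_rfl
  -- the left-hand side
  let B : Polynomial ℂ := b.comp Ln.Qp *
    ∏ v ∈ R.sg, ∏ e ∈ Ioc (0 : ℤ) (E₀ : ℤ), (Ln.A v + Polynomial.C (e : ℂ))
  have hB : ∀ k ≥ q₀, B.eval (k : ℂ) = (P 0).eval (k : ℂ) := by
    intro k hk
    have hqk : q₀ ≤ Ln.q k := hk.trans (Ln.a_large k)
    have h1 := (hq (Ln.q k) hqk).2
    rw [add_tsub_cancel_right] at h1
    rw [← hP k 0, Line.NC, if_pos (zero_le), tsub_zero, ← h1]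
    have h2 : Polynomial.eval (Ln.q k : MvPowerSeries (Fin n) ℂ)
        (b.map (MvPowerSeries.C (σ := Fin n) (R := ℂ))) =
        MvPowerSeries.C (b.eval (Ln.q k : ℂ)) := by
      rw [Polynomial.eval_map, ← Polynomial.eval₂_hom, map_natCast]
    rw [h2, MvPowerSeries.coeff_C_mul, ← MvPolynomial.coe_pow, MvPolynomial.coeff_coe, mul_assoc,
      lhs_eq Ln E₀ k]
    simp only [B]
    rw [Polynomial.eval_mul, Polynomial.eval_comp, Ln.Qp_eval, Polynomial.eval_prod]
    congr 1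
    refine Finset.prod_congr rfl fun v hv => ?_
    rw [Polynomial.eval_prod]
    refine Finset.prod_congr rfl fun e _ => ?_
    rw [Polynomial.eval_add, Ln.A_eval k v hv, Polynomial.eval_C]
  have hBP : B = P 0 := by
    refine Polynomial.eq_of_infinite_eval_eq _ _ ?_
    have h1 : ((fun k : ℕ => (k : ℂ)) '' Set.Ici q₀).Infinite :=
      (Set.Ici_infinite q₀).image (fun a _ b _ h => by exact_mod_cast h)
    refine h1.mono ?_
    rintro _ ⟨k, hk, rfl⟩
    exact hB k hk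
  have h0 : B.eval Ln.x₀ = 0 := by rw [hBP, hP0]
  simp only [B] at h0
  rw [Polynomial.eval_mul, Polynomial.eval_comp, Ln.Qp_x₀] at h0
  rcases mul_eq_zero.1 h0 with h | h
  · exact h
  · exfalso
    rw [Polynomial.eval_prod, Finset.prod_eq_zero_iff] at h
    obtain ⟨v, hv, h⟩ := h
    rw [Polynomial.eval_prod, Finset.prod_eq_zero_iff] at h
    obtain ⟨e, he, h⟩ := h
    rw [Polynomial.eval_add, Ln.A_x₀ v hv, Polynomial.eval_C] at h
    rw [Finset.mem_Ioc] at he
    refine R.γ_ne v (R.mem_sg.1 hv).1 (R.mem_sg.1 hv).2 (e - 1).toNat ?_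
    have h2 : ((R.γ v : ℚ) : ℂ) = ((e : ℚ) : ℂ) := by
      push_cast
      linear_combination -h
    have h3 : (R.γ v : ℚ) = (e : ℚ) := by exact_mod_cast h2
    rw [h3]
    have h4 : (((e - 1).toNat : ℕ) : ℤ) = e - 1 := Int.toNat_of_nonneg (by omega)
    have h5 : (((e - 1).toNat : ℕ) : ℚ) = (e : ℚ) - 1 := by exact_mod_cast congrArg (Int.cast : ℤ → ℚ) h4
    rw [h5]; ring

end RootData

end MPb07157
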