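import Pool.Agent.Lib.MP_b07157_ag.NewtRes
import Pool.Agent.Lib.MP_b07157_ag.NewtLemA
import Pool.Agent.Lib.MP_b07157_ag.NewtDilate

/-!
# Roots of Bernstein–Sato polynomials of very general polynomials in three variables
-/

noncomputable section

namespace MPb07157

open MvPolynomial Finset
open scoped Nat

/-- Sum over a function supported on three elements. -/
theorem sum_three {α : Type*} [Fintype α] {a b c : α} (hab : a ≠ b) (hac : a ≠ c) (hbc : b ≠ c)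
    (F : α → ℚ) (hF : ∀ v, v ≠ a → v ≠ b → v ≠ c → F v = 0) : ∑ v, F v = F a + F b + F c := by
  classical
  rw [← Finset.sum_subset (Finset.subset_univ {a, b, c})]
  · rw [Finset.sum_insert (by simp [hab, hac]), Finset.sum_insert (by simp [hbc]),
      Finset.sum_singleton]
    ring
  · intro v _ hv
    simp only [Finset.mem_insert, Finset.mem_singleton, not_or] at hv
    exact hF v hv.1 hv.2.1 hv.2.2

variable {f : MvPolynomial (Fin 3) ℂ}

theorem det3_ne {a b c : Fin 3 → ℕ} (h : det3 a b c ≠ 0) : a ≠ b ∧ a ≠ c ∧ b ≠ c := by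
  refine ⟨?_, ?_, ?_⟩
  · rintro rfl; apply h; unfold det3; ring
  · rintro rfl; apply h; unfold det3; ring
  · rintro rfl; apply h; unfold det3; ring

/-- The determinant as a rational number. -/
def dQ (a b c : Fin 3 → ℚ) : ℚ :=
  a 0 * (b 1 * c 2 - b 2 * c 1) - a 1 * (b 0 * c 2 - b 2 * c 0) + a 2 * (b 0 * c 1 - b 1 * c 0)

theorem dQ_cast (a b c : Fin 3 → ℕ) :
    dQ (fun j => (a j : ℚ)) (fun j => (b j : ℚ)) (fun j => (c j : ℚ)) = (det3 a b c : ℚ) := by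
  unfold dQ det3
  push_cast
  ring

/-- A function with three values. -/
def fun3 {α : Type*} [DecidableEq α] (a b c : α) (x y z : ℚ) (v : α) : ℚ :=
  if v = a then x else if v = b then y else if v = c then z else 0

theorem exists_coeffs (a b c : Fin 3 → ℚ) (h : dQ a b c ≠ 0) (y : Fin 3 → ℚ) :
    ∃ p q r : ℚ, ∀ j, p * a j + q * b j + r * c j = y j := by
  refine ⟨dQ y b c / dQ a b c, dQ a y c / dQ a b c, dQ a b y / dQ a b c, fun j => ?_⟩
  rw [div_mul_eq_mul_div, div_mul_eq_mul_div, div_mul_eq_mul_div, ← add_div, ← add_div,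
    div_eq_iff h]
  fin_cases j <;> simp only [dQ, Fin.zero_eta, Fin.mk_one, Fin.reduceFinMk] <;> ring

theorem coeffs_zero (a b c : Fin 3 → ℚ) (h : dQ a b c ≠ 0) {p q r : ℚ}
    (hz : ∀ j, p * a j + q * b j + r * c j = 0) : p = 0 ∧ q = 0 ∧ r = 0 := by
  have h0 := hz 0
  have h1 := hz 1
  have h2 := hz 2
  refine ⟨?_, ?_, ?_⟩
  · have : p * dQ a b c = 0 := by
      unfold dQ
      linear_combination (b 1 * c 2 - b 2 * c 1) * h0 - (b 0 * c 2 - b 2 * c 0) * h1 +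
        (b 0 * c 1 - b 1 * c 0) * h2
    exact (mul_eq_zero.1 this).resolve_right h
  · have : q * dQ a b c = 0 := by
      unfold dQ
      linear_combination -(a 1 * c 2 - a 2 * c 1) * h0 + (a 0 * c 2 - a 2 * c 0) * h1 -
        (a 0 * c 1 - a 1 * c 0) * h2
    exact (mul_eq_zero.1 this).resolve_right h
  · have : r * dQ a b c = 0 := by
      unfold dQ
      linear_combination (a 1 * b 2 - a 2 * b 1) * h0 - (a 0 * b 2 - a 2 * b 0) * h1 +
        (a 0 * b 1 - a 1 * b 0) * h2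
    exact (mul_eq_zero.1 this).resolve_right h

section Triple

variable (a b c : Sf f)

/-- The three exponents. -/
def rho3 : Finset (Sf f) := by
  classical exact {a, b, c}

theorem mem_rho3 {v : Sf f} : v ∈ rho3 a b c ↔ v = a ∨ v = b ∨ v = c := by
  unfold rho3
  simp

variable {a b c}

theorem sum_rho3 (h : det3 a.1 b.1 c.1 ≠ 0) (g F : Sf f → ℚ)
    (hg : ∀ v, v ∉ rho3 a b c → g v = 0) :
    ∑ v, g v * F v = g a * F a + g b * F b + g c * F c := by
  obtain ⟨hab, hac, hbc⟩ := det3_ne h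
  refine sum_three (fun h => hab (congrArg (fun v : Sf f => (v.1 : Fin 3 → ℕ)) h))
    (fun h => hac (congrArg (fun v : Sf f => (v.1 : Fin 3 → ℕ)) h))
    (fun h => hbc (congrArg (fun v : Sf f => (v.1 : Fin 3 → ℕ)) h)) _ fun v h1 h2 h3 => ?_
  rw [hg v (by rw [mem_rho3]; tauto), zero_mul]

theorem dQ_ne (h : det3 a.1 b.1 c.1 ≠ 0) :
    dQ (fun j => ((a.1 j : ℕ) : ℚ)) (fun j => ((b.1 j : ℕ) : ℚ)) (fun j => ((c.1 j : ℕ) : ℚ)) ≠ 0 := by
  rw [dQ_cast]
  exact_mod_cast h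

theorem lin3 (h : det3 a.1 b.1 c.1 ≠ 0) (g : Sf f → ℚ) (hg : ∀ v, v ∉ rho3 a b c → g v = 0)
    (h0 : ∀ j, ∑ v, g v * ((v.1 j : ℕ) : ℚ) = 0) : g = 0 := by
  have h1 : ∀ j, g a * ((a.1 j : ℕ) : ℚ) + g b * ((b.1 j : ℕ) : ℚ) + g c * ((c.1 j : ℕ) : ℚ) = 0 := by
    intro j
    rw [← sum_rho3 h g (fun v => ((v.1 j : ℕ) : ℚ)) hg]
    exact h0 j
  obtain ⟨ha, hb, hc⟩ := coeffs_zero _ _ _ (dQ_ne h) h1
  funext v
  by_cases hv : v ∈ rho3 a b c
  · rcases (mem_rho3 a b c).1 hv with rfl | rfl | rfl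
    · exact ha
    · exact hb
    · exact hc
  · exact hg v hv

/-- The function with the values `x`, `y`, `z` at `a`, `b`, `c`. -/
def g3 (a b c : Sf f) (x y z : ℚ) : Sf f → ℚ := by
  classical exact fun3 a b c x y z

theorem g3_props (h : det3 a.1 b.1 c.1 ≠ 0) (x y z : ℚ) :
    g3 a b c x y z a = x ∧ g3 a b c x y z b = y ∧ g3 a b c x y z c = z ∧
      ∀ v, v ∉ rho3 a b c → g3 a b c x y z v = 0 := by
  obtain ⟨hab, hac, hbc⟩ := det3_ne h
  have hab' : b ≠ a := fun h => hab (congrArg (fun v : Sf f => (v.1 : Fin 3 → ℕ)) h.symm)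
  have hac' : c ≠ a := fun h => hac (congrArg (fun v : Sf f => (v.1 : Fin 3 → ℕ)) h.symm)
  have hbc' : c ≠ b := fun h => hbc (congrArg (fun v : Sf f => (v.1 : Fin 3 → ℕ)) h.symm)
  unfold g3 fun3
  refine ⟨by simp, by simp [hab'], by simp [hac', hbc'], fun v hv => ?_⟩
  rw [mem_rho3] at hv
  push Not at hv
  simp [hv.1, hv.2.1, hv.2.2]

theorem span3 (h : det3 a.1 b.1 c.1 ≠ 0) (y : Fin 3 → ℚ) : ∃ g : Sf f → ℚ,
    (∀ v, v ∉ rho3 a b c → g v = 0) ∧ ∀ j, ∑ v, g v * ((v.1 j : ℕ) : ℚ) = y j := by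
  obtain ⟨p, q, r, hpqr⟩ := exists_coeffs _ _ _ (dQ_ne h) y
  obtain ⟨ha, hb, hc, h0⟩ := g3_props h p q r
  refine ⟨g3 a b c p q r, h0, fun j => ?_⟩
  rw [sum_rho3 h _ (fun v => ((v.1 j : ℕ) : ℚ)) h0, ha, hb, hc]
  exact hpqr j

theorem sum_g3 (h : det3 a.1 b.1 c.1 ≠ 0) (x y z : ℚ) : ∑ v, g3 a b c x y z v = x + y + z := by
  obtain ⟨ha, hb, hc, h0⟩ := g3_props h x y z
  have := sum_rho3 h (g3 a b c x y z) (fun _ => 1) h0
  simp only [mul_one] at this
  rw [this, ha, hb, hc]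

/-- The dual vector of `a`. -/
theorem exists_dual (h : det3 a.1 b.1 c.1 ≠ 0) : ∃ p : Fin 3 → ℚ, PV p a = 1 ∧ PV p b = 0 ∧
    PV p c = 0 := by
  have hD := dQ_ne h
  set D := dQ (fun j => ((a.1 j : ℕ) : ℚ)) (fun j => ((b.1 j : ℕ) : ℚ))
    (fun j => ((c.1 j : ℕ) : ℚ)) with hDdef
  refine ⟨![((b.1 1 : ℕ) : ℚ) * (c.1 2 : ℕ) - (b.1 2 : ℕ) * (c.1 1 : ℕ),
    -(((b.1 0 : ℕ) : ℚ) * (c.1 2 : ℕ) - (b.1 2 : ℕ) * (c.1 0 : ℕ)),
    ((b.1 0 : ℕ) : ℚ) * (c.1 1 : ℕ) - (b.1 1 : ℕ) * (c.1 0 : ℕ)] / fun _ => D, ?_, ?_, ?_⟩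
  · unfold PV
    rw [Fin.sum_univ_three]
    simp only [Pi.div_apply, Matrix.cons_val_zero, Matrix.cons_val_one, Matrix.cons_val]
    rw [div_mul_eq_mul_div, div_mul_eq_mul_div, div_mul_eq_mul_div, ← add_div, ← add_div,
      div_eq_iff hD, hDdef]
    unfold dQ
    ring
  · unfold PV
    rw [Fin.sum_univ_three]
    simp only [Pi.div_apply, Matrix.cons_val_zero, Matrix.cons_val_one, Matrix.cons_val]
    rw [div_mul_eq_mul_div, div_mul_eq_mul_div, div_mul_eq_mul_div, ← add_div, ← add_div,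
      div_eq_iff hD]
    ring
  · unfold PV
    rw [Fin.sum_univ_three]
    simp only [Pi.div_apply, Matrix.cons_val_zero, Matrix.cons_val_one, Matrix.cons_val]
    rw [div_mul_eq_mul_div, div_mul_eq_mul_div, div_mul_eq_mul_div, ← add_div, ← add_div,
      div_eq_iff hD]
    ring

end Triple

theorem B1like.perm1 {a b c : Fin 3 → ℕ} (h : B1like b a c) : B1like a b c := by
  obtain ⟨j, h⟩ := h
  refine ⟨j, ?_⟩
  unfold Pat at *
  tauto

theorem B1like.perm2 {a b c : Fin 3 → ℕ} (h : B1like c b a) : B1like a b c := by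
  obtain ⟨j, h⟩ := h
  refine ⟨j, ?_⟩
  unfold Pat at *
  tauto

theorem B1like.perm3 {a b c : Fin 3 → ℕ} (h : B1like a c b) : B1like a b c := by
  obtain ⟨j, h⟩ := h
  refine ⟨j, ?_⟩
  unfold Pat at *
  tauto

section

variable (hf : f ≠ 0) (halg : AlgebraicIndependent ℚ (cf f)) {w : Fin 3 → ℕ} {N : ℕ}
  (hN : 0 < N) (hw : ∀ j, 0 < w j) (hmin : ∀ v ∈ f.support, N ≤ wt w v) {a b c : Sf f}
  (ha : wt w a.1 = N) (hb : wt w b.1 = N) (hc : wt w c.1 = N) (h : det3 a.1 b.1 c.1 ≠ 0)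
  {x y z : ℚ} (hxyz : ∀ j, x * ((a.1 j : ℕ) : ℚ) + y * ((b.1 j : ℕ) : ℚ) +
    z * ((c.1 j : ℕ) : ℚ) = 1)

include hf halg hN hmin ha hb hc h hxyz

theorem root3_nonres (hx : ∀ k : ℕ, x ≠ k + 1) (hy : ∀ k : ℕ, y ≠ k + 1)
    (hz : ∀ k : ℕ, z ≠ k + 1) (B : Polynomial ℂ) (hB : IsBernsteinSato f B) :
    B.eval ((-(x + y + z) : ℚ) : ℂ) = 0 := by
  obtain ⟨h1, h2, h3, h0⟩ := g3_props h x y z
  rw [← sum_g3 h x y z]
  refine root_of_nonres hf halg hN hmin (rho3 a b c) (fun v hv => ?_) (lin3 h) _ h0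
    (fun j _ => ?_) (fun v hv k => ?_) B hB
  · rcases (mem_rho3 a b c).1 hv with rfl | rfl | rfl <;> assumption
  · rw [sum_rho3 h _ (fun v => ((v.1 j : ℕ) : ℚ)) h0, h1, h2, h3]
    exact hxyz j
  · rcases (mem_rho3 a b c).1 hv with rfl | rfl | rfl
    · rw [h1]; exact hx k
    · rw [h2]; exact hy k
    · rw [h3]; exact hz k

include hw in
theorem root3_res (hBl : ¬ B1like a.1 b.1 c.1) {m : ℕ} (hm : 1 ≤ m) (hx : x = m)
    (hy : ∀ k : ℕ, y ≠ k + 1) (hz : ∀ k : ℕ, z ≠ k + 1) (B : Polynomial ℂ)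
    (hB : IsBernsteinSato f B) : B.eval ((-(x + y + z) : ℚ) : ℂ) = 0 := by
  obtain ⟨h1, h2, h3, h0⟩ := g3_props h x y z
  obtain ⟨p, hp1, hp2, hp3⟩ := exists_dual h
  rw [← sum_g3 h x y z]
  obtain ⟨hab, hac, hbc⟩ := det3_ne h
  let R : Res1 f :=
    { w := w
      N := N
      N_pos := hN
      w_pos := hw
      N_le := hmin
      ρ := rho3 a b c
      hρ := fun v hv => by
        rcases (mem_rho3 a b c).1 hv with rfl | rfl | rfl <;> assumption
      lin := lin3 h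
      span := span3 h
      γ := g3 a b c x y z
      γ0 := h0
      hγ := fun j => by
        rw [sum_rho3 h _ (fun v => ((v.1 j : ℕ) : ℚ)) h0, h1, h2, h3]
        exact hxyz j
      v₀ := a
      v₀_mem := (mem_rho3 a b c).2 (Or.inl rfl)
      m := m
      m_pos := hm
      γv₀ := by rw [h1, hx]
      hne := fun v hv hva k => by
        rcases (mem_rho3 a b c).1 hv with rfl | rfl | rfl
        · exact absurd rfl hva
        · rw [h2]; exact hy k
        · rw [h3]; exact hz k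
      p := p
      hp0 := fun v hv hva => by
        rcases (mem_rho3 a b c).1 hv with rfl | rfl | rfl
        · exact absurd rfl hva
        · exact hp2
        · exact hp3
      hp1 := hp1 }
  refine R.root hf halg ?_ B hB
  by_contra hcon
  push Not at hcon
  have hsum : ∑ j, p j = m := by
    have e1 : ∑ j, p j = ∑ j, p j * (x * ((a.1 j : ℕ) : ℚ) + y * ((b.1 j : ℕ) : ℚ) +
        z * ((c.1 j : ℕ) : ℚ)) := Finset.sum_congr rfl fun j _ => by rw [hxyz j, mul_one]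
    have e2 : ∑ j, p j * (x * ((a.1 j : ℕ) : ℚ) + y * ((b.1 j : ℕ) : ℚ) +
        z * ((c.1 j : ℕ) : ℚ)) = x * PV p a + y * PV p b + z * PV p c := by
      unfold PV
      rw [Finset.mul_sum, Finset.mul_sum, Finset.mul_sum, ← Finset.sum_add_distrib,
        ← Finset.sum_add_distrib]
      exact Finset.sum_congr rfl fun j _ => by ring
    rw [e1, e2, hp1, hp2, hp3, hx]
    ring
  obtain ⟨j, hj⟩ := lemA' a.1 b.1 c.1 h p hcon hp1 hp2 hp3 m hsum
  exact hBl ⟨j, Or.inl hj⟩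

end

theorem det3_perm1 {a b c : Fin 3 → ℕ} (h : det3 a b c ≠ 0) : det3 b a c ≠ 0 := by
  intro h1; apply h; unfold det3 at *; linarith

theorem det3_perm2 {a b c : Fin 3 → ℕ} (h : det3 a b c ≠ 0) : det3 c b a ≠ 0 := by
  intro h1; apply h; unfold det3 at *; linarith

theorem det3_perm3 {a b c : Fin 3 → ℕ} (h : det3 a b c ≠ 0) : det3 a c b ≠ 0 := by
  intro h1; apply h; unfold det3 at *; linarith

/-- A spanning triple that is not B1-like gives a root. -/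
theorem root3_triple (hf : f ≠ 0) (halg : AlgebraicIndependent ℚ (cf f)) {w : Fin 3 → ℕ} {N : ℕ}
    (hN : 0 < N) (hw : ∀ j, 0 < w j) (hmin : ∀ v ∈ f.support, N ≤ wt w v) {a b c : Sf f}
    (ha : wt w a.1 = N) (hb : wt w b.1 = N) (hc : wt w c.1 = N) (h : det3 a.1 b.1 c.1 ≠ 0)
    (hBl : ¬ B1like a.1 b.1 c.1) {s₀ : ℚ} (hs : ((∑ j, w j : ℕ) : ℚ) = -s₀ * N)
    (B : Polynomial ℂ) (hB : IsBernsteinSato f B) : B.eval (s₀ : ℂ) = 0 := by
  obtain ⟨x, y, z, hxyz⟩ := exists_coeffs _ _ _ (dQ_ne h) (fun _ => 1)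
  have hs₀ : s₀ = -(x + y + z) := by
    have e1 : (∑ j, (w j : ℚ)) = (x + y + z) * N := by
      have e2 : ∀ v : Sf f, ((wt w v.1 : ℕ) : ℚ) = ∑ j, (w j : ℚ) * ((v.1 j : ℕ) : ℚ) := by
        intro v; unfold wt; push_cast; rfl
      calc (∑ j, (w j : ℚ)) = ∑ j, (w j : ℚ) * (x * ((a.1 j : ℕ) : ℚ) + y * ((b.1 j : ℕ) : ℚ) +
            z * ((c.1 j : ℕ) : ℚ)) := Finset.sum_congr rfl fun j _ => by rw [hxyz j, mul_one]
        _ = x * ((wt w a.1 : ℕ) : ℚ) + y * ((wt w b.1 : ℕ) : ℚ) + z * ((wt w c.1 : ℕ) : ℚ) := by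
          rw [e2, e2, e2, Finset.mul_sum, Finset.mul_sum, Finset.mul_sum,
            ← Finset.sum_add_distrib, ← Finset.sum_add_distrib]
          exact Finset.sum_congr rfl fun j _ => by ring
        _ = _ := by rw [ha, hb, hc]; ring
    have e3 : (N : ℚ) ≠ 0 := by exact_mod_cast hN.ne'
    have e4 : (-s₀) * (N : ℚ) = (x + y + z) * N := by
      rw [← hs, ← e1]
      push_cast
      rfl
    have := mul_right_cancel₀ e3 e4
    linarith
  rw [hs₀]
  have hwt : ∀ v : Sf f, wt w v.1 = ∑ j, w j * v.1 j := fun v => rfl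
  by_cases hx : ∃ k : ℕ, x = k + 1
  · obtain ⟨k, hk⟩ := hx
    have h1 := lemA w hw N hN a.1 b.1 c.1 ha hb hc h hBl x y z hxyz
    have h2 := lemA w hw N hN a.1 c.1 b.1 ha hc hb (det3_perm3 h) (fun h' => hBl h'.perm3) x z y
      (fun j => by rw [← hxyz j]; ring)
    refine root3_res hf halg hN hw hmin ha hb hc h hxyz hBl (m := k + 1) (by omega)
      (by rw [hk]; push_cast; ring) (fun l hl => h1 ⟨⟨k, hk⟩, ⟨l, hl⟩⟩)
      (fun l hl => h2 ⟨⟨k, hk⟩, ⟨l, hl⟩⟩) B hB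
  · by_cases hy : ∃ k : ℕ, y = k + 1
    · obtain ⟨k, hk⟩ := hy
      have h2 := lemA w hw N hN b.1 c.1 a.1 hb hc ha (det3_perm3 (det3_perm1 h))
        (fun h' => hBl h'.perm3.perm1) y z x (fun j => by rw [← hxyz j]; ring)
      have := root3_res (x := y) (y := x) (z := z) hf halg hN hw hmin hb ha hc (det3_perm1 h)
        (fun j => by rw [← hxyz j]; ring)
        (fun h' => hBl h'.perm1) (m := k + 1) (by omega)
        (by rw [hk]; push_cast; ring) (fun l hl => hx ⟨l, hl⟩)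
        (fun l hl => h2 ⟨⟨k, hk⟩, ⟨l, hl⟩⟩) B hB
      rw [show -(x + y + z) = -(y + x + z) by ring]
      exact this
    · by_cases hz : ∃ k : ℕ, z = k + 1
      · obtain ⟨k, hk⟩ := hz
        have := root3_res (x := z) (y := y) (z := x) hf halg hN hw hmin hc hb ha (det3_perm2 h)
          (fun j => by rw [← hxyz j]; ring)
          (fun h' => hBl h'.perm2) (m := k + 1) (by omega)
          (by rw [hk]; push_cast; ring) (fun l hl => hy ⟨l, hl⟩)
          (fun l hl => hx ⟨l, hl⟩) B hB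
        rw [show -(x + y + z) = -(z + y + x) by ring]
        exact this
      · exact root3_nonres hf halg hN hmin ha hb hc h hxyz (fun k hk => hx ⟨k, hk⟩)
          (fun k hk => hy ⟨k, hk⟩) (fun k hk => hz ⟨k, hk⟩) B hB

end MPb07157
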