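import Mathlib

/-!
# Combinatorics of triples of exponents in three variables: definitions
-/

namespace MPb07157

/-- The determinant of three exponents. -/
def det3 (a b c : Fin 3 → ℕ) : ℤ :=
  (a 0 : ℤ) * ((b 1 : ℤ) * c 2 - (b 2 : ℤ) * c 1) - (a 1 : ℤ) * ((b 0 : ℤ) * c 2 - (b 2 : ℤ) * c 0) +
    (a 2 : ℤ) * ((b 0 : ℤ) * c 1 - (b 1 : ℤ) * c 0)

/-- The `j`-th coordinates of `a`, `b`, `c` are `1`, `0`, `0`. -/
def Pat (j : Fin 3) (a b c : Fin 3 → ℕ) : Prop := a j = 1 ∧ b j = 0 ∧ c j = 0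

/-- Some coordinate has the values `1`, `0`, `0` in some order. -/
def B1like (a b c : Fin 3 → ℕ) : Prop := ∃ j, Pat j a b c ∨ Pat j b c a ∨ Pat j c a b

end MPb07157
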