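import Pool.Agent.Lib.MP_b07157_ag.Arcs

noncomputable section

namespace MPb07157

open MvPolynomial

/-- Action of a matrix on truncated arcs. -/
def act {n N : ℕ} (P : Matrix (Fin n) (Fin n) ℂ) (γ : Fin n × Fin N → ℂ) : Fin n × Fin N → ℂ :=
  fun p => ∑ k, P p.1 k * γ (k, p.2)

theorem act_add {n N : ℕ} (P : Matrix (Fin n) (Fin n) ℂ) (γ δ : Fin n × Fin N → ℂ) :
    act P (γ + δ) = act P γ + act P δ := by
  funext p
  simp only [act, Pi.add_apply, mul_add, Finset.sum_add_distrib]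

theorem act_mul {n N : ℕ} (P Q : Matrix (Fin n) (Fin n) ℂ) (γ : Fin n × Fin N → ℂ) :
    act P (act Q γ) = act (P * Q) γ := by
  funext p
  simp only [act, Matrix.mul_apply, Finset.mul_sum, Finset.sum_mul]
  rw [Finset.sum_comm]
  simp only [mul_assoc]

theorem act_one {n N : ℕ} (γ : Fin n × Fin N → ℂ) : act 1 γ = γ := by
  funext p
  simp [act, Matrix.one_apply]

theorem act_zero {n N : ℕ} (γ : Fin n × Fin N → ℂ) : act 0 γ = 0 := by
  funext p
  simp [act]

theorem act_matrix_add {n N : ℕ} (P Q : Matrix (Fin n) (Fin n) ℂ) (γ : Fin n × Fin N → ℂ) :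
    act (P + Q) γ = act P γ + act Q γ := by
  funext p
  simp only [act, Pi.add_apply, Matrix.add_apply, add_mul, Finset.sum_add_distrib]

theorem arc_act {n N : ℕ} (P : Matrix (Fin n) (Fin n) ℂ) (γ : Fin n × Fin N → ℂ) :
    arc (act P γ) = fun i => ∑ k, PowerSeries.C (P i k) * arc γ k := by
  funext i
  simp only [arc, act, map_sum, map_mul, Finset.sum_mul, Finset.mul_sum]
  rw [Finset.sum_comm]
  simp only [mul_assoc]

/-- The swap involution `(α, β) ↦ (Pα + (1-P)β, Pβ + (1-P)α)` attached to an idempotent `P`. -/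
def swapPoly {n N : ℕ} (P : Matrix (Fin n) (Fin n) ℂ) :
    (Fin n × Fin N) ⊕ (Fin n × Fin N) → MvPolynomial ((Fin n × Fin N) ⊕ (Fin n × Fin N)) ℂ
  | Sum.inl p => ∑ k, C (P p.1 k) * X (Sum.inl (k, p.2)) +
      ∑ k, C ((1 - P) p.1 k) * X (Sum.inr (k, p.2))
  | Sum.inr p => ∑ k, C (P p.1 k) * X (Sum.inr (k, p.2)) +
      ∑ k, C ((1 - P) p.1 k) * X (Sum.inl (k, p.2))

theorem swapPoly_inl {n N : ℕ} (P : Matrix (Fin n) (Fin n) ℂ)
    (x : (Fin n × Fin N) ⊕ (Fin n × Fin N) → ℂ) :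
    (fun p => polyMap (swapPoly P) x (Sum.inl p)) =
      act P (fun p => x (Sum.inl p)) + act (1 - P) (fun p => x (Sum.inr p)) := by
  funext p
  simp [polyMap, swapPoly, act]

theorem swapPoly_inr {n N : ℕ} (P : Matrix (Fin n) (Fin n) ℂ)
    (x : (Fin n × Fin N) ⊕ (Fin n × Fin N) → ℂ) :
    (fun p => polyMap (swapPoly P) x (Sum.inr p)) =
      act P (fun p => x (Sum.inr p)) + act (1 - P) (fun p => x (Sum.inl p)) := by
  funext p
  simp [polyMap, swapPoly, act]

theorem swap_aux {n N : ℕ} {P : Matrix (Fin n) (Fin n) ℂ} (hP : P * P = P)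
    (α β : Fin n × Fin N → ℂ) :
    act P (act P α + act (1 - P) β) = act P α ∧
    act (1 - P) (act P α + act (1 - P) β) = act (1 - P) β := by
  have h1 : P * (1 - P) = 0 := by rw [mul_sub, mul_one, hP, sub_self]
  have h2 : (1 - P) * P = 0 := by rw [sub_mul, one_mul, hP, sub_self]
  have h3 : (1 - P) * (1 - P) = 1 - P := by
    rw [mul_sub, mul_one, h2, sub_zero]
  constructor
  · rw [act_add, act_mul, act_mul, hP, h1, act_zero, add_zero]
  · rw [act_add, act_mul, act_mul, h2, h3, act_zero, zero_add]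

theorem swap_swap {n N : ℕ} {P : Matrix (Fin n) (Fin n) ℂ} (hP : P * P = P)
    (x : (Fin n × Fin N) ⊕ (Fin n × Fin N) → ℂ) :
    polyMap (swapPoly P) (polyMap (swapPoly P) x) = x := by
  have h : ∀ α β : Fin n × Fin N → ℂ,
      act P (act P α + act (1 - P) β) + act (1 - P) (act P β + act (1 - P) α) = α := by
    intro α β
    rw [(swap_aux hP α β).1, (swap_aux hP β α).2, ← act_matrix_add, add_sub_cancel, act_one]
  funext p
  cases p with
  | inl p =>
    have := congrFun (swapPoly_inl P (polyMap (swapPoly P) x)) p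
    rw [this, swapPoly_inl, swapPoly_inr, h]
  | inr p =>
    have := congrFun (swapPoly_inr P (polyMap (swapPoly P) x)) p
    rw [this, swapPoly_inl, swapPoly_inr, h]

/-- Arcs with prescribed orders of two polynomials. -/
def arcs₂ {n : ℕ} (g h : MvPolynomial (Fin n) ℂ) (N k l : ℕ) : Set (Fin n × Fin N → ℂ) :=
  arcs g N k ∩ arcs h N l

theorem isConstr_arcs₂ {n : ℕ} (g h : MvPolynomial (Fin n) ℂ) (N k l : ℕ) :
    IsConstr (arcs₂ g h N k l) := (isConstr_arcs g N k).inter (isConstr_arcs h N l)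

theorem cls_arcs₂ {n : ℕ} {g h : MvPolynomial (Fin n) ℂ} {P : Matrix (Fin n) (Fin n) ℂ}
    (hP : P * P = P)
    (hg : ∀ α : Fin n → PowerSeries ℂ,
      aeval (fun i => ∑ k, PowerSeries.C (P i k) * α k) g = aeval α g)
    (hh : ∀ α : Fin n → PowerSeries ℂ,
      aeval (fun i => ∑ k, PowerSeries.C ((1 - P) i k) * α k) h = aeval α h)
    (N k l : ℕ) :
    cls (arcs g N k) * cls (arcs h N l) = cls (arcs₂ g h N k l) * L ^ (n * N) := by
  have hg' : ∀ γ : Fin n × Fin N → ℂ, (aeval (arc (act P γ)) g : PowerSeries ℂ)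
      = aeval (arc γ) g := fun γ => by rw [arc_act, hg]
  have hh' : ∀ γ : Fin n × Fin N → ℂ, (aeval (arc (act (1 - P) γ)) h : PowerSeries ℂ)
      = aeval (arc γ) h := fun γ => by rw [arc_act, hh]
  have key : ∀ α β : Fin n × Fin N → ℂ,
      (aeval (arc (act P α + act (1 - P) β)) g : PowerSeries ℂ) = aeval (arc α) g ∧
      (aeval (arc (act P α + act (1 - P) β)) h : PowerSeries ℂ) = aeval (arc β) h := by
    intro α β
    constructor
    · rw [← hg', (swap_aux hP α β).1, hg']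
    · rw [← hh', (swap_aux hP α β).2, hh']
  have hu : (L ^ (n * N) : K0) = cls (Set.univ : Set (Fin n × Fin N → ℂ)) := by
    rw [cls_univ_eq]; simp
  rw [hu, ← cls_prodSum (isConstr_arcs g N k) (isConstr_arcs h N l),
    ← cls_prodSum (isConstr_arcs₂ g h N k l) IsConstr.univ]
  refine cls_bijOn (isConstr_prodSum (isConstr_arcs g N k) (isConstr_arcs h N l))
    (isConstr_prodSum (isConstr_arcs₂ g h N k l) IsConstr.univ) (swapPoly P) ⟨?_, ?_, ?_⟩
  · rintro x ⟨hx1, hx2⟩
    refine ⟨?_, Set.mem_univ _⟩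
    rw [swapPoly_inl]
    simp only [arcs₂, arcs, Set.mem_inter_iff, Set.mem_ofPred_eq] at hx1 hx2 ⊢
    rw [(key _ _).1, (key _ _).2]
    exact ⟨hx1, hx2⟩
  · intro x _ y _ hxy
    have := congrArg (polyMap (swapPoly P)) hxy
    rwa [swap_swap hP, swap_swap hP] at this
  · rintro y ⟨hy, -⟩
    refine ⟨polyMap (swapPoly P) y, ⟨?_, ?_⟩, swap_swap hP y⟩
    · rw [swapPoly_inl]
      simp only [arcs₂, arcs, Set.mem_inter_iff, Set.mem_ofPred_eq] at hy ⊢
      rw [(key _ _).1]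
      exact hy.1
    · rw [swapPoly_inr]
      simp only [arcs₂, arcs, Set.mem_inter_iff, Set.mem_ofPred_eq] at hy ⊢
      rw [(key _ _).2]
      exact hy.2

theorem arcs_mul {n : ℕ} (g h : MvPolynomial (Fin n) ℂ) (N m : ℕ) :
    arcs (g * h) N m = ⋃ p ∈ Finset.HasAntidiagonal.antidiagonal m, arcs₂ g h N p.1 p.2 := by
  ext γ
  simp only [arcs, arcs₂, Set.mem_ofPred_eq, map_mul, PowerSeries.order_mul, Set.mem_iUnion,
    Finset.HasAntidiagonal.mem_antidiagonal, Set.mem_inter_iff, exists_prop, Prod.exists]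
  constructor
  · intro h1
    have h2 : (aeval (arc γ) g : PowerSeries ℂ).order ≠ ⊤ := by
      intro h3; rw [h3, top_add] at h1; exact absurd h1 (by simp)
    have h3 : (aeval (arc γ) h : PowerSeries ℂ).order ≠ ⊤ := by
      intro h3; rw [h3, add_top] at h1; exact absurd h1 (by simp)
    obtain ⟨k, hk⟩ := ENat.ne_top_iff_exists.1 h2
    obtain ⟨l, hl⟩ := ENat.ne_top_iff_exists.1 h3
    refine ⟨k, l, ?_, hk.symm, hl.symm⟩
    rw [← hk, ← hl] at h1
    exact_mod_cast h1
  · rintro ⟨k, l, hkl, hk, hl⟩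
    rw [hk, hl, ← hkl]
    simp

theorem cls_arcs_mul {n : ℕ} (g h : MvPolynomial (Fin n) ℂ) (N m : ℕ) :
    cls (arcs (g * h) N m) = ∑ p ∈ Finset.HasAntidiagonal.antidiagonal m, cls (arcs₂ g h N p.1 p.2) := by
  rw [arcs_mul]
  refine cls_biUnion _ _ (fun p _ => isConstr_arcs₂ g h N p.1 p.2) ?_
  rintro p _ q _ hpq
  rw [Set.disjoint_left]
  rintro γ ⟨h1, h2⟩ ⟨h3, h4⟩
  simp only [arcs, Set.mem_ofPred_eq] at h1 h2 h3 h4
  apply hpq
  ext
  · have := h1.symm.trans h3
    exact_mod_cast this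
  · have := h2.symm.trans h4
    exact_mod_cast this

/-- The zeta function of a product of polynomials in independent sets of variables (up to a
linear change of coordinates). -/
theorem Zmot_mul {n : ℕ} {g h : MvPolynomial (Fin n) ℂ} {P : Matrix (Fin n) (Fin n) ℂ}
    (hP : P * P = P)
    (hg : ∀ α : Fin n → PowerSeries ℂ,
      aeval (fun i => ∑ k, PowerSeries.C (P i k) * α k) g = aeval α g)
    (hh : ∀ α : Fin n → PowerSeries ℂ,
      aeval (fun i => ∑ k, PowerSeries.C ((1 - P) i k) * α k) h = aeval α h) :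
    Zmot (g * h) = Zmot g * Zmot h := by
  ext m
  rw [PowerSeries.coeff_mul]
  simp only [Zmot, PowerSeries.coeff_mk]
  have h1 : ∀ p ∈ Finset.HasAntidiagonal.antidiagonal m, Zcoeff g p.1 * Zcoeff h p.2 =
      ↑((LU ^ (n * (m + 1)))⁻¹) * algebraMap K0 Mot (cls (arcs₂ g h (m + 1) p.1 p.2)) := by
    intro p hp
    have hp' := Finset.HasAntidiagonal.mem_antidiagonal.1 hp
    rw [← mu_eq g (show p.1 < m + 1 by omega), ← mu_eq h (show p.2 < m + 1 by omega)]
    have h2 := congrArg (algebraMap K0 Mot) (cls_arcs₂ hP hg hh (m + 1) p.1 p.2)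
    rw [map_mul, map_mul, map_pow, ← LU_val, ← Units.val_pow_eq_pow_val] at h2
    unfold mu clsM
    calc _ = ↑((LU ^ (n * (m + 1)))⁻¹) * ↑((LU ^ (n * (m + 1)))⁻¹) *
        (algebraMap K0 Mot (cls (arcs g (m + 1) p.1)) *
          algebraMap K0 Mot (cls (arcs h (m + 1) p.2))) := by ring
      _ = _ := by
        rw [h2]
        calc _ = ↑((LU ^ (n * (m + 1)))⁻¹) * algebraMap K0 Mot (cls (arcs₂ g h (m + 1) p.1 p.2))
              * (↑((LU ^ (n * (m + 1)))⁻¹) * ↑((LU ^ (n * (m + 1))))) := by ring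
          _ = _ := by rw [Units.inv_mul, mul_one]
  rw [Finset.sum_congr rfl h1, ← Finset.mul_sum, ← map_sum, ← cls_arcs_mul]
  rfl

end MPb07157
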