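import Pool.Agent.Lib.MP_b07157_ag.ArrZeta
import Pool.Agent.Lib.MP_b07157_ag.Chamber
import Pool.Agent.Lib.MP_b07157_ag.Integr
import Pool.Agent.Lib.MP_b07157_ag.Diverge
import Pool.Agent.Lib.MP_b07157_ag.Analytic

noncomputable section

namespace MPb07157

open MvPolynomial MeasureTheory

variable {n : ℕ} {ι : Type} [Fintype ι] [DecidableEq ι]

/-- The real polynomial `∏_j (v_j·x + d_j)^{m_j}`. -/
def realPoly (v : ι → Fin n → ℝ) (d : ι → ℝ) (m : ι → ℕ) : MvPolynomial (Fin n) ℝ :=
  ∏ j, (∑ i, C (v j i) * X i + C (d j)) ^ m j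

omit [DecidableEq ι] in
theorem eval_realPoly (v : ι → Fin n → ℝ) (d : ι → ℝ) (m : ι → ℕ) (x : Fin n → ℝ) :
    eval x (realPoly v d m) = ∏ j, (v j ⬝ᵥ x + d j) ^ m j := by
  simp [realPoly, dotProduct]

omit [DecidableEq ι] in
theorem continuous_form (v : Fin n → ℝ) (d : ℝ) : Continuous fun x : Fin n → ℝ => v ⬝ᵥ x + d := by
  unfold dotProduct
  fun_prop

omit [Fintype ι] [DecidableEq ι] in
theorem rk_pos (v : ι → Fin n → ℝ) (F : Finset ι) (hF : F.Nonempty) (hv : ∀ j ∈ F, v j ≠ 0) :
    0 < rk v F := by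
  obtain ⟨j, hj⟩ := hF
  unfold rk
  rw [Module.finrank_pos_iff, Submodule.nontrivial_iff_ne_bot]
  intro h
  have h1 : v j ∈ Submodule.span ℝ (v '' (F : Set ι)) := Submodule.subset_span ⟨j, hj, rfl⟩
  rw [h, Submodule.mem_bot] at h1
  exact hv j hj h1

omit [Fintype ι] [DecidableEq ι] in
theorem rk_le_card (v : ι → Fin n → ℝ) (F : Finset ι) : rk v F ≤ F.card := by
  classical
  unfold rk
  have h1 := finrank_span_finset_le_card (R := ℝ) (F.image v)
  rw [Finset.coe_image] at h1
  exact h1.trans Finset.card_image_le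

/-- The root `-r_F/m_F` of the Bernstein–Sato polynomial, for a flat all of whose forms are
positive on the chosen chamber. -/
theorem root_core (v : ι → Fin n → ℝ) (d : ι → ℝ) (m : ι → ℕ) (hm : ∀ j, 0 < m j)
    (p : Fin n → ℝ) (F : Finset ι) (hFp : ∀ j ∈ F, v j ⬝ᵥ p + d j = 0)
    (hFp' : ∀ j ∉ F, 0 < v j ⬝ᵥ p + d j) (hv : ∀ j ∈ F, v j ≠ 0)
    (y : Fin n → ℝ) (hy : ∀ j ∈ F, 0 < v j ⬝ᵥ y) (i₀ : ι) (hi₀ : i₀ ∈ F)
    (dd : ι → ℝ) (hdd : ∀ j ∈ F.erase i₀, 0 < dd j)
    (hrel : (F.erase i₀).Nonempty → v i₀ = ∑ j ∈ F.erase i₀, dd j • v j)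
    (hcrit : ∀ S ⊆ F, v i₀ ∉ Submodule.span ℝ (v '' (S : Set ι)) →
      (∑ j ∈ S, m j) * rk v F ≤ (∑ j ∈ F, m j) * rk v S)
    (f : MvPolynomial (Fin n) ℂ) (σ : ℝ) (hσ : σ = 1 ∨ σ = -1)
    (hf : f = C (σ : ℂ) * map (algebraMap ℝ ℂ) (realPoly v d m)) :
    IsBernsteinSatoRoot f (-(((rk v F : ℕ) : ℚ) / ((∑ j ∈ F, m j : ℕ) : ℚ))) := by
  classical
  have hFne : F.Nonempty := ⟨i₀, hi₀⟩
  have hr : 0 < rk v F := rk_pos v F hFne hv
  have hM : 0 < ∑ j ∈ F, m j := Finset.sum_pos (fun j _ => hm j) hFne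
  have hrM : rk v F ≤ ∑ j ∈ F, m j := by
    refine (rk_le_card v F).trans ?_
    rw [Finset.card_eq_sum_ones]
    exact Finset.sum_le_sum fun j _ => hm j
  set r := rk v F with hrdef
  set M := ∑ j ∈ F, m j with hMdef
  have hrR : (0 : ℝ) < r := by exact_mod_cast hr
  have hMR : (0 : ℝ) < M := by exact_mod_cast hM
  -- the region
  let Ω : Set (Fin n → ℝ) := {x | ∀ j, 0 < v j ⬝ᵥ x + d j}
  have hΩ : IsOpen Ω := by
    have : Ω = ⋂ j, {x | 0 < v j ⬝ᵥ x + d j} := by ext x; simp [Ω]
    rw [this]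
    exact isOpen_iInter_of_finite fun j => isOpen_lt continuous_const (continuous_form (v j) (d j))
  have hpos : ∀ x ∈ Ω, 0 < eval x (realPoly v d m) := by
    intro x hx
    rw [eval_realPoly]
    exact Finset.prod_pos fun j _ => pow_pos (hx j) _
  have hfr : ∀ x ∈ frontier Ω, eval x (realPoly v d m) = 0 := by
    intro x hx
    rw [hΩ.frontier_eq] at hx
    obtain ⟨hx1, hx2⟩ := hx
    have hcl : ∀ j, 0 ≤ v j ⬝ᵥ x + d j := by
      intro j
      have h1 : closure Ω ⊆ {x | 0 ≤ v j ⬝ᵥ x + d j} :=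
        closure_minimal (fun z hz => (hz j).le)
          (isClosed_le continuous_const (continuous_form (v j) (d j)))
      exact h1 hx1
    have : ∃ j, v j ⬝ᵥ x + d j ≤ 0 := by
      by_contra hcon
      push Not at hcon
      exact hx2 hcon
    obtain ⟨j, hj⟩ := this
    rw [eval_realPoly]
    refine Finset.prod_eq_zero (Finset.mem_univ j) ?_
    rw [le_antisymm hj (hcl j), zero_pow (hm j).ne']
  -- the factor away from `F`
  let H : (Fin n → ℝ) → ℝ := fun x => ∏ j ∈ Finset.univ \ F, (v j ⬝ᵥ x + d j) ^ m j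
  have hHc : Continuous H := by
    refine continuous_finsetProd _ fun j _ => (continuous_form (v j) (d j)).pow _
  have hHp : 0 < H p := Finset.prod_pos fun j hj =>
    pow_pos (hFp' j (Finset.mem_sdiff.1 hj).2) _
  have hGc : Continuous fun x => eval x (realPoly v d m) := by
    simp only [eval_realPoly]
    exact continuous_finsetProd _ fun j _ => (continuous_form (v j) (d j)).pow _
  have hGp : eval p (realPoly v d m) = 0 := by
    rw [eval_realPoly]
    refine Finset.prod_eq_zero (Finset.mem_univ i₀) ?_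
    rw [hFp i₀ hi₀, zero_pow (hm i₀).ne']
  have hnear : ∀ᶠ x in nhds p, eval x (realPoly v d m) < 1 ∧ H p / 2 < H x ∧ H x < 2 * H p ∧
      ∀ j ∈ Finset.univ \ F, 0 < v j ⬝ᵥ x + d j := by
    refine Filter.Eventually.and ?_ (Filter.Eventually.and ?_ (Filter.Eventually.and ?_ ?_))
    · have := hGc.continuousAt (x := p)
      exact this.eventually_lt_const (by change eval p (realPoly v d m) < 1; rw [hGp]; exact one_pos)
    · exact (hHc.continuousAt (x := p)).eventually_const_lt (by linarith)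
    · exact (hHc.continuousAt (x := p)).eventually_lt_const (by linarith)
    · rw [Filter.eventually_all_finset]
      intro j hj
      exact ((continuous_form (v j) (d j)).continuousAt (x := p)).eventually_const_lt
        (hFp' j (Finset.mem_sdiff.1 hj).2)
  obtain ⟨ρ, hρ, hball⟩ := Metric.eventually_nhds_iff_ball.1 hnear
  let U := Metric.ball p ρ
  -- description near `p`
  have hform : ∀ j ∈ F, ∀ x, v j ⬝ᵥ x + d j = v j ⬝ᵥ (x - p) := by
    intro j hj x
    rw [dotProduct_sub]
    linarith [hFp j hj]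
  have hmemΩ : ∀ x ∈ U, x ∈ Ω ↔ ∀ j ∈ F, 0 < v j ⬝ᵥ (x - p) := by
    intro x hx
    constructor
    · intro h j hj
      rw [← hform j hj]; exact h j
    · intro h j
      by_cases hj : j ∈ F
      · rw [hform j hj]; exact h j hj
      · exact (hball x hx).2.2.2 j (Finset.mem_sdiff.2 ⟨Finset.mem_univ _, hj⟩)
  have hGfac : ∀ x, eval x (realPoly v d m) = (∏ j ∈ F, (v j ⬝ᵥ (x - p)) ^ m j) * H x := by
    intro x
    rw [eval_realPoly, ← Finset.prod_sdiff (Finset.subset_univ F), mul_comm]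
    congr 1
    exact Finset.prod_congr rfl fun j hj => by rw [hform j hj]
  have hcube : ∀ x, x ∈ U ↔ ∀ i, |(x - p) i| < ρ := by
    intro x
    rw [Metric.mem_ball, dist_pi_lt_iff hρ]
    simp [Real.dist_eq]
  -- integrability
  have hint : ∀ s : ℝ, ((-((r : ℚ) / (M : ℚ)) : ℚ) : ℝ) < s → s < 0 →
      IntegrableOn (fun x => (eval x (realPoly v d m)) ^ s) (Ω ∩ U) volume := by
    intro s hs hs0
    have hs' : -((r : ℝ) / M) < s := by
      have : ((-((r : ℚ) / (M : ℚ)) : ℚ) : ℝ) = -((r : ℝ) / M) := by push_cast; ring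
      rwa [this] at hs
    have hθ : -s * M / r < 1 := by
      rw [div_lt_one hrR]
      have h1 : -s < r / M := by linarith
      rwa [lt_div_iff₀ hMR] at h1
    have hI := integrableOn_chamber v F hv i₀ hi₀ dd hdd hrel (fun j => -s * m j)
      (fun j _ => mul_nonneg (by linarith) (Nat.cast_nonneg _)) (-s * M / r)
      (by have : 0 < -s := by linarith
          positivity) hθ
      (by
        intro S hS hS'
        have h1 := hcrit S hS hS'
        have h2 : ((∑ j ∈ S, m j : ℕ) : ℝ) * r ≤ (M : ℝ) * rk v S := by exact_mod_cast h1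
        rw [← Finset.mul_sum, div_mul_eq_mul_div, le_div_iff₀ hrR, ← Nat.cast_sum]
        nlinarith)
      (by
        rw [← Finset.mul_sum, ← Nat.cast_sum, ← hMdef, ← hrdef]
        field_simp) ρ
    -- translate
    have hmp := measurePreserving_sub_right (volume : Measure (Fin n → ℝ)) p
    have hI2 := (hmp.integrableOn_comp_preimage
      (MeasurableEquiv.subRight p).measurableEmbedding).2 hI
    have hI3 : IntegrableOn (fun x => (H p / 2) ^ s *
        ∏ j ∈ F, (v j ⬝ᵥ (x - p)) ^ (-(-s * (m j : ℝ)))) (Ω ∩ U) volume := by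
      refine Integrable.const_mul ?_ _
      refine IntegrableOn.mono_set hI2 ?_
      rintro x ⟨hx1, hx2⟩
      refine ⟨(hmemΩ x hx2).1 hx1, fun i => ((hcube x).1 hx2 i).le⟩
    refine Integrable.mono' hI3 ?_ ?_
    · exact (hGc.measurable.pow_const s).aestronglyMeasurable
    · refine (ae_restrict_iff' (hΩ.measurableSet.inter Metric.isOpen_ball.measurableSet)).2
        (Filter.Eventually.of_forall ?_)
      rintro x ⟨hx1, hx2⟩
      have hpF : ∀ j ∈ F, 0 < v j ⬝ᵥ (x - p) := (hmemΩ x hx2).1 hx1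
      have hprod : 0 < ∏ j ∈ F, (v j ⬝ᵥ (x - p)) ^ m j :=
        Finset.prod_pos fun j hj => pow_pos (hpF j hj) _
      obtain ⟨-, hH1, -, -⟩ := hball x hx2
      have hHx : 0 < H x := by linarith
      rw [hGfac, Real.norm_eq_abs, abs_of_pos (Real.rpow_pos_of_pos (mul_pos hprod hHx) s),
        Real.mul_rpow hprod.le hHx.le, mul_comm]
      refine mul_le_mul (Real.rpow_le_rpow_of_nonpos (by linarith) hH1.le hs0.le) ?_
        (Real.rpow_nonneg hprod.le s) (Real.rpow_nonneg (by linarith) s)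
      refine le_of_eq ?_
      rw [← Real.finsetProd_rpow _ _ (fun j hj => (pow_pos (hpF j hj) _).le)]
      refine Finset.prod_congr rfl fun j hj => ?_
      rw [← Real.rpow_natCast, ← Real.rpow_mul (hpF j hj).le]
      congr 1
      ring
  -- the bump function
  let φ : ContDiffBump p := ⟨ρ / 4, ρ / 2, by positivity, by linarith⟩
  have hsupp : tsupport (φ : (Fin n → ℝ) → ℝ) ⊆ U := by
    rw [φ.tsupport_eq]
    exact Metric.closedBall_subset_ball (by change ρ / 2 < ρ; linarith)
  refine isBernsteinSatoRoot_of_divergent f (realPoly v d m) σ hσ hf Ω U hΩ Metric.isOpen_ball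
    hpos hfr (fun x hx => (hball x hx).1.le) (-((r : ℚ) / (M : ℚ))) ?_ ?_ hint φ φ.contDiff
    φ.hasCompactSupport hsupp (fun x => φ.nonneg) ?_
  · rw [neg_le_neg_iff, div_le_one (by exact_mod_cast hM)]
    exact_mod_cast hrM
  · have : (0 : ℚ) < (r : ℚ) / M := div_pos (by exact_mod_cast hr) (by exact_mod_cast hM)
    linarith
  · -- divergence
    have hs0 : ((-((r : ℚ) / (M : ℚ)) : ℚ) : ℝ) = -((r : ℝ) / M) := by push_cast; ring
    rw [hs0]
    have hdiv := lintegral_chamber_eq_top v F hFne hv m (fun j _ => hm j) y hy (ρ / 4)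
      (by positivity)
    have hmp := measurePreserving_sub_right (volume : Measure (Fin n → ℝ)) p
    rw [← hmp.setLIntegral_comp_preimage_emb (MeasurableEquiv.subRight p).measurableEmbedding]
      at hdiv
    set D := (fun x => x - p) ⁻¹' {x : Fin n → ℝ | (∀ j ∈ F, 0 < v j ⬝ᵥ x) ∧
      ∀ i, |x i| < ρ / 4} with hD
    have hDΩ : D ⊆ Ω := by
      rintro x ⟨hx1, hx2⟩
      have hxU : x ∈ U := (hcube x).2 fun i => (hx2 i).trans (by linarith)
      exact (hmemΩ x hxU).2 hx1
    have hDm : MeasurableSet D := by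
      have h1 : D = (Ω ∩ Metric.ball p (ρ / 4)) := by
        ext x
        constructor
        · intro hx
          refine ⟨hDΩ hx, ?_⟩
          rw [Metric.mem_ball, dist_pi_lt_iff (by positivity)]
          intro i
          have := hx.2 i
          simpa [Real.dist_eq] using this
        · rintro ⟨hx1, hx2⟩
          rw [Metric.mem_ball, dist_pi_lt_iff (by positivity)] at hx2
          refine ⟨(hmemΩ x ((hcube x).2 fun i => ?_)).1 hx1, fun i => ?_⟩
          · have := hx2 i
            rw [Real.dist_eq] at this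
            simp only [Pi.sub_apply]
            linarith
          · have := hx2 i
            rw [Real.dist_eq] at this
            exact this
      rw [h1]
      exact hΩ.measurableSet.inter Metric.isOpen_ball.measurableSet
    have hK : 0 < (2 * H p) ^ (-((r : ℝ) / M)) := Real.rpow_pos_of_pos (by linarith) _
    have hle : ∫⁻ x in D, ENNReal.ofReal ((2 * H p) ^ (-((r : ℝ) / M))) *
        ENNReal.ofReal ((∏ j ∈ F, (v j ⬝ᵥ (x - p)) ^ m j) ^ (-((r : ℝ) / M))) ≤
        ∫⁻ x in Ω, ENNReal.ofReal ((eval x (realPoly v d m)) ^ (-((r : ℝ) / M)) * φ x) := by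
      refine le_trans ?_ (lintegral_mono_set hDΩ)
      refine setLIntegral_mono' hDm ?_
      rintro x hx
      have hxU : x ∈ U := (hcube x).2 fun i => (hx.2 i).trans (by linarith)
      have hpF : ∀ j ∈ F, 0 < v j ⬝ᵥ (x - p) := hx.1
      have hprod : 0 < ∏ j ∈ F, (v j ⬝ᵥ (x - p)) ^ m j :=
        Finset.prod_pos fun j hj => pow_pos (hpF j hj) _
      obtain ⟨-, hH1, hH2, -⟩ := hball x hxU
      have hHx : 0 < H x := by linarith
      have hφ1 : φ x = 1 := by
        refine φ.one_of_mem_closedBall ?_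
        change x ∈ Metric.closedBall p (ρ / 4)
        rw [Metric.mem_closedBall, dist_pi_le_iff (by positivity)]
        intro i
        have := (hx.2 i).le
        simpa [Real.dist_eq] using this
      rw [hφ1, mul_one, hGfac, ← ENNReal.ofReal_mul hK.le, Real.mul_rpow hprod.le hHx.le,
        mul_comm (_ ^ _) (H x ^ _)]
      refine ENNReal.ofReal_le_ofReal (mul_le_mul_of_nonneg_right ?_ (Real.rpow_nonneg hprod.le _))
      refine Real.rpow_le_rpow_of_nonpos hHx hH2.le ?_
      have : 0 < (r : ℝ) / M := div_pos hrR hMR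
      linarith
    rw [lintegral_const_mul', hdiv] at hle
    · rw [ENNReal.mul_top (by simpa using hK)] at hle
      exact top_le_iff.1 hle
    · exact ENNReal.ofReal_ne_top

end MPb07157
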